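import Pool.Agent.Lib.MP_50b720_co.Full.Arcs

set_option autoImplicit false

namespace Pool.Agent.Lib.MP_50b720_co

open SimpleGraph

variable {V : Type*} {G : SimpleGraph V}

namespace Fam

lemma sun_ind {k : ℕ} {u w : ZMod k → V} (huu : ∀ a b, a ≠ b → G.Adj (u a) (u b))
    (hwu : ∀ a b, w a ≠ u b ∧ (G.Adj (w a) (u b) ↔ (b = a ∨ b = a + 1)))
    (hww : ∀ a b, a ≠ b → NA G (w a) (w b)) : sun k ⊴ G := by
  refine ind_sum u w ?_ ?_ ?_
  · intro a b hab
    rw [sun_vv]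
    exact ⟨(huu a b hab).ne, iff_of_true (huu a b hab) hab⟩
  · intro a b
    rw [sun_wv]
    exact hwu b a
  · intro a b hab
    exact ⟨(hww a b hab).1, iff_of_false (hww a b hab).2 (sun_ww a b)⟩

lemma csun_ind {k : ℕ} {u w : ZMod k → V} {z : V} (huu : ∀ a b, a ≠ b → G.Adj (u a) (u b))
    (hwu : ∀ a b, w a ≠ u b ∧ (G.Adj (w a) (u b) ↔ (b = a ∨ b = a + 1)))
    (hww : ∀ a b, a ≠ b → NA G (w a) (w b)) (hz : ∀ a, G.Adj z (u a))
    (hzw : ∀ a, NA G (w a) z) : centeredSun k ⊴ G := by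
  refine ind_sum (fun o => o.elim z u) w ?_ ?_ ?_
  · rintro (_ | a) (_ | b) hab
    · exact absurd rfl hab
    · rw [csun_vv]; exact ⟨(hz b).ne, iff_of_true (hz b) (by simp)⟩
    · rw [csun_vv]; exact ⟨(hz a).ne', iff_of_true (hz a).symm (by simp)⟩
    · rw [csun_vv]
      have hab' : a ≠ b := fun h => hab (h ▸ rfl)
      exact ⟨(huu a b hab').ne, iff_of_true (huu a b hab') hab⟩
  · rintro (_ | a) b
    · rw [csun_wv]; exact ⟨(hzw b).1, iff_of_false (hzw b).2 (by simp)⟩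
    · rw [csun_wv]
      simp only [Option.some.injEq]
      exact hwu b a
  · intro a b hab
    exact ⟨(hww a b hab).1, iff_of_false (hww a b hab).2 (csun_ww a b)⟩

end Fam

lemma z4t (a b : ZMod 4) (h : decide (b = a ∨ b = a + 1) = true) : b = a ∨ b = a + 1 :=
  of_decide_eq_true h

lemma z4f (a b : ZMod 4) (h : decide (b = a ∨ b = a + 1) = false) : ¬ (b = a ∨ b = a + 1) :=
  of_decide_eq_false h

section

variable {K D : Set V}

lemma Spl.sun4_false (hG : NoListed G) (h : Spl G K D) {k0 k1 k2 k3 d0 d1 d2 d3 : V}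
    (hk0 : k0 ∈ K) (hk1 : k1 ∈ K) (hk2 : k2 ∈ K) (hk3 : k3 ∈ K)
    (hd0 : d0 ∈ D) (hd1 : d1 ∈ D) (hd2 : d2 ∈ D) (hd3 : d3 ∈ D)
    (e00 : G.Adj d0 k0) (e01 : G.Adj d0 k1) (n02 : ¬ G.Adj d0 k2) (n03 : ¬ G.Adj d0 k3)
    (n10 : ¬ G.Adj d1 k0) (e11 : G.Adj d1 k1) (e12 : G.Adj d1 k2) (n13 : ¬ G.Adj d1 k3)
    (n20 : ¬ G.Adj d2 k0) (n21 : ¬ G.Adj d2 k1) (e22 : G.Adj d2 k2) (e23 : G.Adj d2 k3)
    (e30 : G.Adj d3 k0) (n31 : ¬ G.Adj d3 k1) (n32 : ¬ G.Adj d3 k2) (e33 : G.Adj d3 k3) :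
    False := by
  refine hG.sn 4 le_rfl (by decide) (Fam.sun_ind (u := ![k0, k1, k2, k3])
    (w := ![d0, d1, d2, d3]) ?_ ?_ ?_)
  · have a01 := h.adjK hk0 hk1 e30 n31
    have a02 := h.adjK hk0 hk2 e00 n02
    have a03 := h.adjK hk0 hk3 e00 n03
    have a12 := h.adjK hk1 hk2 e01 n02
    have a13 := h.adjK hk1 hk3 e01 n03
    have a23 := h.adjK hk2 hk3 e12 n13
    intro a b hab
    fin_cases a <;> fin_cases b
    exacts [absurd rfl hab, a01, a02, a03, a01.symm, absurd rfl hab, a12, a13, a02.symm,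
      a12.symm, absurd rfl hab, a23, a03.symm, a13.symm, a23.symm, absurd rfl hab]
  · intro a b
    fin_cases a <;> fin_cases b
    · exact ⟨h.ne hd0 hk0, iff_of_true e00 (z4t 0 0 (by decide))⟩
    · exact ⟨h.ne hd0 hk1, iff_of_true e01 (z4t 0 1 (by decide))⟩
    · exact ⟨h.ne hd0 hk2, iff_of_false n02 (z4f 0 2 (by decide))⟩
    · exact ⟨h.ne hd0 hk3, iff_of_false n03 (z4f 0 3 (by decide))⟩
    · exact ⟨h.ne hd1 hk0, iff_of_false n10 (z4f 1 0 (by decide))⟩
    · exact ⟨h.ne hd1 hk1, iff_of_true e11 (z4t 1 1 (by decide))⟩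
    · exact ⟨h.ne hd1 hk2, iff_of_true e12 (z4t 1 2 (by decide))⟩
    · exact ⟨h.ne hd1 hk3, iff_of_false n13 (z4f 1 3 (by decide))⟩
    · exact ⟨h.ne hd2 hk0, iff_of_false n20 (z4f 2 0 (by decide))⟩
    · exact ⟨h.ne hd2 hk1, iff_of_false n21 (z4f 2 1 (by decide))⟩
    · exact ⟨h.ne hd2 hk2, iff_of_true e22 (z4t 2 2 (by decide))⟩
    · exact ⟨h.ne hd2 hk3, iff_of_true e23 (z4t 2 3 (by decide))⟩
    · exact ⟨h.ne hd3 hk0, iff_of_true e30 (z4t 3 0 (by decide))⟩
    · exact ⟨h.ne hd3 hk1, iff_of_false n31 (z4f 3 1 (by decide))⟩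
    · exact ⟨h.ne hd3 hk2, iff_of_false n32 (z4f 3 2 (by decide))⟩
    · exact ⟨h.ne hd3 hk3, iff_of_true e33 (z4t 3 3 (by decide))⟩
  · have a01 := h.naD hd0 hd1 e00 n10
    have a02 := h.naD hd0 hd2 e00 n20
    have a03 := h.naD hd0 hd3 e01 n31
    have a12 := h.naD hd1 hd2 e11 n21
    have a13 := h.naD hd1 hd3 e11 n31
    have a23 := h.naD hd2 hd3 e22 n32
    intro a b hab
    fin_cases a <;> fin_cases b
    exacts [absurd rfl hab, a01, a02, a03, a01.symm, absurd rfl hab, a12, a13, a02.symm,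
      a12.symm, absurd rfl hab, a23, a03.symm, a13.symm, a23.symm, absurd rfl hab]

/-- no member of `D` is contained in another one -/
def Anti (G : SimpleGraph V) (K D : Set V) : Prop :=
  ∀ x ∈ D, ∀ y ∈ D, x ≠ y → ∃ s ∈ K, G.Adj x s ∧ ¬ G.Adj y s

lemma Spl.elem3_aux (hG : NoListed G) (h : Spl G K D) (an : Anti G K D) {k x y z : V}
    (hk : k ∈ K) (hx : x ∈ D) (hy : y ∈ D) (hz : z ∈ D) (hxy : x ≠ y) (hxz : x ≠ z)
    (kx : G.Adj x k) (ky : G.Adj y k) (kz : G.Adj z k)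
    (hp : ¬ ∃ s ∈ K, G.Adj x s ∧ ¬ G.Adj y s ∧ ¬ G.Adj z s) : False := by
  push Not at hp
  obtain ⟨s1, hs1, a1, a2⟩ := an x hx y hy hxy
  obtain ⟨s2, hs2, b1, b2⟩ := an x hx z hz hxz
  have a3 : G.Adj z s1 := hp s1 hs1 a1 a2
  have b3 : G.Adj y s2 := by
    by_contra hcon
    exact b2 (hp s2 hs2 b1 hcon)
  by_cases ht : ∃ t ∈ K, G.Adj y t ∧ G.Adj z t ∧ ¬ G.Adj x t
  · obtain ⟨t, htK, t1, t2, t3⟩ := ht
    exact h.tent_false hG hk hs1 hs2 htK hx hy hz kx a1 b1 t3 ky a2 b3 t1 kz a3 b2 t2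
  · push Not at ht
    obtain ⟨r1, hr1, c1, c2⟩ := an y hy x hx hxy.symm
    obtain ⟨r2, hr2, d1, d2⟩ := an z hz x hx hxz.symm
    have c3 : ¬ G.Adj z r1 := fun h' => c2 (ht r1 hr1 c1 h')
    have d3 : ¬ G.Adj y r2 := fun h' => d2 (ht r2 hr2 h' d1)
    exact h.h819_false hG hk hr1 hs2 hs1 hr2 hy hx hz ky c1 b3 a2 d3 kx c2 b1 a1 d2 kz c3 b2 a3 d1

/-- no element of `K` is in three members of an antichain -/
lemma Spl.elem3 (hG : NoListed G) (h : Spl G K D) (an : Anti G K D) {k x y z : V}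
    (hk : k ∈ K) (hx : x ∈ D) (hy : y ∈ D) (hz : z ∈ D) (hxy : x ≠ y) (hxz : x ≠ z) (hyz : y ≠ z)
    (kx : G.Adj x k) (ky : G.Adj y k) (kz : G.Adj z k) : False := by
  by_cases p1 : ∃ s ∈ K, G.Adj x s ∧ ¬ G.Adj y s ∧ ¬ G.Adj z s
  · by_cases p2 : ∃ s ∈ K, G.Adj y s ∧ ¬ G.Adj x s ∧ ¬ G.Adj z s
    · by_cases p3 : ∃ s ∈ K, G.Adj z s ∧ ¬ G.Adj x s ∧ ¬ G.Adj y s
      · obtain ⟨s1, hs1, a1, a2, a3⟩ := p1
        obtain ⟨s2, hs2, b1, b2, b3⟩ := p2
        obtain ⟨s3, hs3, c1, c2, c3⟩ := p3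
        exact h.star_false hG hk hs1 hs2 hs3 hx hy hz kx a1 b2 c2 ky a2 b1 c3 kz a3 b3 c1
      · exact h.elem3_aux hG an hk hz hx hy hxz.symm hyz.symm kz kx ky p3
    · exact h.elem3_aux hG an hk hy hx hz hxy.symm hyz ky kx kz p2
  · exact h.elem3_aux hG an hk hx hy hz hxy hxz kx ky kz p1

lemma Spl.meet3_aux (hG : NoListed G) (h : Spl G K D) (an : Anti G K D) {x y1 y2 y3 : V}
    (hx : x ∈ D) (h1 : y1 ∈ D) (h2 : y2 ∈ D) (h3 : y3 ∈ D) (x1 : x ≠ y1) (x2 : x ≠ y2)
    (x3 : x ≠ y3) (h12 : y1 ≠ y2) (h13 : y1 ≠ y3) (h23 : y2 ≠ y3) {k1 k2 k3 l : V}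
    (m1 : k1 ∈ K) (m2 : k2 ∈ K) (m3 : k3 ∈ K) (ml : l ∈ K) (a1 : G.Adj x k1)
    (a2 : G.Adj x k2) (a3 : G.Adj x k3) (b1 : G.Adj y1 k1) (b2 : G.Adj y2 k2)
    (b3 : G.Adj y3 k3) (l1 : G.Adj y1 l) (l2 : G.Adj y2 l) (lx : ¬ G.Adj x l) : False := by
  have ex := fun {k x y z : V} => h.elem3 hG an (k := k) (x := x) (y := y) (z := z)
  have n13 : ¬ G.Adj y1 k3 := fun h' => ex m3 hx h1 h3 x1 x3 h13 a3 h' b3
  have n23 : ¬ G.Adj y2 k3 := fun h' => ex m3 hx h2 h3 x2 x3 h23 a3 h' b3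
  have n12 : ¬ G.Adj y1 k2 := fun h' => ex m2 hx h1 h2 x1 x2 h12 a2 h' b2
  have n21 : ¬ G.Adj y2 k1 := fun h' => ex m1 hx h1 h2 x1 x2 h12 a1 b1 h'
  have n31 : ¬ G.Adj y3 k1 := fun h' => ex m1 hx h1 h3 x1 x3 h13 a1 b1 h'
  have n32 : ¬ G.Adj y3 k2 := fun h' => ex m2 hx h2 h3 x2 x3 h23 a2 b2 h'
  have n3l : ¬ G.Adj y3 l := fun h' => ex ml h1 h2 h3 h12 h13 h23 l1 l2 h'
  obtain ⟨l', ml', c1, c2⟩ := an y3 h3 x hx x3.symm
  by_cases g1 : G.Adj y1 l'
  · have g2 : ¬ G.Adj y2 l' := fun h' => ex ml' h1 h2 h3 h12 h13 h23 g1 h' c1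
    exact h.sun4_false hG (k0 := k3) (k1 := l') (k2 := l) (k3 := k2) (d0 := y3) (d1 := y1)
      (d2 := y2) (d3 := x) m3 ml' ml m2 h3 h1 h2 hx b3 c1 n3l n32 n13 g1 l1 n12 n23 g2 l2 b2
      a3 c2 lx a2
  · by_cases g2 : G.Adj y2 l'
    · exact h.sun4_false hG (k0 := k3) (k1 := l') (k2 := l) (k3 := k1) (d0 := y3) (d1 := y2)
        (d2 := y1) (d3 := x) m3 ml' ml m1 h3 h2 h1 hx b3 c1 n3l n31 n23 g2 l2 n21 n13 g1 l1 b1
        a3 c2 lx a1
    · exact h.csun_false hG (k0 := k1) (k1 := l) (k2 := k2) (k3 := l') (d0 := y1) (d1 := y2)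
        (d2 := x) m1 ml m2 ml' h1 h2 hx b1 l1 n12 g1 n21 l2 b2 g2 a1 lx a2 c2

/-- no member of an antichain meets three others -/
lemma Spl.meet3 (hG : NoListed G) (h : Spl G K D) (an : Anti G K D) {x y1 y2 y3 : V}
    (hx : x ∈ D) (h1 : y1 ∈ D) (h2 : y2 ∈ D) (h3 : y3 ∈ D) (x1 : x ≠ y1) (x2 : x ≠ y2)
    (x3 : x ≠ y3) (h12 : y1 ≠ y2) (h13 : y1 ≠ y3) (h23 : y2 ≠ y3) {k1 k2 k3 : V}
    (m1 : k1 ∈ K) (m2 : k2 ∈ K) (m3 : k3 ∈ K) (a1 : G.Adj x k1)
    (a2 : G.Adj x k2) (a3 : G.Adj x k3) (b1 : G.Adj y1 k1) (b2 : G.Adj y2 k2)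
    (b3 : G.Adj y3 k3) : False := by
  have ex := fun {k x y z : V} => h.elem3 hG an (k := k) (x := x) (y := y) (z := z)
  have n13 : ¬ G.Adj y1 k3 := fun h' => ex m3 hx h1 h3 x1 x3 h13 a3 h' b3
  have n23 : ¬ G.Adj y2 k3 := fun h' => ex m3 hx h2 h3 x2 x3 h23 a3 h' b3
  have n12 : ¬ G.Adj y1 k2 := fun h' => ex m2 hx h1 h2 x1 x2 h12 a2 h' b2
  have n21 : ¬ G.Adj y2 k1 := fun h' => ex m1 hx h1 h2 x1 x2 h12 a1 b1 h'
  have n31 : ¬ G.Adj y3 k1 := fun h' => ex m1 hx h1 h3 x1 x3 h13 a1 b1 h'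
  have n32 : ¬ G.Adj y3 k2 := fun h' => ex m2 hx h2 h3 x2 x3 h23 a2 b2 h'
  obtain ⟨l1, o1, p1, q1⟩ := an y1 h1 x hx x1.symm
  obtain ⟨l2, o2, p2, q2⟩ := an y2 h2 x hx x2.symm
  obtain ⟨l3, o3, p3, q3⟩ := an y3 h3 x hx x3.symm
  have r12 : ∀ l ∈ K, ¬ G.Adj x l → G.Adj y1 l → ¬ G.Adj y2 l := fun l hl g1 g2 g3 =>
    h.meet3_aux hG an hx h1 h2 h3 x1 x2 x3 h12 h13 h23 m1 m2 m3 hl a1 a2 a3 b1 b2 b3 g2 g3 g1
  have r13 : ∀ l ∈ K, ¬ G.Adj x l → G.Adj y1 l → ¬ G.Adj y3 l := fun l hl g1 g2 g3 =>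
    h.meet3_aux hG an hx h1 h3 h2 x1 x3 x2 h13 h12 h23.symm m1 m3 m2 hl a1 a3 a2 b1 b3 b2 g2 g3 g1
  have r23 : ∀ l ∈ K, ¬ G.Adj x l → G.Adj y2 l → ¬ G.Adj y3 l := fun l hl g1 g2 g3 =>
    h.meet3_aux hG an hx h2 h3 h1 x2 x3 x1 h23 h12.symm h13.symm m2 m3 m1 hl a2 a3 a1 b2 b3 b1
      g2 g3 g1
  refine h.h1024_false hG (k0 := k1) (k1 := k2) (k2 := k3) (k3 := l1) (k4 := l2) (k5 := l3)
    (d0 := x) (d1 := y1) (d2 := y2) (d3 := y3) m1 m2 m3 o1 o2 o3 hx h1 h2 h3 a1 a2 a3 q1 q2 q3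
    b1 n12 n13 p1 ?_ ?_ n21 b2 n23 ?_ p2 ?_ n31 n32 b3 ?_ ?_ p3
  · exact fun h' => r12 l2 o2 q2 h' p2
  · exact fun h' => r13 l3 o3 q3 h' p3
  · exact fun h' => r12 l1 o1 q1 p1 h'
  · exact fun h' => r23 l3 o3 q3 h' p3
  · exact fun h' => r13 l1 o1 q1 p1 h'
  · exact fun h' => r23 l2 o2 q2 p2 h'

end

theorem antichain_false [Finite V] (hG : NoListed G) {U K : Set V} (h : MinNC G U)
    (hs : SpM G U K) (an : Anti G K (U \ K)) : False := by
  classical
  set D : Set V := U \ K with hDdef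
  have hspl : Spl G K D := hs.spl
  have ex := fun {k x y z : V} => hspl.elem3 hG an (k := k) (x := x) (y := y) (z := z)
  set R : V → V → Prop := fun x y => x ≠ y ∧ x ∈ D ∧ y ∈ D ∧ ∃ k ∈ K, G.Adj x k ∧ G.Adj y k
    with hR
  have hdeg : ∀ x ∈ D, ∀ y1 ∈ D, ∀ y2 ∈ D, ∀ y3 ∈ D, R x y1 → R x y2 → R x y3 →
      y1 = y2 ∨ y1 = y3 ∨ y2 = y3 := by
    rintro x hx y1 h1 y2 h2 y3 h3 ⟨x1, _, _, k1, m1, a1, b1⟩ ⟨x2, _, _, k2, m2, a2, b2⟩
      ⟨x3, _, _, k3, m3, a3, b3⟩
    by_contra hcon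
    push Not at hcon
    exact hspl.meet3 hG an hx h1 h2 h3 x1 x2 x3 hcon.1 hcon.2.1 hcon.2.2 m1 m2 m3 a1 a2 a3
      b1 b2 b3
  -- the diagram from positions
  have fin : ∀ (N : ℕ) (δ : V → ℕ), Odd N → 3 ≤ N → (∀ w ∈ D, δ w < N) →
      (∀ x ∈ D, ∀ y ∈ D, x ≠ y → δ x ≠ δ y) → (∀ x ∈ K, ∃ κ : ℕ, κ < 2 * N ∧
        ∀ w ∈ D, (G.Adj w x ↔ (κ = 2 * δ w ∨ κ = 2 * δ w + 1 ∨ κ + 1 = 2 * δ w ∨
        (δ w = 0 ∧ κ + 1 = 2 * N)))) → False := by
    intro N δ hN hN3 h1 h2 h3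
    have h3' : ∀ x, ∃ κ : ℕ, x ∈ K → κ < 2 * N ∧
        ∀ w ∈ D, (G.Adj w x ↔ (κ = 2 * δ w ∨ κ = 2 * δ w + 1 ∨ κ + 1 = 2 * δ w ∨
        (δ w = 0 ∧ κ + 1 = 2 * N))) := by
      intro x
      by_cases hx : x ∈ K
      · obtain ⟨κ, hκ⟩ := h3 x hx
        exact ⟨κ, fun _ => hκ⟩
      · exact ⟨0, fun h' => absurd h' hx⟩
    choose κ hκ using h3'
    apply h.nc
    have hKD : K ∪ D = U := Set.union_diff_cancel hs.mx.sub
    rw [← hKD]
    refine Circ.arcs N hN hN3 κ δ (fun x hx => (hκ x hx).1) h1 ?_ h2 hspl.dis hspl.clq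
      hspl.ind (fun w hw x hx => (hκ x hx).2 w hw)
    intro x hx y hy hxy heq
    obtain ⟨z, hz, hz'⟩ := h.spTw hs hx hy hxy
    apply hz'
    rw [(hκ x hx).2 z hz, (hκ y hy).2 z hz, heq]
  rcases path_or_cycle R (fun x h' => h'.1 rfl)
    (fun x y h' => ⟨h'.1.symm, h'.2.2.1, h'.2.1, by
      obtain ⟨_, _, _, k, hk, h1, h2⟩ := h'; exact ⟨k, hk, h2, h1⟩⟩) D hdeg with
    ⟨pos, hp1, hp2⟩ | ⟨n, hn, c0, hc1, hc2, hc3, hc4⟩
  · -- linear case
    obtain ⟨K0, hK0, hb⟩ := exists_bound pos pos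
    set δ : V → ℕ := fun x => (pos x + K0).toNat with hδ
    have hcast : ∀ x, (δ x : ℤ) = pos x + K0 := by
      intro x
      have := hb x
      simp only [hδ]
      omega
    have hinj : ∀ x ∈ D, ∀ y ∈ D, δ x = δ y → x = y := by
      intro x hx y hy hxy
      by_contra hne
      have := hp1 x hx y hy hne
      have e1 := hcast x
      have e2 := hcast y
      omega
    refine fin (2 * K0.toNat + 1) δ ⟨K0.toNat, rfl⟩ (by omega) ?_ ?_ ?_
    · intro w _
      have := hb w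
      have := hcast w
      omega
    · intro x hx y hy hxy h'
      exact hxy (hinj x hx y hy h')
    · intro k hk
      by_cases h1 : ∃ x ∈ D, G.Adj x k
      · obtain ⟨x, hx, hxk⟩ := h1
        have bx := hb x
        have cx := hcast x
        by_cases h2 : ∃ y ∈ D, y ≠ x ∧ G.Adj y k
        · obtain ⟨y, hy, hyx, hyk⟩ := h2
          have by' := hb y
          have cy := hcast y
          have hRxy : R x y := ⟨hyx.symm, hx, hy, k, hk, hxk, hyk⟩
          have hpos := hp2 x hx y hy hRxy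
          refine ⟨δ x + δ y, by omega, ?_⟩
          intro w hw
          constructor
          · intro hwk
            by_cases e1 : w = x
            · subst e1; omega
            · by_cases e2 : w = y
              · subst e2; omega
              · exact absurd (ex hk hx hy hw hyx.symm (Ne.symm e1) (Ne.symm e2) hxk hyk hwk) id
          · intro h3
            by_cases e1 : δ w = δ x
            · rw [hinj w hw x hx e1]; exact hxk
            · have e2 : δ w = δ y := by omega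
              rw [hinj w hw y hy e2]; exact hyk
        · push Not at h2
          refine ⟨2 * δ x, by omega, ?_⟩
          intro w hw
          constructor
          · intro hwk
            by_cases e1 : w = x
            · subst e1; omega
            · exact absurd hwk (h2 w hw e1)
          · intro h3
            have e1 : δ w = δ x := by omega
            rw [hinj w hw x hx e1]; exact hxk
      · push Not at h1
        refine ⟨0, by omega, ?_⟩
        intro w hw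
        refine iff_of_false (h1 w hw) ?_
        have := hb w
        have := hcast w
        omega
  · -- cyclic case
    have : NeZero n := ⟨by omega⟩
    have h1n := one_ne (k := n) hn
    have h2n := two_ne (k := n) hn
    obtain ⟨c, hcD, hcinj, hcR⟩ := zmod_cycle (K := D) hn hc1 hc2 hc3 hc4
    have hkex : ∀ i, ∃ k ∈ K, G.Adj (c i) k ∧ G.Adj (c (i + 1)) k := fun i => (hcR i).2.2.2
    choose k hkK hk1 hk2 using hkex
    have hcne : ∀ i, c i ≠ c (i + 1) := fun i => (hcR i).1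
    have hck : ∀ i j, G.Adj (c j) (k i) ↔ (j = i ∨ j = i + 1) := by
      intro i j
      constructor
      · intro h'
        by_contra hcon
        push Not at hcon
        exact ex (hkK i) (hcD i) (hcD (i + 1)) (hcD j) (hcne i)
          (fun h' => hcon.1 (hcinj h'.symm)) (fun h' => hcon.2 (hcinj h'.symm)) (hk1 i) (hk2 i) h'
      · rintro (rfl | rfl)
        exacts [hk1 _, hk2 _]
    have hkinj : ∀ i j, i ≠ j → k i ≠ k j := by
      intro i j hij heq
      have e1 := (hck j i).mp (heq ▸ hk1 i)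
      have e2 := (hck j (i + 1)).mp (heq ▸ hk2 i)
      rcases e1 with e1 | e1
      · exact hij e1
      · rcases e2 with e2 | e2
        · exact h2n (show (2 : ZMod n) = 0 by linear_combination e2 - e1)
        · exact h1n (show (1 : ZMod n) = 0 by linear_combination e2 - e1)
    have hwu : ∀ a b, c (a + 1) ≠ k b ∧ (G.Adj (c (a + 1)) (k b) ↔ (b = a ∨ b = a + 1)) := by
      intro a b
      refine ⟨hspl.ne (hcD _) (hkK _), ?_⟩
      rw [hck]
      constructor
      · rintro (h' | h')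
        · exact Or.inr h'.symm
        · exact Or.inl (add_right_cancel h').symm
      · rintro (h' | h')
        · right; rw [h']
        · left; rw [h']
    have huu : ∀ a b, a ≠ b → G.Adj (k a) (k b) := fun a b hab =>
      hs.mx.clq _ (hkK a) _ (hkK b) (hkinj a b hab)
    have hww : ∀ a b, a ≠ b → NA G (c (a + 1)) (c (b + 1)) := fun a b hab =>
      ⟨fun h' => hab (add_right_cancel (hcinj h')), hs.ind _ (hcD _) _ (hcD _)⟩
    rcases Nat.even_or_odd n with he | ho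
    · exact hG.sn n (by obtain ⟨r, hr⟩ := he; omega) he
        (Fam.sun_ind (u := k) (w := fun a => c (a + 1)) huu hwu hww)
    · by_cases hz : ∃ z ∈ K, ∀ i, ¬ G.Adj (c i) z
      · obtain ⟨z, hzK, hz⟩ := hz
        refine hG.cs n hn ho (Fam.csun_ind (u := k) (w := fun a => c (a + 1)) (z := z) huu hwu
          hww ?_ ?_)
        · intro a
          exact hs.mx.clq _ hzK _ (hkK a) (fun h' => hz a (h' ▸ hk1 a))
        · intro a
          exact ⟨hspl.ne (hcD _) hzK, hz _⟩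
      · push Not at hz
        have hall : ∀ x ∈ D, ∃ i, c i = x := by
          intro x hx
          by_contra hcon
          push Not at hcon
          obtain ⟨s, hsK, _, _, _, hxs, _⟩ := h.spTwo hs hx
          obtain ⟨i, hi⟩ := hz s hsK
          have hRx : R (c i) x := ⟨hcon i, hcD i, hx, s, hsK, hi, hxs⟩
          have hR1 := hcR i
          have hR2 : R (c i) (c (i - 1)) := by
            have := hcR (i - 1)
            rw [sub_add_cancel] at this
            obtain ⟨g1, g2, g3, k', g4, g5, g6⟩ := this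
            exact ⟨g1.symm, g3, g2, k', g4, g6, g5⟩
          rcases hdeg _ (hcD i) _ (hcD (i + 1)) _ (hcD (i - 1)) x hx hR1 hR2 hRx with h' | h' | h'
          · have := hcinj h'
            exact h2n (show (2 : ZMod n) = 0 by linear_combination this)
          · exact hcon _ h'
          · exact hcon _ h'
        have hidx : ∀ x, ∃ i : ZMod n, x ∈ D → c i = x := by
          intro x
          by_cases hx : x ∈ D
          · obtain ⟨i, hi⟩ := hall x hx
            exact ⟨i, fun _ => hi⟩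
          · exact ⟨0, fun h' => absurd h' hx⟩
        choose idx hidx using hidx
        refine fin n (fun x => (idx x).val) ho hn (fun x _ => ZMod.val_lt _) ?_ ?_
        · intro x hx y hy hxy h'
          have := ZMod.val_injective n h'
          exact hxy (by rw [← hidx x hx, ← hidx y hy, this])
        · intro z hzK
          obtain ⟨i, hi⟩ := hz z hzK
          have key : (∀ w ∈ D, G.Adj w z ↔ idx w = i) ∨ ∃ i', ∀ w ∈ D, G.Adj w z ↔
              (idx w = i' ∨ idx w = i' + 1) := by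
            by_cases h2 : ∃ j, j ≠ i ∧ G.Adj (c j) z
            · right
              obtain ⟨j, hji, hj⟩ := h2
              have hRij : R (c i) (c j) :=
                ⟨fun h' => hji (hcinj h').symm, hcD i, hcD j, z, hzK, hi, hj⟩
              have hR1 := hcR i
              have hR2 : R (c i) (c (i - 1)) := by
                have := hcR (i - 1)
                rw [sub_add_cancel] at this
                obtain ⟨g1, g2, g3, k', g4, g5, g6⟩ := this
                exact ⟨g1.symm, g3, g2, k', g4, g6, g5⟩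
              have hj' : j = i + 1 ∨ i = j + 1 := by
                rcases hdeg _ (hcD i) _ (hcD (i + 1)) _ (hcD (i - 1)) _ (hcD j) hR1 hR2 hRij with
                  h' | h' | h'
                · have := hcinj h'
                  exact absurd (show (2 : ZMod n) = 0 by linear_combination this) h2n
                · exact Or.inl (hcinj h').symm
                · right
                  have := hcinj h'
                  linear_combination this
              have hw3 : ∀ w ∈ D, G.Adj w z ↔ (idx w = i ∨ idx w = j) := by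
                intro w hw
                constructor
                · intro hwz
                  by_contra hcon
                  push Not at hcon
                  have e1 : w ≠ c i := fun h' => hcon.1 (hcinj ((hidx w hw).trans h'))
                  have e2 : w ≠ c j := fun h' => hcon.2 (hcinj ((hidx w hw).trans h'))
                  exact ex hzK (hcD i) (hcD j) hw (fun h' => hji (hcinj h').symm) e1.symm
                    e2.symm hi hj hwz
                · rintro (h' | h')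
                  · rw [← hidx w hw, h']; exact hi
                  · rw [← hidx w hw, h']; exact hj
              rcases hj' with h' | h'
              · refine ⟨i, fun w hw => ?_⟩
                rw [hw3 w hw, h']
              · refine ⟨j, fun w hw => ?_⟩
                rw [hw3 w hw, ← h', or_comm]
            · left
              push Not at h2
              intro w hw
              constructor
              · intro hwz
                by_contra hcon
                exact h2 (idx w) hcon (by rw [hidx w hw]; exact hwz)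
              · intro h'
                rw [← hidx w hw, h']; exact hi
          rcases key with hk | ⟨i', hk⟩
          · refine ⟨2 * i.val, by have := ZMod.val_lt i; omega, fun w hw => ?_⟩
            rw [hk w hw]
            constructor
            · intro h'; left; rw [h']
            · intro h'
              apply ZMod.val_injective n
              omega
          · refine ⟨2 * i'.val + 1, by have := ZMod.val_lt i'; omega, fun w hw => ?_⟩
            rw [hk w hw, zmod_succ_iff hn]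
            omega

end Pool.Agent.Lib.MP_50b720_co
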