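import Pool.Agent.Lib.MP_50b720_co.Full.SplitBase

set_option autoImplicit false

namespace Pool.Agent.Lib.MP_50b720_co

open SimpleGraph

variable {V : Type*}

open Classical in
/-- Chord diagram of a clique `K` with further pairwise nonadjacent vertices attached to three
consecutive members in a cyclic order of length `2N`, `N` odd. -/
lemma Circ.arcs {G : SimpleGraph V} {K D : Set V} (N : ℕ) (hN : Odd N) (hN3 : 3 ≤ N)
    (κ δ : V → ℕ) (hκ : ∀ x ∈ K, κ x < 2 * N) (hδ : ∀ w ∈ D, δ w < N)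
    (hκi : ∀ x ∈ K, ∀ y ∈ K, x ≠ y → κ x ≠ κ y)
    (hδi : ∀ x ∈ D, ∀ y ∈ D, x ≠ y → δ x ≠ δ y) (hd : ∀ x ∈ D, x ∉ K)
    (hK : ∀ x ∈ K, ∀ y ∈ K, x ≠ y → G.Adj x y) (hD : ∀ x ∈ D, ∀ y ∈ D, ¬ G.Adj x y)
    (hKD : ∀ w ∈ D, ∀ x ∈ K, (G.Adj w x ↔
      (κ x = 2 * δ w ∨ κ x = 2 * δ w + 1 ∨ κ x + 1 = 2 * δ w ∨
        (δ w = 0 ∧ κ x + 1 = 2 * N)))) : Circ G (K ∪ D) := by
  obtain ⟨M, hM⟩ := hN
  set s : V → ℤ := fun w => if δ w % 2 = 0 then (δ w : ℤ) else (δ w : ℤ) + N with hs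
  have hs2 : ∀ w ∈ D, s w % 2 = 0 ∧ (s w = δ w ∨ s w = (δ w : ℤ) + N) ∧ 0 ≤ s w ∧
      s w ≤ 2 * N - 2 ∧ (s w = 0 ↔ δ w = 0) := by
    intro w hw
    have := hδ w hw
    simp only [hs]
    split_ifs <;> omega
  set p : V → ℤ := fun z => if z ∈ K then 4 * (κ z : ℤ) else
    if s z = 0 then 16 * N - 5 else 8 * s z - 5 with hp
  set q : V → ℤ := fun z => if z ∈ K then 4 * (κ z : ℤ) + 8 * N else 8 * s z + 5 with hq
  have pK : ∀ z ∈ K, p z = 4 * (κ z : ℤ) := fun z hz => by simp [hp, hz]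
  have qK : ∀ z ∈ K, q z = 4 * (κ z : ℤ) + 8 * N := fun z hz => by simp [hq, hz]
  have pD : ∀ z ∈ D, (s z = 0 ∧ p z = 16 * N - 5) ∨ (s z ≠ 0 ∧ p z = 8 * s z - 5) := by
    intro z hz
    by_cases h0 : s z = 0
    · left; exact ⟨h0, by simp only [hp]; rw [if_neg (hd z hz), if_pos h0]⟩
    · right; exact ⟨h0, by simp only [hp]; rw [if_neg (hd z hz), if_neg h0]⟩
  have qD : ∀ z ∈ D, q z = 8 * s z + 5 := fun z hz => by simp [hq, hd z hz]
  refine ⟨p, q, ?_, ?_⟩
  · rintro u (hu | hu)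
    · rw [pK u hu, qK u hu]; omega
    · rw [qD u hu]
      have := pD u hu
      omega
  · rintro u (hu | hu) v (hv | hv) huv
    · rw [pK u hu, qK u hu, pK v hv, qK v hv]
      have h1 := hκi u hu v hv huv
      have h2 := hκ u hu
      have h3 := hκ v hv
      refine ⟨by omega, by omega, by omega, by omega, ?_⟩
      simp only [hK u hu v hv huv, true_iff]
      unfold Cross Btw; omega
    · rw [pK u hu, qK u hu, qD v hv]
      have h2 := hκ u hu
      have h3 := hδ v hv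
      obtain ⟨h4, h5, h6, h7, h8⟩ := hs2 v hv
      have h9 := pD v hv
      refine ⟨by omega, by omega, by omega, by omega, ?_⟩
      rw [G.adj_comm, hKD v hv u hu]
      unfold Cross Btw; omega
    · rw [pK v hv, qK v hv, qD u hu]
      have h2 := hκ v hv
      have h3 := hδ u hu
      obtain ⟨h4, h5, h6, h7, h8⟩ := hs2 u hu
      have h9 := pD u hu
      refine ⟨by omega, by omega, by omega, by omega, ?_⟩
      rw [hKD u hu v hv]
      unfold Cross Btw; omega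
    · rw [qD u hu, qD v hv]
      have h1 := hδi u hu v hv huv
      have h2 := hδ u hu
      have h3 := hδ v hv
      obtain ⟨h4, h5, h6, h7, h8⟩ := hs2 u hu
      obtain ⟨h4', h5', h6', h7', h8'⟩ := hs2 v hv
      have h9 := pD u hu
      have h9' := pD v hv
      have h10 : s u + 2 ≤ s v ∨ s v + 2 ≤ s u := by omega
      refine ⟨by omega, by omega, by omega, by omega, ?_⟩
      simp only [hD u hu v hv, false_iff]
      unfold Cross Btw; omega

end Pool.Agent.Lib.MP_50b720_co
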