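import Pool.Agent.Lib.MP_50b720_co.Full.NoListed

set_option autoImplicit false

namespace Pool.Agent.Lib.MP_50b720_co

open SimpleGraph

variable {V : Type*}

lemma sp0_false {G : SimpleGraph V} (hG : NoListed G) {v0 v1 v2 v3 v4 v5 v6 : V} (e01 : G.Adj v0
    v1) (e02 : G.Adj v0 v2) (e03 : G.Adj v0 v3) (e04 : G.Adj v0 v4) (e05 : G.Adj v0 v5) (e06 :
    G.Adj v0 v6) (e12 : G.Adj v1 v2) (e13 : G.Adj v1 v3) (e14 : G.Adj v1 v4) (n15 : NA G v1 v5)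
    (n16 : NA G v1 v6) (e23 : G.Adj v2 v3) (n24 : NA G v2 v4) (e25 : G.Adj v2 v5) (n26 : NA G v2
    v6) (n34 : NA G v3 v4) (n35 : NA G v3 v5) (e36 : G.Adj v3 v6) (n45 : NA G v4 v5) (n46 : NA G
    v4 v6) (n56 : NA G v5 v6) : False := by
  refine hG.sp (7, _) (by simp [sporadic]) (ofEdges_ind (n := 7) (L := [(0, 1), (0, 2), (0, 3),
      (1, 2), (1, 3), (2, 3), (4, 0), (4, 1), (5, 0), (5, 2), (6, 0), (6, 3)]) (E := [(0, 1), (0,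
      2), (0, 3), (0, 4), (0, 5), (0, 6), (1, 2), (1, 3), (1, 4), (2, 3), (2, 5), (3, 6)]) (N :=
      [(1, 5), (1, 6), (2, 4), (2, 6), (3, 4), (3, 5), (4, 5), (4, 6), (5, 6)]) (by decide) (look
      [v0, v1, v2, v3, v4, v5, v6] v0) ?_ ?_)
  · simp only [List.forall_mem_cons]
    exact ⟨e01, e02, e03, e04, e05, e06, e12, e13, e14, e23, e25, e36, List.forall_mem_nil _⟩
  · simp only [List.forall_mem_cons]
    exact ⟨n15, n16, n24, n26, n34, n35, n45, n46, n56, List.forall_mem_nil _⟩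

lemma sp1_false {G : SimpleGraph V} (hG : NoListed G) {v0 v1 v2 v3 v4 v5 v6 v7 : V} (e01 : G.Adj
    v0 v1) (e02 : G.Adj v0 v2) (e03 : G.Adj v0 v3) (e04 : G.Adj v0 v4) (e05 : G.Adj v0 v5) (e06 :
    G.Adj v0 v6) (e07 : G.Adj v0 v7) (e12 : G.Adj v1 v2) (e13 : G.Adj v1 v3) (e14 : G.Adj v1 v4)
    (n15 : NA G v1 v5) (n16 : NA G v1 v6) (n17 : NA G v1 v7) (n23 : NA G v2 v3) (n24 : NA G v2 v4)
    (e25 : G.Adj v2 v5) (n26 : NA G v2 v6) (n27 : NA G v2 v7) (n34 : NA G v3 v4) (n35 : NA G v3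
    v5) (e36 : G.Adj v3 v6) (n37 : NA G v3 v7) (n45 : NA G v4 v5) (n46 : NA G v4 v6) (e47 : G.Adj
    v4 v7) (n56 : NA G v5 v6) (n57 : NA G v5 v7) (n67 : NA G v6 v7) : False := by
  refine hG.sp (8, _) (by simp [sporadic]) (ofEdges_ind (n := 8) (L := [(0, 1), (0, 2), (0, 3),
      (0, 4), (1, 2), (1, 3), (1, 4), (5, 0), (5, 2), (6, 0), (6, 3), (7, 0), (7, 4)]) (E := [(0,
      1), (0, 2), (0, 3), (0, 4), (0, 5), (0, 6), (0, 7), (1, 2), (1, 3), (1, 4), (2, 5), (3, 6),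
      (4, 7)]) (N := [(1, 5), (1, 6), (1, 7), (2, 3), (2, 4), (2, 6), (2, 7), (3, 4), (3, 5), (3,
      7), (4, 5), (4, 6), (5, 6), (5, 7), (6, 7)]) (by decide) (look [v0, v1, v2, v3, v4, v5, v6,
      v7] v0) ?_ ?_)
  · simp only [List.forall_mem_cons]
    exact ⟨e01, e02, e03, e04, e05, e06, e07, e12, e13, e14, e25, e36, e47, List.forall_mem_nil _⟩
  · simp only [List.forall_mem_cons]
    exact ⟨n15, n16, n17, n23, n24, n26, n27, n34, n35, n37, n45, n46, n56, n57, n67,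
      List.forall_mem_nil _⟩

lemma sp2_false {G : SimpleGraph V} (hG : NoListed G) {v0 v1 v2 v3 v4 v5 v6 v7 : V} (e01 : G.Adj
    v0 v1) (e02 : G.Adj v0 v2) (e03 : G.Adj v0 v3) (e04 : G.Adj v0 v4) (e05 : G.Adj v0 v5) (e06 :
    G.Adj v0 v6) (n07 : NA G v0 v7) (e12 : G.Adj v1 v2) (e13 : G.Adj v1 v3) (e14 : G.Adj v1 v4)
    (n15 : NA G v1 v5) (n16 : NA G v1 v6) (e17 : G.Adj v1 v7) (n23 : NA G v2 v3) (n24 : NA G v2
    v4) (e25 : G.Adj v2 v5) (n26 : NA G v2 v6) (n27 : NA G v2 v7) (n34 : NA G v3 v4) (n35 : NA G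
    v3 v5) (e36 : G.Adj v3 v6) (n37 : NA G v3 v7) (n45 : NA G v4 v5) (n46 : NA G v4 v6) (e47 :
    G.Adj v4 v7) (n56 : NA G v5 v6) (n57 : NA G v5 v7) (n67 : NA G v6 v7) : False := by
  refine hG.sp (8, _) (by simp [sporadic]) (ofEdges_ind (n := 8) (L := [(0, 1), (0, 2), (0, 3),
      (0, 4), (1, 2), (1, 3), (1, 4), (5, 0), (5, 2), (6, 0), (6, 3), (7, 1), (7, 4)]) (E := [(0,
      1), (0, 2), (0, 3), (0, 4), (0, 5), (0, 6), (1, 2), (1, 3), (1, 4), (1, 7), (2, 5), (3, 6),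
      (4, 7)]) (N := [(0, 7), (1, 5), (1, 6), (2, 3), (2, 4), (2, 6), (2, 7), (3, 4), (3, 5), (3,
      7), (4, 5), (4, 6), (5, 6), (5, 7), (6, 7)]) (by decide) (look [v0, v1, v2, v3, v4, v5, v6,
      v7] v0) ?_ ?_)
  · simp only [List.forall_mem_cons]
    exact ⟨e01, e02, e03, e04, e05, e06, e12, e13, e14, e17, e25, e36, e47, List.forall_mem_nil _⟩
  · simp only [List.forall_mem_cons]
    exact ⟨n07, n15, n16, n23, n24, n26, n27, n34, n35, n37, n45, n46, n56, n57, n67,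
      List.forall_mem_nil _⟩

lemma sp3_false {G : SimpleGraph V} (hG : NoListed G) {v0 v1 v2 v3 v4 v5 v6 v7 v8 : V} (e01 :
    G.Adj v0 v1) (e02 : G.Adj v0 v2) (e03 : G.Adj v0 v3) (e04 : G.Adj v0 v4) (e05 : G.Adj v0 v5)
    (e06 : G.Adj v0 v6) (n07 : NA G v0 v7) (n08 : NA G v0 v8) (e12 : G.Adj v1 v2) (e13 : G.Adj v1
    v3) (e14 : G.Adj v1 v4) (e15 : G.Adj v1 v5) (n16 : NA G v1 v6) (e17 : G.Adj v1 v7) (n18 : NA G
    v1 v8) (e23 : G.Adj v2 v3) (e24 : G.Adj v2 v4) (e25 : G.Adj v2 v5) (n26 : NA G v2 v6) (n27 :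
    NA G v2 v7) (e28 : G.Adj v2 v8) (n34 : NA G v3 v4) (n35 : NA G v3 v5) (e36 : G.Adj v3 v6) (n37
    : NA G v3 v7) (n38 : NA G v3 v8) (n45 : NA G v4 v5) (n46 : NA G v4 v6) (e47 : G.Adj v4 v7)
    (n48 : NA G v4 v8) (n56 : NA G v5 v6) (n57 : NA G v5 v7) (e58 : G.Adj v5 v8) (n67 : NA G v6
    v7) (n68 : NA G v6 v8) (n78 : NA G v7 v8) : False := by
  refine hG.sp (9, _) (by simp [sporadic]) (ofEdges_ind (n := 9) (L := [(0, 1), (0, 2), (1, 2),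
      (3, 0), (3, 1), (3, 2), (4, 0), (4, 1), (4, 2), (5, 0), (5, 1), (5, 2), (6, 3), (6, 0), (7,
      4), (7, 1), (8, 5), (8, 2)]) (E := [(0, 1), (0, 2), (0, 3), (0, 4), (0, 5), (0, 6), (1, 2),
      (1, 3), (1, 4), (1, 5), (1, 7), (2, 3), (2, 4), (2, 5), (2, 8), (3, 6), (4, 7), (5, 8)]) (N
      := [(0, 7), (0, 8), (1, 6), (1, 8), (2, 6), (2, 7), (3, 4), (3, 5), (3, 7), (3, 8), (4, 5),
      (4, 6), (4, 8), (5, 6), (5, 7), (6, 7), (6, 8), (7, 8)]) (by decide) (look [v0, v1, v2, v3,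
      v4, v5, v6, v7, v8] v0) ?_ ?_)
  · simp only [List.forall_mem_cons]
    exact ⟨e01, e02, e03, e04, e05, e06, e12, e13, e14, e15, e17, e23, e24, e25, e28, e36, e47,
      e58, List.forall_mem_nil _⟩
  · simp only [List.forall_mem_cons]
    exact ⟨n07, n08, n16, n18, n26, n27, n34, n35, n37, n38, n45, n46, n48, n56, n57, n67, n68,
      n78, List.forall_mem_nil _⟩

lemma sp4_false {G : SimpleGraph V} (hG : NoListed G) {v0 v1 v2 v3 v4 v5 v6 v7 : V} (e01 : G.Adj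
    v0 v1) (e02 : G.Adj v0 v2) (e03 : G.Adj v0 v3) (e04 : G.Adj v0 v4) (e05 : G.Adj v0 v5) (n06 :
    NA G v0 v6) (n07 : NA G v0 v7) (e12 : G.Adj v1 v2) (e13 : G.Adj v1 v3) (n14 : NA G v1 v4) (e15
    : G.Adj v1 v5) (e16 : G.Adj v1 v6) (n17 : NA G v1 v7) (e23 : G.Adj v2 v3) (n24 : NA G v2 v4)
    (e25 : G.Adj v2 v5) (n26 : NA G v2 v6) (e27 : G.Adj v2 v7) (e34 : G.Adj v3 v4) (n35 : NA G v3
    v5) (n36 : NA G v3 v6) (n37 : NA G v3 v7) (n45 : NA G v4 v5) (n46 : NA G v4 v6) (n47 : NA G v4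
    v7) (e56 : G.Adj v5 v6) (e57 : G.Adj v5 v7) (n67 : NA G v6 v7) : False := by
  refine hG.sp (8, _) (by simp [sporadic]) (ofEdges_ind (n := 8) (L := [(0, 1), (0, 2), (1, 2),
      (3, 0), (3, 1), (3, 2), (4, 3), (4, 0), (5, 0), (5, 1), (5, 2), (6, 5), (6, 1), (7, 5), (7,
      2)]) (E := [(0, 1), (0, 2), (0, 3), (0, 4), (0, 5), (1, 2), (1, 3), (1, 5), (1, 6), (2, 3),
      (2, 5), (2, 7), (3, 4), (5, 6), (5, 7)]) (N := [(0, 6), (0, 7), (1, 4), (1, 7), (2, 4), (2,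
      6), (3, 5), (3, 6), (3, 7), (4, 5), (4, 6), (4, 7), (6, 7)]) (by decide) (look [v0, v1, v2,
      v3, v4, v5, v6, v7] v0) ?_ ?_)
  · simp only [List.forall_mem_cons]
    exact ⟨e01, e02, e03, e04, e05, e12, e13, e15, e16, e23, e25, e27, e34, e56, e57,
      List.forall_mem_nil _⟩
  · simp only [List.forall_mem_cons]
    exact ⟨n06, n07, n14, n17, n24, n26, n35, n36, n37, n45, n46, n47, n67, List.forall_mem_nil _⟩

lemma sp5_false {G : SimpleGraph V} (hG : NoListed G) {v0 v1 v2 v3 v4 v5 v6 v7 : V} (e01 : G.Adj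
    v0 v1) (e02 : G.Adj v0 v2) (e03 : G.Adj v0 v3) (e04 : G.Adj v0 v4) (e05 : G.Adj v0 v5) (e06 :
    G.Adj v0 v6) (n07 : NA G v0 v7) (e12 : G.Adj v1 v2) (e13 : G.Adj v1 v3) (e14 : G.Adj v1 v4)
    (n15 : NA G v1 v5) (e16 : G.Adj v1 v6) (e17 : G.Adj v1 v7) (n23 : NA G v2 v3) (e24 : G.Adj v2
    v4) (n25 : NA G v2 v5) (e26 : G.Adj v2 v6) (n27 : NA G v2 v7) (n34 : NA G v3 v4) (n35 : NA G
    v3 v5) (n36 : NA G v3 v6) (n37 : NA G v3 v7) (e45 : G.Adj v4 v5) (n46 : NA G v4 v6) (n47 : NA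
    G v4 v7) (n56 : NA G v5 v6) (n57 : NA G v5 v7) (e67 : G.Adj v6 v7) : False := by
  refine hG.sp (8, _) (by simp [sporadic]) (ofEdges_ind (n := 8) (L := [(0, 1), (0, 2), (1, 2),
      (3, 0), (3, 1), (4, 0), (4, 1), (4, 2), (5, 4), (5, 0), (6, 0), (6, 1), (6, 2), (7, 6), (7,
      1)]) (E := [(0, 1), (0, 2), (0, 3), (0, 4), (0, 5), (0, 6), (1, 2), (1, 3), (1, 4), (1, 6),
      (1, 7), (2, 4), (2, 6), (4, 5), (6, 7)]) (N := [(0, 7), (1, 5), (2, 3), (2, 5), (2, 7), (3,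
      4), (3, 5), (3, 6), (3, 7), (4, 6), (4, 7), (5, 6), (5, 7)]) (by decide) (look [v0, v1, v2,
      v3, v4, v5, v6, v7] v0) ?_ ?_)
  · simp only [List.forall_mem_cons]
    exact ⟨e01, e02, e03, e04, e05, e06, e12, e13, e14, e16, e17, e24, e26, e45, e67,
      List.forall_mem_nil _⟩
  · simp only [List.forall_mem_cons]
    exact ⟨n07, n15, n23, n25, n27, n34, n35, n36, n37, n46, n47, n56, n57, List.forall_mem_nil _⟩

lemma sp6_false {G : SimpleGraph V} (hG : NoListed G) {v0 v1 v2 v3 v4 v5 v6 v7 : V} (e01 : G.Adj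
    v0 v1) (e02 : G.Adj v0 v2) (e03 : G.Adj v0 v3) (e04 : G.Adj v0 v4) (e05 : G.Adj v0 v5) (n06 :
    NA G v0 v6) (e07 : G.Adj v0 v7) (e12 : G.Adj v1 v2) (e13 : G.Adj v1 v3) (n14 : NA G v1 v4)
    (e15 : G.Adj v1 v5) (e16 : G.Adj v1 v6) (e17 : G.Adj v1 v7) (e23 : G.Adj v2 v3) (n24 : NA G v2
    v4) (e25 : G.Adj v2 v5) (n26 : NA G v2 v6) (n27 : NA G v2 v7) (e34 : G.Adj v3 v4) (n35 : NA G
    v3 v5) (n36 : NA G v3 v6) (n37 : NA G v3 v7) (n45 : NA G v4 v5) (n46 : NA G v4 v6) (n47 : NA G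
    v4 v7) (e56 : G.Adj v5 v6) (e57 : G.Adj v5 v7) (n67 : NA G v6 v7) : False := by
  refine hG.sp (8, _) (by simp [sporadic]) (ofEdges_ind (n := 8) (L := [(0, 1), (0, 2), (1, 2),
      (3, 0), (3, 1), (3, 2), (4, 3), (4, 0), (5, 0), (5, 1), (5, 2), (6, 5), (6, 1), (7, 5), (7,
      0), (7, 1)]) (E := [(0, 1), (0, 2), (0, 3), (0, 4), (0, 5), (0, 7), (1, 2), (1, 3), (1, 5),
      (1, 6), (1, 7), (2, 3), (2, 5), (3, 4), (5, 6), (5, 7)]) (N := [(0, 6), (1, 4), (2, 4), (2,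
      6), (2, 7), (3, 5), (3, 6), (3, 7), (4, 5), (4, 6), (4, 7), (6, 7)]) (by decide) (look [v0,
      v1, v2, v3, v4, v5, v6, v7] v0) ?_ ?_)
  · simp only [List.forall_mem_cons]
    exact ⟨e01, e02, e03, e04, e05, e07, e12, e13, e15, e16, e17, e23, e25, e34, e56, e57,
      List.forall_mem_nil _⟩
  · simp only [List.forall_mem_cons]
    exact ⟨n06, n14, n24, n26, n27, n35, n36, n37, n45, n46, n47, n67, List.forall_mem_nil _⟩

lemma sp7_false {G : SimpleGraph V} (hG : NoListed G) {v0 v1 v2 v3 v4 v5 v6 v7 : V} (e01 : G.Adj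
    v0 v1) (e02 : G.Adj v0 v2) (e03 : G.Adj v0 v3) (e04 : G.Adj v0 v4) (e05 : G.Adj v0 v5) (e06 :
    G.Adj v0 v6) (n07 : NA G v0 v7) (e12 : G.Adj v1 v2) (e13 : G.Adj v1 v3) (e14 : G.Adj v1 v4)
    (n15 : NA G v1 v5) (e16 : G.Adj v1 v6) (e17 : G.Adj v1 v7) (n23 : NA G v2 v3) (e24 : G.Adj v2
    v4) (n25 : NA G v2 v5) (e26 : G.Adj v2 v6) (e27 : G.Adj v2 v7) (n34 : NA G v3 v4) (n35 : NA G
    v3 v5) (n36 : NA G v3 v6) (n37 : NA G v3 v7) (e45 : G.Adj v4 v5) (n46 : NA G v4 v6) (n47 : NA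
    G v4 v7) (n56 : NA G v5 v6) (n57 : NA G v5 v7) (e67 : G.Adj v6 v7) : False := by
  refine hG.sp (8, _) (by simp [sporadic]) (ofEdges_ind (n := 8) (L := [(0, 1), (0, 2), (1, 2),
      (3, 0), (3, 1), (4, 0), (4, 1), (4, 2), (5, 4), (5, 0), (6, 0), (6, 1), (6, 2), (7, 6), (7,
      1), (7, 2)]) (E := [(0, 1), (0, 2), (0, 3), (0, 4), (0, 5), (0, 6), (1, 2), (1, 3), (1, 4),
      (1, 6), (1, 7), (2, 4), (2, 6), (2, 7), (4, 5), (6, 7)]) (N := [(0, 7), (1, 5), (2, 3), (2,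
      5), (3, 4), (3, 5), (3, 6), (3, 7), (4, 6), (4, 7), (5, 6), (5, 7)]) (by decide) (look [v0,
      v1, v2, v3, v4, v5, v6, v7] v0) ?_ ?_)
  · simp only [List.forall_mem_cons]
    exact ⟨e01, e02, e03, e04, e05, e06, e12, e13, e14, e16, e17, e24, e26, e27, e45, e67,
      List.forall_mem_nil _⟩
  · simp only [List.forall_mem_cons]
    exact ⟨n07, n15, n23, n25, n34, n35, n36, n37, n46, n47, n56, n57, List.forall_mem_nil _⟩

lemma sp8_false {G : SimpleGraph V} (hG : NoListed G) {v0 v1 v2 v3 v4 v5 v6 v7 : V} (e01 : G.Adj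
    v0 v1) (e02 : G.Adj v0 v2) (e03 : G.Adj v0 v3) (e04 : G.Adj v0 v4) (e05 : G.Adj v0 v5) (n06 :
    NA G v0 v6) (e07 : G.Adj v0 v7) (e12 : G.Adj v1 v2) (e13 : G.Adj v1 v3) (n14 : NA G v1 v4)
    (e15 : G.Adj v1 v5) (e16 : G.Adj v1 v6) (e17 : G.Adj v1 v7) (e23 : G.Adj v2 v3) (n24 : NA G v2
    v4) (e25 : G.Adj v2 v5) (n26 : NA G v2 v6) (n27 : NA G v2 v7) (e34 : G.Adj v3 v4) (n35 : NA G
    v3 v5) (n36 : NA G v3 v6) (n37 : NA G v3 v7) (n45 : NA G v4 v5) (n46 : NA G v4 v6) (n47 : NA G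
    v4 v7) (e56 : G.Adj v5 v6) (e57 : G.Adj v5 v7) (e67 : G.Adj v6 v7) : False := by
  refine hG.sp (8, _) (by simp [sporadic]) (ofEdges_ind (n := 8) (L := [(0, 1), (0, 2), (1, 2),
      (3, 0), (3, 1), (3, 2), (4, 3), (4, 0), (5, 0), (5, 1), (5, 2), (6, 5), (6, 1), (6, 7), (7,
      5), (7, 0), (7, 1)]) (E := [(0, 1), (0, 2), (0, 3), (0, 4), (0, 5), (0, 7), (1, 2), (1, 3),
      (1, 5), (1, 6), (1, 7), (2, 3), (2, 5), (3, 4), (5, 6), (5, 7), (6, 7)]) (N := [(0, 6), (1,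
      4), (2, 4), (2, 6), (2, 7), (3, 5), (3, 6), (3, 7), (4, 5), (4, 6), (4, 7)]) (by decide)
      (look [v0, v1, v2, v3, v4, v5, v6, v7] v0) ?_ ?_)
  · simp only [List.forall_mem_cons]
    exact ⟨e01, e02, e03, e04, e05, e07, e12, e13, e15, e16, e17, e23, e25, e34, e56, e57, e67,
      List.forall_mem_nil _⟩
  · simp only [List.forall_mem_cons]
    exact ⟨n06, n14, n24, n26, n27, n35, n36, n37, n45, n46, n47, List.forall_mem_nil _⟩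

lemma sp9_false {G : SimpleGraph V} (hG : NoListed G) {v0 v1 v2 v3 v4 v5 v6 v7 : V} (e01 : G.Adj
    v0 v1) (e02 : G.Adj v0 v2) (e03 : G.Adj v0 v3) (e04 : G.Adj v0 v4) (e05 : G.Adj v0 v5) (e06 :
    G.Adj v0 v6) (n07 : NA G v0 v7) (e12 : G.Adj v1 v2) (e13 : G.Adj v1 v3) (e14 : G.Adj v1 v4)
    (n15 : NA G v1 v5) (e16 : G.Adj v1 v6) (e17 : G.Adj v1 v7) (n23 : NA G v2 v3) (e24 : G.Adj v2
    v4) (e25 : G.Adj v2 v5) (e26 : G.Adj v2 v6) (e27 : G.Adj v2 v7) (n34 : NA G v3 v4) (n35 : NA G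
    v3 v5) (n36 : NA G v3 v6) (n37 : NA G v3 v7) (e45 : G.Adj v4 v5) (n46 : NA G v4 v6) (n47 : NA
    G v4 v7) (n56 : NA G v5 v6) (n57 : NA G v5 v7) (e67 : G.Adj v6 v7) : False := by
  refine hG.sp (8, _) (by simp [sporadic]) (ofEdges_ind (n := 8) (L := [(0, 1), (0, 2), (1, 2),
      (3, 0), (3, 1), (4, 0), (4, 1), (4, 2), (5, 4), (5, 0), (5, 2), (6, 0), (6, 1), (6, 2), (7,
      6), (7, 1), (7, 2)]) (E := [(0, 1), (0, 2), (0, 3), (0, 4), (0, 5), (0, 6), (1, 2), (1, 3),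
      (1, 4), (1, 6), (1, 7), (2, 4), (2, 5), (2, 6), (2, 7), (4, 5), (6, 7)]) (N := [(0, 7), (1,
      5), (2, 3), (3, 4), (3, 5), (3, 6), (3, 7), (4, 6), (4, 7), (5, 6), (5, 7)]) (by decide)
      (look [v0, v1, v2, v3, v4, v5, v6, v7] v0) ?_ ?_)
  · simp only [List.forall_mem_cons]
    exact ⟨e01, e02, e03, e04, e05, e06, e12, e13, e14, e16, e17, e24, e25, e26, e27, e45, e67,
      List.forall_mem_nil _⟩
  · simp only [List.forall_mem_cons]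
    exact ⟨n07, n15, n23, n34, n35, n36, n37, n46, n47, n56, n57, List.forall_mem_nil _⟩

lemma sp10_false {G : SimpleGraph V} (hG : NoListed G) {v0 v1 v2 v3 v4 v5 v6 v7 : V} (e01 : G.Adj
    v0 v1) (e02 : G.Adj v0 v2) (e03 : G.Adj v0 v3) (n04 : NA G v0 v4) (e05 : G.Adj v0 v5) (n06 :
    NA G v0 v6) (e07 : G.Adj v0 v7) (e12 : G.Adj v1 v2) (e13 : G.Adj v1 v3) (e14 : G.Adj v1 v4)
    (e15 : G.Adj v1 v5) (e16 : G.Adj v1 v6) (e17 : G.Adj v1 v7) (e23 : G.Adj v2 v3) (e24 : G.Adj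
    v2 v4) (e25 : G.Adj v2 v5) (n26 : NA G v2 v6) (n27 : NA G v2 v7) (e34 : G.Adj v3 v4) (n35 : NA
    G v3 v5) (n36 : NA G v3 v6) (n37 : NA G v3 v7) (n45 : NA G v4 v5) (n46 : NA G v4 v6) (n47 : NA
    G v4 v7) (e56 : G.Adj v5 v6) (e57 : G.Adj v5 v7) (n67 : NA G v6 v7) : False := by
  refine hG.sp (8, _) (by simp [sporadic]) (ofEdges_ind (n := 8) (L := [(0, 1), (0, 2), (1, 2),
      (3, 0), (3, 1), (3, 2), (4, 3), (4, 1), (4, 2), (5, 0), (5, 1), (5, 2), (6, 5), (6, 1), (7,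
      5), (7, 0), (7, 1)]) (E := [(0, 1), (0, 2), (0, 3), (0, 5), (0, 7), (1, 2), (1, 3), (1, 4),
      (1, 5), (1, 6), (1, 7), (2, 3), (2, 4), (2, 5), (3, 4), (5, 6), (5, 7)]) (N := [(0, 4), (0,
      6), (2, 6), (2, 7), (3, 5), (3, 6), (3, 7), (4, 5), (4, 6), (4, 7), (6, 7)]) (by decide)
      (look [v0, v1, v2, v3, v4, v5, v6, v7] v0) ?_ ?_)
  · simp only [List.forall_mem_cons]
    exact ⟨e01, e02, e03, e05, e07, e12, e13, e14, e15, e16, e17, e23, e24, e25, e34, e56, e57,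
      List.forall_mem_nil _⟩
  · simp only [List.forall_mem_cons]
    exact ⟨n04, n06, n26, n27, n35, n36, n37, n45, n46, n47, n67, List.forall_mem_nil _⟩

lemma sp11_false {G : SimpleGraph V} (hG : NoListed G) {v0 v1 v2 v3 v4 v5 v6 v7 : V} (e01 : G.Adj
    v0 v1) (e02 : G.Adj v0 v2) (e03 : G.Adj v0 v3) (e04 : G.Adj v0 v4) (e05 : G.Adj v0 v5) (e06 :
    G.Adj v0 v6) (e07 : G.Adj v0 v7) (e12 : G.Adj v1 v2) (e13 : G.Adj v1 v3) (e14 : G.Adj v1 v4)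
    (n15 : NA G v1 v5) (e16 : G.Adj v1 v6) (n17 : NA G v1 v7) (n23 : NA G v2 v3) (e24 : G.Adj v2
    v4) (e25 : G.Adj v2 v5) (e26 : G.Adj v2 v6) (e27 : G.Adj v2 v7) (n34 : NA G v3 v4) (n35 : NA G
    v3 v5) (n36 : NA G v3 v6) (n37 : NA G v3 v7) (e45 : G.Adj v4 v5) (n46 : NA G v4 v6) (n47 : NA
    G v4 v7) (n56 : NA G v5 v6) (n57 : NA G v5 v7) (e67 : G.Adj v6 v7) : False := by
  refine hG.sp (8, _) (by simp [sporadic]) (ofEdges_ind (n := 8) (L := [(0, 1), (0, 2), (1, 2),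
      (3, 0), (3, 1), (4, 0), (4, 1), (4, 2), (5, 4), (5, 0), (5, 2), (6, 0), (6, 1), (6, 2), (7,
      6), (7, 0), (7, 2)]) (E := [(0, 1), (0, 2), (0, 3), (0, 4), (0, 5), (0, 6), (0, 7), (1, 2),
      (1, 3), (1, 4), (1, 6), (2, 4), (2, 5), (2, 6), (2, 7), (4, 5), (6, 7)]) (N := [(1, 5), (1,
      7), (2, 3), (3, 4), (3, 5), (3, 6), (3, 7), (4, 6), (4, 7), (5, 6), (5, 7)]) (by decide)
      (look [v0, v1, v2, v3, v4, v5, v6, v7] v0) ?_ ?_)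
  · simp only [List.forall_mem_cons]
    exact ⟨e01, e02, e03, e04, e05, e06, e07, e12, e13, e14, e16, e24, e25, e26, e27, e45, e67,
      List.forall_mem_nil _⟩
  · simp only [List.forall_mem_cons]
    exact ⟨n15, n17, n23, n34, n35, n36, n37, n46, n47, n56, n57, List.forall_mem_nil _⟩

lemma sp12_false {G : SimpleGraph V} (hG : NoListed G) {v0 v1 v2 v3 v4 v5 v6 v7 : V} (e01 : G.Adj
    v0 v1) (e02 : G.Adj v0 v2) (e03 : G.Adj v0 v3) (n04 : NA G v0 v4) (e05 : G.Adj v0 v5) (n06 :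
    NA G v0 v6) (e07 : G.Adj v0 v7) (e12 : G.Adj v1 v2) (e13 : G.Adj v1 v3) (e14 : G.Adj v1 v4)
    (e15 : G.Adj v1 v5) (e16 : G.Adj v1 v6) (e17 : G.Adj v1 v7) (e23 : G.Adj v2 v3) (e24 : G.Adj
    v2 v4) (e25 : G.Adj v2 v5) (n26 : NA G v2 v6) (n27 : NA G v2 v7) (e34 : G.Adj v3 v4) (n35 : NA
    G v3 v5) (n36 : NA G v3 v6) (n37 : NA G v3 v7) (n45 : NA G v4 v5) (n46 : NA G v4 v6) (n47 : NA
    G v4 v7) (e56 : G.Adj v5 v6) (e57 : G.Adj v5 v7) (e67 : G.Adj v6 v7) : False := by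
  refine hG.sp (8, _) (by simp [sporadic]) (ofEdges_ind (n := 8) (L := [(0, 1), (0, 2), (1, 2),
      (3, 0), (3, 1), (3, 2), (4, 3), (4, 1), (4, 2), (5, 0), (5, 1), (5, 2), (6, 5), (6, 1), (6,
      7), (7, 5), (7, 0), (7, 1)]) (E := [(0, 1), (0, 2), (0, 3), (0, 5), (0, 7), (1, 2), (1, 3),
      (1, 4), (1, 5), (1, 6), (1, 7), (2, 3), (2, 4), (2, 5), (3, 4), (5, 6), (5, 7), (6, 7)]) (N
      := [(0, 4), (0, 6), (2, 6), (2, 7), (3, 5), (3, 6), (3, 7), (4, 5), (4, 6), (4, 7)]) (by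
      decide) (look [v0, v1, v2, v3, v4, v5, v6, v7] v0) ?_ ?_)
  · simp only [List.forall_mem_cons]
    exact ⟨e01, e02, e03, e05, e07, e12, e13, e14, e15, e16, e17, e23, e24, e25, e34, e56, e57,
      e67, List.forall_mem_nil _⟩
  · simp only [List.forall_mem_cons]
    exact ⟨n04, n06, n26, n27, n35, n36, n37, n45, n46, n47, List.forall_mem_nil _⟩

lemma sp13_false {G : SimpleGraph V} (hG : NoListed G) {v0 v1 v2 v3 v4 v5 v6 v7 : V} (e01 : G.Adj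
    v0 v1) (e02 : G.Adj v0 v2) (e03 : G.Adj v0 v3) (e04 : G.Adj v0 v4) (e05 : G.Adj v0 v5) (e06 :
    G.Adj v0 v6) (e07 : G.Adj v0 v7) (e12 : G.Adj v1 v2) (e13 : G.Adj v1 v3) (e14 : G.Adj v1 v4)
    (e15 : G.Adj v1 v5) (e16 : G.Adj v1 v6) (n17 : NA G v1 v7) (e23 : G.Adj v2 v3) (e24 : G.Adj v2
    v4) (n25 : NA G v2 v5) (e26 : G.Adj v2 v6) (e27 : G.Adj v2 v7) (e34 : G.Adj v3 v4) (n35 : NA G
    v3 v5) (e36 : G.Adj v3 v6) (n37 : NA G v3 v7) (e45 : G.Adj v4 v5) (n46 : NA G v4 v6) (n47 : NA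
    G v4 v7) (n56 : NA G v5 v6) (n57 : NA G v5 v7) (e67 : G.Adj v6 v7) : False := by
  refine hG.sp (8, _) (by simp [sporadic]) (ofEdges_ind (n := 8) (L := [(0, 1), (0, 2), (0, 3),
      (1, 2), (1, 3), (2, 3), (4, 0), (4, 1), (4, 2), (4, 3), (5, 4), (5, 0), (5, 1), (6, 0), (6,
      1), (6, 2), (6, 3), (7, 6), (7, 0), (7, 2)]) (E := [(0, 1), (0, 2), (0, 3), (0, 4), (0, 5),
      (0, 6), (0, 7), (1, 2), (1, 3), (1, 4), (1, 5), (1, 6), (2, 3), (2, 4), (2, 6), (2, 7), (3,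
      4), (3, 6), (4, 5), (6, 7)]) (N := [(1, 7), (2, 5), (3, 5), (3, 7), (4, 6), (4, 7), (5, 6),
      (5, 7)]) (by decide) (look [v0, v1, v2, v3, v4, v5, v6, v7] v0) ?_ ?_)
  · simp only [List.forall_mem_cons]
    exact ⟨e01, e02, e03, e04, e05, e06, e07, e12, e13, e14, e15, e16, e23, e24, e26, e27, e34,
      e36, e45, e67, List.forall_mem_nil _⟩
  · simp only [List.forall_mem_cons]
    exact ⟨n17, n25, n35, n37, n46, n47, n56, n57, List.forall_mem_nil _⟩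

lemma sp14_false {G : SimpleGraph V} (hG : NoListed G) {v0 v1 v2 v3 v4 v5 v6 v7 v8 : V} (e01 :
    G.Adj v0 v1) (e02 : G.Adj v0 v2) (e03 : G.Adj v0 v3) (e04 : G.Adj v0 v4) (e05 : G.Adj v0 v5)
    (e06 : G.Adj v0 v6) (n07 : NA G v0 v7) (n08 : NA G v0 v8) (e12 : G.Adj v1 v2) (e13 : G.Adj v1
    v3) (n14 : NA G v1 v4) (e15 : G.Adj v1 v5) (e16 : G.Adj v1 v6) (e17 : G.Adj v1 v7) (n18 : NA G
    v1 v8) (e23 : G.Adj v2 v3) (n24 : NA G v2 v4) (e25 : G.Adj v2 v5) (e26 : G.Adj v2 v6) (n27 :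
    NA G v2 v7) (e28 : G.Adj v2 v8) (e34 : G.Adj v3 v4) (n35 : NA G v3 v5) (n36 : NA G v3 v6) (n37
    : NA G v3 v7) (n38 : NA G v3 v8) (n45 : NA G v4 v5) (n46 : NA G v4 v6) (n47 : NA G v4 v7) (n48
    : NA G v4 v8) (e56 : G.Adj v5 v6) (e57 : G.Adj v5 v7) (n58 : NA G v5 v8) (n67 : NA G v6 v7)
    (e68 : G.Adj v6 v8) (n78 : NA G v7 v8) : False := by
  refine hG.sp (9, _) (by simp [sporadic]) (ofEdges_ind (n := 9) (L := [(0, 1), (0, 2), (1, 2),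
      (3, 0), (3, 1), (3, 2), (4, 3), (4, 0), (5, 0), (5, 1), (5, 2), (6, 0), (6, 1), (6, 2), (5,
      6), (7, 5), (7, 1), (8, 6), (8, 2)]) (E := [(0, 1), (0, 2), (0, 3), (0, 4), (0, 5), (0, 6),
      (1, 2), (1, 3), (1, 5), (1, 6), (1, 7), (2, 3), (2, 5), (2, 6), (2, 8), (3, 4), (5, 6), (5,
      7), (6, 8)]) (N := [(0, 7), (0, 8), (1, 4), (1, 8), (2, 4), (2, 7), (3, 5), (3, 6), (3, 7),
      (3, 8), (4, 5), (4, 6), (4, 7), (4, 8), (5, 8), (6, 7), (7, 8)]) (by decide) (look [v0, v1,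
      v2, v3, v4, v5, v6, v7, v8] v0) ?_ ?_)
  · simp only [List.forall_mem_cons]
    exact ⟨e01, e02, e03, e04, e05, e06, e12, e13, e15, e16, e17, e23, e25, e26, e28, e34, e56,
      e57, e68, List.forall_mem_nil _⟩
  · simp only [List.forall_mem_cons]
    exact ⟨n07, n08, n14, n18, n24, n27, n35, n36, n37, n38, n45, n46, n47, n48, n58, n67, n78,
      List.forall_mem_nil _⟩

lemma sp15_false {G : SimpleGraph V} (hG : NoListed G) {v0 v1 v2 v3 v4 v5 v6 v7 v8 : V} (e01 :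
    G.Adj v0 v1) (e02 : G.Adj v0 v2) (e03 : G.Adj v0 v3) (n04 : NA G v0 v4) (e05 : G.Adj v0 v5)
    (e06 : G.Adj v0 v6) (n07 : NA G v0 v7) (n08 : NA G v0 v8) (e12 : G.Adj v1 v2) (e13 : G.Adj v1
    v3) (e14 : G.Adj v1 v4) (e15 : G.Adj v1 v5) (e16 : G.Adj v1 v6) (e17 : G.Adj v1 v7) (n18 : NA
    G v1 v8) (e23 : G.Adj v2 v3) (e24 : G.Adj v2 v4) (e25 : G.Adj v2 v5) (e26 : G.Adj v2 v6) (n27
    : NA G v2 v7) (e28 : G.Adj v2 v8) (e34 : G.Adj v3 v4) (n35 : NA G v3 v5) (n36 : NA G v3 v6)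
    (n37 : NA G v3 v7) (n38 : NA G v3 v8) (n45 : NA G v4 v5) (n46 : NA G v4 v6) (n47 : NA G v4 v7)
    (n48 : NA G v4 v8) (e56 : G.Adj v5 v6) (e57 : G.Adj v5 v7) (n58 : NA G v5 v8) (n67 : NA G v6
    v7) (e68 : G.Adj v6 v8) (n78 : NA G v7 v8) : False := by
  refine hG.sp (9, _) (by simp [sporadic]) (ofEdges_ind (n := 9) (L := [(0, 1), (0, 2), (1, 2),
      (3, 0), (3, 1), (3, 2), (4, 3), (4, 1), (4, 2), (5, 0), (5, 1), (5, 2), (6, 0), (6, 1), (6,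
      2), (5, 6), (7, 5), (7, 1), (8, 6), (8, 2)]) (E := [(0, 1), (0, 2), (0, 3), (0, 5), (0, 6),
      (1, 2), (1, 3), (1, 4), (1, 5), (1, 6), (1, 7), (2, 3), (2, 4), (2, 5), (2, 6), (2, 8), (3,
      4), (5, 6), (5, 7), (6, 8)]) (N := [(0, 4), (0, 7), (0, 8), (1, 8), (2, 7), (3, 5), (3, 6),
      (3, 7), (3, 8), (4, 5), (4, 6), (4, 7), (4, 8), (5, 8), (6, 7), (7, 8)]) (by decide) (look
      [v0, v1, v2, v3, v4, v5, v6, v7, v8] v0) ?_ ?_)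
  · simp only [List.forall_mem_cons]
    exact ⟨e01, e02, e03, e05, e06, e12, e13, e14, e15, e16, e17, e23, e24, e25, e26, e28, e34,
      e56, e57, e68, List.forall_mem_nil _⟩
  · simp only [List.forall_mem_cons]
    exact ⟨n04, n07, n08, n18, n27, n35, n36, n37, n38, n45, n46, n47, n48, n58, n67, n78,
      List.forall_mem_nil _⟩

lemma sp16_false {G : SimpleGraph V} (hG : NoListed G) {v0 v1 v2 v3 v4 v5 v6 : V} (e01 : G.Adj v0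
    v1) (e02 : G.Adj v0 v2) (e03 : G.Adj v0 v3) (e04 : G.Adj v0 v4) (e05 : G.Adj v0 v5) (e06 :
    G.Adj v0 v6) (e12 : G.Adj v1 v2) (e13 : G.Adj v1 v3) (e14 : G.Adj v1 v4) (n15 : NA G v1 v5)
    (e16 : G.Adj v1 v6) (e23 : G.Adj v2 v3) (e24 : G.Adj v2 v4) (e25 : G.Adj v2 v5) (n26 : NA G v2
    v6) (n34 : NA G v3 v4) (e35 : G.Adj v3 v5) (e36 : G.Adj v3 v6) (n45 : NA G v4 v5) (n46 : NA G
    v4 v6) (n56 : NA G v5 v6) : False := by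
  refine hG.sp (7, _) (by simp [sporadic]) (ofEdges_ind (n := 7) (L := [(0, 1), (0, 2), (0, 3),
      (0, 4), (0, 5), (0, 6), (1, 2), (1, 3), (2, 3), (4, 1), (4, 2), (5, 2), (5, 3), (6, 3), (6,
      1)]) (E := [(0, 1), (0, 2), (0, 3), (0, 4), (0, 5), (0, 6), (1, 2), (1, 3), (1, 4), (1, 6),
      (2, 3), (2, 4), (2, 5), (3, 5), (3, 6)]) (N := [(1, 5), (2, 6), (3, 4), (4, 5), (4, 6), (5,
      6)]) (by decide) (look [v0, v1, v2, v3, v4, v5, v6] v0) ?_ ?_)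
  · simp only [List.forall_mem_cons]
    exact ⟨e01, e02, e03, e04, e05, e06, e12, e13, e14, e16, e23, e24, e25, e35, e36,
      List.forall_mem_nil _⟩
  · simp only [List.forall_mem_cons]
    exact ⟨n15, n26, n34, n45, n46, n56, List.forall_mem_nil _⟩

lemma sp17_false {G : SimpleGraph V} (hG : NoListed G) {v0 v1 v2 v3 v4 v5 v6 v7 : V} (e01 : G.Adj
    v0 v1) (e02 : G.Adj v0 v2) (e03 : G.Adj v0 v3) (e04 : G.Adj v0 v4) (e05 : G.Adj v0 v5) (e06 :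
    G.Adj v0 v6) (e07 : G.Adj v0 v7) (e12 : G.Adj v1 v2) (e13 : G.Adj v1 v3) (e14 : G.Adj v1 v4)
    (e15 : G.Adj v1 v5) (n16 : NA G v1 v6) (n17 : NA G v1 v7) (e23 : G.Adj v2 v3) (e24 : G.Adj v2
    v4) (e25 : G.Adj v2 v5) (e26 : G.Adj v2 v6) (n27 : NA G v2 v7) (e34 : G.Adj v3 v4) (n35 : NA G
    v3 v5) (e36 : G.Adj v3 v6) (e37 : G.Adj v3 v7) (n45 : NA G v4 v5) (n46 : NA G v4 v6) (e47 :
    G.Adj v4 v7) (n56 : NA G v5 v6) (n57 : NA G v5 v7) (n67 : NA G v6 v7) : False := by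
  refine hG.sp (8, _) (by simp [sporadic]) (ofEdges_ind (n := 8) (L := [(0, 1), (0, 2), (0, 3),
      (0, 4), (1, 2), (1, 3), (1, 4), (2, 3), (2, 4), (3, 4), (5, 0), (5, 1), (5, 2), (6, 0), (6,
      2), (6, 3), (7, 0), (7, 3), (7, 4)]) (E := [(0, 1), (0, 2), (0, 3), (0, 4), (0, 5), (0, 6),
      (0, 7), (1, 2), (1, 3), (1, 4), (1, 5), (2, 3), (2, 4), (2, 5), (2, 6), (3, 4), (3, 6), (3,
      7), (4, 7)]) (N := [(1, 6), (1, 7), (2, 7), (3, 5), (4, 5), (4, 6), (5, 6), (5, 7), (6, 7)])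
      (by decide) (look [v0, v1, v2, v3, v4, v5, v6, v7] v0) ?_ ?_)
  · simp only [List.forall_mem_cons]
    exact ⟨e01, e02, e03, e04, e05, e06, e07, e12, e13, e14, e15, e23, e24, e25, e26, e34, e36,
      e37, e47, List.forall_mem_nil _⟩
  · simp only [List.forall_mem_cons]
    exact ⟨n16, n17, n27, n35, n45, n46, n56, n57, n67, List.forall_mem_nil _⟩

lemma sp18_false {G : SimpleGraph V} (hG : NoListed G) {v0 v1 v2 v3 v4 v5 v6 v7 v8 : V} (e01 :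
    G.Adj v0 v1) (e02 : G.Adj v0 v2) (e03 : G.Adj v0 v3) (e04 : G.Adj v0 v4) (n05 : NA G v0 v5)
    (e06 : G.Adj v0 v6) (n07 : NA G v0 v7) (n08 : NA G v0 v8) (e12 : G.Adj v1 v2) (e13 : G.Adj v1
    v3) (e14 : G.Adj v1 v4) (e15 : G.Adj v1 v5) (n16 : NA G v1 v6) (e17 : G.Adj v1 v7) (n18 : NA G
    v1 v8) (e23 : G.Adj v2 v3) (e24 : G.Adj v2 v4) (e25 : G.Adj v2 v5) (n26 : NA G v2 v6) (n27 :
    NA G v2 v7) (e28 : G.Adj v2 v8) (e34 : G.Adj v3 v4) (e35 : G.Adj v3 v5) (e36 : G.Adj v3 v6)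
    (e37 : G.Adj v3 v7) (n38 : NA G v3 v8) (e45 : G.Adj v4 v5) (e46 : G.Adj v4 v6) (n47 : NA G v4
    v7) (e48 : G.Adj v4 v8) (n56 : NA G v5 v6) (n57 : NA G v5 v7) (n58 : NA G v5 v8) (n67 : NA G
    v6 v7) (n68 : NA G v6 v8) (n78 : NA G v7 v8) : False := by
  refine hG.sp (9, _) (by simp [sporadic]) (ofEdges_ind (n := 9) (L := [(0, 1), (0, 2), (0, 3),
      (0, 4), (1, 2), (1, 3), (1, 4), (2, 3), (2, 4), (3, 4), (5, 1), (5, 2), (5, 3), (5, 4), (6,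
      0), (6, 3), (6, 4), (7, 1), (7, 3), (8, 2), (8, 4)]) (E := [(0, 1), (0, 2), (0, 3), (0, 4),
      (0, 6), (1, 2), (1, 3), (1, 4), (1, 5), (1, 7), (2, 3), (2, 4), (2, 5), (2, 8), (3, 4), (3,
      5), (3, 6), (3, 7), (4, 5), (4, 6), (4, 8)]) (N := [(0, 5), (0, 7), (0, 8), (1, 6), (1, 8),
      (2, 6), (2, 7), (3, 8), (4, 7), (5, 6), (5, 7), (5, 8), (6, 7), (6, 8), (7, 8)]) (by decide)
      (look [v0, v1, v2, v3, v4, v5, v6, v7, v8] v0) ?_ ?_)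
  · simp only [List.forall_mem_cons]
    exact ⟨e01, e02, e03, e04, e06, e12, e13, e14, e15, e17, e23, e24, e25, e28, e34, e35, e36,
      e37, e45, e46, e48, List.forall_mem_nil _⟩
  · simp only [List.forall_mem_cons]
    exact ⟨n05, n07, n08, n16, n18, n26, n27, n38, n47, n56, n57, n58, n67, n68, n78,
      List.forall_mem_nil _⟩

lemma sp19_false {G : SimpleGraph V} (hG : NoListed G) {v0 v1 v2 v3 v4 v5 v6 v7 v8 v9 : V} (e01 :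
    G.Adj v0 v1) (e02 : G.Adj v0 v2) (e03 : G.Adj v0 v3) (e04 : G.Adj v0 v4) (e05 : G.Adj v0 v5)
    (e06 : G.Adj v0 v6) (e07 : G.Adj v0 v7) (n08 : NA G v0 v8) (n09 : NA G v0 v9) (e12 : G.Adj v1
    v2) (e13 : G.Adj v1 v3) (e14 : G.Adj v1 v4) (e15 : G.Adj v1 v5) (e16 : G.Adj v1 v6) (n17 : NA
    G v1 v7) (e18 : G.Adj v1 v8) (n19 : NA G v1 v9) (e23 : G.Adj v2 v3) (e24 : G.Adj v2 v4) (e25 :
    G.Adj v2 v5) (e26 : G.Adj v2 v6) (n27 : NA G v2 v7) (n28 : NA G v2 v8) (e29 : G.Adj v2 v9)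
    (e34 : G.Adj v3 v4) (e35 : G.Adj v3 v5) (n36 : NA G v3 v6) (e37 : G.Adj v3 v7) (n38 : NA G v3
    v8) (n39 : NA G v3 v9) (e45 : G.Adj v4 v5) (n46 : NA G v4 v6) (n47 : NA G v4 v7) (e48 : G.Adj
    v4 v8) (n49 : NA G v4 v9) (n56 : NA G v5 v6) (n57 : NA G v5 v7) (n58 : NA G v5 v8) (e59 :
    G.Adj v5 v9) (n67 : NA G v6 v7) (n68 : NA G v6 v8) (n69 : NA G v6 v9) (n78 : NA G v7 v8) (n79
    : NA G v7 v9) (n89 : NA G v8 v9) : False := by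
  refine hG.sp (10, _) (by simp [sporadic]) (ofEdges_ind (n := 10) (L := [(0, 1), (0, 2), (0, 3),
      (0, 4), (0, 5), (1, 2), (1, 3), (1, 4), (1, 5), (2, 3), (2, 4), (2, 5), (3, 4), (3, 5), (4,
      5), (6, 0), (6, 1), (6, 2), (7, 0), (7, 3), (8, 1), (8, 4), (9, 2), (9, 5)]) (E := [(0, 1),
      (0, 2), (0, 3), (0, 4), (0, 5), (0, 6), (0, 7), (1, 2), (1, 3), (1, 4), (1, 5), (1, 6), (1,
      8), (2, 3), (2, 4), (2, 5), (2, 6), (2, 9), (3, 4), (3, 5), (3, 7), (4, 5), (4, 8), (5, 9)])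
      (N := [(0, 8), (0, 9), (1, 7), (1, 9), (2, 7), (2, 8), (3, 6), (3, 8), (3, 9), (4, 6), (4,
      7), (4, 9), (5, 6), (5, 7), (5, 8), (6, 7), (6, 8), (6, 9), (7, 8), (7, 9), (8, 9)]) (by
      decide) (look [v0, v1, v2, v3, v4, v5, v6, v7, v8, v9] v0) ?_ ?_)
  · simp only [List.forall_mem_cons]
    exact ⟨e01, e02, e03, e04, e05, e06, e07, e12, e13, e14, e15, e16, e18, e23, e24, e25, e26,
      e29, e34, e35, e37, e45, e48, e59, List.forall_mem_nil _⟩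
  · simp only [List.forall_mem_cons]
    exact ⟨n08, n09, n17, n19, n27, n28, n36, n38, n39, n46, n47, n49, n56, n57, n58, n67, n68,
      n69, n78, n79, n89, List.forall_mem_nil _⟩

lemma csun3_false {G : SimpleGraph V} (hG : NoListed G) {v0 v1 v2 v3 v4 v5 v6 : V} (e01 : G.Adj v0
    v1) (e02 : G.Adj v0 v2) (e03 : G.Adj v0 v3) (e04 : G.Adj v0 v4) (n05 : NA G v0 v5) (e06 :
    G.Adj v0 v6) (e12 : G.Adj v1 v2) (e13 : G.Adj v1 v3) (e14 : G.Adj v1 v4) (e15 : G.Adj v1 v5)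
    (n16 : NA G v1 v6) (e23 : G.Adj v2 v3) (n24 : NA G v2 v4) (e25 : G.Adj v2 v5) (e26 : G.Adj v2
    v6) (n34 : NA G v3 v4) (n35 : NA G v3 v5) (n36 : NA G v3 v6) (n45 : NA G v4 v5) (n46 : NA G v4
    v6) (n56 : NA G v5 v6) : False := by
  refine hG.csun3 (ofEdges_ind (n := 7) (L := [(0, 1), (0, 2), (1, 2), (0, 3), (1, 3), (2, 3), (4,
      0), (4, 1), (5, 1), (5, 2), (6, 2), (6, 0)]) (E := [(0, 1), (0, 2), (0, 3), (0, 4), (0, 6),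
      (1, 2), (1, 3), (1, 4), (1, 5), (2, 3), (2, 5), (2, 6)]) (N := [(0, 5), (1, 6), (2, 4), (3,
      4), (3, 5), (3, 6), (4, 5), (4, 6), (5, 6)]) (by decide) (look [v0, v1, v2, v3, v4, v5, v6]
      v0) ?_ ?_)
  · simp only [List.forall_mem_cons]
    exact ⟨e01, e02, e03, e04, e06, e12, e13, e14, e15, e23, e25, e26, List.forall_mem_nil _⟩
  · simp only [List.forall_mem_cons]
    exact ⟨n05, n16, n24, n34, n35, n36, n45, n46, n56, List.forall_mem_nil _⟩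

end Pool.Agent.Lib.MP_50b720_co
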