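import Pool.Agent.Lib.MP_50b720_co.Full.PatChain
import Pool.Agent.Lib.MP_50b720_co.Full.Sp

set_option autoImplicit false

namespace Pool.Agent.Lib.MP_50b720_co

open SimpleGraph

variable {V : Type*}

/-- `z 0, …, z n` is an induced path -/
def IndPath (G : SimpleGraph V) (n : ℕ) (z : ℕ → V) : Prop :=
  ∀ i j, i < j → j ≤ n → z i ≠ z j ∧ (G.Adj (z i) (z j) ↔ j = i + 1)

lemma IndPath.shift {G : SimpleGraph V} {n : ℕ} {z : ℕ → V} (h : IndPath G (n + 1) z) :
    IndPath G n (fun i => z (i + 1)) := by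
  intro i j hij hj
  obtain ⟨h1, h2⟩ := h (i + 1) (j + 1) (by omega) (by omega)
  refine ⟨h1, ?_⟩
  rw [h2]; omega

lemma IndPath.cn {G : SimpleGraph V} {n : ℕ} {z : ℕ → V} (h : IndPath G n z) :
    ∀ k ≤ n, Cn G {s | ∃ i ≤ k, s = z i} := by
  intro k
  induction k with
  | zero =>
    intro _
    have : {s | ∃ i ≤ 0, s = z i} = {z 0} := by
      ext s
      constructor
      · rintro ⟨i, hi, rfl⟩
        have : i = 0 := by omega
        rw [this]; rfl
      · rintro h; exact ⟨0, le_rfl, h⟩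
    rw [this]; exact cn_singleton G _
  | succ k ih =>
    intro hk
    have h1 := ih (by omega)
    have : {s | ∃ i ≤ k + 1, s = z i} = insert (z (k + 1)) {s | ∃ i ≤ k, s = z i} := by
      ext s
      constructor
      · rintro ⟨i, hi, rfl⟩
        rcases Nat.lt_or_ge k i with h2 | h2
        · have : i = k + 1 := by omega
          rw [this]; exact Set.mem_insert _ _
        · exact Or.inr ⟨i, h2, rfl⟩
      · rintro (rfl | ⟨i, hi, rfl⟩)
        · exact ⟨k + 1, le_rfl, rfl⟩
        · exact ⟨i, by omega, rfl⟩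
    rw [this]
    exact h1.add ⟨z k, ⟨k, le_rfl, rfl⟩, (h k (k + 1) (by omega) hk).2.mpr rfl⟩

/-- In a chordal graph, a vertex adjacent to both ends of an induced path is adjacent to all of
it. -/
lemma path_adj {G : SimpleGraph V} (hG : IsChordal G) {p : V} :
    ∀ (n : ℕ) (z : ℕ → V), IndPath G n z → (∀ i ≤ n, z i ≠ p) → G.Adj p (z 0) → G.Adj p (z n) →
      ∀ i ≤ n, G.Adj p (z i) := by
  intro n
  induction n with
  | zero =>
    intro z hz hp h0 hn i hi
    have : i = 0 := by omega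
    rw [this]; exact h0
  | succ n ih =>
    intro z hz hp h0 hn i hi
    have h1 : G.Adj p (z 1) := by
      have hcn := hz.shift.cn n le_rfl
      obtain ⟨d, ⟨k, hk, rfl⟩, hd1, hd2⟩ := common_nbr hG h0.symm hcn
        (by rintro ⟨k, hk, h⟩; exact (hz 0 (k + 1) (by omega) (by omega)).1 h)
        (by rintro ⟨k, hk, h⟩; exact hp (k + 1) (by omega) h.symm)
        ⟨z (0 + 1), ⟨0, by omega, rfl⟩, (hz 0 1 (by omega) (by omega)).2.mpr rfl⟩
        ⟨z (n + 1), ⟨n, le_rfl, rfl⟩, hn⟩
      have := (hz 0 (k + 1) (by omega) (by omega)).2.mp hd1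
      have hk0 : k = 0 := by omega
      rw [hk0] at hd2
      exact hd2
    rcases Nat.eq_zero_or_pos i with h2 | h2
    · rw [h2]; exact h0
    · have := ih (fun i => z (i + 1)) hz.shift (fun i hi => hp (i + 1) (by omega)) h1 hn (i - 1)
        (by omega)
      beta_reduce at this
      rwa [show i - 1 + 1 = i by omega] at this

lemma Cn.rtg {G : SimpleGraph V} {A : Set V} (hA : Cn G A) {a b : V} (ha : a ∈ A) (hb : b ∈ A) :
    Relation.ReflTransGen (fun u v => G.Adj u v ∧ u ∈ A ∧ v ∈ A) a b := by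
  have h1 : comp G A a = A := by
    by_contra hne
    obtain ⟨x, hx, y, hy, hxy⟩ := hA.2 (comp G A a) (comp_sub ha) ⟨a, self_mem_comp G A a⟩ hne
    exact hy.2 (comp_step hx (comp_sub ha hx) hy.1 hxy)
  have : b ∈ comp G A a := by rw [h1]; exact hb
  exact this

open Classical in
/-- a shortest path from `X` to `Y` inside a connected set -/
theorem exists_geo {G : SimpleGraph V} {A : Set V} (hA : Cn G A) {X Y : V → Prop}
    (hX : ∃ a ∈ A, X a) (hY : ∃ b ∈ A, Y b) :
    ∃ (n : ℕ) (z : ℕ → V), (∀ i ≤ n, z i ∈ A) ∧ X (z 0) ∧ Y (z n) ∧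
      (∀ i, 0 < i → i ≤ n → ¬ X (z i)) ∧ (∀ i < n, ¬ Y (z i)) ∧ IndPath G n z := by
  have hex : ∃ (n : ℕ) (z : ℕ → V), (∀ i ≤ n, z i ∈ A) ∧ (∀ i < n, G.Adj (z i) (z (i + 1))) ∧
      X (z 0) ∧ Y (z n) := by
    obtain ⟨a, ha, hXa⟩ := hX
    obtain ⟨b, hb, hYb⟩ := hY
    obtain ⟨n, z, z0, zn, zs⟩ := exists_path_of_rtg (hA.rtg ha hb)
    refine ⟨n, z, fun i hi => ?_, fun i hi => (zs i hi).1, by rw [z0]; exact hXa,
      by rw [zn]; exact hYb⟩
    rcases Nat.lt_or_ge i n with h | h
    · exact (zs i h).2.1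
    · have : i = n := by omega
      rw [this, zn]; exact hb
  have hmin := fun (k : ℕ) (hk : k < Nat.find hex) => Nat.find_min hex hk
  obtain ⟨z, zA, zs, zX, zY⟩ := Nat.find_spec hex
  set n := Nat.find hex with hn
  have nX : ∀ i, 0 < i → i ≤ n → ¬ X (z i) := by
    intro i hi hin hcon
    apply hmin (n - i) (by omega)
    refine ⟨fun k => z (k + i), fun k hk => zA _ (by omega), fun k hk => ?_,
      by simpa using hcon, ?_⟩
    · show G.Adj (z (k + i)) (z (k + 1 + i))
      rw [show k + 1 + i = k + i + 1 by omega]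
      exact zs _ (by omega)
    · show Y (z (n - i + i))
      rw [show n - i + i = n by omega]; exact zY
  have nY : ∀ i < n, ¬ Y (z i) := by
    intro i hi hcon
    exact hmin i hi ⟨z, fun k hk => zA k (by omega), fun k hk => zs k (by omega), zX, hcon⟩
  have hno : ∀ i j, i + 2 ≤ j → j ≤ n → ¬ G.Adj (z i) (z j) := by
    intro i j hij hj hcon
    obtain ⟨z', h1, h2, h3, h4⟩ := path_shortcut (R := G.Adj) zs (by omega) hj hcon
    apply hmin (n - (j - i) + 1) (by omega)
    refine ⟨z', fun k hk => ?_, h3, by rw [h1]; exact zX, by rw [h2]; exact zY⟩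
    obtain ⟨k', hk', h5⟩ := h4 k hk
    rw [h5]; exact zA k' hk'
  refine ⟨n, z, zA, zX, zY, nX, nY, ?_⟩
  intro i j hij hj
  refine ⟨fun h => ?_, ?_⟩
  · rcases Nat.lt_or_ge j n with h1 | h1
    · have h2 := zs j h1
      rw [← h] at h2
      exact hno i (j + 1) (by omega) (by omega) h2
    · have h2 : j = n := by omega
      exact nY i (by omega) (by rw [h, h2]; exact zY)
  · constructor
    · intro h
      by_contra hne
      exact hno i j (by omega) hj h
    · rintro rfl; exact zs i (by omega)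

/-- `h 0 = c, h 1, …, h L` is an induced path, `h 1, …, h L ∈ A`, all but the last vertex are
adjacent to both `p` and `q`, the last one is adjacent to exactly one of them -/
structure Arm (G : SimpleGraph V) (A : Set V) (c p q : V) (L : ℕ) (h : ℕ → V) : Prop where
  pos : 1 ≤ L
  h0 : h 0 = c
  mem : ∀ i, 1 ≤ i → i ≤ L → h i ∈ A
  path : IndPath G L h
  fp : ∀ i < L, G.Adj p (h i)
  fq : ∀ i < L, G.Adj q (h i)
  sep : G.Adj p (h L) ↔ ¬ G.Adj q (h L)

lemma Arm.swap {G : SimpleGraph V} {A : Set V} {c p q : V} {L : ℕ} {h : ℕ → V}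
    (a : Arm G A c p q L h) : Arm G A c q p L h :=
  ⟨a.pos, a.h0, a.mem, a.path, a.fq, a.fp, by have := a.sep; tauto⟩

/-- existence of arms -/
theorem exists_arm [Finite V] {G : SimpleGraph V} (hG : IsChordal G) {A : Set V} (hA : Cn G A)
    {c p q : V} (hcA : c ∉ A) (hpA : p ∉ A) (hqA : q ∉ A) (hcp : G.Adj c p) (hcq : G.Adj c q)
    (hpq : G.Adj p q) (fc : ∃ x ∈ A, G.Adj c x) (fp : ∃ x ∈ A, G.Adj p x)
    (fq : ∃ x ∈ A, G.Adj q x) (hsep : ¬ Tw G A p q) :
    ∃ (L : ℕ) (h : ℕ → V) (a0 : V), Arm G A c p q L h ∧ a0 ∈ A ∧ G.Adj a0 c ∧ G.Adj a0 p ∧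
      G.Adj a0 q ∧ (L = 1 → G.Adj a0 (h 1)) ∧ (2 ≤ L → a0 = h 1) := by
  have hT : ∀ x ∈ ({c, p, q} : Set V), ∀ y ∈ ({c, p, q} : Set V), x ≠ y → G.Adj x y := by
    rintro x (rfl | rfl | rfl) y (rfl | rfl | rfl) hxy
    exacts [absurd rfl hxy, hcp, hcq, hcp.symm, absurd rfl hxy, hpq, hcq.symm, hpq.symm,
      absurd rfl hxy]
  obtain ⟨f0, hf0, hf0'⟩ := exists_full hG hT A hA
    (by rintro t (rfl | rfl | rfl); exacts [hcA, hpA, hqA])
    (by rintro t (rfl | rfl | rfl); exacts [fc, fp, fq])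
  have hX : ∃ a ∈ A, (G.Adj c a ∧ G.Adj p a ∧ G.Adj q a) :=
    ⟨f0, hf0, hf0' c (by simp), hf0' p (by simp), hf0' q (by simp)⟩
  have hY : ∃ b ∈ A, (G.Adj p b ↔ ¬ G.Adj q b) := by
    by_contra hcon
    push Not at hcon
    apply hsep
    intro x hx
    rcases hcon x hx with ⟨h1, h2⟩ | ⟨h1, h2⟩
    · exact ⟨fun _ => h2.symm, fun _ => h1.symm⟩
    · exact ⟨fun h => absurd h.symm h1, fun h => absurd h.symm h2⟩
  obtain ⟨n, z, zA, zX, zY, nX, nY, zp⟩ := exists_geo hA hX hY
  have hn : 1 ≤ n := by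
    by_contra hcon
    have : n = 0 := by omega
    rw [this] at zY
    have := zX.2.1
    have := zX.2.2
    tauto
  have zne : ∀ i ≤ n, z i ≠ c ∧ z i ≠ p ∧ z i ≠ q := fun i hi =>
    ⟨fun h => hcA (h ▸ zA i hi), fun h => hpA (h ▸ zA i hi), fun h => hqA (h ▸ zA i hi)⟩
  -- all path vertices but the last one are adjacent to both
  have hall : ∀ i < n, G.Adj p (z i) ∧ G.Adj q (z i) := by
    have both : ∀ i < n, (G.Adj p (z i) ∨ G.Adj q (z i)) → (G.Adj p (z i) ∧ G.Adj q (z i)) := by
      intro i hi h1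
      have := nY i hi
      tauto
    intro i hi
    apply both i hi
    by_cases hpn : G.Adj p (z n)
    · exact Or.inl (path_adj hG n z zp (fun i hi => (zne i hi).2.1) zX.2.1 hpn i (by omega))
    · have hqn : G.Adj q (z n) := by tauto
      exact Or.inr (path_adj hG n z zp (fun i hi => (zne i hi).2.2) zX.2.2 hqn i (by omega))
  have hnc : ∀ i, 0 < i → i < n → ¬ G.Adj c (z i) := by
    intro i hi hin h
    exact nX i hi (by omega) ⟨h, (hall i hin).1, (hall i hin).2⟩
  by_cases hcn : G.Adj c (z n)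
  · -- then `n = 1`
    have hn1 : n = 1 := by
      by_contra hne
      have h1 := path_adj hG n z zp (fun i hi => (zne i hi).1) zX.1 hcn 1 (by omega)
      exact hnc 1 one_pos (by omega) h1
    subst hn1
    refine ⟨1, fun i => if i = 0 then c else z 1, z 0, ⟨le_rfl, by simp, ?_, ?_, ?_, ?_, ?_⟩,
      zA 0 (by omega), zX.1.symm, zX.2.1.symm, zX.2.2.symm, ?_, by omega⟩
    · intro i hi hi'
      have : i = 1 := by omega
      subst this
      simpa using zA 1 le_rfl
    · intro i j hij hj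
      have h1 : i = 0 := by omega
      have h2 : j = 1 := by omega
      subst h1; subst h2
      simp only [if_true, one_ne_zero, if_false, zero_add]
      exact ⟨hcn.ne, iff_of_true hcn trivial⟩
    · intro i hi
      have h1 : i = 0 := by omega
      subst h1
      simpa using hcp.symm
    · intro i hi
      have h1 : i = 0 := by omega
      subst h1
      simpa using hcq.symm
    · simpa using zY
    · intro _
      simpa using (zp 0 1 (by omega) le_rfl).2.mpr rfl
  · refine ⟨n + 1, consL c z, z 0, ⟨by omega, consL_zero c z, ?_, ?_, ?_, ?_, ?_⟩,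
      zA 0 (by omega), zX.1.symm, zX.2.1.symm, zX.2.2.symm, by omega,
      fun _ => by simp [consL]⟩
    · intro i hi hi'
      rw [consL_pos c z (by omega)]
      exact zA _ (by omega)
    · intro i j hij hj
      rw [consL_pos c z (show 0 < j by omega)]
      rcases Nat.eq_zero_or_pos i with h1 | h1
      · rw [h1, consL_zero]
        refine ⟨(zne _ (by omega)).1.symm, ?_⟩
        rcases Nat.lt_or_ge 1 j with h2 | h2
        · refine iff_of_false ?_ (by omega)
          rcases Nat.lt_or_ge (j - 1) n with h3 | h3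
          · exact hnc _ (by omega) h3
          · have : j - 1 = n := by omega
            rw [this]; exact hcn
        · have : j = 1 := by omega
          subst this
          exact iff_of_true zX.1 (by omega)
      · rw [consL_pos c z h1]
        obtain ⟨h2, h3⟩ := zp (i - 1) (j - 1) (by omega) (by omega)
        refine ⟨h2, ?_⟩
        rw [h3]; omega
    · intro i hi
      rcases Nat.eq_zero_or_pos i with h1 | h1
      · rw [h1, consL_zero]; exact hcp.symm
      · rw [consL_pos c z h1]; exact (hall _ (by omega)).1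
    · intro i hi
      rcases Nat.eq_zero_or_pos i with h1 | h1
      · rw [h1, consL_zero]; exact hcq.symm
      · rw [consL_pos c z h1]; exact (hall _ (by omega)).2
    · rw [consL_pos c z (by omega)]
      simpa using zY

end Pool.Agent.Lib.MP_50b720_co
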