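import Pool.Agent.Lib.MP_50b720_co.Full.Reorder

set_option autoImplicit false

namespace Pool.Agent.Lib.MP_50b720_co

open SimpleGraph

variable {V : Type*}

/-- A connected set `A` seen by all members of the clique `U` and breaking `U` contains adjacent
vertices `c`, `y` where `c` is complete to `U` and `y` is not (but sees `s`). -/
theorem cert [Finite V] {G : SimpleGraph V} (hG : IsChordal G) {A U : Set V} (hA : Cn G A)
    (hUA : ∀ u ∈ U, u ∉ A) (hUc : ∀ u ∈ U, ∀ v ∈ U, u ≠ v → G.Adj u v)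
    (hU : ∀ u ∈ U, ∃ x ∈ A, G.Adj u x) {s t x : V} (hs : s ∈ U) (ht : t ∈ U) (hx : x ∈ A)
    (h1 : G.Adj x s) (h2 : ¬ G.Adj x t) :
    ∃ c ∈ A, ∃ y ∈ A, (∀ u ∈ U, G.Adj c u) ∧ G.Adj c y ∧ G.Adj y s ∧
      ∃ t' ∈ U, ¬ G.Adj y t' := by
  set C : Set V := {c ∈ A | ∀ u ∈ U, G.Adj c u} with hC
  obtain ⟨c0, hc0, hc0'⟩ := exists_full hG hUc A hA hUA hU
  have hc0C : c0 ∈ C := ⟨hc0, fun u hu => (hc0' u hu).symm⟩
  have hxC : x ∉ C := fun h => h2 (h.2 t ht)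
  have hxAC : x ∈ A \ C := ⟨hx, hxC⟩
  set D := comp G (A \ C) x with hD
  have hDsub : D ⊆ A \ C := comp_sub hxAC
  have hDne : D ≠ A := fun h => (hDsub (h ▸ hc0)).2 hc0C
  obtain ⟨d, hd, a, ha, hda⟩ := hA.2 D (fun z hz => (hDsub hz).1) ⟨x, self_mem_comp _ _ _⟩ hDne
  have haC : a ∈ C := by
    by_contra hcon
    exact ha.2 (comp_step hd (hDsub hd) ⟨ha.1, hcon⟩ hda)
  have has : G.Adj s a := (haC.2 s hs).symm
  obtain ⟨y, hy, hy1, hy2⟩ := common_nbr hG has (comp_cn hxAC)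
    (fun h => hUA s hs (hDsub h).1) ha.2 ⟨x, self_mem_comp _ _ _, h1.symm⟩ ⟨d, hd, hda.symm⟩
  have hyA := hDsub hy
  refine ⟨a, ha.1, y, hyA.1, haC.2, hy2, hy1.symm, ?_⟩
  by_contra hcon
  push Not at hcon
  exact hyA.2 ⟨hyA.1, hcon⟩

/-- twin classes are consecutive in every half diagram -/
theorem HalfRep.twin_cont [Finite V] {G : SimpleGraph V} (hG : IsChordal G) {X S A : Set V}
    {l r a : V → ℤ} (h : HalfRep G X S l r a) (hA : Cn G A) (hAX : A ⊆ X)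
    (hSA : ∀ s ∈ S, s ∉ A) (hSc : ∀ u ∈ S, ∀ v ∈ S, u ≠ v → G.Adj u v)
    (hS : ∀ u ∈ S, ∃ x ∈ A, G.Adj u x) :
    ∀ s ∈ S, ∀ t ∈ S, ∀ u ∈ S, Tw G A s u → a s < a t → a t < a u → Tw G A s t := by
  intro s hs t ht u hu hsu hst htu
  by_contra hcon
  have hU : ∀ z ∈ ({s, t, u} : Set V), z ∈ S := by
    rintro z (rfl | rfl | rfl)
    exacts [hs, ht, hu]
  have : ∃ x ∈ A, (G.Adj x s ∧ ¬ G.Adj x t) ∨ (G.Adj x t ∧ ¬ G.Adj x s) := by
    by_contra hc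
    push Not at hc
    exact hcon fun x hx => ⟨(hc x hx).1, (hc x hx).2⟩
  obtain ⟨x, hx, hx' | hx'⟩ := this
  · obtain ⟨c, hc, y, hy, h1, h2, h3, t', ht', h4⟩ := cert hG (U := {s, t, u}) hA
      (fun z hz => hSA z (hU z hz)) (fun z hz w hw => hSc z (hU z hz) w (hU w hw))
      (fun z hz => hS z (hU z hz)) (s := s) (t := t) (by simp) (by simp) hx hx'.1 hx'.2
    have hyu := (hsu y hy).mp h3
    have hyt := h.conv (hAX hy) hs ht hu hst htu h3 hyu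
    rcases ht' with rfl | rfl | rfl
    exacts [h4 h3, h4 hyt, h4 hyu]
  · obtain ⟨c, hc, y, hy, h1, h2, h3, t', ht', h4⟩ := cert hG (U := {s, t, u}) hA
      (fun z hz => hSA z (hU z hz)) (fun z hz w hw => hSc z (hU z hz) w (hU w hw))
      (fun z hz => hS z (hU z hz)) (s := t) (t := s) (by simp) (by simp) hx hx'.1 hx'.2
    have h5 := h.pref (hAX hc) (hAX hy) hs ht hu hst htu h2 (h1 s (by simp)) (h1 u (by simp)) h3
    have h6 : G.Adj y s ∧ G.Adj y u := by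
      rcases h5 with h5 | h5
      · exact ⟨h5, (hsu y hy).mp h5⟩
      · exact ⟨(hsu y hy).mpr h5, h5⟩
    rcases ht' with rfl | rfl | rfl
    exacts [h4 h6.1, h4 h3, h4 h6.2]

/-- the neighbourhoods of `d` and `e` in `S` overlap -/
def Ovl (G : SimpleGraph V) (S : Set V) (d e : V) : Prop :=
  (∃ s ∈ S, G.Adj d s ∧ G.Adj e s) ∧ (∃ s ∈ S, G.Adj d s ∧ ¬ G.Adj e s) ∧
    ∃ s ∈ S, G.Adj e s ∧ ¬ G.Adj d s

/-- one side of the separator: a half diagram of `A`, an order of `S` and a placement of the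
further vertices -/
structure BlockData (G : SimpleGraph V) (A S Dd : Set V) (l r a : V → ℤ) (c : V → Prop) :
    Prop where
  rep : HalfRep G A S l r a
  conv : ∀ d ∈ Dd, ∀ s ∈ S, ∀ t ∈ S, ∀ u ∈ S, a s < a t → a t < a u → G.Adj d s →
    G.Adj d u → G.Adj d t
  col : ∀ d ∈ Dd, ∀ e ∈ Dd, Ovl G S d e → (c d ↔ ¬ c e)
  unb : ∀ d ∈ Dd, c d → ∀ s ∈ S, ∀ t ∈ S, G.Adj d s → G.Adj d t → Tw G A s t

theorem BlockData.neg {G : SimpleGraph V} {A S Dd : Set V} {l r a : V → ℤ} {c : V → Prop}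
    (h : BlockData G A S Dd l r a c) :
    BlockData G A S Dd (fun x => - r x) (fun x => - l x) (fun s => - a s) c := by
  refine ⟨h.rep.neg, ?_, h.col, h.unb⟩
  intro d hd s hs t ht u hu h1 h2 h3 h4
  beta_reduce at h1 h2
  exact h.conv d hd u hu t ht s hs (by omega) (by omega) h4 h3

theorem exists_blockData [Finite V] {G : SimpleGraph V} {A S Dd : Set V} {z : V}
    (h : Circ G (A ∪ Dd ∪ S ∪ {z})) (hA : Cn G A) (hzA : z ∉ A) (hzD : z ∉ Dd) (hzS : z ∉ S)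
    (hAS : Disjoint A S) (hDS : Disjoint Dd S) (hAD : Disjoint A Dd)
    (hS : ∀ s ∈ S, ∀ t ∈ S, s ≠ t → G.Adj s t) (hSz : ∀ s ∈ S, G.Adj s z)
    (hAz : ∀ x ∈ A, ¬ G.Adj x z) (hDz : ∀ x ∈ Dd, ¬ G.Adj x z)
    (hfull : ∀ s ∈ S, ∃ x ∈ A, G.Adj s x) (hDA : ∀ d ∈ Dd, ∀ x ∈ A, ¬ G.Adj x d)
    (hDD : ∀ d ∈ Dd, ∀ e ∈ Dd, ¬ G.Adj d e) (hDn : ∀ d ∈ Dd, ∃ u ∈ S, ¬ G.Adj d u) :
    ∃ (l r a : V → ℤ) (c : V → Prop), BlockData G A S Dd l r a c := by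
  obtain ⟨c0, l, r, a, l', r', a', h1, h2, h3, h4⟩ := Circ.halves (X := A ∪ Dd) (S := S) h
    (by simp [hzA, hzD]) hzS (Set.disjoint_union_left.mpr ⟨hAS, hDS⟩) hS hSz
    (by rintro x (hx | hx); exacts [hAz x hx, hDz x hx])
  -- `A` is on one side
  have hside : (∀ x ∈ A, c0 x) ∨ (∀ x ∈ A, ¬ c0 x) := by
    by_contra hcon
    push Not at hcon
    obtain ⟨⟨x, hx, hx'⟩, y, hy, hy'⟩ := hcon
    obtain ⟨u, hu, v, hv, huv⟩ := hA.2 {z ∈ A | c0 z} (fun z hz => hz.1) ⟨y, hy, hy'⟩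
      (fun h' => by
        have := h'.symm.subset hx
        exact hx' this.2)
    have hv' : ¬ c0 v := fun h' => hv.2 ⟨hv.1, h'⟩
    exact h4 u (Or.inl hu.1) v (Or.inl hv.1) hu.2 hv' huv
  have hne : ∀ d ∈ Dd, d ∉ A := fun d hd hdA => Set.disjoint_left.mp hAD hdA hd
  rcases hside with hs | hs
  · refine ⟨l, r, a, c0, ?_, ?_, ?_, ?_⟩
    · exact h1.mono (fun x hx => ⟨Or.inl hx, hs x hx⟩) (Set.Subset.refl _)
    · intro d hd s hs' t ht u hu e1 e2 e3 e4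
      by_cases hcd : c0 d
      · exact h1.conv (x := d) ⟨Or.inr hd, hcd⟩ hs' ht hu e1 e2 e3 e4
      · exact h2.conv (x := d) ⟨Or.inr hd, hcd⟩ hs' ht hu ((h3 _ hs' _ ht).mp e1)
          ((h3 _ ht _ hu).mp e2) e3 e4
    · intro d hd e he ⟨⟨s, hs', s1, s2⟩, ⟨t, ht, t1, t2⟩, ⟨u, hu, u1, u2⟩⟩
      have hde : d ≠ e := fun h' => t2 (h' ▸ t1)
      by_cases hcd : c0 d <;> by_cases hce : c0 e
      · exact absurd (h1.lam (x := d) (y := e) ⟨Or.inr hd, hcd⟩ ⟨Or.inr he, hce⟩ hde ht hs' hu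
          (hDD d hd e he) t1 t2 s1 s2 u1 u2) id
      · simp [hcd, hce]
      · simp [hcd, hce]
      · exact absurd (h2.lam (x := d) (y := e) ⟨Or.inr hd, hcd⟩ ⟨Or.inr he, hce⟩ hde ht hs' hu
          (hDD d hd e he) t1 t2 s1 s2 u1 u2) id
    · intro d hd hcd s hs' t ht hds hdt x hx
      obtain ⟨u, hu, hu'⟩ := hDn d hd
      obtain ⟨y, hy, hy'⟩ := hfull u hu
      exact h1.unbroken hA (fun x hx => ⟨Or.inl hx, hs x hx⟩) ⟨Or.inr hd, hcd⟩ (hne d hd)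
        (hDA d hd) hu hu' ⟨y, hy, hy'.symm⟩ hx hs' ht hds hdt
  · refine ⟨l', r', a', fun d => ¬ c0 d, ?_, ?_, ?_, ?_⟩
    · exact h2.mono (fun x hx => ⟨Or.inl hx, hs x hx⟩) (Set.Subset.refl _)
    · intro d hd s hs' t ht u hu e1 e2 e3 e4
      by_cases hcd : c0 d
      · exact h1.conv (x := d) ⟨Or.inr hd, hcd⟩ hs' ht hu ((h3 _ hs' _ ht).mpr e1)
          ((h3 _ ht _ hu).mpr e2) e3 e4
      · exact h2.conv (x := d) ⟨Or.inr hd, hcd⟩ hs' ht hu e1 e2 e3 e4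
    · intro d hd e he ⟨⟨s, hs', s1, s2⟩, ⟨t, ht, t1, t2⟩, ⟨u, hu, u1, u2⟩⟩
      have hde : d ≠ e := fun h' => t2 (h' ▸ t1)
      by_cases hcd : c0 d <;> by_cases hce : c0 e
      · exact absurd (h1.lam (x := d) (y := e) ⟨Or.inr hd, hcd⟩ ⟨Or.inr he, hce⟩ hde ht hs' hu
          (hDD d hd e he) t1 t2 s1 s2 u1 u2) id
      · simp [hcd, hce]
      · simp [hcd, hce]
      · exact absurd (h2.lam (x := d) (y := e) ⟨Or.inr hd, hcd⟩ ⟨Or.inr he, hce⟩ hde ht hs' hu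
          (hDD d hd e he) t1 t2 s1 s2 u1 u2) id
    · intro d hd hcd s hs' t ht hds hdt x hx
      obtain ⟨u, hu, hu'⟩ := hDn d hd
      obtain ⟨y, hy, hy'⟩ := hfull u hu
      exact h2.unbroken hA (fun x hx => ⟨Or.inl hx, hs x hx⟩) ⟨Or.inr hd, hcd⟩ (hne d hd)
        (hDA d hd) hu hu' ⟨y, hy, hy'.symm⟩ hx hs' ht hds hdt

end Pool.Agent.Lib.MP_50b720_co
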