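import Mathlib

set_option autoImplicit false

namespace Pool.Agent.Lib.MP_50b720_co

variable {V : Type*}

/-- overlapping sets -/
def Ov (T : V → Set V) (d e : V) : Prop :=
  (∃ s, s ∈ T d ∧ s ∈ T e) ∧ (∃ s, s ∈ T d ∧ s ∉ T e) ∧ (∃ s, s ∈ T e ∧ s ∉ T d)

lemma Ov.symm {T : V → Set V} {d e : V} (h : Ov T d e) : Ov T e d := by
  obtain ⟨⟨s, h1, h2⟩, ⟨t, h3, h4⟩, ⟨u, h5, h6⟩⟩ := h
  exact ⟨⟨s, h2, h1⟩, ⟨u, h5, h6⟩, ⟨t, h3, h4⟩⟩

lemma sub_or_sub {T : V → Set V} {d e x : V} (h : ¬ Ov T d e) (h1 : x ∈ T d) (h2 : x ∈ T e) :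
    T d ⊆ T e ∨ T e ⊆ T d := by
  by_contra hcon
  push Not at hcon
  obtain ⟨s, hs, hs'⟩ := Set.not_subset.mp hcon.1
  obtain ⟨t, ht, ht'⟩ := Set.not_subset.mp hcon.2
  exact h ⟨⟨x, h1, h2⟩, ⟨s, hs, hs'⟩, ⟨t, ht, ht'⟩⟩

/-- In a shortest chain of overlapping sets, sets at distance at least two are disjoint. -/
lemma clean_chain {T : V → Set V} {m : ℕ} {d : ℕ → V} {P Q : V → Prop}
    (hov : ∀ i < m, Ov T (d i) (d (i + 1)))
    (hno : ∀ i j, i + 2 ≤ j → j ≤ m → ¬ Ov T (d i) (d j))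
    (hP : ∀ i j, i ≤ m → j ≤ m → T (d i) ⊆ T (d j) → P (d i) → P (d j))
    (hQ : ∀ i j, i ≤ m → j ≤ m → T (d i) ⊆ T (d j) → Q (d i) → Q (d j))
    (hP0 : P (d 0)) (hPj : ∀ j, 0 < j → j ≤ m → ¬ P (d j))
    (hQm : Q (d m)) (hQi : ∀ i, i < m → ¬ Q (d i)) :
    ∀ i j, i + 2 ≤ j → j ≤ m → ∀ x, x ∈ T (d i) → x ∉ T (d j) := by
  intro i j hij hj x hxi hxj
  rcases sub_or_sub (hno i j hij hj) hxi hxj with h | h
  · have key : ∀ k, k ≤ i → T (d (i - k)) ⊆ T (d j) := by
      intro k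
      induction k with
      | zero => intro _; simpa using h
      | succ k ih =>
        intro hk
        have h1 := ih (by omega)
        have h2 := hov (i - (k + 1)) (by omega)
        have h3 : i - (k + 1) + 1 = i - k := by omega
        rw [h3] at h2
        obtain ⟨⟨y, hy1, hy2⟩, _, ⟨z, hz1, hz2⟩⟩ := h2
        rcases sub_or_sub (hno (i - (k + 1)) j (by omega) hj) hy1 (h1 hy2) with h4 | h4
        · exact h4
        · exact absurd (h4 (h1 hz1)) hz2
    have h0 := key i le_rfl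
    rw [Nat.sub_self] at h0
    exact hPj j (by omega) hj (hP 0 j (by omega) hj h0 hP0)
  · have key : ∀ k, j + k ≤ m → T (d (j + k)) ⊆ T (d i) := by
      intro k
      induction k with
      | zero => intro _; simpa using h
      | succ k ih =>
        intro hk
        have h1 := ih (by omega)
        have h2 := hov (j + k) (by omega)
        obtain ⟨⟨y, hy1, hy2⟩, ⟨z, hz1, hz2⟩, _⟩ := h2
        have h5 : ¬ Ov T (d (j + k + 1)) (d i) := fun h' => hno i (j + k + 1) (by omega) (by omega)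
          h'.symm
        rcases sub_or_sub h5 hy2 (h1 hy1) with h4 | h4
        · exact h4
        · exact absurd (h4 (h1 hz1)) hz2
    have h0 := key (m - j) (by omega)
    have h1 : j + (m - j) = m := by omega
    rw [h1] at h0
    exact hQi i (by omega) (hQ m i le_rfl (by omega) h0 hQm)

/-- shortcut in a path -/
lemma path_shortcut {R : V → V → Prop} {m i j : ℕ} {d : ℕ → V}
    (hR : ∀ k < m, R (d k) (d (k + 1))) (hij : i + 1 ≤ j) (hj : j ≤ m) (h : R (d i) (d j)) :
    ∃ d' : ℕ → V, d' 0 = d 0 ∧ d' (m - (j - i) + 1) = d m ∧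
      (∀ k < m - (j - i) + 1, R (d' k) (d' (k + 1))) ∧
      ∀ k ≤ m - (j - i) + 1, ∃ k' ≤ m, d' k = d k' := by
  refine ⟨fun k => if k ≤ i then d k else d (k + (j - i - 1)), by simp, ?_, ?_, ?_⟩
  · have h1 : ¬ (m - (j - i) + 1 ≤ i) := by omega
    simp only [h1, if_false]
    congr 1; omega
  · intro k hk
    by_cases h1 : k + 1 ≤ i
    · have h2 : k ≤ i := by omega
      simp only [h1, h2, if_true]
      exact hR k (by omega)
    · by_cases h2 : k ≤ i
      · have h3 : k = i := by omega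
        subst h3
        simp only [h1, le_refl, if_true, if_false]
        have h4 : k + 1 + (j - k - 1) = j := by omega
        rw [h4]; exact h
      · simp only [h1, h2, if_false]
        have h4 : k + 1 + (j - i - 1) = k + (j - i - 1) + 1 := by omega
        rw [h4]
        exact hR _ (by omega)
  · intro k hk
    by_cases h2 : k ≤ i
    · exact ⟨k, by omega, by simp [h2]⟩
    · exact ⟨k + (j - i - 1), by omega, by simp [h2]⟩

lemma exists_path_of_rtg {R : V → V → Prop} {a b : V} (h : Relation.ReflTransGen R a b) :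
    ∃ (m : ℕ) (d : ℕ → V), d 0 = a ∧ d m = b ∧ ∀ k < m, R (d k) (d (k + 1)) := by
  induction h with
  | refl => exact ⟨0, fun _ => a, rfl, rfl, by intro k hk; omega⟩
  | tail _ h2 ih =>
    obtain ⟨m, d, h3, h4, h5⟩ := ih
    rename_i b' c' _
    refine ⟨m + 1, fun k => if k ≤ m then d k else c', by simp [h3], by simp, ?_⟩
    intro k hk
    by_cases h6 : k + 1 ≤ m
    · have h7 : k ≤ m := by omega
      simp only [h6, h7, if_true]
      exact h5 k (by omega)
    · have h7 : k = m := by omega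
      subst h7
      simp only [h6, le_refl, if_true, if_false]
      rw [h4]; exact h2

/-- bounds for an integer function on a finite type -/
lemma exists_bound' [Finite V] (p q : V → ℤ) : ∃ K : ℤ, 0 < K ∧ ∀ u, -K < p u ∧ p u < K ∧
    -K < q u ∧ q u < K := by
  obtain ⟨a, ha⟩ := (Set.finite_range (fun u => |p u|)).bddAbove
  obtain ⟨b, hb⟩ := (Set.finite_range (fun u => |q u|)).bddAbove
  refine ⟨max (max a b) 0 + 1, by positivity, fun u => ?_⟩
  have h1 := ha ⟨u, rfl⟩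
  have h2 := hb ⟨u, rfl⟩
  simp only at h1 h2
  have h3 := le_max_left a b
  have h4 := le_max_right a b
  have h5 := le_max_left (max a b) 0
  have h6 := abs_le.mp h1
  have h7 := abs_le.mp h2
  refine ⟨?_, ?_, ?_, ?_⟩ <;> omega

/-- the required order on `E` -/
def GoodOrd (E D : Set V) (T : V → Set V) (Lf Rg : V → Prop) (τ : V → ℤ) : Prop :=
  (∀ s ∈ E, ∀ t ∈ E, s ≠ t → τ s ≠ τ t) ∧
  (∀ d ∈ D, ∀ s ∈ E, ∀ t ∈ E, ∀ u ∈ E, τ s < τ t → τ t < τ u → s ∈ T d → u ∈ T d → t ∈ T d) ∧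
  (∀ d ∈ D, (∃ x ∈ T d, Lf x) → ∀ s ∈ E, ∀ t ∈ E, τ s < τ t → t ∈ T d → s ∈ T d) ∧
  (∀ d ∈ D, (∃ x ∈ T d, Rg x) → ∀ s ∈ E, ∀ t ∈ E, τ s < τ t → s ∈ T d → t ∈ T d)

open Classical in
/-- combining two orders along a common suffix -/
lemma two_block [Finite V] {E D : Set V} {T : V → Set V} {Lf Rg Z : V → Prop} {α β : V → ℤ}
    (hα : ∀ s ∈ E, ∀ t ∈ E, s ≠ t → α s ≠ α t) (hβ : ∀ s ∈ E, ∀ t ∈ E, s ≠ t → β s ≠ β t)
    (cα : ∀ d ∈ D, ∀ s ∈ E, ∀ t ∈ E, ∀ u ∈ E, α s < α t → α t < α u → s ∈ T d → u ∈ T d →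
      t ∈ T d)
    (cβ : ∀ d ∈ D, ∀ s ∈ E, ∀ t ∈ E, ∀ u ∈ E, β s < β t → β t < β u → s ∈ T d → u ∈ T d →
      t ∈ T d)
    (pα : ∀ d ∈ D, (∃ x ∈ T d, Lf x) → ∀ s ∈ E, ∀ t ∈ E, α s < α t → t ∈ T d → s ∈ T d)
    (sβ : ∀ d ∈ D, (∃ x ∈ T d, Rg x) → ∀ s ∈ E, ∀ t ∈ E, β s < β t → s ∈ T d → t ∈ T d)
    (Zα : ∀ s ∈ E, ∀ t ∈ E, Z s → α s < α t → Z t) (Zβ : ∀ s ∈ E, ∀ t ∈ E, Z s → β s < β t → Z t)
    {z0 w0 : V} (hz0 : z0 ∈ E) (hz0' : Z z0) (hw0 : w0 ∈ E) (hw0' : ¬ Z w0) :
    ∃ τ, GoodOrd E D T Lf Rg τ := by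
  obtain ⟨K, hK, hb⟩ := exists_bound' α β
  set τ : V → ℤ := fun x => if Z x then β x + K else α x - K with hτ
  have τ1 : ∀ x, Z x → τ x = β x + K := fun x hx => by simp [hτ, hx]
  have τ2 : ∀ x, ¬ Z x → τ x = α x - K := fun x hx => by simp [hτ, hx]
  have hlt : ∀ s t, ¬ Z s → Z t → τ s < τ t := by
    intro s t h1 h2
    rw [τ1 t h2, τ2 s h1]
    have := hb s
    have := hb t
    omega
  have e1 : ∀ s ∈ E, ∀ t ∈ E, Z s → τ s < τ t → Z t ∧ β s < β t := by
    intro s hs t ht h1 h2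
    by_cases h3 : Z t
    · rw [τ1 s h1, τ1 t h3] at h2; exact ⟨h3, by omega⟩
    · exact absurd (hlt t s h3 h1) (by omega)
  have e2 : ∀ s ∈ E, ∀ t ∈ E, ¬ Z t → τ s < τ t → ¬ Z s ∧ α s < α t := by
    intro s hs t ht h1 h2
    by_cases h3 : Z s
    · exact absurd (e1 s hs t ht h3 h2).1 h1
    · rw [τ2 s h3, τ2 t h1] at h2; exact ⟨h3, by omega⟩
  refine ⟨τ, ?_, ?_, ?_, ?_⟩
  · intro s hs t ht hst
    by_cases h1 : Z s <;> by_cases h2 : Z t
    · rw [τ1 s h1, τ1 t h2]; have := hβ s hs t ht hst; omega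
    · exact (hlt t s h2 h1).ne'
    · exact (hlt s t h1 h2).ne
    · rw [τ2 s h1, τ2 t h2]; have := hα s hs t ht hst; omega
  · intro d hd s hs t ht u hu h1 h2 h3 h4
    by_cases ht' : Z t
    · obtain ⟨hu', h5⟩ := e1 t ht u hu ht' h2
      by_cases hs' : Z s
      · exact cβ d hd s hs t ht u hu (e1 s hs t ht hs' h1).2 h5 h3 h4
      · -- `s` before `Z`: in `β` it is before `t` as well
        have h6 : β s < β t := by
          by_contra hcon
          rcases lt_or_eq_of_le (not_lt.mp hcon) with h7 | h7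
          · exact hs' (Zβ t ht s hs ht' h7)
          · exact hs' ((by
              by_contra hne
              exact hβ t ht s hs (fun h' => hne (h' ▸ ht')) h7) : Z s)
        exact cβ d hd s hs t ht u hu h6 h5 h3 h4
    · obtain ⟨hs', h5⟩ := e2 s hs t ht ht' h1
      by_cases hu' : Z u
      · have h6 : α t < α u := by
          by_contra hcon
          rcases lt_or_eq_of_le (not_lt.mp hcon) with h7 | h7
          · exact ht' (Zα u hu t ht hu' h7)
          · exact ht' ((by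
              by_contra hne
              exact hα u hu t ht (fun h' => hne (h' ▸ hu')) h7) : Z t)
        exact cα d hd s hs t ht u hu h5 h6 h3 h4
      · exact cα d hd s hs t ht u hu h5 (e2 t ht u hu hu' h2).2 h3 h4
  · intro d hd hL s hs t ht h1 h2
    by_cases ht' : Z t
    · by_cases hs' : Z s
      · -- `t ∈ Z`, the prefix contains everything before `Z`
        have h3 : w0 ∈ T d := pα d hd hL w0 hw0 t ht (by
          by_contra hcon
          rcases lt_or_eq_of_le (not_lt.mp hcon) with h7 | h7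
          · exact hw0' (Zα t ht w0 hw0 ht' h7)
          · exact hα t ht w0 hw0 (fun h' => hw0' (h' ▸ ht')) h7) h2
        have h4 : β w0 < β s := by
          by_contra hcon
          rcases lt_or_eq_of_le (not_lt.mp hcon) with h7 | h7
          · exact hw0' (Zβ s hs w0 hw0 hs' h7)
          · exact hβ s hs w0 hw0 (fun h' => hw0' (h' ▸ hs')) h7
        exact cβ d hd w0 hw0 s hs t ht h4 (e1 s hs t ht hs' h1).2 h3 h2
      · exact pα d hd hL s hs t ht (by
          by_contra hcon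
          rcases lt_or_eq_of_le (not_lt.mp hcon) with h7 | h7
          · exact hs' (Zα t ht s hs ht' h7)
          · exact hα t ht s hs (fun h' => hs' (h' ▸ ht')) h7) h2
    · exact pα d hd hL s hs t ht (e2 s hs t ht ht' h1).2 h2
  · intro d hd hR s hs t ht h1 h2
    by_cases hs' : Z s
    · exact sβ d hd hR s hs t ht (e1 s hs t ht hs' h1).2 h2
    · by_cases ht' : Z t
      · exact sβ d hd hR s hs t ht (by
          by_contra hcon
          rcases lt_or_eq_of_le (not_lt.mp hcon) with h7 | h7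
          · exact hs' (Zβ t ht s hs ht' h7)
          · exact hβ t ht s hs (fun h' => hs' (h' ▸ ht')) h7) h2
      · have h3 : z0 ∈ T d := sβ d hd hR s hs z0 hz0 (by
          by_contra hcon
          rcases lt_or_eq_of_le (not_lt.mp hcon) with h7 | h7
          · exact hs' (Zβ z0 hz0 s hs hz0' h7)
          · exact hβ z0 hz0 s hs (fun h' => hs' (h' ▸ hz0')) h7) h2
        have h4 : α t < α z0 := by
          by_contra hcon
          rcases lt_or_eq_of_le (not_lt.mp hcon) with h7 | h7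
          · exact ht' (Zα z0 hz0 t ht hz0' h7)
          · exact hα z0 hz0 t ht (fun h' => ht' (h' ▸ hz0')) h7
        exact cα d hd s hs t ht z0 hz0 (e2 s hs t ht ht' h1).2 h4 h2 h3

open Classical in
/-- The key lemma: an order on `E` which satisfies the prefix conditions of `α` and the suffix
conditions of `β`. -/
theorem mixed [Finite V] {E D : Set V} {T : V → Set V} {Lf Rg : V → Prop} {α β : V → ℤ}
    (hα : ∀ s ∈ E, ∀ t ∈ E, s ≠ t → α s ≠ α t) (hβ : ∀ s ∈ E, ∀ t ∈ E, s ≠ t → β s ≠ β t)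
    (hT : ∀ d ∈ D, ∀ x ∈ T d, x ∈ E ∨ Lf x ∨ Rg x)
    (hLR : ∀ d ∈ D, (∃ x ∈ T d, Lf x) → (∃ x ∈ T d, Rg x) → ∀ e ∈ E, e ∈ T d)
    (cα : ∀ d ∈ D, ∀ s ∈ E, ∀ t ∈ E, ∀ u ∈ E, α s < α t → α t < α u → s ∈ T d → u ∈ T d →
      t ∈ T d)
    (cβ : ∀ d ∈ D, ∀ s ∈ E, ∀ t ∈ E, ∀ u ∈ E, β s < β t → β t < β u → s ∈ T d → u ∈ T d →
      t ∈ T d)
    (pα : ∀ d ∈ D, (∃ x ∈ T d, Lf x) → ∀ s ∈ E, ∀ t ∈ E, α s < α t → t ∈ T d → s ∈ T d)
    (sβ : ∀ d ∈ D, (∃ x ∈ T d, Rg x) → ∀ s ∈ E, ∀ t ∈ E, β s < β t → s ∈ T d → t ∈ T d)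
    (NR : ∀ (m : ℕ) (d : ℕ → V), 1 ≤ m → (∀ i ≤ m, d i ∈ D) →
      (∀ i < m, Ov T (d i) (d (i + 1))) →
      (∀ i j, i + 2 ≤ j → j ≤ m → ∀ x, x ∈ T (d i) → x ∉ T (d j)) →
      (∃ x ∈ T (d 0), Lf x) → (∃ x ∈ T (d m), Rg x) →
      (∀ i, 0 < i → i ≤ m → ¬ ∃ x ∈ T (d i), Lf x) → (∀ i, i < m → ¬ ∃ x ∈ T (d i), Rg x) →
      ∀ e ∈ E, ∃ i ≤ m, e ∈ T (d i)) :
    ∃ τ, GoodOrd E D T Lf Rg τ := by
  set 𝒢 : Set V := {d ∈ D | (∃ e ∈ E, e ∈ T d) ∧ ∃ e ∈ E, e ∉ T d} with h𝒢
  set PL : V → Prop := fun d => ∃ x ∈ T d, Lf x with hPL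
  set PR : V → Prop := fun d => ∃ x ∈ T d, Rg x with hPR
  have hnLR : ∀ d ∈ 𝒢, PL d → PR d → False := by
    intro d hd h1 h2
    obtain ⟨e, he, he'⟩ := hd.2.2
    exact he' (hLR d hd.1 h1 h2 e he)
  by_cases hpath : ∃ (m : ℕ) (d : ℕ → V), (∀ i ≤ m, d i ∈ 𝒢) ∧ (∀ i < m, Ov T (d i) (d (i + 1))) ∧
      PL (d 0) ∧ PR (d m)
  · -- a shortest path
    have hfind := Nat.find_spec hpath
    have hmin := fun (k : ℕ) (hk : k < Nat.find hpath) => Nat.find_min hpath hk
    set m := Nat.find hpath with hm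
    obtain ⟨d, hdG, hov, hL0, hRm⟩ := hfind
    have hm0 : m ≠ 0 := by
      intro h0
      rw [h0] at hRm
      exact hnLR (d 0) (hdG 0 (by omega)) hL0 hRm
    have hPj : ∀ j, 0 < j → j ≤ m → ¬ PL (d j) := by
      intro j hj hjm hcon
      apply hmin (m - j) (by omega)
      refine ⟨fun k => d (k + j), fun i hi => hdG _ (by omega), fun i hi => ?_, ?_, ?_⟩
      · have : i + 1 + j = i + j + 1 := by omega
        show Ov T (d (i + j)) (d (i + 1 + j))
        rw [this]; exact hov _ (by omega)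
      · simpa using hcon
      · have : m - j + j = m := by omega
        show PR (d (m - j + j))
        rw [this]; exact hRm
    have hQi : ∀ i, i < m → ¬ PR (d i) := by
      intro i hi hcon
      exact hmin i hi ⟨d, fun k hk => hdG k (by omega), fun k hk => hov k (by omega), hL0, hcon⟩
    have hno : ∀ i j, i + 2 ≤ j → j ≤ m → ¬ Ov T (d i) (d j) := by
      intro i j hij hj hcon
      obtain ⟨d', h1, h2, h3, h4⟩ := path_shortcut (R := Ov T) hov (by omega) hj hcon
      apply hmin (m - (j - i) + 1) (by omega)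
      refine ⟨d', fun k hk => ?_, h3, ?_, ?_⟩
      · obtain ⟨k', hk', h5⟩ := h4 k hk
        rw [h5]; exact hdG k' hk'
      · rw [h1]; exact hL0
      · rw [h2]; exact hRm
    have hclean := clean_chain (P := PL) (Q := PR) hov hno
      (fun i j _ _ hsub h => by obtain ⟨x, hx, hx'⟩ := h; exact ⟨x, hsub hx, hx'⟩)
      (fun i j _ _ hsub h => by obtain ⟨x, hx, hx'⟩ := h; exact ⟨x, hsub hx, hx'⟩)
      hL0 hPj hRm hQi
    have hcov := NR m d (by omega) (fun i hi => (hdG i hi).1) hov hclean hL0 hRm hPj hQi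
    -- common elements of consecutive members lie in `E`
    have hcom : ∀ i < m, ∃ y ∈ E, y ∈ T (d i) ∧ y ∈ T (d (i + 1)) := by
      intro i hi
      obtain ⟨⟨y, hy1, hy2⟩, _, _⟩ := hov i hi
      rcases hT _ (hdG i (by omega)).1 y hy1 with h | h | h
      · exact ⟨y, h, hy1, hy2⟩
      · exact absurd ⟨y, hy2, h⟩ (hPj (i + 1) (by omega) (by omega))
      · exact absurd ⟨y, hy1, h⟩ (hQi i hi)
    -- the union of the members with index at least `j` is closed upwards in `β`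
    have hup : ∀ j ≤ m, ∀ z ∈ E, ∀ z' ∈ E, β z < β z' → z ∈ T (d j) →
        ∃ k, j ≤ k ∧ k ≤ m ∧ z' ∈ T (d k) := by
      have key : ∀ n j, j ≤ m → m - j = n → ∀ z ∈ E, ∀ z' ∈ E, β z < β z' → z ∈ T (d j) →
          ∃ k, j ≤ k ∧ k ≤ m ∧ z' ∈ T (d k) := by
        intro n
        induction n with
        | zero =>
          intro j hj hn z hz z' hz' hlt hzj
          have hjm : j = m := by omega
          rw [hjm] at hzj ⊢
          exact ⟨m, le_rfl, le_rfl, sβ _ (hdG m le_rfl).1 hRm z hz z' hz' hlt hzj⟩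
        | succ n ih =>
          intro j hj hn z hz z' hz' hlt hzj
          obtain ⟨y, hy, hy1, hy2⟩ := hcom j (by omega)
          by_cases h1 : z' = y
          · exact ⟨j, le_rfl, hj, h1 ▸ hy1⟩
          · rcases lt_or_gt_of_ne (hβ z' hz' y hy h1) with h2 | h2
            · exact ⟨j, le_rfl, hj, cβ _ (hdG j hj).1 z hz z' hz' y hy hlt h2 hzj hy1⟩
            · obtain ⟨k, h3, h4, h5⟩ := ih (j + 1) (by omega) (by omega) y hy z' hz' h2 hy2
              exact ⟨k, by omega, h4, h5⟩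
      intro j hj
      exact key (m - j) j hj rfl
    -- finishing with the member `i`
    have fin : ∀ i < m, (∀ s ∈ E, ∀ t ∈ E, α s < α t → t ∈ T (d i) → s ∈ T (d i)) →
        (∃ y ∈ E, y ∈ T (d i) ∧ ∀ k, i < k → k ≤ m → y ∉ T (d k)) →
        (∀ e ∈ E, ∃ k, i ≤ k ∧ k ≤ m ∧ e ∈ T (d k)) → ∃ τ, GoodOrd E D T Lf Rg τ := by
      intro i hi hdown ⟨y, hy, hy1, hy2⟩ hcov'
      obtain ⟨z0, hz0, hz0'⟩ := (hdG i (by omega)).2.2
      refine two_block (Z := fun x => x ∉ T (d i)) (z0 := z0) (w0 := y) hα hβ cα cβ pα sβ ?_ ?_ hz0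
        hz0' hy (by simpa using hy1)
      · intro s hs t ht h1 h2 h3
        exact h1 (hdown s hs t ht h2 h3)
      · intro s hs t ht h1 h2 h3
        obtain ⟨k, hk1, hk2, hk3⟩ := hcov' s hs
        have hki : i < k := by
          rcases Nat.lt_or_ge i k with h | h
          · exact h
          · have : k = i := by omega
            subst this; exact absurd hk3 h1
        have hys : β y < β s := by
          by_contra hcon
          have hne : s ≠ y := fun h => h1 (h ▸ hy1)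
          have h5 := hβ s hs y hy hne
          obtain ⟨k', hk1', hk2', hk3'⟩ := hup k hk2 s hs y hy (by omega) hk3
          exact hy2 k' (by omega) hk2' hk3'
        exact h1 (cβ _ (hdG i (by omega)).1 y hy s hs t ht hys h2 hy1 h3)
    by_cases h0 : ∃ y ∈ E, y ∈ T (d 0) ∧ y ∉ T (d 1)
    · obtain ⟨y, hy, hy1, hy2⟩ := h0
      refine fin 0 (by omega) (fun s hs t ht => pα _ (hdG 0 (by omega)).1 hL0 s hs t ht)
        ⟨y, hy, hy1, fun k hk hk' => ?_⟩ (fun e he => ?_)
      · rcases Nat.lt_or_ge k 2 with h | h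
        · have : k = 1 := by omega
          subst this; exact hy2
        · exact hclean 0 k (by omega) hk' y hy1
      · obtain ⟨k, hk, hk'⟩ := hcov e he
        exact ⟨k, by omega, hk, hk'⟩
    · push Not at h0
      have hm2 : 2 ≤ m := by
        by_contra hcon
        have hm1 : m = 1 := by omega
        obtain ⟨e, he, he'⟩ := (hdG 1 (by omega)).2.2
        obtain ⟨k, hk, hk'⟩ := hcov e he
        rcases Nat.lt_or_ge k 1 with h | h
        · have : k = 0 := by omega
          subst this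
          exact he' (h0 e he hk')
        · have : k = 1 := by omega
          subst this; exact he' hk'
      obtain ⟨y0, hy0, hy0'⟩ := (hdG 0 (by omega)).2.1
      have hy1 := h0 y0 hy0 hy0'
      refine fin 1 (by omega) (fun s hs t ht h1 h2 => ?_) ⟨y0, hy0, hy1, fun k hk hk' => ?_⟩
        (fun e he => ?_)
      · by_cases h3 : s = y0
        · rw [h3]; exact hy1
        · rcases lt_or_gt_of_ne (hα s hs y0 hy0 h3) with h4 | h4
          · exact h0 s hs (pα _ (hdG 0 (by omega)).1 hL0 s hs y0 hy0 h4 hy0')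
          · exact cα _ (hdG 1 (by omega)).1 y0 hy0 s hs t ht h4 h1 hy1 h2
      · exact hclean 0 k (by omega) hk' y0 hy0'
      · obtain ⟨k, hk, hk'⟩ := hcov e he
        rcases Nat.lt_or_ge k 1 with h | h
        · have : k = 0 := by omega
          subst this
          exact ⟨1, le_rfl, by omega, h0 e he hk'⟩
        · exact ⟨k, h, hk, hk'⟩
  · -- no path
    set R : V → V → Prop := fun a b => a ∈ 𝒢 ∧ b ∈ 𝒢 ∧ Ov T a b with hR
    set Reach : V → Prop := fun d => ∃ g ∈ 𝒢, PL g ∧ Relation.ReflTransGen R g d with hReach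
    have hRG : ∀ d, Reach d → d ∈ 𝒢 := by
      rintro d ⟨g, hg, _, hgd⟩
      rcases Relation.ReflTransGen.cases_tail hgd with h | ⟨y, _, hy⟩
      · rw [h]; exact hg
      · exact hy.2.1
    have hnR : ∀ d, Reach d → ¬ PR d := by
      rintro d ⟨g, hg, hgL, hgd⟩ hdR
      apply hpath
      obtain ⟨m, f, hf0, hfm, hfs⟩ := exists_path_of_rtg hgd
      refine ⟨m, f, fun i hi => ?_, fun i hi => (hfs i hi).2.2, by rw [hf0]; exact hgL,
        by rw [hfm]; exact hdR⟩
      rcases Nat.lt_or_ge i m with h | h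
      · exact (hfs i h).1
      · have : i = m := by omega
        subst this
        rw [hfm]
        exact hRG d ⟨g, hg, hgL, hgd⟩
    have hstep : ∀ d e, Reach d → e ∈ 𝒢 → Ov T d e → Reach e := by
      rintro d e ⟨g, hg, hgL, hgd⟩ he hde
      exact ⟨g, hg, hgL, hgd.tail ⟨hRG d ⟨g, hg, hgL, hgd⟩, he, hde⟩⟩
    set U : V → Prop := fun x => ∃ d, Reach d ∧ x ∈ T d with hU
    -- `U` is closed downwards in `α`
    have hUdown : ∀ d, Reach d → ∀ s ∈ E, ∀ t ∈ E, α s < α t → t ∈ T d → U s := by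
      rintro d ⟨g, hg, hgL, hgd⟩
      induction hgd with
      | refl =>
        intro s hs t ht hlt htd
        exact ⟨g, ⟨g, hg, hgL, Relation.ReflTransGen.refl⟩, pα g hg.1 hgL s hs t ht hlt htd⟩
      | tail h1 h2 ih =>
        rename_i b c
        intro s hs t ht hlt htd
        have hb : Reach b := ⟨g, hg, hgL, h1⟩
        have hc : Reach c := ⟨g, hg, hgL, h1.tail h2⟩
        obtain ⟨⟨y, hy1, hy2⟩, _, _⟩ := h2.2.2
        rcases hT c h2.2.1.1 y hy2 with h | h | h
        · by_cases h3 : s = y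
          · exact ⟨c, hc, h3 ▸ hy2⟩
          · rcases lt_or_gt_of_ne (hα s hs y h h3) with h4 | h4
            · exact ih s hs y h h4 hy1
            · exact ⟨c, hc, cα c h2.2.1.1 y h s hs t ht h4 hlt hy2 htd⟩
        · exact ⟨c, hc, pα c h2.2.1.1 ⟨y, hy2, h⟩ s hs t ht hlt htd⟩
        · exact absurd ⟨y, hy2, h⟩ (hnR c hc)
    -- members outside
    have hout : ∀ d ∈ 𝒢, ¬ Reach d → ∀ g, Reach g → T g ⊆ T d → False := by
      rintro d hd hnd g ⟨g0, hg0, hgL, hgd⟩
      induction hgd with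
      | refl =>
        intro hsub
        obtain ⟨x, hx, hx'⟩ := hgL
        exact hnd ⟨d, hd, ⟨x, hsub hx, hx'⟩, Relation.ReflTransGen.refl⟩
      | tail h1 h2 ih =>
        rename_i b c
        intro hsub
        have hb : Reach b := ⟨g0, hg0, hgL, h1⟩
        obtain ⟨⟨y, hy1, hy2⟩, _, ⟨z, hz1, hz2⟩⟩ := h2.2.2
        have hnov : ¬ Ov T b d := fun h => hnd (hstep b d hb hd h)
        rcases sub_or_sub hnov hy1 (hsub hy2) with h | h
        · exact ih h
        · exact hz2 (h (hsub hz1))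
    have hdich : ∀ d ∈ 𝒢, ¬ Reach d → (∀ x ∈ E, x ∈ T d → U x) ∧ ¬ PR d ∨
        (∀ x ∈ E, x ∈ T d → ¬ U x) := by
      intro d hd hnd
      by_cases h : ∃ x ∈ E, x ∈ T d ∧ U x
      · left
        obtain ⟨x, hx, hxd, g, hg, hxg⟩ := h
        have hnov : ¬ Ov T g d := fun h => hnd (hstep g d hg hd h)
        rcases sub_or_sub hnov hxg hxd with h | h
        · exact absurd h (fun h' => hout d hd hnd g hg h')
        · refine ⟨fun y hy hyd => ⟨g, hg, h hyd⟩, ?_⟩
          rintro ⟨z, hz, hz'⟩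
          exact hnR g hg ⟨z, h hz, hz'⟩
      · right
        push Not at h
        exact h
    obtain ⟨K, hK, hb⟩ := exists_bound' α β
    set τ : V → ℤ := fun x => if U x then α x - K else β x + K with hτ
    have τ1 : ∀ x, U x → τ x = α x - K := fun x hx => by simp [hτ, hx]
    have τ2 : ∀ x, ¬ U x → τ x = β x + K := fun x hx => by simp [hτ, hx]
    have hlt : ∀ s t, U s → ¬ U t → τ s < τ t := by
      intro s t h1 h2
      rw [τ1 s h1, τ2 t h2]
      have := hb s
      have := hb t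
      omega
    have e1 : ∀ s t, U t → τ s < τ t → U s ∧ α s < α t := by
      intro s t h1 h2
      by_cases h3 : U s
      · rw [τ1 s h3, τ1 t h1] at h2; exact ⟨h3, by omega⟩
      · exact absurd (hlt t s h1 h3) (by omega)
    have e2 : ∀ s t, ¬ U s → τ s < τ t → ¬ U t ∧ β s < β t := by
      intro s t h1 h2
      by_cases h3 : U t
      · exact absurd (e1 s t h3 h2).1 h1
      · rw [τ2 s h1, τ2 t h3] at h2; exact ⟨h3, by omega⟩
    have hcases : ∀ d ∈ D, (∀ e ∈ E, e ∉ T d) ∨ (∀ e ∈ E, e ∈ T d) ∨ d ∈ 𝒢 := by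
      intro d hd
      by_cases h1 : ∃ e ∈ E, e ∈ T d
      · by_cases h2 : ∃ e ∈ E, e ∉ T d
        · exact Or.inr (Or.inr ⟨hd, h1, h2⟩)
        · push Not at h2; exact Or.inr (Or.inl h2)
      · push Not at h1; exact Or.inl h1
    refine ⟨τ, ?_, ?_, ?_, ?_⟩
    · intro s hs t ht hst
      by_cases h1 : U s <;> by_cases h2 : U t
      · rw [τ1 s h1, τ1 t h2]; have := hα s hs t ht hst; omega
      · exact (hlt s t h1 h2).ne
      · exact (hlt t s h2 h1).ne'
      · rw [τ2 s h1, τ2 t h2]; have := hβ s hs t ht hst; omega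
    · intro d hd s hs t ht u hu h1 h2 h3 h4
      rcases hcases d hd with h | h | h
      · exact absurd h3 (h s hs)
      · exact h t ht
      · by_cases hr : Reach d
        · have hu' : U u := ⟨d, hr, h4⟩
          obtain ⟨ht', h5⟩ := e1 t u hu' h2
          exact cα d hd s hs t ht u hu (e1 s t ht' h1).2 h5 h3 h4
        · rcases hdich d h hr with ⟨h5, _⟩ | h5
          · have hu' : U u := h5 u hu h4
            obtain ⟨ht', h6⟩ := e1 t u hu' h2
            exact cα d hd s hs t ht u hu (e1 s t ht' h1).2 h6 h3 h4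
          · have hs' : ¬ U s := h5 s hs h3
            obtain ⟨ht', h6⟩ := e2 s t hs' h1
            exact cβ d hd s hs t ht u hu h6 (e2 t u ht' h2).2 h3 h4
    · intro d hd hL s hs t ht h1 h2
      rcases hcases d hd with h | h | h
      · exact absurd h2 (h t ht)
      · exact h s hs
      · have hr : Reach d := ⟨d, h, hL, Relation.ReflTransGen.refl⟩
        exact pα d hd hL s hs t ht (e1 s t ⟨d, hr, h2⟩ h1).2 h2
    · intro d hd hRr s hs t ht h1 h2
      rcases hcases d hd with h | h | h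
      · exact absurd h2 (h s hs)
      · exact h t ht
      · have hr : ¬ Reach d := fun h' => hnR d h' hRr
        rcases hdich d h hr with ⟨_, h5⟩ | h5
        · exact absurd hRr h5
        · have hs' : ¬ U s := h5 s hs h2
          exact sβ d hd hRr s hs t ht (e2 s t hs' h1).2 h2

end Pool.Agent.Lib.MP_50b720_co
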