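import Pool.Agent.Lib.MP_50b720_co.Full.Codes

set_option autoImplicit false
set_option linter.unnecessarySeqFocus false
set_option linter.unreachableTactic false
set_option linter.unusedTactic false
set_option linter.constructorNameAsVariable false
set_option linter.unusedSimpArgs false

/-!
# The chain families of the list are chordal and minimally not circle graphs
-/

namespace Pool.Agent.Lib.MP_50b720_co

open SimpleGraph

/-- Adjacency of the chain graphs, on codes. -/
def chA (j nn lx : ℕ) : Cd → Cd → Prop
  | .u i, .u k => i ≠ k ∧ ¬ (nn = 1 ∧ ((i = 0 ∧ k = j) ∨ (i = j ∧ k = 0)))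
  | .u k, .w i => k = i ∨ k = i + 1
  | .w i, .u k => k = i ∨ k = i + 1
  | .u _, .z => True
  | .z, .u _ => True
  | .u i, .x => lx ≤ i ∧ i ≠ j
  | .x, .u i => lx ≤ i ∧ i ≠ j
  | .u i, .y => i ≠ 0
  | .y, .u i => i ≠ 0
  | .z, .x => True
  | .x, .z => True
  | .z, .y => True
  | .y, .z => True
  | _, _ => False

/-- Codes in use; `hz`, `hx`, `hy` say whether `z`, `x`, `y` are there. -/
def chT (j i0 D hz hx hy : ℕ) : Cd → Prop
  | .u i => i ≤ j ∧ (D = 0 → i ≠ i0)
  | .w i => i < j ∧ (D = 1 → i ≠ i0)
  | .z => hz = 1
  | .x => hx = 1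
  | .y => hy = 1

lemma splitG_adj_ll {K D : Type*} (N : D → K → Prop) (a b : K) :
    (splitG N).Adj (Sum.inl a) (Sum.inl b) ↔ a ≠ b := by
  simp [splitG]

lemma splitG_adj_lr {K D : Type*} (N : D → K → Prop) (a : K) (b : D) :
    (splitG N).Adj (Sum.inl a) (Sum.inr b) ↔ N b a := by
  simp [splitG]

lemma splitG_adj_rl {K D : Type*} (N : D → K → Prop) (a : D) (b : K) :
    (splitG N).Adj (Sum.inr a) (Sum.inl b) ↔ N a b := by
  simp [splitG]

lemma splitG_adj_rr {K D : Type*} (N : D → K → Prop) (a b : D) :
    ¬ (splitG N).Adj (Sum.inr a) (Sum.inr b) := by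
  simp [splitG]

/-- codes of `chainN j` -/
def gN (j : ℕ) : Fin (j + 1) ⊕ Fin j → Cd
  | .inl i => .u i.val
  | .inr i => .w i.val

/-- codes of `chainNZ j` -/
def gNZ (j : ℕ) : Option (Fin (j + 1)) ⊕ Fin j → Cd
  | .inl (some i) => .u i.val
  | .inl none => .z
  | .inr i => .w i.val

/-- codes of `chainS3 j` -/
def gS3 (j : ℕ) : Option (Fin (j + 1)) ⊕ Option (Fin j) → Cd
  | .inl (some i) => .u i.val
  | .inl none => .z
  | .inr (some i) => .w i.val
  | .inr none => .x

/-- codes of `chainS4 j` -/
def gS4 (j : ℕ) : Fin (j + 1) ⊕ Option (Fin j) → Cd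
  | .inl i => .u i.val
  | .inr (some i) => .w i.val
  | .inr none => .x

/-- codes of `chainS5 j` -/
def gS5 (j : ℕ) : Fin (j + 1) ⊕ (Fin j ⊕ Bool) → Cd
  | .inl i => .u i.val
  | .inr (.inl i) => .w i.val
  | .inr (.inr false) => .x
  | .inr (.inr true) => .y

/-- codes of `chainS6 j` -/
def gS6 (j : ℕ) : Option (Fin (j + 1)) ⊕ (Fin j ⊕ Bool) → Cd
  | .inl (some i) => .u i.val
  | .inl none => .z
  | .inr (.inl i) => .w i.val
  | .inr (.inr false) => .x
  | .inr (.inr true) => .y

lemma gN_inj (j : ℕ) : Function.Injective (gN j) := by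
  rintro (a | a) (b | b) h <;> simp_all [gN, Fin.ext_iff]

lemma gNZ_inj (j : ℕ) : Function.Injective (gNZ j) := by
  rintro ((_ | a) | a) ((_ | b) | b) h <;> simp_all [gNZ, Fin.ext_iff]

lemma gS3_inj (j : ℕ) : Function.Injective (gS3 j) := by
  rintro ((_ | a) | (_ | a)) ((_ | b) | (_ | b)) h <;> simp_all [gS3, Fin.ext_iff]

lemma gS4_inj (j : ℕ) : Function.Injective (gS4 j) := by
  rintro (a | (_ | a)) (b | (_ | b)) h <;> simp_all [gS4, Fin.ext_iff]

lemma gS5_inj (j : ℕ) : Function.Injective (gS5 j) := by
  rintro (a | (a | (_ | _))) (b | (b | (_ | _))) h <;> simp_all [gS5, Fin.ext_iff]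

lemma gS6_inj (j : ℕ) : Function.Injective (gS6 j) := by
  rintro ((_ | a) | (a | (_ | _))) ((_ | b) | (b | (_ | _))) h <;> simp_all [gS6, Fin.ext_iff]

lemma chainN_adj (j : ℕ) (a b : Fin (j + 1) ⊕ Fin j) :
    (chainN j).Adj a b ↔ chA j 1 0 (gN j a) (gN j b) := by
  rcases a with a | a <;> rcases b with b | b <;>
    simp [chainN, gN, chA, -Fin.val_fin_lt, -Fin.val_eq_zero_iff] <;> (try simp only [Fin.ext_iff,
      Fin.lt_def]) <;> omega

lemma chainNZ_adj (j : ℕ) (a b : Option (Fin (j + 1)) ⊕ Fin j) :
    (chainNZ j).Adj a b ↔ chA j 1 0 (gNZ j a) (gNZ j b) := by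
  rcases a with (_ | a) | a <;> rcases b with (_ | b) | b <;>
    simp [chainNZ, gNZ, chA, -Fin.val_fin_lt, -Fin.val_eq_zero_iff] <;> (try simp only
      [Fin.ext_iff, Fin.lt_def]) <;> omega

lemma chainS3_adj (j : ℕ) (a b : Option (Fin (j + 1)) ⊕ Option (Fin j)) :
    (chainS3 j).Adj a b ↔ chA j 0 1 (gS3 j a) (gS3 j b) := by
  rcases a with (_ | a) | (_ | a) <;> rcases b with (_ | b) | (_ | b) <;>
    simp [chainS3, gS3, chA, Fin.ext_iff, splitG_adj_ll, splitG_adj_lr, splitG_adj_rl,
      splitG_adj_rr, -Fin.val_eq_zero_iff] <;> omega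

lemma chainS4_adj (j : ℕ) (a b : Fin (j + 1) ⊕ Option (Fin j)) :
    (chainS4 j).Adj a b ↔ chA j 0 1 (gS4 j a) (gS4 j b) := by
  rcases a with a | (_ | a) <;> rcases b with b | (_ | b) <;>
    simp [chainS4, gS4, chA, Fin.ext_iff, splitG_adj_ll, splitG_adj_lr, splitG_adj_rl,
      splitG_adj_rr, -Fin.val_eq_zero_iff] <;> omega

lemma chainS5_adj (j : ℕ) (a b : Fin (j + 1) ⊕ (Fin j ⊕ Bool)) :
    (chainS5 j).Adj a b ↔ chA j 0 0 (gS5 j a) (gS5 j b) := by
  rcases a with a | (a | (_ | _)) <;> rcases b with b | (b | (_ | _)) <;>
    simp [chainS5, gS5, chA, Fin.ext_iff, splitG_adj_ll, splitG_adj_lr, splitG_adj_rl,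
      splitG_adj_rr, -Fin.val_eq_zero_iff] <;> omega

lemma chainS6_adj (j : ℕ) (a b : Option (Fin (j + 1)) ⊕ (Fin j ⊕ Bool)) :
    (chainS6 j).Adj a b ↔ chA j 0 0 (gS6 j a) (gS6 j b) := by
  rcases a with (_ | a) | (a | (_ | _)) <;> rcases b with (_ | b) | (b | (_ | _)) <;>
    simp [chainS6, gS6, chA, Fin.ext_iff, splitG_adj_ll, splitG_adj_lr, splitG_adj_rl,
      splitG_adj_rr, -Fin.val_eq_zero_iff] <;> omega


/-- First ends. -/
def chP (j i0 c nn : ℕ) (zp xl yl : ℤ) : Cd → ℤ
  | .u i => if nn = 1 ∧ i = j then 8 * (j : ℤ) + 19 else 8 * (i : ℤ)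
  | .w i => (if (i % 2 = 0 ↔ i < c) then (0 : ℤ) else 8 * (j : ℤ) + 16) +
      if i = i0 then 8 * (i : ℤ) + 6 else 8 * (i : ℤ) - 1
  | .z => zp
  | .x => xl
  | .y => yl

/-- Second ends. -/
def chQ (j i0 c : ℕ) (zp xr yr : ℤ) : Cd → ℤ
  | .u i => 8 * (j : ℤ) + 16 + 8 * (i : ℤ)
  | .w i => (if (i % 2 = 0 ↔ i < c) then (0 : ℤ) else 8 * (j : ℤ) + 16) +
      if i0 = j ∧ i + 1 = j then 8 * (i : ℤ) + 1 else 8 * (i : ℤ) + 9
  | .z => 8 * (j : ℤ) + 16 + zp
  | .x => xr
  | .y => yr

/-- A chord diagram for the codes in use. -/
def ChPos (j nn lx i0 D hz hx hy : ℕ) (P Q : Cd → ℤ) : Prop :=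
  (∀ c, chT j i0 D hz hx hy c → P c < Q c) ∧
    ∀ c d, chT j i0 D hz hx hy c → chT j i0 D hz hx hy d → c.before d →
      GoodP (chA j nn lx c d) (P c) (Q c) (P d) (Q d)

lemma posN (j : ℕ) (hj : 5 ≤ j) (he : j % 2 = 1) (i0 : ℕ) (hi0 : i0 ≤ j) (D : ℕ)
    (hD : D = 1 → i0 < j) (hD' : D ≤ 1) :
    ChPos j 1 0 i0 D 0 0 0 (chP j i0 i0 1 0 0 0) (chQ j i0 i0 0 0 0) := by
  refine ⟨?_, ?_⟩
  · intro c hc
    cases c <;> simp only [chT, chP, chQ, true_and] at * <;>
      first
      | omega
      | (split_ifs <;> omega)
  · intro c d hc hd hcd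
    cases c <;> cases d <;>
      simp only [Cd.before, chT, chA, chP, chQ, GoodP, true_iff, false_iff, true_and] at * <;>
      first
      | omega
      | (split_ifs <;> omega)

lemma posNZ (j : ℕ) (hj : 4 ≤ j) (he : j % 2 = 0) (i0 : ℕ) (hi0 : i0 ≤ j) (D : ℕ)
    (hD : D = 1 → i0 < j) (hD' : D ≤ 1) :
    ChPos j 1 0 i0 D 1 0 0 (chP j i0 j 1 (8 * (i0 : ℤ) + 4) 0 0)
      (chQ j i0 j (8 * (i0 : ℤ) + 4) 0 0) := by
  refine ⟨?_, ?_⟩
  · intro c hc
    cases c <;> simp only [chT, chP, chQ, true_and] at * <;>
      first
      | omega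
      | (split_ifs <;> omega)
  · intro c d hc hd hcd
    cases c <;> cases d <;>
      simp only [Cd.before, chT, chA, chP, chQ, GoodP, true_iff, false_iff, true_and] at * <;>
      first
      | omega
      | (split_ifs <;> omega)

lemma posNZz (j : ℕ) (hj : 4 ≤ j) (he : j % 2 = 0) :
    ChPos j 1 0 (j + 1) 0 0 0 0 (chP j (j + 1) j 1 0 0 0) (chQ j (j + 1) j 0 0 0) := by
  refine ⟨?_, ?_⟩
  · intro c hc
    cases c <;> simp only [chT, chP, chQ, true_and] at * <;>
      first
      | omega
      | (split_ifs <;> omega)
  · intro c d hc hd hcd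
    cases c <;> cases d <;>
      simp only [Cd.before, chT, chA, chP, chQ, GoodP, true_iff, false_iff, true_and] at * <;>
      first
      | omega
      | (split_ifs <;> omega)

lemma posS3 (j : ℕ) (hj : 3 ≤ j) (he : j % 2 = 1) (i0 : ℕ) (hi0 : i0 ≤ j) (D : ℕ)
    (hD : D = 1 → i0 < j) (hD' : D ≤ 1) :
    ChPos j 0 1 i0 D 1 1 0 (chP j i0 j 0 (8 * (i0 : ℤ) + 4) (8 * (j : ℤ) + 18) 0)
      (chQ j i0 j (8 * (i0 : ℤ) + 4)
        (8 * (j : ℤ) + 16 + if i0 = j then 8 * (j : ℤ) + 6 else 8 * (j : ℤ) - 2) 0) := by
  refine ⟨?_, ?_⟩
  · intro c hc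
    cases c <;> simp only [chT, chP, chQ, true_and] at * <;>
      first
      | omega
      | (split_ifs <;> omega)
  · intro c d hc hd hcd
    cases c <;> cases d <;>
      simp only [Cd.before, chT, chA, chP, chQ, GoodP, true_iff, false_iff, true_and] at * <;>
      first
      | omega
      | (split_ifs <;> omega)

lemma posS3z (j : ℕ) (hj : 3 ≤ j) (he : j % 2 = 1) :
    ChPos j 0 1 (j + 1) 0 0 1 0 (chP j (j + 1) j 0 0 (8 * (j : ℤ) + 18) 0)
      (chQ j (j + 1) j 0 (16 * (j : ℤ) + 14) 0) := by
  refine ⟨?_, ?_⟩
  · intro c hc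
    cases c <;> simp only [chT, chP, chQ, true_and] at * <;>
      first
      | omega
      | (split_ifs <;> omega)
  · intro c d hc hd hcd
    cases c <;> cases d <;>
      simp only [Cd.before, chT, chA, chP, chQ, GoodP, true_iff, false_iff, true_and] at * <;>
      first
      | omega
      | (split_ifs <;> omega)

lemma posS3x (j : ℕ) (hj : 3 ≤ j) (he : j % 2 = 1) :
    ChPos j 0 1 (j + 1) 0 1 0 0 (chP j (j + 1) j 0 (8 * (j : ℤ) + 12) 0 0)
      (chQ j (j + 1) j (8 * (j : ℤ) + 12) 0 0) := by
  refine ⟨?_, ?_⟩
  · intro c hc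
    cases c <;> simp only [chT, chP, chQ, true_and] at * <;>
      first
      | omega
      | (split_ifs <;> omega)
  · intro c d hc hd hcd
    cases c <;> cases d <;>
      simp only [Cd.before, chT, chA, chP, chQ, GoodP, true_iff, false_iff, true_and] at * <;>
      first
      | omega
      | (split_ifs <;> omega)

lemma posS4 (j : ℕ) (hj : 4 ≤ j) (he : j % 2 = 0) (i0 : ℕ) (hi0 : i0 ≤ j) (D : ℕ)
    (hD : D = 1 → i0 < j) (hD' : D ≤ 1) :
    ChPos j 0 1 i0 D 0 1 0 (chP j i0 i0 0 0 (8 * (j : ℤ) + 18) 0)
      (chQ j i0 i0 0 (16 * (j : ℤ) + 14) 0) := by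
  refine ⟨?_, ?_⟩
  · intro c hc
    cases c <;> simp only [chT, chP, chQ, true_and] at * <;>
      first
      | omega
      | (split_ifs <;> omega)
  · intro c d hc hd hcd
    cases c <;> cases d <;>
      simp only [Cd.before, chT, chA, chP, chQ, GoodP, true_iff, false_iff, true_and] at * <;>
      first
      | omega
      | (split_ifs <;> omega)

lemma posS4x (j : ℕ) (hj : 4 ≤ j) (he : j % 2 = 0) :
    ChPos j 0 1 (j + 1) 0 0 0 0 (chP j (j + 1) (j + 1) 0 0 0 0)
      (chQ j (j + 1) (j + 1) 0 0 0) := by
  refine ⟨?_, ?_⟩
  · intro c hc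
    cases c <;> simp only [chT, chP, chQ, true_and] at * <;>
      first
      | omega
      | (split_ifs <;> omega)
  · intro c d hc hd hcd
    cases c <;> cases d <;>
      simp only [Cd.before, chT, chA, chP, chQ, GoodP, true_iff, false_iff, true_and] at * <;>
      first
      | omega
      | (split_ifs <;> omega)

lemma posS5 (j : ℕ) (hj : 3 ≤ j) (he : j % 2 = 1) (i0 : ℕ) (hi0 : i0 ≤ j) (D : ℕ)
    (hD : D = 1 → i0 < j) (hD' : D ≤ 1) :
    ChPos j 0 0 i0 D 0 1 1 (chP j i0 i0 0 0 (-2) (8 * (j : ℤ) + 18))
      (chQ j i0 i0 0 (8 * (j : ℤ) - 2) (16 * (j : ℤ) + 18)) := by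
  refine ⟨?_, ?_⟩
  · intro c hc
    cases c <;> simp only [chT, chP, chQ, true_and] at * <;>
      first
      | omega
      | (split_ifs <;> omega)
  · intro c d hc hd hcd
    cases c <;> cases d <;>
      simp only [Cd.before, chT, chA, chP, chQ, GoodP, true_iff, false_iff, true_and] at * <;>
      first
      | omega
      | (split_ifs <;> omega)

lemma posS5x (j : ℕ) (hj : 3 ≤ j) (he : j % 2 = 1) :
    ChPos j 0 0 (j + 1) 0 0 0 1 (chP j (j + 1) (j + 1) 0 0 0 (8 * (j : ℤ) + 18))
      (chQ j (j + 1) (j + 1) 0 0 (16 * (j : ℤ) + 18)) := by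
  refine ⟨?_, ?_⟩
  · intro c hc
    cases c <;> simp only [chT, chP, chQ, true_and] at * <;>
      first
      | omega
      | (split_ifs <;> omega)
  · intro c d hc hd hcd
    cases c <;> cases d <;>
      simp only [Cd.before, chT, chA, chP, chQ, GoodP, true_iff, false_iff, true_and] at * <;>
      first
      | omega
      | (split_ifs <;> omega)

lemma posS5y (j : ℕ) (hj : 3 ≤ j) (he : j % 2 = 1) :
    ChPos j 0 0 (j + 1) 0 0 1 0 (chP j (j + 1) (j + 1) 0 0 (8 * (j : ℤ) + 14) 0)
      (chQ j (j + 1) (j + 1) 0 (16 * (j : ℤ) + 14) 0) := by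
  refine ⟨?_, ?_⟩
  · intro c hc
    cases c <;> simp only [chT, chP, chQ, true_and] at * <;>
      first
      | omega
      | (split_ifs <;> omega)
  · intro c d hc hd hcd
    cases c <;> cases d <;>
      simp only [Cd.before, chT, chA, chP, chQ, GoodP, true_iff, false_iff, true_and] at * <;>
      first
      | omega
      | (split_ifs <;> omega)

lemma posS6 (j : ℕ) (hj : 2 ≤ j) (he : j % 2 = 0) (i0 : ℕ) (hi0 : i0 ≤ j) (D : ℕ)
    (hD : D = 1 → i0 < j) (hD' : D ≤ 1) :
    ChPos j 0 0 i0 D 1 1 1 (chP j i0 j 0 (8 * (i0 : ℤ) + 4) (-2) (8 * (j : ℤ) + 18))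
      (chQ j i0 j (8 * (i0 : ℤ) + 4) (if i0 = j then 8 * (j : ℤ) + 6 else 8 * (j : ℤ) - 2)
        (16 * (j : ℤ) + 30)) := by
  refine ⟨?_, ?_⟩
  · intro c hc
    cases c <;> simp only [chT, chP, chQ, true_and] at * <;>
      first
      | omega
      | (split_ifs <;> omega)
  · intro c d hc hd hcd
    cases c <;> cases d <;>
      simp only [Cd.before, chT, chA, chP, chQ, GoodP, true_iff, false_iff, true_and] at * <;>
      first
      | omega
      | (split_ifs <;> omega)

lemma posS6z (j : ℕ) (hj : 2 ≤ j) (he : j % 2 = 0) :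
    ChPos j 0 0 (j + 1) 0 0 1 1 (chP j (j + 1) j 0 0 (-2) (8 * (j : ℤ) + 18))
      (chQ j (j + 1) j 0 (8 * (j : ℤ) - 2) (16 * (j : ℤ) + 30)) := by
  refine ⟨?_, ?_⟩
  · intro c hc
    cases c <;> simp only [chT, chP, chQ, true_and] at * <;>
      first
      | omega
      | (split_ifs <;> omega)
  · intro c d hc hd hcd
    cases c <;> cases d <;>
      simp only [Cd.before, chT, chA, chP, chQ, GoodP, true_iff, false_iff, true_and] at * <;>
      first
      | omega
      | (split_ifs <;> omega)

lemma posS6x (j : ℕ) (hj : 2 ≤ j) (he : j % 2 = 0) :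
    ChPos j 0 0 (j + 1) 0 1 0 1
      (chP j (j + 1) j 0 (8 * (j : ℤ) + 12) 0 (8 * (j : ℤ) + 18))
      (chQ j (j + 1) j (8 * (j : ℤ) + 12) 0 (16 * (j : ℤ) + 30)) := by
  refine ⟨?_, ?_⟩
  · intro c hc
    cases c <;> simp only [chT, chP, chQ, true_and] at * <;>
      first
      | omega
      | (split_ifs <;> omega)
  · intro c d hc hd hcd
    cases c <;> cases d <;>
      simp only [Cd.before, chT, chA, chP, chQ, GoodP, true_iff, false_iff, true_and] at * <;>
      first
      | omega
      | (split_ifs <;> omega)

lemma posS6y (j : ℕ) (hj : 2 ≤ j) (he : j % 2 = 0) :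
    ChPos j 0 0 (j + 1) 0 1 1 0 (chP j (j + 1) j 0 (-4) (-6) 0)
      (chQ j (j + 1) j (-4) (8 * (j : ℤ) - 2) 0) := by
  refine ⟨?_, ?_⟩
  · intro c hc
    cases c <;> simp only [chT, chP, chQ, true_and] at * <;>
      first
      | omega
      | (split_ifs <;> omega)
  · intro c d hc hd hcd
    cases c <;> cases d <;>
      simp only [Cd.before, chT, chA, chP, chQ, GoodP, true_iff, false_iff, true_and] at * <;>
      first
      | omega
      | (split_ifs <;> omega)


lemma circ_of_chPos {V : Type*} {G : SimpleGraph V} {j nn lx i0 D hz hx hy : ℕ} {P Q : Cd → ℤ}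
    (h : ChPos j nn lx i0 D hz hx hy P Q) (g : V → Cd) (hg : Function.Injective g)
    (hA : ∀ a b, G.Adj a b ↔ chA j nn lx (g a) (g b)) (S : Set V)
    (hT : ∀ a ∈ S, chT j i0 D hz hx hy (g a)) : Circ G S :=
  circ_of_code g hg (chA j nn lx) hA P Q (chT j i0 D hz hx hy) hT h.1 h.2

lemma exists_ne_of_ne_univ {V : Type*} {S : Set V} (hS : S ≠ Set.univ) : ∃ v, ∀ a ∈ S, a ≠ v := by
  obtain ⟨v, hv⟩ := (Set.ne_univ_iff_exists_notMem S).mp hS
  exact ⟨v, fun a ha h => hv (h ▸ ha)⟩

theorem chainN_circ {j : ℕ} (hj : 5 ≤ j) (hp : Odd j) (S : Set (Fin (j + 1) ⊕ Fin j))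
    (hS : S ≠ Set.univ) : Circ (chainN j) S := by
  have hp' := Nat.odd_iff.mp hp
  obtain ⟨v, hv⟩ := exists_ne_of_ne_univ hS
  rcases v with i | i
  · refine circ_of_chPos (posN j hj hp' i.val (by omega) 0 (by omega) (by omega)) (gN j)
      (gN_inj j) (chainN_adj j) S ?_
    intro a ha
    have := hv a ha
    rcases a with a | a <;> simp [gN, chT, Fin.ext_iff] at * <;> omega
  · refine circ_of_chPos (posN j hj hp' i.val (by omega) 1 (by omega) (by omega)) (gN j)
      (gN_inj j) (chainN_adj j) S ?_
    intro a ha
    have := hv a ha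
    rcases a with a | a <;> simp [gN, chT, Fin.ext_iff] at * <;> omega

theorem chainNZ_circ {j : ℕ} (hj : 4 ≤ j) (hp : Even j)
    (S : Set (Option (Fin (j + 1)) ⊕ Fin j)) (hS : S ≠ Set.univ) : Circ (chainNZ j) S := by
  have hp' := Nat.even_iff.mp hp
  obtain ⟨v, hv⟩ := exists_ne_of_ne_univ hS
  rcases v with (_ | i) | i
  · refine circ_of_chPos (posNZz j hj hp') (gNZ j) (gNZ_inj j) (chainNZ_adj j) S ?_
    intro a ha
    have := hv a ha
    rcases a with (_ | a) | a <;> simp [gNZ, chT, Fin.ext_iff] at * <;> omega
  · refine circ_of_chPos (posNZ j hj hp' i.val (by omega) 0 (by omega) (by omega)) (gNZ j)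
      (gNZ_inj j) (chainNZ_adj j) S ?_
    intro a ha
    have := hv a ha
    rcases a with (_ | a) | a <;> simp [gNZ, chT, Fin.ext_iff] at * <;> omega
  · refine circ_of_chPos (posNZ j hj hp' i.val (by omega) 1 (by omega) (by omega)) (gNZ j)
      (gNZ_inj j) (chainNZ_adj j) S ?_
    intro a ha
    have := hv a ha
    rcases a with (_ | a) | a <;> simp [gNZ, chT, Fin.ext_iff] at * <;> omega

theorem chainS3_circ {j : ℕ} (hj : 3 ≤ j) (hp : Odd j)
    (S : Set (Option (Fin (j + 1)) ⊕ Option (Fin j))) (hS : S ≠ Set.univ) :
    Circ (chainS3 j) S := by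
  have hp' := Nat.odd_iff.mp hp
  obtain ⟨v, hv⟩ := exists_ne_of_ne_univ hS
  rcases v with (_ | i) | (_ | i)
  · refine circ_of_chPos (posS3z j hj hp') (gS3 j) (gS3_inj j) (chainS3_adj j) S ?_
    intro a ha
    have := hv a ha
    rcases a with (_ | a) | (_ | a) <;> simp [gS3, chT, Fin.ext_iff] at * <;> omega
  · refine circ_of_chPos (posS3 j hj hp' i.val (by omega) 0 (by omega) (by omega)) (gS3 j)
      (gS3_inj j) (chainS3_adj j) S ?_
    intro a ha
    have := hv a ha
    rcases a with (_ | a) | (_ | a) <;> simp [gS3, chT, Fin.ext_iff] at * <;> omega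
  · refine circ_of_chPos (posS3x j hj hp') (gS3 j) (gS3_inj j) (chainS3_adj j) S ?_
    intro a ha
    have := hv a ha
    rcases a with (_ | a) | (_ | a) <;> simp [gS3, chT, Fin.ext_iff] at * <;> omega
  · refine circ_of_chPos (posS3 j hj hp' i.val (by omega) 1 (by omega) (by omega)) (gS3 j)
      (gS3_inj j) (chainS3_adj j) S ?_
    intro a ha
    have := hv a ha
    rcases a with (_ | a) | (_ | a) <;> simp [gS3, chT, Fin.ext_iff] at * <;> omega

theorem chainS4_circ {j : ℕ} (hj : 4 ≤ j) (hp : Even j)
    (S : Set (Fin (j + 1) ⊕ Option (Fin j))) (hS : S ≠ Set.univ) : Circ (chainS4 j) S := by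
  have hp' := Nat.even_iff.mp hp
  obtain ⟨v, hv⟩ := exists_ne_of_ne_univ hS
  rcases v with i | (_ | i)
  · refine circ_of_chPos (posS4 j hj hp' i.val (by omega) 0 (by omega) (by omega)) (gS4 j)
      (gS4_inj j) (chainS4_adj j) S ?_
    intro a ha
    have := hv a ha
    rcases a with a | (_ | a) <;> simp [gS4, chT, Fin.ext_iff] at * <;> omega
  · refine circ_of_chPos (posS4x j hj hp') (gS4 j) (gS4_inj j) (chainS4_adj j) S ?_
    intro a ha
    have := hv a ha
    rcases a with a | (_ | a) <;> simp [gS4, chT, Fin.ext_iff] at * <;> omega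
  · refine circ_of_chPos (posS4 j hj hp' i.val (by omega) 1 (by omega) (by omega)) (gS4 j)
      (gS4_inj j) (chainS4_adj j) S ?_
    intro a ha
    have := hv a ha
    rcases a with a | (_ | a) <;> simp [gS4, chT, Fin.ext_iff] at * <;> omega

theorem chainS5_circ {j : ℕ} (hj : 3 ≤ j) (hp : Odd j)
    (S : Set (Fin (j + 1) ⊕ (Fin j ⊕ Bool))) (hS : S ≠ Set.univ) : Circ (chainS5 j) S := by
  have hp' := Nat.odd_iff.mp hp
  obtain ⟨v, hv⟩ := exists_ne_of_ne_univ hS
  rcases v with i | (i | (_ | _))
  · refine circ_of_chPos (posS5 j hj hp' i.val (by omega) 0 (by omega) (by omega)) (gS5 j)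
      (gS5_inj j) (chainS5_adj j) S ?_
    intro a ha
    have := hv a ha
    rcases a with a | (a | (_ | _)) <;> simp [gS5, chT, Fin.ext_iff] at * <;> omega
  · refine circ_of_chPos (posS5 j hj hp' i.val (by omega) 1 (by omega) (by omega)) (gS5 j)
      (gS5_inj j) (chainS5_adj j) S ?_
    intro a ha
    have := hv a ha
    rcases a with a | (a | (_ | _)) <;> simp [gS5, chT, Fin.ext_iff] at * <;> omega
  · refine circ_of_chPos (posS5x j hj hp') (gS5 j) (gS5_inj j) (chainS5_adj j) S ?_
    intro a ha
    have := hv a ha
    rcases a with a | (a | (_ | _)) <;> simp [gS5, chT, Fin.ext_iff] at * <;> omega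
  · refine circ_of_chPos (posS5y j hj hp') (gS5 j) (gS5_inj j) (chainS5_adj j) S ?_
    intro a ha
    have := hv a ha
    rcases a with a | (a | (_ | _)) <;> simp [gS5, chT, Fin.ext_iff] at * <;> omega

theorem chainS6_circ {j : ℕ} (hj : 2 ≤ j) (hp : Even j)
    (S : Set (Option (Fin (j + 1)) ⊕ (Fin j ⊕ Bool))) (hS : S ≠ Set.univ) :
    Circ (chainS6 j) S := by
  have hp' := Nat.even_iff.mp hp
  obtain ⟨v, hv⟩ := exists_ne_of_ne_univ hS
  rcases v with (_ | i) | (i | (_ | _))
  · refine circ_of_chPos (posS6z j hj hp') (gS6 j) (gS6_inj j) (chainS6_adj j) S ?_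
    intro a ha
    have := hv a ha
    rcases a with (_ | a) | (a | (_ | _)) <;> simp [gS6, chT, Fin.ext_iff] at * <;> omega
  · refine circ_of_chPos (posS6 j hj hp' i.val (by omega) 0 (by omega) (by omega)) (gS6 j)
      (gS6_inj j) (chainS6_adj j) S ?_
    intro a ha
    have := hv a ha
    rcases a with (_ | a) | (a | (_ | _)) <;> simp [gS6, chT, Fin.ext_iff] at * <;> omega
  · refine circ_of_chPos (posS6 j hj hp' i.val (by omega) 1 (by omega) (by omega)) (gS6 j)
      (gS6_inj j) (chainS6_adj j) S ?_
    intro a ha
    have := hv a ha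
    rcases a with (_ | a) | (a | (_ | _)) <;> simp [gS6, chT, Fin.ext_iff] at * <;> omega
  · refine circ_of_chPos (posS6x j hj hp') (gS6 j) (gS6_inj j) (chainS6_adj j) S ?_
    intro a ha
    have := hv a ha
    rcases a with (_ | a) | (a | (_ | _)) <;> simp [gS6, chT, Fin.ext_iff] at * <;> omega
  · refine circ_of_chPos (posS6y j hj hp') (gS6 j) (gS6_inj j) (chainS6_adj j) S ?_
    intro a ha
    have := hv a ha
    rcases a with (_ | a) | (a | (_ | _)) <;> simp [gS6, chT, Fin.ext_iff] at * <;> omega

/-- Rank for chordality. -/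
def chR (j nn : ℕ) : Cd → ℕ
  | .u i => if nn = 1 ∧ (i = 0 ∨ i = j) then 1 else 2
  | .z => 2
  | _ => 0

lemma ch_chord (j nn lx hz hx hy : ℕ) (hj : 2 ≤ j) (hn : nn = 1 → hx = 0 ∧ hy = 0) :
    ∀ a b c, chT j (j + 1) 0 hz hx hy a → chT j (j + 1) 0 hz hx hy b →
    chT j (j + 1) 0 hz hx hy c → chA j nn lx a b → chA j nn lx a c → b ≠ c →
    chR j nn a ≤ chR j nn b → chR j nn a ≤ chR j nn c → chA j nn lx b c := by
  intro a b c ha hb hc hab hac hbc h1 h2
  cases a <;> cases b <;> cases c <;>
    simp only [chT, chA, chR, ne_eq, Cd.u.injEq, Cd.w.injEq, not_true_eq_false, reduceCtorEq,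
      not_false_eq_true] at * <;>
    first
    | omega
    | (split_ifs at * <;> omega)

lemma gN_T (j : ℕ) (a : Fin (j + 1) ⊕ Fin j) : chT j (j + 1) 0 0 0 0 (gN j a) := by
  rcases a with a | a <;> simp [gN, chT] <;> omega

lemma gNZ_T (j : ℕ) (a : Option (Fin (j + 1)) ⊕ Fin j) :
    chT j (j + 1) 0 1 0 0 (gNZ j a) := by
  rcases a with (_ | a) | a <;> simp [gNZ, chT] <;> omega

lemma gS3_T (j : ℕ) (a : Option (Fin (j + 1)) ⊕ Option (Fin j)) :
    chT j (j + 1) 0 1 1 0 (gS3 j a) := by
  rcases a with (_ | a) | (_ | a) <;> simp [gS3, chT] <;> omega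

lemma gS4_T (j : ℕ) (a : Fin (j + 1) ⊕ Option (Fin j)) :
    chT j (j + 1) 0 0 1 0 (gS4 j a) := by
  rcases a with a | (_ | a) <;> simp [gS4, chT] <;> omega

lemma gS5_T (j : ℕ) (a : Fin (j + 1) ⊕ (Fin j ⊕ Bool)) :
    chT j (j + 1) 0 0 1 1 (gS5 j a) := by
  rcases a with a | (a | (_ | _)) <;> simp [gS5, chT] <;> omega

lemma gS6_T (j : ℕ) (a : Option (Fin (j + 1)) ⊕ (Fin j ⊕ Bool)) :
    chT j (j + 1) 0 1 1 1 (gS6 j a) := by
  rcases a with (_ | a) | (a | (_ | _)) <;> simp [gS6, chT] <;> omega

theorem chainN_chordal {j : ℕ} (hj : 5 ≤ j) : IsChordal (chainN j) :=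
  chordal_of_code (gN j) (gN_inj j) (chainN_adj j) (gN_T j) (chR j 1)
    (ch_chord j 1 0 0 0 0 (by omega) (by omega))

theorem chainNZ_chordal {j : ℕ} (hj : 4 ≤ j) : IsChordal (chainNZ j) :=
  chordal_of_code (gNZ j) (gNZ_inj j) (chainNZ_adj j) (gNZ_T j) (chR j 1)
    (ch_chord j 1 0 1 0 0 (by omega) (by omega))

theorem chainS3_chordal {j : ℕ} (hj : 3 ≤ j) : IsChordal (chainS3 j) :=
  chordal_of_code (gS3 j) (gS3_inj j) (chainS3_adj j) (gS3_T j) (chR j 0)
    (ch_chord j 0 1 1 1 0 (by omega) (by omega))

theorem chainS4_chordal {j : ℕ} (hj : 4 ≤ j) : IsChordal (chainS4 j) :=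
  chordal_of_code (gS4 j) (gS4_inj j) (chainS4_adj j) (gS4_T j) (chR j 0)
    (ch_chord j 0 1 0 1 0 (by omega) (by omega))

theorem chainS5_chordal {j : ℕ} (hj : 3 ≤ j) : IsChordal (chainS5 j) :=
  chordal_of_code (gS5 j) (gS5_inj j) (chainS5_adj j) (gS5_T j) (chR j 0)
    (ch_chord j 0 0 0 1 1 (by omega) (by omega))

theorem chainS6_chordal {j : ℕ} (hj : 2 ≤ j) : IsChordal (chainS6 j) :=
  chordal_of_code (gS6 j) (gS6_inj j) (chainS6_adj j) (gS6_T j) (chR j 0)
    (ch_chord j 0 0 1 1 1 (by omega) (by omega))

lemma gN_surj (j : ℕ) (c : Cd) (h : chT j (j + 1) 0 0 0 0 c) : ∃ v, gN j v = c := by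
  cases c with
  | u i => exact ⟨.inl ⟨i, by simp [chT] at h; omega⟩, rfl⟩
  | w i => exact ⟨.inr ⟨i, by simp [chT] at h; omega⟩, rfl⟩
  | z => simp [chT] at h
  | x => simp [chT] at h
  | y => simp [chT] at h

lemma gNZ_surj (j : ℕ) (c : Cd) (h : chT j (j + 1) 0 1 0 0 c) : ∃ v, gNZ j v = c := by
  cases c with
  | u i => exact ⟨.inl (some ⟨i, by simp [chT] at h; omega⟩), rfl⟩
  | w i => exact ⟨.inr ⟨i, by simp [chT] at h; omega⟩, rfl⟩
  | z => exact ⟨.inl none, rfl⟩
  | x => simp [chT] at h
  | y => simp [chT] at h

lemma gS3_surj (j : ℕ) (c : Cd) (h : chT j (j + 1) 0 1 1 0 c) : ∃ v, gS3 j v = c := by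
  cases c with
  | u i => exact ⟨.inl (some ⟨i, by simp [chT] at h; omega⟩), rfl⟩
  | w i => exact ⟨.inr (some ⟨i, by simp [chT] at h; omega⟩), rfl⟩
  | z => exact ⟨.inl none, rfl⟩
  | x => exact ⟨.inr none, rfl⟩
  | y => simp [chT] at h

lemma gS4_surj (j : ℕ) (c : Cd) (h : chT j (j + 1) 0 0 1 0 c) : ∃ v, gS4 j v = c := by
  cases c with
  | u i => exact ⟨.inl ⟨i, by simp [chT] at h; omega⟩, rfl⟩
  | w i => exact ⟨.inr (some ⟨i, by simp [chT] at h; omega⟩), rfl⟩
  | z => simp [chT] at h
  | x => exact ⟨.inr none, rfl⟩
  | y => simp [chT] at h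

lemma gS5_surj (j : ℕ) (c : Cd) (h : chT j (j + 1) 0 0 1 1 c) : ∃ v, gS5 j v = c := by
  cases c with
  | u i => exact ⟨.inl ⟨i, by simp [chT] at h; omega⟩, rfl⟩
  | w i => exact ⟨.inr (.inl ⟨i, by simp [chT] at h; omega⟩), rfl⟩
  | z => simp [chT] at h
  | x => exact ⟨.inr (.inr false), rfl⟩
  | y => exact ⟨.inr (.inr true), rfl⟩

lemma gS6_surj (j : ℕ) (c : Cd) (h : chT j (j + 1) 0 1 1 1 c) : ∃ v, gS6 j v = c := by
  cases c with
  | u i => exact ⟨.inl (some ⟨i, by simp [chT] at h; omega⟩), rfl⟩
  | w i => exact ⟨.inr (.inl ⟨i, by simp [chT] at h; omega⟩), rfl⟩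
  | z => exact ⟨.inl none, rfl⟩
  | x => exact ⟨.inr (.inr false), rfl⟩
  | y => exact ⟨.inr (.inr true), rfl⟩

/-- `chainN j` has no chord diagram. -/
theorem chainN_not_circ {j : ℕ} (hj : 5 ≤ j) (hp : Odd j) : ¬ Circ (chainN j) Set.univ := by
  intro hC
  have hp' : j % 2 = 1 := by have := Nat.odd_iff.mp hp; exact this
  obtain ⟨n, rfl⟩ : ∃ n, j = n + 2 := ⟨j - 2, by omega⟩
  have : Nonempty (Fin (n + 2 + 1) ⊕ Fin (n + 2)) := ⟨(Sum.inl (0 : Fin (n + 2 + 1)))⟩
  obtain ⟨b, h⟩ := hC.najiC (gN (n + 2)) (T := chT (n + 2) (n + 2 + 1) 0 0 0 0)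
    (chainN_adj (n + 2)) (gN_surj (n + 2))
  have et : (b (.w 1) (.u 0) + b (.w n) (.u 0) + b (.u 1) (.w 1) + b (.u (n + 1)) (.w n) +
      b (.u 1) (.u 0) + b (.u (n + 1)) (.u 0) + (n - 1)) % 2 = 0 :=
    h.tel (.u 0) 1 n (by (try intros); simp only [chT, chA, ne_eq, Cd.u.injEq, Cd.w.injEq,
      not_true_eq_false, reduceCtorEq, not_false_eq_true, true_and, and_true, false_and,
      and_false, true_or, or_true, false_or, or_false, true_implies, false_implies,
      implies_true] <;> omega) (by (try intros); simp only [chT, chA, ne_eq, Cd.u.injEq,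
      Cd.w.injEq, not_true_eq_false, reduceCtorEq, not_false_eq_true, true_and, and_true,
      false_and, and_false, true_or, or_true, false_or, or_false, true_implies, false_implies,
      implies_true] <;> omega) (by (try intros); simp only [chT, chA, ne_eq, Cd.u.injEq,
      Cd.w.injEq, not_true_eq_false, reduceCtorEq, not_false_eq_true, true_and, and_true,
      false_and, and_false, true_or, or_true, false_or, or_false, true_implies, false_implies,
      implies_true] <;> omega) (by (try intros); simp only [chT, chA, ne_eq, Cd.u.injEq,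
      Cd.w.injEq, not_true_eq_false, reduceCtorEq, not_false_eq_true, true_and, and_true,
      false_and, and_false, true_or, or_true, false_or, or_false, true_implies, false_implies,
      implies_true] <;> omega) (by (try intros); simp only [chT, chA, ne_eq, Cd.u.injEq,
      Cd.w.injEq, not_true_eq_false, reduceCtorEq, not_false_eq_true, true_and, and_true,
      false_and, and_false, true_or, or_true, false_or, or_false, true_implies, false_implies,
      implies_true] <;> omega) (by simp)
      (fun _ _ => Iff.rfl) (fun _ _ => Iff.rfl) (by simp [chA]) n (by omega) le_rfl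
  have e1 := h.n2 (.u 0) (.u (n + 2)) (.w (n + 1)) (by (try intros); simp only [chT, chA, ne_eq,
    Cd.u.injEq, Cd.w.injEq, not_true_eq_false, reduceCtorEq, not_false_eq_true, true_and,
    and_true, false_and, and_false, true_or, or_true, false_or, or_false, true_implies,
    false_implies, implies_true] <;> omega)
  have e2 := h.n3 (.u 1) (.u 0) (.u (n + 2)) (by (try intros); simp only [chT, chA, ne_eq,
    Cd.u.injEq, Cd.w.injEq, not_true_eq_false, reduceCtorEq, not_false_eq_true, true_and,
    and_true, false_and, and_false, true_or, or_true, false_or, or_false, true_implies,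
    false_implies, implies_true] <;> omega)
  have e3 := h.n3 (.u 1) (.u (n + 2)) (.w 0) (by (try intros); simp only [chT, chA, ne_eq,
    Cd.u.injEq, Cd.w.injEq, not_true_eq_false, reduceCtorEq, not_false_eq_true, true_and,
    and_true, false_and, and_false, true_or, or_true, false_or, or_false, true_implies,
    false_implies, implies_true] <;> omega)
  have e4 := h.n3 (.u 1) (.w 0) (.w 1) (by (try intros); simp only [chT, chA, ne_eq, Cd.u.injEq,
    Cd.w.injEq, not_true_eq_false, reduceCtorEq, not_false_eq_true, true_and, and_true,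
    false_and, and_false, true_or, or_true, false_or, or_false, true_implies, false_implies,
    implies_true] <;> omega)
  have e5 := h.n3 (.u (n + 1)) (.u 0) (.w (n + 1)) (by (try intros); simp only [chT, chA, ne_eq,
    Cd.u.injEq, Cd.w.injEq, not_true_eq_false, reduceCtorEq, not_false_eq_true, true_and,
    and_true, false_and, and_false, true_or, or_true, false_or, or_false, true_implies,
    false_implies, implies_true] <;> omega)
  have e6 := h.n3 (.u (n + 1)) (.w n) (.w (n + 1)) (by (try intros); simp only [chT, chA, ne_eq,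
    Cd.u.injEq, Cd.w.injEq, not_true_eq_false, reduceCtorEq, not_false_eq_true, true_and,
    and_true, false_and, and_false, true_or, or_true, false_or, or_false, true_implies,
    false_implies, implies_true] <;> omega)
  have e7 := h.n2 (.u (n + 2)) (.u 0) (.w 0) (by (try intros); simp only [chT, chA, ne_eq,
    Cd.u.injEq, Cd.w.injEq, not_true_eq_false, reduceCtorEq, not_false_eq_true, true_and,
    and_true, false_and, and_false, true_or, or_true, false_or, or_false, true_implies,
    false_implies, implies_true] <;> omega)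
  have e8 := h.n2 (.w 0) (.u 2) (.u (n + 2)) (by (try intros); simp only [chT, chA, ne_eq,
    Cd.u.injEq, Cd.w.injEq, not_true_eq_false, reduceCtorEq, not_false_eq_true, true_and,
    and_true, false_and, and_false, true_or, or_true, false_or, or_false, true_implies,
    false_implies, implies_true] <;> omega)
  have e9 := h.n2 (.w 0) (.u 2) (.w 1) (by (try intros); simp only [chT, chA, ne_eq, Cd.u.injEq,
    Cd.w.injEq, not_true_eq_false, reduceCtorEq, not_false_eq_true, true_and, and_true,
    false_and, and_false, true_or, or_true, false_or, or_false, true_implies, false_implies,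
    implies_true] <;> omega)
  have e10 := h.n2 (.w 1) (.u 0) (.w 0) (by (try intros); simp only [chT, chA, ne_eq, Cd.u.injEq,
    Cd.w.injEq, not_true_eq_false, reduceCtorEq, not_false_eq_true, true_and, and_true,
    false_and, and_false, true_or, or_true, false_or, or_false, true_implies, false_implies,
    implies_true] <;> omega)
  have e11 := h.n2 (.w n) (.u 0) (.u 1) (by (try intros); simp only [chT, chA, ne_eq, Cd.u.injEq,
    Cd.w.injEq, not_true_eq_false, reduceCtorEq, not_false_eq_true, true_and, and_true,
    false_and, and_false, true_or, or_true, false_or, or_false, true_implies, false_implies,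
    implies_true] <;> omega)
  have e12 := h.n2 (.w n) (.u 1) (.u (n + 2)) (by (try intros); simp only [chT, chA, ne_eq,
    Cd.u.injEq, Cd.w.injEq, not_true_eq_false, reduceCtorEq, not_false_eq_true, true_and,
    and_true, false_and, and_false, true_or, or_true, false_or, or_false, true_implies,
    false_implies, implies_true] <;> omega)
  have e13 := h.n2 (.w n) (.u (n + 2)) (.w (n + 1)) (by (try intros); simp only [chT, chA, ne_eq,
    Cd.u.injEq, Cd.w.injEq, not_true_eq_false, reduceCtorEq, not_false_eq_true, true_and,
    and_true, false_and, and_false, true_or, or_true, false_or, or_false, true_implies,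
    false_implies, implies_true] <;> omega)
  have e14 := h.n2 (.w (n + 1)) (.u 0) (.u n) (by (try intros); simp only [chT, chA, ne_eq,
    Cd.u.injEq, Cd.w.injEq, not_true_eq_false, reduceCtorEq, not_false_eq_true, true_and,
    and_true, false_and, and_false, true_or, or_true, false_or, or_false, true_implies,
    false_implies, implies_true] <;> omega)
  have e15 := h.n2 (.w (n + 1)) (.u n) (.w n) (by (try intros); simp only [chT, chA, ne_eq,
    Cd.u.injEq, Cd.w.injEq, not_true_eq_false, reduceCtorEq, not_false_eq_true, true_and,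
    and_true, false_and, and_false, true_or, or_true, false_or, or_false, true_implies,
    false_implies, implies_true] <;> omega)
  clear h this hC hp
  omega

/-- `chainNZ j` has no chord diagram. -/
theorem chainNZ_not_circ {j : ℕ} (hj : 4 ≤ j) (hp : Even j) : ¬ Circ (chainNZ j) Set.univ := by
  intro hC
  have hp' : j % 2 = 0 := by have := Nat.even_iff.mp hp; exact this
  obtain ⟨n, rfl⟩ : ∃ n, j = n + 1 := ⟨j - 1, by omega⟩
  have : Nonempty (Option (Fin (n + 1 + 1)) ⊕ Fin (n + 1)) := ⟨(Sum.inl none)⟩
  obtain ⟨b, h⟩ := hC.najiC (gNZ (n + 1)) (T := chT (n + 1) (n + 1 + 1) 0 1 0 0)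
    (chainNZ_adj (n + 1)) (gNZ_surj (n + 1))
  have et : (b (.w 0) .z + b (.w n) .z + b (.u 0) (.w 0) + b (.u (n + 1)) (.w n) +
      b (.u 0) .z + b (.u (n + 1)) .z + (n - 0)) % 2 = 0 :=
    h.tel .z 0 n (by (try intros); simp only [chT, chA, ne_eq, Cd.u.injEq, Cd.w.injEq,
      not_true_eq_false, reduceCtorEq, not_false_eq_true, true_and, and_true, false_and,
      and_false, true_or, or_true, false_or, or_false, true_implies, false_implies,
      implies_true] <;> omega) (by (try intros); simp only [chT, chA, ne_eq, Cd.u.injEq,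
      Cd.w.injEq, not_true_eq_false, reduceCtorEq, not_false_eq_true, true_and, and_true,
      false_and, and_false, true_or, or_true, false_or, or_false, true_implies, false_implies,
      implies_true] <;> omega) (by (try intros); simp only [chT, chA, ne_eq, Cd.u.injEq,
      Cd.w.injEq, not_true_eq_false, reduceCtorEq, not_false_eq_true, true_and, and_true,
      false_and, and_false, true_or, or_true, false_or, or_false, true_implies, false_implies,
      implies_true] <;> omega) (by (try intros); simp only [chT, chA, ne_eq, Cd.u.injEq,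
      Cd.w.injEq, not_true_eq_false, reduceCtorEq, not_false_eq_true, true_and, and_true,
      false_and, and_false, true_or, or_true, false_or, or_false, true_implies, false_implies,
      implies_true] <;> omega) (by (try intros); simp only [chT, chA, ne_eq, Cd.u.injEq,
      Cd.w.injEq, not_true_eq_false, reduceCtorEq, not_false_eq_true, true_and, and_true,
      false_and, and_false, true_or, or_true, false_or, or_false, true_implies, false_implies,
      implies_true] <;> omega) (by simp)
      (fun _ _ => Iff.rfl) (fun _ _ => Iff.rfl) (by simp [chA]) n (by omega) le_rfl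
  have e1 := h.n1 (.u 0) (.u n) (by (try intros); simp only [chT, chA, ne_eq, Cd.u.injEq,
    Cd.w.injEq, not_true_eq_false, reduceCtorEq, not_false_eq_true, true_and, and_true,
    false_and, and_false, true_or, or_true, false_or, or_false, true_implies, false_implies,
    implies_true] <;> omega)
  have e2 := h.n3 (.u 0) (.u n) (.w 0) (by (try intros); simp only [chT, chA, ne_eq, Cd.u.injEq,
    Cd.w.injEq, not_true_eq_false, reduceCtorEq, not_false_eq_true, true_and, and_true,
    false_and, and_false, true_or, or_true, false_or, or_false, true_implies, false_implies,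
    implies_true] <;> omega)
  have e3 := h.n2 (.u 0) (.u (n + 1)) (.w n) (by (try intros); simp only [chT, chA, ne_eq,
    Cd.u.injEq, Cd.w.injEq, not_true_eq_false, reduceCtorEq, not_false_eq_true, true_and,
    and_true, false_and, and_false, true_or, or_true, false_or, or_false, true_implies,
    false_implies, implies_true] <;> omega)
  have e4 := h.n1 (.u 0) .z (by (try intros); simp only [chT, chA, ne_eq, Cd.u.injEq, Cd.w.injEq,
    not_true_eq_false, reduceCtorEq, not_false_eq_true, true_and, and_true, false_and,
    and_false, true_or, or_true, false_or, or_false, true_implies, false_implies, implies_true]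
    <;> omega)
  have e5 := h.n1 (.u 1) (.u n) (by (try intros); simp only [chT, chA, ne_eq, Cd.u.injEq,
    Cd.w.injEq, not_true_eq_false, reduceCtorEq, not_false_eq_true, true_and, and_true,
    false_and, and_false, true_or, or_true, false_or, or_false, true_implies, false_implies,
    implies_true] <;> omega)
  have e6 := h.n3 (.u 1) (.u n) (.w 0) (by (try intros); simp only [chT, chA, ne_eq, Cd.u.injEq,
    Cd.w.injEq, not_true_eq_false, reduceCtorEq, not_false_eq_true, true_and, and_true,
    false_and, and_false, true_or, or_true, false_or, or_false, true_implies, false_implies,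
    implies_true] <;> omega)
  have e7 := h.n1 (.u 1) (.u (n + 1)) (by (try intros); simp only [chT, chA, ne_eq, Cd.u.injEq,
    Cd.w.injEq, not_true_eq_false, reduceCtorEq, not_false_eq_true, true_and, and_true,
    false_and, and_false, true_or, or_true, false_or, or_false, true_implies, false_implies,
    implies_true] <;> omega)
  have e8 := h.n3 (.u 1) (.u (n + 1)) (.w 0) (by (try intros); simp only [chT, chA, ne_eq,
    Cd.u.injEq, Cd.w.injEq, not_true_eq_false, reduceCtorEq, not_false_eq_true, true_and,
    and_true, false_and, and_false, true_or, or_true, false_or, or_false, true_implies,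
    false_implies, implies_true] <;> omega)
  have e9 := h.n3 (.u n) (.u 0) (.w n) (by (try intros); simp only [chT, chA, ne_eq, Cd.u.injEq,
    Cd.w.injEq, not_true_eq_false, reduceCtorEq, not_false_eq_true, true_and, and_true,
    false_and, and_false, true_or, or_true, false_or, or_false, true_implies, false_implies,
    implies_true] <;> omega)
  have e10 := h.n3 (.u n) (.u 1) (.w n) (by (try intros); simp only [chT, chA, ne_eq, Cd.u.injEq,
    Cd.w.injEq, not_true_eq_false, reduceCtorEq, not_false_eq_true, true_and, and_true,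
    false_and, and_false, true_or, or_true, false_or, or_false, true_implies, false_implies,
    implies_true] <;> omega)
  have e11 := h.n2 (.u (n + 1)) (.u 0) (.w 0) (by (try intros); simp only [chT, chA, ne_eq,
    Cd.u.injEq, Cd.w.injEq, not_true_eq_false, reduceCtorEq, not_false_eq_true, true_and,
    and_true, false_and, and_false, true_or, or_true, false_or, or_false, true_implies,
    false_implies, implies_true] <;> omega)
  have e12 := h.n3 (.u (n + 1)) (.u 1) (.w n) (by (try intros); simp only [chT, chA, ne_eq,
    Cd.u.injEq, Cd.w.injEq, not_true_eq_false, reduceCtorEq, not_false_eq_true, true_and,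
    and_true, false_and, and_false, true_or, or_true, false_or, or_false, true_implies,
    false_implies, implies_true] <;> omega)
  have e13 := h.n1 (.u (n + 1)) .z (by (try intros); simp only [chT, chA, ne_eq, Cd.u.injEq,
    Cd.w.injEq, not_true_eq_false, reduceCtorEq, not_false_eq_true, true_and, and_true,
    false_and, and_false, true_or, or_true, false_or, or_false, true_implies, false_implies,
    implies_true] <;> omega)
  have e14 := h.n2 (.w 0) (.u (n + 1)) .z (by (try intros); simp only [chT, chA, ne_eq,
    Cd.u.injEq, Cd.w.injEq, not_true_eq_false, reduceCtorEq, not_false_eq_true, true_and,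
    and_true, false_and, and_false, true_or, or_true, false_or, or_false, true_implies,
    false_implies, implies_true] <;> omega)
  have e15 := h.n2 (.w n) (.u 0) .z (by (try intros); simp only [chT, chA, ne_eq, Cd.u.injEq,
    Cd.w.injEq, not_true_eq_false, reduceCtorEq, not_false_eq_true, true_and, and_true,
    false_and, and_false, true_or, or_true, false_or, or_false, true_implies, false_implies,
    implies_true] <;> omega)
  have e16 := h.n3 .z (.u 0) (.u (n + 1)) (by (try intros); simp only [chT, chA, ne_eq,
    Cd.u.injEq, Cd.w.injEq, not_true_eq_false, reduceCtorEq, not_false_eq_true, true_and,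
    and_true, false_and, and_false, true_or, or_true, false_or, or_false, true_implies,
    false_implies, implies_true] <;> omega)
  clear h this hC hp
  omega

/-- `chainS3 j` has no chord diagram. -/
theorem chainS3_not_circ {j : ℕ} (hj : 3 ≤ j) (hp : Odd j) : ¬ Circ (chainS3 j) Set.univ := by
  intro hC
  have hp' : j % 2 = 1 := by have := Nat.odd_iff.mp hp; exact this
  obtain ⟨n, rfl⟩ : ∃ n, j = n + 1 := ⟨j - 1, by omega⟩
  have : Nonempty (Option (Fin (n + 1 + 1)) ⊕ Option (Fin (n + 1))) := ⟨(Sum.inl none)⟩
  obtain ⟨b, h⟩ := hC.najiC (gS3 (n + 1)) (T := chT (n + 1) (n + 1 + 1) 0 1 1 0)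
    (chainS3_adj (n + 1)) (gS3_surj (n + 1))
  have et : (b (.w 0) .z + b (.w n) .z + b (.u 0) (.w 0) + b (.u (n + 1)) (.w n) +
      b (.u 0) .z + b (.u (n + 1)) .z + (n - 0)) % 2 = 0 :=
    h.tel .z 0 n (by (try intros); simp only [chT, chA, ne_eq, Cd.u.injEq, Cd.w.injEq,
      not_true_eq_false, reduceCtorEq, not_false_eq_true, true_and, and_true, false_and,
      and_false, true_or, or_true, false_or, or_false, true_implies, false_implies,
      implies_true] <;> omega) (by (try intros); simp only [chT, chA, ne_eq, Cd.u.injEq,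
      Cd.w.injEq, not_true_eq_false, reduceCtorEq, not_false_eq_true, true_and, and_true,
      false_and, and_false, true_or, or_true, false_or, or_false, true_implies, false_implies,
      implies_true] <;> omega) (by (try intros); simp only [chT, chA, ne_eq, Cd.u.injEq,
      Cd.w.injEq, not_true_eq_false, reduceCtorEq, not_false_eq_true, true_and, and_true,
      false_and, and_false, true_or, or_true, false_or, or_false, true_implies, false_implies,
      implies_true] <;> omega) (by (try intros); simp only [chT, chA, ne_eq, Cd.u.injEq,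
      Cd.w.injEq, not_true_eq_false, reduceCtorEq, not_false_eq_true, true_and, and_true,
      false_and, and_false, true_or, or_true, false_or, or_false, true_implies, false_implies,
      implies_true] <;> omega) (by (try intros); simp only [chT, chA, ne_eq, Cd.u.injEq,
      Cd.w.injEq, not_true_eq_false, reduceCtorEq, not_false_eq_true, true_and, and_true,
      false_and, and_false, true_or, or_true, false_or, or_false, true_implies, false_implies,
      implies_true] <;> omega) (by simp)
      (fun _ _ => Iff.rfl) (fun _ _ => Iff.rfl) (by simp [chA]) n (by omega) le_rfl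
  have e1 := h.n1 (.u 0) (.u (n + 1)) (by (try intros); simp only [chT, chA, ne_eq, Cd.u.injEq,
    Cd.w.injEq, not_true_eq_false, reduceCtorEq, not_false_eq_true, true_and, and_true,
    false_and, and_false, true_or, or_true, false_or, or_false, true_implies, false_implies,
    implies_true] <;> omega)
  have e2 := h.n3 (.u 0) (.u (n + 1)) (.w 0) (by (try intros); simp only [chT, chA, ne_eq,
    Cd.u.injEq, Cd.w.injEq, not_true_eq_false, reduceCtorEq, not_false_eq_true, true_and,
    and_true, false_and, and_false, true_or, or_true, false_or, or_false, true_implies,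
    false_implies, implies_true] <;> omega)
  have e3 := h.n1 (.u 0) .z (by (try intros); simp only [chT, chA, ne_eq, Cd.u.injEq, Cd.w.injEq,
    not_true_eq_false, reduceCtorEq, not_false_eq_true, true_and, and_true, false_and,
    and_false, true_or, or_true, false_or, or_false, true_implies, false_implies, implies_true]
    <;> omega)
  have e4 := h.n3 (.u 1) (.u (n + 1)) (.w 0) (by (try intros); simp only [chT, chA, ne_eq,
    Cd.u.injEq, Cd.w.injEq, not_true_eq_false, reduceCtorEq, not_false_eq_true, true_and,
    and_true, false_and, and_false, true_or, or_true, false_or, or_false, true_implies,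
    false_implies, implies_true] <;> omega)
  have e5 := h.n3 (.u 1) (.u (n + 1)) .x (by (try intros); simp only [chT, chA, ne_eq, Cd.u.injEq,
    Cd.w.injEq, not_true_eq_false, reduceCtorEq, not_false_eq_true, true_and, and_true,
    false_and, and_false, true_or, or_true, false_or, or_false, true_implies, false_implies,
    implies_true] <;> omega)
  have e6 := h.n3 (.u 1) (.w 0) .x (by (try intros); simp only [chT, chA, ne_eq, Cd.u.injEq,
    Cd.w.injEq, not_true_eq_false, reduceCtorEq, not_false_eq_true, true_and, and_true,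
    false_and, and_false, true_or, or_true, false_or, or_false, true_implies, false_implies,
    implies_true] <;> omega)
  have e7 := h.n3 (.u n) (.u 0) (.w n) (by (try intros); simp only [chT, chA, ne_eq, Cd.u.injEq,
    Cd.w.injEq, not_true_eq_false, reduceCtorEq, not_false_eq_true, true_and, and_true,
    false_and, and_false, true_or, or_true, false_or, or_false, true_implies, false_implies,
    implies_true] <;> omega)
  have e8 := h.n3 (.u n) (.u 0) .x (by (try intros); simp only [chT, chA, ne_eq, Cd.u.injEq,
    Cd.w.injEq, not_true_eq_false, reduceCtorEq, not_false_eq_true, true_and, and_true,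
    false_and, and_false, true_or, or_true, false_or, or_false, true_implies, false_implies,
    implies_true] <;> omega)
  have e9 := h.n3 (.u n) (.w n) .x (by (try intros); simp only [chT, chA, ne_eq, Cd.u.injEq,
    Cd.w.injEq, not_true_eq_false, reduceCtorEq, not_false_eq_true, true_and, and_true,
    false_and, and_false, true_or, or_true, false_or, or_false, true_implies, false_implies,
    implies_true] <;> omega)
  have e10 := h.n3 (.u (n + 1)) (.u 0) (.w n) (by (try intros); simp only [chT, chA, ne_eq,
    Cd.u.injEq, Cd.w.injEq, not_true_eq_false, reduceCtorEq, not_false_eq_true, true_and,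
    and_true, false_and, and_false, true_or, or_true, false_or, or_false, true_implies,
    false_implies, implies_true] <;> omega)
  have e11 := h.n1 (.u (n + 1)) .z (by (try intros); simp only [chT, chA, ne_eq, Cd.u.injEq,
    Cd.w.injEq, not_true_eq_false, reduceCtorEq, not_false_eq_true, true_and, and_true,
    false_and, and_false, true_or, or_true, false_or, or_false, true_implies, false_implies,
    implies_true] <;> omega)
  have e12 := h.n2 (.w 0) .z .x (by (try intros); simp only [chT, chA, ne_eq, Cd.u.injEq,
    Cd.w.injEq, not_true_eq_false, reduceCtorEq, not_false_eq_true, true_and, and_true,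
    false_and, and_false, true_or, or_true, false_or, or_false, true_implies, false_implies,
    implies_true] <;> omega)
  have e13 := h.n2 (.w n) .z .x (by (try intros); simp only [chT, chA, ne_eq, Cd.u.injEq,
    Cd.w.injEq, not_true_eq_false, reduceCtorEq, not_false_eq_true, true_and, and_true,
    false_and, and_false, true_or, or_true, false_or, or_false, true_implies, false_implies,
    implies_true] <;> omega)
  have e14 := h.n3 .z (.u 0) .x (by (try intros); simp only [chT, chA, ne_eq, Cd.u.injEq,
    Cd.w.injEq, not_true_eq_false, reduceCtorEq, not_false_eq_true, true_and, and_true,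
    false_and, and_false, true_or, or_true, false_or, or_false, true_implies, false_implies,
    implies_true] <;> omega)
  have e15 := h.n3 .z (.u (n + 1)) .x (by (try intros); simp only [chT, chA, ne_eq, Cd.u.injEq,
    Cd.w.injEq, not_true_eq_false, reduceCtorEq, not_false_eq_true, true_and, and_true,
    false_and, and_false, true_or, or_true, false_or, or_false, true_implies, false_implies,
    implies_true] <;> omega)
  have e16 := h.n2 .x (.u 0) (.u (n + 1)) (by (try intros); simp only [chT, chA, ne_eq,
    Cd.u.injEq, Cd.w.injEq, not_true_eq_false, reduceCtorEq, not_false_eq_true, true_and,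
    and_true, false_and, and_false, true_or, or_true, false_or, or_false, true_implies,
    false_implies, implies_true] <;> omega)
  have e17 := h.n2 .x (.u 0) (.w 0) (by (try intros); simp only [chT, chA, ne_eq, Cd.u.injEq,
    Cd.w.injEq, not_true_eq_false, reduceCtorEq, not_false_eq_true, true_and, and_true,
    false_and, and_false, true_or, or_true, false_or, or_false, true_implies, false_implies,
    implies_true] <;> omega)
  have e18 := h.n2 .x (.u (n + 1)) (.w n) (by (try intros); simp only [chT, chA, ne_eq,
    Cd.u.injEq, Cd.w.injEq, not_true_eq_false, reduceCtorEq, not_false_eq_true, true_and,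
    and_true, false_and, and_false, true_or, or_true, false_or, or_false, true_implies,
    false_implies, implies_true] <;> omega)
  clear h this hC hp
  omega

/-- `chainS4 j` has no chord diagram. -/
theorem chainS4_not_circ {j : ℕ} (hj : 4 ≤ j) (hp : Even j) : ¬ Circ (chainS4 j) Set.univ := by
  intro hC
  have hp' : j % 2 = 0 := by have := Nat.even_iff.mp hp; exact this
  obtain ⟨n, rfl⟩ : ∃ n, j = n + 1 := ⟨j - 1, by omega⟩
  have : Nonempty (Fin (n + 1 + 1) ⊕ Option (Fin (n + 1))) := ⟨(Sum.inl (0 : Fin (n + 1 + 1)))⟩
  obtain ⟨b, h⟩ := hC.najiC (gS4 (n + 1)) (T := chT (n + 1) (n + 1 + 1) 0 0 1 0)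
    (chainS4_adj (n + 1)) (gS4_surj (n + 1))
  have et : (b (.w 1) (.u 0) + b (.w n) (.u 0) + b (.u 1) (.w 1) + b (.u (n + 1)) (.w n) +
      b (.u 1) (.u 0) + b (.u (n + 1)) (.u 0) + (n - 1)) % 2 = 0 :=
    h.tel (.u 0) 1 n (by (try intros); simp only [chT, chA, ne_eq, Cd.u.injEq, Cd.w.injEq,
      not_true_eq_false, reduceCtorEq, not_false_eq_true, true_and, and_true, false_and,
      and_false, true_or, or_true, false_or, or_false, true_implies, false_implies,
      implies_true] <;> omega) (by (try intros); simp only [chT, chA, ne_eq, Cd.u.injEq,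
      Cd.w.injEq, not_true_eq_false, reduceCtorEq, not_false_eq_true, true_and, and_true,
      false_and, and_false, true_or, or_true, false_or, or_false, true_implies, false_implies,
      implies_true] <;> omega) (by (try intros); simp only [chT, chA, ne_eq, Cd.u.injEq,
      Cd.w.injEq, not_true_eq_false, reduceCtorEq, not_false_eq_true, true_and, and_true,
      false_and, and_false, true_or, or_true, false_or, or_false, true_implies, false_implies,
      implies_true] <;> omega) (by (try intros); simp only [chT, chA, ne_eq, Cd.u.injEq,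
      Cd.w.injEq, not_true_eq_false, reduceCtorEq, not_false_eq_true, true_and, and_true,
      false_and, and_false, true_or, or_true, false_or, or_false, true_implies, false_implies,
      implies_true] <;> omega) (by (try intros); simp only [chT, chA, ne_eq, Cd.u.injEq,
      Cd.w.injEq, not_true_eq_false, reduceCtorEq, not_false_eq_true, true_and, and_true,
      false_and, and_false, true_or, or_true, false_or, or_false, true_implies, false_implies,
      implies_true] <;> omega) (by simp)
      (fun _ _ => Iff.rfl) (fun _ _ => Iff.rfl) (by simp [chA]) n (by omega) le_rfl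
  have e1 := h.n3 (.u 1) (.u 0) .x (by (try intros); simp only [chT, chA, ne_eq, Cd.u.injEq,
    Cd.w.injEq, not_true_eq_false, reduceCtorEq, not_false_eq_true, true_and, and_true,
    false_and, and_false, true_or, or_true, false_or, or_false, true_implies, false_implies,
    implies_true] <;> omega)
  have e2 := h.n3 (.u 1) (.w 0) (.w 1) (by (try intros); simp only [chT, chA, ne_eq, Cd.u.injEq,
    Cd.w.injEq, not_true_eq_false, reduceCtorEq, not_false_eq_true, true_and, and_true,
    false_and, and_false, true_or, or_true, false_or, or_false, true_implies, false_implies,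
    implies_true] <;> omega)
  have e3 := h.n3 (.u 1) (.w 0) .x (by (try intros); simp only [chT, chA, ne_eq, Cd.u.injEq,
    Cd.w.injEq, not_true_eq_false, reduceCtorEq, not_false_eq_true, true_and, and_true,
    false_and, and_false, true_or, or_true, false_or, or_false, true_implies, false_implies,
    implies_true] <;> omega)
  have e4 := h.n3 (.u n) (.u 0) (.w n) (by (try intros); simp only [chT, chA, ne_eq, Cd.u.injEq,
    Cd.w.injEq, not_true_eq_false, reduceCtorEq, not_false_eq_true, true_and, and_true,
    false_and, and_false, true_or, or_true, false_or, or_false, true_implies, false_implies,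
    implies_true] <;> omega)
  have e5 := h.n3 (.u n) (.u 0) .x (by (try intros); simp only [chT, chA, ne_eq, Cd.u.injEq,
    Cd.w.injEq, not_true_eq_false, reduceCtorEq, not_false_eq_true, true_and, and_true,
    false_and, and_false, true_or, or_true, false_or, or_false, true_implies, false_implies,
    implies_true] <;> omega)
  have e6 := h.n3 (.u n) (.w n) .x (by (try intros); simp only [chT, chA, ne_eq, Cd.u.injEq,
    Cd.w.injEq, not_true_eq_false, reduceCtorEq, not_false_eq_true, true_and, and_true,
    false_and, and_false, true_or, or_true, false_or, or_false, true_implies, false_implies,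
    implies_true] <;> omega)
  have e7 := h.n3 (.u (n + 1)) (.u 0) (.w n) (by (try intros); simp only [chT, chA, ne_eq,
    Cd.u.injEq, Cd.w.injEq, not_true_eq_false, reduceCtorEq, not_false_eq_true, true_and,
    and_true, false_and, and_false, true_or, or_true, false_or, or_false, true_implies,
    false_implies, implies_true] <;> omega)
  have e8 := h.n2 (.w 0) (.u 2) (.w 1) (by (try intros); simp only [chT, chA, ne_eq, Cd.u.injEq,
    Cd.w.injEq, not_true_eq_false, reduceCtorEq, not_false_eq_true, true_and, and_true,
    false_and, and_false, true_or, or_true, false_or, or_false, true_implies, false_implies,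
    implies_true] <;> omega)
  have e9 := h.n2 (.w 0) (.u 2) .x (by (try intros); simp only [chT, chA, ne_eq, Cd.u.injEq,
    Cd.w.injEq, not_true_eq_false, reduceCtorEq, not_false_eq_true, true_and, and_true,
    false_and, and_false, true_or, or_true, false_or, or_false, true_implies, false_implies,
    implies_true] <;> omega)
  have e10 := h.n2 (.w 1) (.u 0) (.w 0) (by (try intros); simp only [chT, chA, ne_eq, Cd.u.injEq,
    Cd.w.injEq, not_true_eq_false, reduceCtorEq, not_false_eq_true, true_and, and_true,
    false_and, and_false, true_or, or_true, false_or, or_false, true_implies, false_implies,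
    implies_true] <;> omega)
  have e11 := h.n2 (.w n) (.u 0) (.u 2) (by (try intros); simp only [chT, chA, ne_eq, Cd.u.injEq,
    Cd.w.injEq, not_true_eq_false, reduceCtorEq, not_false_eq_true, true_and, and_true,
    false_and, and_false, true_or, or_true, false_or, or_false, true_implies, false_implies,
    implies_true] <;> omega)
  have e12 := h.n2 (.w n) (.u 2) .x (by (try intros); simp only [chT, chA, ne_eq, Cd.u.injEq,
    Cd.w.injEq, not_true_eq_false, reduceCtorEq, not_false_eq_true, true_and, and_true,
    false_and, and_false, true_or, or_true, false_or, or_false, true_implies, false_implies,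
    implies_true] <;> omega)
  have e13 := h.n2 .x (.u 0) (.u (n + 1)) (by (try intros); simp only [chT, chA, ne_eq,
    Cd.u.injEq, Cd.w.injEq, not_true_eq_false, reduceCtorEq, not_false_eq_true, true_and,
    and_true, false_and, and_false, true_or, or_true, false_or, or_false, true_implies,
    false_implies, implies_true] <;> omega)
  have e14 := h.n2 .x (.u 0) (.w 0) (by (try intros); simp only [chT, chA, ne_eq, Cd.u.injEq,
    Cd.w.injEq, not_true_eq_false, reduceCtorEq, not_false_eq_true, true_and, and_true,
    false_and, and_false, true_or, or_true, false_or, or_false, true_implies, false_implies,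
    implies_true] <;> omega)
  have e15 := h.n2 .x (.u (n + 1)) (.w n) (by (try intros); simp only [chT, chA, ne_eq,
    Cd.u.injEq, Cd.w.injEq, not_true_eq_false, reduceCtorEq, not_false_eq_true, true_and,
    and_true, false_and, and_false, true_or, or_true, false_or, or_false, true_implies,
    false_implies, implies_true] <;> omega)
  clear h this hC hp
  omega

/-- `chainS5 j` has no chord diagram. -/
theorem chainS5_not_circ {j : ℕ} (hj : 3 ≤ j) (hp : Odd j) : ¬ Circ (chainS5 j) Set.univ := by
  intro hC
  have hp' : j % 2 = 1 := by have := Nat.odd_iff.mp hp; exact this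
  obtain ⟨n, rfl⟩ : ∃ n, j = n + 1 := ⟨j - 1, by omega⟩
  have : Nonempty (Fin (n + 1 + 1) ⊕ (Fin (n + 1) ⊕ Bool)) := ⟨(Sum.inl (0 : Fin (n + 1 + 1)))⟩
  obtain ⟨b, h⟩ := hC.najiC (gS5 (n + 1)) (T := chT (n + 1) (n + 1 + 1) 0 0 1 1)
    (chainS5_adj (n + 1)) (gS5_surj (n + 1))
  have et : (b (.w 1) (.u 0) + b (.w n) (.u 0) + b (.u 1) (.w 1) + b (.u (n + 1)) (.w n) +
      b (.u 1) (.u 0) + b (.u (n + 1)) (.u 0) + (n - 1)) % 2 = 0 :=
    h.tel (.u 0) 1 n (by (try intros); simp only [chT, chA, ne_eq, Cd.u.injEq, Cd.w.injEq,
      not_true_eq_false, reduceCtorEq, not_false_eq_true, true_and, and_true, false_and,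
      and_false, true_or, or_true, false_or, or_false, true_implies, false_implies,
      implies_true] <;> omega) (by (try intros); simp only [chT, chA, ne_eq, Cd.u.injEq,
      Cd.w.injEq, not_true_eq_false, reduceCtorEq, not_false_eq_true, true_and, and_true,
      false_and, and_false, true_or, or_true, false_or, or_false, true_implies, false_implies,
      implies_true] <;> omega) (by (try intros); simp only [chT, chA, ne_eq, Cd.u.injEq,
      Cd.w.injEq, not_true_eq_false, reduceCtorEq, not_false_eq_true, true_and, and_true,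
      false_and, and_false, true_or, or_true, false_or, or_false, true_implies, false_implies,
      implies_true] <;> omega) (by (try intros); simp only [chT, chA, ne_eq, Cd.u.injEq,
      Cd.w.injEq, not_true_eq_false, reduceCtorEq, not_false_eq_true, true_and, and_true,
      false_and, and_false, true_or, or_true, false_or, or_false, true_implies, false_implies,
      implies_true] <;> omega) (by (try intros); simp only [chT, chA, ne_eq, Cd.u.injEq,
      Cd.w.injEq, not_true_eq_false, reduceCtorEq, not_false_eq_true, true_and, and_true,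
      false_and, and_false, true_or, or_true, false_or, or_false, true_implies, false_implies,
      implies_true] <;> omega) (by simp)
      (fun _ _ => Iff.rfl) (fun _ _ => Iff.rfl) (by simp [chA]) n (by omega) le_rfl
  have e1 := h.n3 (.u 1) (.u 0) .y (by (try intros); simp only [chT, chA, ne_eq, Cd.u.injEq,
    Cd.w.injEq, not_true_eq_false, reduceCtorEq, not_false_eq_true, true_and, and_true,
    false_and, and_false, true_or, or_true, false_or, or_false, true_implies, false_implies,
    implies_true] <;> omega)
  have e2 := h.n3 (.u 1) (.w 0) (.w 1) (by (try intros); simp only [chT, chA, ne_eq, Cd.u.injEq,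
    Cd.w.injEq, not_true_eq_false, reduceCtorEq, not_false_eq_true, true_and, and_true,
    false_and, and_false, true_or, or_true, false_or, or_false, true_implies, false_implies,
    implies_true] <;> omega)
  have e3 := h.n3 (.u 1) (.w 0) .y (by (try intros); simp only [chT, chA, ne_eq, Cd.u.injEq,
    Cd.w.injEq, not_true_eq_false, reduceCtorEq, not_false_eq_true, true_and, and_true,
    false_and, and_false, true_or, or_true, false_or, or_false, true_implies, false_implies,
    implies_true] <;> omega)
  have e4 := h.n3 (.u n) (.w n) .x (by (try intros); simp only [chT, chA, ne_eq, Cd.u.injEq,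
    Cd.w.injEq, not_true_eq_false, reduceCtorEq, not_false_eq_true, true_and, and_true,
    false_and, and_false, true_or, or_true, false_or, or_false, true_implies, false_implies,
    implies_true] <;> omega)
  have e5 := h.n3 (.u n) (.w n) .y (by (try intros); simp only [chT, chA, ne_eq, Cd.u.injEq,
    Cd.w.injEq, not_true_eq_false, reduceCtorEq, not_false_eq_true, true_and, and_true,
    false_and, and_false, true_or, or_true, false_or, or_false, true_implies, false_implies,
    implies_true] <;> omega)
  have e6 := h.n3 (.u n) .x .y (by (try intros); simp only [chT, chA, ne_eq, Cd.u.injEq,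
    Cd.w.injEq, not_true_eq_false, reduceCtorEq, not_false_eq_true, true_and, and_true,
    false_and, and_false, true_or, or_true, false_or, or_false, true_implies, false_implies,
    implies_true] <;> omega)
  have e7 := h.n3 (.u (n + 1)) (.u 0) .y (by (try intros); simp only [chT, chA, ne_eq, Cd.u.injEq,
    Cd.w.injEq, not_true_eq_false, reduceCtorEq, not_false_eq_true, true_and, and_true,
    false_and, and_false, true_or, or_true, false_or, or_false, true_implies, false_implies,
    implies_true] <;> omega)
  have e8 := h.n3 (.u (n + 1)) (.w n) .y (by (try intros); simp only [chT, chA, ne_eq, Cd.u.injEq,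
    Cd.w.injEq, not_true_eq_false, reduceCtorEq, not_false_eq_true, true_and, and_true,
    false_and, and_false, true_or, or_true, false_or, or_false, true_implies, false_implies,
    implies_true] <;> omega)
  have e9 := h.n2 (.w 0) (.u 2) (.w 1) (by (try intros); simp only [chT, chA, ne_eq, Cd.u.injEq,
    Cd.w.injEq, not_true_eq_false, reduceCtorEq, not_false_eq_true, true_and, and_true,
    false_and, and_false, true_or, or_true, false_or, or_false, true_implies, false_implies,
    implies_true] <;> omega)
  have e10 := h.n2 (.w 0) (.u 2) .y (by (try intros); simp only [chT, chA, ne_eq, Cd.u.injEq,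
    Cd.w.injEq, not_true_eq_false, reduceCtorEq, not_false_eq_true, true_and, and_true,
    false_and, and_false, true_or, or_true, false_or, or_false, true_implies, false_implies,
    implies_true] <;> omega)
  have e11 := h.n2 (.w 1) (.u 0) (.w 0) (by (try intros); simp only [chT, chA, ne_eq, Cd.u.injEq,
    Cd.w.injEq, not_true_eq_false, reduceCtorEq, not_false_eq_true, true_and, and_true,
    false_and, and_false, true_or, or_true, false_or, or_false, true_implies, false_implies,
    implies_true] <;> omega)
  have e12 := h.n2 (.w n) (.u 0) .x (by (try intros); simp only [chT, chA, ne_eq, Cd.u.injEq,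
    Cd.w.injEq, not_true_eq_false, reduceCtorEq, not_false_eq_true, true_and, and_true,
    false_and, and_false, true_or, or_true, false_or, or_false, true_implies, false_implies,
    implies_true] <;> omega)
  have e13 := h.n2 .x (.u (n + 1)) (.w n) (by (try intros); simp only [chT, chA, ne_eq,
    Cd.u.injEq, Cd.w.injEq, not_true_eq_false, reduceCtorEq, not_false_eq_true, true_and,
    and_true, false_and, and_false, true_or, or_true, false_or, or_false, true_implies,
    false_implies, implies_true] <;> omega)
  have e14 := h.n2 .x (.u (n + 1)) .y (by (try intros); simp only [chT, chA, ne_eq, Cd.u.injEq,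
    Cd.w.injEq, not_true_eq_false, reduceCtorEq, not_false_eq_true, true_and, and_true,
    false_and, and_false, true_or, or_true, false_or, or_false, true_implies, false_implies,
    implies_true] <;> omega)
  have e15 := h.n2 .y (.u 0) (.w 0) (by (try intros); simp only [chT, chA, ne_eq, Cd.u.injEq,
    Cd.w.injEq, not_true_eq_false, reduceCtorEq, not_false_eq_true, true_and, and_true,
    false_and, and_false, true_or, or_true, false_or, or_false, true_implies, false_implies,
    implies_true] <;> omega)
  have e16 := h.n2 .y (.u 0) .x (by (try intros); simp only [chT, chA, ne_eq, Cd.u.injEq,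
    Cd.w.injEq, not_true_eq_false, reduceCtorEq, not_false_eq_true, true_and, and_true,
    false_and, and_false, true_or, or_true, false_or, or_false, true_implies, false_implies,
    implies_true] <;> omega)
  clear h this hC hp
  omega

/-- `chainS6 j` has no chord diagram. -/
theorem chainS6_not_circ {j : ℕ} (hj : 2 ≤ j) (hp : Even j) : ¬ Circ (chainS6 j) Set.univ := by
  intro hC
  have hp' : j % 2 = 0 := by have := Nat.even_iff.mp hp; exact this
  obtain ⟨n, rfl⟩ : ∃ n, j = n + 1 := ⟨j - 1, by omega⟩
  have : Nonempty (Option (Fin (n + 1 + 1)) ⊕ (Fin (n + 1) ⊕ Bool)) := ⟨(Sum.inl none)⟩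
  obtain ⟨b, h⟩ := hC.najiC (gS6 (n + 1)) (T := chT (n + 1) (n + 1 + 1) 0 1 1 1)
    (chainS6_adj (n + 1)) (gS6_surj (n + 1))
  have et : (b (.w 0) .z + b (.w n) .z + b (.u 0) (.w 0) + b (.u (n + 1)) (.w n) +
      b (.u 0) .z + b (.u (n + 1)) .z + (n - 0)) % 2 = 0 :=
    h.tel .z 0 n (by (try intros); simp only [chT, chA, ne_eq, Cd.u.injEq, Cd.w.injEq,
      not_true_eq_false, reduceCtorEq, not_false_eq_true, true_and, and_true, false_and,
      and_false, true_or, or_true, false_or, or_false, true_implies, false_implies,
      implies_true] <;> omega) (by (try intros); simp only [chT, chA, ne_eq, Cd.u.injEq,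
      Cd.w.injEq, not_true_eq_false, reduceCtorEq, not_false_eq_true, true_and, and_true,
      false_and, and_false, true_or, or_true, false_or, or_false, true_implies, false_implies,
      implies_true] <;> omega) (by (try intros); simp only [chT, chA, ne_eq, Cd.u.injEq,
      Cd.w.injEq, not_true_eq_false, reduceCtorEq, not_false_eq_true, true_and, and_true,
      false_and, and_false, true_or, or_true, false_or, or_false, true_implies, false_implies,
      implies_true] <;> omega) (by (try intros); simp only [chT, chA, ne_eq, Cd.u.injEq,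
      Cd.w.injEq, not_true_eq_false, reduceCtorEq, not_false_eq_true, true_and, and_true,
      false_and, and_false, true_or, or_true, false_or, or_false, true_implies, false_implies,
      implies_true] <;> omega) (by (try intros); simp only [chT, chA, ne_eq, Cd.u.injEq,
      Cd.w.injEq, not_true_eq_false, reduceCtorEq, not_false_eq_true, true_and, and_true,
      false_and, and_false, true_or, or_true, false_or, or_false, true_implies, false_implies,
      implies_true] <;> omega) (by simp)
      (fun _ _ => Iff.rfl) (fun _ _ => Iff.rfl) (by simp [chA]) n (by omega) le_rfl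
  have e1 := h.n1 (.u 0) (.u (n + 1)) (by (try intros); simp only [chT, chA, ne_eq, Cd.u.injEq,
    Cd.w.injEq, not_true_eq_false, reduceCtorEq, not_false_eq_true, true_and, and_true,
    false_and, and_false, true_or, or_true, false_or, or_false, true_implies, false_implies,
    implies_true] <;> omega)
  have e2 := h.n3 (.u 0) (.u (n + 1)) (.w 0) (by (try intros); simp only [chT, chA, ne_eq,
    Cd.u.injEq, Cd.w.injEq, not_true_eq_false, reduceCtorEq, not_false_eq_true, true_and,
    and_true, false_and, and_false, true_or, or_true, false_or, or_false, true_implies,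
    false_implies, implies_true] <;> omega)
  have e3 := h.n1 (.u 0) .z (by (try intros); simp only [chT, chA, ne_eq, Cd.u.injEq, Cd.w.injEq,
    not_true_eq_false, reduceCtorEq, not_false_eq_true, true_and, and_true, false_and,
    and_false, true_or, or_true, false_or, or_false, true_implies, false_implies, implies_true]
    <;> omega)
  have e4 := h.n3 (.u 1) (.u (n + 1)) (.w 0) (by (try intros); simp only [chT, chA, ne_eq,
    Cd.u.injEq, Cd.w.injEq, not_true_eq_false, reduceCtorEq, not_false_eq_true, true_and,
    and_true, false_and, and_false, true_or, or_true, false_or, or_false, true_implies,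
    false_implies, implies_true] <;> omega)
  have e5 := h.n3 (.u 1) (.u (n + 1)) .x (by (try intros); simp only [chT, chA, ne_eq, Cd.u.injEq,
    Cd.w.injEq, not_true_eq_false, reduceCtorEq, not_false_eq_true, true_and, and_true,
    false_and, and_false, true_or, or_true, false_or, or_false, true_implies, false_implies,
    implies_true] <;> omega)
  have e6 := h.n3 (.u 1) (.w 0) .y (by (try intros); simp only [chT, chA, ne_eq, Cd.u.injEq,
    Cd.w.injEq, not_true_eq_false, reduceCtorEq, not_false_eq_true, true_and, and_true,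
    false_and, and_false, true_or, or_true, false_or, or_false, true_implies, false_implies,
    implies_true] <;> omega)
  have e7 := h.n3 (.u 1) .x .y (by (try intros); simp only [chT, chA, ne_eq, Cd.u.injEq,
    Cd.w.injEq, not_true_eq_false, reduceCtorEq, not_false_eq_true, true_and, and_true,
    false_and, and_false, true_or, or_true, false_or, or_false, true_implies, false_implies,
    implies_true] <;> omega)
  have e8 := h.n3 (.u n) (.u 0) (.w n) (by (try intros); simp only [chT, chA, ne_eq, Cd.u.injEq,
    Cd.w.injEq, not_true_eq_false, reduceCtorEq, not_false_eq_true, true_and, and_true,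
    false_and, and_false, true_or, or_true, false_or, or_false, true_implies, false_implies,
    implies_true] <;> omega)
  have e9 := h.n3 (.u n) (.u 0) .y (by (try intros); simp only [chT, chA, ne_eq, Cd.u.injEq,
    Cd.w.injEq, not_true_eq_false, reduceCtorEq, not_false_eq_true, true_and, and_true,
    false_and, and_false, true_or, or_true, false_or, or_false, true_implies, false_implies,
    implies_true] <;> omega)
  have e10 := h.n3 (.u n) (.w n) .x (by (try intros); simp only [chT, chA, ne_eq, Cd.u.injEq,
    Cd.w.injEq, not_true_eq_false, reduceCtorEq, not_false_eq_true, true_and, and_true,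
    false_and, and_false, true_or, or_true, false_or, or_false, true_implies, false_implies,
    implies_true] <;> omega)
  have e11 := h.n3 (.u n) .x .y (by (try intros); simp only [chT, chA, ne_eq, Cd.u.injEq,
    Cd.w.injEq, not_true_eq_false, reduceCtorEq, not_false_eq_true, true_and, and_true,
    false_and, and_false, true_or, or_true, false_or, or_false, true_implies, false_implies,
    implies_true] <;> omega)
  have e12 := h.n3 (.u (n + 1)) (.u 0) (.w n) (by (try intros); simp only [chT, chA, ne_eq,
    Cd.u.injEq, Cd.w.injEq, not_true_eq_false, reduceCtorEq, not_false_eq_true, true_and,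
    and_true, false_and, and_false, true_or, or_true, false_or, or_false, true_implies,
    false_implies, implies_true] <;> omega)
  have e13 := h.n1 (.u (n + 1)) .z (by (try intros); simp only [chT, chA, ne_eq, Cd.u.injEq,
    Cd.w.injEq, not_true_eq_false, reduceCtorEq, not_false_eq_true, true_and, and_true,
    false_and, and_false, true_or, or_true, false_or, or_false, true_implies, false_implies,
    implies_true] <;> omega)
  have e14 := h.n2 (.w 0) .z .y (by (try intros); simp only [chT, chA, ne_eq, Cd.u.injEq,
    Cd.w.injEq, not_true_eq_false, reduceCtorEq, not_false_eq_true, true_and, and_true,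
    false_and, and_false, true_or, or_true, false_or, or_false, true_implies, false_implies,
    implies_true] <;> omega)
  have e15 := h.n2 (.w n) .z .x (by (try intros); simp only [chT, chA, ne_eq, Cd.u.injEq,
    Cd.w.injEq, not_true_eq_false, reduceCtorEq, not_false_eq_true, true_and, and_true,
    false_and, and_false, true_or, or_true, false_or, or_false, true_implies, false_implies,
    implies_true] <;> omega)
  have e16 := h.n3 .z (.u 0) .y (by (try intros); simp only [chT, chA, ne_eq, Cd.u.injEq,
    Cd.w.injEq, not_true_eq_false, reduceCtorEq, not_false_eq_true, true_and, and_true,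
    false_and, and_false, true_or, or_true, false_or, or_false, true_implies, false_implies,
    implies_true] <;> omega)
  have e17 := h.n3 .z (.u (n + 1)) .x (by (try intros); simp only [chT, chA, ne_eq, Cd.u.injEq,
    Cd.w.injEq, not_true_eq_false, reduceCtorEq, not_false_eq_true, true_and, and_true,
    false_and, and_false, true_or, or_true, false_or, or_false, true_implies, false_implies,
    implies_true] <;> omega)
  have e18 := h.n3 .z .x .y (by (try intros); simp only [chT, chA, ne_eq, Cd.u.injEq, Cd.w.injEq,
    not_true_eq_false, reduceCtorEq, not_false_eq_true, true_and, and_true, false_and,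
    and_false, true_or, or_true, false_or, or_false, true_implies, false_implies, implies_true]
    <;> omega)
  have e19 := h.n2 .x (.u (n + 1)) (.w n) (by (try intros); simp only [chT, chA, ne_eq,
    Cd.u.injEq, Cd.w.injEq, not_true_eq_false, reduceCtorEq, not_false_eq_true, true_and,
    and_true, false_and, and_false, true_or, or_true, false_or, or_false, true_implies,
    false_implies, implies_true] <;> omega)
  have e20 := h.n2 .x (.u (n + 1)) .y (by (try intros); simp only [chT, chA, ne_eq, Cd.u.injEq,
    Cd.w.injEq, not_true_eq_false, reduceCtorEq, not_false_eq_true, true_and, and_true,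
    false_and, and_false, true_or, or_true, false_or, or_false, true_implies, false_implies,
    implies_true] <;> omega)
  have e21 := h.n2 .y (.u 0) (.w 0) (by (try intros); simp only [chT, chA, ne_eq, Cd.u.injEq,
    Cd.w.injEq, not_true_eq_false, reduceCtorEq, not_false_eq_true, true_and, and_true,
    false_and, and_false, true_or, or_true, false_or, or_false, true_implies, false_implies,
    implies_true] <;> omega)
  have e22 := h.n2 .y (.u 0) .x (by (try intros); simp only [chT, chA, ne_eq, Cd.u.injEq,
    Cd.w.injEq, not_true_eq_false, reduceCtorEq, not_false_eq_true, true_and, and_true,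
    false_and, and_false, true_or, or_true, false_or, or_false, true_implies, false_implies,
    implies_true] <;> omega)
  clear h this hC hp
  omega

end Pool.Agent.Lib.MP_50b720_co
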