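import Pool.Agent.Lib.MP_50b720_co.Defs

set_option autoImplicit false

namespace Pool.Agent.Lib.MP_50b720_co

open SimpleGraph

/-- The graph with vertices `0, …, n - 1` and the listed edges. -/
def ofEdges (n : ℕ) (L : List (ℕ × ℕ)) : SimpleGraph (Fin n) :=
  SimpleGraph.fromRel fun a b => (a.val, b.val) ∈ L

instance (n : ℕ) (L : List (ℕ × ℕ)) : DecidableRel (ofEdges n L).Adj := fun a b =>
  decidable_of_iff (a ≠ b ∧ ((a.val, b.val) ∈ L ∨ (b.val, a.val) ∈ L))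
    Iff.rfl

/-- The split graph with clique `K`, independent set `D` and neighbourhoods given by `N`. -/
def splitG {K D : Type*} (N : D → K → Prop) : SimpleGraph (K ⊕ D) :=
  SimpleGraph.fromRel fun a b =>
    (∃ x y, a = Sum.inl x ∧ b = Sum.inl y) ∨ ∃ d x, a = Sum.inr d ∧ b = Sum.inl x ∧ N d x

/-- The twenty sporadic graphs: number of vertices and edge list. -/
def sporadic : List (ℕ × List (ℕ × ℕ)) := [
  -- 0: `K₄` with three pendant triangles on the edges at one vertex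
  (7, [(0,1),(0,2),(0,3),(1,2),(1,3),(2,3),(4,0),(4,1),(5,0),(5,2),(6,0),(6,3)]),
  -- 1, 2: three triangles on a common edge with three further pendant triangles
  (8, [(0,1),(0,2),(0,3),(0,4),(1,2),(1,3),(1,4),(5,0),(5,2),(6,0),(6,3),(7,0),(7,4)]),
  (8, [(0,1),(0,2),(0,3),(0,4),(1,2),(1,3),(1,4),(5,0),(5,2),(6,0),(6,3),(7,1),(7,4)]),
  -- 3: three `K₄` on a common triangle `012`, with pendant triangles on `30`, `41`, `52`
  (9, [(0,1),(0,2),(1,2),(3,0),(3,1),(3,2),(4,0),(4,1),(4,2),(5,0),(5,1),(5,2),(6,3),(6,0),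
    (7,4),(7,1),(8,5),(8,2)]),
  -- 4
  (8, [(0,1),(0,2),(1,2),(3,0),(3,1),(3,2),(4,3),(4,0),(5,0),(5,1),(5,2),(6,5),(6,1),(7,5),
    (7,2)]),
  -- 5
  (8, [(0,1),(0,2),(1,2),(3,0),(3,1),(4,0),(4,1),(4,2),(5,4),(5,0),(6,0),(6,1),(6,2),(7,6),
    (7,1)]),
  -- 6
  (8, [(0,1),(0,2),(1,2),(3,0),(3,1),(3,2),(4,3),(4,0),(5,0),(5,1),(5,2),(6,5),(6,1),(7,5),
    (7,0),(7,1)]),
  -- 7
  (8, [(0,1),(0,2),(1,2),(3,0),(3,1),(4,0),(4,1),(4,2),(5,4),(5,0),(6,0),(6,1),(6,2),(7,6),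
    (7,1),(7,2)]),
  -- 8
  (8, [(0,1),(0,2),(1,2),(3,0),(3,1),(3,2),(4,3),(4,0),(5,0),(5,1),(5,2),(6,5),(6,1),(6,7),
    (7,5),(7,0),(7,1)]),
  -- 9
  (8, [(0,1),(0,2),(1,2),(3,0),(3,1),(4,0),(4,1),(4,2),(5,4),(5,0),(5,2),(6,0),(6,1),(6,2),
    (7,6),(7,1),(7,2)]),
  -- 10
  (8, [(0,1),(0,2),(1,2),(3,0),(3,1),(3,2),(4,3),(4,1),(4,2),(5,0),(5,1),(5,2),(6,5),(6,1),
    (7,5),(7,0),(7,1)]),
  -- 11
  (8, [(0,1),(0,2),(1,2),(3,0),(3,1),(4,0),(4,1),(4,2),(5,4),(5,0),(5,2),(6,0),(6,1),(6,2),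
    (7,6),(7,0),(7,2)]),
  -- 12
  (8, [(0,1),(0,2),(1,2),(3,0),(3,1),(3,2),(4,3),(4,1),(4,2),(5,0),(5,1),(5,2),(6,5),(6,1),
    (6,7),(7,5),(7,0),(7,1)]),
  -- 13
  (8, [(0,1),(0,2),(0,3),(1,2),(1,3),(2,3),(4,0),(4,1),(4,2),(4,3),(5,4),(5,0),(5,1),(6,0),
    (6,1),(6,2),(6,3),(7,6),(7,0),(7,2)]),
  -- 14
  (9, [(0,1),(0,2),(1,2),(3,0),(3,1),(3,2),(4,3),(4,0),(5,0),(5,1),(5,2),(6,0),(6,1),(6,2),
    (5,6),(7,5),(7,1),(8,6),(8,2)]),
  -- 15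
  (9, [(0,1),(0,2),(1,2),(3,0),(3,1),(3,2),(4,3),(4,1),(4,2),(5,0),(5,1),(5,2),(6,0),(6,1),
    (6,2),(5,6),(7,5),(7,1),(8,6),(8,2)]),
  -- 16: tent ∨ K₁
  (7, [(0,1),(0,2),(0,3),(0,4),(0,5),(0,6),(1,2),(1,3),(2,3),(4,1),(4,2),(5,2),(5,3),(6,3),
    (6,1)]),
  -- 17
  (8, [(0,1),(0,2),(0,3),(0,4),(1,2),(1,3),(1,4),(2,3),(2,4),(3,4),(5,0),(5,1),(5,2),(6,0),
    (6,2),(6,3),(7,0),(7,3),(7,4)]),
  -- 18
  (9, [(0,1),(0,2),(0,3),(0,4),(1,2),(1,3),(1,4),(2,3),(2,4),(3,4),(5,1),(5,2),(5,3),(5,4),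
    (6,0),(6,3),(6,4),(7,1),(7,3),(8,2),(8,4)]),
  -- 19
  (10, [(0,1),(0,2),(0,3),(0,4),(0,5),(1,2),(1,3),(1,4),(1,5),(2,3),(2,4),(2,5),(3,4),(3,5),
    (4,5),(6,0),(6,1),(6,2),(7,0),(7,3),(8,1),(8,4),(9,2),(9,5)])]

/-- The fan graphs. A path `x 0, …, x (k + 1)` (`x i = inl i`) and two adjacent vertices
`p = inr false`, `q = inr true`, both adjacent to `x 1, …, x k`; moreover `x 0` is adjacent to `p`,
and `x (k + 1)` is adjacent to `inr s`. -/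
def fan (k : ℕ) (s : Bool) : SimpleGraph (Fin (k + 2) ⊕ Bool) :=
  SimpleGraph.fromRel fun a b =>
    (∃ i j : Fin (k + 2), a = Sum.inl i ∧ b = Sum.inl j ∧ j.val = i.val + 1) ∨
    (a = Sum.inr false ∧ b = Sum.inr true) ∨
    (∃ (i : Fin (k + 2)) (c : Bool), a = Sum.inl i ∧ b = Sum.inr c ∧ 1 ≤ i.val ∧ i.val ≤ k) ∨
    (a = Sum.inl 0 ∧ b = Sum.inr false) ∨
    (a = Sum.inl (Fin.last (k + 1)) ∧ b = Sum.inr s)

/-- The fan graph with one more vertex `inl none`, adjacent to exactly `p` and `q`. -/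
def fanY (k : ℕ) (s : Bool) : SimpleGraph (Option (Fin (k + 2)) ⊕ Bool) :=
  SimpleGraph.fromRel fun a b =>
    (∃ i j : Fin (k + 2), a = Sum.inl (some i) ∧ b = Sum.inl (some j) ∧ j.val = i.val + 1) ∨
    (a = Sum.inr false ∧ b = Sum.inr true) ∨
    (∃ (i : Fin (k + 2)) (c : Bool), a = Sum.inl (some i) ∧ b = Sum.inr c ∧ 1 ≤ i.val ∧
      i.val ≤ k) ∨
    (a = Sum.inl (some 0) ∧ b = Sum.inr false) ∨
    (a = Sum.inl (some (Fin.last (k + 1))) ∧ b = Sum.inr s) ∨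
    (∃ c : Bool, a = Sum.inl none ∧ b = Sum.inr c)

/-- `u 0, …, u j` (`u i = inl i`), pairwise adjacent except for the pair `u 0`, `u j`, and vertices
`w i = inr i` (`i < j`) adjacent to exactly `u i` and `u (i + 1)`. -/
def chainN (j : ℕ) : SimpleGraph (Fin (j + 1) ⊕ Fin j) :=
  SimpleGraph.fromRel fun a b =>
    (∃ i i' : Fin (j + 1), a = Sum.inl i ∧ b = Sum.inl i' ∧ i < i' ∧
      ¬ (i.val = 0 ∧ i'.val = j)) ∨
    (∃ (i : Fin j) (i' : Fin (j + 1)), a = Sum.inr i ∧ b = Sum.inl i' ∧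
      (i'.val = i.val ∨ i'.val = i.val + 1))

/-- The graph `chainN j` with one more vertex `inl none` adjacent to exactly the vertices `u i`. -/
def chainNZ (j : ℕ) : SimpleGraph (Option (Fin (j + 1)) ⊕ Fin j) :=
  SimpleGraph.fromRel fun a b =>
    (∃ i i' : Fin (j + 1), a = Sum.inl (some i) ∧ b = Sum.inl (some i') ∧ i < i' ∧
      ¬ (i.val = 0 ∧ i'.val = j)) ∨
    (∃ i : Fin (j + 1), a = Sum.inl none ∧ b = Sum.inl (some i)) ∨
    (∃ (i : Fin j) (i' : Fin (j + 1)), a = Sum.inr i ∧ b = Sum.inl (some i') ∧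
      (i'.val = i.val ∨ i'.val = i.val + 1))

/-- Split graph: clique `u 0, …, u j, z`, vertices `w i` with neighbours `u i, u (i + 1)`
and `x` with neighbours `u 1, …, u (j - 1), z`. -/
def chainS3 (j : ℕ) : SimpleGraph (Option (Fin (j + 1)) ⊕ Option (Fin j)) :=
  splitG fun d x => match d, x with
    | some i, some i' => i'.val = i.val ∨ i'.val = i.val + 1
    | some _, none => False
    | none, some i' => i'.val ≠ 0 ∧ i'.val ≠ j
    | none, none => True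

/-- Split graph: clique `u 0, …, u j`, vertices `w i` with neighbours `u i, u (i + 1)`
and `x` with neighbours `u 1, …, u (j - 1)`. -/
def chainS4 (j : ℕ) : SimpleGraph (Fin (j + 1) ⊕ Option (Fin j)) :=
  splitG fun d i' => match d with
    | some i => i'.val = i.val ∨ i'.val = i.val + 1
    | none => i'.val ≠ 0 ∧ i'.val ≠ j

/-- Split graph: clique `u 0, …, u j`, vertices `w i` with neighbours `u i, u (i + 1)`,
a vertex `x` adjacent to all `u i` except `u j` and a vertex `x'` adjacent to all `u i` except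
`u 0`. -/
def chainS5 (j : ℕ) : SimpleGraph (Fin (j + 1) ⊕ (Fin j ⊕ Bool)) :=
  splitG fun d i' => match d with
    | Sum.inl i => i'.val = i.val ∨ i'.val = i.val + 1
    | Sum.inr false => i'.val ≠ j
    | Sum.inr true => i'.val ≠ 0

/-- Split graph: clique `u 0, …, u j, z`, vertices `w i` with neighbours `u i, u (i + 1)`,
a vertex `x` adjacent to all of the clique except `u j` and a vertex `x'` adjacent to all of the
clique except `u 0`. -/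
def chainS6 (j : ℕ) : SimpleGraph (Option (Fin (j + 1)) ⊕ (Fin j ⊕ Bool)) :=
  splitG fun d x => match d, x with
    | Sum.inl i, some i' => i'.val = i.val ∨ i'.val = i.val + 1
    | Sum.inl _, none => False
    | Sum.inr false, some i' => i'.val ≠ j
    | Sum.inr true, some i' => i'.val ≠ 0
    | Sum.inr _, none => True

/-- `H` is isomorphic to one of the graphs of the list. -/
def IsListed {W : Type*} (H : SimpleGraph W) : Prop :=
  (∃ p ∈ sporadic, Nonempty (H ≃g ofEdges p.1 p.2)) ∨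
  (∃ k, 4 ≤ k ∧ Even k ∧ Nonempty (H ≃g sun k)) ∨
  (∃ k, 3 ≤ k ∧ Odd k ∧ Nonempty (H ≃g centeredSun k)) ∨
  (∃ k, 4 ≤ k ∧ Nonempty (H ≃g fan k (decide (Odd k)))) ∨
  (∃ k, 3 ≤ k ∧ Nonempty (H ≃g fanY k (decide (Even k)))) ∨
  (∃ j, 5 ≤ j ∧ Odd j ∧ Nonempty (H ≃g chainN j)) ∨
  (∃ j, 4 ≤ j ∧ Even j ∧ Nonempty (H ≃g chainNZ j)) ∨
  (∃ j, 3 ≤ j ∧ Odd j ∧ Nonempty (H ≃g chainS3 j)) ∨
  (∃ j, 4 ≤ j ∧ Even j ∧ Nonempty (H ≃g chainS4 j)) ∨
  (∃ j, 3 ≤ j ∧ Odd j ∧ Nonempty (H ≃g chainS5 j)) ∨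
  (∃ j, 2 ≤ j ∧ Even j ∧ Nonempty (H ≃g chainS6 j))

end Pool.Agent.Lib.MP_50b720_co
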