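import Pool.Agent.Lib.MP_50b720_co.Listed
import Pool.Agent.Lib.MP_50b720_co.Full.ListDefs

set_option autoImplicit false
set_option linter.constructorNameAsVariable false

/-!
# Common tools for the families of the list
-/

namespace Pool.Agent.Lib.MP_50b720_co

open SimpleGraph

variable {V : Type*}

/-- Naji's equations, as congruences between natural numbers -/
structure NajiN (G : SimpleGraph V) (b : V → V → ℕ) : Prop where
  n1 : ∀ x y, G.Adj x y → (b x y + b y x) % 2 = 1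
  n2 : ∀ x y z, x ≠ y → x ≠ z → ¬ G.Adj x y → ¬ G.Adj x z → G.Adj y z → b x y = b x z
  n3 : ∀ x y z, G.Adj x y → G.Adj x z → ¬ G.Adj y z → y ≠ z →
    (b y z + b z y + b x y + b x z) % 2 = 1

lemma Circ.najiN {G : SimpleGraph V} (h : Circ G Set.univ) : ∃ b, NajiN G b := by
  obtain ⟨β, n1, n2, n3⟩ := h.naji
  refine ⟨fun x y => (β x y).val, ?_, ?_, ?_⟩
  · intro x y hxy
    have := n1 x y hxy
    generalize β x y = a at *
    generalize β y x = b at *
    clear n1 n2 n3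
    revert a b; decide
  · intro x y z h1 h2 h3 h4 h5
    rw [n2 x y z h1 h2 h3 h4 h5]
  · intro x y z h1 h2 h3 h4
    have := n3 x y z h1 h2 h3 h4
    generalize β y z = a at *
    generalize β z y = b at *
    generalize β x y = c at *
    generalize β x z = d at *
    clear n1 n2 n3
    revert a b c d; decide

/-- Good position of two chords with increasing ends. -/
def GoodP (adj : Prop) (a b c d : ℤ) : Prop :=
  a ≠ c ∧ a ≠ d ∧ b ≠ c ∧ b ≠ d ∧ (adj ↔ (a < c ∧ c < b ∧ b < d) ∨ (c < a ∧ a < d ∧ d < b))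

/-- Codes for the vertices of the families. -/
inductive Cd
  | u (i : ℕ)
  | w (i : ℕ)
  | z
  | x
  | y
  deriving DecidableEq

/-- An order of the codes. -/
def Cd.before : Cd → Cd → Prop
  | .u i, .u k => i < k
  | .u _, _ => True
  | .w _, .u _ => False
  | .w i, .w k => i < k
  | .w _, _ => True
  | .z, .u _ => False
  | .z, .w _ => False
  | .z, .z => False
  | .z, _ => True
  | .x, .y => True
  | _, _ => False

lemma Cd.before_total (a b : Cd) (h : a ≠ b) : a.before b ∨ b.before a := by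
  cases a <;> cases b <;> simp_all [Cd.before]

/-- A chord diagram given by codes. -/
lemma circ_of_code {G : SimpleGraph V} {S : Set V} (g : V → Cd) (hg : Function.Injective g)
    (A : Cd → Cd → Prop) (hA : ∀ a b, G.Adj a b ↔ A (g a) (g b)) (P Q : Cd → ℤ)
    (T : Cd → Prop) (hT : ∀ a ∈ S, T (g a)) (h1 : ∀ c, T c → P c < Q c)
    (h2 : ∀ c d, T c → T d → c.before d → GoodP (A c d) (P c) (Q c) (P d) (Q d)) :
    Circ G S := by
  refine ⟨fun v => P (g v), fun v => Q (g v), ?_, ?_⟩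
  · intro u hu
    have := h1 _ (hT u hu)
    beta_reduce; omega
  · intro u hu v hv huv
    have e1 := h1 _ (hT u hu)
    have e2 := h1 _ (hT v hv)
    have hne : g u ≠ g v := fun h => huv (hg h)
    beta_reduce
    rcases Cd.before_total _ _ hne with h | h
    · obtain ⟨f1, f2, f3, f4, f5⟩ := h2 _ _ (hT u hu) (hT v hv) h
      refine ⟨f1, f2, f3, f4, ?_⟩
      rw [hA, f5]
      unfold Cross Btw; omega
    · obtain ⟨f1, f2, f3, f4, f5⟩ := h2 _ _ (hT v hv) (hT u hu) h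
      refine ⟨f1.symm, f3.symm, f2.symm, f4.symm, ?_⟩
      rw [G.adj_comm, hA, f5]
      unfold Cross Btw; omega

/-- Naji's equations on codes. -/
structure NajiC (T : Cd → Prop) (A : Cd → Cd → Prop) (b : Cd → Cd → ℕ) : Prop where
  n1 : ∀ x y, T x ∧ T y ∧ A x y → (b x y + b y x) % 2 = 1
  n2 : ∀ x y z, T x ∧ T y ∧ T z ∧ x ≠ y ∧ x ≠ z ∧ ¬ A x y ∧ ¬ A x z ∧ A y z → b x y = b x z
  n3 : ∀ x y z, T x ∧ T y ∧ T z ∧ y ≠ z ∧ A x y ∧ A x z ∧ ¬ A y z →
    (b y z + b z y + b x y + b x z) % 2 = 1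

lemma Circ.najiC {G : SimpleGraph V} [Nonempty V] (h : Circ G Set.univ) (g : V → Cd)
    {T : Cd → Prop} {A : Cd → Cd → Prop} (hA : ∀ a b, G.Adj a b ↔ A (g a) (g b))
    (hT : ∀ c, T c → ∃ v, g v = c) : ∃ b, NajiC T A b := by
  obtain ⟨b, n1, n2, n3⟩ := h.najiN
  have hF : ∀ c, T c → g (Function.invFun g c) = c := fun c hc => Function.invFun_eq (hT c hc)
  set F := Function.invFun g
  have hne : ∀ c d, T c → T d → c ≠ d → F c ≠ F d := by
    intro c d hc hd hcd h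
    apply hcd
    rw [← hF c hc, ← hF d hd, h]
  have hAF : ∀ c d, T c → T d → (G.Adj (F c) (F d) ↔ A c d) := by
    intro c d hc hd
    rw [hA, hF c hc, hF d hd]
  refine ⟨fun c d => b (F c) (F d), ?_, ?_, ?_⟩
  · rintro x y ⟨hx, hy, hxy⟩
    exact n1 _ _ ((hAF x y hx hy).mpr hxy)
  · rintro x y z ⟨hx, hy, hz, h1, h2, h3, h4, h5⟩
    exact n2 _ _ _ (hne x y hx hy h1) (hne x z hx hz h2) (by rwa [hAF x y hx hy])
      (by rwa [hAF x z hx hz]) ((hAF y z hy hz).mpr h5)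
  · rintro x y z ⟨hx, hy, hz, h1, h2, h3, h4⟩
    exact n3 _ _ _ ((hAF x y hx hy).mpr h2) ((hAF x z hx hz).mpr h3) (by rwa [hAF y z hy hz])
      (hne y z hy hz h1)

/-- Summation along a chain `u a, w a, u (a + 1), w (a + 1), …`, seen from `r`. -/
lemma NajiC.tel {T : Cd → Prop} {A : Cd → Cd → Prop} {b : Cd → Cd → ℕ} (h : NajiC T A b)
    (r : Cd) (a M : ℕ) (hTu : ∀ i, a ≤ i → i ≤ M + 1 → T (.u i))
    (hTw : ∀ i, a ≤ i → i ≤ M → T (.w i)) (hTr : T r)
    (hur : ∀ i, a ≤ i → i ≤ M + 1 → A (.u i) r)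
    (hwr : ∀ i, a ≤ i → i ≤ M → ¬ A (.w i) r) (hwr' : ∀ i, Cd.w i ≠ r)
    (hwu : ∀ i k, A (.w i) (.u k) ↔ k = i ∨ k = i + 1)
    (huw : ∀ i k, A (.u k) (.w i) ↔ k = i ∨ k = i + 1) (hww : ∀ i k, ¬ A (.w i) (.w k)) :
    ∀ m, a ≤ m → m ≤ M → (b (.w a) r + b (.w m) r + b (.u a) (.w a) + b (.u (m + 1)) (.w m) +
      b (.u a) r + b (.u (m + 1)) r + (m - a)) % 2 = 0 := by
  have hD : ∀ i, a ≤ i → i ≤ M → (b (.u i) (.w i) + b (.u (i + 1)) (.w i) + b (.u i) r +
      b (.u (i + 1)) r) % 2 = 0 := by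
    intro i h1 h2
    have e1 := h.n3 (.u i) (.w i) r ⟨hTu i h1 (by omega), hTw i h1 h2, hTr, hwr' i,
      (huw i i).mpr (Or.inl rfl), hur i h1 (by omega), hwr i h1 h2⟩
    have e2 := h.n3 (.u (i + 1)) (.w i) r ⟨hTu (i + 1) (by omega) (by omega), hTw i h1 h2, hTr,
      hwr' i, (huw i (i + 1)).mpr (Or.inr rfl), hur (i + 1) (by omega) (by omega), hwr i h1 h2⟩
    omega
  have hE : ∀ i, a ≤ i → i + 1 ≤ M → (b (.w i) r + b (.w (i + 1)) r + b (.u (i + 1)) (.w i) +
      b (.u (i + 1)) (.w (i + 1))) % 2 = 1 := by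
    intro i h1 h2
    have t1 := hTw i h1 (by omega)
    have t2 := hTw (i + 1) (by omega) h2
    have t3 := hTu i h1 (by omega)
    have t4 := hTu (i + 1) (by omega) (by omega)
    have t5 := hTu (i + 2) (by omega) (by omega)
    have w1 : Cd.w i ≠ Cd.w (i + 1) := by simp
    have e1 := h.n3 (.u (i + 1)) (.w i) (.w (i + 1)) ⟨t4, t1, t2, w1,
      (huw _ _).mpr (Or.inr rfl), (huw _ _).mpr (Or.inl rfl), hww _ _⟩
    have e2 := h.n2 (.w i) (.w (i + 1)) (.u (i + 2)) ⟨t1, t2, t5, w1, by simp, hww _ _,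
      by rw [hwu]; omega, (hwu _ _).mpr (Or.inr rfl)⟩
    have e3 := h.n2 (.w i) (.u (i + 2)) r ⟨t1, t5, hTr, by simp, hwr' i,
      by rw [hwu]; omega, hwr i h1 (by omega), hur (i + 2) (by omega) (by omega)⟩
    have e4 := h.n2 (.w (i + 1)) (.w i) (.u i) ⟨t2, t1, t3, w1.symm, by simp, hww _ _,
      by rw [hwu]; omega, (hwu _ _).mpr (Or.inl rfl)⟩
    have e5 := h.n2 (.w (i + 1)) (.u i) r ⟨t2, t3, hTr, by simp, hwr' _,
      by rw [hwu]; omega, hwr (i + 1) (by omega) h2, hur i h1 (by omega)⟩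
    omega
  intro m ham
  induction m, ham using Nat.le_induction with
  | base => intro h1; have := hD a le_rfl h1; omega
  | succ m ham ih =>
    intro h1
    have e1 := ih (by omega)
    have e2 := hE m ham h1
    have e3 := hD (m + 1) (by omega) h1
    omega

/-- Summation along a path `u a, u (a + 1), …` all of whose vertices are adjacent to `p`. -/
lemma NajiC.telp {T : Cd → Prop} {A : Cd → Cd → Prop} {b : Cd → Cd → ℕ} (h : NajiC T A b)
    (p : Cd) (a M : ℕ) (hTu : ∀ i, a ≤ i → i ≤ M + 1 → T (.u i)) (hTp : T p)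
    (hp : ∀ i, a ≤ i → i ≤ M + 1 → A p (.u i))
    (hx : ∀ i, A (.u i) (.u (i + 1))) (hx1 : ∀ i, A (.u (i + 1)) (.u i))
    (hx2 : ∀ i, ¬ A (.u i) (.u (i + 2))) :
    ∀ m, a ≤ m → m ≤ M → (b (.u a) (.u (a + 1)) + b (.u m) (.u (m + 1)) + b p (.u a) +
      b p (.u (a + 1)) + b p (.u m) + b p (.u (m + 1)) + (m - a)) % 2 = 0 := by
  intro m ham
  induction m, ham using Nat.le_induction with
  | base => intro h1; omega
  | succ m ham ih =>
    intro h1
    have e1 := ih (by omega)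
    have t1 := hTu m ham (by omega)
    have t2 := hTu (m + 1) (by omega) (by omega)
    have t3 := hTu (m + 2) (by omega) (by omega)
    have e2 := h.n3 (.u (m + 1)) (.u m) (.u (m + 2)) ⟨t2, t1, t3, by simp, hx1 m, hx (m + 1),
      hx2 m⟩
    have e3 := h.n3 p (.u m) (.u (m + 2)) ⟨hTp, t1, t3, by simp, hp m ham (by omega),
      hp (m + 2) (by omega) (by omega), hx2 m⟩
    have e4 := h.n1 (.u m) (.u (m + 1)) ⟨t1, t2, hx m⟩
    have e5 : Cd.u (m + 1 + 1) = Cd.u (m + 2) := rfl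
    rw [e5]
    omega

/-- The value `b y (u i)` is constant along a path avoided by `y`. -/
lemma NajiC.constp {T : Cd → Prop} {A : Cd → Cd → Prop} {b : Cd → Cd → ℕ} (h : NajiC T A b)
    (y : Cd) (a M : ℕ) (hTu : ∀ i, a ≤ i → i ≤ M → T (.u i)) (hTy : T y)
    (hy : ∀ i, a ≤ i → i ≤ M → ¬ A y (.u i)) (hy' : ∀ i, y ≠ .u i)
    (hx : ∀ i, A (.u i) (.u (i + 1))) :
    ∀ m, a ≤ m → m ≤ M → b y (.u m) = b y (.u a) := by
  intro m ham
  induction m, ham using Nat.le_induction with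
  | base => intro _; rfl
  | succ m ham ih =>
    intro h1
    rw [← ih (by omega)]
    exact (h.n2 y (.u m) (.u (m + 1)) ⟨hTy, hTu m ham (by omega), hTu (m + 1) (by omega) h1,
      hy' _, hy' _, hy m ham (by omega), hy (m + 1) (by omega) h1, hx m⟩).symm

/-- Chordality from codes. -/
lemma chordal_of_code {G : SimpleGraph V} (g : V → Cd) (hg : Function.Injective g)
    {T : Cd → Prop} {A : Cd → Cd → Prop} (hA : ∀ a b, G.Adj a b ↔ A (g a) (g b))
    (hT : ∀ a, T (g a)) (r : Cd → ℕ)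
    (h : ∀ x y z, T x → T y → T z → A x y → A x z → y ≠ z → r x ≤ r y → r x ≤ r z → A y z) :
    IsChordal G := by
  refine chordal_of_rank (fun a => r (g a)) ?_
  intro x y z hxy hxz hyz h1 h2
  rw [hA] at hxy hxz ⊢
  exact h _ _ _ (hT x) (hT y) (hT z) hxy hxz (fun h => hyz (hg h)) h1 h2

end Pool.Agent.Lib.MP_50b720_co
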