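import Pool.Agent.Lib.MP_50b720_co.Full.Chains

set_option autoImplicit false

namespace Pool.Agent.Lib.MP_50b720_co

variable {V : Type*}

/-- a clean chain of overlapping sets whose first member (and no other) satisfies `KA` and whose
last member (and no other) satisfies `KB` -/
structure CleanChain (D : Set V) (T : V → Set V) (KA KB : V → Prop) (m : ℕ) (d : ℕ → V) :
    Prop where
  mem : ∀ i ≤ m, d i ∈ D
  ov : ∀ i < m, Ov T (d i) (d (i + 1))
  disj : ∀ i j, i + 2 ≤ j → j ≤ m → ∀ x, x ∈ T (d i) → x ∉ T (d j)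
  first : KA (d 0)
  last : KB (d m)
  nA : ∀ i, 0 < i → i ≤ m → ¬ KA (d i)
  nB : ∀ i, i < m → ¬ KB (d i)

open Classical in
/-- **Colouring theorem.** Two proper 2-colourings with boundary conditions are merged. -/
theorem colour_theorem {D : Set V} {T : V → Set V} {KA KB : V → Prop}
    (mA : ∀ d e, T d ⊆ T e → KA d → KA e) (mB : ∀ d e, T d ⊆ T e → KB d → KB e)
    {c1 c2 : V → Prop} (p1 : ∀ d ∈ D, ∀ e ∈ D, Ov T d e → (c1 d ↔ ¬ c1 e))
    (p2 : ∀ d ∈ D, ∀ e ∈ D, Ov T d e → (c2 d ↔ ¬ c2 e))
    (k1 : ∀ d ∈ D, KA d → ¬ c1 d) (k2 : ∀ d ∈ D, KB d → ¬ c2 d)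
    (nb : ∀ m d, Even m → ¬ CleanChain D T KA KB m d) :
    ∃ c : V → Prop, (∀ d ∈ D, ∀ e ∈ D, Ov T d e → (c d ↔ ¬ c e)) ∧
      (∀ d ∈ D, KA d → ¬ c d) ∧ (∀ d ∈ D, KB d → c d) := by
  set R : V → V → Prop := fun a b => a ∈ D ∧ b ∈ D ∧ Ov T a b with hR
  have hRs : ∀ a b, R a b → R b a := fun a b h => ⟨h.2.1, h.1, h.2.2.symm⟩
  set Q : V → Prop := fun d => ∃ f ∈ D, KB f ∧ Relation.ReflTransGen R d f with hQ
  have hQc : ∀ a b, R a b → (Q a ↔ Q b) := by
    intro a b h
    constructor
    · rintro ⟨f, hf, hf', h'⟩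
      exact ⟨f, hf, hf', Relation.ReflTransGen.head (hRs _ _ h) h'⟩
    · rintro ⟨f, hf, hf', h'⟩
      exact ⟨f, hf, hf', Relation.ReflTransGen.head h h'⟩
  refine ⟨fun d => if Q d then ¬ c2 d else c1 d, ?_, ?_, ?_⟩
  · intro d hd e he hde
    have h := hQc d e ⟨hd, he, hde⟩
    beta_reduce
    by_cases hq : Q d
    · rw [if_pos hq, if_pos (h.mp hq), p2 d hd e he hde]
    · rw [if_neg hq, if_neg (fun h' => hq (h.mpr h')), p1 d hd e he hde]
  · intro d hd hA
    beta_reduce
    by_cases hq : Q d
    · rw [if_pos hq]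
      intro hc2
      obtain ⟨f, hf, hBf, hdf⟩ := hq
      have hex : ∃ (m : ℕ) (g : ℕ → V), (∀ i ≤ m, g i ∈ D) ∧ (∀ i < m, Ov T (g i) (g (i + 1))) ∧
          KA (g 0) ∧ ¬ c2 (g 0) ∧ KB (g m) := by
        obtain ⟨m, g, g0, gm, gs⟩ := exists_path_of_rtg hdf
        refine ⟨m, g, fun i hi => ?_, fun i hi => (gs i hi).2.2, by rw [g0]; exact hA,
          by rw [g0]; exact hc2, by rw [gm]; exact hBf⟩
        rcases Nat.lt_or_ge i m with h | h
        · exact (gs i h).1
        · have : i = m := by omega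
          rw [this, gm]; exact hf
      have hmin := fun (k : ℕ) (hk : k < Nat.find hex) => Nat.find_min hex hk
      obtain ⟨g, gD, gov, gA, gc, gB⟩ := Nat.find_spec hex
      set m := Nat.find hex with hm
      have par2 : ∀ i ≤ m, (c2 (g i) ↔ Odd i) := by
        intro i
        induction i with
        | zero => intro _; simp [gc]
        | succ i ih =>
          intro hi
          have h1 := ih (by omega)
          have h2 := p2 _ (gD i (by omega)) _ (gD (i + 1) hi) (gov i (by omega))
          rw [h1] at h2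
          rw [Nat.odd_add_one]
          tauto
      have par1 : ∀ i ≤ m, (c1 (g i) ↔ Odd i) := by
        intro i
        induction i with
        | zero => intro _; simp [k1 _ (gD 0 (by omega)) gA]
        | succ i ih =>
          intro hi
          have h1 := ih (by omega)
          have h2 := p1 _ (gD i (by omega)) _ (gD (i + 1) hi) (gov i (by omega))
          rw [h1] at h2
          rw [Nat.odd_add_one]
          tauto
      have hev : Even m := by
        rw [← Nat.not_odd_iff_even, ← par2 m le_rfl]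
        exact k2 _ (gD m le_rfl) gB
      have hnA : ∀ i, 0 < i → i ≤ m → ¬ KA (g i) := by
        intro i hi him hcon
        have h1 := k1 _ (gD i him) hcon
        have h2 : ¬ c2 (g i) := by rw [par2 i him, ← par1 i him]; exact h1
        apply hmin (m - i) (by omega)
        refine ⟨fun k => g (k + i), fun k hk => gD _ (by omega), fun k hk => ?_,
          by simpa using hcon, by simpa using h2, ?_⟩
        · show Ov T (g (k + i)) (g (k + 1 + i))
          rw [show k + 1 + i = k + i + 1 by omega]
          exact gov _ (by omega)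
        · show KB (g (m - i + i))
          rw [show m - i + i = m by omega]; exact gB
      have hnB : ∀ i, i < m → ¬ KB (g i) := by
        intro i hi hcon
        exact hmin i hi ⟨g, fun k hk => gD k (by omega), fun k hk => gov k (by omega), gA, gc,
          hcon⟩
      have hno : ∀ i j, i + 2 ≤ j → j ≤ m → ¬ Ov T (g i) (g j) := by
        intro i j hij hj hcon
        obtain ⟨g', h1, h2, h3, h4⟩ := path_shortcut (R := Ov T) gov (by omega) hj hcon
        apply hmin (m - (j - i) + 1) (by omega)
        refine ⟨g', fun k hk => ?_, h3, by rw [h1]; exact gA, by rw [h1]; exact gc,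
          by rw [h2]; exact gB⟩
        obtain ⟨k', hk', h5⟩ := h4 k hk
        rw [h5]; exact gD k' hk'
      have hclean := clean_chain (P := KA) (Q := KB) gov hno
        (fun i j _ _ hsub h => mA _ _ hsub h) (fun i j _ _ hsub h => mB _ _ hsub h)
        gA hnA gB hnB
      exact nb m g hev ⟨gD, gov, hclean, gA, gB, hnA, hnB⟩
    · rw [if_neg hq]; exact k1 d hd hA
  · intro d hd hB
    beta_reduce
    have hq : Q d := ⟨d, hd, hB, Relation.ReflTransGen.refl⟩
    rw [if_pos hq]
    exact k2 d hd hB

end Pool.Agent.Lib.MP_50b720_co
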