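import Pool.Agent.Lib.MP_50b720_co.Full.PatEnd

set_option autoImplicit false

namespace Pool.Agent.Lib.MP_50b720_co

open SimpleGraph

variable {V : Type*} {G : SimpleGraph V} {A B S Dd W : Set V}

lemma cross4_aux (hG : NoListed G) (hc : SepConf G A B S Dd W) {x0 x1 x2 x3 a0 a1 b0 b1 : V}
    (h0 : x0 ∈ S) (h1 : x1 ∈ S) (h2 : x2 ∈ S) (h3 : x3 ∈ S)
    (n01 : x0 ≠ x1) (n02 : x0 ≠ x2) (n03 : x0 ≠ x3) (n12 : x1 ≠ x2) (n13 : x1 ≠ x3)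
    (n23 : x2 ≠ x3) (ha0 : a0 ∈ A) (ha1 : a1 ∈ A) (hb0 : b0 ∈ B) (hb1 : b1 ∈ B)
    (f_x0_a0 : G.Adj x0 a0) (f_x1_a0 : G.Adj x1 a0) (f_x2_a0 : G.Adj x2 a0)
    (f_x3_a0 : G.Adj x3 a0) (f_x0_b0 : G.Adj x0 b0) (f_x1_b0 : G.Adj x1 b0)
    (f_x2_b0 : G.Adj x2 b0) (f_x3_b0 : G.Adj x3 b0) (f_a0_a1 : G.Adj a0 a1)
    (f_b0_b1 : G.Adj b0 b1) (f_x0_a1 : G.Adj x0 a1) (f_x1_a1 : G.Adj x1 a1)
    (m_x2_a1 : ¬ G.Adj x2 a1) (m_x3_a1 : ¬ G.Adj x3 a1) (f_x0_b1 : G.Adj x0 b1)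
    (m_x1_b1 : ¬ G.Adj x1 b1) (f_x2_b1 : G.Adj x2 b1) (m_x3_b1 : ¬ G.Adj x3 b1) : False := by
  have f_x0_x1 := hc.clq _ h0 _ h1 n01
  have f_x0_x2 := hc.clq _ h0 _ h2 n02
  have f_x0_x3 := hc.clq _ h0 _ h3 n03
  have f_x1_x2 := hc.clq _ h1 _ h2 n12
  have f_x1_x3 := hc.clq _ h1 _ h3 n13
  have f_x2_x3 := hc.clq _ h2 _ h3 n23
  have f_x2_a1 : NA G x2 a1 := ⟨(hc.neAS ha1 h2).symm, m_x2_a1⟩
  have f_x3_a1 : NA G x3 a1 := ⟨(hc.neAS ha1 h3).symm, m_x3_a1⟩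
  have f_x1_b1 : NA G x1 b1 := ⟨(hc.neBS hb1 h1).symm, m_x1_b1⟩
  have f_x3_b1 : NA G x3 b1 := ⟨(hc.neBS hb1 h3).symm, m_x3_b1⟩
  have f_a0_b0 := hc.naAB ha0 hb0
  have f_a0_b1 := hc.naAB ha0 hb1
  have f_a1_b0 := hc.naAB ha1 hb0
  have f_a1_b1 := hc.naAB ha1 hb1
  exact sp13_false hG f_x0_x1 f_x0_x2 f_x0_x3 f_x0_a0 f_x0_a1 f_x0_b0 f_x0_b1 f_x1_x2 f_x1_x3
      f_x1_a0 f_x1_a1 f_x1_b0 f_x1_b1 f_x2_x3 f_x2_a0 f_x2_a1 f_x2_b0 f_x2_b1 f_x3_a0 f_x3_a1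
      f_x3_b0 f_x3_b1 f_a0_a1 f_a0_b0 f_a0_b1 f_a1_b0 f_a1_b1 f_b0_b1

lemma exists_cert4 [Finite V] (hG : IsChordal G) (hA : Cn G A)
    (hAS : Disjoint A S) (hclq : ∀ s ∈ S, ∀ t ∈ S, s ≠ t → G.Adj s t)
    (hf : ∀ s ∈ S, ∃ x ∈ A, G.Adj s x) {s t u v : V} (hs : s ∈ S) (ht : t ∈ S) (hu : u ∈ S)
    (hv : v ∈ S) (h1 : Tw G A s u) (h2 : Tw G A t v) (h3 : ¬ Tw G A s t) :
    ∃ a0 ∈ A, ∃ a1 ∈ A, G.Adj s a0 ∧ G.Adj t a0 ∧ G.Adj u a0 ∧ G.Adj v a0 ∧ G.Adj a0 a1 ∧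
      ((G.Adj s a1 ∧ G.Adj u a1 ∧ ¬ G.Adj t a1 ∧ ¬ G.Adj v a1) ∨
        (¬ G.Adj s a1 ∧ ¬ G.Adj u a1 ∧ G.Adj t a1 ∧ G.Adj v a1)) := by
  set U : Set V := {s, t, u, v} with hU
  have hUS : ∀ x ∈ U, x ∈ S := by
    rintro x (rfl | rfl | rfl | rfl)
    exacts [hs, ht, hu, hv]
  have key : ∀ x ∈ U, ∀ y ∈ U, (∃ a ∈ A, G.Adj a x ∧ ¬ G.Adj a y) →
      ∃ c ∈ A, ∃ y ∈ A, (∀ u ∈ U, G.Adj c u) ∧ G.Adj c y ∧ (∃ s ∈ U, G.Adj y s) ∧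
      ∃ t' ∈ U, ¬ G.Adj y t' := by
    rintro x hx y hy ⟨a, ha, h4, h5⟩
    obtain ⟨c, hc, y, hy, g1, g2, g3, g4⟩ := cert hG (U := U) hA
      (fun z hz hzA => Set.disjoint_left.mp hAS hzA (hUS z hz))
      (fun z hz w hw => hclq z (hUS z hz) w (hUS w hw)) (fun z hz => hf z (hUS z hz)) hx hy ha
      h4 h5
    exact ⟨c, hc, y, hy, g1, g2, ⟨x, hx, g3⟩, g4⟩
  have hex : ∃ c ∈ A, ∃ y ∈ A, (∀ u ∈ U, G.Adj c u) ∧ G.Adj c y ∧ (∃ s ∈ U, G.Adj y s) ∧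
      ∃ t' ∈ U, ¬ G.Adj y t' := by
    by_contra hcon
    apply h3
    intro x hx
    constructor
    · intro h4
      by_contra h5
      exact hcon (key s (by simp [hU]) t (by simp [hU]) ⟨x, hx, h4, h5⟩)
    · intro h4
      by_contra h5
      exact hcon (key t (by simp [hU]) s (by simp [hU]) ⟨x, hx, h4, h5⟩)
  obtain ⟨c, hc, y, hy, g1, g2, ⟨p, hp, g3⟩, ⟨q, hq, g4⟩⟩ := hex
  refine ⟨c, hc, y, hy, (g1 s (by simp [hU])).symm, (g1 t (by simp [hU])).symm,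
    (g1 u (by simp [hU])).symm, (g1 v (by simp [hU])).symm, g2, ?_⟩
  have e1 := h1 y hy
  have e2 := h2 y hy
  rw [G.adj_comm s, G.adj_comm u, G.adj_comm t, G.adj_comm v]
  by_cases k1 : G.Adj y s
  · left
    refine ⟨k1, e1.mp k1, fun h => ?_, fun h => ?_⟩
    · rcases hq with rfl | rfl | rfl | rfl
      exacts [g4 k1, g4 h, g4 (e1.mp k1), g4 (e2.mp h)]
    · rcases hq with rfl | rfl | rfl | rfl
      exacts [g4 k1, g4 (e2.mpr h), g4 (e1.mp k1), g4 h]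
  · right
    have k2 : G.Adj y t := by
      rcases hp with rfl | rfl | rfl | rfl
      exacts [absurd g3 k1, g3, absurd (e1.mpr g3) k1, e2.mpr g3]
    exact ⟨k1, fun h => k1 (e1.mpr h), k2, e2.mp k2⟩

/-- **Quadruples.** -/
theorem cross4_holds [Finite V] (hG : NoListed G) (hc : SepConf G A B S Dd W) :
    Cross4 S (Tw G A) (Tw G B) := by
  intro s hs t ht u hu v hv h1 h2 h3 h4 h5 h6
  have nst : s ≠ t := fun h => h5 (h ▸ Tw.refl _ _ _)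
  have nsu : s ≠ u := fun h => h6 (by rw [h]; exact h3.symm)
  have nsv : s ≠ v := fun h => h5 (by rw [h]; exact h2.symm)
  have ntu : t ≠ u := fun h => h5 (by rw [h]; exact h1)
  have ntv : t ≠ v := fun h => h6 (by rw [h]; exact h4)
  have nuv : u ≠ v := fun h => h5 (h1.trans (h ▸ h2.symm))
  obtain ⟨a0, ha0, a1, ha1, e1, e2, e3, e4, e5, tya⟩ := exists_cert4 hG.ch hc.cA hc.dAS hc.clq
    hc.fA hs ht hu hv h1 h2 h5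
  obtain ⟨b0, hb0, b1, hb1, g1, g2, g3, g4, g5, tyb⟩ := exists_cert4 hG.ch hc.cB hc.dBS hc.clq
    hc.fB hs ht hv hu h4 h3 h6
  rcases tya with ⟨i1, i2, i3, i4⟩ | ⟨i1, i2, i3, i4⟩ <;>
    rcases tyb with ⟨j1, j2, j3, j4⟩ | ⟨j1, j2, j3, j4⟩
  · exact cross4_aux hG hc (x0 := s) (x1 := u) (x2 := v) (x3 := t) hs hu hv ht nsu nsv nst nuv
      ntu.symm ntv.symm ha0 ha1 hb0 hb1 e1 e3 e4 e2 g1 g4 g3 g2 e5 g5 i1 i2 i4 i3 j1 j4 j2 j3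
  · exact cross4_aux hG hc (x0 := u) (x1 := s) (x2 := t) (x3 := v) hu hs ht hv nsu.symm
      ntu.symm nuv nst nsv ntv ha0 ha1 hb0 hb1 e3 e1 e2 e4 g4 g1 g2 g3 e5 g5 i2 i1 i3 i4 j4 j1
      j3 j2
  · exact cross4_aux hG hc (x0 := v) (x1 := t) (x2 := s) (x3 := u) hv ht hs hu ntv.symm
      nsv.symm nuv.symm nst.symm ntu nsu ha0 ha1 hb0 hb1 e4 e2 e1 e3 g3 g2 g1 g4 e5 g5 i4 i3 i1
      i2 j2 j3 j1 j4
  · exact cross4_aux hG hc (x0 := t) (x1 := v) (x2 := u) (x3 := s) ht hv hu hs ntv ntu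
      nst.symm nuv.symm nsv.symm nsu.symm ha0 ha1 hb0 hb1 e2 e4 e3 e1 g2 g3 g4 g1 e5 g5 i3 i4
      i2 i1 j3 j2 j4 j1

/-- **Main theorem on separating configurations.** -/
theorem conf_circ [Finite V] (hG : NoListed G) (hc : SepConf G A B S Dd W) {a0 b0 : V}
    (ha0 : a0 ∈ A) (ha0S : ∀ s ∈ S, G.Adj s a0) (hb0 : b0 ∈ B) (hb0S : ∀ s ∈ S, G.Adj s b0)
    (hA : Circ G (A ∪ Dd ∪ S ∪ {b0})) (hB : Circ G (B ∪ Dd ∪ S ∪ {a0})) :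
    Circ G (A ∪ Dd ∪ B ∪ S ∪ W) := by
  obtain ⟨l1, r1, α, c1, bA⟩ := exists_blockData hA hc.cA
    (fun h => Set.disjoint_left.mp hc.dAB h hb0) (fun h => Set.disjoint_left.mp hc.dBD hb0 h)
    (fun h => Set.disjoint_left.mp hc.dBS hb0 h) hc.dAS hc.dDS hc.dAD hc.clq hb0S
    (fun x hx => hc.nAB x hx b0 hb0) (fun x hx => hc.nDB x hx b0 hb0) hc.fA
    (fun d hd x hx h => hc.nDA d hd x hx h.symm) hc.nDD hc.Dpr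
  obtain ⟨l2, r2, β, c2, bB⟩ := exists_blockData hB hc.cB
    (fun h => Set.disjoint_left.mp hc.dAB ha0 h) (fun h => Set.disjoint_left.mp hc.dAD ha0 h)
    (fun h => Set.disjoint_left.mp hc.dAS ha0 h) hc.dBS hc.dDS hc.dBD hc.clq ha0S
    (fun x hx h => hc.nAB a0 ha0 x hx h.symm) (fun x hx => hc.nDA x hx a0 ha0) hc.fB
    (fun d hd x hx h => hc.nDB d hd x hx h.symm) hc.nDD hc.Dpr
  have h1 := bA.sideOrd hG.ch hc.cA hc.dAS hc.clq hc.fA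
  have h2 := bB.sideOrd hG.ch hc.cB hc.dBS hc.clq hc.fB
  rcases sign_lemma h1 h2 (endMid_holds hG hc bA.rep bB.rep) (endMid_holds hG hc.symm bB.rep
    bA.rep) (cross4_holds hG hc) with hag | hag
  · exact realize hG.ch hc bA bB hag (ii0_holds hG hc) (bc_holds hG hc) (rc_holds hG hc)
  · exact realize hG.ch hc bA bB.neg hag (ii0_holds hG hc) (bc_holds hG hc) (rc_holds hG hc)

end Pool.Agent.Lib.MP_50b720_co
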