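import Pool.Agent.Lib.MP_50b720_co.Full.SplitCase

set_option autoImplicit false

namespace Pool.Agent.Lib.MP_50b720_co

open SimpleGraph

variable {V : Type*} {G : SimpleGraph V}

/-- a root `v` with `K = S ∪ {w}` and `E = {y}` -/
structure CutConf (G : SimpleGraph V) (K D S Dv : Set V) (w y v : V) : Prop where
  spl : Spl G K D
  SK : S ⊆ K
  wK : w ∈ K
  yD : y ∈ D
  vD : v ∈ D
  DD : Dv ⊆ D
  vS : ∀ s ∈ S, G.Adj v s
  vw : ¬ G.Adj v w
  yw : G.Adj y w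
  dw : ∀ d ∈ Dv, ¬ G.Adj d w
  Dpr : ∀ d ∈ Dv, ∃ s ∈ S, ¬ G.Adj d s
  anti : ∀ d ∈ Dv, ∀ e ∈ Dv, d ≠ e → ∃ s ∈ S, G.Adj d s ∧ ¬ G.Adj e s

section

variable {K D S Dv : Set V} {w y v : V}

lemma CutConf.csunv (hG : NoListed G) (h : CutConf G K D S Dv w y v) {d e a b c : V}
    (hd : d ∈ Dv) (he : e ∈ Dv) (ha : a ∈ S) (hb : b ∈ S) (hc : c ∈ S) (da : G.Adj d a)
    (ea : G.Adj e a) (ya : ¬ G.Adj y a) (db : G.Adj d b) (eb : ¬ G.Adj e b) (yb : G.Adj y b)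
    (dc : ¬ G.Adj d c) (ec : G.Adj e c) (yc : G.Adj y c) : False := by
  have hs := h.spl
  have kS := h.SK
  have kD := h.DD
  have n : ∀ f ∈ Dv, NA G v f := fun f hf => by
    obtain ⟨s, hs', hfs⟩ := h.Dpr f hf
    exact hs.naD h.vD (kD hf) (h.vS s hs') hfs
  have vw := h.vw
  exact csun3_false hG (v0 := a) (v1 := b) (v2 := c) (v3 := v) (v4 := d) (v5 := y) (v6 := e)
    (hs.adjK (kS hb) (kS ha) yb ya).symm (hs.adjK (kS hc) (kS ha) yc ya).symm (h.vS a ha).symm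
    da.symm (hs.na h.yD (kS ha) ya) ea.symm (hs.adjK (kS hb) (kS hc) db dc) (h.vS b hb).symm
    db.symm yb.symm (hs.na (kD he) (kS hb) eb) (h.vS c hc).symm (hs.na (kD hd) (kS hc) dc)
    yc.symm ec.symm (n d hd) (hs.naD h.vD h.yD (h.vS a ha) ya) (n e he)
    (hs.naD (kD hd) h.yD da ya) (hs.naD (kD hd) (kD he) db eb) (hs.naD h.yD (kD he) yb eb)

/-- `d` is broken by `y` -/
def Brok (G : SimpleGraph V) (S : Set V) (y d : V) : Prop :=
  (∃ s ∈ S, G.Adj d s ∧ G.Adj y s) ∧ ∃ s ∈ S, G.Adj d s ∧ ¬ G.Adj y s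

lemma CutConf.two_aux (hG : NoListed G) (h : CutConf G K D S Dv w y v) {d e : V}
    (hd : d ∈ Dv) (he : e ∈ Dv) (hde : d ≠ e) (bd : Brok G S y d) {p : V}
    (hp : p ∈ S) (p1 : G.Adj d p) (p2 : G.Adj e p) (p3 : G.Adj y p)
    (hno : ¬ ∃ s ∈ S, G.Adj d s ∧ ¬ G.Adj e s ∧ ¬ G.Adj y s) : False := by
  push Not at hno
  obtain ⟨_, s3, hs3, a1, a2⟩ := bd
  have a3 : G.Adj e s3 := by
    by_contra hcon
    exact a2 (hno s3 hs3 a1 hcon)
  obtain ⟨s4, hs4, b1, b2⟩ := h.anti d hd e he hde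
  have b3 : G.Adj y s4 := hno s4 hs4 b1 b2
  obtain ⟨s5, hs5, c1, c2⟩ := h.anti e he d hd hde.symm
  by_cases c3 : G.Adj y s5
  · exact h.csunv hG hd he hs3 hs4 hs5 a1 a3 a2 b1 b2 b3 c2 c1 c3
  · exact h.spl.h819_false hG (k0 := p) (k1 := s5) (k2 := s3) (k3 := s4) (k4 := w) (d0 := e)
      (d1 := d) (d2 := y) (h.SK hp) (h.SK hs5) (h.SK hs3) (h.SK hs4) h.wK (h.DD he) (h.DD hd)
      h.yD p2 c1 a3 b2 (h.dw e he) p1 c2 a1 b1 (h.dw d hd) p3 c3 a2 b3 h.yw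

/-- at most one member is broken -/
lemma CutConf.two_broken (hG : NoListed G) (h : CutConf G K D S Dv w y v) {d e : V}
    (hd : d ∈ Dv) (he : e ∈ Dv) (hde : d ≠ e) (bd : Brok G S y d) (be : Brok G S y e) :
    False := by
  by_cases hx : ∃ s ∈ S, G.Adj d s ∧ G.Adj e s
  · by_cases hp : ∃ p ∈ S, G.Adj d p ∧ G.Adj e p ∧ G.Adj y p
    · obtain ⟨p, hpS, p1, p2, p3⟩ := hp
      by_cases h1 : ∃ s ∈ S, G.Adj d s ∧ ¬ G.Adj e s ∧ ¬ G.Adj y s
      · by_cases h2 : ∃ s ∈ S, G.Adj e s ∧ ¬ G.Adj d s ∧ ¬ G.Adj y s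
        · obtain ⟨s1, hs1, a1, a2, a3⟩ := h1
          obtain ⟨s2, hs2, b1, b2, b3⟩ := h2
          exact h.spl.star_false hG (k0 := p) (k1 := w) (k2 := s1) (k3 := s2) (d0 := y) (d1 := d)
            (d2 := e) (h.SK hpS) h.wK (h.SK hs1) (h.SK hs2) h.yD (h.DD hd) (h.DD he) p3 h.yw a3
            b3 p1 (h.dw d hd) a1 b2 p2 (h.dw e he) a2 b1
        · exact h.two_aux hG he hd hde.symm be hpS p2 p1 p3 h2
      · exact h.two_aux hG hd he hde bd hpS p1 p2 p3 h1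
    · push Not at hp
      obtain ⟨a, ha, a1, a2⟩ := hx
      obtain ⟨⟨b, hb, b1, b2⟩, _⟩ := bd
      obtain ⟨⟨c, hc, c1, c2⟩, _⟩ := be
      exact h.csunv hG hd he ha hb hc a1 a2 (hp a ha a1 a2) b1 (fun h' => hp b hb b1 h' b2) b2
        (fun h' => hp c hc h' c1 c2) c1 c2
  · push Not at hx
    obtain ⟨⟨a, ha, a1, a2⟩, ⟨b, hb, b1, b2⟩⟩ := bd
    obtain ⟨⟨a', ha', a1', a2'⟩, ⟨b', hb', b1', b2'⟩⟩ := be
    exact h.spl.h921_false hG (k0 := w) (k1 := b) (k2 := b') (k3 := a) (k4 := a') (d0 := v)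
      (d1 := y) (d2 := d) (d3 := e) h.wK (h.SK hb) (h.SK hb') (h.SK ha) (h.SK ha') h.vD h.yD
      (h.DD hd) (h.DD he) h.vw (h.vS b hb) (h.vS b' hb') (h.vS a ha) (h.vS a' ha') h.yw b2 b2'
      a2 a2' (h.dw d hd) b1 (fun h' => hx b' hb' h' b1') a1 (fun h' => hx a' ha' h' a1')
      (h.dw e he) (hx b hb b1) b1' (hx a ha a1) a1'

end

/-- moving the part of `b` to the end -/
lemma suffix_order [Finite V] {S X Dx : Set V} {b g : V} {τ : V → ℤ} (hXS : X ⊆ S)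
    (inj : ∀ s ∈ S, ∀ t ∈ S, s ≠ t → τ s ≠ τ t) (hg : g ∈ S) (hgX : g ∉ X) (hbg : G.Adj b g)
    (hb : ∀ s ∈ S, ∀ t ∈ S, ∀ u ∈ S, τ s < τ t → τ t < τ u → G.Adj b s → G.Adj b u → G.Adj b t)
    (hD : ∀ d ∈ Dx, ∀ s ∈ S, G.Adj d s → s ∈ X)
    (hconv : ∀ d ∈ Dx, ∀ s ∈ S, ∀ t ∈ S, ∀ u ∈ S, τ s < τ t → τ t < τ u → G.Adj d s →
      G.Adj d u → G.Adj d t)
    (hR : ∀ d ∈ Dx, ∀ s ∈ X, ∀ t ∈ X, G.Adj d s → G.Adj d t → G.Adj b s → ¬ G.Adj b t →
      τ g < τ s → False) :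
    ∃ σ : V → ℤ, (∀ s ∈ X, ∀ t ∈ X, s ≠ t → σ s ≠ σ t) ∧
      (∀ d ∈ Dx, ∀ s ∈ X, ∀ t ∈ X, ∀ u ∈ X, σ s < σ t → σ t < σ u → G.Adj d s →
        G.Adj d u → G.Adj d t) ∧
      ∀ s ∈ X, ∀ t ∈ X, G.Adj b s → ¬ G.Adj b t → σ t < σ s := by
  classical
  obtain ⟨N, hN, hbd⟩ := exists_bound τ τ
  set Z : V → Prop := fun x => τ g < τ x ∧ ¬ G.Adj b x with hZ
  set σ : V → ℤ := fun x => if Z x then τ x - 2 * N else τ x with hσ
  have z1 : ∀ x, Z x → σ x = τ x - 2 * N := fun x hx => by simp only [hσ]; rw [if_pos hx]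
  have z2 : ∀ x, ¬ Z x → σ x = τ x := fun x hx => by simp only [hσ]; rw [if_neg hx]
  have gne : ∀ x ∈ X, τ x ≠ τ g := fun x hx => inj x (hXS hx) g hg (fun h' => hgX (h' ▸ hx))
  have side : ∀ d ∈ Dx, ∀ s ∈ X, ∀ t ∈ X, G.Adj d s → G.Adj d t → (τ g < τ s ↔ τ g < τ t) := by
    intro d hd s hs t ht h1 h2
    have e1 := gne s hs
    have e2 := gne t ht
    constructor
    · intro h3
      by_contra h4
      exact hgX (hD d hd g hg (hconv d hd t (hXS ht) g hg s (hXS hs) (by omega) h3 h2 h1))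
    · intro h3
      by_contra h4
      exact hgX (hD d hd g hg (hconv d hd s (hXS hs) g hg t (hXS ht) (by omega) h3 h1 h2))
  have bs := fun x => hbd x
  refine ⟨σ, ?_, ?_, ?_⟩
  · intro s hs t ht hst
    have e1 := inj s (hXS hs) t (hXS ht) hst
    have := bs s
    have := bs t
    by_cases h1 : Z s <;> by_cases h2 : Z t
    · rw [z1 s h1, z1 t h2]; omega
    · rw [z1 s h1, z2 t h2]; omega
    · rw [z2 s h1, z1 t h2]; omega
    · rw [z2 s h1, z2 t h2]; omega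
  · intro d hd s hs t ht u hu h1 h2 h3 h4
    have sd := side d hd s hs u hu h3 h4
    have := bs s
    have := bs t
    have := bs u
    have cv := hconv d hd s (hXS hs) t (hXS ht) u (hXS hu)
    by_cases k1 : Z s
    · rw [z1 s k1] at h1
      by_cases k2 : Z u
      · rw [z1 u k2] at h2
        by_cases k3 : Z t
        · rw [z1 t k3] at h1 h2; exact cv (by omega) (by omega) h3 h4
        · rw [z2 t k3] at h2; omega
      · have k4 : G.Adj b u := by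
          by_contra h5
          exact k2 ⟨sd.mp k1.1, h5⟩
        exact absurd (hR d hd u hu s hs h4 h3 k4 k1.2 (sd.mp k1.1)) id
    · rw [z2 s k1] at h1
      have k3 : ¬ Z t := fun k3 => by rw [z1 t k3] at h1; omega
      rw [z2 t k3] at h1 h2
      by_cases k2 : Z u
      · rw [z1 u k2] at h2; omega
      · rw [z2 u k2] at h2
        exact cv h1 h2 h3 h4
  · intro s hs t ht h1 h2
    have := bs s
    have := bs t
    have k1 : ¬ Z s := fun h' => h'.2 h1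
    rw [z2 s k1]
    by_cases k2 : Z t
    · rw [z1 t k2]; omega
    · rw [z2 t k2]
      have e1 := gne t ht
      have e2 : τ t < τ g := by
        by_contra h3
        exact k2 ⟨by omega, h2⟩
      have e3 := inj s (hXS hs) t (hXS ht) (fun h' => h2 (h' ▸ h1))
      by_contra h3
      exact h2 (hb s (hXS hs) t (hXS ht) g hg (by omega) e2 h1 hbg)

/-- version with both directions -/
lemma suffix_order' [Finite V] {S X Dx : Set V} {b g : V} {τ : V → ℤ} (hXS : X ⊆ S)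
    (inj : ∀ s ∈ S, ∀ t ∈ S, s ≠ t → τ s ≠ τ t) (hg : g ∈ S) (hgX : g ∉ X) (hbg : G.Adj b g)
    (hb : ∀ s ∈ S, ∀ t ∈ S, ∀ u ∈ S, τ s < τ t → τ t < τ u → G.Adj b s → G.Adj b u → G.Adj b t)
    (hD : ∀ d ∈ Dx, ∀ s ∈ S, G.Adj d s → s ∈ X)
    (hconv : ∀ d ∈ Dx, ∀ s ∈ S, ∀ t ∈ S, ∀ u ∈ S, τ s < τ t → τ t < τ u → G.Adj d s →
      G.Adj d u → G.Adj d t)
    (hRL : ∀ d ∈ Dx, ∀ s ∈ X, ∀ t ∈ X, G.Adj d s → G.Adj d t → G.Adj b s → ¬ G.Adj b t →
      ∀ e ∈ Dx, ∀ s' ∈ X, ∀ t' ∈ X, G.Adj e s' → G.Adj e t' → G.Adj b s' → ¬ G.Adj b t' →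
      ¬ G.Adj d s' → ¬ G.Adj d t' → ¬ G.Adj e s → ¬ G.Adj e t → False) :
    ∃ σ : V → ℤ, (∀ s ∈ X, ∀ t ∈ X, s ≠ t → σ s ≠ σ t) ∧
      (∀ d ∈ Dx, ∀ s ∈ X, ∀ t ∈ X, ∀ u ∈ X, σ s < σ t → σ t < σ u → G.Adj d s →
        G.Adj d u → G.Adj d t) ∧
      ∀ s ∈ X, ∀ t ∈ X, G.Adj b s → ¬ G.Adj b t → σ t < σ s := by
  have gne : ∀ x ∈ X, τ x ≠ τ g := fun x hx => inj x (hXS hx) g hg (fun h' => hgX (h' ▸ hx))
  have side : ∀ d ∈ Dx, ∀ s ∈ X, ∀ t ∈ X, G.Adj d s → G.Adj d t → (τ g < τ s ↔ τ g < τ t) := by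
    intro d hd s hs t ht h1 h2
    have e1 := gne s hs
    have e2 := gne t ht
    constructor
    · intro h3
      by_contra h4
      exact hgX (hD d hd g hg (hconv d hd t (hXS ht) g hg s (hXS hs) (by omega) h3 h2 h1))
    · intro h3
      by_contra h4
      exact hgX (hD d hd g hg (hconv d hd s (hXS hs) g hg t (hXS ht) (by omega) h3 h1 h2))
  by_cases hR : ∀ d ∈ Dx, ∀ s ∈ X, ∀ t ∈ X, G.Adj d s → G.Adj d t → G.Adj b s → ¬ G.Adj b t →
      τ g < τ s → False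
  · exact suffix_order hXS inj hg hgX hbg hb hD hconv hR
  · push Not at hR
    obtain ⟨d, hd, s, hs, t, ht, a1, a2, a3, a4, a5⟩ := hR
    refine suffix_order (τ := fun x => - τ x) hXS ?_ hg hgX hbg ?_ hD ?_ ?_
    · intro s hs t ht hst
      have := inj s hs t ht hst
      beta_reduce; omega
    · intro s hs t ht u hu h1 h2 h3 h4
      beta_reduce at h1 h2
      exact hb u hu t ht s hs (by omega) (by omega) h4 h3
    · intro d hd s hs t ht u hu h1 h2 h3 h4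
      beta_reduce at h1 h2
      exact hconv d hd u hu t ht s hs (by omega) (by omega) h4 h3
    · intro e he s' hs' t' ht' b1 b2 b3 b4 b5
      beta_reduce at b5
      have c1 := side d hd s hs t ht a1 a2
      have c2 := side e he s' hs' t' ht' b1 b2
      have f1 := gne s' hs'
      refine hRL d hd s hs t ht a1 a2 a3 a4 e he s' hs' t' ht' b1 b2 b3 b4 ?_ ?_ ?_ ?_
      · intro h'
        have := side d hd s hs s' hs' a1 h'
        omega
      · intro h'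
        have := side d hd s hs t' ht' a1 h'
        omega
      · intro h'
        have := side e he s' hs' s hs b1 h'
        omega
      · intro h'
        have := side e he s' hs' t ht b1 h'
        omega

end Pool.Agent.Lib.MP_50b720_co
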