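import Pool.Agent.Lib.MP_50b720_co.Full.Structure

set_option autoImplicit false

namespace Pool.Agent.Lib.MP_50b720_co

open SimpleGraph

variable {V : Type*} {G : SimpleGraph V}

lemma book_false (hG : NoListed G) {s t a0 a1 b0 b1 c0 c1 : V}
    (f_s_t : G.Adj s t) (f_s_a0 : G.Adj s a0) (f_t_a0 : G.Adj t a0) (f_s_b0 : G.Adj s b0)
    (f_t_b0 : G.Adj t b0) (f_s_c0 : G.Adj s c0) (f_t_c0 : G.Adj t c0) (f_a0_a1 : G.Adj a0 a1)
    (f_b0_b1 : G.Adj b0 b1) (f_c0_c1 : G.Adj c0 c1) (f_a0_b0 : NA G a0 b0) (f_a0_b1 : NA G a0 b1)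
    (f_a1_b0 : NA G a1 b0) (f_a1_b1 : NA G a1 b1) (f_a0_c0 : NA G a0 c0) (f_a0_c1 : NA G a0 c1)
    (f_a1_c0 : NA G a1 c0) (f_a1_c1 : NA G a1 c1) (f_b0_c0 : NA G b0 c0) (f_b0_c1 : NA G b0 c1)
    (f_b1_c0 : NA G b1 c0) (f_b1_c1 : NA G b1 c1)
    (hta : (G.Adj s a1 ∧ NA G t a1) ∨ (NA G s a1 ∧ G.Adj t a1))
    (htb : (G.Adj s b1 ∧ NA G t b1) ∨ (NA G s b1 ∧ G.Adj t b1))
    (htc : (G.Adj s c1 ∧ NA G t c1) ∨ (NA G s c1 ∧ G.Adj t c1)) :
    False := by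
  rcases hta with ⟨f_s_a1, f_t_a1⟩ | ⟨f_s_a1, f_t_a1⟩ <;>
  rcases htb with ⟨f_s_b1, f_t_b1⟩ | ⟨f_s_b1, f_t_b1⟩ <;>
  rcases htc with ⟨f_s_c1, f_t_c1⟩ | ⟨f_s_c1, f_t_c1⟩
  · exact sp1_false hG f_s_t f_s_a0 f_s_b0 f_s_c0 f_s_a1 f_s_b1 f_s_c1 f_t_a0 f_t_b0 f_t_c0
      f_t_a1 f_t_b1 f_t_c1 f_a0_b0 f_a0_c0 f_a0_a1 f_a0_b1 f_a0_c1 f_b0_c0 f_a1_b0.symm f_b0_b1
      f_b0_c1 f_a1_c0.symm f_b1_c0.symm f_c0_c1 f_a1_b1 f_a1_c1 f_b1_c1
  · exact sp2_false hG f_s_t f_s_a0 f_s_b0 f_s_c0 f_s_a1 f_s_b1 f_s_c1 f_t_a0 f_t_b0 f_t_c0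
      f_t_a1 f_t_b1 f_t_c1 f_a0_b0 f_a0_c0 f_a0_a1 f_a0_b1 f_a0_c1 f_b0_c0 f_a1_b0.symm f_b0_b1
      f_b0_c1 f_a1_c0.symm f_b1_c0.symm f_c0_c1 f_a1_b1 f_a1_c1 f_b1_c1
  · exact sp2_false hG f_s_t f_s_a0 f_s_c0 f_s_b0 f_s_a1 f_s_c1 f_s_b1 f_t_a0 f_t_c0 f_t_b0
      f_t_a1 f_t_c1 f_t_b1 f_a0_c0 f_a0_b0 f_a0_a1 f_a0_c1 f_a0_b1 f_b0_c0.symm f_a1_c0.symm
      f_c0_c1 f_b1_c0.symm f_a1_b0.symm f_b0_c1 f_b0_b1 f_a1_c1 f_a1_b1 f_b1_c1.symm
  · exact sp2_false hG f_s_t.symm f_t_b0 f_t_c0 f_t_a0 f_t_b1 f_t_c1 f_t_a1 f_s_b0 f_s_c0 f_s_a0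
      f_s_b1 f_s_c1 f_s_a1 f_b0_c0 f_a0_b0.symm f_b0_b1 f_b0_c1 f_a1_b0.symm f_a0_c0.symm
      f_b1_c0.symm f_c0_c1 f_a1_c0.symm f_a0_b1 f_a0_c1 f_a0_a1 f_b1_c1 f_a1_b1.symm
      f_a1_c1.symm
  · exact sp2_false hG f_s_t f_s_b0 f_s_c0 f_s_a0 f_s_b1 f_s_c1 f_s_a1 f_t_b0 f_t_c0 f_t_a0
      f_t_b1 f_t_c1 f_t_a1 f_b0_c0 f_a0_b0.symm f_b0_b1 f_b0_c1 f_a1_b0.symm f_a0_c0.symm
      f_b1_c0.symm f_c0_c1 f_a1_c0.symm f_a0_b1 f_a0_c1 f_a0_a1 f_b1_c1 f_a1_b1.symm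
      f_a1_c1.symm
  · exact sp2_false hG f_s_t.symm f_t_a0 f_t_c0 f_t_b0 f_t_a1 f_t_c1 f_t_b1 f_s_a0 f_s_c0 f_s_b0
      f_s_a1 f_s_c1 f_s_b1 f_a0_c0 f_a0_b0 f_a0_a1 f_a0_c1 f_a0_b1 f_b0_c0.symm f_a1_c0.symm
      f_c0_c1 f_b1_c0.symm f_a1_b0.symm f_b0_c1 f_b0_b1 f_a1_c1 f_a1_b1 f_b1_c1.symm
  · exact sp2_false hG f_s_t.symm f_t_a0 f_t_b0 f_t_c0 f_t_a1 f_t_b1 f_t_c1 f_s_a0 f_s_b0 f_s_c0
      f_s_a1 f_s_b1 f_s_c1 f_a0_b0 f_a0_c0 f_a0_a1 f_a0_b1 f_a0_c1 f_b0_c0 f_a1_b0.symm f_b0_b1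
      f_b0_c1 f_a1_c0.symm f_b1_c0.symm f_c0_c1 f_a1_b1 f_a1_c1 f_b1_c1
  · exact sp1_false hG f_s_t.symm f_t_a0 f_t_b0 f_t_c0 f_t_a1 f_t_b1 f_t_c1 f_s_a0 f_s_b0 f_s_c0
      f_s_a1 f_s_b1 f_s_c1 f_a0_b0 f_a0_c0 f_a0_a1 f_a0_b1 f_a0_c1 f_b0_c0 f_a1_b0.symm f_b0_b1
      f_b0_c1 f_a1_c0.symm f_b1_c0.symm f_c0_c1 f_a1_b1 f_a1_c1 f_b1_c1

lemma cube_bool : ∀ a b c d e f g h : Bool,
    ((a || b || c || d) && (e || f || g || h) && (a || b || e || f) && (c || d || g || h) &&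
      (a || c || e || g) && (b || d || f || h)) = true →
    ((a && h) || (b && g) || (c && f) || (d && e) || (e && c && b) || (f && d && a) ||
      (g && a && d) || (h && b && c) || (a && g && f) || (b && h && e) || (c && e && h) ||
      (d && f && g)) = true := by decide

/-- three cuts of a set: some pair is separated by all of them, or some triple is such that each
cut isolates a different element -/
lemma cube_lemma (P : Bool → Bool → Bool → Prop) (h1 : ∀ x, ∃ y z, P x y z)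
    (h2 : ∀ y, ∃ x z, P x y z) (h3 : ∀ z, ∃ x y, P x y z) :
    (∃ x y z, P x y z ∧ P (!x) (!y) (!z)) ∨
      (∃ x y z, P (!x) y z ∧ P x (!y) z ∧ P x y (!z)) := by
  classical
  have hb := cube_bool (decide (P true true true)) (decide (P true true false))
    (decide (P true false true)) (decide (P true false false)) (decide (P false true true))
    (decide (P false true false)) (decide (P false false true)) (decide (P false false false))
  simp only [Bool.and_eq_true, Bool.or_eq_true, decide_eq_true_eq] at hb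
  have b1 : ((P true true true ∨ P true true false) ∨ P true false true) ∨
      P true false false := by
    obtain ⟨y, z, h⟩ := h1 true
    cases y <;> cases z
    exacts [Or.inr h, Or.inl (Or.inr h), Or.inl (Or.inl (Or.inr h)), Or.inl (Or.inl (Or.inl h))]
  have b2 : ((P false true true ∨ P false true false) ∨ P false false true) ∨
      P false false false := by
    obtain ⟨y, z, h⟩ := h1 false
    cases y <;> cases z
    exacts [Or.inr h, Or.inl (Or.inr h), Or.inl (Or.inl (Or.inr h)), Or.inl (Or.inl (Or.inl h))]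
  have b3 : ((P true true true ∨ P true true false) ∨ P false true true) ∨
      P false true false := by
    obtain ⟨y, z, h⟩ := h2 true
    cases y <;> cases z
    exacts [Or.inr h, Or.inl (Or.inr h), Or.inl (Or.inl (Or.inr h)), Or.inl (Or.inl (Or.inl h))]
  have b4 : ((P true false true ∨ P true false false) ∨ P false false true) ∨
      P false false false := by
    obtain ⟨y, z, h⟩ := h2 false
    cases y <;> cases z
    exacts [Or.inr h, Or.inl (Or.inr h), Or.inl (Or.inl (Or.inr h)), Or.inl (Or.inl (Or.inl h))]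
  have b5 : ((P true true true ∨ P true false true) ∨ P false true true) ∨
      P false false true := by
    obtain ⟨y, z, h⟩ := h3 true
    cases y <;> cases z
    exacts [Or.inr h, Or.inl (Or.inr h), Or.inl (Or.inl (Or.inr h)), Or.inl (Or.inl (Or.inl h))]
  have b6 : ((P true true false ∨ P true false false) ∨ P false true false) ∨
      P false false false := by
    obtain ⟨y, z, h⟩ := h3 false
    cases y <;> cases z
    exacts [Or.inr h, Or.inl (Or.inr h), Or.inl (Or.inl (Or.inr h)), Or.inl (Or.inl (Or.inl h))]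
  rcases hb ⟨⟨⟨⟨⟨b1, b2⟩, b3⟩, b4⟩, b5⟩, b6⟩ with
    (((((((((((h | h) | h) | h) | h) | h) | h) | h) | h) | h) | h) | h)
  · exact Or.inl ⟨true, true, true, h.1, h.2⟩
  · exact Or.inl ⟨true, true, false, h.1, h.2⟩
  · exact Or.inl ⟨true, false, true, h.1, h.2⟩
  · exact Or.inl ⟨true, false, false, h.1, h.2⟩
  · exact Or.inr ⟨true, true, true, h.1.1, h.1.2, h.2⟩
  · exact Or.inr ⟨true, true, false, h.1.1, h.1.2, h.2⟩
  · exact Or.inr ⟨true, false, true, h.1.1, h.1.2, h.2⟩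
  · exact Or.inr ⟨true, false, false, h.1.1, h.1.2, h.2⟩
  · exact Or.inr ⟨false, true, true, h.1.1, h.1.2, h.2⟩
  · exact Or.inr ⟨false, true, false, h.1.1, h.1.2, h.2⟩
  · exact Or.inr ⟨false, false, true, h.1.1, h.1.2, h.2⟩
  · exact Or.inr ⟨false, false, false, h.1.1, h.1.2, h.2⟩

/-- a certificate for a nontrivial component -/
structure BCert (G : SimpleGraph V) (S A : Set V) (a0 a1 : V) : Prop where
  m0 : a0 ∈ A
  m1 : a1 ∈ A
  full : ∀ s ∈ S, G.Adj s a0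
  adj : G.Adj a0 a1
  ex1 : ∃ s ∈ S, G.Adj s a1
  ex2 : ∃ s ∈ S, ¬ G.Adj s a1

theorem three_false (hG : NoListed G) {S A B C : Set V} (hS : Clq G S)
    (hSA : ∀ s ∈ S, s ∉ A) (hSB : ∀ s ∈ S, s ∉ B) (hSC : ∀ s ∈ S, s ∉ C)
    (hAB : ∀ x ∈ A, ∀ y ∈ B, NA G x y) (hAC : ∀ x ∈ A, ∀ y ∈ C, NA G x y)
    (hBC : ∀ x ∈ B, ∀ y ∈ C, NA G x y) {a0 a1 b0 b1 c0 c1 : V} (ca : BCert G S A a0 a1)
    (cb : BCert G S B b0 b1) (cc : BCert G S C c0 c1) : False := by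
  classical
  set P : Bool → Bool → Bool → Prop := fun x y z => ∃ s ∈ S, (G.Adj s a1 ↔ x = true) ∧
    (G.Adj s b1 ↔ y = true) ∧ (G.Adj s c1 ↔ z = true) with hP
  have hall : ∀ s ∈ S, P (decide (G.Adj s a1)) (decide (G.Adj s b1)) (decide (G.Adj s c1)) :=
    fun s hs => ⟨s, hs, by simp, by simp, by simp⟩
  have nA : ∀ {s}, s ∈ S → ¬ G.Adj s a1 → NA G s a1 := fun hs h =>
    ⟨fun h' => hSA _ hs (h' ▸ ca.m1), h⟩
  have nB : ∀ {s}, s ∈ S → ¬ G.Adj s b1 → NA G s b1 := fun hs h =>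
    ⟨fun h' => hSB _ hs (h' ▸ cb.m1), h⟩
  have nC : ∀ {s}, s ∈ S → ¬ G.Adj s c1 → NA G s c1 := fun hs h =>
    ⟨fun h' => hSC _ hs (h' ▸ cc.m1), h⟩
  have h1 : ∀ x, ∃ y z, P x y z := by
    intro x
    cases x
    · obtain ⟨s, hs, hs'⟩ := ca.ex2
      exact ⟨_, _, by simpa [hs'] using hall s hs⟩
    · obtain ⟨s, hs, hs'⟩ := ca.ex1
      exact ⟨_, _, by simpa [hs'] using hall s hs⟩
  have h2 : ∀ y, ∃ x z, P x y z := by
    intro y
    cases y
    · obtain ⟨s, hs, hs'⟩ := cb.ex2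
      exact ⟨_, _, by simpa [hs'] using hall s hs⟩
    · obtain ⟨s, hs, hs'⟩ := cb.ex1
      exact ⟨_, _, by simpa [hs'] using hall s hs⟩
  have h3 : ∀ z, ∃ x y, P x y z := by
    intro z
    cases z
    · obtain ⟨s, hs, hs'⟩ := cc.ex2
      exact ⟨_, _, by simpa [hs'] using hall s hs⟩
    · obtain ⟨s, hs, hs'⟩ := cc.ex1
      exact ⟨_, _, by simpa [hs'] using hall s hs⟩
  rcases cube_lemma P h1 h2 h3 with ⟨x, y, z, ⟨s, hs, s1, s2, s3⟩, ⟨t, ht, t1, t2, t3⟩⟩ |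
      ⟨x, y, z, ⟨e, he, e1, e2, e3⟩, ⟨f, hf, f1, f2, f3⟩, ⟨g, hg, g1, g2, g3⟩⟩
  · have hst : s ≠ t := by
      rintro rfl
      cases x <;> simp_all
    have ta : (G.Adj s a1 ∧ NA G t a1) ∨ (NA G s a1 ∧ G.Adj t a1) := by
      cases x
      · exact Or.inr ⟨nA hs (by simpa using s1), by simpa using t1⟩
      · exact Or.inl ⟨by simpa using s1, nA ht (by simpa using t1)⟩
    have tb : (G.Adj s b1 ∧ NA G t b1) ∨ (NA G s b1 ∧ G.Adj t b1) := by
      cases y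
      · exact Or.inr ⟨nB hs (by simpa using s2), by simpa using t2⟩
      · exact Or.inl ⟨by simpa using s2, nB ht (by simpa using t2)⟩
    have tc : (G.Adj s c1 ∧ NA G t c1) ∨ (NA G s c1 ∧ G.Adj t c1) := by
      cases z
      · exact Or.inr ⟨nC hs (by simpa using s3), by simpa using t3⟩
      · exact Or.inl ⟨by simpa using s3, nC ht (by simpa using t3)⟩
    exact book_false hG (hS s hs t ht hst) (ca.full s hs) (ca.full t ht) (cb.full s hs)
      (cb.full t ht) (cc.full s hs) (cc.full t ht) ca.adj cb.adj cc.adj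
      (hAB _ ca.m0 _ cb.m0) (hAB _ ca.m0 _ cb.m1) (hAB _ ca.m1 _ cb.m0) (hAB _ ca.m1 _ cb.m1)
      (hAC _ ca.m0 _ cc.m0) (hAC _ ca.m0 _ cc.m1) (hAC _ ca.m1 _ cc.m0) (hAC _ ca.m1 _ cc.m1)
      (hBC _ cb.m0 _ cc.m0) (hBC _ cb.m0 _ cc.m1) (hBC _ cb.m1 _ cc.m0) (hBC _ cb.m1 _ cc.m1)
      ta tb tc
  · have hef : e ≠ f := by
      rintro rfl
      cases x <;> simp_all
    have heg : e ≠ g := by
      rintro rfl
      cases x <;> simp_all
    have hfg : f ≠ g := by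
      rintro rfl
      cases y <;> simp_all
    have ta : (G.Adj e a1 ∧ NA G f a1 ∧ NA G g a1) ∨ (NA G e a1 ∧ G.Adj f a1 ∧ G.Adj g a1) := by
      cases x
      · exact Or.inl ⟨by simpa using e1, nA hf (by simpa using f1), nA hg (by simpa using g1)⟩
      · exact Or.inr ⟨nA he (by simpa using e1), by simpa using f1, by simpa using g1⟩
    have tb : (G.Adj f b1 ∧ NA G e b1 ∧ NA G g b1) ∨ (NA G f b1 ∧ G.Adj e b1 ∧ G.Adj g b1) := by
      cases y
      · exact Or.inl ⟨by simpa using f2, nB he (by simpa using e2), nB hg (by simpa using g2)⟩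
      · exact Or.inr ⟨nB hf (by simpa using f2), by simpa using e2, by simpa using g2⟩
    have tc : (G.Adj g c1 ∧ NA G e c1 ∧ NA G f c1) ∨ (NA G g c1 ∧ G.Adj e c1 ∧ G.Adj f c1) := by
      cases z
      · exact Or.inl ⟨by simpa using g3, nC he (by simpa using e3), nC hf (by simpa using f3)⟩
      · exact Or.inr ⟨nC hg (by simpa using g3), by simpa using e3, by simpa using f3⟩
    exact d1d2_non hG (hS e he f hf hef) (hS e he g hg heg) (hS f hf g hg hfg) (ca.full e he)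
      (ca.full f hf) (ca.full g hg) (cb.full e he) (cb.full f hf) (cb.full g hg) (cc.full e he)
      (cc.full f hf) (cc.full g hg) ca.adj cb.adj (hAB _ ca.m0 _ cb.m0) (hAB _ ca.m0 _ cb.m1)
      (hAC _ ca.m0 _ cc.m0) (hAC _ ca.m0 _ cc.m1) (hAB _ ca.m1 _ cb.m0) (hAB _ ca.m1 _ cb.m1)
      (hAC _ ca.m1 _ cc.m0) (hAC _ ca.m1 _ cc.m1) cc.adj (hBC _ cb.m0 _ cc.m1)
      (hBC _ cb.m1 _ cc.m0) (hBC _ cb.m1 _ cc.m1) ta tb tc (Or.inr (hBC _ cb.m0 _ cc.m0))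

/-- nontrivial full components have certificates -/
lemma exists_bcert [Finite V] (hG : IsChordal G) {U S A : Set V} (h : MinNC G U) (hSU : S ⊆ U)
    (hS : Clq G S) (hA : IsComp G (U \ S) A) (hAn : A.Nontrivial) (hAf : Ful G S A) {b : V}
    (hb : b ∈ U) (hbS : b ∉ S) (hbA : b ∉ A) : ∃ a0 a1, BCert G S A a0 a1 := by
  have hSA : ∀ s ∈ S, s ∉ A := fun s hs hsA => (hA.sub hsA).2 hs
  have hAU : A ⊆ U := fun x hx => (hA.sub hx).1
  have hun : A ∪ (U \ A) = U := Set.union_diff_cancel hAU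
  have hbr : ∃ x ∈ A, ∃ s ∈ S, ∃ t ∈ S, G.Adj x s ∧ ¬ G.Adj x t := by
    by_contra hcon
    push Not at hcon
    rcases S.eq_empty_or_nonempty with hE | ⟨s0, hs0⟩
    · refine h.disj hun Set.disjoint_sdiff_right hA.cn.1 ⟨b, hb, hbA⟩ ?_
      intro x hx y hy
      exact hA.closed x hx y ⟨hy.1, by rw [hE]; exact Set.notMem_empty _⟩ hy.2
    · obtain ⟨x0, hx0, hx0'⟩ := hAf s0 hs0
      obtain ⟨x1, hx1, hne⟩ := hAn.exists_ne x0
      refine h.split (X := A) (Y := U \ A) (x0 := x0) (y0 := s0) (x1 := x1) (y1 := b) hun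
        Set.disjoint_sdiff_right hx0 ⟨hSU hs0, hSA s0 hs0⟩ hx1 hne ⟨hb, hbA⟩
        (fun h' => hbS (h' ▸ hs0)) ?_
      intro x hx y hy
      by_cases hyS : y ∈ S
      · constructor
        · intro hxy
          exact ⟨hcon x hx y hyS s0 hs0 hxy, hcon x0 hx0 s0 hs0 y hyS hx0'.symm⟩
        · rintro ⟨h1, h2⟩
          exact hcon x hx s0 hs0 y hyS h1
      · have n1 := hA.closed x hx y ⟨hy.1, hyS⟩ hy.2
        have n2 := hA.closed x0 hx0 y ⟨hy.1, hyS⟩ hy.2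
        tauto
  obtain ⟨x, hx, s, hs, t, ht, h1, h2⟩ := hbr
  obtain ⟨c, hc, y, hy, g1, g2, g3, t', ht', g4⟩ := cert hG hA.cn hSA hS hAf hs ht hx h1 h2
  exact ⟨c, y, hc, hy, fun s hs => (g1 s hs).symm, g2, ⟨s, hs, g3.symm⟩,
    ⟨t', ht', fun h => g4 h.symm⟩⟩

theorem nonsplit_aux [Finite V] (hG : NoListed G) {U : Set V} (h : MinNC G U) :
    ∀ (n : ℕ) (S : Set V), Type2 G U S → S.ncard = n → False := by
  intro n
  induction n using Nat.strong_induction_on with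
  | _ n ih =>
  intro S hT hcard
  obtain ⟨hSU, hS, A, B, hA, hB, hABne, hAn, hBn, hAf, hBf⟩ := hT
  have dAB : ∀ x ∈ A, x ∉ B := fun x hx hx' => hABne (hA.eq_of_mem hB hx hx')
  have hAU : ∀ x ∈ A, x ∈ U := fun x hx => (hA.sub hx).1
  have hBU : ∀ x ∈ B, x ∈ U := fun x hx => (hB.sub hx).1
  have hAS : ∀ x ∈ A, x ∉ S := fun x hx => (hA.sub hx).2
  have hBS : ∀ x ∈ B, x ∉ S := fun x hx => (hB.sub hx).2
  obtain ⟨a, ha⟩ := hA.cn.1
  obtain ⟨b, hb⟩ := hB.cn.1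
  have hbA : b ∉ A := fun h' => dAB b h' hb
  have naAB : ∀ x ∈ A, ∀ y ∈ B, NA G x y := fun x hx y hy =>
    ⟨fun h' => dAB x hx (h' ▸ hy), hA.closed x hx y (hB.sub hy) (fun h' => dAB y h' hy)⟩
  -- the other components are trivial
  have triv : ∀ x ∈ U \ S, x ∉ A → x ∉ B → ∀ y ∈ U \ S, ¬ G.Adj x y := by
    intro x hx hxA hxB y hy hxy
    set D := comp G (U \ S) x with hD
    have hDc : IsComp G (U \ S) D := isComp_comp hx
    have hDn : D.Nontrivial := nontriv_of_adj hx hy hxy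
    have dDA : ∀ z ∈ A, z ∉ D := by
      intro z hz hz'
      have := hA.eq_of_mem hDc hz hz'
      exact hxA (this ▸ self_mem_comp G _ x)
    have dDB : ∀ z ∈ B, z ∉ D := by
      intro z hz hz'
      have := hB.eq_of_mem hDc hz hz'
      exact hxB (this ▸ self_mem_comp G _ x)
    by_cases hDf : Ful G S D
    · obtain ⟨a0, a1, ca⟩ := exists_bcert hG.ch h hSU hS hA hAn hAf (hBU b hb) (hBS b hb) hbA
      obtain ⟨b0, b1, cb⟩ := exists_bcert hG.ch h hSU hS hB hBn hBf (hAU a ha) (hAS a ha)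
        (dAB a ha)
      obtain ⟨d0, d1, cd⟩ := exists_bcert hG.ch h hSU hS hDc hDn hDf (hAU a ha) (hAS a ha)
        (dDA a ha)
      exact three_false hG hS (fun s hs h' => hAS s h' hs) (fun s hs h' => hBS s h' hs)
        (fun s hs h' => (hDc.sub h').2 hs) naAB
        (fun x hx y hy => ⟨fun h' => dDA x hx (h' ▸ hy),
          hA.closed x hx y (hDc.sub hy) (fun h' => dDA y h' hy)⟩)
        (fun x hx y hy => ⟨fun h' => dDB x hx (h' ▸ hy),
          hB.closed x hx y (hDc.sub hy) (fun h' => dDB y h' hy)⟩) ca cb cd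
    · set S' := Nb G S D with hS'
      have hS'S : S' ⊆ S := fun s hs => hs.1
      have hne : ∃ s ∈ S, s ∉ S' := by
        by_contra hcon
        push Not at hcon
        exact hDf fun s hs => (hcon s hs).2
      obtain ⟨s1, hs1, hs1'⟩ := hne
      have hlt : S'.ncard < S.ncard := by
        apply Set.ncard_lt_ncard _ (Set.toFinite _)
        exact ⟨hS'S, fun h' => hs1' (h' hs1)⟩
      have hDS' : IsComp G (U \ S') D := by
        refine ⟨fun z hz => ⟨(hDc.sub hz).1, fun h' => (hDc.sub hz).2 (hS'S h')⟩, hDc.cn,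
          fun z hz w hw hwD hzw => ?_⟩
        by_cases hwS : w ∈ S
        · exact hw.2 ⟨hwS, z, hz, hzw.symm⟩
        · exact hDc.closed z hz w ⟨hw.1, hwS⟩ hwD hzw
      have haU' : a ∈ U \ S' := ⟨hAU a ha, fun h' => hAS a ha (hS'S h')⟩
      have hE := isComp_comp (G := G) haU'
      have hAE : A ⊆ comp G (U \ S') a := hE.absorb hA.cn
        (fun z hz => ⟨hAU z hz, fun h' => hAS z hz (hS'S h')⟩) ha (self_mem_comp G _ a)
      refine ih S'.ncard (by omega) S' ⟨hS'S.trans hSU,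
        fun p hp q hq => hS p (hS'S hp) q (hS'S hq), D, comp G (U \ S') a, hDS', hE, ?_, hDn,
        hAn.mono hAE, fun s hs => hs.2, fun s hs => ?_⟩ rfl
      · intro h'
        exact dDA a ha (h' ▸ self_mem_comp G _ a)
      · obtain ⟨x, hx, hx'⟩ := hAf s (hS'S hs)
        exact ⟨x, hAE hx, hx'⟩
  -- no isolated vertices
  have iso : ∀ d ∈ U \ S, d ∉ A → d ∉ B → ∃ s ∈ S, G.Adj d s := by
    intro d hd hdA hdB
    by_contra hcon
    push Not at hcon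
    refine h.disj (X := {d}) (Y := U \ {d}) (Set.union_diff_cancel (by simpa using hd.1))
      Set.disjoint_sdiff_right ⟨d, rfl⟩ ⟨a, hAU a ha, fun h' => hdA (h' ▸ ha)⟩ ?_
    intro x hx y hy
    rw [Set.mem_singleton_iff] at hx
    subst hx
    by_cases hyS : y ∈ S
    · exact hcon y hyS
    · exact triv x hd hdA hdB y ⟨hy.1, hyS⟩
  -- no twins
  have twin : ∀ d ∈ U \ S, d ∉ A → d ∉ B → ∀ e ∈ U \ S, e ∉ A → e ∉ B → d ≠ e →
      ∃ s ∈ S, ¬ (G.Adj d s ↔ G.Adj e s) := by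
    intro d hd hdA hdB e he heA heB hde
    by_contra hcon
    push Not at hcon
    obtain ⟨s0, hs0, hds0⟩ := iso d hd hdA hdB
    have hun : ({d, e} : Set V) ∪ (U \ {d, e}) = U := Set.union_diff_cancel (by
      intro z hz
      rcases hz with rfl | hz
      · exact hd.1
      · rw [Set.mem_singleton_iff] at hz; subst hz; exact he.1)
    have hn1 := triv d hd hdA hdB
    have hn2 := triv e he heA heB
    refine h.split (x0 := d) (x1 := e) (y0 := s0) (y1 := a) hun Set.disjoint_sdiff_right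
      (by simp) ⟨hSU hs0, ?_⟩ (by simp) hde.symm ⟨hAU a ha, ?_⟩ (fun h' => hAS a ha (h' ▸ hs0)) ?_
    · rintro (rfl | h')
      · exact hd.2 hs0
      · rw [Set.mem_singleton_iff] at h'; exact he.2 (h' ▸ hs0)
    · rintro (rfl | h')
      · exact hdA ha
      · rw [Set.mem_singleton_iff] at h'; exact heA (h' ▸ ha)
    · intro x hx y hy
      have hes0 := (hcon s0 hs0).mp hds0
      by_cases hyS : y ∈ S
      · have := hcon y hyS
        rcases hx with rfl | hx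
        · tauto
        · rw [Set.mem_singleton_iff] at hx; subst hx; tauto
      · have m1 := hn1 y ⟨hy.1, hyS⟩
        have m2 := hn2 y ⟨hy.1, hyS⟩
        rcases hx with rfl | hx
        · tauto
        · rw [Set.mem_singleton_iff] at hx; subst hx; tauto
  set Dd : Set V := {d | (d ∈ U \ S ∧ d ∉ A ∧ d ∉ B) ∧ ∃ s ∈ S, ¬ G.Adj d s} with hDd
  set W : Set V := {d | (d ∈ U \ S ∧ d ∉ A ∧ d ∉ B) ∧ ∀ s ∈ S, G.Adj d s} with hW
  have hc : SepConf G A B S Dd W := by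
    refine ⟨hA.cn, hB.cn, hS, hAf, hBf, ?_, ?_, ?_, ?_, ?_, ?_, ?_, ?_, ?_, ?_, ?_, ?_, ?_, ?_,
      ?_, ?_, ?_, ?_, ?_, ?_, ?_, ?_⟩
    · exact Set.disjoint_left.mpr fun x hx h' => hAS x hx h'
    · exact Set.disjoint_left.mpr fun x hx h' => hBS x hx h'
    · exact Set.disjoint_left.mpr fun x hx h' => hx.1.1.2 h'
    · exact Set.disjoint_left.mpr fun x hx h' => dAB x hx h'
    · exact Set.disjoint_left.mpr fun x hx h' => h'.1.2.1 hx
    · exact Set.disjoint_left.mpr fun x hx h' => h'.1.2.2 hx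
    · exact Set.disjoint_left.mpr fun x hx h' => hx.1.2.1 h'
    · exact Set.disjoint_left.mpr fun x hx h' => hx.1.2.2 h'
    · exact Set.disjoint_left.mpr fun x hx h' => hx.1.1.2 h'
    · refine Set.disjoint_left.mpr fun x hx h' => ?_
      obtain ⟨s, hs, hs'⟩ := h'.2
      exact hs' (hx.2 s hs)
    · exact fun x hx y hy => (naAB x hx y hy).2
    · exact fun d hd x hx => triv d hd.1.1 hd.1.2.1 hd.1.2.2 x (hA.sub hx)
    · exact fun d hd x hx => triv d hd.1.1 hd.1.2.1 hd.1.2.2 x (hB.sub hx)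
    · exact fun d hd x hx => triv d hd.1.1 hd.1.2.1 hd.1.2.2 x hx.1.1
    · exact fun d hd x hx => triv d hd.1.1 hd.1.2.1 hd.1.2.2 x (hA.sub hx)
    · exact fun d hd x hx => triv d hd.1.1 hd.1.2.1 hd.1.2.2 x (hB.sub hx)
    · exact fun d hd x hx => triv d hd.1.1 hd.1.2.1 hd.1.2.2 x hx.1.1
    · intro w hw w' hw'
      by_contra hne
      obtain ⟨s, hs, hs'⟩ := twin w hw.1.1 hw.1.2.1 hw.1.2.2 w' hw'.1.1 hw'.1.2.1 hw'.1.2.2 hne
      exact hs' ⟨fun _ => hw'.2 s hs, fun _ => hw.2 s hs⟩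
    · exact fun w hw => hw.2
    · exact fun d hd => iso d hd.1.1 hd.1.2.1 hd.1.2.2
    · exact fun d hd => hd.2
    · exact fun d hd e he hne => twin d hd.1.1 hd.1.2.1 hd.1.2.2 e he.1.1 he.1.2.1 he.1.2.2 hne
  obtain ⟨a0, ha0, ha0S⟩ := exists_full hG.ch hS A hA.cn (fun s hs h' => hAS s h' hs) hAf
  obtain ⟨b0, hb0, hb0S⟩ := exists_full hG.ch hS B hB.cn (fun s hs h' => hBS s h' hs) hBf
  obtain ⟨a1, ha1, hane⟩ := hAn.exists_ne a0
  obtain ⟨b1, hb1, hbne⟩ := hBn.exists_ne b0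
  have hDU : Dd ⊆ U := fun x hx => hx.1.1.1
  have hres := conf_circ hG hc ha0 ha0S hb0 hb0S (h.ih _ ⟨?_, fun hs => ?_⟩)
    (h.ih _ ⟨?_, fun hs => ?_⟩)
  · apply h.nc
    refine hres.mono ?_
    intro x hx
    by_cases hxS : x ∈ S
    · exact Or.inl (Or.inr hxS)
    · by_cases hxA : x ∈ A
      · exact Or.inl (Or.inl (Or.inl (Or.inl hxA)))
      · by_cases hxB : x ∈ B
        · exact Or.inl (Or.inl (Or.inr hxB))
        · by_cases hxs : ∃ s ∈ S, ¬ G.Adj x s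
          · exact Or.inl (Or.inl (Or.inl (Or.inr ⟨⟨⟨hx, hxS⟩, hxA, hxB⟩, hxs⟩)))
          · push Not at hxs
            exact Or.inr ⟨⟨⟨hx, hxS⟩, hxA, hxB⟩, hxs⟩
  · rintro x (((hx | hx) | hx) | hx)
    · exact hAU x hx
    · exact hDU hx
    · exact hSU hx
    · rw [Set.mem_singleton_iff] at hx; subst hx; exact hBU x hb0
  · rcases hs (hBU b1 hb1) with ((h' | h') | h') | h'
    · exact dAB b1 h' hb1
    · exact h'.1.2.2 hb1
    · exact hBS b1 hb1 h'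
    · exact hbne h'
  · rintro x (((hx | hx) | hx) | hx)
    · exact hBU x hx
    · exact hDU hx
    · exact hSU hx
    · rw [Set.mem_singleton_iff] at hx; subst hx; exact hAU x ha0
  · rcases hs (hAU a1 ha1) with ((h' | h') | h') | h'
    · exact dAB a1 ha1 h'
    · exact h'.1.2.1 ha1
    · exact hAS a1 ha1 h'
    · exact hane h'

/-- **Nonsplit case.** A minimal non-circle set without listed induced subgraphs induces a split
graph. -/
theorem nonsplit_false [Finite V] (hG : NoListed G) {U : Set V} (h : MinNC G U)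
    (hns : ¬ SplitOn G U) : False := by
  obtain ⟨S, hS⟩ := exists_type2 hG.ch hns
  exact nonsplit_aux hG h _ S hS rfl

end Pool.Agent.Lib.MP_50b720_co
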