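import Pool.Agent.Lib.MP_50b720_co.Full.Cut
import Pool.Agent.Lib.MP_50b720_co.Full.Nonsplit

set_option autoImplicit false

namespace Pool.Agent.Lib.MP_50b720_co

open SimpleGraph

variable {V : Type*} {G : SimpleGraph V}

section

variable {K D S Dv : Set V} {w y v : V}

open Classical in
/-- combination of orders of the two parts of `S` -/
lemma cut_comb [Finite V] {σT σN : V → ℤ}
    (iT : ∀ s ∈ S, ∀ t ∈ S, G.Adj y s → G.Adj y t → s ≠ t → σT s ≠ σT t)
    (iN : ∀ s ∈ S, ∀ t ∈ S, ¬ G.Adj y s → ¬ G.Adj y t → s ≠ t → σN s ≠ σN t)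
    (cT : ∀ d ∈ Dv, (∀ s ∈ S, G.Adj d s → G.Adj y s) → ∀ s ∈ S, ∀ t ∈ S, ∀ u ∈ S,
      G.Adj y s → G.Adj y t → G.Adj y u → σT s < σT t → σT t < σT u → G.Adj d s → G.Adj d u →
      G.Adj d t)
    (cN : ∀ d ∈ Dv, (∀ s ∈ S, G.Adj d s → ¬ G.Adj y s) → ∀ s ∈ S, ∀ t ∈ S, ∀ u ∈ S,
      ¬ G.Adj y s → ¬ G.Adj y t → ¬ G.Adj y u → σN s < σN t → σN t < σN u → G.Adj d s →
      G.Adj d u → G.Adj d t)
    (bT : ∀ b ∈ Dv, Brok G S y b → ∀ s ∈ S, ∀ t ∈ S, G.Adj y s → G.Adj y t → G.Adj b s →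
      ¬ G.Adj b t → σT t < σT s)
    (bN : ∀ b ∈ Dv, Brok G S y b → ∀ s ∈ S, ∀ t ∈ S, ¬ G.Adj y s → ¬ G.Adj y t → G.Adj b s →
      ¬ G.Adj b t → σN t < σN s) :
    ∃ σ : V → ℤ, (∀ s ∈ S, ∀ t ∈ S, s ≠ t → σ s ≠ σ t) ∧
      (∀ s ∈ S, (G.Adj y s → σ s < 0) ∧ (¬ G.Adj y s → 0 < σ s)) ∧
      ∀ d ∈ Dv, ∀ s ∈ S, ∀ t ∈ S, ∀ u ∈ S, σ s < σ t → σ t < σ u → G.Adj d s →
        G.Adj d u → G.Adj d t := by
  obtain ⟨N, hN, hbd⟩ := exists_bound σT σN
  set σ : V → ℤ := fun x => if G.Adj y x then σT x - N else N - σN x with hσ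
  have z1 : ∀ x, G.Adj y x → σ x = σT x - N := fun x hx => by simp only [hσ]; rw [if_pos hx]
  have z2 : ∀ x, ¬ G.Adj y x → σ x = N - σN x := fun x hx => by simp only [hσ]; rw [if_neg hx]
  have n1 : ∀ x, G.Adj y x → σ x < 0 := fun x hx => by
    rw [z1 x hx]; have := hbd x; omega
  have n2 : ∀ x, ¬ G.Adj y x → 0 < σ x := fun x hx => by
    rw [z2 x hx]; have := hbd x; omega
  refine ⟨σ, ?_, fun s _ => ⟨n1 s, n2 s⟩, ?_⟩
  · intro s hs t ht hst
    by_cases h1 : G.Adj y s <;> by_cases h2 : G.Adj y t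
    · rw [z1 s h1, z1 t h2]; have := iT s hs t ht h1 h2 hst; omega
    · have := n1 s h1; have := n2 t h2; omega
    · have := n2 s h1; have := n1 t h2; omega
    · rw [z2 s h1, z2 t h2]; have := iN s hs t ht h1 h2 hst; omega
  · intro d hd s hs t ht u hu h1 h2 h3 h4
    by_contra h5
    by_cases hb : Brok G S y d
    · by_cases k3 : G.Adj y t
      · have k1 : G.Adj y s := by
          by_contra hcon
          have := n2 s hcon
          have := n1 t k3
          omega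
        have := bT d hd hb s hs t ht k1 k3 h3 h5
        rw [z1 s k1, z1 t k3] at h1
        omega
      · have k1 : ¬ G.Adj y u := by
          intro hcon
          have := n1 u hcon
          have := n2 t k3
          omega
        have := bN d hd hb u hu t ht k1 k3 h4 h5
        rw [z2 t k3, z2 u k1] at h2
        omega
    · have hdich : (∀ s ∈ S, G.Adj d s → G.Adj y s) ∨ (∀ s ∈ S, G.Adj d s → ¬ G.Adj y s) := by
        by_contra hcon
        push Not at hcon
        obtain ⟨⟨a, ha, a1, a2⟩, b, hb', b1, b2⟩ := hcon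
        exact hb ⟨⟨b, hb', b1, b2⟩, a, ha, a1, a2⟩
      rcases hdich with hT | hT
      · have k1 := hT s hs h3
        have k2 := hT u hu h4
        have k3 : G.Adj y t := by
          by_contra hcon
          have := n2 t hcon
          have := n1 u k2
          omega
        rw [z1 s k1, z1 t k3] at h1
        rw [z1 t k3, z1 u k2] at h2
        exact h5 (cT d hd hT s hs t ht u hu k1 k3 k2 (by omega) (by omega) h3 h4)
      · have k1 := hT s hs h3
        have k2 := hT u hu h4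
        have k3 : ¬ G.Adj y t := by
          intro hcon
          have := n1 t hcon
          have := n2 s k1
          omega
        rw [z2 s k1, z2 t k3] at h1
        rw [z2 t k3, z2 u k2] at h2
        exact h5 (cN d hd hT u hu t ht s hs k2 k3 k1 (by omega) (by omega) h4 h3)

lemma CutConf.order [Finite V] (hG : NoListed G) (h : CutConf G K D S Dv w y v) {τ : V → ℤ}
    (inj : ∀ s ∈ S, ∀ t ∈ S, s ≠ t → τ s ≠ τ t)
    (conv : ∀ d ∈ Dv, ∀ s ∈ S, ∀ t ∈ S, ∀ u ∈ S, τ s < τ t → τ t < τ u → G.Adj d s →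
      G.Adj d u → G.Adj d t) :
    ∃ σ : V → ℤ, (∀ s ∈ S, ∀ t ∈ S, s ≠ t → σ s ≠ σ t) ∧
      (∀ s ∈ S, (G.Adj y s → σ s < 0) ∧ (¬ G.Adj y s → 0 < σ s)) ∧
      ∀ d ∈ Dv, ∀ s ∈ S, ∀ t ∈ S, ∀ u ∈ S, σ s < σ t → σ t < σ u → G.Adj d s →
        G.Adj d u → G.Adj d t := by
  by_cases hb : ∃ b ∈ Dv, Brok G S y b
  · obtain ⟨b, hb, hbr⟩ := hb
    obtain ⟨⟨gT, hgT, t1, t2⟩, gN, hgN, t3, t4⟩ := id hbr
    have huniq : ∀ b' ∈ Dv, Brok G S y b' → b' = b := by
      intro b' hb' hbr'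
      by_contra hne
      exact h.two_broken hG hb' hb hne hbr' hbr
    obtain ⟨σT, i1, i2, i3⟩ := suffix_order' (G := G) (S := S) (X := {s | s ∈ S ∧ G.Adj y s})
      (Dx := {d | d ∈ Dv ∧ ∀ s ∈ S, G.Adj d s → G.Adj y s}) (b := b) (g := gN) (τ := τ)
      (fun x hx => hx.1) inj hgN (fun h' => t4 h'.2) t3 (conv b hb)
      (fun d hd s hs hds => ⟨hs, hd.2 s hs hds⟩) (fun d hd => conv d hd.1) (by
        intro d hd s hs t ht a1 a2 a3 a4 e he s' hs' t' ht' b1 b2 b3 b4 c1 c2 c3 c4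
        exact h.spl.h921_false hG (k0 := gN) (k1 := t) (k2 := t') (k3 := s) (k4 := s')
          (d0 := y) (d1 := b) (d2 := d) (d3 := e) (h.SK hgN) (h.SK ht.1) (h.SK ht'.1)
          (h.SK hs.1) (h.SK hs'.1) h.yD (h.DD hb) (h.DD hd.1) (h.DD he.1) t4 ht.2 ht'.2 hs.2
          hs'.2 t3 a4 b4 a3 b3 (fun h' => t4 (hd.2 gN hgN h')) a2 c2 a1 c1
          (fun h' => t4 (he.2 gN hgN h')) c4 b2 c3 b1)
    obtain ⟨σN, j1, j2, j3⟩ := suffix_order' (G := G) (S := S) (X := {s | s ∈ S ∧ ¬ G.Adj y s})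
      (Dx := {d | d ∈ Dv ∧ ∀ s ∈ S, G.Adj d s → ¬ G.Adj y s}) (b := b) (g := gT) (τ := τ)
      (fun x hx => hx.1) inj hgT (fun h' => h'.2 t2) t1 (conv b hb)
      (fun d hd s hs hds => ⟨hs, hd.2 s hs hds⟩) (fun d hd => conv d hd.1) (by
        intro d hd s hs t ht a1 a2 a3 a4 e he s' hs' t' ht' b1 b2 b3 b4 c1 c2 c3 c4
        exact h.spl.h1024_false hG (k0 := s) (k1 := s') (k2 := gT) (k3 := t) (k4 := t')
          (k5 := w) (d0 := b) (d1 := d) (d2 := e) (d3 := y) (h.SK hs.1) (h.SK hs'.1)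
          (h.SK hgT) (h.SK ht.1) (h.SK ht'.1) h.wK (h.DD hb) (h.DD hd.1) (h.DD he.1) h.yD a3 b3
          t1 a4 b4 (h.dw b hb) a1 c1 (fun h' => hd.2 gT hgT h' t2) a2 c2 (h.dw d hd.1) c3 b1
          (fun h' => he.2 gT hgT h' t2) c4 b2 (h.dw e he.1) hs.2 hs'.2 t2 ht.2 ht'.2 h.yw)
    refine cut_comb (σT := σT) (σN := σN) (fun s hs t ht h1 h2 => i1 s ⟨hs, h1⟩ t ⟨ht, h2⟩)
      (fun s hs t ht h1 h2 => j1 s ⟨hs, h1⟩ t ⟨ht, h2⟩)
      (fun d hd hdT s hs t ht u hu h1 h2 h3 => i2 d ⟨hd, hdT⟩ s ⟨hs, h1⟩ t ⟨ht, h2⟩ u ⟨hu, h3⟩)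
      (fun d hd hdT s hs t ht u hu h1 h2 h3 => j2 d ⟨hd, hdT⟩ s ⟨hs, h1⟩ t ⟨ht, h2⟩ u ⟨hu, h3⟩)
      ?_ ?_
    · intro b' hb' hbr' s hs t ht h1 h2
      rw [huniq b' hb' hbr']
      exact i3 s ⟨hs, h1⟩ t ⟨ht, h2⟩
    · intro b' hb' hbr' s hs t ht h1 h2
      rw [huniq b' hb' hbr']
      exact j3 s ⟨hs, h1⟩ t ⟨ht, h2⟩
  · push Not at hb
    refine cut_comb (σT := τ) (σN := fun x => - τ x) (fun s hs t ht _ _ => inj s hs t ht)
      ?_ (fun d hd _ s hs t ht u hu _ _ _ => conv d hd s hs t ht u hu) ?_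
      (fun b hb' hbr => absurd hbr (hb b hb')) (fun b hb' hbr => absurd hbr (hb b hb'))
    · intro s hs t ht _ _ hst
      have := inj s hs t ht hst
      beta_reduce; omega
    · intro d hd _ s hs t ht u hu _ _ _ h1 h2 h3 h4
      beta_reduce at h1 h2
      exact conv d hd u hu t ht s hs (by omega) (by omega) h4 h3

theorem cut_false [Finite V] (hG : NoListed G) {U : Set V} (hm : MinNC G U)
    (h : CutConf G K D S Dv w y v) (hU : U = {w} ∪ {y} ∪ Dv ∪ S ∪ {v})
    (yv : y ≠ v) (yDv : y ∉ Dv) (vDv : v ∉ Dv) (wS : w ∉ S)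
    (Dne : ∀ d ∈ Dv, ∃ s ∈ S, G.Adj d s)
    (Ddist : ∀ d ∈ Dv, ∀ e ∈ Dv, d ≠ e → ∃ s ∈ S, ¬ (G.Adj d s ↔ G.Adj e s)) : False := by
  classical
  have disj : ∀ {X Y : Set V}, (∀ x ∈ X, x ∉ Y) → Disjoint X Y := fun h =>
    Set.disjoint_left.mpr h
  have hs := h.spl
  have kS := h.SK
  have kD := h.DD
  have hclq : ∀ s ∈ S, ∀ t ∈ S, s ≠ t → G.Adj s t := fun s hs' t ht =>
    hs.clq s (kS hs') t (kS ht)
  have wsAdj : ∀ s ∈ S, G.Adj w s := fun s hs' => hs.clq w h.wK s (kS hs') (fun h' => wS (h' ▸ hs'))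
  have wD : ∀ x ∈ D, w ≠ x := fun x hx h' => hs.dis x hx (h' ▸ h.wK)
  have SD : ∀ x ∈ D, x ∉ S := fun x hx h' => hs.dis x hx (kS h')
  have DDn : ∀ d ∈ Dv, ∀ e ∈ Dv, ¬ G.Adj d e := fun d hd e he => hs.ind d (kD hd) e (kD he)
  obtain ⟨l0, r0, τ, c0, bw⟩ := exists_blockData (G := G) (A := {w}) (Dd := Dv) (S := S) (z := v)
    (by
      apply hm.ih
      rw [hU]
      refine ⟨?_, fun hsub => ?_⟩
      · rintro x (((hx | hx) | hx) | hx)
        · exact Or.inl (Or.inl (Or.inl (Or.inl hx)))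
        · exact Or.inl (Or.inl (Or.inr hx))
        · exact Or.inl (Or.inr hx)
        · exact Or.inr hx
      · rcases hsub (Or.inl (Or.inl (Or.inl (Or.inr rfl))) : y ∈ _) with ((h' | h') | h') | h'
        · exact wD y h.yD (Set.mem_singleton_iff.mp h').symm
        · exact yDv h'
        · exact SD y h.yD h'
        · exact yv (Set.mem_singleton_iff.mp h'))
    (cn_singleton G w) (fun h' => wD v h.vD (Set.mem_singleton_iff.mp h').symm) vDv
    (SD v h.vD) (disj fun x hx => by rw [Set.mem_singleton_iff] at hx; rw [hx]; exact wS)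
    (disj fun x hx => SD x (kD hx))
    (disj fun x hx hx' => by
      rw [Set.mem_singleton_iff] at hx; rw [hx] at hx'; exact wD w (kD hx') rfl) hclq
    (fun s hs' => (h.vS s hs').symm)
    (fun x hx hxv => by rw [Set.mem_singleton_iff] at hx; rw [hx] at hxv; exact h.vw hxv.symm)
    (fun x hx => hs.ind x (kD hx) v h.vD) (fun s hs' => ⟨w, rfl, (wsAdj s hs').symm⟩)
    (fun d hd x hx hxd => by
      rw [Set.mem_singleton_iff] at hx; rw [hx] at hxd; exact h.dw d hd hxd.symm) DDn h.Dpr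
  obtain ⟨σ, s1, s2, s3⟩ := h.order hG bw.rep.inj bw.conv
  obtain ⟨c, hc, hcb⟩ : ∃ c : V → Prop, (∀ d ∈ Dv, ∀ e ∈ Dv, Ov (nS G S) d e → (c d ↔ ¬ c e)) ∧
      ∀ b ∈ Dv, Brok G S y b → ¬ c b := by
    by_cases hb : ∃ b ∈ Dv, Brok G S y b
    · obtain ⟨b, hb, hbr⟩ := hb
      refine ⟨fun d => ¬ (c0 d ↔ c0 b), fun d hd e he hov => ?_, fun b' hb' hbr' => ?_⟩
      · have := bw.col d hd e he (ovl_iff.mp hov)
        beta_reduce
        tauto
      · have : b' = b := by
          by_contra hne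
          exact h.two_broken hG hb' hb hne hbr' hbr
        rw [this]
        simp
    · push Not at hb
      exact ⟨c0, fun d hd e he hov => bw.col d hd e he (ovl_iff.mp hov),
        fun b hb' hbr => absurd hbr (hb b hb')⟩
  obtain ⟨M, hM, hbd⟩ := exists_bound σ σ
  have ywne : y ≠ w := h.yw.ne
  have hrep : HalfRep G ({w} ∪ {y}) S (fun x => if x = w then -M else -M - 1)
      (fun x => if x = w then M else 0) σ := by
    refine ⟨?_, ?_, s1, ?_⟩
    · rintro x (hx | hx) <;> rw [Set.mem_singleton_iff] at hx <;> subst hx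
      · simp; omega
      · simp [ywne]; omega
    · rintro x (hx | hx) s hs' <;> rw [Set.mem_singleton_iff] at hx <;> subst hx
      · have := hbd s
        simp only [if_true]
        refine ⟨by omega, by omega, iff_of_true (wsAdj s hs') (by omega)⟩
      · have := hbd s
        obtain ⟨k1, k2⟩ := s2 s hs'
        simp only [ywne, if_false]
        by_cases hys : G.Adj x s
        · have := k1 hys
          exact ⟨by omega, by omega, iff_of_true hys (by omega)⟩
        · have := k2 hys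
          exact ⟨by omega, by omega, iff_of_false hys (by omega)⟩
    · rintro x (hx | hx) z (hz | hz) hxz <;> rw [Set.mem_singleton_iff] at hx hz <;>
        subst hx <;> subst hz
      · exact absurd rfl hxz
      · simp only [if_true, ywne, if_false]
        exact ⟨by omega, by omega, by omega, by omega, iff_of_true h.yw.symm (by omega)⟩
      · simp only [if_true, ywne, if_false]
        exact ⟨by omega, by omega, by omega, by omega, iff_of_true h.yw (by omega)⟩
      · exact absurd rfl hxz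
  apply hm.nc
  rw [hU]
  refine one_sided (c := c) hrep s1 (fun s _ t _ _ => Iff.rfl) ?_ ?_ (fun x hx => SD x (kD hx)) ?_
    ?_ vDv (SD v h.vD) ?_ (fun x hx => hs.ind x (kD hx) v h.vD) ?_ DDn hclq h.vS Dne Ddist s3 hc ?_
  · intro s hs' t ht u hu htw h1 h2 x hx
    rcases hx with hx | hx <;> rw [Set.mem_singleton_iff] at hx <;> subst hx
    · exact iff_of_true (wsAdj s hs') (wsAdj t ht)
    · have e := htw x (Or.inr rfl)
      obtain ⟨k1, k2⟩ := s2 s hs'
      obtain ⟨k3, k4⟩ := s2 t ht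
      obtain ⟨k5, k6⟩ := s2 u hu
      by_cases h3 : G.Adj x s
      · have e1 := k5 (e.mp h3)
        refine iff_of_true h3 ?_
        by_contra h4
        have := k4 h4
        omega
      · have e1 := k2 h3
        refine iff_of_false h3 ?_
        intro h4
        have := k3 h4
        omega
  · rintro x (hx | hx) <;> rw [Set.mem_singleton_iff] at hx <;> rw [hx]
    · exact wS
    · exact SD y h.yD
  · rintro x (hx | hx) hx' <;> rw [Set.mem_singleton_iff] at hx <;> rw [hx] at hx'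
    · exact wD w (kD hx') rfl
    · exact yDv hx'
  · rintro (hx | hx)
    · exact wD v h.vD (Set.mem_singleton_iff.mp hx).symm
    · exact yv (Set.mem_singleton_iff.mp hx).symm
  · rintro x (hx | hx) hxv <;> rw [Set.mem_singleton_iff] at hx <;> rw [hx] at hxv
    · exact h.vw hxv.symm
    · exact hs.ind y h.yD v h.vD hxv
  · rintro d hd x (hx | hx) hxd <;> rw [Set.mem_singleton_iff] at hx <;> rw [hx] at hxd
    · exact h.dw d hd hxd.symm
    · exact hs.ind y h.yD d (kD hd) hxd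
  · intro d hd hcd s hs' t ht h3 h4 x hx
    rcases hx with hx | hx <;> rw [Set.mem_singleton_iff] at hx <;> subst hx
    · exact iff_of_true (wsAdj s hs') (wsAdj t ht)
    · by_contra hne
      apply hcb d hd _ hcd
      by_cases h5 : G.Adj x s
      · have h6 : ¬ G.Adj x t := fun h6 => hne ⟨fun _ => h6, fun _ => h5⟩
        exact ⟨⟨s, hs', h3, h5⟩, t, ht, h4, h6⟩
      · have h6 : G.Adj x t := by
          by_contra h6
          exact hne (iff_of_false h5 h6)
        exact ⟨⟨t, ht, h4, h6⟩, s, hs', h3, h5⟩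

end

/-- **Split case.** -/
theorem split_false [Finite V] (hG : NoListed G) {U : Set V} (h : MinNC G U)
    (hs : SplitOn G U) : False := by
  obtain ⟨K, hs⟩ := exists_spM hs
  by_cases hroot : ∃ v ∈ U \ K, (DK G U K v).Nonempty
  · obtain ⟨v, hv, hD⟩ := hroot
    obtain ⟨w, y, hM, hE, han⟩ := root_cut hG h hs hv hD
    have hr := hs.root h hv
    have hw : w ∈ MK G K v := by rw [hM]; rfl
    have hy : y ∈ EK G U K v := by rw [hE]; rfl
    have hyw : G.Adj y w := by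
      obtain ⟨k, hk, hyk⟩ := hy.2
      rw [hM, Set.mem_singleton_iff] at hk
      rw [← hk]; exact hyk
    have hcut : CutConf G K (U \ K) (NK G K v) (DK G U K v) w y v :=
      ⟨hs.spl, fun x hx => hx.1, hw.1, hy.1, hv, fun x hx => hx.1, fun s hs => hs.2, hw.2, hyw,
        fun d hd => hd.2.2 w hw, hr.Dpr, han⟩
    refine cut_false hG h hcut ?_ ?_ ?_ ?_ ?_ (hs.Dne h) (hs.Ddist h)
    · have := hs.cover hv
      rw [hM, hE] at this
      exact this
    · intro h'; exact hw.2 (h' ▸ hyw)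
    · intro h'; exact h'.2.2 w hw hyw
    · intro h'; exact h'.2.1 rfl
    · intro h'; exact hw.2 h'.2
  · refine antichain_false hG h hs ?_
    intro x hx y hy hxy
    by_contra hcon
    push Not at hcon
    refine hroot ⟨y, hy, x, hx, hxy, ?_⟩
    intro w hw hxw
    exact hw.2 (hcon w hw.1 hxw)

/-- **Main theorem**: without the listed induced subgraphs, a chordal graph has a chord
diagram. -/
theorem NoListed.circ [Finite V] (hG : NoListed G) (U : Set V) : Circ G U := by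
  induction U using WellFoundedLT.induction with
  | ind U ih =>
    by_contra hnc
    have hm : MinNC G U := ⟨hnc, ih⟩
    by_cases hs : SplitOn G U
    · exact split_false hG hm hs
    · exact nonsplit_false hG hm hs

end Pool.Agent.Lib.MP_50b720_co
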