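import Pool.Agent.Lib.MP_50b720_co.Full.NoListed

set_option autoImplicit false

namespace Pool.Agent.Lib.MP_50b720_co

open SimpleGraph

variable {V : Type*}

namespace Fam

lemma ind_sum {W1 W2 : Type*} {G : SimpleGraph V} {H : SimpleGraph (W1 ⊕ W2)} (f : W1 → V)
    (g : W2 → V)
    (h11 : ∀ a b, a ≠ b → f a ≠ f b ∧ (G.Adj (f a) (f b) ↔ H.Adj (Sum.inl a) (Sum.inl b)))
    (h12 : ∀ a b, g b ≠ f a ∧ (G.Adj (g b) (f a) ↔ H.Adj (Sum.inr b) (Sum.inl a)))
    (h22 : ∀ a b, a ≠ b → g a ≠ g b ∧ (G.Adj (g a) (g b) ↔ H.Adj (Sum.inr a) (Sum.inr b))) :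
    H ⊴ G := by
  refine ⟨⟨⟨Sum.elim f g, ?_⟩, ?_⟩⟩
  · rintro (a | a) (b | b) h
    · by_contra hne
      exact (h11 a b (fun h' => hne (h' ▸ rfl))).1 h
    · exact absurd h.symm (h12 a b).1
    · exact absurd h (h12 b a).1
    · by_contra hne
      exact (h22 a b (fun h' => hne (h' ▸ rfl))).1 h
  · rintro (a | a) (b | b)
    · change G.Adj (f a) (f b) ↔ _
      by_cases hab : a = b
      · subst hab; simp
      · exact (h11 a b hab).2
    · change G.Adj (f a) (g b) ↔ _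
      rw [G.adj_comm, H.adj_comm]; exact (h12 a b).2
    · change G.Adj (g a) (f b) ↔ _
      exact (h12 b a).2
    · change G.Adj (g a) (g b) ↔ _
      by_cases hab : a = b
      · subst hab; simp
      · exact (h22 a b hab).2

lemma fan_ll {k : ℕ} {s : Bool} (i j : Fin (k + 2)) : (fan k s).Adj (Sum.inl i) (Sum.inl j) ↔
    (j.val = i.val + 1 ∨ i.val = j.val + 1) := by
  unfold fan
  rw [fromRel_adj]
  simp only [ne_eq, Sum.inl.injEq, reduceCtorEq, and_false, false_and, exists_false, or_false]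
  constructor
  · rintro ⟨h, ⟨a, b, rfl, rfl, h'⟩ | ⟨a, b, rfl, rfl, h'⟩⟩
    exacts [Or.inl h', Or.inr h']
  · rintro (h | h)
    · exact ⟨fun h' => by rw [h'] at h; omega, Or.inl ⟨i, j, rfl, rfl, h⟩⟩
    · exact ⟨fun h' => by rw [h'] at h; omega, Or.inr ⟨j, i, rfl, rfl, h⟩⟩

lemma fan_rl {k : ℕ} {s : Bool} (c : Bool) (i : Fin (k + 2)) :
    (fan k s).Adj (Sum.inr c) (Sum.inl i) ↔
    ((1 ≤ i.val ∧ i.val ≤ k) ∨ (i.val = 0 ∧ c = false) ∨ (i.val = k + 1 ∧ c = s)) := by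
  unfold fan
  rw [fromRel_adj]
  simp only [ne_eq, Sum.inl.injEq, Sum.inr.injEq, reduceCtorEq, and_false, false_and,
    exists_false, or_false, false_or, not_false_eq_true, true_and]
  constructor
  · rintro (⟨a, b, rfl, rfl, h, h'⟩ | ⟨rfl, rfl⟩ | ⟨rfl, rfl⟩)
    · exact Or.inl ⟨h, h'⟩
    · exact Or.inr (Or.inl ⟨rfl, rfl⟩)
    · exact Or.inr (Or.inr ⟨rfl, rfl⟩)
  · rintro (h | ⟨h, h'⟩ | ⟨h, h'⟩)
    · exact Or.inl ⟨i, c, rfl, rfl, h⟩
    · exact Or.inr (Or.inl ⟨Fin.ext h, h'⟩)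
    · exact Or.inr (Or.inr ⟨Fin.ext h, h'⟩)

lemma fan_rr {k : ℕ} {s : Bool} (c c' : Bool) :
    (fan k s).Adj (Sum.inr c) (Sum.inr c') ↔ c ≠ c' := by
  unfold fan
  rw [fromRel_adj]
  simp only [ne_eq, Sum.inr.injEq, reduceCtorEq, and_false, false_and,
    exists_false, or_false, false_or]
  revert c c'; decide

lemma fanY_ll {k : ℕ} {s : Bool} (i j : Fin (k + 2)) :
    (fanY k s).Adj (Sum.inl (some i)) (Sum.inl (some j)) ↔
    (j.val = i.val + 1 ∨ i.val = j.val + 1) := by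
  unfold fanY
  rw [fromRel_adj]
  simp only [ne_eq, Sum.inl.injEq, Option.some.injEq, reduceCtorEq, and_false, false_and,
    exists_false, or_false]
  constructor
  · rintro ⟨h, ⟨a, b, rfl, rfl, h'⟩ | ⟨a, b, rfl, rfl, h'⟩⟩
    exacts [Or.inl h', Or.inr h']
  · rintro (h | h)
    · exact ⟨fun h' => by rw [h'] at h; omega, Or.inl ⟨i, j, rfl, rfl, h⟩⟩
    · exact ⟨fun h' => by rw [h'] at h; omega, Or.inr ⟨j, i, rfl, rfl, h⟩⟩

lemma fanY_nl {k : ℕ} {s : Bool} (j : Fin (k + 2)) :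
    ¬ (fanY k s).Adj (Sum.inl none) (Sum.inl (some j)) := by
  unfold fanY
  rw [fromRel_adj]
  simp

lemma fanY_rl {k : ℕ} {s : Bool} (c : Bool) (i : Fin (k + 2)) :
    (fanY k s).Adj (Sum.inr c) (Sum.inl (some i)) ↔
    ((1 ≤ i.val ∧ i.val ≤ k) ∨ (i.val = 0 ∧ c = false) ∨ (i.val = k + 1 ∧ c = s)) := by
  unfold fanY
  rw [fromRel_adj]
  simp only [ne_eq, Sum.inl.injEq, Sum.inr.injEq, Option.some.injEq, reduceCtorEq, and_false,
    false_and, exists_false, or_false, false_or, not_false_eq_true, true_and]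
  constructor
  · rintro (⟨a, b, rfl, rfl, h, h'⟩ | ⟨rfl, rfl⟩ | ⟨rfl, rfl⟩)
    · exact Or.inl ⟨h, h'⟩
    · exact Or.inr (Or.inl ⟨rfl, rfl⟩)
    · exact Or.inr (Or.inr ⟨rfl, rfl⟩)
  · rintro (h | ⟨h, h'⟩ | ⟨h, h'⟩)
    · exact Or.inl ⟨i, c, rfl, rfl, h⟩
    · exact Or.inr (Or.inl ⟨Fin.ext h, h'⟩)
    · exact Or.inr (Or.inr ⟨Fin.ext h, h'⟩)

lemma fanY_rn {k : ℕ} {s : Bool} (c : Bool) :
    (fanY k s).Adj (Sum.inr c) (Sum.inl none) := by
  unfold fanY
  rw [fromRel_adj]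
  simp

lemma fanY_rr {k : ℕ} {s : Bool} (c c' : Bool) :
    (fanY k s).Adj (Sum.inr c) (Sum.inr c') ↔ c ≠ c' := by
  unfold fanY
  rw [fromRel_adj]
  simp only [ne_eq, Sum.inr.injEq, reduceCtorEq, and_false, false_and,
    exists_false, or_false, false_or]
  revert c c'; decide

/-- embedding of a fan -/
lemma fan_ind {G : SimpleGraph V} {k : ℕ} {s : Bool} {x : ℕ → V} {p q : V}
    (hx : ∀ i j, i < j → j ≤ k + 1 → x i ≠ x j ∧ (G.Adj (x i) (x j) ↔ j = i + 1))
    (hpq : G.Adj p q) (hxp : ∀ i, 1 ≤ i → i ≤ k → G.Adj p (x i))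
    (hxq : ∀ i, 1 ≤ i → i ≤ k → G.Adj q (x i)) (h0p : G.Adj p (x 0)) (h0q : NA G q (x 0))
    (he : ∀ c : Bool, (if c then q else p) ≠ x (k + 1) ∧
      (G.Adj (if c then q else p) (x (k + 1)) ↔ c = s)) :
    fan k s ⊴ G := by
  refine ind_sum (fun i => x i.val) (fun c => if c then q else p) ?_ ?_ ?_
  · intro i j hij
    beta_reduce
    rw [fan_ll]
    have hij' : i.val ≠ j.val := fun h => hij (Fin.ext h)
    have := i.isLt
    have := j.isLt
    rcases lt_or_gt_of_ne hij' with h | h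
    · obtain ⟨h1, h2⟩ := hx i.val j.val h (by omega)
      refine ⟨h1, ?_⟩
      rw [h2]; omega
    · obtain ⟨h1, h2⟩ := hx j.val i.val h (by omega)
      refine ⟨h1.symm, ?_⟩
      rw [G.adj_comm, h2]; omega
  · intro i c
    beta_reduce
    rw [fan_rl]
    have hi := i.isLt
    rcases Nat.eq_zero_or_pos i.val with h0 | h0
    · rw [h0]
      cases c
      · exact ⟨h0p.ne, iff_of_true h0p (by simp)⟩
      · exact ⟨h0q.1, iff_of_false h0q.2 (by simp)⟩
    · rcases Nat.lt_or_ge k i.val with h1 | h1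
      · have h2 : i.val = k + 1 := by omega
        rw [h2]
        refine ⟨(he c).1, ?_⟩
        rw [(he c).2]; simp
      · cases c
        · have := hxp i.val h0 h1
          exact ⟨this.ne, iff_of_true this (Or.inl ⟨h0, h1⟩)⟩
        · have := hxq i.val h0 h1
          exact ⟨this.ne, iff_of_true this (Or.inl ⟨h0, h1⟩)⟩
  · intro c c' hcc
    rw [fan_rr]
    cases c <;> cases c'
    · exact absurd rfl hcc
    · exact ⟨hpq.ne, iff_of_true hpq hcc⟩
    · exact ⟨hpq.ne', iff_of_true hpq.symm hcc⟩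
    · exact absurd rfl hcc

lemma fanY_ind {G : SimpleGraph V} {k : ℕ} {s : Bool} {x : ℕ → V} {p q y : V}
    (hx : ∀ i j, i < j → j ≤ k + 1 → x i ≠ x j ∧ (G.Adj (x i) (x j) ↔ j = i + 1))
    (hpq : G.Adj p q) (hxp : ∀ i, 1 ≤ i → i ≤ k → G.Adj p (x i))
    (hxq : ∀ i, 1 ≤ i → i ≤ k → G.Adj q (x i)) (h0p : G.Adj p (x 0)) (h0q : NA G q (x 0))
    (he : ∀ c : Bool, (if c then q else p) ≠ x (k + 1) ∧
      (G.Adj (if c then q else p) (x (k + 1)) ↔ c = s))
    (hyx : ∀ i, i ≤ k + 1 → NA G y (x i)) (hyp : G.Adj p y) (hyq : G.Adj q y) :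
    fanY k s ⊴ G := by
  refine ind_sum (fun o => o.elim y (fun i => x i.val)) (fun c => if c then q else p) ?_ ?_ ?_
  · rintro (_ | i) (_ | j) hij
    · exact absurd rfl hij
    · have h := hyx j.val (by omega)
      exact ⟨h.1, iff_of_false h.2 (fanY_nl j)⟩
    · have h := hyx i.val (by omega)
      refine ⟨h.1.symm, iff_of_false (fun h' => h.2 h'.symm) (fun h' => fanY_nl i h'.symm)⟩
    · rw [fanY_ll]
      have hij' : i.val ≠ j.val := fun h => hij (congrArg some (Fin.ext h))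
      have := i.isLt
      have := j.isLt
      change x i.val ≠ x j.val ∧ (G.Adj (x i.val) (x j.val) ↔ _)
      rcases lt_or_gt_of_ne hij' with h | h
      · obtain ⟨h1, h2⟩ := hx i.val j.val h (by omega)
        refine ⟨h1, ?_⟩
        rw [h2]; omega
      · obtain ⟨h1, h2⟩ := hx j.val i.val h (by omega)
        refine ⟨h1.symm, ?_⟩
        rw [G.adj_comm, h2]; omega
  · rintro (_ | i) c
    · cases c
      · exact ⟨hyp.ne, iff_of_true hyp (fanY_rn _)⟩
      · exact ⟨hyq.ne, iff_of_true hyq (fanY_rn _)⟩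
    · rw [fanY_rl]
      change (if c then q else p) ≠ x i.val ∧ (G.Adj (if c then q else p) (x i.val) ↔ _)
      have hi := i.isLt
      rcases Nat.eq_zero_or_pos i.val with h0 | h0
      · rw [h0]
        cases c
        · exact ⟨h0p.ne, iff_of_true h0p (by simp)⟩
        · exact ⟨h0q.1, iff_of_false h0q.2 (by simp)⟩
      · rcases Nat.lt_or_ge k i.val with h1 | h1
        · have h2 : i.val = k + 1 := by omega
          rw [h2]
          refine ⟨(he c).1, ?_⟩
          rw [(he c).2]; simp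
        · cases c
          · have := hxp i.val h0 h1
            exact ⟨this.ne, iff_of_true this (Or.inl ⟨h0, h1⟩)⟩
          · have := hxq i.val h0 h1
            exact ⟨this.ne, iff_of_true this (Or.inl ⟨h0, h1⟩)⟩
  · intro c c' hcc
    rw [fanY_rr]
    cases c <;> cases c'
    · exact absurd rfl hcc
    · exact ⟨hpq.ne, iff_of_true hpq hcc⟩
    · exact ⟨hpq.ne', iff_of_true hpq.symm hcc⟩
    · exact absurd rfl hcc

/-! ### chains -/

lemma chainN_uu {j : ℕ} (a b : Fin (j + 1)) : (chainN j).Adj (Sum.inl a) (Sum.inl b) ↔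
    (a ≠ b ∧ ¬ (a.val = 0 ∧ b.val = j) ∧ ¬ (b.val = 0 ∧ a.val = j)) := by
  unfold chainN
  rw [fromRel_adj]
  simp only [ne_eq, Sum.inl.injEq, reduceCtorEq, and_false, false_and, exists_false, or_false]
  constructor
  · rintro ⟨h, ⟨a, b, rfl, rfl, h1, h2⟩ | ⟨a, b, rfl, rfl, h1, h2⟩⟩
    · have := Fin.lt_def.mp h1
      exact ⟨h, h2, fun h3 => by omega⟩
    · have := Fin.lt_def.mp h1
      exact ⟨h, fun h3 => by omega, h2⟩
  · rintro ⟨h, h1, h2⟩
    refine ⟨h, ?_⟩
    rcases lt_or_gt_of_ne h with h3 | h3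
    · exact Or.inl ⟨a, b, rfl, rfl, h3, h1⟩
    · exact Or.inr ⟨b, a, rfl, rfl, h3, h2⟩

lemma chainN_wu {j : ℕ} (a : Fin j) (b : Fin (j + 1)) :
    (chainN j).Adj (Sum.inr a) (Sum.inl b) ↔ (b.val = a.val ∨ b.val = a.val + 1) := by
  unfold chainN
  rw [fromRel_adj]
  simp only [ne_eq, Sum.inl.injEq, Sum.inr.injEq, reduceCtorEq, and_false, false_and,
    exists_false, or_false, false_or, not_false_eq_true, true_and]
  constructor
  · rintro ⟨a, b, rfl, rfl, h⟩; exact h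
  · intro h; exact ⟨a, b, rfl, rfl, h⟩

lemma chainN_ww {j : ℕ} (a b : Fin j) : ¬ (chainN j).Adj (Sum.inr a) (Sum.inr b) := by
  unfold chainN
  rw [fromRel_adj]
  simp

lemma chainNZ_uu {j : ℕ} (a b : Fin (j + 1)) :
    (chainNZ j).Adj (Sum.inl (some a)) (Sum.inl (some b)) ↔
    (a ≠ b ∧ ¬ (a.val = 0 ∧ b.val = j) ∧ ¬ (b.val = 0 ∧ a.val = j)) := by
  unfold chainNZ
  rw [fromRel_adj]
  simp only [ne_eq, Sum.inl.injEq, Option.some.injEq, reduceCtorEq, and_false, false_and,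
    exists_false, or_false, false_or]
  constructor
  · rintro ⟨h, ⟨a, b, rfl, rfl, h1, h2⟩ | ⟨a, b, rfl, rfl, h1, h2⟩⟩
    · have := Fin.lt_def.mp h1
      exact ⟨h, h2, fun h3 => by omega⟩
    · have := Fin.lt_def.mp h1
      exact ⟨h, fun h3 => by omega, h2⟩
  · rintro ⟨h, h1, h2⟩
    refine ⟨h, ?_⟩
    rcases lt_or_gt_of_ne h with h3 | h3
    · exact Or.inl ⟨a, b, rfl, rfl, h3, h1⟩
    · exact Or.inr ⟨b, a, rfl, rfl, h3, h2⟩

lemma chainNZ_nu {j : ℕ} (b : Fin (j + 1)) :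
    (chainNZ j).Adj (Sum.inl none) (Sum.inl (some b)) := by
  unfold chainNZ
  rw [fromRel_adj]
  simp

lemma chainNZ_wu {j : ℕ} (a : Fin j) (b : Fin (j + 1)) :
    (chainNZ j).Adj (Sum.inr a) (Sum.inl (some b)) ↔ (b.val = a.val ∨ b.val = a.val + 1) := by
  unfold chainNZ
  rw [fromRel_adj]
  simp only [ne_eq, Sum.inl.injEq, Sum.inr.injEq, Option.some.injEq, reduceCtorEq, and_false,
    false_and, exists_false, or_false, false_or, not_false_eq_true, true_and]
  constructor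
  · rintro ⟨a, b, rfl, rfl, h⟩; exact h
  · intro h; exact ⟨a, b, rfl, rfl, h⟩

lemma chainNZ_wn {j : ℕ} (a : Fin j) : ¬ (chainNZ j).Adj (Sum.inr a) (Sum.inl none) := by
  unfold chainNZ
  rw [fromRel_adj]
  simp

lemma chainNZ_ww {j : ℕ} (a b : Fin j) : ¬ (chainNZ j).Adj (Sum.inr a) (Sum.inr b) := by
  unfold chainNZ
  rw [fromRel_adj]
  simp

lemma chainN_ind {G : SimpleGraph V} {j : ℕ} {u w : ℕ → V}
    (hu : ∀ a b, a < b → b ≤ j → u a ≠ u b ∧ (G.Adj (u a) (u b) ↔ ¬ (a = 0 ∧ b = j)))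
    (hw : ∀ a b, a < j → b ≤ j → w a ≠ u b ∧ (G.Adj (w a) (u b) ↔ (b = a ∨ b = a + 1)))
    (hww : ∀ a b, a < b → b < j → NA G (w a) (w b)) : chainN j ⊴ G := by
  refine ind_sum (fun i => u i.val) (fun i => w i.val) ?_ ?_ ?_
  · intro a b hab
    beta_reduce
    rw [chainN_uu]
    have h0 : a.val ≠ b.val := fun h => hab (Fin.ext h)
    have := a.isLt
    have := b.isLt
    rcases lt_or_gt_of_ne h0 with h | h
    · obtain ⟨h1, h2⟩ := hu a.val b.val h (by omega)
      refine ⟨h1, ?_⟩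
      rw [h2]
      constructor
      · intro h3; exact ⟨hab, h3, by omega⟩
      · rintro ⟨_, h3, _⟩; exact h3
    · obtain ⟨h1, h2⟩ := hu b.val a.val h (by omega)
      refine ⟨h1.symm, ?_⟩
      rw [G.adj_comm, h2]
      constructor
      · intro h3; exact ⟨hab, by omega, h3⟩
      · rintro ⟨_, _, h3⟩; exact h3
  · intro a b
    beta_reduce
    rw [chainN_wu]
    exact hw b.val a.val b.isLt (by have := a.isLt; omega)
  · intro a b hab
    beta_reduce
    have h0 : a.val ≠ b.val := fun h => hab (Fin.ext h)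
    rcases lt_or_gt_of_ne h0 with h | h
    · have h1 := hww a.val b.val h b.isLt
      exact ⟨h1.1, iff_of_false h1.2 (chainN_ww a b)⟩
    · have h1 := hww b.val a.val h a.isLt
      exact ⟨h1.1.symm, iff_of_false (fun h => h1.2 h.symm) (chainN_ww a b)⟩

lemma chainNZ_ind {G : SimpleGraph V} {j : ℕ} {u w : ℕ → V} {z : V}
    (hu : ∀ a b, a < b → b ≤ j → u a ≠ u b ∧ (G.Adj (u a) (u b) ↔ ¬ (a = 0 ∧ b = j)))
    (hw : ∀ a b, a < j → b ≤ j → w a ≠ u b ∧ (G.Adj (w a) (u b) ↔ (b = a ∨ b = a + 1)))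
    (hww : ∀ a b, a < b → b < j → NA G (w a) (w b)) (hz : ∀ a, a ≤ j → G.Adj z (u a))
    (hzw : ∀ a, a < j → NA G (w a) z) : chainNZ j ⊴ G := by
  refine ind_sum (fun o => o.elim z (fun i => u i.val)) (fun i => w i.val) ?_ ?_ ?_
  · rintro (_ | a) (_ | b) hab
    · exact absurd rfl hab
    · have h := hz b.val (by have := b.isLt; omega)
      exact ⟨h.ne, iff_of_true h (chainNZ_nu b)⟩
    · have h := hz a.val (by have := a.isLt; omega)
      exact ⟨h.ne', iff_of_true h.symm (chainNZ_nu a).symm⟩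
    · rw [chainNZ_uu]
      change u a.val ≠ u b.val ∧ (G.Adj (u a.val) (u b.val) ↔ _)
      have hab' : a ≠ b := fun h => hab (h ▸ rfl)
      have h0 : a.val ≠ b.val := fun h => hab' (Fin.ext h)
      have := a.isLt
      have := b.isLt
      rcases lt_or_gt_of_ne h0 with h | h
      · obtain ⟨h1, h2⟩ := hu a.val b.val h (by omega)
        refine ⟨h1, ?_⟩
        rw [h2]
        constructor
        · intro h3; exact ⟨hab', h3, by omega⟩
        · rintro ⟨_, h3, _⟩; exact h3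
      · obtain ⟨h1, h2⟩ := hu b.val a.val h (by omega)
        refine ⟨h1.symm, ?_⟩
        rw [G.adj_comm, h2]
        constructor
        · intro h3; exact ⟨hab', by omega, h3⟩
        · rintro ⟨_, _, h3⟩; exact h3
  · rintro (_ | a) b
    · have h := hzw b.val b.isLt
      exact ⟨h.1, iff_of_false h.2 (chainNZ_wn b)⟩
    · rw [chainNZ_wu]
      exact hw b.val a.val b.isLt (by have := a.isLt; omega)
  · intro a b hab
    beta_reduce
    have h0 : a.val ≠ b.val := fun h => hab (Fin.ext h)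
    rcases lt_or_gt_of_ne h0 with h | h
    · have h1 := hww a.val b.val h b.isLt
      exact ⟨h1.1, iff_of_false h1.2 (chainNZ_ww a b)⟩
    · have h1 := hww b.val a.val h a.isLt
      exact ⟨h1.1.symm, iff_of_false (fun h => h1.2 h.symm) (chainNZ_ww a b)⟩

/-! ### split graphs -/

lemma split_kk {K D : Type*} {N : D → K → Prop} (x y : K) :
    (splitG N).Adj (Sum.inl x) (Sum.inl y) ↔ x ≠ y := by
  unfold splitG
  rw [fromRel_adj]
  simp

lemma split_dk {K D : Type*} {N : D → K → Prop} (d : D) (x : K) :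
    (splitG N).Adj (Sum.inr d) (Sum.inl x) ↔ N d x := by
  unfold splitG
  rw [fromRel_adj]
  simp

lemma split_dd {K D : Type*} {N : D → K → Prop} (d e : D) :
    ¬ (splitG N).Adj (Sum.inr d) (Sum.inr e) := by
  unfold splitG
  rw [fromRel_adj]
  simp

lemma split_ind {K D : Type*} {N : D → K → Prop} {G : SimpleGraph V} (f : K → V) (g : D → V)
    (hk : ∀ x y, x ≠ y → G.Adj (f x) (f y)) (hd : ∀ d x, g d ≠ f x ∧ (G.Adj (g d) (f x) ↔ N d x))
    (hdd : ∀ d e, d ≠ e → NA G (g d) (g e)) : splitG N ⊴ G := by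
  refine ind_sum f g ?_ ?_ ?_
  · intro a b hab
    exact ⟨(hk a b hab).ne, iff_of_true (hk a b hab) ((split_kk a b).mpr hab)⟩
  · intro a b
    rw [split_dk]; exact hd b a
  · intro a b hab
    exact ⟨(hdd a b hab).1, iff_of_false (hdd a b hab).2 (split_dd a b)⟩

/-- chain data in a clique: `u a` (`a ≤ j`) and ears `w a` (`a < j`) -/
structure Ears (G : SimpleGraph V) (j : ℕ) (u w : ℕ → V) : Prop where
  uu : ∀ a b, a < b → b ≤ j → G.Adj (u a) (u b)
  wu : ∀ a b, a < j → b ≤ j → w a ≠ u b ∧ (G.Adj (w a) (u b) ↔ (b = a ∨ b = a + 1))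
  ww : ∀ a b, a < b → b < j → NA G (w a) (w b)

lemma Ears.uu' {G : SimpleGraph V} {j : ℕ} {u w : ℕ → V} (h : Ears G j u w)
    {a b : Fin (j + 1)} (hab : a ≠ b) : G.Adj (u a.val) (u b.val) := by
  have h0 : a.val ≠ b.val := fun h => hab (Fin.ext h)
  have := a.isLt
  have := b.isLt
  rcases lt_or_gt_of_ne h0 with h1 | h1
  · exact h.uu _ _ h1 (by omega)
  · exact (h.uu _ _ h1 (by omega)).symm

lemma Ears.ww' {G : SimpleGraph V} {j : ℕ} {u w : ℕ → V} (h : Ears G j u w)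
    {a b : Fin j} (hab : a ≠ b) : NA G (w a.val) (w b.val) := by
  have h0 : a.val ≠ b.val := fun h => hab (Fin.ext h)
  have := a.isLt
  have := b.isLt
  rcases lt_or_gt_of_ne h0 with h1 | h1
  · exact h.ww _ _ h1 (by omega)
  · exact (h.ww _ _ h1 (by omega)).symm

lemma chainS3_ind {G : SimpleGraph V} {j : ℕ} {u w : ℕ → V} {z x : V} (h : Ears G j u w)
    (hz : ∀ a, a ≤ j → G.Adj z (u a)) (hzw : ∀ a, a < j → NA G (w a) z)
    (hxu : ∀ a, a ≤ j → x ≠ u a ∧ (G.Adj x (u a) ↔ (a ≠ 0 ∧ a ≠ j))) (hxz : G.Adj x z)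
    (hxw : ∀ a, a < j → NA G (w a) x) : chainS3 j ⊴ G := by
  unfold chainS3
  refine split_ind (fun o => o.elim z (fun i => u i.val)) (fun o => o.elim x (fun i => w i.val))
    ?_ ?_ ?_
  · rintro (_ | a) (_ | b) hab
    · exact absurd rfl hab
    · exact hz b.val (by have := b.isLt; omega)
    · exact (hz a.val (by have := a.isLt; omega)).symm
    · exact h.uu' (fun h' => hab (congrArg some h'))
  · rintro (_ | d) (_ | a)
    · exact ⟨hxz.ne, iff_of_true hxz trivial⟩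
    · exact hxu a.val (by have := a.isLt; omega)
    · have h1 := hzw d.val d.isLt
      exact ⟨h1.1, iff_of_false h1.2 not_false⟩
    · exact h.wu d.val a.val d.isLt (by have := a.isLt; omega)
  · rintro (_ | d) (_ | e) hde
    · exact absurd rfl hde
    · exact (hxw e.val e.isLt).symm
    · exact hxw d.val d.isLt
    · exact h.ww' (fun h' => hde (congrArg some h'))

lemma chainS4_ind {G : SimpleGraph V} {j : ℕ} {u w : ℕ → V} {x : V} (h : Ears G j u w)
    (hxu : ∀ a, a ≤ j → x ≠ u a ∧ (G.Adj x (u a) ↔ (a ≠ 0 ∧ a ≠ j)))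
    (hxw : ∀ a, a < j → NA G (w a) x) : chainS4 j ⊴ G := by
  unfold chainS4
  refine split_ind (fun i => u i.val) (fun o => o.elim x (fun i => w i.val)) ?_ ?_ ?_
  · intro a b hab
    exact h.uu' hab
  · rintro (_ | d) a
    · exact hxu a.val (by have := a.isLt; omega)
    · exact h.wu d.val a.val d.isLt (by have := a.isLt; omega)
  · rintro (_ | d) (_ | e) hde
    · exact absurd rfl hde
    · exact (hxw e.val e.isLt).symm
    · exact hxw d.val d.isLt
    · exact h.ww' (fun h' => hde (congrArg some h'))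

lemma chainS5_ind {G : SimpleGraph V} {j : ℕ} {u w : ℕ → V} {x x' : V} (h : Ears G j u w)
    (hxu : ∀ a, a ≤ j → x ≠ u a ∧ (G.Adj x (u a) ↔ a ≠ j))
    (hxu' : ∀ a, a ≤ j → x' ≠ u a ∧ (G.Adj x' (u a) ↔ a ≠ 0))
    (hxw : ∀ a, a < j → NA G (w a) x) (hxw' : ∀ a, a < j → NA G (w a) x')
    (hxx : NA G x x') : chainS5 j ⊴ G := by
  unfold chainS5
  refine split_ind (fun i => u i.val) (fun o => Sum.elim (fun i : Fin j => w i.val)
    (fun b : Bool => if b then x' else x) o) ?_ ?_ ?_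
  · intro a b hab
    exact h.uu' hab
  · rintro (d | (_ | _)) a
    · exact h.wu d.val a.val d.isLt (by have := a.isLt; omega)
    · exact hxu a.val (by have := a.isLt; omega)
    · exact hxu' a.val (by have := a.isLt; omega)
  · rintro (d | (_ | _)) (e | (_ | _)) hde
    · exact h.ww' (fun h' => hde (congrArg Sum.inl h'))
    · exact hxw d.val d.isLt
    · exact hxw' d.val d.isLt
    · exact (hxw e.val e.isLt).symm
    · exact absurd rfl hde
    · exact hxx
    · exact (hxw' e.val e.isLt).symm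
    · exact hxx.symm
    · exact absurd rfl hde

lemma chainS6_ind {G : SimpleGraph V} {j : ℕ} {u w : ℕ → V} {z x x' : V} (h : Ears G j u w)
    (hz : ∀ a, a ≤ j → G.Adj z (u a)) (hzw : ∀ a, a < j → NA G (w a) z)
    (hxu : ∀ a, a ≤ j → x ≠ u a ∧ (G.Adj x (u a) ↔ a ≠ j))
    (hxu' : ∀ a, a ≤ j → x' ≠ u a ∧ (G.Adj x' (u a) ↔ a ≠ 0))
    (hxz : G.Adj x z) (hxz' : G.Adj x' z)
    (hxw : ∀ a, a < j → NA G (w a) x) (hxw' : ∀ a, a < j → NA G (w a) x')
    (hxx : NA G x x') : chainS6 j ⊴ G := by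
  unfold chainS6
  refine split_ind (fun o => o.elim z (fun i => u i.val))
    (fun o => Sum.elim (fun i : Fin j => w i.val)
    (fun b : Bool => if b then x' else x) o) ?_ ?_ ?_
  · rintro (_ | a) (_ | b) hab
    · exact absurd rfl hab
    · exact hz b.val (by have := b.isLt; omega)
    · exact (hz a.val (by have := a.isLt; omega)).symm
    · exact h.uu' (fun h' => hab (congrArg some h'))
  · rintro (d | (_ | _)) (_ | a)
    · have h1 := hzw d.val d.isLt
      exact ⟨h1.1, iff_of_false h1.2 not_false⟩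
    · exact h.wu d.val a.val d.isLt (by have := a.isLt; omega)
    · exact ⟨hxz.ne, iff_of_true hxz trivial⟩
    · exact hxu a.val (by have := a.isLt; omega)
    · exact ⟨hxz'.ne, iff_of_true hxz' trivial⟩
    · exact hxu' a.val (by have := a.isLt; omega)
  · rintro (d | (_ | _)) (e | (_ | _)) hde
    · exact h.ww' (fun h' => hde (congrArg Sum.inl h'))
    · exact hxw d.val d.isLt
    · exact hxw' d.val d.isLt
    · exact (hxw e.val e.isLt).symm
    · exact absurd rfl hde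
    · exact hxx
    · exact (hxw' e.val e.isLt).symm
    · exact hxx.symm
    · exact absurd rfl hde

end Fam

end Pool.Agent.Lib.MP_50b720_co
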