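import Pool.Agent.Lib.MP_50b720_co.Full.Codes

set_option autoImplicit false
set_option linter.unnecessarySeqFocus false
set_option linter.unreachableTactic false
set_option linter.unusedTactic false
set_option linter.constructorNameAsVariable false
set_option linter.unusedSimpArgs false

/-!
# The fan families of the list are chordal and minimally not circle graphs
-/

namespace Pool.Agent.Lib.MP_50b720_co

open SimpleGraph

/-- Adjacency of the fan graphs, on codes: `u i` is the path, `x` and `y` are `p` and `q`, and
`z` is the vertex adjacent to exactly `p` and `q`. -/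
def fnA (k s : ℕ) : Cd → Cd → Prop
  | .u i, .u m => m = i + 1 ∨ i = m + 1
  | .u i, .x => i ≤ k ∨ (s = 0 ∧ i = k + 1)
  | .x, .u i => i ≤ k ∨ (s = 0 ∧ i = k + 1)
  | .u i, .y => (1 ≤ i ∧ i ≤ k) ∨ (s = 1 ∧ i = k + 1)
  | .y, .u i => (1 ≤ i ∧ i ≤ k) ∨ (s = 1 ∧ i = k + 1)
  | .x, .y => True
  | .y, .x => True
  | .z, .x => True
  | .x, .z => True
  | .z, .y => True
  | .y, .z => True
  | _, _ => False

/-- Codes in use; `hz`, `hx`, `hy` say whether `z`, `x`, `y` are there. -/
def fnT (k i0 hz hx hy : ℕ) : Cd → Prop
  | .u i => i ≤ k + 1 ∧ i ≠ i0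
  | .w _ => False
  | .z => hz = 1
  | .x => hx = 1
  | .y => hy = 1

/-- First ends. -/
def fnP (k c : ℕ) (el zl : ℤ) : Cd → ℤ
  | .u i => if i = 0 then -4 else if i = k + 1 then el else
      4 * (i : ℤ) + if (i % 2 = 0 ↔ i < c) then 3 else -3
  | .w _ => 0
  | .z => zl
  | .x => -1
  | .y => 4 * (k : ℤ) + 8

/-- Second ends. -/
def fnQ (k c : ℕ) (er zr : ℤ) : Cd → ℤ
  | .u i => if i = 0 then 3 else if i = k + 1 then er else
      8 * (k : ℤ) + 24 - 4 * (i : ℤ) + if (i % 2 = 0 ↔ i < c) then 3 else -3
  | .w _ => 0
  | .z => zr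
  | .x => 4 * (k : ℤ) + 16
  | .y => 8 * (k : ℤ) + 25

/-- A chord diagram for the codes in use. -/
def FnPos (k s i0 hz hx hy : ℕ) (P Q : Cd → ℤ) : Prop :=
  (∀ c, fnT k i0 hz hx hy c → P c < Q c) ∧
    ∀ c d, fnT k i0 hz hx hy c → fnT k i0 hz hx hy d → c.before d →
      GoodP (fnA k s c d) (P c) (Q c) (P d) (Q d)

lemma posF (k s : ℕ) (hk : 4 ≤ k) (hs : s = k % 2) (i0 : ℕ) (hi0 : i0 ≤ k + 1) :
    FnPos k s i0 0 1 1
      (fnP k i0 (if s = 1 then 4 * (k : ℤ) + 1 else 4 * (k : ℤ) + 14) 0)
      (fnQ k i0 (if s = 1 then 4 * (k : ℤ) + 10 else 4 * (k : ℤ) + 23) 0) := by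
  refine ⟨?_, ?_⟩
  · intro c hc
    cases c <;> simp only [fnT, fnP, fnQ] at * <;>
      first
      | omega
      | (split_ifs <;> omega)
  · intro c d hc hd hcd
    cases c <;> cases d <;>
      simp only [Cd.before, fnT, fnA, fnP, fnQ, GoodP, true_iff, false_iff] at * <;>
      first
      | omega
      | (split_ifs <;> omega)

/-- without `p` -/
lemma posFp (k s : ℕ) (hk : 4 ≤ k) (hs : s = k % 2) :
    FnPos k s (k + 2) 0 0 1
      (fnP k (k + 2) (if s = 1 then 4 * (k : ℤ) + 5 else 4 * (k : ℤ) + 1) 0)
      (fnQ k (k + 2) (if s = 1 then 4 * (k : ℤ) + 22 else 4 * (k : ℤ) + 5) 0) := by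
  refine ⟨?_, ?_⟩
  · intro c hc
    cases c <;> simp only [fnT, fnP, fnQ] at * <;>
      first
      | omega
      | (split_ifs <;> omega)
  · intro c d hc hd hcd
    cases c <;> cases d <;>
      simp only [Cd.before, fnT, fnA, fnP, fnQ, GoodP, true_iff, false_iff] at * <;>
      first
      | omega
      | (split_ifs <;> omega)

/-- without `q` -/
lemma posFq (k s : ℕ) (hk : 4 ≤ k) (hs : s = k % 2) :
    FnPos k s (k + 2) 0 1 0
      (fnP k (k + 2) (if s = 1 then 4 * (k : ℤ) + 19 else 4 * (k : ℤ) + 1) 0)
      (fnQ k (k + 2) (if s = 1 then 4 * (k : ℤ) + 22 else 4 * (k : ℤ) + 20) 0) := by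
  refine ⟨?_, ?_⟩
  · intro c hc
    cases c <;> simp only [fnT, fnP, fnQ] at * <;>
      first
      | omega
      | (split_ifs <;> omega)
  · intro c d hc hd hcd
    cases c <;> cases d <;>
      simp only [Cd.before, fnT, fnA, fnP, fnQ, GoodP, true_iff, false_iff] at * <;>
      first
      | omega
      | (split_ifs <;> omega)

lemma posY (k s : ℕ) (hk : 3 ≤ k) (hs : s = (k + 1) % 2) (i0 : ℕ) (hi0 : i0 ≤ k + 1) :
    FnPos k s i0 1 1 1
      (fnP k (k + 2) (if s = 1 then 4 * (k : ℤ) + 1 else 4 * (k : ℤ) + 14) (4 * (i0 : ℤ)))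
      (fnQ k (k + 2) (if s = 1 then 4 * (k : ℤ) + 10 else 4 * (k : ℤ) + 23)
        (8 * (k : ℤ) + 24 - 4 * (i0 : ℤ))) := by
  refine ⟨?_, ?_⟩
  · intro c hc
    cases c <;> simp only [fnT, fnP, fnQ] at * <;>
      first
      | omega
      | (split_ifs <;> omega)
  · intro c d hc hd hcd
    cases c <;> cases d <;>
      simp only [Cd.before, fnT, fnA, fnP, fnQ, GoodP, true_iff, false_iff] at * <;>
      first
      | omega
      | (split_ifs <;> omega)

/-- without `y` -/
lemma posYy (k s : ℕ) (hk : 3 ≤ k) (hs : s = (k + 1) % 2) :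
    FnPos k s (k + 2) 0 1 1
      (fnP k (k + 2) (if s = 1 then 4 * (k : ℤ) + 1 else 4 * (k : ℤ) + 14) 0)
      (fnQ k (k + 2) (if s = 1 then 4 * (k : ℤ) + 10 else 4 * (k : ℤ) + 23) 0) := by
  refine ⟨?_, ?_⟩
  · intro c hc
    cases c <;> simp only [fnT, fnP, fnQ] at * <;>
      first
      | omega
      | (split_ifs <;> omega)
  · intro c d hc hd hcd
    cases c <;> cases d <;>
      simp only [Cd.before, fnT, fnA, fnP, fnQ, GoodP, true_iff, false_iff] at * <;>
      first
      | omega
      | (split_ifs <;> omega)

/-- without `p` -/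
lemma posYp (k s : ℕ) (hk : 3 ≤ k) (hs : s = (k + 1) % 2) :
    FnPos k s (k + 2) 1 0 1
      (fnP k (k + 2) (if s = 1 then 4 * (k : ℤ) + 1 else 4 * (k : ℤ) + 14) (8 * (k : ℤ) + 24))
      (fnQ k (k + 2) (if s = 1 then 4 * (k : ℤ) + 10 else 4 * (k : ℤ) + 23)
        (8 * (k : ℤ) + 27)) := by
  refine ⟨?_, ?_⟩
  · intro c hc
    cases c <;> simp only [fnT, fnP, fnQ] at * <;>
      first
      | omega
      | (split_ifs <;> omega)
  · intro c d hc hd hcd
    cases c <;> cases d <;>
      simp only [Cd.before, fnT, fnA, fnP, fnQ, GoodP, true_iff, false_iff] at * <;>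
      first
      | omega
      | (split_ifs <;> omega)

/-- without `q` -/
lemma posYq (k s : ℕ) (hk : 3 ≤ k) (hs : s = (k + 1) % 2) :
    FnPos k s (k + 2) 1 1 0
      (fnP k (k + 2) (if s = 1 then 4 * (k : ℤ) + 1 else 4 * (k : ℤ) + 14) (-2))
      (fnQ k (k + 2) (if s = 1 then 4 * (k : ℤ) + 10 else 4 * (k : ℤ) + 23) 0) := by
  refine ⟨?_, ?_⟩
  · intro c hc
    cases c <;> simp only [fnT, fnP, fnQ] at * <;>
      first
      | omega
      | (split_ifs <;> omega)
  · intro c d hc hd hcd
    cases c <;> cases d <;>
      simp only [Cd.before, fnT, fnA, fnP, fnQ, GoodP, true_iff, false_iff] at * <;>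
      first
      | omega
      | (split_ifs <;> omega)

/-- codes of `fan k s` -/
def gF (k : ℕ) : Fin (k + 2) ⊕ Bool → Cd
  | .inl i => .u i.val
  | .inr false => .x
  | .inr true => .y

/-- codes of `fanY k s` -/
def gY (k : ℕ) : Option (Fin (k + 2)) ⊕ Bool → Cd
  | .inl (some i) => .u i.val
  | .inl none => .z
  | .inr false => .x
  | .inr true => .y

lemma gF_inj (k : ℕ) : Function.Injective (gF k) := by
  rintro (a | (_ | _)) (b | (_ | _)) h <;> simp_all [gF, Fin.ext_iff]

lemma gY_inj (k : ℕ) : Function.Injective (gY k) := by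
  rintro ((_ | a) | (_ | _)) ((_ | b) | (_ | _)) h <;> simp_all [gY, Fin.ext_iff]

lemma fan_adj (k : ℕ) (s : Bool) (a b : Fin (k + 2) ⊕ Bool) :
    (fan k s).Adj a b ↔ fnA k (if s then 1 else 0) (gF k a) (gF k b) := by
  have h0 : ∀ a : Fin (k + 2), a = 0 ↔ a.val = 0 := fun a => by
    rw [Fin.ext_iff]; rfl
  have h1 : ∀ a : Fin (k + 2), a = Fin.last (k + 1) ↔ a.val = k + 1 := fun a => by
    rw [Fin.ext_iff]; rfl
  rcases a with a | (_ | _) <;> rcases b with b | (_ | _) <;> cases s <;>
    simp [fan, gF, fnA, h0, h1, -Fin.val_eq_zero_iff] <;> omega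

lemma fanY_adj (k : ℕ) (s : Bool) (a b : Option (Fin (k + 2)) ⊕ Bool) :
    (fanY k s).Adj a b ↔ fnA k (if s then 1 else 0) (gY k a) (gY k b) := by
  have h0 : ∀ a : Fin (k + 2), a = 0 ↔ a.val = 0 := fun a => by
    rw [Fin.ext_iff]; rfl
  have h1 : ∀ a : Fin (k + 2), a = Fin.last (k + 1) ↔ a.val = k + 1 := fun a => by
    rw [Fin.ext_iff]; rfl
  rcases a with (_ | a) | (_ | _) <;> rcases b with (_ | b) | (_ | _) <;> cases s <;>
    simp [fanY, gY, fnA, h0, h1, -Fin.val_eq_zero_iff] <;> omega

lemma circ_of_fnPos {V : Type*} {G : SimpleGraph V} {k s i0 hz hx hy : ℕ} {P Q : Cd → ℤ}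
    (h : FnPos k s i0 hz hx hy P Q) (g : V → Cd) (hg : Function.Injective g)
    (hA : ∀ a b, G.Adj a b ↔ fnA k s (g a) (g b)) (S : Set V)
    (hT : ∀ a ∈ S, fnT k i0 hz hx hy (g a)) : Circ G S :=
  circ_of_code g hg (fnA k s) hA P Q (fnT k i0 hz hx hy) hT h.1 h.2

lemma fan_s (k : ℕ) : (if decide (Odd k) then 1 else 0 : ℕ) = k % 2 := by
  simp only [decide_eq_true_eq, Nat.odd_iff]
  split_ifs <;> omega

lemma fanY_s (k : ℕ) : (if decide (Even k) then 1 else 0 : ℕ) = (k + 1) % 2 := by
  simp only [decide_eq_true_eq, Nat.even_iff]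
  split_ifs <;> omega

lemma exists_ne_of_ne_univ' {V : Type*} {S : Set V} (hS : S ≠ Set.univ) :
    ∃ v, ∀ a ∈ S, a ≠ v := by
  obtain ⟨v, hv⟩ := (Set.ne_univ_iff_exists_notMem S).mp hS
  exact ⟨v, fun a ha h => hv (h ▸ ha)⟩

/-- Proper induced subgraphs of the fans of the list are circle graphs. -/
theorem fan_circ {k : ℕ} (hk : 4 ≤ k) (S : Set (Fin (k + 2) ⊕ Bool)) (hS : S ≠ Set.univ) :
    Circ (fan k (decide (Odd k))) S := by
  obtain ⟨v, hv⟩ := exists_ne_of_ne_univ' hS
  rcases v with i | (_ | _)
  · refine circ_of_fnPos (posF k _ hk (fan_s k) i.val (by omega)) (gF k) (gF_inj k)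
      (fan_adj k _) S ?_
    intro a ha
    have := hv a ha
    rcases a with a | (_ | _) <;> simp [gF, fnT, Fin.ext_iff] at * <;> omega
  · refine circ_of_fnPos (posFp k _ hk (fan_s k)) (gF k) (gF_inj k) (fan_adj k _) S ?_
    intro a ha
    have := hv a ha
    rcases a with a | (_ | _) <;> simp [gF, fnT, Fin.ext_iff] at * <;> omega
  · refine circ_of_fnPos (posFq k _ hk (fan_s k)) (gF k) (gF_inj k) (fan_adj k _) S ?_
    intro a ha
    have := hv a ha
    rcases a with a | (_ | _) <;> simp [gF, fnT, Fin.ext_iff] at * <;> omega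

/-- Proper induced subgraphs of the fans of the list are circle graphs. -/
theorem fanY_circ {k : ℕ} (hk : 3 ≤ k) (S : Set (Option (Fin (k + 2)) ⊕ Bool))
    (hS : S ≠ Set.univ) : Circ (fanY k (decide (Even k))) S := by
  obtain ⟨v, hv⟩ := exists_ne_of_ne_univ' hS
  rcases v with (_ | i) | (_ | _)
  · refine circ_of_fnPos (posYy k _ hk (fanY_s k)) (gY k) (gY_inj k) (fanY_adj k _) S ?_
    intro a ha
    have := hv a ha
    rcases a with (_ | a) | (_ | _) <;> simp [gY, fnT, Fin.ext_iff] at * <;> omega
  · refine circ_of_fnPos (posY k _ hk (fanY_s k) i.val (by omega)) (gY k) (gY_inj k)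
      (fanY_adj k _) S ?_
    intro a ha
    have := hv a ha
    rcases a with (_ | a) | (_ | _) <;> simp [gY, fnT, Fin.ext_iff] at * <;> omega
  · refine circ_of_fnPos (posYp k _ hk (fanY_s k)) (gY k) (gY_inj k) (fanY_adj k _) S ?_
    intro a ha
    have := hv a ha
    rcases a with (_ | a) | (_ | _) <;> simp [gY, fnT, Fin.ext_iff] at * <;> omega
  · refine circ_of_fnPos (posYq k _ hk (fanY_s k)) (gY k) (gY_inj k) (fanY_adj k _) S ?_
    intro a ha
    have := hv a ha
    rcases a with (_ | a) | (_ | _) <;> simp [gY, fnT, Fin.ext_iff] at * <;> omega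

/-- Rank for chordality. -/
def fnR (k : ℕ) : Cd → ℕ
  | .u i => if i = k + 1 then 0 else i
  | .x => k + 1
  | .y => k + 1
  | _ => 0

lemma fn_chord (k s hz hx hy : ℕ) (hk : 1 ≤ k) :
    ∀ a b c, fnT k (k + 2) hz hx hy a → fnT k (k + 2) hz hx hy b →
    fnT k (k + 2) hz hx hy c → fnA k s a b → fnA k s a c → b ≠ c →
    fnR k a ≤ fnR k b → fnR k a ≤ fnR k c → fnA k s b c := by
  intro a b c ha hb hc hab hac hbc h1 h2
  cases a <;> cases b <;> cases c <;>
    simp only [fnT, fnA, fnR, ne_eq, Cd.u.injEq, Cd.w.injEq, not_true_eq_false, reduceCtorEq,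
      not_false_eq_true] at * <;>
    first
    | omega
    | (split_ifs at * <;> omega)

lemma gF_T (k : ℕ) (a : Fin (k + 2) ⊕ Bool) : fnT k (k + 2) 0 1 1 (gF k a) := by
  rcases a with a | (_ | _) <;> simp [gF, fnT] <;> omega

lemma gY_T (k : ℕ) (a : Option (Fin (k + 2)) ⊕ Bool) : fnT k (k + 2) 1 1 1 (gY k a) := by
  rcases a with (_ | a) | (_ | _) <;> simp [gY, fnT] <;> omega

theorem fan_chordal {k : ℕ} (hk : 1 ≤ k) (s : Bool) : IsChordal (fan k s) :=
  chordal_of_code (gF k) (gF_inj k) (fan_adj k s) (gF_T k) (fnR k)
    (fn_chord k _ 0 1 1 hk)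

theorem fanY_chordal {k : ℕ} (hk : 1 ≤ k) (s : Bool) : IsChordal (fanY k s) :=
  chordal_of_code (gY k) (gY_inj k) (fanY_adj k s) (gY_T k) (fnR k)
    (fn_chord k _ 1 1 1 hk)

lemma gF_surj (k : ℕ) (c : Cd) (h : fnT k (k + 2) 0 1 1 c) : ∃ v, gF k v = c := by
  cases c with
  | u i => exact ⟨.inl ⟨i, by simp [fnT] at h; omega⟩, rfl⟩
  | w i => simp [fnT] at h
  | z => simp [fnT] at h
  | x => exact ⟨.inr false, rfl⟩
  | y => exact ⟨.inr true, rfl⟩

lemma gY_surj (k : ℕ) (c : Cd) (h : fnT k (k + 2) 1 1 1 c) : ∃ v, gY k v = c := by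
  cases c with
  | u i => exact ⟨.inl (some ⟨i, by simp [fnT] at h; omega⟩), rfl⟩
  | w i => simp [fnT] at h
  | z => exact ⟨.inl none, rfl⟩
  | x => exact ⟨.inr false, rfl⟩
  | y => exact ⟨.inr true, rfl⟩

lemma fan_even_cert {n : ℕ} (hn : 4 ≤ n) (hp : (n) % 2 = 0) {b : Cd → Cd → ℕ}
    (h : NajiC (fnT n (n + 2) 0 1 1) (fnA n 0) b) : False := by
  have et : (b (.u 0) (.u 1) + b (.u n) (.u (n + 1)) + b .x (.u 0) + b .x (.u 1) + b .x (.u n) +
      b .x (.u (n + 1)) + (n - 0)) % 2 = 0 :=
    h.telp .x 0 n (by (try intros); simp only [fnT, fnA, ne_eq, Cd.u.injEq, Cd.w.injEq,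
      not_true_eq_false, reduceCtorEq, not_false_eq_true, true_and, and_true, false_and,
      and_false, true_or, or_true, false_or, or_false, true_implies, false_implies,
      implies_true] <;> omega) (by (try intros); simp only [fnT, fnA, ne_eq, Cd.u.injEq,
      Cd.w.injEq, not_true_eq_false, reduceCtorEq, not_false_eq_true, true_and, and_true,
      false_and, and_false, true_or, or_true, false_or, or_false, true_implies, false_implies,
      implies_true] <;> omega) (by (try intros); simp only [fnT, fnA, ne_eq, Cd.u.injEq,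
      Cd.w.injEq, not_true_eq_false, reduceCtorEq, not_false_eq_true, true_and, and_true,
      false_and, and_false, true_or, or_true, false_or, or_false, true_implies, false_implies,
      implies_true] <;> omega) (by simp [fnA]) (by simp [fnA])
      (by intro i; simp only [fnA]; omega) n (by omega) le_rfl
  have e1 := h.n1 (.u 0) (.u 1) (by (try intros); simp only [fnT, fnA, ne_eq, Cd.u.injEq,
    Cd.w.injEq, not_true_eq_false, reduceCtorEq, not_false_eq_true, true_and, and_true,
    false_and, and_false, true_or, or_true, false_or, or_false, true_implies, false_implies,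
    implies_true] <;> omega)
  have e2 := h.n3 (.u 1) (.u 0) .y (by (try intros); simp only [fnT, fnA, ne_eq, Cd.u.injEq,
    Cd.w.injEq, not_true_eq_false, reduceCtorEq, not_false_eq_true, true_and, and_true,
    false_and, and_false, true_or, or_true, false_or, or_false, true_implies, false_implies,
    implies_true] <;> omega)
  have e3 := h.n1 (.u 1) .y (by (try intros); simp only [fnT, fnA, ne_eq, Cd.u.injEq, Cd.w.injEq,
    not_true_eq_false, reduceCtorEq, not_false_eq_true, true_and, and_true, false_and,
    and_false, true_or, or_true, false_or, or_false, true_implies, false_implies, implies_true]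
    <;> omega)
  have e4 := h.n3 (.u n) (.u (n + 1)) .y (by (try intros); simp only [fnT, fnA, ne_eq, Cd.u.injEq,
    Cd.w.injEq, not_true_eq_false, reduceCtorEq, not_false_eq_true, true_and, and_true,
    false_and, and_false, true_or, or_true, false_or, or_false, true_implies, false_implies,
    implies_true] <;> omega)
  have e5 := h.n1 (.u n) .y (by (try intros); simp only [fnT, fnA, ne_eq, Cd.u.injEq, Cd.w.injEq,
    not_true_eq_false, reduceCtorEq, not_false_eq_true, true_and, and_true, false_and,
    and_false, true_or, or_true, false_or, or_false, true_implies, false_implies, implies_true]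
    <;> omega)
  have e6 := h.n3 .x (.u 0) .y (by (try intros); simp only [fnT, fnA, ne_eq, Cd.u.injEq,
    Cd.w.injEq, not_true_eq_false, reduceCtorEq, not_false_eq_true, true_and, and_true,
    false_and, and_false, true_or, or_true, false_or, or_false, true_implies, false_implies,
    implies_true] <;> omega)
  have e7 := h.n3 .x (.u 1) (.u n) (by (try intros); simp only [fnT, fnA, ne_eq, Cd.u.injEq,
    Cd.w.injEq, not_true_eq_false, reduceCtorEq, not_false_eq_true, true_and, and_true,
    false_and, and_false, true_or, or_true, false_or, or_false, true_implies, false_implies,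
    implies_true] <;> omega)
  have e8 := h.n3 .x (.u (n + 1)) .y (by (try intros); simp only [fnT, fnA, ne_eq, Cd.u.injEq,
    Cd.w.injEq, not_true_eq_false, reduceCtorEq, not_false_eq_true, true_and, and_true,
    false_and, and_false, true_or, or_true, false_or, or_false, true_implies, false_implies,
    implies_true] <;> omega)
  have e9 := h.n3 .y (.u 1) (.u n) (by (try intros); simp only [fnT, fnA, ne_eq, Cd.u.injEq,
    Cd.w.injEq, not_true_eq_false, reduceCtorEq, not_false_eq_true, true_and, and_true,
    false_and, and_false, true_or, or_true, false_or, or_false, true_implies, false_implies,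
    implies_true] <;> omega)
  clear h
  omega

lemma fan_odd_cert {n : ℕ} (hn : 4 ≤ n + 1) (hp : (n + 1) % 2 = 1) {b : Cd → Cd → ℕ}
    (h : NajiC (fnT (n + 1) (n + 1 + 2) 0 1 1) (fnA (n + 1) 1) b) : False := by
  have et : (b (.u 0) (.u 1) + b (.u n) (.u (n + 1)) + b .x (.u 0) + b .x (.u 1) + b .x (.u n) +
      b .x (.u (n + 1)) + (n - 0)) % 2 = 0 :=
    h.telp .x 0 n (by (try intros); simp only [fnT, fnA, ne_eq, Cd.u.injEq, Cd.w.injEq,
      not_true_eq_false, reduceCtorEq, not_false_eq_true, true_and, and_true, false_and,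
      and_false, true_or, or_true, false_or, or_false, true_implies, false_implies,
      implies_true] <;> omega) (by (try intros); simp only [fnT, fnA, ne_eq, Cd.u.injEq,
      Cd.w.injEq, not_true_eq_false, reduceCtorEq, not_false_eq_true, true_and, and_true,
      false_and, and_false, true_or, or_true, false_or, or_false, true_implies, false_implies,
      implies_true] <;> omega) (by (try intros); simp only [fnT, fnA, ne_eq, Cd.u.injEq,
      Cd.w.injEq, not_true_eq_false, reduceCtorEq, not_false_eq_true, true_and, and_true,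
      false_and, and_false, true_or, or_true, false_or, or_false, true_implies, false_implies,
      implies_true] <;> omega) (by simp [fnA]) (by simp [fnA])
      (by intro i; simp only [fnA]; omega) n (by omega) le_rfl
  have e1 := h.n1 (.u 0) (.u 1) (by (try intros); simp only [fnT, fnA, ne_eq, Cd.u.injEq,
    Cd.w.injEq, not_true_eq_false, reduceCtorEq, not_false_eq_true, true_and, and_true,
    false_and, and_false, true_or, or_true, false_or, or_false, true_implies, false_implies,
    implies_true] <;> omega)
  have e2 := h.n3 (.u 1) (.u 0) .y (by (try intros); simp only [fnT, fnA, ne_eq, Cd.u.injEq,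
    Cd.w.injEq, not_true_eq_false, reduceCtorEq, not_false_eq_true, true_and, and_true,
    false_and, and_false, true_or, or_true, false_or, or_false, true_implies, false_implies,
    implies_true] <;> omega)
  have e3 := h.n1 (.u 1) .y (by (try intros); simp only [fnT, fnA, ne_eq, Cd.u.injEq, Cd.w.injEq,
    not_true_eq_false, reduceCtorEq, not_false_eq_true, true_and, and_true, false_and,
    and_false, true_or, or_true, false_or, or_false, true_implies, false_implies, implies_true]
    <;> omega)
  have e4 := h.n1 (.u n) (.u (n + 1)) (by (try intros); simp only [fnT, fnA, ne_eq, Cd.u.injEq,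
    Cd.w.injEq, not_true_eq_false, reduceCtorEq, not_false_eq_true, true_and, and_true,
    false_and, and_false, true_or, or_true, false_or, or_false, true_implies, false_implies,
    implies_true] <;> omega)
  have e5 := h.n3 (.u (n + 1)) (.u n) (.u (n + 2)) (by (try intros); simp only [fnT, fnA, ne_eq,
    Cd.u.injEq, Cd.w.injEq, not_true_eq_false, reduceCtorEq, not_false_eq_true, true_and,
    and_true, false_and, and_false, true_or, or_true, false_or, or_false, true_implies,
    false_implies, implies_true] <;> omega)
  have e6 := h.n3 (.u (n + 1)) (.u (n + 2)) .x (by (try intros); simp only [fnT, fnA, ne_eq,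
    Cd.u.injEq, Cd.w.injEq, not_true_eq_false, reduceCtorEq, not_false_eq_true, true_and,
    and_true, false_and, and_false, true_or, or_true, false_or, or_false, true_implies,
    false_implies, implies_true] <;> omega)
  have e7 := h.n1 (.u (n + 1)) .x (by (try intros); simp only [fnT, fnA, ne_eq, Cd.u.injEq,
    Cd.w.injEq, not_true_eq_false, reduceCtorEq, not_false_eq_true, true_and, and_true,
    false_and, and_false, true_or, or_true, false_or, or_false, true_implies, false_implies,
    implies_true] <;> omega)
  have e8 := h.n3 .x (.u 0) .y (by (try intros); simp only [fnT, fnA, ne_eq, Cd.u.injEq,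
    Cd.w.injEq, not_true_eq_false, reduceCtorEq, not_false_eq_true, true_and, and_true,
    false_and, and_false, true_or, or_true, false_or, or_false, true_implies, false_implies,
    implies_true] <;> omega)
  have e9 := h.n3 .x (.u 1) (.u n) (by (try intros); simp only [fnT, fnA, ne_eq, Cd.u.injEq,
    Cd.w.injEq, not_true_eq_false, reduceCtorEq, not_false_eq_true, true_and, and_true,
    false_and, and_false, true_or, or_true, false_or, or_false, true_implies, false_implies,
    implies_true] <;> omega)
  have e10 := h.n1 .x .y (by (try intros); simp only [fnT, fnA, ne_eq, Cd.u.injEq, Cd.w.injEq,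
    not_true_eq_false, reduceCtorEq, not_false_eq_true, true_and, and_true, false_and,
    and_false, true_or, or_true, false_or, or_false, true_implies, false_implies, implies_true]
    <;> omega)
  have e11 := h.n3 .y (.u 1) (.u n) (by (try intros); simp only [fnT, fnA, ne_eq, Cd.u.injEq,
    Cd.w.injEq, not_true_eq_false, reduceCtorEq, not_false_eq_true, true_and, and_true,
    false_and, and_false, true_or, or_true, false_or, or_false, true_implies, false_implies,
    implies_true] <;> omega)
  have e12 := h.n3 .y (.u n) (.u (n + 2)) (by (try intros); simp only [fnT, fnA, ne_eq,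
    Cd.u.injEq, Cd.w.injEq, not_true_eq_false, reduceCtorEq, not_false_eq_true, true_and,
    and_true, false_and, and_false, true_or, or_true, false_or, or_false, true_implies,
    false_implies, implies_true] <;> omega)
  have e13 := h.n3 .y (.u (n + 2)) .x (by (try intros); simp only [fnT, fnA, ne_eq, Cd.u.injEq,
    Cd.w.injEq, not_true_eq_false, reduceCtorEq, not_false_eq_true, true_and, and_true,
    false_and, and_false, true_or, or_true, false_or, or_false, true_implies, false_implies,
    implies_true] <;> omega)
  clear h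
  omega

lemma fanY_odd_cert {n : ℕ} (hn : 3 ≤ n) (hp : (n) % 2 = 1) {b : Cd → Cd → ℕ}
    (h : NajiC (fnT n (n + 2) 1 1 1) (fnA n 0) b) : False := by
  have ec : b .z (.u n) = b .z (.u 1) :=
    h.constp .z 1 n (by (try intros); simp only [fnT, fnA, ne_eq, Cd.u.injEq, Cd.w.injEq,
      not_true_eq_false, reduceCtorEq, not_false_eq_true, true_and, and_true, false_and,
      and_false, true_or, or_true, false_or, or_false, true_implies, false_implies,
      implies_true] <;> omega) (by (try intros); simp only [fnT, fnA, ne_eq, Cd.u.injEq,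
      Cd.w.injEq, not_true_eq_false, reduceCtorEq, not_false_eq_true, true_and, and_true,
      false_and, and_false, true_or, or_true, false_or, or_false, true_implies, false_implies,
      implies_true] <;> omega) (by (try intros); simp only [fnT, fnA, ne_eq, Cd.u.injEq,
      Cd.w.injEq, not_true_eq_false, reduceCtorEq, not_false_eq_true, true_and, and_true,
      false_and, and_false, true_or, or_true, false_or, or_false, true_implies, false_implies,
      implies_true] <;> omega) (by simp) (by simp [fnA]) n
      (by omega) le_rfl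
  have e1 := h.n2 (.u 0) (.u n) (.u (n + 1)) (by (try intros); simp only [fnT, fnA, ne_eq,
    Cd.u.injEq, Cd.w.injEq, not_true_eq_false, reduceCtorEq, not_false_eq_true, true_and,
    and_true, false_and, and_false, true_or, or_true, false_or, or_false, true_implies,
    false_implies, implies_true] <;> omega)
  have e2 := h.n2 (.u 0) (.u n) .y (by (try intros); simp only [fnT, fnA, ne_eq, Cd.u.injEq,
    Cd.w.injEq, not_true_eq_false, reduceCtorEq, not_false_eq_true, true_and, and_true,
    false_and, and_false, true_or, or_true, false_or, or_false, true_implies, false_implies,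
    implies_true] <;> omega)
  have e3 := h.n2 (.u 0) .y .z (by (try intros); simp only [fnT, fnA, ne_eq, Cd.u.injEq,
    Cd.w.injEq, not_true_eq_false, reduceCtorEq, not_false_eq_true, true_and, and_true,
    false_and, and_false, true_or, or_true, false_or, or_false, true_implies, false_implies,
    implies_true] <;> omega)
  have e4 := h.n2 (.u (n + 1)) (.u 0) (.u 1) (by (try intros); simp only [fnT, fnA, ne_eq,
    Cd.u.injEq, Cd.w.injEq, not_true_eq_false, reduceCtorEq, not_false_eq_true, true_and,
    and_true, false_and, and_false, true_or, or_true, false_or, or_false, true_implies,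
    false_implies, implies_true] <;> omega)
  have e5 := h.n2 (.u (n + 1)) (.u 1) .y (by (try intros); simp only [fnT, fnA, ne_eq, Cd.u.injEq,
    Cd.w.injEq, not_true_eq_false, reduceCtorEq, not_false_eq_true, true_and, and_true,
    false_and, and_false, true_or, or_true, false_or, or_false, true_implies, false_implies,
    implies_true] <;> omega)
  have e6 := h.n2 (.u (n + 1)) .y .z (by (try intros); simp only [fnT, fnA, ne_eq, Cd.u.injEq,
    Cd.w.injEq, not_true_eq_false, reduceCtorEq, not_false_eq_true, true_and, and_true,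
    false_and, and_false, true_or, or_true, false_or, or_false, true_implies, false_implies,
    implies_true] <;> omega)
  have e7 := h.n3 .x (.u 0) (.u (n + 1)) (by (try intros); simp only [fnT, fnA, ne_eq, Cd.u.injEq,
    Cd.w.injEq, not_true_eq_false, reduceCtorEq, not_false_eq_true, true_and, and_true,
    false_and, and_false, true_or, or_true, false_or, or_false, true_implies, false_implies,
    implies_true] <;> omega)
  have e8 := h.n3 .x (.u 0) .z (by (try intros); simp only [fnT, fnA, ne_eq, Cd.u.injEq,
    Cd.w.injEq, not_true_eq_false, reduceCtorEq, not_false_eq_true, true_and, and_true,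
    false_and, and_false, true_or, or_true, false_or, or_false, true_implies, false_implies,
    implies_true] <;> omega)
  have e9 := h.n3 .x (.u (n + 1)) .z (by (try intros); simp only [fnT, fnA, ne_eq, Cd.u.injEq,
    Cd.w.injEq, not_true_eq_false, reduceCtorEq, not_false_eq_true, true_and, and_true,
    false_and, and_false, true_or, or_true, false_or, or_false, true_implies, false_implies,
    implies_true] <;> omega)
  have e10 := h.n2 .z (.u 0) (.u 1) (by (try intros); simp only [fnT, fnA, ne_eq, Cd.u.injEq,
    Cd.w.injEq, not_true_eq_false, reduceCtorEq, not_false_eq_true, true_and, and_true,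
    false_and, and_false, true_or, or_true, false_or, or_false, true_implies, false_implies,
    implies_true] <;> omega)
  have e11 := h.n2 .z (.u n) (.u (n + 1)) (by (try intros); simp only [fnT, fnA, ne_eq,
    Cd.u.injEq, Cd.w.injEq, not_true_eq_false, reduceCtorEq, not_false_eq_true, true_and,
    and_true, false_and, and_false, true_or, or_true, false_or, or_false, true_implies,
    false_implies, implies_true] <;> omega)
  clear h
  omega

lemma fanY_even_cert {n : ℕ} (hn : 3 ≤ n) (hp : (n) % 2 = 0) {b : Cd → Cd → ℕ}
    (h : NajiC (fnT n (n + 2) 1 1 1) (fnA n 1) b) : False := by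
  have ec : b .z (.u n) = b .z (.u 1) :=
    h.constp .z 1 n (by (try intros); simp only [fnT, fnA, ne_eq, Cd.u.injEq, Cd.w.injEq,
      not_true_eq_false, reduceCtorEq, not_false_eq_true, true_and, and_true, false_and,
      and_false, true_or, or_true, false_or, or_false, true_implies, false_implies,
      implies_true] <;> omega) (by (try intros); simp only [fnT, fnA, ne_eq, Cd.u.injEq,
      Cd.w.injEq, not_true_eq_false, reduceCtorEq, not_false_eq_true, true_and, and_true,
      false_and, and_false, true_or, or_true, false_or, or_false, true_implies, false_implies,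
      implies_true] <;> omega) (by (try intros); simp only [fnT, fnA, ne_eq, Cd.u.injEq,
      Cd.w.injEq, not_true_eq_false, reduceCtorEq, not_false_eq_true, true_and, and_true,
      false_and, and_false, true_or, or_true, false_or, or_false, true_implies, false_implies,
      implies_true] <;> omega) (by simp) (by simp [fnA]) n
      (by omega) le_rfl
  have e1 := h.n2 (.u 0) (.u n) .y (by (try intros); simp only [fnT, fnA, ne_eq, Cd.u.injEq,
    Cd.w.injEq, not_true_eq_false, reduceCtorEq, not_false_eq_true, true_and, and_true,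
    false_and, and_false, true_or, or_true, false_or, or_false, true_implies, false_implies,
    implies_true] <;> omega)
  have e2 := h.n2 (.u 0) .y .z (by (try intros); simp only [fnT, fnA, ne_eq, Cd.u.injEq,
    Cd.w.injEq, not_true_eq_false, reduceCtorEq, not_false_eq_true, true_and, and_true,
    false_and, and_false, true_or, or_true, false_or, or_false, true_implies, false_implies,
    implies_true] <;> omega)
  have e3 := h.n2 (.u 1) (.u n) (.u (n + 1)) (by (try intros); simp only [fnT, fnA, ne_eq,
    Cd.u.injEq, Cd.w.injEq, not_true_eq_false, reduceCtorEq, not_false_eq_true, true_and,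
    and_true, false_and, and_false, true_or, or_true, false_or, or_false, true_implies,
    false_implies, implies_true] <;> omega)
  have e4 := h.n2 (.u n) (.u 0) (.u 1) (by (try intros); simp only [fnT, fnA, ne_eq, Cd.u.injEq,
    Cd.w.injEq, not_true_eq_false, reduceCtorEq, not_false_eq_true, true_and, and_true,
    false_and, and_false, true_or, or_true, false_or, or_false, true_implies, false_implies,
    implies_true] <;> omega)
  have e5 := h.n2 (.u (n + 1)) (.u 1) .x (by (try intros); simp only [fnT, fnA, ne_eq, Cd.u.injEq,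
    Cd.w.injEq, not_true_eq_false, reduceCtorEq, not_false_eq_true, true_and, and_true,
    false_and, and_false, true_or, or_true, false_or, or_false, true_implies, false_implies,
    implies_true] <;> omega)
  have e6 := h.n2 (.u (n + 1)) .x .z (by (try intros); simp only [fnT, fnA, ne_eq, Cd.u.injEq,
    Cd.w.injEq, not_true_eq_false, reduceCtorEq, not_false_eq_true, true_and, and_true,
    false_and, and_false, true_or, or_true, false_or, or_false, true_implies, false_implies,
    implies_true] <;> omega)
  have e7 := h.n3 .x (.u 0) (.u n) (by (try intros); simp only [fnT, fnA, ne_eq, Cd.u.injEq,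
    Cd.w.injEq, not_true_eq_false, reduceCtorEq, not_false_eq_true, true_and, and_true,
    false_and, and_false, true_or, or_true, false_or, or_false, true_implies, false_implies,
    implies_true] <;> omega)
  have e8 := h.n3 .x (.u 0) .z (by (try intros); simp only [fnT, fnA, ne_eq, Cd.u.injEq,
    Cd.w.injEq, not_true_eq_false, reduceCtorEq, not_false_eq_true, true_and, and_true,
    false_and, and_false, true_or, or_true, false_or, or_false, true_implies, false_implies,
    implies_true] <;> omega)
  have e9 := h.n3 .x (.u n) .z (by (try intros); simp only [fnT, fnA, ne_eq, Cd.u.injEq,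
    Cd.w.injEq, not_true_eq_false, reduceCtorEq, not_false_eq_true, true_and, and_true,
    false_and, and_false, true_or, or_true, false_or, or_false, true_implies, false_implies,
    implies_true] <;> omega)
  have e10 := h.n3 .y (.u 1) (.u n) (by (try intros); simp only [fnT, fnA, ne_eq, Cd.u.injEq,
    Cd.w.injEq, not_true_eq_false, reduceCtorEq, not_false_eq_true, true_and, and_true,
    false_and, and_false, true_or, or_true, false_or, or_false, true_implies, false_implies,
    implies_true] <;> omega)
  have e11 := h.n3 .y (.u 1) (.u (n + 1)) (by (try intros); simp only [fnT, fnA, ne_eq,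
    Cd.u.injEq, Cd.w.injEq, not_true_eq_false, reduceCtorEq, not_false_eq_true, true_and,
    and_true, false_and, and_false, true_or, or_true, false_or, or_false, true_implies,
    false_implies, implies_true] <;> omega)
  have e12 := h.n3 .y (.u n) .z (by (try intros); simp only [fnT, fnA, ne_eq, Cd.u.injEq,
    Cd.w.injEq, not_true_eq_false, reduceCtorEq, not_false_eq_true, true_and, and_true,
    false_and, and_false, true_or, or_true, false_or, or_false, true_implies, false_implies,
    implies_true] <;> omega)
  have e13 := h.n3 .y (.u (n + 1)) .z (by (try intros); simp only [fnT, fnA, ne_eq, Cd.u.injEq,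
    Cd.w.injEq, not_true_eq_false, reduceCtorEq, not_false_eq_true, true_and, and_true,
    false_and, and_false, true_or, or_true, false_or, or_false, true_implies, false_implies,
    implies_true] <;> omega)
  have e14 := h.n2 .z (.u 0) (.u 1) (by (try intros); simp only [fnT, fnA, ne_eq, Cd.u.injEq,
    Cd.w.injEq, not_true_eq_false, reduceCtorEq, not_false_eq_true, true_and, and_true,
    false_and, and_false, true_or, or_true, false_or, or_false, true_implies, false_implies,
    implies_true] <;> omega)
  have e15 := h.n2 .z (.u n) (.u (n + 1)) (by (try intros); simp only [fnT, fnA, ne_eq,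
    Cd.u.injEq, Cd.w.injEq, not_true_eq_false, reduceCtorEq, not_false_eq_true, true_and,
    and_true, false_and, and_false, true_or, or_true, false_or, or_false, true_implies,
    false_implies, implies_true] <;> omega)
  clear h
  omega

/-- The fans of the list have no chord diagram. -/
theorem fan_not_circ {k : ℕ} (hk : 4 ≤ k) : ¬ Circ (fan k (decide (Odd k))) Set.univ := by
  intro hC
  have : Nonempty (Fin (k + 2) ⊕ Bool) := ⟨Sum.inr false⟩
  obtain ⟨b, h⟩ := hC.najiC (gF k) (T := fnT k (k + 2) 0 1 1) (fan_adj k _) (gF_surj k)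
  rw [fan_s] at h
  rcases Nat.mod_two_eq_zero_or_one k with hp | hp
  · rw [hp] at h
    exact fan_even_cert hk hp h
  · rw [hp] at h
    obtain ⟨n, rfl⟩ : ∃ n, k = n + 1 := ⟨k - 1, by omega⟩
    exact fan_odd_cert hk hp h

/-- The fans of the list have no chord diagram. -/
theorem fanY_not_circ {k : ℕ} (hk : 3 ≤ k) : ¬ Circ (fanY k (decide (Even k))) Set.univ := by
  intro hC
  have : Nonempty (Option (Fin (k + 2)) ⊕ Bool) := ⟨Sum.inr false⟩
  obtain ⟨b, h⟩ := hC.najiC (gY k) (T := fnT k (k + 2) 1 1 1) (fanY_adj k _) (gY_surj k)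
  rw [fanY_s] at h
  rcases Nat.mod_two_eq_zero_or_one k with hp | hp
  · rw [show (k + 1) % 2 = 1 by omega] at h
    exact fanY_even_cert hk hp h
  · rw [show (k + 1) % 2 = 0 by omega] at h
    exact fanY_odd_cert hk hp h

end Pool.Agent.Lib.MP_50b720_co
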