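import Pool.Agent.Lib.MP_50b720_co.Struct

set_option autoImplicit false

namespace Pool.Agent.Lib.MP_50b720_co

variable {V : Type*}

/-- The part of a chord diagram on one side of a chord: the vertices of `X` are intervals, the
vertices of `S` (whose chords cross the given chord) are points. -/
structure HalfRep (G : SimpleGraph V) (X S : Set V) (l r a : V → ℤ) : Prop where
  lt : ∀ x ∈ X, l x < r x
  pt : ∀ x ∈ X, ∀ s ∈ S, l x ≠ a s ∧ r x ≠ a s ∧ (G.Adj x s ↔ l x < a s ∧ a s < r x)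
  inj : ∀ s ∈ S, ∀ t ∈ S, s ≠ t → a s ≠ a t
  ov : ∀ x ∈ X, ∀ y ∈ X, x ≠ y → l x ≠ l y ∧ l x ≠ r y ∧ r x ≠ l y ∧ r x ≠ r y ∧
    (G.Adj x y ↔ (l x < l y ∧ l y < r x ∧ r x < r y) ∨ (l y < l x ∧ l x < r y ∧ r y < r x))

lemma HalfRep.mono {G : SimpleGraph V} {X S X' S' : Set V} {l r a : V → ℤ}
    (h : HalfRep G X S l r a) (hX : X' ⊆ X) (hS : S' ⊆ S) : HalfRep G X' S' l r a :=
  ⟨fun x hx => h.lt x (hX hx), fun x hx s hs => h.pt x (hX hx) s (hS hs),
    fun s hs t ht => h.inj s (hS hs) t (hS ht), fun x hx y hy => h.ov x (hX hx) y (hX hy)⟩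

lemma HalfRep.neg {G : SimpleGraph V} {X S : Set V} {l r a : V → ℤ}
    (h : HalfRep G X S l r a) :
    HalfRep G X S (fun x => - r x) (fun x => - l x) (fun s => - a s) := by
  refine ⟨fun x hx => ?_, fun x hx s hs => ?_, fun s hs t ht hst => ?_, fun x hx y hy hxy => ?_⟩
  · have := h.lt x hx; beta_reduce; omega
  · obtain ⟨h1, h2, h3⟩ := h.pt x hx s hs
    beta_reduce
    refine ⟨by omega, by omega, ?_⟩
    rw [h3]; omega
  · have := h.inj s hs t ht hst; beta_reduce; omega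
  · obtain ⟨h1, h2, h3, h4, h5⟩ := h.ov x hx y hy hxy
    have := h.lt x hx
    have := h.lt y hy
    beta_reduce
    refine ⟨by omega, by omega, by omega, by omega, ?_⟩
    rw [h5]; omega

/-- Cutting a chord diagram along the chord `z`. -/
theorem Circ.halves [Finite V] {G : SimpleGraph V} {X S : Set V} {z : V}
    (h : Circ G (X ∪ S ∪ {z})) (hzX : z ∉ X) (hzS : z ∉ S) (hXS : Disjoint X S)
    (hS : ∀ s ∈ S, ∀ t ∈ S, s ≠ t → G.Adj s t) (hSz : ∀ s ∈ S, G.Adj s z)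
    (hXz : ∀ x ∈ X, ¬ G.Adj x z) :
    ∃ (c : V → Prop) (l r a l' r' a' : V → ℤ),
      HalfRep G {x ∈ X | c x} S l r a ∧ HalfRep G {x ∈ X | ¬ c x} S l' r' a' ∧
      (∀ s ∈ S, ∀ t ∈ S, (a s < a t ↔ a' s < a' t)) ∧
      (∀ x ∈ X, ∀ y ∈ X, c x → ¬ c y → ¬ G.Adj x y) := by
  obtain ⟨p0, q0, h0⟩ := h
  obtain ⟨p, q, ⟨h1, h2⟩, h3, h4⟩ := h0.exists_min (y := z) (by simp)
  have mX : ∀ x ∈ X, x ∈ X ∪ S ∪ {z} := fun x hx => Or.inl (Or.inl hx)
  have mS : ∀ s ∈ S, s ∈ X ∪ S ∪ {z} := fun x hx => Or.inl (Or.inr hx)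
  have mz : z ∈ X ∪ S ∪ {z} := by simp
  have neX : ∀ x ∈ X, x ≠ z := fun x hx h => hzX (h ▸ hx)
  have neS : ∀ x ∈ S, x ≠ z := fun x hx h => hzS (h ▸ hx)
  have neXS : ∀ x ∈ X, ∀ s ∈ S, x ≠ s := fun x hx s hs h => (Set.disjoint_left.mp hXS hx) (h ▸ hs)
  have side : ∀ x ∈ X, (p x < q z ∧ q x < q z) ∨ (q z < p x ∧ q z < q x) := by
    intro x hx
    obtain ⟨e1, e2, e3, e4, e5⟩ := h2 x (mX x hx) z mz (neX x hx)
    obtain ⟨f1, f2⟩ := h4 x (mX x hx) (neX x hx)
    have := hXz x hx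
    rw [e5] at this
    unfold Cross Btw at this; omega
  have sS : ∀ s ∈ S, (p s < q z ∧ q z < q s) ∨ (q s < q z ∧ q z < p s) := by
    intro s hs
    obtain ⟨e1, e2, e3, e4, e5⟩ := h2 s (mS s hs) z mz (neS s hs)
    obtain ⟨f1, f2⟩ := h4 s (mS s hs) (neS s hs)
    have := hSz s hs
    rw [e5] at this
    unfold Cross Btw at this; omega
  refine ⟨fun x => p x < q z, fun x => min (p x) (q x), fun x => max (p x) (q x),
    fun x => min (p x) (q x), fun x => min (p x) (q x), fun x => max (p x) (q x),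
    fun x => max (p x) (q x), ?_, ?_, ?_, ?_⟩
  · refine ⟨fun x hx => ?_, fun x hx s hs => ?_, fun s hs t ht hst => ?_,
      fun x hx y hy hxy => ?_⟩
    · have := h1 x (mX x hx.1); beta_reduce; omega
    · obtain ⟨e1, e2, e3, e4, e5⟩ := h2 x (mX x hx.1) s (mS s hs) (neXS x hx.1 s hs)
      have c1 := side x hx.1
      have c2 := sS s hs
      have c3 : p x < q z := hx.2
      have c4 := h1 x (mX x hx.1)
      beta_reduce
      refine ⟨by omega, by omega, ?_⟩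
      rw [e5]; unfold Cross Btw; omega
    · obtain ⟨e1, e2, e3, e4, e5⟩ := h2 s (mS s hs) t (mS t ht) hst
      beta_reduce; omega
    · obtain ⟨e1, e2, e3, e4, e5⟩ := h2 x (mX x hx.1) y (mX y hy.1) hxy
      have c4 := h1 x (mX x hx.1)
      have c5 := h1 y (mX y hy.1)
      beta_reduce
      refine ⟨by omega, by omega, by omega, by omega, ?_⟩
      rw [e5]; unfold Cross Btw; omega
  · refine ⟨fun x hx => ?_, fun x hx s hs => ?_, fun s hs t ht hst => ?_,
      fun x hx y hy hxy => ?_⟩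
    · have := h1 x (mX x hx.1); beta_reduce; omega
    · obtain ⟨e1, e2, e3, e4, e5⟩ := h2 x (mX x hx.1) s (mS s hs) (neXS x hx.1 s hs)
      have c1 := side x hx.1
      have c2 := sS s hs
      have c3 : ¬ p x < q z := hx.2
      have c4 := h1 x (mX x hx.1)
      beta_reduce
      refine ⟨by omega, by omega, ?_⟩
      rw [e5]; unfold Cross Btw; omega
    · obtain ⟨e1, e2, e3, e4, e5⟩ := h2 s (mS s hs) t (mS t ht) hst
      beta_reduce; omega
    · obtain ⟨e1, e2, e3, e4, e5⟩ := h2 x (mX x hx.1) y (mX y hy.1) hxy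
      have c4 := h1 x (mX x hx.1)
      have c5 := h1 y (mX y hy.1)
      beta_reduce
      refine ⟨by omega, by omega, by omega, by omega, ?_⟩
      rw [e5]; unfold Cross Btw; omega
  · intro s hs t ht
    by_cases hst : s = t
    · subst hst; simp
    · obtain ⟨e1, e2, e3, e4, e5⟩ := h2 s (mS s hs) t (mS t ht) hst
      have c1 := sS s hs
      have c2 := sS t ht
      have c3 := hS s hs t ht hst
      rw [e5] at c3
      unfold Cross Btw at c3
      beta_reduce; omega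
  · intro x hx y hy hcx hcy hxy
    have c1 := side x hx
    have c2 := side y hy
    obtain ⟨e1, e2, e3, e4, e5⟩ := h2 x (mX x hx) y (mX y hy) hxy.ne
    rw [e5] at hxy
    unfold Cross Btw at hxy; omega

open Classical in
/-- Gluing two half diagrams. -/
theorem Circ.glue [Finite V] {G : SimpleGraph V} {X Y S W : Set V} {l r a l' r' a' : V → ℤ}
    (hX : HalfRep G X S l r a) (hY : HalfRep G Y S l' r' a')
    (hord : ∀ s ∈ S, ∀ t ∈ S, (a s < a t ↔ a' s < a' t))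
    (hXS : Disjoint X S) (hYS : Disjoint Y S) (hXY : Disjoint X Y)
    (hWX : Disjoint W X) (hWY : Disjoint W Y) (hWS : Disjoint W S)
    (hW : ∀ w ∈ W, ∀ w' ∈ W, w = w') (hWSa : ∀ w ∈ W, ∀ s ∈ S, G.Adj w s)
    (hWXa : ∀ w ∈ W, ∀ x ∈ X, ¬ G.Adj w x) (hWYa : ∀ w ∈ W, ∀ x ∈ Y, ¬ G.Adj w x)
    (hS : ∀ s ∈ S, ∀ t ∈ S, s ≠ t → G.Adj s t)
    (hXYa : ∀ x ∈ X, ∀ y ∈ Y, ¬ G.Adj x y) : Circ G (X ∪ Y ∪ S ∪ W) := by
  obtain ⟨K1, hK1, hb1⟩ := exists_bound l r
  obtain ⟨K2, hK2, hb2⟩ := exists_bound l' r'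
  obtain ⟨K3, hK3, hb3⟩ := exists_bound a a'
  obtain ⟨K, hK, hb, hb', hba⟩ : ∃ K : ℤ, 0 < K ∧
      (∀ u, -K < l u ∧ l u < K ∧ -K < r u ∧ r u < K) ∧
      (∀ u, -K < l' u ∧ l' u < K ∧ -K < r' u ∧ r' u < K) ∧
      (∀ u, -K < a u ∧ a u < K ∧ -K < a' u ∧ a' u < K) := by
    refine ⟨K1 + K2 + K3, by positivity, fun u => ?_, fun u => ?_, fun u => ?_⟩
    · have := hb1 u; omega
    · have := hb2 u; omega
    · have := hb3 u; omega
  have nX : ∀ x ∈ X, x ∉ S ∧ x ∉ W ∧ x ∉ Y := fun x hx =>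
    ⟨fun h => Set.disjoint_left.mp hXS hx h, fun h => Set.disjoint_left.mp hWX h hx,
      fun h => Set.disjoint_left.mp hXY hx h⟩
  have nY : ∀ x ∈ Y, x ∉ S ∧ x ∉ W ∧ x ∉ X := fun x hx =>
    ⟨fun h => Set.disjoint_left.mp hYS hx h, fun h => Set.disjoint_left.mp hWY h hx,
      fun h => Set.disjoint_left.mp hXY h hx⟩
  have nW : ∀ x ∈ W, x ∉ S := fun x hx h => Set.disjoint_left.mp hWS hx h
  set P : V → ℤ := fun z => if z ∈ S then a z else if z ∈ W then -K else if z ∈ X then l z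
    else l' z + 2 * K with hP
  set Q : V → ℤ := fun z => if z ∈ S then a' z + 2 * K else if z ∈ W then K else if z ∈ X
    then r z else r' z + 2 * K with hQ
  have PS : ∀ s ∈ S, P s = a s := fun s hs => by simp [hP, hs]
  have QS : ∀ s ∈ S, Q s = a' s + 2 * K := fun s hs => by simp [hQ, hs]
  have PW : ∀ s ∈ W, P s = -K := fun s hs => by simp [hP, hs, nW s hs]
  have QW : ∀ s ∈ W, Q s = K := fun s hs => by simp [hQ, hs, nW s hs]
  have PX : ∀ s ∈ X, P s = l s := fun s hs => by simp [hP, hs, nX s hs]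
  have QX : ∀ s ∈ X, Q s = r s := fun s hs => by simp [hQ, hs, nX s hs]
  have PY : ∀ s ∈ Y, P s = l' s + 2 * K := fun s hs => by simp [hP, nY s hs]
  have QY : ∀ s ∈ Y, Q s = r' s + 2 * K := fun s hs => by simp [hQ, nY s hs]
  have XX : ∀ x ∈ X, ∀ y ∈ X, x ≠ y → PairOK G P Q x y := by
    intro x hx y hy hxy
    obtain ⟨e1, e2, e3, e4, e5⟩ := hX.ov x hx y hy hxy
    have := hX.lt x hx
    have := hX.lt y hy
    unfold PairOK
    rw [PX x hx, QX x hx, PX y hy, QX y hy]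
    refine ⟨e1, e2, e3, e4, ?_⟩
    rw [e5]; unfold Cross Btw; omega
  have YY : ∀ x ∈ Y, ∀ y ∈ Y, x ≠ y → PairOK G P Q x y := by
    intro x hx y hy hxy
    obtain ⟨e1, e2, e3, e4, e5⟩ := hY.ov x hx y hy hxy
    have := hY.lt x hx
    have := hY.lt y hy
    unfold PairOK
    rw [PY x hx, QY x hx, PY y hy, QY y hy]
    refine ⟨by omega, by omega, by omega, by omega, ?_⟩
    rw [e5]; unfold Cross Btw; omega
  have XYp : ∀ x ∈ X, ∀ y ∈ Y, PairOK G P Q x y := by
    intro x hx y hy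
    have h6 := hXYa x hx y hy
    have := hb x
    have := hb' y
    unfold PairOK
    rw [PX x hx, QX x hx, PY y hy, QY y hy]
    refine ⟨by omega, by omega, by omega, by omega, ?_⟩
    simp only [h6, false_iff]; unfold Cross Btw; omega
  have XSp : ∀ x ∈ X, ∀ y ∈ S, PairOK G P Q x y := by
    intro x hx y hy
    obtain ⟨e1, e2, e3⟩ := hX.pt x hx y hy
    have := hX.lt x hx
    have := hb x
    have := hba y
    unfold PairOK
    rw [PX x hx, QX x hx, PS y hy, QS y hy]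
    refine ⟨by omega, by omega, by omega, by omega, ?_⟩
    rw [e3]; unfold Cross Btw; omega
  have YSp : ∀ x ∈ Y, ∀ y ∈ S, PairOK G P Q x y := by
    intro x hx y hy
    obtain ⟨e1, e2, e3⟩ := hY.pt x hx y hy
    have := hY.lt x hx
    have := hb' x
    have := hba y
    unfold PairOK
    rw [PY x hx, QY x hx, PS y hy, QS y hy]
    refine ⟨by omega, by omega, by omega, by omega, ?_⟩
    rw [e3]; unfold Cross Btw; omega
  have SSp : ∀ x ∈ S, ∀ y ∈ S, x ≠ y → PairOK G P Q x y := by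
    intro x hx y hy hxy
    have e1 := hX.inj x hx y hy hxy
    have e2 := hY.inj x hx y hy hxy
    have e3 := hord x hx y hy
    have e4 := hS x hx y hy hxy
    have := hba x
    have := hba y
    unfold PairOK
    rw [PS x hx, QS x hx, PS y hy, QS y hy]
    refine ⟨by omega, by omega, by omega, by omega, ?_⟩
    simp only [e4, true_iff]; unfold Cross Btw; omega
  have WXp : ∀ w ∈ W, ∀ x ∈ X, PairOK G P Q w x := by
    intro w hw x hx
    have h6 := hWXa w hw x hx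
    have := hb x
    unfold PairOK
    rw [PX x hx, QX x hx, PW w hw, QW w hw]
    refine ⟨by omega, by omega, by omega, by omega, ?_⟩
    simp only [h6, false_iff]; unfold Cross Btw; omega
  have WYp : ∀ w ∈ W, ∀ x ∈ Y, PairOK G P Q w x := by
    intro w hw x hx
    have h6 := hWYa w hw x hx
    have := hb' x
    unfold PairOK
    rw [PY x hx, QY x hx, PW w hw, QW w hw]
    refine ⟨by omega, by omega, by omega, by omega, ?_⟩
    simp only [h6, false_iff]; unfold Cross Btw; omega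
  have WSp : ∀ w ∈ W, ∀ x ∈ S, PairOK G P Q w x := by
    intro w hw x hx
    have h6 := hWSa w hw x hx
    have := hba x
    unfold PairOK
    rw [PS x hx, QS x hx, PW w hw, QW w hw]
    refine ⟨by omega, by omega, by omega, by omega, ?_⟩
    simp only [h6, true_iff]; unfold Cross Btw; omega
  have PQ : ∀ x ∈ X ∪ Y ∪ S ∪ W, P x ≠ Q x := by
    rintro x (((hx | hx) | hx) | hx)
    · rw [PX x hx, QX x hx]; exact (hX.lt x hx).ne
    · rw [PY x hx, QY x hx]; have := hY.lt x hx; omega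
    · rw [PS x hx, QS x hx]; have := hba x; omega
    · rw [PW x hx, QW x hx]; omega
  refine ⟨P, Q, PQ, ?_⟩
  intro x hx y hy hxy
  change PairOK G P Q x y
  have sy : PairOK G P Q y x → PairOK G P Q x y := PairOK.symm (PQ y hy) (PQ x hx)
  rcases hx with ((hx | hx) | hx) | hx <;> rcases hy with ((hy | hy) | hy) | hy
  · exact XX x hx y hy hxy
  · exact XYp x hx y hy
  · exact XSp x hx y hy
  · exact sy (WXp y hy x hx)
  · exact sy (XYp y hy x hx)
  · exact YY x hx y hy hxy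
  · exact YSp x hx y hy
  · exact sy (WYp y hy x hx)
  · exact sy (XSp y hy x hx)
  · exact sy (YSp y hy x hx)
  · exact SSp x hx y hy hxy
  · exact sy (WSp y hy x hx)
  · exact WXp x hx y hy
  · exact WYp x hx y hy
  · exact WSp x hx y hy
  · exact absurd (hW x hx y hy) hxy

/-! ### Facts about half diagrams -/

section facts

variable {G : SimpleGraph V} {X S : Set V} {l r a : V → ℤ}

/-- neighbourhoods in `S` are convex -/
lemma HalfRep.conv (h : HalfRep G X S l r a) {x s t u : V} (hx : x ∈ X) (hs : s ∈ S)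
    (ht : t ∈ S) (hu : u ∈ S) (hst : a s < a t) (htu : a t < a u) (h1 : G.Adj x s)
    (h2 : G.Adj x u) : G.Adj x t := by
  rw [(h.pt x hx s hs).2.2] at h1
  rw [(h.pt x hx u hu).2.2] at h2
  rw [(h.pt x hx t ht).2.2]
  omega

/-- neighbours of a vertex complete to `s, t, u` see a prefix or a suffix -/
lemma HalfRep.pref (h : HalfRep G X S l r a) {c x s t u : V} (hc : c ∈ X) (hx : x ∈ X)
    (hs : s ∈ S) (ht : t ∈ S) (hu : u ∈ S) (hst : a s < a t) (htu : a t < a u)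
    (hcx : G.Adj c x) (h1 : G.Adj c s) (h3 : G.Adj c u) (hxt : G.Adj x t) :
    G.Adj x s ∨ G.Adj x u := by
  rw [(h.pt c hc s hs).2.2] at h1
  rw [(h.pt c hc u hu).2.2] at h3
  rw [(h.pt x hx t ht).2.2] at hxt
  rw [(h.ov c hc x hx hcx.ne).2.2.2.2] at hcx
  rw [(h.pt x hx s hs).2.2, (h.pt x hx u hu).2.2]
  omega

/-- nonadjacent intervals: neighbourhoods in `S` are nested or disjoint -/
lemma HalfRep.lam (h : HalfRep G X S l r a) {x y s t u : V} (hx : x ∈ X) (hy : y ∈ X)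
    (hxy : x ≠ y) (hs : s ∈ S) (ht : t ∈ S) (hu : u ∈ S)
    (n : ¬ G.Adj x y) (h1 : G.Adj x s) (h2 : ¬ G.Adj y s) (h3 : G.Adj x t) (h4 : G.Adj y t)
    (h5 : G.Adj y u) (h6 : ¬ G.Adj x u) : False := by
  obtain ⟨a1, a2, a3⟩ := h.pt x hx s hs
  obtain ⟨b1, b2, b3⟩ := h.pt y hy s hs
  obtain ⟨c1, c2, c3⟩ := h.pt x hx t ht
  obtain ⟨d1, d2, d3⟩ := h.pt y hy t ht
  obtain ⟨e1, e2, e3⟩ := h.pt y hy u hu
  obtain ⟨f1, f2, f3⟩ := h.pt x hx u hu
  obtain ⟨g1, g2, g3, g4, g5⟩ := h.ov x hx y hy hxy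
  rw [g5] at n
  rw [a3] at h1
  rw [b3] at h2
  rw [c3] at h3
  rw [d3] at h4
  rw [e3] at h5
  rw [f3] at h6
  omega

/-- a vertex `d` on the same side as a connected set `A`, with a point `u` which is seen by `A` but
not by `d`, does not contain an interval of `A` -/
lemma HalfRep.not_inside (h : HalfRep G X S l r a) {A : Set V} (hA : Cn G A) (hAX : A ⊆ X)
    {d u : V} (hd : d ∈ X) (hdA : d ∉ A) (hn : ∀ x ∈ A, ¬ G.Adj x d) (hu : u ∈ S)
    (hud : ¬ G.Adj d u) (huA : ∃ x ∈ A, G.Adj x u) :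
    ∀ x ∈ A, ¬ (l d < l x ∧ r x < r d) := by
  by_contra hcon
  push Not at hcon
  obtain ⟨x0, hx0, hx0'⟩ := hcon
  have hall : {x ∈ A | l d < l x ∧ r x < r d} = A := by
    by_contra hne
    obtain ⟨x, hx, y, hy, hxy⟩ := hA.2 {x ∈ A | l d < l x ∧ r x < r d} (fun z hz => hz.1)
      ⟨x0, hx0, hx0'⟩ hne
    apply hy.2
    have e1 := h.ov x (hAX hx.1) y (hAX hy.1) hxy.ne
    have e2 := h.ov y (hAX hy.1) d hd (fun h' => hdA (h' ▸ hy.1))
    have e3 := hn y hy.1
    have e4 := h.lt y (hAX hy.1)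
    have e5 := h.lt x (hAX hx.1)
    have e6 := hx.2
    rw [e2.2.2.2.2] at e3
    rw [e1.2.2.2.2] at hxy
    refine ⟨hy.1, ?_⟩
    omega
  obtain ⟨x, hx, hxu⟩ := huA
  have h1 : x ∈ {x ∈ A | l d < l x ∧ r x < r d} := by rw [hall]; exact hx
  have h2 := h1.2
  have e1 := h.pt x (hAX hx) u hu
  have e2 := h.pt d hd u hu
  rw [e1.2.2] at hxu
  rw [e2.2.2] at hud
  omega

/-- `d` is unbroken by a connected set `A` on the same side -/
lemma HalfRep.unbroken (h : HalfRep G X S l r a) {A : Set V} (hA : Cn G A) (hAX : A ⊆ X)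
    {d u : V} (hd : d ∈ X) (hdA : d ∉ A) (hn : ∀ x ∈ A, ¬ G.Adj x d) (hu : u ∈ S)
    (hud : ¬ G.Adj d u) (huA : ∃ x ∈ A, G.Adj x u) {x s t : V} (hx : x ∈ A) (hs : s ∈ S)
    (ht : t ∈ S) (hds : G.Adj d s) (hdt : G.Adj d t) : G.Adj x s ↔ G.Adj x t := by
  have h1 := h.not_inside hA hAX hd hdA hn hu hud huA x hx
  have e2 := h.ov x (hAX hx) d hd (fun h' => hdA (h' ▸ hx))
  have e3 := hn x hx
  have a1 := h.pt x (hAX hx) s hs
  have a2 := h.pt x (hAX hx) t ht
  have a3 := h.pt d hd s hs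
  have a4 := h.pt d hd t ht
  have a5 := h.lt x (hAX hx)
  have a6 := h.lt d hd
  rw [e2.2.2.2.2] at e3
  rw [a3.2.2] at hds
  rw [a4.2.2] at hdt
  rw [a1.2.2, a2.2.2]
  omega

end facts

end Pool.Agent.Lib.MP_50b720_co
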