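import Pool.Agent.Lib.MP_50b720_co.Full.ListDefs
import Pool.Agent.Lib.MP_50b720_co.Patterns

set_option autoImplicit false

namespace Pool.Agent.Lib.MP_50b720_co

open SimpleGraph

variable {V : Type*}

/-- chordal graphs without the listed induced subgraphs -/
structure NoListed (G : SimpleGraph V) : Prop where
  ch : IsChordal G
  sp : ∀ p ∈ sporadic, ¬ ofEdges p.1 p.2 ⊴ G
  sn : ∀ k, 4 ≤ k → Even k → ¬ sun k ⊴ G
  cs : ∀ k, 3 ≤ k → Odd k → ¬ centeredSun k ⊴ G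
  f1 : ∀ k, 4 ≤ k → ¬ fan k (decide (Odd k)) ⊴ G
  f2 : ∀ k, 3 ≤ k → ¬ fanY k (decide (Even k)) ⊴ G
  n1 : ∀ j, 5 ≤ j → Odd j → ¬ chainN j ⊴ G
  n2 : ∀ j, 4 ≤ j → Even j → ¬ chainNZ j ⊴ G
  s3 : ∀ j, 3 ≤ j → Odd j → ¬ chainS3 j ⊴ G
  s4 : ∀ j, 4 ≤ j → Even j → ¬ chainS4 j ⊴ G
  s5 : ∀ j, 3 ≤ j → Odd j → ¬ chainS5 j ⊴ G
  s6 : ∀ j, 2 ≤ j → Even j → ¬ chainS6 j ⊴ G

/-- the nonedges and edges are checked by a Boolean function -/
def chk (n : ℕ) (L E N : List (ℕ × ℕ)) : Bool :=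
  (List.range n).all fun j => (List.range j).all fun i =>
    if (i, j) ∈ L ∨ (j, i) ∈ L then decide ((i, j) ∈ E) else decide ((i, j) ∈ N)

/-- lookup -/
def look : List V → V → ℕ → V
  | [], d, _ => d
  | a :: _, _, 0 => a
  | _ :: l, d, n + 1 => look l d n

lemma ofEdges_ind {n : ℕ} {G : SimpleGraph V} {L E N : List (ℕ × ℕ)} (h : chk n L E N = true)
    (v : ℕ → V) (hE : ∀ q ∈ E, G.Adj (v q.1) (v q.2)) (hN : ∀ q ∈ N, NA G (v q.1) (v q.2)) :
    ofEdges n L ⊴ G := by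
  refine indContained_of_pairs _ (fun i => v i.val) ?_
  intro i j hij
  have hij' : i.val < j.val := hij
  unfold chk at h
  rw [List.all_eq_true] at h
  have h1 := h j.val (List.mem_range.mpr j.isLt)
  rw [List.all_eq_true] at h1
  have h2 := h1 i.val (List.mem_range.mpr hij')
  have hadj : (ofEdges n L).Adj i j ↔ ((i.val, j.val) ∈ L ∨ (j.val, i.val) ∈ L) := by
    unfold ofEdges
    rw [fromRel_adj]
    simp only [ne_eq, hij.ne, not_false_eq_true, true_and]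
  by_cases hL : (i.val, j.val) ∈ L ∨ (j.val, i.val) ∈ L
  · rw [if_pos hL] at h2
    have h3 := hE _ (of_decide_eq_true h2)
    exact ⟨h3.ne, iff_of_true h3 (hadj.mpr hL)⟩
  · rw [if_neg hL] at h2
    have h3 := hN _ (of_decide_eq_true h2)
    exact ⟨h3.1, iff_of_false h3.2 (fun h => hL (hadj.mp h))⟩

/-- the centered `3`-sun as a graph on `Fin 7` -/
lemma csun3_ind : centeredSun 3 ⊴ ofEdges 7 [(0, 1), (0, 2), (1, 2), (0, 3), (1, 3), (2, 3),
    (4, 0), (4, 1), (5, 1), (5, 2), (6, 2), (6, 0)] := by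
  refine ⟨⟨⟨Sum.elim (fun o => o.elim 3 (fun i : ZMod 3 => ⟨i.val, by have := i.val_lt; omega⟩))
    (fun i : ZMod 3 => ⟨i.val + 4, by have := i.val_lt; omega⟩), ?_⟩, ?_⟩⟩
  · intro a b
    revert a b
    decide
  · intro a b
    change (ofEdges 7 _).Adj _ _ ↔ _
    rcases a with a | a <;> rcases b with b | b
    · rw [csun_vv]
      revert a b
      decide
    · rw [(centeredSun 3).adj_comm, csun_wv]
      revert a b
      decide
    · rw [csun_wv]
      revert a b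
      decide
    · rw [iff_false_right (csun_ww a b)]
      revert a b
      decide

lemma NoListed.csun3 {G : SimpleGraph V} (hG : NoListed G) : ¬ ofEdges 7 [(0, 1), (0, 2),
    (1, 2), (0, 3), (1, 3), (2, 3), (4, 0), (4, 1), (5, 1), (5, 2), (6, 2), (6, 0)] ⊴ G :=
  fun h => hG.cs 3 le_rfl (by decide) (csun3_ind.trans h)

end Pool.Agent.Lib.MP_50b720_co
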