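import Pool.Agent.Lib.MP_50b720_co.Full.Chains

set_option autoImplicit false

namespace Pool.Agent.Lib.MP_50b720_co

variable {V : Type*}

/-- an order of `S` in which the classes of `R` are consecutive and the sets `T d` are convex -/
structure SideOrd (S D : Set V) (T : V → Set V) (R : V → V → Prop) (α : V → ℤ) : Prop where
  refl : ∀ s, R s s
  symm : ∀ s t, R s t → R t s
  trans : ∀ s t u, R s t → R t u → R s u
  inj : ∀ s ∈ S, ∀ t ∈ S, s ≠ t → α s ≠ α t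
  cont : ∀ s ∈ S, ∀ t ∈ S, ∀ u ∈ S, R s u → α s < α t → α t < α u → R s t
  conv : ∀ d ∈ D, ∀ s ∈ S, ∀ t ∈ S, ∀ u ∈ S, α s < α t → α t < α u → s ∈ T d → u ∈ T d → t ∈ T d

lemma SideOrd.neg {S D : Set V} {T : V → Set V} {R : V → V → Prop} {α : V → ℤ}
    (h : SideOrd S D T R α) : SideOrd S D T R (fun x => - α x) := by
  refine ⟨h.refl, h.symm, h.trans, ?_, ?_, ?_⟩
  · intro s hs t ht hst
    have := h.inj s hs t ht hst
    beta_reduce; omega
  · intro s hs t ht u hu h1 h2 h3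
    beta_reduce at h2 h3
    have h4 := h.cont u hu t ht s hs (h.symm _ _ h1) (by omega) (by omega)
    exact h.trans _ _ _ h1 h4
  · intro d hd s hs t ht u hu h1 h2 h3 h4
    beta_reduce at h1 h2
    exact h.conv d hd u hu t ht s hs (by omega) (by omega) h4 h3

/-- no chain with a bypassed element `r` -/
def NoR (S D : Set V) (T : V → Set V) (R1 R2 : V → V → Prop) (α β : V → ℤ) : Prop :=
  ∀ (m : ℕ) (d u : ℕ → V) (r : V), (∀ i ≤ m, d i ∈ D) → (∀ j ≤ m + 1, u j ∈ S) → r ∈ S →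
    (∀ i ≤ m, ∀ j ≤ m + 1, (u j ∈ T (d i) ↔ (j = i ∨ j = i + 1))) → (∀ i ≤ m, r ∉ T (d i)) →
    ¬ R1 (u 0) r → α (u 0) < α r → ¬ R2 r (u (m + 1)) → β r < β (u (m + 1)) →
    (∀ j, 1 ≤ j → j ≤ m → R1 (u j) r ∧ R2 (u j) r) → False

/-- a strict total order on a finite set is given by an integer function -/
lemma exists_rank_of [Finite V] {S : Set V} {P : V → V → Prop}
    (hirr : ∀ s ∈ S, ¬ P s s) (htr : ∀ s ∈ S, ∀ t ∈ S, ∀ u ∈ S, P s t → P t u → P s u)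
    (htot : ∀ s ∈ S, ∀ t ∈ S, s ≠ t → P s t ∨ P t s) :
    ∃ σ : V → ℤ, ∀ s ∈ S, ∀ t ∈ S, (σ s < σ t ↔ P s t) := by
  refine ⟨fun s => (({y ∈ S | P y s}).ncard : ℤ), ?_⟩
  have key : ∀ s ∈ S, ∀ t ∈ S, P s t → ({y ∈ S | P y s}).ncard < ({y ∈ S | P y t}).ncard := by
    intro s hs t ht h
    apply Set.ncard_lt_ncard _ (Set.toFinite _)
    refine ⟨fun y hy => ⟨hy.1, htr y hy.1 s hs t ht hy.2 h⟩, fun hsub => ?_⟩
    have : s ∈ {y ∈ S | P y s} := hsub ⟨hs, h⟩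
    exact hirr s hs this.2
  intro s hs t ht
  constructor
  · intro h
    beta_reduce at h
    by_contra hcon
    by_cases hst : s = t
    · subst hst; exact lt_irrefl _ h
    · rcases htot s hs t ht hst with h1 | h1
      · exact hcon h1
      · have := key t ht s hs h1
        omega
  · intro h
    have := key s hs t ht h
    beta_reduce; omega

section

variable {S D : Set V} {T : V → Set V} {R : V → V → Prop} {R1 R2 : V → V → Prop} {α β : V → ℤ}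

/-- weak order of the classes -/
def LeR (R : V → V → Prop) (α : V → ℤ) (s t : V) : Prop := R s t ∨ α s < α t

/-- the order relation between different classes -/
def LtR (R1 R2 : V → V → Prop) (α β : V → ℤ) (s t : V) : Prop :=
  ¬ (R1 s t ∧ R2 s t) ∧ LeR R1 α s t ∧ LeR R2 β s t

/-- the orders agree on pairs distinguished by both relations -/
def Agree (S : Set V) (R1 R2 : V → V → Prop) (α β : V → ℤ) : Prop :=
  ∀ s ∈ S, ∀ t ∈ S, ¬ R1 s t → ¬ R2 s t → (α s < α t ↔ β s < β t)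

lemma Agree.neg {R1 R2 : V → V → Prop} {α β : V → ℤ}
    (h1 : SideOrd S D T R1 α) (h2 : SideOrd S D T R2 β) (h : Agree S R1 R2 α β) :
    Agree S R1 R2 (fun x => - α x) (fun x => - β x) := by
  intro s hs t ht n1 n2
  have h3 := h s hs t ht n1 n2
  have hne : s ≠ t := fun h' => n1 (h' ▸ h1.refl s)
  have h4 := h1.inj s hs t ht hne
  have h5 := h2.inj s hs t ht hne
  beta_reduce
  constructor
  · intro h6
    by_contra h7
    have : β s < β t := by omega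
    have := h3.mpr this
    omega
  · intro h6
    by_contra h7
    have : α s < α t := by omega
    have := h3.mp this
    omega

lemma SideOrd.le_trans (h : SideOrd S D T R α) {s t u : V} (hs : s ∈ S) (ht : t ∈ S)
    (hu : u ∈ S) (h1 : LeR R α s t) (h2 : LeR R α t u) : LeR R α s u := by
  by_cases hsu : R s u
  · exact Or.inl hsu
  have hne : s ≠ u := fun h' => hsu (h' ▸ h.refl s)
  have h5 := h.inj s hs u hu hne
  right
  by_contra hcon
  rcases h1 with h1 | h1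
  · rcases h2 with h2 | h2
    · exact hsu (h.trans _ _ _ h1 h2)
    · have := h.cont t ht u hu s hs (h.symm _ _ h1) h2 (by omega)
      exact hsu (h.trans _ _ _ h1 this)
  · rcases h2 with h2 | h2
    · have := h.cont u hu s hs t ht (h.symm _ _ h2) (by omega) h1
      exact hsu (h.symm _ _ this)
    · omega

lemma SideOrd.sandwich (h : SideOrd S D T R α) {s t u : V} (hs : s ∈ S) (ht : t ∈ S)
    (hu : u ∈ S) (h1 : LeR R α s t) (h2 : LeR R α t u) (h3 : R s u) : R s t := by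
  rcases h1 with h1 | h1
  · exact h1
  · rcases h2 with h2 | h2
    · exact h.trans _ _ _ h3 (h.symm _ _ h2)
    · exact h.cont s hs t ht u hu h3 h1 h2

lemma SideOrd.le_antisymm (h : SideOrd S D T R α) {s t : V}
    (h1 : LeR R α s t) (h2 : LeR R α t s) : R s t := by
  rcases h1 with h1 | h1
  · exact h1
  · rcases h2 with h2 | h2
    · exact h.symm _ _ h2
    · omega

lemma SideOrd.le_total (h : SideOrd S D T R α) {s t : V} (hs : s ∈ S) (ht : t ∈ S) :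
    LeR R α s t ∨ LeR R α t s := by
  by_cases h1 : s = t
  · exact Or.inl (Or.inl (h1 ▸ h.refl s))
  · rcases lt_or_gt_of_ne (h.inj s hs t ht h1) with h2 | h2
    · exact Or.inl (Or.inr h2)
    · exact Or.inr (Or.inr h2)

variable (h1 : SideOrd S D T R1 α) (h2 : SideOrd S D T R2 β) (hag : Agree S R1 R2 α β)

include h1 h2 in
lemma ltR_asymm {s t : V} (h : LtR R1 R2 α β s t) : ¬ LtR R1 R2 α β t s := by
  intro h'
  exact h.1 ⟨h1.le_antisymm h.2.1 h'.2.1, h2.le_antisymm h.2.2 h'.2.2⟩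

include h1 h2 hag in
lemma ltR_total {s t : V} (hs : s ∈ S) (ht : t ∈ S) (h : ¬ (R1 s t ∧ R2 s t)) :
    LtR R1 R2 α β s t ∨ LtR R1 R2 α β t s := by
  have h' : ¬ (R1 t s ∧ R2 t s) := fun h' => h ⟨h1.symm _ _ h'.1, h2.symm _ _ h'.2⟩
  have hne : s ≠ t := fun h' => h ⟨h' ▸ h1.refl s, h' ▸ h2.refl s⟩
  have i1 := h1.inj s hs t ht hne
  have i2 := h2.inj s hs t ht hne
  by_cases h3 : R1 s t
  · rcases lt_or_gt_of_ne i2 with h5 | h5
    · exact Or.inl ⟨h, Or.inl h3, Or.inr h5⟩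
    · exact Or.inr ⟨h', Or.inl (h1.symm _ _ h3), Or.inr h5⟩
  · by_cases h4 : R2 s t
    · rcases lt_or_gt_of_ne i1 with h5 | h5
      · exact Or.inl ⟨h, Or.inr h5, Or.inl h4⟩
      · exact Or.inr ⟨h', Or.inr h5, Or.inl (h2.symm _ _ h4)⟩
    · have h6 := hag s hs t ht h3 h4
      rcases lt_or_gt_of_ne i1 with h5 | h5
      · exact Or.inl ⟨h, Or.inr h5, Or.inr (h6.mp h5)⟩
      · refine Or.inr ⟨h', Or.inr h5, Or.inr ?_⟩
        by_contra hcon
        have := h6.mpr (by omega)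
        omega

include h1 h2 in
lemma ltR_trans {s t u : V} (hs : s ∈ S) (ht : t ∈ S) (hu : u ∈ S)
    (h : LtR R1 R2 α β s t) (h' : LtR R1 R2 α β t u) : LtR R1 R2 α β s u := by
  refine ⟨fun h3 => h.1 ⟨?_, ?_⟩, h1.le_trans hs ht hu h.2.1 h'.2.1,
    h2.le_trans hs ht hu h.2.2 h'.2.2⟩
  · exact h1.sandwich hs ht hu h.2.1 h'.2.1 h3.1
  · exact h2.sandwich hs ht hu h.2.2 h'.2.2 h3.2

include h1 h2 in
lemma ltR_congr {s t t' : V} (hs : s ∈ S) (ht : t ∈ S) (ht' : t' ∈ S)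
    (h : LtR R1 R2 α β s t) (h' : R1 t t' ∧ R2 t t') : LtR R1 R2 α β s t' := by
  refine ⟨fun h3 => h.1 ⟨?_, ?_⟩, h1.le_trans hs ht ht' h.2.1 (Or.inl h'.1),
    h2.le_trans hs ht ht' h.2.2 (Or.inl h'.2)⟩
  · exact h1.trans _ _ _ h3.1 (h1.symm _ _ h'.1)
  · exact h2.trans _ _ _ h3.2 (h2.symm _ _ h'.2)

include h1 h2 in
lemma ltR_congr' {s t s' : V} (hs : s ∈ S) (ht : t ∈ S) (hs' : s' ∈ S)
    (h : LtR R1 R2 α β s t) (h' : R1 s s' ∧ R2 s s') : LtR R1 R2 α β s' t := by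
  refine ⟨fun h3 => h.1 ⟨?_, ?_⟩,
    h1.le_trans hs' hs ht (Or.inl (h1.symm _ _ h'.1)) h.2.1,
    h2.le_trans hs' hs ht (Or.inl (h2.symm _ _ h'.2)) h.2.2⟩
  · exact h1.trans _ _ _ h'.1 h3.1
  · exact h2.trans _ _ _ h'.2 h3.2

/-- `LtR` together with `¬ R1` gives the order in `α` -/
lemma ltR_left {s t : V} (h : LtR R1 R2 α β s t) (h3 : ¬ R1 s t) : α s < α t :=
  h.2.1.resolve_left h3

lemma ltR_right {s t : V} (h : LtR R1 R2 α β s t) (h3 : ¬ R2 s t) : β s < β t :=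
  h.2.2.resolve_left h3

/-- the order on one class -/
def ClassOrd (S D : Set V) (T : V → Set V) (R1 R2 : V → V → Prop) (α β : V → ℤ) (e0 : V)
    (τ : V → ℤ) : Prop :=
  GoodOrd {s | s ∈ S ∧ R1 s e0 ∧ R2 s e0} D T (fun x => x ∈ S ∧ LtR R1 R2 α β x e0)
    (fun x => x ∈ S ∧ LtR R1 R2 α β e0 x) τ

include h1 h2 in
/-- extraction of a bypassed chain from the situation of `mixed` -/
lemma chain_false {e0 : V} (he0 : e0 ∈ S) (hT : ∀ d ∈ D, T d ⊆ S)
    (hag : Agree S R1 R2 α β) (no : NoR S D T R1 R2 α β)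
    (hL : ∀ x ∈ S, LtR R1 R2 α β x e0 → ¬ R1 x e0)
    (hR : ∀ x ∈ S, LtR R1 R2 α β e0 x → ¬ R2 e0 x) (m : ℕ) (d : ℕ → V)
    (hd : ∀ i ≤ m, d i ∈ D)
    (hov : ∀ i < m, Ov T (d i) (d (i + 1)))
    (hcl : ∀ i j, i + 2 ≤ j → j ≤ m → ∀ x, x ∈ T (d i) → x ∉ T (d j))
    (hd0 : ∃ x ∈ T (d 0), x ∈ S ∧ LtR R1 R2 α β x e0)
    (hdm : ∃ x ∈ T (d m), x ∈ S ∧ LtR R1 R2 α β e0 x)
    (hnL : ∀ i, 0 < i → i ≤ m → ¬ ∃ x ∈ T (d i), x ∈ S ∧ LtR R1 R2 α β x e0)
    (hnR : ∀ i, i < m → ¬ ∃ x ∈ T (d i), x ∈ S ∧ LtR R1 R2 α β e0 x)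
    {r : V} (hr : r ∈ S) (hr1 : R1 r e0) (hr2 : R2 r e0) (hrT : ∀ i ≤ m, r ∉ T (d i)) :
    False := by
  classical
  obtain ⟨x0, hx0, hx0S, hx0L⟩ := hd0
  obtain ⟨xm, hxm, hxmS, hxmR⟩ := hdm
  have hy : ∀ i, ∃ y, i < m → y ∈ T (d i) ∧ y ∈ T (d (i + 1)) := by
    intro i
    by_cases hi : i < m
    · obtain ⟨⟨y, hy⟩, _, _⟩ := hov i hi
      exact ⟨y, fun _ => hy⟩
    · exact ⟨x0, fun h => absurd h hi⟩
  choose y hy using hy
  set u : ℕ → V := fun j => if j = 0 then x0 else if j = m + 1 then xm else y (j - 1) with hu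
  have u0 : u 0 = x0 := by simp [hu]
  have um : u (m + 1) = xm := by simp [hu]
  have uj : ∀ j, 1 ≤ j → j ≤ m → u j ∈ T (d (j - 1)) ∧ u j ∈ T (d j) := by
    intro j hj hj'
    have : u j = y (j - 1) := by
      have a1 : j ≠ 0 := by omega
      have a2 : j ≠ m + 1 := by omega
      simp [hu, a1, a2]
    rw [this]
    have := hy (j - 1) (by omega)
    rwa [show j - 1 + 1 = j by omega] at this
  have huS : ∀ j ≤ m + 1, u j ∈ S := by
    intro j hj
    rcases Nat.eq_zero_or_pos j with h0 | h0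
    · rw [h0, u0]; exact hx0S
    · rcases Nat.lt_or_ge m j with h3 | h3
      · have : j = m + 1 := by omega
        rw [this, um]; exact hxmS
      · exact hT _ (hd j h3) (uj j h0 h3).2
  have hre : LtR R1 R2 α β x0 r := ltR_congr h1 h2 hx0S he0 hr hx0L ⟨h1.symm _ _ hr1, h2.symm _ _ hr2⟩
  have hre' : LtR R1 R2 α β r xm :=
    ltR_congr' h1 h2 he0 hxmS hr hxmR ⟨h1.symm _ _ hr1, h2.symm _ _ hr2⟩
  have hn1 : ¬ R1 x0 r := fun h => hL x0 hx0S hx0L (h1.trans _ _ _ h hr1)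
  have hn2 : ¬ R2 r xm := fun h => hR xm hxmS hxmR (h2.trans _ _ _ (h2.symm _ _ hr2) h)
  refine no m d u r hd huS hr ?_ hrT (by rw [u0]; exact hn1)
    (by rw [u0]; exact ltR_left hre hn1) (by rw [um]; exact hn2)
    (by rw [um]; exact ltR_right hre' hn2) ?_
  · intro i hi j hj
    constructor
    · intro hm
      by_contra hcon
      push Not at hcon
      rcases Nat.eq_zero_or_pos j with h0 | h0
      · rw [h0, u0] at hm
        exact hnL i (by omega) hi ⟨x0, hm, hx0S, hx0L⟩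
      · rcases Nat.lt_or_ge m j with h3 | h3
        · have : j = m + 1 := by omega
          rw [this, um] at hm
          exact hnR i (by omega) ⟨xm, hm, hxmS, hxmR⟩
        · have h4 := uj j h0 h3
          rcases Nat.lt_or_ge i j with h5 | h5
          · exact hcl i j (by omega) h3 _ hm h4.2
          · exact hcl (j - 1) i (by omega) hi _ h4.1 hm
    · rintro (h3 | h3)
      · subst h3
        rcases Nat.eq_zero_or_pos j with h0 | h0
        · subst h0; rw [u0]; exact hx0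
        · exact (uj j h0 hi).2
      · subst h3
        rcases Nat.lt_or_ge i m with h0 | h0
        · have := (uj (i + 1) (by omega) (by omega)).1
          rwa [show i + 1 - 1 = i by omega] at this
        · have : i = m := by omega
          subst this; rw [um]; exact hxm
  · intro j hj hj'
    have h4 := uj j hj hj'
    have h5 := huS j (by omega)
    by_contra hcon
    have hne : ¬ (R1 (u j) e0 ∧ R2 (u j) e0) := fun h =>
      hcon ⟨h1.trans _ _ _ h.1 (h1.symm _ _ hr1), h2.trans _ _ _ h.2 (h2.symm _ _ hr2)⟩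
    rcases ltR_total h1 h2 hag h5 he0 hne with h6 | h6
    · exact hnL j (by omega) hj' ⟨u j, h4.2, h5, h6⟩
    · exact hnR (j - 1) (by omega) ⟨u j, h4.1, h5, h6⟩

include h1 in
lemma neg_leR {s t : V} (hs : s ∈ S) (ht : t ∈ S) :
    LeR R1 (fun x => - α x) s t ↔ LeR R1 α t s := by
  unfold LeR
  constructor
  · rintro (h | h)
    · exact Or.inl (h1.symm _ _ h)
    · right; beta_reduce at h; omega
  · rintro (h | h)
    · exact Or.inl (h1.symm _ _ h)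
    · right; beta_reduce; omega

include h1 h2 in
lemma neg_ltR {s t : V} (hs : s ∈ S) (ht : t ∈ S) :
    LtR R1 R2 (fun x => - α x) (fun x => - β x) s t ↔ LtR R1 R2 α β t s := by
  unfold LtR
  rw [neg_leR h1 hs ht, neg_leR h2 hs ht]
  have : (R1 s t ∧ R2 s t) ↔ (R1 t s ∧ R2 t s) :=
    ⟨fun h => ⟨h1.symm _ _ h.1, h2.symm _ _ h.2⟩, fun h => ⟨h1.symm _ _ h.1, h2.symm _ _ h.2⟩⟩
  rw [this]

include h1 h2 in
lemma mid_mem {d x e z : V} (hd : d ∈ D) (hx : x ∈ S) (he : e ∈ S) (hz : z ∈ S)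
    (no1 : NoR S D T R1 R2 α β) (no2 : NoR S D T R1 R2 (fun x => - α x) (fun x => - β x))
    (hxe : LtR R1 R2 α β x e) (hez : LtR R1 R2 α β e z) (hxd : x ∈ T d) (hzd : z ∈ T d) :
    e ∈ T d := by
  by_contra hcon
  by_cases a1 : R1 x e
  · have a2 : ¬ R2 x e := fun h => hxe.1 ⟨a1, h⟩
    by_cases a3 : R2 e z
    · have a4 : ¬ R1 e z := fun h => hez.1 ⟨h, a3⟩
      refine no2 0 (fun _ => d) (fun j => if j = 0 then z else x) e (fun _ _ => hd) ?_ he ?_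
        (fun _ _ => hcon) ?_ ?_ ?_ ?_ ?_
      · intro j _; beta_reduce; split_ifs
        exacts [hz, hx]
      · intro i hi j hj
        have : i = 0 := by omega
        subst this
        beta_reduce; split_ifs with h
        · simp [h, hzd]
        · simp only [hxd, true_iff]; omega
      · simpa using fun h => a4 (h1.symm _ _ h)
      · have := ltR_left hez a4
        simp; omega
      · simpa using fun h => a2 (h2.symm _ _ h)
      · have := ltR_right hxe a2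
        simp; omega
      · intro j hj hj'; omega
    · exact hcon (h2.conv d hd x hx e he z hz (ltR_right hxe a2) (ltR_right hez a3) hxd hzd)
  · by_cases a3 : R1 e z
    · have a4 : ¬ R2 e z := fun h => hez.1 ⟨a3, h⟩
      by_cases a5 : R2 x e
      · refine no1 0 (fun _ => d) (fun j => if j = 0 then x else z) e (fun _ _ => hd) ?_ he ?_
          (fun _ _ => hcon) ?_ ?_ ?_ ?_ ?_
        · intro j _; beta_reduce; split_ifs
          exacts [hx, hz]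
        · intro i hi j hj
          have : i = 0 := by omega
          subst this
          beta_reduce; split_ifs with h
          · simp [h, hxd]
          · simp only [hzd, true_iff]; omega
        · simpa using a1
        · have := ltR_left hxe a1
          simpa using this
        · simpa using a4
        · have := ltR_right hez a4
          simpa using this
        · intro j hj hj'; omega
      · exact hcon (h2.conv d hd x hx e he z hz (ltR_right hxe a5) (ltR_right hez a4) hxd hzd)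
    · exact hcon (h1.conv d hd x hx e he z hz (ltR_left hxe a1) (ltR_left hez a3) hxd hzd)

include h1 h2 hag in
lemma class_order [Finite V] {e0 : V} (he0 : e0 ∈ S) (hT : ∀ d ∈ D, T d ⊆ S)
    (no1 : NoR S D T R1 R2 α β) (no2 : NoR S D T R1 R2 (fun x => - α x) (fun x => - β x)) :
    ∃ τ, ClassOrd S D T R1 R2 α β e0 τ := by
  unfold ClassOrd
  set E : Set V := {s | s ∈ S ∧ R1 s e0 ∧ R2 s e0} with hE
  set Lf : V → Prop := fun x => x ∈ S ∧ LtR R1 R2 α β x e0 with hLf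
  set Rg : V → Prop := fun x => x ∈ S ∧ LtR R1 R2 α β e0 x with hRg
  have hagn := hag.neg h1 h2
  have eS : ∀ s ∈ E, s ∈ S := fun s hs => hs.1
  have e0s : ∀ s ∈ E, R1 e0 s ∧ R2 e0 s := fun s hs => ⟨h1.symm _ _ hs.2.1, h2.symm _ _ hs.2.2⟩
  have Lfs : ∀ x, Lf x → ∀ s ∈ E, LtR R1 R2 α β x s := fun x hx s hs =>
    ltR_congr h1 h2 hx.1 he0 hs.1 hx.2 (e0s s hs)
  have Rgs : ∀ x, Rg x → ∀ s ∈ E, LtR R1 R2 α β s x := fun x hx s hs =>
    ltR_congr' h1 h2 he0 hx.1 hs.1 hx.2 (e0s s hs)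
  have hα : ∀ s ∈ E, ∀ t ∈ E, s ≠ t → α s ≠ α t := fun s hs t ht => h1.inj s hs.1 t ht.1
  have hβ : ∀ s ∈ E, ∀ t ∈ E, s ≠ t → β s ≠ β t := fun s hs t ht => h2.inj s hs.1 t ht.1
  have hTE : ∀ d ∈ D, ∀ x ∈ T d, x ∈ E ∨ Lf x ∨ Rg x := by
    intro d hd x hx
    have hxS := hT d hd hx
    by_cases h : R1 x e0 ∧ R2 x e0
    · exact Or.inl ⟨hxS, h⟩
    · rcases ltR_total h1 h2 hag hxS he0 h with h3 | h3
      · exact Or.inr (Or.inl ⟨hxS, h3⟩)
      · exact Or.inr (Or.inr ⟨hxS, h3⟩)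
  have hLR : ∀ d ∈ D, (∃ x ∈ T d, Lf x) → (∃ x ∈ T d, Rg x) → ∀ e ∈ E, e ∈ T d := by
    rintro d hd ⟨x, hx, hx'⟩ ⟨z, hz, hz'⟩ e he
    exact mid_mem h1 h2 hd hx'.1 he.1 hz'.1 no1 no2 (Lfs x hx' e he) (Rgs z hz' e he) hx hz
  have cα : ∀ d ∈ D, ∀ s ∈ E, ∀ t ∈ E, ∀ u ∈ E, α s < α t → α t < α u → s ∈ T d → u ∈ T d →
      t ∈ T d := fun d hd s hs t ht u hu => h1.conv d hd s hs.1 t ht.1 u hu.1
  have cβ : ∀ d ∈ D, ∀ s ∈ E, ∀ t ∈ E, ∀ u ∈ E, β s < β t → β t < β u → s ∈ T d → u ∈ T d →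
      t ∈ T d := fun d hd s hs t ht u hu => h2.conv d hd s hs.1 t ht.1 u hu.1
  have pα : (∀ x ∈ S, LtR R1 R2 α β x e0 → ¬ R1 x e0) → ∀ d ∈ D, (∃ x ∈ T d, Lf x) →
      ∀ s ∈ E, ∀ t ∈ E, α s < α t → t ∈ T d → s ∈ T d := by
    rintro hl d hd ⟨x, hx, hx'⟩ s hs t ht hlt htd
    refine h1.conv d hd x hx'.1 s hs.1 t ht.1 (ltR_left (Lfs x hx' s hs) fun h => ?_) hlt hx htd
    exact hl x hx'.1 hx'.2 (h1.trans _ _ _ h hs.2.1)
  have pβ : (∀ x ∈ S, LtR R1 R2 α β x e0 → ¬ R2 x e0) → ∀ d ∈ D, (∃ x ∈ T d, Lf x) →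
      ∀ s ∈ E, ∀ t ∈ E, β s < β t → t ∈ T d → s ∈ T d := by
    rintro hl d hd ⟨x, hx, hx'⟩ s hs t ht hlt htd
    refine h2.conv d hd x hx'.1 s hs.1 t ht.1 (ltR_right (Lfs x hx' s hs) fun h => ?_) hlt hx htd
    exact hl x hx'.1 hx'.2 (h2.trans _ _ _ h hs.2.2)
  have sα : (∀ x ∈ S, LtR R1 R2 α β e0 x → ¬ R1 e0 x) → ∀ d ∈ D, (∃ x ∈ T d, Rg x) →
      ∀ s ∈ E, ∀ t ∈ E, α s < α t → s ∈ T d → t ∈ T d := by
    rintro hl d hd ⟨x, hx, hx'⟩ s hs t ht hlt hsd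
    refine h1.conv d hd s hs.1 t ht.1 x hx'.1 hlt (ltR_left (Rgs x hx' t ht) fun h => ?_) hsd hx
    exact hl x hx'.1 hx'.2 (h1.trans _ _ _ (e0s t ht).1 h)
  have sβ : (∀ x ∈ S, LtR R1 R2 α β e0 x → ¬ R2 e0 x) → ∀ d ∈ D, (∃ x ∈ T d, Rg x) →
      ∀ s ∈ E, ∀ t ∈ E, β s < β t → s ∈ T d → t ∈ T d := by
    rintro hl d hd ⟨x, hx, hx'⟩ s hs t ht hlt hsd
    refine h2.conv d hd s hs.1 t ht.1 x hx'.1 hlt (ltR_right (Rgs x hx' t ht) fun h => ?_) hsd hx
    exact hl x hx'.1 hx'.2 (h2.trans _ _ _ (e0s t ht).2 h)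
  -- dichotomies
  have dl : (∀ x ∈ S, LtR R1 R2 α β x e0 → ¬ R1 x e0) ∨
      (∀ x ∈ S, LtR R1 R2 α β x e0 → ¬ R2 x e0) := by
    by_contra hcon
    push Not at hcon
    obtain ⟨⟨x, hx, hx1, hx2⟩, ⟨y, hy, hy1, hy2⟩⟩ := hcon
    have n1 : ¬ R1 y e0 := fun h => hy1.1 ⟨h, hy2⟩
    have n2 : ¬ R2 x e0 := fun h => hx1.1 ⟨hx2, h⟩
    have n3 : ¬ R1 y x := fun h => n1 (h1.trans _ _ _ h hx2)
    have n4 : ¬ R2 x y := fun h => n2 (h2.trans _ _ _ h hy2)
    have k1 : α y < α x := (h1.le_trans hy he0 hx hy1.2.1 (Or.inl (h1.symm _ _ hx2))).resolve_left n3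
    have k2 : β x < β y := (h2.le_trans hx he0 hy hx1.2.2 (Or.inl (h2.symm _ _ hy2))).resolve_left n4
    have k3 := (hag y hy x hx n3 (fun h => n4 (h2.symm _ _ h))).mp k1
    omega
  have dr : (∀ x ∈ S, LtR R1 R2 α β e0 x → ¬ R1 e0 x) ∨
      (∀ x ∈ S, LtR R1 R2 α β e0 x → ¬ R2 e0 x) := by
    by_contra hcon
    push Not at hcon
    obtain ⟨⟨x, hx, hx1, hx2⟩, ⟨y, hy, hy1, hy2⟩⟩ := hcon
    have n1 : ¬ R1 e0 y := fun h => hy1.1 ⟨h, hy2⟩
    have n2 : ¬ R2 e0 x := fun h => hx1.1 ⟨hx2, h⟩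
    have n3 : ¬ R1 x y := fun h => n1 (h1.trans _ _ _ hx2 h)
    have n4 : ¬ R2 y x := fun h => n2 (h2.trans _ _ _ hy2 h)
    have k1 : α x < α y := (h1.le_trans hx he0 hy (Or.inl (h1.symm _ _ hx2)) hy1.2.1).resolve_left n3
    have k2 : β y < β x := (h2.le_trans hy he0 hx (Or.inl (h2.symm _ _ hy2)) hx1.2.2).resolve_left n4
    have k3 := (hag x hx y hy n3 (fun h => n4 (h2.symm _ _ h))).mp k1
    omega
  rcases dl with dl | dl <;> rcases dr with dr | dr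
  · exact ⟨α, hα, cα, pα dl, sα dr⟩
  · refine mixed hα hβ hTE hLR cα cβ (pα dl) (sβ dr) ?_
    intro m d hm hd hov hcl hd0 hdm hnL hnR
    by_contra hcon
    push Not at hcon
    obtain ⟨r, hr, hrT⟩ := hcon
    exact chain_false h1 h2 he0 hT hag no1 dl dr m d hd hov hcl hd0 hdm hnL hnR hr.1 hr.2.1
      hr.2.2 hrT
  · refine mixed hβ hα hTE hLR cβ cα (pβ dl) (sα dr) ?_
    intro m d hm hd hov hcl hd0 hdm hnL hnR
    by_contra hcon
    push Not at hcon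
    obtain ⟨r, hr, hrT⟩ := hcon
    refine chain_false h1.neg h2.neg he0 hT hagn no2 ?_ ?_ m (fun i => d (m - i))
      (fun i hi => hd _ (by omega)) ?_ ?_ ?_ ?_ ?_ ?_ hr.1 hr.2.1
      hr.2.2 (fun i hi => hrT _ (by omega))
    · intro x hx h h'
      exact dr x hx ((neg_ltR h1 h2 hx he0).mp h) (h1.symm _ _ h')
    · intro x hx h h'
      exact dl x hx ((neg_ltR h1 h2 he0 hx).mp h) (h2.symm _ _ h')
    · intro i hi
      have := (hov (m - (i + 1)) (by omega)).symm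
      rwa [show m - (i + 1) + 1 = m - i by omega] at this
    · intro i j hij hj x h3 h4
      exact hcl (m - j) (m - i) (by omega) (by omega) x h4 h3
    · obtain ⟨x, hx, hx', hx''⟩ := hdm
      exact ⟨x, by simpa using hx, hx', (neg_ltR h1 h2 hx' he0).mpr hx''⟩
    · obtain ⟨x, hx, hx', hx''⟩ := hd0
      exact ⟨x, by simpa using hx, hx', (neg_ltR h1 h2 he0 hx').mpr hx''⟩
    · rintro i hi hi' ⟨x, hx, hx', hx''⟩
      exact hnR (m - i) (by omega) ⟨x, hx, hx', (neg_ltR h1 h2 hx' he0).mp hx''⟩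
    · rintro i hi ⟨x, hx, hx', hx''⟩
      exact hnL (m - i) (by omega) (by omega) ⟨x, hx, hx', (neg_ltR h1 h2 he0 hx').mp hx''⟩
  · exact ⟨β, hβ, cβ, pβ dl, sβ dr⟩

open Classical in
include h1 h2 hag in
/-- **Order theorem.** -/
theorem order_theorem [Finite V] (hT : ∀ d ∈ D, T d ⊆ S)
    (no1 : NoR S D T R1 R2 α β) (no2 : NoR S D T R1 R2 (fun x => - α x) (fun x => - β x)) :
    ∃ σ : V → ℤ, (∀ s ∈ S, ∀ t ∈ S, s ≠ t → σ s ≠ σ t) ∧
      (∀ s ∈ S, ∀ t ∈ S, ¬ R1 s t → (σ s < σ t ↔ α s < α t)) ∧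
      (∀ s ∈ S, ∀ t ∈ S, ¬ R2 s t → (σ s < σ t ↔ β s < β t)) ∧
      (∀ d ∈ D, ∀ s ∈ S, ∀ t ∈ S, ∀ u ∈ S, σ s < σ t → σ t < σ u → s ∈ T d → u ∈ T d →
        t ∈ T d) := by
  -- representatives
  let st : Setoid V := ⟨fun x y => R1 x y ∧ R2 x y,
    ⟨fun x => ⟨h1.refl x, h2.refl x⟩, fun h => ⟨h1.symm _ _ h.1, h2.symm _ _ h.2⟩,
      fun h h' => ⟨h1.trans _ _ _ h.1 h'.1, h2.trans _ _ _ h.2 h'.2⟩⟩⟩
  have hτex : ∀ q : Quotient st, ∃ τ : V → ℤ, ∀ e0 ∈ S, Quotient.mk st e0 = q →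
      ClassOrd S D T R1 R2 α β e0 τ := by
    intro q
    by_cases hq : ∃ e0 ∈ S, Quotient.mk st e0 = q
    · obtain ⟨e0, he0, hq⟩ := hq
      obtain ⟨τ, hτ⟩ := class_order h1 h2 hag he0 hT no1 no2
      refine ⟨τ, fun e1 he1 hq1 => ?_⟩
      have he : R1 e0 e1 ∧ R2 e0 e1 := Quotient.exact (hq.trans hq1.symm)
      have he' : R1 e1 e0 ∧ R2 e1 e0 := Quotient.exact (hq1.trans hq.symm)
      have hEE : {s | s ∈ S ∧ R1 s e1 ∧ R2 s e1} = {s | s ∈ S ∧ R1 s e0 ∧ R2 s e0} := by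
        ext s
        constructor
        · rintro ⟨h, h', h''⟩
          exact ⟨h, h1.trans _ _ _ h' he'.1, h2.trans _ _ _ h'' he'.2⟩
        · rintro ⟨h, h', h''⟩
          exact ⟨h, h1.trans _ _ _ h' he.1, h2.trans _ _ _ h'' he.2⟩
      have hL : (fun x => x ∈ S ∧ LtR R1 R2 α β x e1) = (fun x => x ∈ S ∧ LtR R1 R2 α β x e0) := by
        ext x
        constructor
        · rintro ⟨h, h'⟩; exact ⟨h, ltR_congr h1 h2 h he1 he0 h' he'⟩
        · rintro ⟨h, h'⟩; exact ⟨h, ltR_congr h1 h2 h he0 he1 h' he⟩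
      have hR : (fun x => x ∈ S ∧ LtR R1 R2 α β e1 x) = (fun x => x ∈ S ∧ LtR R1 R2 α β e0 x) := by
        ext x
        constructor
        · rintro ⟨h, h'⟩; exact ⟨h, ltR_congr' h1 h2 he1 h he0 h' he'⟩
        · rintro ⟨h, h'⟩; exact ⟨h, ltR_congr' h1 h2 he0 h he1 h' he⟩
      unfold ClassOrd at hτ ⊢
      rw [hEE, hL, hR]
      exact hτ
    · exact ⟨α, fun e0 he0 h => absurd ⟨e0, he0, h⟩ hq⟩
  choose τ hτ using hτex
  set P : V → V → Prop := fun x y => LtR R1 R2 α β x y ∨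
    ((R1 x y ∧ R2 x y) ∧ τ (Quotient.mk st x) x < τ (Quotient.mk st y) y) with hP
  have hmk : ∀ {x y}, R1 x y ∧ R2 x y → Quotient.mk st x = Quotient.mk st y :=
    fun h => Quotient.sound h
  have hasym : ∀ x ∈ S, ∀ y ∈ S, P x y → ¬ P y x := by
    rintro x hx y hy (h | ⟨h, h'⟩) (h3 | ⟨h3, h3'⟩)
    · exact ltR_asymm h1 h2 h h3
    · exact h.1 ⟨h1.symm _ _ h3.1, h2.symm _ _ h3.2⟩
    · exact h3.1 ⟨h1.symm _ _ h.1, h2.symm _ _ h.2⟩
    · omega
  have htot : ∀ x ∈ S, ∀ y ∈ S, x ≠ y → P x y ∨ P y x := by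
    intro x hx y hy hxy
    by_cases h : R1 x y ∧ R2 x y
    · have hq := hmk h
      have hc := (hτ (Quotient.mk st y) y hy rfl).1 x ⟨hx, h⟩ y ⟨hy, h1.refl y, h2.refl y⟩ hxy
      rcases lt_or_gt_of_ne hc with h3 | h3
      · exact Or.inl (Or.inr ⟨h, by rw [hq]; exact h3⟩)
      · exact Or.inr (Or.inr ⟨⟨h1.symm _ _ h.1, h2.symm _ _ h.2⟩, by rw [hq]; exact h3⟩)
    · rcases ltR_total h1 h2 hag hx hy h with h3 | h3
      · exact Or.inl (Or.inl h3)
      · exact Or.inr (Or.inl h3)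
  have htr : ∀ x ∈ S, ∀ y ∈ S, ∀ z ∈ S, P x y → P y z → P x z := by
    rintro x hx y hy z hz (h | ⟨h, h'⟩) (h3 | ⟨h3, h3'⟩)
    · exact Or.inl (ltR_trans h1 h2 hx hy hz h h3)
    · exact Or.inl (ltR_congr h1 h2 hx hy hz h h3)
    · exact Or.inl (ltR_congr' h1 h2 hy hz hx h3 ⟨h1.symm _ _ h.1, h2.symm _ _ h.2⟩)
    · exact Or.inr ⟨⟨h1.trans _ _ _ h.1 h3.1, h2.trans _ _ _ h.2 h3.2⟩, h'.trans h3'⟩
  obtain ⟨σ, hσ⟩ := exists_rank_of (S := S) (P := P) (fun s hs h => hasym s hs s hs h h) htr htot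
  refine ⟨σ, ?_, ?_, ?_, ?_⟩
  · intro s hs t ht hst h
    rcases htot s hs t ht hst with h3 | h3
    · have := (hσ s hs t ht).mpr h3; omega
    · have := (hσ t ht s hs).mpr h3; omega
  · intro s hs t ht hst
    rw [hσ s hs t ht]
    constructor
    · rintro (h | ⟨h, _⟩)
      · exact ltR_left h hst
      · exact absurd h.1 hst
    · intro h
      left
      by_contra hcon
      rcases ltR_total h1 h2 hag hs ht (fun h' => hst h'.1) with h3 | h3
      · exact hcon h3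
      · have := ltR_left h3 (fun h' => hst (h1.symm _ _ h')); omega
  · intro s hs t ht hst
    rw [hσ s hs t ht]
    constructor
    · rintro (h | ⟨h, _⟩)
      · exact ltR_right h hst
      · exact absurd h.2 hst
    · intro h
      left
      by_contra hcon
      rcases ltR_total h1 h2 hag hs ht (fun h' => hst h'.2) with h3 | h3
      · exact hcon h3
      · have := ltR_right h3 (fun h' => hst (h2.symm _ _ h')); omega
  · intro d hd s hs t ht u hu hst htu hsd hud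
    rw [hσ s hs t ht] at hst
    rw [hσ t ht u hu] at htu
    obtain ⟨_, g2, g3, g4⟩ := hτ (Quotient.mk st t) t ht rfl
    have htt : t ∈ {s | s ∈ S ∧ R1 s t ∧ R2 s t} := ⟨ht, h1.refl t, h2.refl t⟩
    rcases hst with h | ⟨h, h'⟩ <;> rcases htu with h3 | ⟨h3, h3'⟩
    · exact mid_mem h1 h2 hd hs ht hu no1 no2 h h3 hsd hud
    · rw [← hmk h3] at h3'
      exact g3 d hd ⟨s, hsd, hs, h⟩ t htt u ⟨hu, h1.symm _ _ h3.1, h2.symm _ _ h3.2⟩ h3' hud
    · rw [hmk h] at h'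
      exact g4 d hd ⟨u, hud, hu, h3⟩ s ⟨hs, h⟩ t htt h' hsd
    · rw [← hmk h3] at h3'
      rw [hmk h] at h'
      exact g2 d hd s ⟨hs, h⟩ t htt u ⟨hu, h1.symm _ _ h3.1, h2.symm _ _ h3.2⟩ h' h3' hsd hud

end

end Pool.Agent.Lib.MP_50b720_co
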