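import Pool.Agent.Lib.MP_50b720_co.Full.Arm

set_option autoImplicit false

namespace Pool.Agent.Lib.MP_50b720_co

open SimpleGraph

variable {V : Type*}

/-- **Parity lemma.** If `c` is an end and `p` the middle of `c, p, q` then the end of the arm is
adjacent to `p` exactly when the length is odd. -/
theorem arm_parity {G : SimpleGraph V} {A S : Set V} {l r α : V → ℤ} (h : HalfRep G A S l r α)
    {c p q : V} (hc : c ∈ S) (hp : p ∈ S) (hq : q ∈ S) (hcp : α c < α p) (hpq : α p < α q)
    {L : ℕ} {g : ℕ → V} (arm : Arm G A c p q L g) : G.Adj p (g L) ↔ Odd L := by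
  have hL := arm.pos
  have memA : ∀ i, 1 ≤ i → i ≤ L → g i ∈ A := arm.mem
  -- containment of points
  have hcp' : ∀ i, 1 ≤ i → i ≤ L → (G.Adj c (g i) ↔ l (g i) < α c ∧ α c < r (g i)) := by
    intro i hi hi'
    rw [G.adj_comm]; exact (h.pt _ (memA i hi hi') c hc).2.2
  have hpp' : ∀ i, 1 ≤ i → i ≤ L → (G.Adj p (g i) ↔ l (g i) < α p ∧ α p < r (g i)) := by
    intro i hi hi'
    rw [G.adj_comm]; exact (h.pt _ (memA i hi hi') p hp).2.2
  have hqq' : ∀ i, 1 ≤ i → i ≤ L → (G.Adj q (g i) ↔ l (g i) < α q ∧ α q < r (g i)) := by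
    intro i hi hi'
    rw [G.adj_comm]; exact (h.pt _ (memA i hi hi') q hq).2.2
  have hc1 : G.Adj c (g 1) := by
    have := (arm.path 0 1 (by omega) hL).2.mpr rfl
    rwa [arm.h0] at this
  have hci : ∀ i, 2 ≤ i → i ≤ L → ¬ G.Adj c (g i) := by
    intro i hi hi' hcon
    rw [← arm.h0] at hcon
    have := (arm.path 0 i (by omega) hi').2.mp hcon
    omega
  -- a common point
  obtain ⟨e, he, heS⟩ : ∃ e : ℤ, α p ≤ e ∧ ∀ i, 1 ≤ i → i ≤ L → l (g i) < e ∧ e < r (g i) := by
    by_cases h1 : G.Adj p (g L)
    · refine ⟨α p, le_rfl, fun i hi hi' => ?_⟩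
      rcases Nat.lt_or_ge i L with h2 | h2
      · exact (hpp' i hi hi').mp (arm.fp i h2)
      · have : i = L := by omega
        rw [this]; exact (hpp' L hL le_rfl).mp h1
    · have h1' : G.Adj q (g L) := by have := arm.sep; tauto
      refine ⟨α q, hpq.le, fun i hi hi' => ?_⟩
      rcases Nat.lt_or_ge i L with h2 | h2
      · exact (hqq' i hi hi').mp (arm.fq i h2)
      · have : i = L := by omega
        rw [this]; exact (hqq' L hL le_rfl).mp h1'
  have ovl : ∀ i j, 1 ≤ i → i < j → j ≤ L → l (g i) ≠ l (g j) ∧ r (g i) ≠ r (g j) ∧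
      (j = i + 1 ↔ (l (g i) < l (g j) ∧ l (g j) < r (g i) ∧ r (g i) < r (g j)) ∨
        (l (g j) < l (g i) ∧ l (g i) < r (g j) ∧ r (g j) < r (g i))) := by
    intro i j hi hij hj
    obtain ⟨h1, h2⟩ := arm.path i j hij hj
    obtain ⟨a1, a2, a3, a4, a5⟩ := h.ov _ (memA i hi (by omega)) _ (memA j (by omega) hj) h1
    exact ⟨a1, a4, by rw [← a5, h2]⟩
  -- nesting
  have H : ∀ j, 3 ≤ j → j ≤ L → ∀ k, 1 ≤ k → k + 2 ≤ j →
      l (g k) < l (g j) ∧ r (g j) < r (g k) := by
    intro j hj hjL k
    induction k with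
    | zero => intro h0; omega
    | succ k ih =>
      intro _ hkj
      have e1 := heS (k + 1) (by omega) (by omega)
      have e2 := heS j (by omega) hjL
      obtain ⟨o1, o2, o3⟩ := ovl (k + 1) j (by omega) (by omega) hjL
      have o4 : ¬ j = k + 1 + 1 := by omega
      rw [o3] at o4
      rcases Nat.eq_zero_or_pos k with h0 | h0
      · subst h0
        have c1 := (hcp' 1 le_rfl hL).mp hc1
        have c2 := (hcp' j (by omega) hjL).not.mp (hci j (by omega) hjL)
        simp only [zero_add] at *
        omega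
      · have i1 := ih h0 (by omega)
        have e3 := heS k h0 (by omega)
        obtain ⟨p1, p2, p3⟩ := ovl k (k + 1) h0 (by omega) (by omega)
        have p4 := p3.mp rfl
        omega
  have E : ∀ j, 2 ≤ j → j ≤ L → (Even j → l (g (j - 1)) < l (g j) ∧ r (g (j - 1)) < r (g j)) ∧
      (Odd j → l (g j) < l (g (j - 1)) ∧ r (g j) < r (g (j - 1))) := by
    intro j hj
    induction j, hj using Nat.le_induction with
    | base =>
      intro hL2
      refine ⟨fun _ => ?_, fun ho => absurd ho (by decide)⟩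
      have c1 := (hcp' 1 le_rfl hL).mp hc1
      have c2 := (hcp' 2 (by omega) hL2).not.mp (hci 2 le_rfl hL2)
      have e1 := heS 2 (by omega) hL2
      obtain ⟨o1, o2, o3⟩ := ovl 1 2 le_rfl (by omega) hL2
      have o4 := o3.mp rfl
      simp only [Nat.add_one_sub_one] at *
      omega
    | succ j hj ih =>
      intro hjL
      obtain ⟨i1, i2⟩ := ih (by omega)
      have n1 := H (j + 1) (by omega) hjL (j - 1) (by omega) (by omega)
      obtain ⟨o1, o2, o3⟩ := ovl j (j + 1) (by omega) (by omega) hjL
      have o4 := o3.mp rfl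
      simp only [Nat.add_sub_cancel]
      constructor
      · intro he'
        have ho : Odd j := by
          rw [← Nat.not_even_iff_odd]
          intro h5
          exact absurd he' (by rw [Nat.even_add_one]; exact not_not.mpr h5)
        have := i2 ho
        omega
      · intro ho'
        have he' : Even j := by
          rw [← Nat.not_odd_iff_even]
          intro h5
          exact absurd ho' (by rw [Nat.odd_add_one]; exact not_not.mpr h5)
        have := i1 he'
        omega
  have pL := hpp' L hL le_rfl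
  have qL := hqq' L hL le_rfl
  have sep := arm.sep
  rw [pL, qL] at sep
  rw [pL]
  rcases Nat.lt_or_ge 1 L with h1 | h1
  · obtain ⟨E1, E2⟩ := E L (by omega) le_rfl
    have pm := (hpp' (L - 1) (by omega) (by omega)).mp (arm.fp (L - 1) (by omega))
    have qm := (hqq' (L - 1) (by omega) (by omega)).mp (arm.fq (L - 1) (by omega))
    rcases Nat.even_or_odd L with h2 | h2
    · have := E1 h2
      refine iff_of_false ?_ (Nat.not_odd_iff_even.mpr h2)
      omega
    · have := E2 h2
      refine iff_of_true ?_ h2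
      omega
  · have : L = 1 := by omega
    subst this
    have c1 := (hcp' 1 le_rfl hL).mp hc1
    refine iff_of_true ?_ (by decide)
    omega

/-- version for the reversed order -/
theorem arm_parity' {G : SimpleGraph V} {A S : Set V} {l r α : V → ℤ} (h : HalfRep G A S l r α)
    {c p q : V} (hc : c ∈ S) (hp : p ∈ S) (hq : q ∈ S)
    (hb : (α c < α p ∧ α p < α q) ∨ (α q < α p ∧ α p < α c))
    {L : ℕ} {g : ℕ → V} (arm : Arm G A c p q L g) : G.Adj p (g L) ↔ Odd L := by
  rcases hb with hb | hb
  · exact arm_parity h hc hp hq hb.1 hb.2 arm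
  · refine arm_parity h.neg hc hp hq ?_ ?_ arm
    · beta_reduce; omega
    · beta_reduce; omega

end Pool.Agent.Lib.MP_50b720_co
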