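import Pool.Agent.Lib.MP_50b720_co.Full.Order
import Pool.Agent.Lib.MP_50b720_co.Full.Colour
import Pool.Agent.Lib.MP_50b720_co.Full.Cert

set_option autoImplicit false

namespace Pool.Agent.Lib.MP_50b720_co

open SimpleGraph

variable {V : Type*}

/-- `A` and `B` are full components of `G[U] - S`, the members of `Dd` are single vertices with
a proper nonempty part of `S` as neighbourhood, `W` is at most one vertex complete to `S`. -/
structure SepConf (G : SimpleGraph V) (A B S Dd W : Set V) : Prop where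
  cA : Cn G A
  cB : Cn G B
  clq : ∀ s ∈ S, ∀ t ∈ S, s ≠ t → G.Adj s t
  fA : ∀ s ∈ S, ∃ x ∈ A, G.Adj s x
  fB : ∀ s ∈ S, ∃ x ∈ B, G.Adj s x
  dAS : Disjoint A S
  dBS : Disjoint B S
  dDS : Disjoint Dd S
  dAB : Disjoint A B
  dAD : Disjoint A Dd
  dBD : Disjoint B Dd
  dWA : Disjoint W A
  dWB : Disjoint W B
  dWS : Disjoint W S
  dWD : Disjoint W Dd
  nAB : ∀ x ∈ A, ∀ y ∈ B, ¬ G.Adj x y
  nDA : ∀ d ∈ Dd, ∀ x ∈ A, ¬ G.Adj d x
  nDB : ∀ d ∈ Dd, ∀ x ∈ B, ¬ G.Adj d x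
  nDD : ∀ d ∈ Dd, ∀ e ∈ Dd, ¬ G.Adj d e
  nWA : ∀ w ∈ W, ∀ x ∈ A, ¬ G.Adj w x
  nWB : ∀ w ∈ W, ∀ x ∈ B, ¬ G.Adj w x
  nWD : ∀ w ∈ W, ∀ x ∈ Dd, ¬ G.Adj w x
  W1 : ∀ w ∈ W, ∀ w' ∈ W, w = w'
  Wc : ∀ w ∈ W, ∀ s ∈ S, G.Adj w s
  Dne : ∀ d ∈ Dd, ∃ s ∈ S, G.Adj d s
  Dpr : ∀ d ∈ Dd, ∃ s ∈ S, ¬ G.Adj d s
  Ddist : ∀ d ∈ Dd, ∀ e ∈ Dd, d ≠ e → ∃ s ∈ S, ¬ (G.Adj d s ↔ G.Adj e s)

lemma SepConf.symm {G : SimpleGraph V} {A B S Dd W : Set V} (h : SepConf G A B S Dd W) :
    SepConf G B A S Dd W where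
  cA := h.cB
  cB := h.cA
  clq := h.clq
  fA := h.fB
  fB := h.fA
  dAS := h.dBS
  dBS := h.dAS
  dDS := h.dDS
  dAB := h.dAB.symm
  dAD := h.dBD
  dBD := h.dAD
  dWA := h.dWB
  dWB := h.dWA
  dWS := h.dWS
  dWD := h.dWD
  nAB := fun x hx y hy h' => h.nAB y hy x hx h'.symm
  nDA := h.nDB
  nDB := h.nDA
  nDD := h.nDD
  nWA := h.nWB
  nWB := h.nWA
  nWD := h.nWD
  W1 := h.W1
  Wc := h.Wc
  Dne := h.Dne
  Dpr := h.Dpr
  Ddist := h.Ddist

/-- chain of the `d i` with common neighbours `u j` -/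
structure Zig (G : SimpleGraph V) (S Dd : Set V) (m : ℕ) (d u : ℕ → V) : Prop where
  dm : ∀ i ≤ m, d i ∈ Dd
  um : ∀ j ≤ m + 1, u j ∈ S
  adj : ∀ i ≤ m, ∀ j ≤ m + 1, (G.Adj (d i) (u j) ↔ (j = i ∨ j = i + 1))

/-- no `d` contains a pair which is separated by both `A` and `B` -/
def II0 (G : SimpleGraph V) (A B S Dd : Set V) : Prop :=
  ∀ d ∈ Dd, ∀ s ∈ S, ∀ t ∈ S, G.Adj d s → G.Adj d t → Tw G A s t ∨ Tw G B s t

/-- no chain of bad parity -/
def BC (G : SimpleGraph V) (A B S Dd : Set V) : Prop :=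
  ∀ m d u, Even m → 2 ≤ m → Zig G S Dd m d u → ¬ Tw G A (u 0) (u 1) →
    (∀ j, 1 ≤ j → j ≤ m + 1 → Tw G A (u j) (u 1)) → ¬ Tw G B (u m) (u (m + 1)) →
    (∀ j ≤ m, Tw G B (u j) (u m)) → False

/-- no chain with a bypassed vertex -/
def RC (G : SimpleGraph V) (A B S Dd : Set V) : Prop :=
  ∀ m d u, Odd m → Zig G S Dd m d u → ∀ r ∈ S, (∀ i ≤ m, ¬ G.Adj (d i) r) →
    ¬ Tw G A (u 0) r → (∀ j, 1 ≤ j → j ≤ m + 1 → Tw G A (u j) r) → ¬ Tw G B r (u (m + 1)) →
    (∀ j ≤ m, Tw G B (u j) r) → False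

/-- neighbourhood in `S` -/
def nS (G : SimpleGraph V) (S : Set V) (d : V) : Set V := {s | s ∈ S ∧ G.Adj d s}

/-- `d` is broken by `A` -/
def Brk (G : SimpleGraph V) (A S : Set V) (d : V) : Prop :=
  ∃ s ∈ nS G S d, ∃ t ∈ nS G S d, ¬ Tw G A s t

lemma ovl_iff {G : SimpleGraph V} {S : Set V} {d e : V} :
    Ov (nS G S) d e ↔ Ovl G S d e := by
  constructor
  · rintro ⟨⟨s, h1, h2⟩, ⟨t, h3, h4⟩, ⟨u, h5, h6⟩⟩
    exact ⟨⟨s, h1.1, h1.2, h2.2⟩, ⟨t, h3.1, h3.2, fun h => h4 ⟨h3.1, h⟩⟩,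
      ⟨u, h5.1, h5.2, fun h => h6 ⟨h5.1, h⟩⟩⟩
  · rintro ⟨⟨s, h1, h1', h2⟩, ⟨t, h3, h3', h4⟩, ⟨u, h5, h5', h6⟩⟩
    exact ⟨⟨s, ⟨h1, h1'⟩, ⟨h1, h2⟩⟩, ⟨t, ⟨h3, h3'⟩, fun h => h4 h.2⟩,
      ⟨u, ⟨h5, h5'⟩, fun h => h6 h.2⟩⟩

lemma CleanChain.false {G : SimpleGraph V} {A B S Dd : Set V} (h0 : II0 G A B S Dd)
    (bc : BC G A B S Dd) (m : ℕ) (d : ℕ → V) (hm : Even m)
    (h : CleanChain Dd (nS G S) (Brk G A S) (Brk G B S) m d) : False := by
  classical
  rcases Nat.eq_zero_or_pos m with hm0 | hm0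
  · subst hm0
    obtain ⟨s, hs, t, ht, hst⟩ := h.first
    obtain ⟨s', hs', t', ht', hst'⟩ := h.last
    have hd := h.mem 0 le_rfl
    have key : ∀ x ∈ nS G S (d 0), ∀ y ∈ nS G S (d 0), Tw G A x y ∨ Tw G B x y :=
      fun x hx y hy => h0 _ hd x hx.1 y hy.1 hx.2 hy.2
    have e1 := (key s hs t ht).resolve_left hst
    have e2 := (key s' hs' t' ht').resolve_right hst'
    rcases key s hs s' hs' with h3 | h3
    · have h4 : ¬ Tw G A t s' := fun h => hst (h3.trans h.symm)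
      have h5 : Tw G B t s' := (key t ht s' hs').resolve_left h4
      have h6 : ¬ Tw G A t t' := fun h => hst ((h3.trans e2).trans h.symm)
      have h7 : Tw G B t t' := (key t ht t' ht').resolve_left h6
      exact hst' (h5.symm.trans h7)
    · have h4 : ¬ Tw G B s t' := fun h => hst' (h3.symm.trans h)
      have h5 : Tw G A s t' := (key s hs t' ht').resolve_right h4
      have h6 : ¬ Tw G B t t' := fun h => hst' ((h3.symm.trans e1).trans h)
      have h7 : Tw G A t t' := (key t ht t' ht').resolve_right h6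
      exact hst (h5.trans h7.symm)
  · have hm2 : 2 ≤ m := by
      obtain ⟨k, hk⟩ := hm
      omega
    have hy : ∀ i, ∃ y, i < m → y ∈ nS G S (d i) ∧ y ∈ nS G S (d (i + 1)) := by
      intro i
      by_cases hi : i < m
      · obtain ⟨⟨y, hy⟩, _, _⟩ := h.ov i hi
        exact ⟨y, fun _ => hy⟩
      · exact ⟨d 0, fun h => absurd h hi⟩
    choose y hy using hy
    have hx0 : ∃ x ∈ nS G S (d 0), ¬ Tw G A x (y 0) := by
      obtain ⟨s, hs, t, ht, hst⟩ := h.first
      by_cases h1 : Tw G A s (y 0)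
      · exact ⟨t, ht, fun h2 => hst (h1.trans h2.symm)⟩
      · exact ⟨s, hs, h1⟩
    have hxm : ∃ x ∈ nS G S (d m), ¬ Tw G B (y (m - 1)) x := by
      obtain ⟨s, hs, t, ht, hst⟩ := h.last
      by_cases h1 : Tw G B (y (m - 1)) s
      · exact ⟨t, ht, fun h2 => hst (h1.symm.trans h2)⟩
      · exact ⟨s, hs, h1⟩
    obtain ⟨x0, hx0, hx0'⟩ := hx0
    obtain ⟨xm, hxm, hxm'⟩ := hxm
    set u : ℕ → V := fun j => if j = 0 then x0 else if j = m + 1 then xm else y (j - 1) with hu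
    have u0 : u 0 = x0 := by simp [hu]
    have um : u (m + 1) = xm := by simp [hu]
    have uj' : ∀ j, 1 ≤ j → j ≤ m → u j = y (j - 1) := by
      intro j hj hj'
      have a1 : j ≠ 0 := by omega
      have a2 : j ≠ m + 1 := by omega
      simp [hu, a1, a2]
    have uj : ∀ j, 1 ≤ j → j ≤ m → u j ∈ nS G S (d (j - 1)) ∧ u j ∈ nS G S (d j) := by
      intro j hj hj'
      rw [uj' j hj hj']
      have := hy (j - 1) (by omega)
      rwa [show j - 1 + 1 = j by omega] at this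
    have unbA : ∀ i, 0 < i → i ≤ m → ∀ a ∈ nS G S (d i), ∀ b ∈ nS G S (d i), Tw G A a b := by
      intro i hi hi' a ha b hb
      by_contra hcon
      exact h.nA i hi hi' ⟨a, ha, b, hb, hcon⟩
    have unbB : ∀ i, i < m → ∀ a ∈ nS G S (d i), ∀ b ∈ nS G S (d i), Tw G B a b := by
      intro i hi a ha b hb
      by_contra hcon
      exact h.nB i hi ⟨a, ha, b, hb, hcon⟩
    -- membership pattern
    have hmem : ∀ i ≤ m, ∀ j ≤ m + 1, (u j ∈ nS G S (d i) ↔ (j = i ∨ j = i + 1)) := by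
      intro i hi j hj
      constructor
      · intro hmm
        by_contra hcon
        push Not at hcon
        rcases Nat.eq_zero_or_pos j with h3 | h3
        · rw [h3, u0] at hmm
          rcases Nat.lt_or_ge i 2 with h4 | h4
          · have h5 : i = 1 := by omega
            rw [h5] at hmm
            exact hx0' (unbA 1 one_pos (by omega) _ hmm _ (hy 0 (by omega)).2)
          · exact h.disj 0 i (by omega) hi _ hx0 hmm
        · rcases Nat.lt_or_ge m j with h4 | h4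
          · have h5 : j = m + 1 := by omega
            rw [h5, um] at hmm
            rcases Nat.lt_or_ge (i + 1) m with h6 | h6
            · exact h.disj i m (by omega) le_rfl _ hmm hxm
            · have h7 : i = m - 1 := by omega
              rw [h7] at hmm
              exact hxm' (unbB (m - 1) (by omega) _ (hy (m - 1) (by omega)).1 _ hmm)
          · have h5 := uj j h3 h4
            rcases Nat.lt_or_ge i j with h6 | h6
            · exact h.disj i j (by omega) h4 _ hmm h5.2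
            · exact h.disj (j - 1) i (by omega) hi _ h5.1 hmm
      · rintro (h3 | h3)
        · subst h3
          rcases Nat.eq_zero_or_pos j with h4 | h4
          · subst h4; rw [u0]; exact hx0
          · exact (uj j h4 hi).2
        · subst h3
          rcases Nat.lt_or_ge i m with h4 | h4
          · have := (uj (i + 1) (by omega) (by omega)).1
            rwa [show i + 1 - 1 = i by omega] at this
          · have h5 : i = m := by omega
            subst h5; rw [um]; exact hxm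
    have huS : ∀ j ≤ m + 1, u j ∈ S := by
      intro j hj
      rcases Nat.lt_or_ge m j with h4 | h4
      · have h5 : j = m + 1 := by omega
        rw [h5, um]; exact hxm.1
      · exact ((hmem j h4 j hj).mpr (Or.inl rfl)).1
    refine bc m d u hm hm2 ⟨h.mem, huS, ?_⟩ ?_ ?_ ?_ ?_
    · intro i hi j hj
      rw [← hmem i hi j hj]
      exact ⟨fun h => ⟨huS j hj, h⟩, fun h => h.2⟩
    · rw [u0, uj' 1 le_rfl (by omega)]; exact hx0'
    · have key : ∀ k, k ≤ m → Tw G A (u (k + 1)) (u 1) := by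
        intro k
        induction k with
        | zero => intro _; exact Tw.refl _ _ _
        | succ k ih =>
          intro hk
          refine Tw.trans ?_ (ih (by omega))
          exact unbA (k + 1) (by omega) hk _ ((hmem _ hk _ (by omega)).mpr (Or.inr rfl)) _
            ((hmem _ hk _ (by omega)).mpr (Or.inl rfl))
      intro j hj hj'
      have := key (j - 1) (by omega)
      rwa [show j - 1 + 1 = j by omega] at this
    · rw [um, uj' m (by omega) le_rfl]; exact hxm'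
    · have key : ∀ k, k ≤ m → Tw G B (u (m - k)) (u m) := by
        intro k
        induction k with
        | zero => intro _; exact Tw.refl _ _ _
        | succ k ih =>
          intro hk
          refine Tw.trans ?_ (ih (by omega))
          have h1 := (hmem (m - (k + 1)) (by omega) (m - (k + 1)) (by omega)).mpr (Or.inl rfl)
          have h2 := (hmem (m - (k + 1)) (by omega) (m - k) (by omega)).mpr (Or.inr (by omega))
          exact unbB (m - (k + 1)) (by omega) _ h1 _ h2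
      intro j hj
      have := key (m - j) (by omega)
      rwa [show m - (m - j) = j by omega] at this

lemma noR_of {G : SimpleGraph V} {A B S Dd : Set V} {α β : V → ℤ} {c : V → Prop}
    (h1 : SideOrd S Dd (nS G S) (Tw G A) α) (h2 : SideOrd S Dd (nS G S) (Tw G B) β)
    (hag : Agree S (Tw G A) (Tw G B) α β)
    (hc : ∀ d ∈ Dd, ∀ e ∈ Dd, Ov (nS G S) d e → (c d ↔ ¬ c e))
    (kA : ∀ d ∈ Dd, Brk G A S d → ¬ c d) (kB : ∀ d ∈ Dd, Brk G B S d → c d)
    (h0 : II0 G A B S Dd) (rc : RC G A B S Dd) :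
    NoR S Dd (nS G S) (Tw G A) (Tw G B) α β := by
  intro m d u r hd hu hr hmem hrn nA ltA nB ltB htw
  rcases Nat.eq_zero_or_pos m with hm | hm
  · subst hm
    have m0 := (hmem 0 le_rfl 0 (by omega)).mpr (Or.inl rfl)
    have m1 := (hmem 0 le_rfl 1 (by omega)).mpr (Or.inr rfl)
    rcases h0 _ (hd 0 le_rfl) _ m0.1 _ m1.1 m0.2 m1.2 with h3 | h3
    · have n1 : ¬ Tw G A r (u 1) := fun h => nA (h3.trans h.symm)
      have l1 := (hag r hr _ (hu 1 (by omega)) n1 nB).mpr ltB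
      exact nA (h1.cont _ (hu 0 (by omega)) r hr _ (hu 1 (by omega)) h3 ltA l1)
    · have n1 : ¬ Tw G B (u 0) r := fun h => nB (h.symm.trans h3)
      have l1 := (hag _ (hu 0 (by omega)) r hr nA n1).mp ltA
      exact n1 (h2.cont _ (hu 0 (by omega)) r hr _ (hu 1 (by omega)) h3 l1 ltB)
  · have hov : ∀ i < m, Ov (nS G S) (d i) (d (i + 1)) := by
      intro i hi
      refine ⟨⟨u (i + 1), ?_, ?_⟩, ⟨u i, ?_, ?_⟩, ⟨u (i + 2), ?_, ?_⟩⟩
      · exact (hmem i (by omega) (i + 1) (by omega)).mpr (Or.inr rfl)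
      · exact (hmem (i + 1) (by omega) (i + 1) (by omega)).mpr (Or.inl rfl)
      · exact (hmem i (by omega) i (by omega)).mpr (Or.inl rfl)
      · rw [hmem (i + 1) (by omega) i (by omega)]; omega
      · exact (hmem (i + 1) (by omega) (i + 2) (by omega)).mpr (Or.inr rfl)
      · rw [hmem i (by omega) (i + 2) (by omega)]; omega
    have m0 := (hmem 0 (by omega) 0 (by omega)).mpr (Or.inl rfl)
    have m1 := (hmem 0 (by omega) 1 (by omega)).mpr (Or.inr rfl)
    have mm := (hmem m le_rfl m (by omega)).mpr (Or.inl rfl)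
    have mm1 := (hmem m le_rfl (m + 1) (by omega)).mpr (Or.inr rfl)
    have nA1 : ¬ Tw G A (u 0) (u 1) := fun h => nA (h.trans (htw 1 le_rfl hm).1)
    have nB1 : ¬ Tw G B (u m) (u (m + 1)) := fun h => nB ((htw m hm le_rfl).2.symm.trans h)
    have c0 : ¬ c (d 0) := kA _ (hd 0 (by omega)) ⟨_, m0, _, m1, nA1⟩
    have cm : c (d m) := kB _ (hd m le_rfl) ⟨_, mm, _, mm1, nB1⟩
    have par : ∀ i ≤ m, (c (d i) ↔ Odd i) := by
      intro i
      induction i with
      | zero => intro _; simp [c0]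
      | succ i ih =>
        intro hi
        have h1 := ih (by omega)
        have h2 := hc _ (hd i (by omega)) _ (hd (i + 1) hi) (hov i (by omega))
        rw [h1] at h2
        rw [Nat.odd_add_one]
        tauto
    have hodd : Odd m := (par m le_rfl).mp cm
    refine rc m d u hodd ⟨hd, hu, ?_⟩ r hr (fun i hi h => hrn i hi ⟨hr, h⟩) nA ?_ nB ?_
    · intro i hi j hj
      rw [← hmem i hi j hj]
      exact ⟨fun h => ⟨hu j hj, h⟩, fun h => h.2⟩
    · intro j hj hj'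
      rcases Nat.lt_or_ge m j with h3 | h3
      · have h4 : j = m + 1 := by omega
        rw [h4]
        have h5 := (h0 _ (hd m le_rfl) _ mm.1 _ mm1.1 mm.2 mm1.2).resolve_right nB1
        exact h5.symm.trans (htw m hm le_rfl).1
      · exact (htw j hj h3).1
    · intro j hj
      rcases Nat.eq_zero_or_pos j with h3 | h3
      · rw [h3]
        have h5 := (h0 _ (hd 0 (by omega)) _ m0.1 _ m1.1 m0.2 m1.2).resolve_left nA1
        exact h5.trans (htw 1 le_rfl hm).2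
      · exact (htw j h3 hj).2

lemma BlockData.sideOrd [Finite V] {G : SimpleGraph V} (hG : IsChordal G) {A S Dd : Set V}
    {l r a : V → ℤ} {c : V → Prop} (h : BlockData G A S Dd l r a c) (hA : Cn G A)
    (hAS : Disjoint A S) (hclq : ∀ s ∈ S, ∀ t ∈ S, s ≠ t → G.Adj s t)
    (hf : ∀ s ∈ S, ∃ x ∈ A, G.Adj s x) : SideOrd S Dd (nS G S) (Tw G A) a where
  refl := fun s => Tw.refl _ _ s
  symm := fun _ _ h => h.symm
  trans := fun _ _ _ h h' => h.trans h'
  inj := h.rep.inj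
  cont := fun s hs t ht u hu h1 h2 h3 => h.rep.twin_cont hG hA (Set.Subset.refl _)
    (fun s hs hsA => Set.disjoint_left.mp hAS hsA hs) hclq hf s hs t ht u hu h1 h2 h3
  conv := fun d hd s hs t ht u hu h1 h2 h3 h4 =>
    ⟨ht, h.conv d hd s hs t ht u hu h1 h2 h3.2 h4.2⟩

/-- **Realization theorem.** -/
theorem realize [Finite V] {G : SimpleGraph V} (hG : IsChordal G) {A B S Dd W : Set V}
    (h : SepConf G A B S Dd W) {l1 r1 α l2 r2 β : V → ℤ} {c1 c2 : V → Prop}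
    (bA : BlockData G A S Dd l1 r1 α c1) (bB : BlockData G B S Dd l2 r2 β c2)
    (hag : Agree S (Tw G A) (Tw G B) α β) (h0 : II0 G A B S Dd) (bc : BC G A B S Dd)
    (rc : RC G A B S Dd) : Circ G (A ∪ Dd ∪ B ∪ S ∪ W) := by
  classical
  have h1 := bA.sideOrd hG h.cA h.dAS h.clq h.fA
  have h2 := bB.sideOrd hG h.cB h.dBS h.clq h.fB
  obtain ⟨c, hc, kA, kB⟩ := colour_theorem (D := Dd) (T := nS G S) (KA := Brk G A S)
    (KB := Brk G B S)
    (fun d e hsub ⟨s, hs, t, ht, hst⟩ => ⟨s, hsub hs, t, hsub ht, hst⟩)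
    (fun d e hsub ⟨s, hs, t, ht, hst⟩ => ⟨s, hsub hs, t, hsub ht, hst⟩)
    (c1 := c1) (c2 := c2)
    (fun d hd e he hov => bA.col d hd e he (ovl_iff.mp hov))
    (fun d hd e he hov => bB.col d hd e he (ovl_iff.mp hov))
    (fun d hd ⟨s, hs, t, ht, hst⟩ hcd => hst (bA.unb d hd hcd s hs.1 t ht.1 hs.2 ht.2))
    (fun d hd ⟨s, hs, t, ht, hst⟩ hcd => hst (bB.unb d hd hcd s hs.1 t ht.1 hs.2 ht.2))
    (fun m d hm hcl => CleanChain.false h0 bc m d hm hcl)
  have no1 := noR_of h1 h2 hag hc kA kB h0 rc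
  have no2 := noR_of h1.neg h2.neg (hag.neg h1 h2) hc kA kB h0 rc
  obtain ⟨σ, s1, s2, s3, s4⟩ := order_theorem h1 h2 hag (fun d _ s hs => hs.1) no1 no2
  have s4' : ∀ d ∈ Dd, ∀ s ∈ S, ∀ t ∈ S, ∀ u ∈ S, σ s < σ t → σ t < σ u → G.Adj d s →
      G.Adj d u → G.Adj d t := fun d hd s hs t ht u hu e1 e2 e3 e4 =>
    (s4 d hd s hs t ht u hu e1 e2 ⟨hs, e3⟩ ⟨hu, e4⟩).2
  have lam : ∀ d ∈ Dd, ∀ e ∈ Dd, (c d ↔ c e) → (∀ s ∈ S, G.Adj d s → G.Adj e s) ∨
      (∀ s ∈ S, G.Adj e s → G.Adj d s) ∨ (∀ s ∈ S, G.Adj d s → ¬ G.Adj e s) := by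
    intro d hd e he hce
    by_cases hov : Ov (nS G S) d e
    · have := hc d hd e he hov; tauto
    · by_cases hx : ∃ s ∈ S, G.Adj d s ∧ G.Adj e s
      · obtain ⟨s, hs, hds, hes⟩ := hx
        rcases sub_or_sub hov (x := s) ⟨hs, hds⟩ ⟨hs, hes⟩ with h3 | h3
        · exact Or.inl fun s hs h4 => (h3 ⟨hs, h4⟩).2
        · exact Or.inr (Or.inl fun s hs h4 => (h3 ⟨hs, h4⟩).2)
      · push Not at hx
        exact Or.inr (Or.inr hx)
  set D1 : Set V := {d ∈ Dd | c d} with hD1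
  set D2 : Set V := {d ∈ Dd | ¬ c d} with hD2
  obtain ⟨l1', r1', a1', g1, g1'⟩ := HalfRep.reorder (Dd := D1) (σ := σ) bA.rep s1
    (fun s hs t ht hst => (s2 s hs t ht hst).symm) h1.cont
    (Set.disjoint_left.mpr fun x hx hx' => Set.disjoint_left.mp h.dAD hx hx'.1)
    (fun d hd x hx => h.nDA d hd.1 x hx) (fun d hd e he => h.nDD d hd.1 e he.1)
    (fun d hd s hs t ht h3 h4 => by
      by_contra hcon
      exact kA d hd.1 ⟨s, ⟨hs, h3⟩, t, ⟨ht, h4⟩, hcon⟩ hd.2)
    (fun d hd => h.Dne d hd.1) (fun d hd => s4' d hd.1)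
    (fun d hd e he => lam d hd.1 e he.1 (by simp [hd.2, he.2]))
    (fun d hd e he hne => h.Ddist d hd.1 e he.1 hne)
  obtain ⟨l2', r2', a2', g2, g2'⟩ := HalfRep.reorder (Dd := D2) (σ := σ) bB.rep s1
    (fun s hs t ht hst => (s3 s hs t ht hst).symm) h2.cont
    (Set.disjoint_left.mpr fun x hx hx' => Set.disjoint_left.mp h.dBD hx hx'.1)
    (fun d hd x hx => h.nDB d hd.1 x hx) (fun d hd e he => h.nDD d hd.1 e he.1)
    (fun d hd s hs t ht h3 h4 => by
      by_contra hcon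
      exact hd.2 (kB d hd.1 ⟨s, ⟨hs, h3⟩, t, ⟨ht, h4⟩, hcon⟩))
    (fun d hd => h.Dne d hd.1) (fun d hd => s4' d hd.1)
    (fun d hd e he => lam d hd.1 e he.1 (by simp [hd.2, he.2]))
    (fun d hd e he hne => h.Ddist d hd.1 e he.1 hne)
  have hres := Circ.glue (W := W) g1 g2 (fun s hs t ht => (g1' s hs t ht).trans (g2' s hs t ht).symm)
    ?_ ?_ ?_ ?_ ?_ h.dWS h.W1 h.Wc ?_ ?_ h.clq ?_
  · refine hres.mono ?_
    intro x hx
    rcases hx with (((hx | hx) | hx) | hx) | hx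
    · exact Or.inl (Or.inl (Or.inl (Or.inl hx)))
    · by_cases hcx : c x
      · exact Or.inl (Or.inl (Or.inl (Or.inr ⟨hx, hcx⟩)))
      · exact Or.inl (Or.inl (Or.inr (Or.inr ⟨hx, hcx⟩)))
    · exact Or.inl (Or.inl (Or.inr (Or.inl hx)))
    · exact Or.inl (Or.inr hx)
    · exact Or.inr hx
  · refine Set.disjoint_union_left.mpr ⟨h.dAS, ?_⟩
    exact Set.disjoint_left.mpr fun x hx hx' => Set.disjoint_left.mp h.dDS hx.1 hx'
  · refine Set.disjoint_union_left.mpr ⟨h.dBS, ?_⟩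
    exact Set.disjoint_left.mpr fun x hx hx' => Set.disjoint_left.mp h.dDS hx.1 hx'
  · refine Set.disjoint_left.mpr ?_
    rintro x (hx | hx) (hx' | hx')
    · exact Set.disjoint_left.mp h.dAB hx hx'
    · exact Set.disjoint_left.mp h.dAD hx hx'.1
    · exact Set.disjoint_left.mp h.dBD hx' hx.1
    · exact hx'.2 hx.2
  · refine Set.disjoint_left.mpr ?_
    rintro x hx (hx' | hx')
    · exact Set.disjoint_left.mp h.dWA hx hx'
    · exact Set.disjoint_left.mp h.dWD hx hx'.1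
  · refine Set.disjoint_left.mpr ?_
    rintro x hx (hx' | hx')
    · exact Set.disjoint_left.mp h.dWB hx hx'
    · exact Set.disjoint_left.mp h.dWD hx hx'.1
  · rintro w hw x (hx | hx)
    · exact h.nWA w hw x hx
    · exact h.nWD w hw x hx.1
  · rintro w hw x (hx | hx)
    · exact h.nWB w hw x hx
    · exact h.nWD w hw x hx.1
  · rintro x (hx | hx) y (hy | hy)
    · exact h.nAB x hx y hy
    · exact fun h' => h.nDA y hy.1 x hx h'.symm
    · exact h.nDB x hx.1 y hy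
    · exact h.nDD x hx.1 y hy.1

end Pool.Agent.Lib.MP_50b720_co
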