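import Pool.Agent.Lib.MP_50b720_co.Full.Fam
import Pool.Agent.Lib.MP_50b720_co.Full.Realize

set_option autoImplicit false

namespace Pool.Agent.Lib.MP_50b720_co

open SimpleGraph

variable {V : Type*}

section basic

variable {G : SimpleGraph V} {A B S Dd W : Set V}

lemma SepConf.naAB (h : SepConf G A B S Dd W) {x y : V} (hx : x ∈ A) (hy : y ∈ B) : NA G x y :=
  ⟨fun h' => Set.disjoint_left.mp h.dAB hx (h' ▸ hy), h.nAB x hx y hy⟩

lemma SepConf.neAS (h : SepConf G A B S Dd W) {x s : V} (hx : x ∈ A) (hs : s ∈ S) : x ≠ s :=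
  fun h' => Set.disjoint_left.mp h.dAS hx (h' ▸ hs)

lemma SepConf.neBS (h : SepConf G A B S Dd W) {x s : V} (hx : x ∈ B) (hs : s ∈ S) : x ≠ s :=
  fun h' => Set.disjoint_left.mp h.dBS hx (h' ▸ hs)

lemma SepConf.neDS (h : SepConf G A B S Dd W) {x s : V} (hx : x ∈ Dd) (hs : s ∈ S) : x ≠ s :=
  fun h' => Set.disjoint_left.mp h.dDS hx (h' ▸ hs)

lemma SepConf.naDA (h : SepConf G A B S Dd W) {d x : V} (hd : d ∈ Dd) (hx : x ∈ A) : NA G d x :=
  ⟨fun h' => Set.disjoint_left.mp h.dAD hx (h' ▸ hd), h.nDA d hd x hx⟩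

lemma SepConf.naDB (h : SepConf G A B S Dd W) {d x : V} (hd : d ∈ Dd) (hx : x ∈ B) : NA G d x :=
  ⟨fun h' => Set.disjoint_left.mp h.dBD hx (h' ▸ hd), h.nDB d hd x hx⟩

end basic

/-- a certificate that `A` separates `e` from the rest of `U` -/
structure ECert (G : SimpleGraph V) (A U : Set V) (e a0 a1 : V) : Prop where
  m0 : a0 ∈ A
  m1 : a1 ∈ A
  full : ∀ u ∈ U, G.Adj a0 u
  adj : G.Adj a0 a1
  cases : (G.Adj a1 e ∧ ∀ u ∈ U, u ≠ e → ¬ G.Adj a1 u) ∨ (¬ G.Adj a1 e ∧ ∀ u ∈ U, u ≠ e → G.Adj a1 u)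

lemma exists_ecert [Finite V] {G : SimpleGraph V} (hG : IsChordal G) {A U : Set V} (hA : Cn G A)
    (hUA : ∀ u ∈ U, u ∉ A) (hUc : ∀ u ∈ U, ∀ v ∈ U, u ≠ v → G.Adj u v)
    (hU : ∀ u ∈ U, ∃ x ∈ A, G.Adj u x) {e f : V} (he : e ∈ U) (hf : f ∈ U)
    (hef : ¬ Tw G A e f) (htw : ∀ s ∈ U, s ≠ e → Tw G A s f) :
    ∃ a0 a1, ECert G A U e a0 a1 := by
  have hex : ∃ x ∈ A, (G.Adj x e ∧ ¬ G.Adj x f) ∨ (G.Adj x f ∧ ¬ G.Adj x e) := by
    by_contra hcon
    push Not at hcon
    exact hef fun x hx => ⟨(hcon x hx).1, (hcon x hx).2⟩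
  have hfe : f ≠ e := fun h => hef (h ▸ Tw.refl G A f)
  have key : ∃ c ∈ A, ∃ y ∈ A, (∀ u ∈ U, G.Adj c u) ∧ G.Adj c y ∧ (∃ s ∈ U, G.Adj y s) ∧
      ∃ t' ∈ U, ¬ G.Adj y t' := by
    obtain ⟨x, hx, h1 | h1⟩ := hex
    · obtain ⟨c, hc, y, hy, h2, h3, h4, h5⟩ := cert hG hA hUA hUc hU he hf hx h1.1 h1.2
      exact ⟨c, hc, y, hy, h2, h3, ⟨e, he, h4⟩, h5⟩
    · obtain ⟨c, hc, y, hy, h2, h3, h4, h5⟩ := cert hG hA hUA hUc hU hf he hx h1.1 h1.2
      exact ⟨c, hc, y, hy, h2, h3, ⟨f, hf, h4⟩, h5⟩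
  obtain ⟨c, hc, y, hy, h2, h3, ⟨s, hs, h4⟩, t', ht', h5⟩ := key
  refine ⟨c, y, hc, hy, h2, h3, ?_⟩
  by_cases hye : G.Adj y e
  · left
    refine ⟨hye, fun u hu hue hyu => h5 ?_⟩
    by_cases h6 : t' = e
    · rw [h6]; exact hye
    · exact (htw t' ht' h6 y hy).mpr ((htw u hu hue y hy).mp hyu)
  · right
    refine ⟨hye, fun u hu hue => ?_⟩
    have h6 : s ≠ e := fun h => hye (h ▸ h4)
    exact (htw u hu hue y hy).mpr ((htw s hs h6 y hy).mp h4)

section zig

variable {G : SimpleGraph V} {A B S Dd W : Set V} {m : ℕ} {d u : ℕ → V}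

lemma Zig.rev (h : Zig G S Dd m d u) :
    Zig G S Dd m (fun i => d (m - i)) (fun j => u (m + 1 - j)) := by
  refine ⟨fun i _ => h.dm _ (by omega), fun j _ => h.um _ (by omega), fun i hi j hj => ?_⟩
  beta_reduce
  rw [h.adj (m - i) (by omega) (m + 1 - j) (by omega)]
  omega

lemma Zig.une (h : Zig G S Dd m d u) (hm : 1 ≤ m) {i j : ℕ} (hij : i < j) (hj : j ≤ m + 1) :
    u i ≠ u j := by
  intro heq
  rcases Nat.lt_or_ge (i + 1) j with h1 | h1
  · have h2 := (h.adj i (by omega) i (by omega)).mpr (Or.inl rfl)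
    rw [heq, h.adj i (by omega) j hj] at h2
    omega
  · have h3 : j = i + 1 := by omega
    subst h3
    rcases Nat.lt_or_ge i m with h4 | h4
    · have h2 := (h.adj (i + 1) (by omega) (i + 1) hj).mpr (Or.inl rfl)
      rw [← heq, h.adj (i + 1) (by omega) i (by omega)] at h2
      omega
    · have h5 : i = m := by omega
      subst h5
      have h2 := (h.adj (i - 1) (by omega) i (by omega)).mpr (Or.inr (by omega))
      rw [heq, h.adj (i - 1) (by omega) (i + 1) (by omega)] at h2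
      omega

lemma Zig.dne (h : Zig G S Dd m d u) {i j : ℕ} (hij : i < j) (hj : j ≤ m) : d i ≠ d j := by
  intro heq
  have h2 := (h.adj i (by omega) i (by omega)).mpr (Or.inl rfl)
  rw [heq, h.adj j (by omega) i (by omega)] at h2
  omega

/-- the set of the `u j` -/
def uSet (m : ℕ) (u : ℕ → V) : Set V := {s | ∃ j ≤ m + 1, s = u j}

lemma Zig.uadj (hc : SepConf G A B S Dd W) (h : Zig G S Dd m d u) (hm : 1 ≤ m) {i j : ℕ}
    (hij : i < j) (hj : j ≤ m + 1) : G.Adj (u i) (u j) :=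
  hc.clq _ (h.um i (by omega)) _ (h.um j hj) (h.une hm hij hj)

lemma Zig.dna (hc : SepConf G A B S Dd W) (h : Zig G S Dd m d u) {i j : ℕ} (hij : i < j)
    (hj : j ≤ m) : NA G (d i) (d j) :=
  ⟨h.dne hij hj, hc.nDD _ (h.dm i (by omega)) _ (h.dm j hj)⟩

lemma Zig.ears (hc : SepConf G A B S Dd W) (h : Zig G S Dd m d u) (hm : 1 ≤ m) :
    Fam.Ears G (m + 1) u d := by
  refine ⟨fun a b hab hb => h.uadj hc hm hab hb, fun a b ha hb => ?_, fun a b hab hb => ?_⟩
  · exact ⟨hc.neDS (h.dm a (by omega)) (h.um b hb), h.adj a (by omega) b hb⟩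
  · exact h.dna hc hab (by omega)

/-- extend a sequence by one element on the left -/
def consL (a : V) (u : ℕ → V) : ℕ → V := fun i => if i = 0 then a else u (i - 1)

lemma consL_zero (a : V) (u : ℕ → V) : consL a u 0 = a := by simp [consL]
lemma consL_pos (a : V) (u : ℕ → V) {i : ℕ} (hi : 0 < i) : consL a u i = u (i - 1) := by
  have : i ≠ 0 := by omega
  simp [consL, this]

/-- the chain extended on the left by `a0` with the ear `a1` -/
lemma Zig.earsL (hc : SepConf G A B S Dd W) (h : Zig G S Dd m d u) (hm : 1 ≤ m) {a0 a1 : V}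
    (m0 : a0 ∈ A) (m1 : a1 ∈ A) (full : ∀ j ≤ m + 1, G.Adj a0 (u j)) (adj : G.Adj a0 a1)
    (h0 : G.Adj a1 (u 0)) (h1 : ∀ j, 1 ≤ j → j ≤ m + 1 → ¬ G.Adj a1 (u j)) :
    Fam.Ears G (m + 2) (consL a0 u) (consL a1 d) := by
  refine ⟨fun a b hab hb => ?_, fun a b ha hb => ?_, fun a b hab hb => ?_⟩
  · rw [consL_pos a0 u (show 0 < b by omega)]
    rcases Nat.eq_zero_or_pos a with h2 | h2
    · rw [h2, consL_zero]; exact full _ (by omega)
    · rw [consL_pos a0 u h2]; exact h.uadj hc hm (by omega) (by omega)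
  · rcases Nat.eq_zero_or_pos a with h2 | h2
    · rw [h2, consL_zero]
      rcases Nat.eq_zero_or_pos b with h3 | h3
      · rw [h3, consL_zero]
        exact ⟨adj.ne', iff_of_true adj.symm (Or.inl rfl)⟩
      · rw [consL_pos a0 u h3]
        refine ⟨hc.neAS m1 (h.um _ (by omega)), ?_⟩
        rcases Nat.lt_or_ge 1 b with h4 | h4
        · exact iff_of_false (h1 _ (by omega) (by omega)) (by omega)
        · have h5 : b = 1 := by omega
          rw [h5]
          exact iff_of_true h0 (Or.inr rfl)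
    · rw [consL_pos a1 d h2]
      rcases Nat.eq_zero_or_pos b with h3 | h3
      · rw [h3, consL_zero]
        have := hc.naDA (h.dm (a - 1) (by omega)) m0
        exact ⟨this.1, iff_of_false this.2 (by omega)⟩
      · rw [consL_pos a0 u h3]
        refine ⟨hc.neDS (h.dm _ (by omega)) (h.um _ (by omega)), ?_⟩
        rw [h.adj _ (by omega) _ (by omega)]
        omega
  · rw [consL_pos a1 d (show 0 < b by omega)]
    rcases Nat.eq_zero_or_pos a with h2 | h2
    · rw [h2, consL_zero]; exact (hc.naDA (h.dm _ (by omega)) m1).symm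
    · rw [consL_pos a1 d h2]; exact h.dna hc (by omega) (by omega)

/-- `a0`, `a1` certify that `A` separates `u 0` from the other `u j`; `a1` sees `u 0` only -/
structure Sgl (G : SimpleGraph V) (A : Set V) (m : ℕ) (u : ℕ → V) (a0 a1 : V) : Prop where
  m0 : a0 ∈ A
  m1 : a1 ∈ A
  full : ∀ j ≤ m + 1, G.Adj a0 (u j)
  adj : G.Adj a0 a1
  h0 : G.Adj a1 (u 0)
  h1 : ∀ j, 1 ≤ j → j ≤ m + 1 → ¬ G.Adj a1 (u j)

/-- `a0`, `a1` certify that `A` separates `u 0` from the other `u j`; `a1` sees all but `u 0` -/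
structure Cpl (G : SimpleGraph V) (A : Set V) (m : ℕ) (u : ℕ → V) (a0 a1 : V) : Prop where
  m0 : a0 ∈ A
  m1 : a1 ∈ A
  full : ∀ j ≤ m + 1, G.Adj a0 (u j)
  adj : G.Adj a0 a1
  h0 : ¬ G.Adj a1 (u 0)
  h1 : ∀ j, 1 ≤ j → j ≤ m + 1 → G.Adj a1 (u j)

variable {a0 a1 b0 b1 r : V}

lemma sc_rev {j m : ℕ} (hj : j ≤ m + 1) : m + 1 - (m + 1 - j) = j := by omega

/-- single on both sides -/
lemma ss_uu (hc : SepConf G A B S Dd W) (h : Zig G S Dd m d u) (hm : 1 ≤ m)
    (ca : Sgl G A m u a0 a1) (cb : Sgl G B m (fun j => u (m + 1 - j)) b0 b1) {a b : ℕ}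
    (hab : a < b) (hb : b ≤ m + 3) :
    (if a = m + 3 then b0 else consL a0 u a) ≠ (if b = m + 3 then b0 else consL a0 u b) ∧
    (G.Adj (if a = m + 3 then b0 else consL a0 u a) (if b = m + 3 then b0 else consL a0 u b) ↔
      ¬ (a = 0 ∧ b = m + 3)) := by
  have ears := h.earsL hc hm ca.m0 ca.m1 ca.full ca.adj ca.h0 ca.h1
  rw [if_neg (show ¬ a = m + 3 by omega)]
  by_cases h3 : b = m + 3
  · rw [if_pos h3]
    rcases Nat.eq_zero_or_pos a with h2 | h2
    · rw [h2, consL_zero]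
      have := hc.naAB ca.m0 cb.m0
      exact ⟨this.1, iff_of_false this.2 (by simp [h3])⟩
    · rw [consL_pos a0 u h2]
      have h4 := cb.full (m + 1 - (a - 1)) (by omega)
      beta_reduce at h4
      rw [sc_rev (by omega)] at h4
      exact ⟨h4.ne', iff_of_true h4.symm (by omega)⟩
  · rw [if_neg h3]
    have h4 := ears.uu a b hab (by omega)
    exact ⟨h4.ne, iff_of_true h4 (by omega)⟩

lemma ss_wu (hc : SepConf G A B S Dd W) (h : Zig G S Dd m d u) (hm : 1 ≤ m)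
    (ca : Sgl G A m u a0 a1) (cb : Sgl G B m (fun j => u (m + 1 - j)) b0 b1) {a b : ℕ}
    (ha : a < m + 3) (hb : b ≤ m + 3) :
    (if a = m + 2 then b1 else consL a1 d a) ≠ (if b = m + 3 then b0 else consL a0 u b) ∧
    (G.Adj (if a = m + 2 then b1 else consL a1 d a) (if b = m + 3 then b0 else consL a0 u b) ↔
      (b = a ∨ b = a + 1)) := by
  have ears := h.earsL hc hm ca.m0 ca.m1 ca.full ca.adj ca.h0 ca.h1
  by_cases h2 : a = m + 2
  · rw [if_pos h2]
    by_cases h3 : b = m + 3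
    · rw [if_pos h3]
      exact ⟨cb.adj.ne', iff_of_true cb.adj.symm (by omega)⟩
    · rw [if_neg h3]
      rcases Nat.eq_zero_or_pos b with h4 | h4
      · rw [h4, consL_zero]
        have := (hc.naAB ca.m0 cb.m1).symm
        exact ⟨this.1, iff_of_false this.2 (by omega)⟩
      · rw [consL_pos a0 u h4]
        refine ⟨hc.neBS cb.m1 (h.um _ (by omega)), ?_⟩
        by_cases h5 : b = m + 2
        · have h6 := cb.h0
          beta_reduce at h6
          rw [show b - 1 = m + 1 - 0 by omega]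
          exact iff_of_true h6 (by omega)
        · have h6 := cb.h1 (m + 1 - (b - 1)) (by omega) (by omega)
          beta_reduce at h6
          rw [sc_rev (by omega)] at h6
          exact iff_of_false h6 (by omega)
  · rw [if_neg h2]
    by_cases h3 : b = m + 3
    · rw [if_pos h3]
      rcases Nat.eq_zero_or_pos a with h4 | h4
      · rw [h4, consL_zero]
        have := hc.naAB ca.m1 cb.m0
        exact ⟨this.1, iff_of_false this.2 (by omega)⟩
      · rw [consL_pos a1 d h4]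
        have := hc.naDB (h.dm (a - 1) (by omega)) cb.m0
        exact ⟨this.1, iff_of_false this.2 (by omega)⟩
    · rw [if_neg h3]
      exact ears.wu a b (by omega) (by omega)

lemma ss_ww (hc : SepConf G A B S Dd W) (h : Zig G S Dd m d u) (hm : 1 ≤ m)
    (ca : Sgl G A m u a0 a1) (cb : Sgl G B m (fun j => u (m + 1 - j)) b0 b1) {a b : ℕ}
    (hab : a < b) (hb : b < m + 3) :
    NA G (if a = m + 2 then b1 else consL a1 d a) (if b = m + 2 then b1 else consL a1 d b) := by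
  have ears := h.earsL hc hm ca.m0 ca.m1 ca.full ca.adj ca.h0 ca.h1
  rw [if_neg (show ¬ a = m + 2 by omega)]
  by_cases h3 : b = m + 2
  · rw [if_pos h3]
    rcases Nat.eq_zero_or_pos a with h4 | h4
    · rw [h4, consL_zero]; exact hc.naAB ca.m1 cb.m1
    · rw [consL_pos a1 d h4]; exact hc.naDB (h.dm _ (by omega)) cb.m1
  · rw [if_neg h3]
    exact ears.ww a b hab (by omega)

lemma bc_ss (hG : NoListed G) (hc : SepConf G A B S Dd W) (h : Zig G S Dd m d u) (hm : 2 ≤ m)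
    (he : Even m) (ca : Sgl G A m u a0 a1) (cb : Sgl G B m (fun j => u (m + 1 - j)) b0 b1) :
    False := by
  refine hG.n1 (m + 3) (by omega) (by obtain ⟨k, hk⟩ := he; exact ⟨k + 1, by omega⟩)
    (Fam.chainN_ind (u := fun a => if a = m + 3 then b0 else consL a0 u a)
      (w := fun a => if a = m + 2 then b1 else consL a1 d a) ?_ ?_ ?_)
  · exact fun a b hab hb => ss_uu hc h (by omega) ca cb hab hb
  · exact fun a b ha hb => ss_wu hc h (by omega) ca cb ha hb
  · exact fun a b hab hb => ss_ww hc h (by omega) ca cb hab hb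

lemma bc_sc (hG : NoListed G) (hc : SepConf G A B S Dd W) (h : Zig G S Dd m d u) (hm : 2 ≤ m)
    (he : Even m) (ca : Sgl G A m u a0 a1) (cb : Cpl G B m (fun j => u (m + 1 - j)) b0 b1) :
    False := by
  refine hG.s4 (m + 2) (by omega) (by obtain ⟨k, hk⟩ := he; exact ⟨k + 1, by omega⟩)
    (Fam.chainS4_ind (h.earsL hc (by omega) ca.m0 ca.m1 ca.full ca.adj ca.h0 ca.h1)
      (x := b1) ?_ ?_)
  · intro a ha
    rcases Nat.eq_zero_or_pos a with h2 | h2
    · rw [h2, consL_zero]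
      have := (hc.naAB ca.m0 cb.m1).symm
      exact ⟨this.1, iff_of_false this.2 (by simp)⟩
    · rw [consL_pos a0 u h2]
      refine ⟨hc.neBS cb.m1 (h.um _ (by omega)), ?_⟩
      by_cases h5 : a = m + 2
      · have h6 := cb.h0
        beta_reduce at h6
        rw [show a - 1 = m + 1 - 0 by omega]
        exact iff_of_false h6 (by omega)
      · have h6 := cb.h1 (m + 1 - (a - 1)) (by omega) (by omega)
        beta_reduce at h6
        rw [sc_rev (by omega)] at h6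
        exact iff_of_true h6 (by omega)
  · intro a ha
    rcases Nat.eq_zero_or_pos a with h4 | h4
    · rw [h4, consL_zero]; exact hc.naAB ca.m1 cb.m1
    · rw [consL_pos a1 d h4]; exact hc.naDB (h.dm _ (by omega)) cb.m1

lemma bc_cc (hG : NoListed G) (hc : SepConf G A B S Dd W) (h : Zig G S Dd m d u) (hm : 2 ≤ m)
    (he : Even m) (ca : Cpl G A m u a0 a1) (cb : Cpl G B m (fun j => u (m + 1 - j)) b0 b1) :
    False := by
  refine hG.s5 (m + 1) (by omega) (by obtain ⟨k, hk⟩ := he; exact ⟨k, by omega⟩)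
    (Fam.chainS5_ind (h.ears hc (by omega)) (x := b1) (x' := a1) ?_ ?_ ?_ ?_ ?_)
  · intro a ha
    refine ⟨hc.neBS cb.m1 (h.um _ (by omega)), ?_⟩
    by_cases h5 : a = m + 1
    · have h6 := cb.h0
      beta_reduce at h6
      rw [h5]
      exact iff_of_false h6 (by omega)
    · have h6 := cb.h1 (m + 1 - a) (by omega) (by omega)
      beta_reduce at h6
      rw [sc_rev (by omega)] at h6
      exact iff_of_true h6 (by omega)
  · intro a ha
    refine ⟨hc.neAS ca.m1 (h.um _ (by omega)), ?_⟩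
    rcases Nat.eq_zero_or_pos a with h2 | h2
    · rw [h2]; exact iff_of_false ca.h0 (by simp)
    · exact iff_of_true (ca.h1 a h2 ha) (by omega)
  · intro a ha; exact hc.naDB (h.dm _ (by omega)) cb.m1
  · intro a ha; exact hc.naDA (h.dm _ (by omega)) ca.m1
  · exact (hc.naAB ca.m1 cb.m1).symm

/-! bypassed vertex `r` -/

lemma Zig.rne (h : Zig G S Dd m d u) (hr : ∀ i ≤ m, ¬ G.Adj (d i) r) {j : ℕ} (hj : j ≤ m + 1) :
    r ≠ u j := by
  intro heq
  rcases Nat.lt_or_ge m j with h1 | h1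
  · exact hr m le_rfl (heq ▸ (h.adj m le_rfl j hj).mpr (Or.inr (by omega)))
  · exact hr j h1 (heq ▸ (h.adj j h1 j hj).mpr (Or.inl rfl))

lemma rc_ss (hG : NoListed G) (hc : SepConf G A B S Dd W) (h : Zig G S Dd m d u)
    (ho : Odd m) (hrS : r ∈ S) (hr : ∀ i ≤ m, ¬ G.Adj (d i) r) (ca : Sgl G A m u a0 a1)
    (cb : Sgl G B m (fun j => u (m + 1 - j)) b0 b1) (ra0 : G.Adj a0 r) (ra1 : ¬ G.Adj a1 r)
    (rb0 : G.Adj b0 r) (rb1 : ¬ G.Adj b1 r) : False := by
  have hm : 1 ≤ m := by obtain ⟨k, hk⟩ := ho; omega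
  refine hG.n2 (m + 3) (by omega) (by obtain ⟨k, hk⟩ := ho; exact ⟨k + 2, by omega⟩)
    (Fam.chainNZ_ind (u := fun a => if a = m + 3 then b0 else consL a0 u a)
      (w := fun a => if a = m + 2 then b1 else consL a1 d a) (z := r) ?_ ?_ ?_ ?_ ?_)
  · exact fun a b hab hb => ss_uu hc h (by omega) ca cb hab hb
  · exact fun a b ha hb => ss_wu hc h (by omega) ca cb ha hb
  · exact fun a b hab hb => ss_ww hc h (by omega) ca cb hab hb
  · intro a ha
    beta_reduce
    by_cases h3 : a = m + 3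
    · rw [if_pos h3]; exact rb0.symm
    · rw [if_neg h3]
      rcases Nat.eq_zero_or_pos a with h4 | h4
      · rw [h4, consL_zero]; exact ra0.symm
      · rw [consL_pos a0 u h4]
        exact hc.clq _ hrS _ (h.um _ (by omega)) (h.rne hr (by omega))
  · intro a ha
    beta_reduce
    by_cases h3 : a = m + 2
    · rw [if_pos h3]; exact ⟨hc.neBS cb.m1 hrS, rb1⟩
    · rw [if_neg h3]
      rcases Nat.eq_zero_or_pos a with h4 | h4
      · rw [h4, consL_zero]; exact ⟨hc.neAS ca.m1 hrS, ra1⟩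
      · rw [consL_pos a1 d h4]
        exact ⟨hc.neDS (h.dm _ (by omega)) hrS, hr _ (by omega)⟩

lemma rc_sc (hG : NoListed G) (hc : SepConf G A B S Dd W) (h : Zig G S Dd m d u)
    (ho : Odd m) (hrS : r ∈ S) (hr : ∀ i ≤ m, ¬ G.Adj (d i) r) (ca : Sgl G A m u a0 a1)
    (cb : Cpl G B m (fun j => u (m + 1 - j)) b0 b1) (ra0 : G.Adj a0 r) (ra1 : ¬ G.Adj a1 r)
    (rb1 : G.Adj b1 r) : False := by
  have hm : 1 ≤ m := by obtain ⟨k, hk⟩ := ho; omega
  refine hG.s3 (m + 2) (by omega) (by obtain ⟨k, hk⟩ := ho; exact ⟨k + 1, by omega⟩)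
    (Fam.chainS3_ind (h.earsL hc (by omega) ca.m0 ca.m1 ca.full ca.adj ca.h0 ca.h1)
      (z := r) (x := b1) ?_ ?_ ?_ rb1 ?_)
  · intro a ha
    rcases Nat.eq_zero_or_pos a with h4 | h4
    · rw [h4, consL_zero]; exact ra0.symm
    · rw [consL_pos a0 u h4]
      exact hc.clq _ hrS _ (h.um _ (by omega)) (h.rne hr (by omega))
  · intro a ha
    rcases Nat.eq_zero_or_pos a with h4 | h4
    · rw [h4, consL_zero]; exact ⟨hc.neAS ca.m1 hrS, ra1⟩
    · rw [consL_pos a1 d h4]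
      exact ⟨hc.neDS (h.dm _ (by omega)) hrS, hr _ (by omega)⟩
  · intro a ha
    rcases Nat.eq_zero_or_pos a with h2 | h2
    · rw [h2, consL_zero]
      have := (hc.naAB ca.m0 cb.m1).symm
      exact ⟨this.1, iff_of_false this.2 (by simp)⟩
    · rw [consL_pos a0 u h2]
      refine ⟨hc.neBS cb.m1 (h.um _ (by omega)), ?_⟩
      by_cases h5 : a = m + 2
      · have h6 := cb.h0
        beta_reduce at h6
        rw [show a - 1 = m + 1 - 0 by omega]
        exact iff_of_false h6 (by omega)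
      · have h6 := cb.h1 (m + 1 - (a - 1)) (by omega) (by omega)
        beta_reduce at h6
        rw [sc_rev (by omega)] at h6
        exact iff_of_true h6 (by omega)
  · intro a ha
    rcases Nat.eq_zero_or_pos a with h4 | h4
    · rw [h4, consL_zero]; exact hc.naAB ca.m1 cb.m1
    · rw [consL_pos a1 d h4]; exact hc.naDB (h.dm _ (by omega)) cb.m1

lemma rc_cc (hG : NoListed G) (hc : SepConf G A B S Dd W) (h : Zig G S Dd m d u)
    (ho : Odd m) (hrS : r ∈ S) (hr : ∀ i ≤ m, ¬ G.Adj (d i) r) (ca : Cpl G A m u a0 a1)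
    (cb : Cpl G B m (fun j => u (m + 1 - j)) b0 b1) (ra1 : G.Adj a1 r) (rb1 : G.Adj b1 r) :
    False := by
  have hm : 1 ≤ m := by obtain ⟨k, hk⟩ := ho; omega
  refine hG.s6 (m + 1) (by omega) (by obtain ⟨k, hk⟩ := ho; exact ⟨k + 1, by omega⟩)
    (Fam.chainS6_ind (h.ears hc (by omega)) (z := r) (x := b1) (x' := a1) ?_ ?_ ?_ ?_ rb1 ra1
      ?_ ?_ ?_)
  · intro a ha
    exact hc.clq _ hrS _ (h.um _ (by omega)) (h.rne hr (by omega))
  · intro a ha
    exact ⟨hc.neDS (h.dm _ (by omega)) hrS, hr _ (by omega)⟩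
  · intro a ha
    refine ⟨hc.neBS cb.m1 (h.um _ (by omega)), ?_⟩
    by_cases h5 : a = m + 1
    · have h6 := cb.h0
      beta_reduce at h6
      rw [h5]
      exact iff_of_false h6 (by omega)
    · have h6 := cb.h1 (m + 1 - a) (by omega) (by omega)
      beta_reduce at h6
      rw [sc_rev (by omega)] at h6
      exact iff_of_true h6 (by omega)
  · intro a ha
    refine ⟨hc.neAS ca.m1 (h.um _ (by omega)), ?_⟩
    rcases Nat.eq_zero_or_pos a with h2 | h2
    · rw [h2]; exact iff_of_false ca.h0 (by simp)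
    · exact iff_of_true (ca.h1 a h2 ha) (by omega)
  · intro a ha; exact hc.naDB (h.dm _ (by omega)) cb.m1
  · intro a ha; exact hc.naDA (h.dm _ (by omega)) ca.m1
  · exact (hc.naAB ca.m1 cb.m1).symm

/-- extraction of the certificates -/
lemma zig_cert [Finite V] (hG : IsChordal G) (hc : SepConf G A B S Dd W)
    (h : Zig G S Dd m d u) (hm : 1 ≤ m) (h01 : ¬ Tw G A (u 0) (u 1))
    (htw : ∀ j, 1 ≤ j → j ≤ m + 1 → Tw G A (u j) (u 1)) (hrS : r ∈ S) (hrt : Tw G A r (u 1)) :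
    ∃ a0 a1, (Sgl G A m u a0 a1 ∧ G.Adj a0 r ∧ ¬ G.Adj a1 r) ∨
      (Cpl G A m u a0 a1 ∧ G.Adj a0 r ∧ G.Adj a1 r) := by
  set U : Set V := insert r {s | ∃ j ≤ m + 1, s = u j} with hU
  have hUS : ∀ s ∈ U, s ∈ S := by
    rintro s (rfl | ⟨j, hj, rfl⟩)
    exacts [hrS, h.um j hj]
  have m0 : u 0 ∈ U := Or.inr ⟨0, by omega, rfl⟩
  have m1 : u 1 ∈ U := Or.inr ⟨1, by omega, rfl⟩
  obtain ⟨a0, a1, hcert⟩ := exists_ecert hG (A := A) (U := U) hc.cA
    (fun s hs hsA => Set.disjoint_left.mp hc.dAS hsA (hUS s hs))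
    (fun s hs t ht => hc.clq s (hUS s hs) t (hUS t ht)) (fun s hs => hc.fA s (hUS s hs)) m0 m1
    h01 (by
      rintro s (rfl | ⟨j, hj, rfl⟩) hne
      · exact hrt
      · refine htw j ?_ hj
        rcases Nat.eq_zero_or_pos j with h2 | h2
        · exact absurd (by rw [h2]) hne
        · exact h2)
  have hr0 : r ≠ u 0 := fun h => h01 (h ▸ hrt)
  refine ⟨a0, a1, ?_⟩
  rcases hcert.cases with ⟨h1, h2⟩ | ⟨h1, h2⟩
  · left
    refine ⟨⟨hcert.m0, hcert.m1, fun j hj => hcert.full _ (Or.inr ⟨j, hj, rfl⟩), hcert.adj, h1,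
      fun j hj hj' => h2 _ (Or.inr ⟨j, hj', rfl⟩) (h.une hm (by omega) hj').symm⟩,
      hcert.full _ (Or.inl rfl), h2 _ (Or.inl rfl) hr0⟩
  · right
    refine ⟨⟨hcert.m0, hcert.m1, fun j hj => hcert.full _ (Or.inr ⟨j, hj, rfl⟩), hcert.adj, h1,
      fun j hj hj' => h2 _ (Or.inr ⟨j, hj', rfl⟩) (h.une hm (by omega) hj').symm⟩,
      hcert.full _ (Or.inl rfl), h2 _ (Or.inl rfl) hr0⟩

lemma rev_fun (m : ℕ) (u : ℕ → V) : ∀ j ≤ m + 1, (fun j => (fun j => u (m + 1 - j)) (m + 1 - j)) j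
    = u j := by
  intro j hj
  beta_reduce
  rw [sc_rev hj]

lemma Sgl.congr {u' : ℕ → V} (h : Sgl G A m u a0 a1) (hu : ∀ j ≤ m + 1, u' j = u j) :
    Sgl G A m u' a0 a1 :=
  ⟨h.m0, h.m1, fun j hj => by rw [hu j hj]; exact h.full j hj, h.adj,
    by rw [hu 0 (by omega)]; exact h.h0, fun j hj hj' => by rw [hu j hj']; exact h.h1 j hj hj'⟩

lemma Cpl.congr {u' : ℕ → V} (h : Cpl G A m u a0 a1) (hu : ∀ j ≤ m + 1, u' j = u j) :
    Cpl G A m u' a0 a1 :=
  ⟨h.m0, h.m1, fun j hj => by rw [hu j hj]; exact h.full j hj, h.adj,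
    by rw [hu 0 (by omega)]; exact h.h0, fun j hj hj' => by rw [hu j hj']; exact h.h1 j hj hj'⟩

/-- no chain of bad parity -/
theorem bc_holds [Finite V] (hG : NoListed G) (hc : SepConf G A B S Dd W) : BC G A B S Dd := by
  intro m d u he hm h h01 htA hmm htB
  have hz := h.rev
  obtain ⟨a0, a1, hA⟩ := zig_cert hG.ch hc h (by omega) h01 htA (h.um 1 (by omega))
    (Tw.refl _ _ _)
  obtain ⟨b0, b1, hB⟩ := zig_cert hG.ch hc.symm hz (r := u m) (by omega)
    (by
      beta_reduce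
      rw [show m + 1 - 0 = m + 1 by omega, show m + 1 - 1 = m by omega]
      exact fun h' => hmm h'.symm)
    (by
      intro j hj hj'
      beta_reduce
      rw [show m + 1 - 1 = m by omega]
      exact htB _ (by omega)) (h.um m (by omega))
    (by
      beta_reduce
      rw [show m + 1 - 1 = m by omega]
      exact Tw.refl _ _ _)
  rcases hA with ⟨ca, _, _⟩ | ⟨ca, _, _⟩ <;> rcases hB with ⟨cb, _, _⟩ | ⟨cb, _, _⟩
  · exact bc_ss hG hc h hm he ca cb
  · exact bc_sc hG hc h hm he ca cb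
  · exact bc_sc hG hc.symm hz hm he cb (ca.congr (rev_fun m u))
  · exact bc_cc hG hc h hm he ca cb

/-- no chain with a bypassed vertex -/
theorem rc_holds [Finite V] (hG : NoListed G) (hc : SepConf G A B S Dd W) : RC G A B S Dd := by
  intro m d u ho h r hrS hr h0r htA hrm htB
  have hm : 1 ≤ m := by obtain ⟨k, hk⟩ := ho; omega
  have hz := h.rev
  have t1 := htA 1 le_rfl (by omega)
  have t2 := htB m le_rfl
  obtain ⟨a0, a1, hA⟩ := zig_cert hG.ch hc h hm (fun h' => h0r (h'.trans t1))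
    (fun j hj hj' => (htA j hj hj').trans t1.symm) hrS t1.symm
  obtain ⟨b0, b1, hB⟩ := zig_cert hG.ch hc.symm hz (r := r) (by omega)
    (by
      beta_reduce
      rw [show m + 1 - 0 = m + 1 by omega, show m + 1 - 1 = m by omega]
      exact fun h' => hrm (h'.trans t2).symm)
    (by
      intro j hj hj'
      beta_reduce
      rw [show m + 1 - 1 = m by omega]
      exact (htB _ (by omega)).trans t2.symm) hrS
    (by
      beta_reduce
      rw [show m + 1 - 1 = m by omega]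
      exact t2.symm)
  have hr' : ∀ i ≤ m, ¬ G.Adj ((fun i => d (m - i)) i) r := fun i _ => hr _ (by omega)
  rcases hA with ⟨ca, x1, x2⟩ | ⟨ca, x1, x2⟩ <;> rcases hB with ⟨cb, y1, y2⟩ | ⟨cb, y1, y2⟩
  · exact rc_ss hG hc h ho hrS hr ca cb x1 x2 y1 y2
  · exact rc_sc hG hc h ho hrS hr ca cb x1 x2 y2
  · exact rc_sc hG hc.symm hz ho hrS hr' cb (ca.congr (rev_fun m u)) y1 y2 x2
  · exact rc_cc hG hc h ho hrS hr ca cb x2 y2

end zig

end Pool.Agent.Lib.MP_50b720_co
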