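import Pool.Agent.Lib.MP_50b720_co.Full.PatII0

set_option autoImplicit false

namespace Pool.Agent.Lib.MP_50b720_co

open SimpleGraph

variable {V : Type*} {G : SimpleGraph V}

/-- no induced four-cycle `a b y x` -/
lemma c4_false (hG : IsChordal G) {a b x y : V} (hab : G.Adj a b) (hax : G.Adj a x)
    (hby : G.Adj b y) (hxy : G.Adj x y) (nay : NA G a y) (nbx : NA G b x) : False := by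
  have hcn : Cn G ({x, y} : Set V) := by
    have h1 := (cn_singleton G y).add (x := x) ⟨y, rfl, hxy.symm⟩
    exact h1
  obtain ⟨d, hd, h1, h2⟩ := common_nbr hG hab hcn
    (by simp only [Set.mem_insert_iff, Set.mem_singleton_iff, not_or]; exact ⟨hax.ne, nay.1⟩)
    (by simp only [Set.mem_insert_iff, Set.mem_singleton_iff, not_or]; exact ⟨nbx.1, hby.ne⟩)
    ⟨x, by simp, hax⟩ ⟨y, by simp, hby⟩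
  rcases hd with rfl | rfl
  · exact nbx.2 h2
  · exact nay.2 h1

/-- no induced four-cycle, and no induced path `x b0 b1 c1 c0` closing up -/
lemma c5_false (hG : IsChordal G) {a b x y z : V} (hab : G.Adj a b) (hax : G.Adj a x)
    (hxy : G.Adj x y) (hyz : G.Adj y z) (hbz : G.Adj b z) (nay : NA G a y) (naz : NA G a z)
    (nbx : NA G b x) (hby : b ≠ y) : False := by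
  have hcn : Cn G ({x, y, z} : Set V) := by
    have h1 := (cn_singleton G z).add (x := y) ⟨z, rfl, hyz.symm⟩
    exact h1.add (x := x) ⟨y, by simp, hxy.symm⟩
  obtain ⟨d, hd, h1, h2⟩ := common_nbr hG hab hcn
    (by
      simp only [Set.mem_insert_iff, Set.mem_singleton_iff, not_or]
      exact ⟨hax.ne, nay.1, naz.1⟩)
    (by
      simp only [Set.mem_insert_iff, Set.mem_singleton_iff, not_or]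
      exact ⟨nbx.1, hby, hbz.ne⟩)
    ⟨x, by simp, hax⟩ ⟨z, by simp, hbz⟩
  rcases hd with rfl | rfl | rfl
  · exact nbx.2 h2
  · exact nay.2 h1
  · exact naz.2 h1

lemma d1d2_com (hG : NoListed G) {s t u a0 a1 b0 b1 c1 : V}
    (f_s_t : G.Adj s t) (f_s_u : G.Adj s u) (f_t_u : G.Adj t u) (f_s_a0 : G.Adj s a0)
    (f_t_a0 : G.Adj t a0) (f_u_a0 : G.Adj u a0) (f_s_b0 : G.Adj s b0) (f_t_b0 : G.Adj t b0)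
    (f_u_b0 : G.Adj u b0) (f_a0_a1 : G.Adj a0 a1) (f_b0_b1 : G.Adj b0 b1) (f_a0_b0 : NA G a0 b0)
    (f_a0_b1 : NA G a0 b1) (f_a0_c1 : NA G a0 c1) (f_a1_b0 : NA G a1 b0) (f_a1_b1 : NA G a1 b1)
    (f_a1_c1 : NA G a1 c1) (f_b0_c1 : G.Adj b0 c1)
    (hta : (G.Adj s a1 ∧ NA G t a1 ∧ NA G u a1) ∨ (NA G s a1 ∧ G.Adj t a1 ∧ G.Adj u a1))
    (htb : (G.Adj t b1 ∧ NA G s b1 ∧ NA G u b1) ∨ (NA G t b1 ∧ G.Adj s b1 ∧ G.Adj u b1))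
    (htc : (G.Adj u c1 ∧ NA G s c1 ∧ NA G t c1) ∨ (NA G u c1 ∧ G.Adj s c1 ∧ G.Adj t c1))
    (hadj : G.Adj b1 c1 ∨ NA G b1 c1) :
    False := by
  rcases hta with ⟨f_s_a1, f_t_a1, f_u_a1⟩ | ⟨f_s_a1, f_t_a1, f_u_a1⟩ <;>
  rcases htb with ⟨f_t_b1, f_s_b1, f_u_b1⟩ | ⟨f_t_b1, f_s_b1, f_u_b1⟩ <;>
  rcases htc with ⟨f_u_c1, f_s_c1, f_t_c1⟩ | ⟨f_u_c1, f_s_c1, f_t_c1⟩ <;>
  rcases hadj with f_b1_c1 | f_b1_c1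
  · exact c4_false hG.ch f_t_u f_t_b1 f_u_c1 f_b1_c1 f_t_c1 f_u_b1
  · exact sp4_false hG f_s_t f_s_u f_s_a0 f_s_a1 f_s_b0 f_s_b1 f_s_c1 f_t_u f_t_a0 f_t_a1 f_t_b0
      f_t_b1 f_t_c1 f_u_a0 f_u_a1 f_u_b0 f_u_b1 f_u_c1 f_a0_a1 f_a0_b0 f_a0_b1 f_a0_c1 f_a1_b0
      f_a1_b1 f_a1_c1 f_b0_b1 f_b0_c1 f_b1_c1
  · exact sp8_false hG f_s_t f_s_u f_s_a0 f_s_a1 f_s_b0 f_s_b1 f_s_c1 f_t_u f_t_a0 f_t_a1 f_t_b0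
      f_t_b1 f_t_c1 f_u_a0 f_u_a1 f_u_b0 f_u_b1 f_u_c1 f_a0_a1 f_a0_b0 f_a0_b1 f_a0_c1 f_a1_b0
      f_a1_b1 f_a1_c1 f_b0_b1 f_b0_c1 f_b1_c1
  · exact sp6_false hG f_s_t f_s_u f_s_a0 f_s_a1 f_s_b0 f_s_b1 f_s_c1 f_t_u f_t_a0 f_t_a1 f_t_b0
      f_t_b1 f_t_c1 f_u_a0 f_u_a1 f_u_b0 f_u_b1 f_u_c1 f_a0_a1 f_a0_b0 f_a0_b1 f_a0_c1 f_a1_b0
      f_a1_b1 f_a1_c1 f_b0_b1 f_b0_c1 f_b1_c1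
  · exact sp8_false hG f_s_u f_s_t f_s_a0 f_s_a1 f_s_b0 f_s_c1 f_s_b1 f_t_u.symm f_u_a0 f_u_a1
      f_u_b0 f_u_c1 f_u_b1 f_t_a0 f_t_a1 f_t_b0 f_t_c1 f_t_b1 f_a0_a1 f_a0_b0 f_a0_c1 f_a0_b1
      f_a1_b0 f_a1_c1 f_a1_b1 f_b0_c1 f_b0_b1 f_b1_c1.symm
  · exact sp6_false hG f_s_u f_s_t f_s_a0 f_s_a1 f_s_b0 f_s_c1 f_s_b1 f_t_u.symm f_u_a0 f_u_a1
      f_u_b0 f_u_c1 f_u_b1 f_t_a0 f_t_a1 f_t_b0 f_t_c1 f_t_b1 f_a0_a1 f_a0_b0 f_a0_c1 f_a0_b1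
      f_a1_b0 f_a1_c1 f_a1_b1 f_b0_c1 f_b0_b1 f_b1_c1.symm
  · exact c4_false hG.ch f_t_u f_t_c1 f_u_b1 f_b1_c1.symm f_t_b1 f_u_c1
  · exact sp16_false hG f_s_t f_s_u f_s_b0 f_s_a0 f_s_b1 f_s_c1 f_t_u f_t_b0 f_t_a0 f_t_b1
      f_t_c1 f_u_b0 f_u_a0 f_u_b1 f_u_c1 f_a0_b0.symm f_b0_b1 f_b0_c1 f_a0_b1 f_a0_c1 f_b1_c1
  · exact c4_false hG.ch f_t_u f_t_b1 f_u_c1 f_b1_c1 f_t_c1 f_u_b1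
  · exact csun3_false hG f_t_u f_t_b0 f_s_t.symm f_t_a1 f_t_c1 f_t_b1 f_u_b0 f_s_u.symm f_u_a1
      f_u_c1 f_u_b1 f_s_b0.symm f_a1_b0.symm f_b0_c1 f_b0_b1 f_s_a1 f_s_c1 f_s_b1 f_a1_c1
      f_a1_b1 f_b1_c1.symm
  · exact sp12_false hG f_s_t f_s_u f_s_a0 f_s_a1 f_s_b0 f_s_b1 f_s_c1 f_t_u f_t_a0 f_t_a1
      f_t_b0 f_t_b1 f_t_c1 f_u_a0 f_u_a1 f_u_b0 f_u_b1 f_u_c1 f_a0_a1 f_a0_b0 f_a0_b1 f_a0_c1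
      f_a1_b0 f_a1_b1 f_a1_c1 f_b0_b1 f_b0_c1 f_b1_c1
  · exact sp10_false hG f_s_t f_s_u f_s_a0 f_s_a1 f_s_b0 f_s_b1 f_s_c1 f_t_u f_t_a0 f_t_a1
      f_t_b0 f_t_b1 f_t_c1 f_u_a0 f_u_a1 f_u_b0 f_u_b1 f_u_c1 f_a0_a1 f_a0_b0 f_a0_b1 f_a0_c1
      f_a1_b0 f_a1_b1 f_a1_c1 f_b0_b1 f_b0_c1 f_b1_c1
  · exact sp12_false hG f_s_u f_s_t f_s_a0 f_s_a1 f_s_b0 f_s_c1 f_s_b1 f_t_u.symm f_u_a0 f_u_a1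
      f_u_b0 f_u_c1 f_u_b1 f_t_a0 f_t_a1 f_t_b0 f_t_c1 f_t_b1 f_a0_a1 f_a0_b0 f_a0_c1 f_a0_b1
      f_a1_b0 f_a1_c1 f_a1_b1 f_b0_c1 f_b0_b1 f_b1_c1.symm
  · exact sp10_false hG f_s_u f_s_t f_s_a0 f_s_a1 f_s_b0 f_s_c1 f_s_b1 f_t_u.symm f_u_a0 f_u_a1
      f_u_b0 f_u_c1 f_u_b1 f_t_a0 f_t_a1 f_t_b0 f_t_c1 f_t_b1 f_a0_a1 f_a0_b0 f_a0_c1 f_a0_b1
      f_a1_b0 f_a1_c1 f_a1_b1 f_b0_c1 f_b0_b1 f_b1_c1.symm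
  · exact c4_false hG.ch f_t_u f_t_c1 f_u_b1 f_b1_c1.symm f_t_b1 f_u_c1
  · exact sp16_false hG f_s_t f_s_u f_s_b0 f_s_a0 f_s_b1 f_s_c1 f_t_u f_t_b0 f_t_a0 f_t_b1
      f_t_c1 f_u_b0 f_u_a0 f_u_b1 f_u_c1 f_a0_b0.symm f_b0_b1 f_b0_c1 f_a0_b1 f_a0_c1 f_b1_c1

lemma d1d2_non (hG : NoListed G) {s t u a0 a1 b0 b1 c0 c1 : V}
    (f_s_t : G.Adj s t) (f_s_u : G.Adj s u) (f_t_u : G.Adj t u) (f_s_a0 : G.Adj s a0)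
    (f_t_a0 : G.Adj t a0) (f_u_a0 : G.Adj u a0) (f_s_b0 : G.Adj s b0) (f_t_b0 : G.Adj t b0)
    (f_u_b0 : G.Adj u b0) (f_s_c0 : G.Adj s c0) (f_t_c0 : G.Adj t c0) (f_u_c0 : G.Adj u c0)
    (f_a0_a1 : G.Adj a0 a1) (f_b0_b1 : G.Adj b0 b1) (f_a0_b0 : NA G a0 b0) (f_a0_b1 : NA G a0 b1)
    (f_a0_c0 : NA G a0 c0) (f_a0_c1 : NA G a0 c1) (f_a1_b0 : NA G a1 b0) (f_a1_b1 : NA G a1 b1)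
    (f_a1_c0 : NA G a1 c0) (f_a1_c1 : NA G a1 c1) (f_c0_c1 : G.Adj c0 c1) (f_b0_c1 : NA G b0 c1)
    (f_b1_c0 : NA G b1 c0) (f_b1_c1 : NA G b1 c1)
    (hta : (G.Adj s a1 ∧ NA G t a1 ∧ NA G u a1) ∨ (NA G s a1 ∧ G.Adj t a1 ∧ G.Adj u a1))
    (htb : (G.Adj t b1 ∧ NA G s b1 ∧ NA G u b1) ∨ (NA G t b1 ∧ G.Adj s b1 ∧ G.Adj u b1))
    (htc : (G.Adj u c1 ∧ NA G s c1 ∧ NA G t c1) ∨ (NA G u c1 ∧ G.Adj s c1 ∧ G.Adj t c1))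
    (hadj : G.Adj b0 c0 ∨ NA G b0 c0) :
    False := by
  rcases hta with ⟨f_s_a1, f_t_a1, f_u_a1⟩ | ⟨f_s_a1, f_t_a1, f_u_a1⟩ <;>
  rcases htb with ⟨f_t_b1, f_s_b1, f_u_b1⟩ | ⟨f_t_b1, f_s_b1, f_u_b1⟩ <;>
  rcases htc with ⟨f_u_c1, f_s_c1, f_t_c1⟩ | ⟨f_u_c1, f_s_c1, f_t_c1⟩ <;>
  rcases hadj with f_b0_c0 | f_b0_c0
  · exact sp14_false hG f_s_t f_s_u f_s_a0 f_s_a1 f_s_b0 f_s_c0 f_s_b1 f_s_c1 f_t_u f_t_a0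
      f_t_a1 f_t_b0 f_t_c0 f_t_b1 f_t_c1 f_u_a0 f_u_a1 f_u_b0 f_u_c0 f_u_b1 f_u_c1 f_a0_a1
      f_a0_b0 f_a0_c0 f_a0_b1 f_a0_c1 f_a1_b0 f_a1_c0 f_a1_b1 f_a1_c1 f_b0_c0 f_b0_b1 f_b0_c1
      f_b1_c0.symm f_c0_c1 f_b1_c1
  · exact sp3_false hG f_s_t f_s_u f_s_a0 f_s_b0 f_s_c0 f_s_a1 f_s_b1 f_s_c1 f_t_u f_t_a0 f_t_b0
      f_t_c0 f_t_a1 f_t_b1 f_t_c1 f_u_a0 f_u_b0 f_u_c0 f_u_a1 f_u_b1 f_u_c1 f_a0_b0 f_a0_c0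
      f_a0_a1 f_a0_b1 f_a0_c1 f_b0_c0 f_a1_b0.symm f_b0_b1 f_b0_c1 f_a1_c0.symm f_b1_c0.symm
      f_c0_c1 f_a1_b1 f_a1_c1 f_b1_c1
  · exact sp0_false hG f_t_u f_t_b0 f_t_c0 f_t_a0 f_t_b1 f_t_c1 f_u_b0 f_u_c0 f_u_a0 f_u_b1
      f_u_c1 f_b0_c0 f_a0_b0.symm f_b0_b1 f_b0_c1 f_a0_c0.symm f_b1_c0.symm f_c0_c1 f_a0_b1
      f_a0_c1 f_b1_c1
  · exact sp5_false hG f_s_t f_s_u f_s_c1 f_s_a0 f_s_a1 f_s_b0 f_s_b1 f_t_u f_t_c1 f_t_a0 f_t_a1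
      f_t_b0 f_t_b1 f_u_c1 f_u_a0 f_u_a1 f_u_b0 f_u_b1 f_a0_c1.symm f_a1_c1.symm f_b0_c1.symm
      f_b1_c1.symm f_a0_a1 f_a0_b0 f_a0_b1 f_a1_b0 f_a1_b1 f_b0_b1
  · exact sp0_false hG f_t_u.symm f_u_b0 f_u_c0 f_u_a0 f_u_b1 f_u_c1 f_t_b0 f_t_c0 f_t_a0 f_t_b1
      f_t_c1 f_b0_c0 f_a0_b0.symm f_b0_b1 f_b0_c1 f_a0_c0.symm f_b1_c0.symm f_c0_c1 f_a0_b1
      f_a0_c1 f_b1_c1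
  · exact sp5_false hG f_s_u f_s_t f_s_b1 f_s_a0 f_s_a1 f_s_c0 f_s_c1 f_t_u.symm f_u_b1 f_u_a0
      f_u_a1 f_u_c0 f_u_c1 f_t_b1 f_t_a0 f_t_a1 f_t_c0 f_t_c1 f_a0_b1.symm f_a1_b1.symm f_b1_c0
      f_b1_c1 f_a0_a1 f_a0_c0 f_a0_c1 f_a1_c0 f_a1_c1 f_c0_c1
  · exact sp0_false hG f_s_t f_s_u f_s_a0 f_s_c1 f_s_b1 f_s_a1 f_t_u f_t_a0 f_t_c1 f_t_b1 f_t_a1
      f_u_a0 f_u_c1 f_u_b1 f_u_a1 f_a0_c1 f_a0_b1 f_a0_a1 f_b1_c1.symm f_a1_c1.symm f_a1_b1.symm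
  · exact sp0_false hG f_s_t f_s_u f_s_a0 f_s_c1 f_s_b1 f_s_a1 f_t_u f_t_a0 f_t_c1 f_t_b1 f_t_a1
      f_u_a0 f_u_c1 f_u_b1 f_u_a1 f_a0_c1 f_a0_b1 f_a0_a1 f_b1_c1.symm f_a1_c1.symm f_a1_b1.symm
  · exact sp15_false hG f_s_t f_s_u f_s_a0 f_s_a1 f_s_b0 f_s_c0 f_s_b1 f_s_c1 f_t_u f_t_a0
      f_t_a1 f_t_b0 f_t_c0 f_t_b1 f_t_c1 f_u_a0 f_u_a1 f_u_b0 f_u_c0 f_u_b1 f_u_c1 f_a0_a1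
      f_a0_b0 f_a0_c0 f_a0_b1 f_a0_c1 f_a1_b0 f_a1_c0 f_a1_b1 f_a1_c1 f_b0_c0 f_b0_b1 f_b0_c1
      f_b1_c0.symm f_c0_c1 f_b1_c1
  · exact sp5_false hG f_t_u f_s_t.symm f_t_a1 f_t_b0 f_t_b1 f_t_c0 f_t_c1 f_s_u.symm f_u_a1
      f_u_b0 f_u_b1 f_u_c0 f_u_c1 f_s_a1 f_s_b0 f_s_b1 f_s_c0 f_s_c1 f_a1_b0 f_a1_b1 f_a1_c0
      f_a1_c1 f_b0_b1 f_b0_c0 f_b0_c1 f_b1_c0 f_b1_c1 f_c0_c1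
  · exact sp0_false hG f_s_t.symm f_t_u f_t_b0 f_t_c1 f_t_a1 f_t_b1 f_s_u f_s_b0 f_s_c1 f_s_a1
      f_s_b1 f_u_b0 f_u_c1 f_u_a1 f_u_b1 f_b0_c1 f_a1_b0.symm f_b0_b1 f_a1_c1.symm f_b1_c1.symm
      f_a1_b1
  · exact sp0_false hG f_s_t.symm f_t_u f_t_b0 f_t_c1 f_t_a1 f_t_b1 f_s_u f_s_b0 f_s_c1 f_s_a1
      f_s_b1 f_u_b0 f_u_c1 f_u_a1 f_u_b1 f_b0_c1 f_a1_b0.symm f_b0_b1 f_a1_c1.symm f_b1_c1.symm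
      f_a1_b1
  · exact sp0_false hG f_s_u.symm f_t_u.symm f_u_c0 f_u_b1 f_u_a1 f_u_c1 f_s_t f_s_c0 f_s_b1
      f_s_a1 f_s_c1 f_t_c0 f_t_b1 f_t_a1 f_t_c1 f_b1_c0.symm f_a1_c0.symm f_c0_c1 f_a1_b1.symm
      f_b1_c1 f_a1_c1
  · exact sp0_false hG f_s_u.symm f_t_u.symm f_u_c0 f_u_b1 f_u_a1 f_u_c1 f_s_t f_s_c0 f_s_b1
      f_s_a1 f_s_c1 f_t_c0 f_t_b1 f_t_a1 f_t_c1 f_b1_c0.symm f_a1_c0.symm f_c0_c1 f_a1_b1.symm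
      f_b1_c1 f_a1_c1
  · exact sp9_false hG f_s_t f_s_u f_s_c1 f_s_b0 f_s_b1 f_s_a0 f_s_a1 f_t_u f_t_c1 f_t_b0 f_t_b1
      f_t_a0 f_t_a1 f_u_c1 f_u_b0 f_u_b1 f_u_a0 f_u_a1 f_b0_c1.symm f_b1_c1.symm f_a0_c1.symm
      f_a1_c1.symm f_b0_b1 f_a0_b0.symm f_a1_b0.symm f_a0_b1.symm f_a1_b1.symm f_a0_a1
  · exact sp9_false hG f_s_t f_s_u f_s_c1 f_s_b0 f_s_b1 f_s_a0 f_s_a1 f_t_u f_t_c1 f_t_b0 f_t_b1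
      f_t_a0 f_t_a1 f_u_c1 f_u_b0 f_u_b1 f_u_a0 f_u_a1 f_b0_c1.symm f_b1_c1.symm f_a0_c1.symm
      f_a1_c1.symm f_b0_b1 f_a0_b0.symm f_a1_b0.symm f_a0_b1.symm f_a1_b1.symm f_a0_a1

end Pool.Agent.Lib.MP_50b720_co
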