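import Pool.Agent.Lib.MP_50b720_co.Full.Order

set_option autoImplicit false

namespace Pool.Agent.Lib.MP_50b720_co

variable {V : Type*} {S D : Set V} {T : V → Set V} {R1 R2 : V → V → Prop} {α β : V → ℤ}

/-- forbidden triple: `s` is an end for the first order and the middle for the second one -/
def EndMid (S : Set V) (R1 R2 : V → V → Prop) (α β : V → ℤ) : Prop :=
  ∀ s ∈ S, ∀ t ∈ S, ∀ u ∈ S, ¬ R1 s t → ¬ R1 s u →
    ((α s < α t ∧ α s < α u) ∨ (α t < α s ∧ α u < α s)) → ¬ R2 s t → ¬ R2 s u →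
    β t < β s → β s < β u → False

/-- forbidden quadruple -/
def Cross4 (S : Set V) (R1 R2 : V → V → Prop) : Prop :=
  ∀ s ∈ S, ∀ t ∈ S, ∀ u ∈ S, ∀ v ∈ S, R1 s u → R1 t v → R2 t u → R2 s v → ¬ R1 s t → ¬ R2 s t →
    False

/-- **Sign lemma.** -/
theorem sign_lemma (h1 : SideOrd S D T R1 α) (h2 : SideOrd S D T R2 β)
    (i2 : EndMid S R1 R2 α β) (i2' : EndMid S R2 R1 β α) (i1 : Cross4 S R1 R2) :
    Agree S R1 R2 α β ∨ Agree S R1 R2 α (fun x => - β x) := by
  classical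
  set same : V → V → Prop := fun s t => (α s < α t ↔ β s < β t) with hsame
  have ne1 : ∀ s ∈ S, ∀ t ∈ S, ¬ R1 s t → α s ≠ α t := fun s hs t ht h =>
    h1.inj s hs t ht (fun h' => h (h' ▸ h1.refl s))
  have ne2 : ∀ s ∈ S, ∀ t ∈ S, ¬ R2 s t → β s ≠ β t := fun s hs t ht h =>
    h2.inj s hs t ht (fun h' => h (h' ▸ h2.refl s))
  have adj : ∀ s ∈ S, ∀ t ∈ S, ∀ u ∈ S, ¬ R1 s t → ¬ R2 s t → ¬ R1 s u → ¬ R2 s u →
      same s t → same s u := by
    intro s hs t ht u hu a1 a2 b1 b2 hst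
    have n1 := ne1 s hs t ht a1
    have n2 := ne2 s hs t ht a2
    have n3 := ne1 s hs u hu b1
    have n4 := ne2 s hs u hu b2
    have k1 := i2 s hs t ht u hu a1 b1
    have k2 := i2 s hs u hu t ht b1 a1
    have k3 := i2' s hs t ht u hu a2 b2
    have k4 := i2' s hs u hu t ht b2 a2
    simp only [hsame] at hst ⊢
    by_contra hcon
    rcases lt_or_gt_of_ne n1 with c1 | c1 <;> rcases lt_or_gt_of_ne n2 with c2 | c2 <;>
      rcases lt_or_gt_of_ne n3 with c3 | c3 <;> rcases lt_or_gt_of_ne n4 with c4 | c4 <;>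
      first
        | (exfalso; omega)
        | exact k1 (by omega) a2 b2 (by omega) (by omega)
        | exact k2 (by omega) b2 a2 (by omega) (by omega)
        | exact k3 (by omega) a1 b1 (by omega) (by omega)
        | exact k4 (by omega) b1 a1 (by omega) (by omega)
  have symm : ∀ s ∈ S, ∀ t ∈ S, ¬ R1 s t → ¬ R2 s t → same s t → same t s := by
    intro s hs t ht a1 a2 h
    have n1 := ne1 s hs t ht a1
    have n2 := ne2 s hs t ht a2
    simp only [hsame] at h ⊢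
    constructor
    · intro h'
      by_contra hcon
      have := h.mpr (by omega)
      omega
    · intro h'
      by_contra hcon
      have := h.mp (by omega)
      omega
  have prop : ∀ s ∈ S, ∀ t ∈ S, ∀ u ∈ S, ∀ v ∈ S, ¬ R1 s t → ¬ R2 s t → ¬ R1 u v → ¬ R2 u v →
      same s t → same u v := by
    intro s hs t ht u hu v hv a1 a2 b1 b2 hst
    have a1' : ¬ R1 t s := fun h => a1 (h1.symm _ _ h)
    have a2' : ¬ R2 t s := fun h => a2 (h2.symm _ _ h)
    have b1' : ¬ R1 v u := fun h => b1 (h1.symm _ _ h)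
    have b2' : ¬ R2 v u := fun h => b2 (h2.symm _ _ h)
    have hts := symm s hs t ht a1 a2 hst
    have step : ∀ x ∈ S, ∀ y ∈ S, ∀ z ∈ S, ∀ w ∈ S, ¬ R1 x y → ¬ R2 x y → ¬ R1 z w → ¬ R2 z w →
        same x y → ¬ R1 x z → ¬ R2 x z → same z w := by
      intro x hx y hy z hz w hw c1 c2 d1 d2 hxy e1 e2
      have f1 := adj x hx y hy z hz c1 c2 e1 e2 hxy
      have f2 := symm x hx z hz e1 e2 f1
      exact adj z hz x hx w hw (fun h => e1 (h1.symm _ _ h)) (fun h => e2 (h2.symm _ _ h)) d1 d2 f2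
    by_cases x1 : ¬ R1 s u ∧ ¬ R2 s u
    · exact step s hs t ht u hu v hv a1 a2 b1 b2 hst x1.1 x1.2
    by_cases x2 : ¬ R1 s v ∧ ¬ R2 s v
    · exact symm v hv u hu b1' b2' (step s hs t ht v hv u hu a1 a2 b1' b2' hst x2.1 x2.2)
    by_cases x3 : ¬ R1 t u ∧ ¬ R2 t u
    · exact step t ht s hs u hu v hv a1' a2' b1 b2 hts x3.1 x3.2
    by_cases x4 : ¬ R1 t v ∧ ¬ R2 t v
    · exact symm v hv u hu b1' b2' (step t ht s hs v hv u hu a1' a2' b1' b2' hts x4.1 x4.2)
    exfalso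
    by_cases y1 : R1 s u
    · have y2 : ¬ R1 t u := fun h => a1 (h1.trans _ _ _ y1 (h1.symm _ _ h))
      have y3 : R2 t u := by by_contra h; exact x3 ⟨y2, h⟩
      have y4 : ¬ R1 s v := fun h => b1 (h1.trans _ _ _ (h1.symm _ _ y1) h)
      have y5 : R2 s v := by by_contra h; exact x2 ⟨y4, h⟩
      have y6 : ¬ R2 t v := fun h => b2 (h2.trans _ _ _ (h2.symm _ _ y3) h)
      have y7 : R1 t v := by by_contra h; exact x4 ⟨h, y6⟩
      exact i1 s hs t ht u hu v hv y1 y7 y3 y5 a1 a2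
    · have y2 : R2 s u := by by_contra h; exact x1 ⟨y1, h⟩
      have y3 : ¬ R2 t u := fun h => a2 (h2.trans _ _ _ y2 (h2.symm _ _ h))
      have y4 : R1 t u := by by_contra h; exact x3 ⟨h, y3⟩
      have y5 : ¬ R2 s v := fun h => b2 (h2.trans _ _ _ (h2.symm _ _ y2) h)
      have y6 : R1 s v := by by_contra h; exact x2 ⟨h, y5⟩
      have y7 : ¬ R1 t v := fun h => b1 (h1.trans _ _ _ (h1.symm _ _ y4) h)
      have y8 : R2 t v := by by_contra h; exact x4 ⟨y7, h⟩
      exact i1 s hs t ht v hv u hu y6 y4 y8 y2 a1 a2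
  by_cases hex : ∃ s ∈ S, ∃ t ∈ S, ¬ R1 s t ∧ ¬ R2 s t ∧ same s t
  · obtain ⟨s, hs, t, ht, a1, a2, hst⟩ := hex
    left
    intro u hu v hv b1 b2
    exact prop s hs t ht u hu v hv a1 a2 b1 b2 hst
  · push Not at hex
    right
    intro u hu v hv b1 b2
    have h3 := hex u hu v hv b1 b2
    have n1 := ne1 u hu v hv b1
    have n2 := ne2 u hu v hv b2
    simp only [hsame] at h3
    beta_reduce
    constructor
    · intro h4
      by_contra h5
      exact h3 ⟨fun _ => by omega, fun _ => h4⟩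
    · intro h4
      by_contra h5
      exact h3 ⟨fun h => absurd h h5, fun h => by omega⟩

end Pool.Agent.Lib.MP_50b720_co
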