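import Pool.Agent.Lib.MP_50b720_co.Full.PatD
import Pool.Agent.Lib.MP_50b720_co.Full.Sign

set_option autoImplicit false

namespace Pool.Agent.Lib.MP_50b720_co

open SimpleGraph

variable {V : Type*} {G : SimpleGraph V} {A B S Dd W : Set V}

/-- `A` certifies directly that `s` is an end of the triple `s, t, u` -/
def DC (G : SimpleGraph V) (A : Set V) (s t u : V) : Prop :=
  ∃ a0 ∈ A, ∃ a1 ∈ A, G.Adj s a0 ∧ G.Adj t a0 ∧ G.Adj u a0 ∧ G.Adj a0 a1 ∧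
    ((G.Adj s a1 ∧ ¬ G.Adj t a1 ∧ ¬ G.Adj u a1) ∨ (¬ G.Adj s a1 ∧ G.Adj t a1 ∧ G.Adj u a1))

lemma DC.symm {s t u : V} (h : DC G A s t u) : DC G A s u t := by
  obtain ⟨a0, h0, a1, h1, h2, h3, h4, h5, h6⟩ := h
  exact ⟨a0, h0, a1, h1, h2, h4, h3, h5, by tauto⟩

lemma DC.not_mid {l r α : V → ℤ} (h : HalfRep G A S l r α) {s t u : V} (hs : s ∈ S) (ht : t ∈ S)
    (hu : u ∈ S) (hd : DC G A s t u) : ¬ ((α t < α s ∧ α s < α u) ∨ (α u < α s ∧ α s < α t)) := by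
  have key : ∀ t u, t ∈ S → u ∈ S → DC G A s t u → ¬ (α t < α s ∧ α s < α u) := by
    rintro t u ht hu ⟨a0, h0, a1, h1, h2, h3, h4, h5, h6⟩ ⟨h7, h8⟩
    rcases h6 with ⟨h6, h6', h6''⟩ | ⟨h6, h6', h6''⟩
    · rcases h.pref h0 h1 ht hs hu h7 h8 h5 h3.symm h4.symm h6.symm with h9 | h9
      · exact h6' h9.symm
      · exact h6'' h9.symm
    · exact h6 (h.conv h1 ht hs hu h7 h8 h6'.symm h6''.symm).symm
  rintro (h1 | h1)
  · exact key t u ht hu hd h1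
  · exact key u t hu ht hd.symm h1

lemma exists_DC [Finite V] (hG : IsChordal G) (hA : Cn G A) {s t u : V} (hsA : s ∉ A)
    (htA : t ∉ A) (huA : u ∉ A) (hst : G.Adj s t) (hsu : G.Adj s u) (htu : G.Adj t u)
    (fs : ∃ x ∈ A, G.Adj s x) (ft : ∃ x ∈ A, G.Adj t x) (fu : ∃ x ∈ A, G.Adj u x)
    (hsep : ¬ Tw G A s t) : DC G A s t u ∨ DC G A t s u ∨ DC G A u s t := by
  obtain ⟨L, g, a0, arm, ha0, e1, e2, e3, e4, e5⟩ := exists_arm hG hA huA hsA htA hsu.symm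
    htu.symm hst fu fs ft hsep
  have hL := arm.pos
  have hsep := arm.sep
  rcases Nat.lt_or_ge L 2 with h1 | h1
  · have : L = 1 := by omega
    subst this
    have hc1 := arm.c1
    by_cases h2 : G.Adj s (g 1)
    · refine Or.inr (Or.inl ⟨a0, ha0, g 1, arm.mem 1 le_rfl le_rfl, e3.symm, e2.symm, e1.symm,
        e4 rfl, Or.inr ⟨hsep.mp h2, h2, hc1⟩⟩)
    · refine Or.inl ⟨a0, ha0, g 1, arm.mem 1 le_rfl le_rfl, e2.symm, e3.symm, e1.symm,
        e4 rfl, Or.inr ⟨h2, by tauto, hc1⟩⟩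
  · rcases Nat.lt_or_ge L 3 with h3 | h3
    · have : L = 2 := by omega
      subst this
      have h12 := (arm.path 1 2 (by omega) le_rfl).2.mpr rfl
      have hc2 := arm.c2 (i := 2) le_rfl le_rfl
      by_cases h2 : G.Adj s (g 2)
      · refine Or.inl ⟨g 1, arm.mem 1 le_rfl (by omega), g 2, arm.mem 2 (by omega) le_rfl,
          arm.fp 1 (by omega), arm.fq 1 (by omega), arm.c1, h12, Or.inl ⟨h2, hsep.mp h2, hc2⟩⟩
      · refine Or.inr (Or.inl ⟨g 1, arm.mem 1 le_rfl (by omega), g 2,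
          arm.mem 2 (by omega) le_rfl, arm.fq 1 (by omega), arm.fp 1 (by omega), arm.c1, h12,
          Or.inl ⟨by tauto, h2, hc2⟩⟩)
    · have h12 := (arm.path 1 2 (by omega) (by omega)).2.mpr rfl
      have hc2 := arm.c2 (i := 2) le_rfl (by omega)
      refine Or.inr (Or.inr ⟨g 1, arm.mem 1 le_rfl (by omega), g 2, arm.mem 2 (by omega) (by omega),
        arm.c1, arm.fp 1 (by omega), arm.fq 1 (by omega), h12,
        Or.inr ⟨hc2, arm.fp 2 (by omega), arm.fq 2 (by omega)⟩⟩)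

/-- without direct certificates the arm has length at least three -/
lemma arm_long [Finite V] (hG : IsChordal G) (hA : Cn G A) {c p q : V} (hcA : c ∉ A)
    (hpA : p ∉ A) (hqA : q ∉ A) (hcp : G.Adj c p) (hcq : G.Adj c q) (hpq : G.Adj p q)
    (fc : ∃ x ∈ A, G.Adj c x) (fp : ∃ x ∈ A, G.Adj p x) (fq : ∃ x ∈ A, G.Adj q x)
    (hsep : ¬ Tw G A p q) (np : ¬ DC G A p c q) (nq : ¬ DC G A q c p) :
    ∃ (L : ℕ) (h : ℕ → V), 3 ≤ L ∧ Arm G A c p q L h := by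
  obtain ⟨L, g, a0, arm, ha0, e1, e2, e3, e4, e5⟩ := exists_arm hG hA hcA hpA hqA hcp hcq hpq
    fc fp fq hsep
  refine ⟨L, g, ?_, arm⟩
  have hL := arm.pos
  have hsep := arm.sep
  by_contra hcon
  rcases Nat.lt_or_ge L 2 with h1 | h1
  · have : L = 1 := by omega
    subst this
    have hc1 := arm.c1
    by_cases h2 : G.Adj p (g 1)
    · exact nq ⟨a0, ha0, g 1, arm.mem 1 le_rfl le_rfl, e3.symm, e1.symm, e2.symm,
        e4 rfl, Or.inr ⟨hsep.mp h2, hc1, h2⟩⟩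
    · exact np ⟨a0, ha0, g 1, arm.mem 1 le_rfl le_rfl, e2.symm, e1.symm, e3.symm,
        e4 rfl, Or.inr ⟨h2, hc1, by tauto⟩⟩
  · have : L = 2 := by omega
    subst this
    have h12 := (arm.path 1 2 (by omega) le_rfl).2.mpr rfl
    have hc2 := arm.c2 (i := 2) le_rfl le_rfl
    by_cases h2 : G.Adj p (g 2)
    · exact np ⟨g 1, arm.mem 1 le_rfl (by omega), g 2, arm.mem 2 (by omega) le_rfl,
        arm.fp 1 (by omega), arm.c1, arm.fq 1 (by omega), h12, Or.inl ⟨h2, hc2, hsep.mp h2⟩⟩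
    · exact nq ⟨g 1, arm.mem 1 le_rfl (by omega), g 2, arm.mem 2 (by omega) le_rfl,
        arm.fq 1 (by omega), arm.c1, arm.fp 1 (by omega), h12, Or.inl ⟨by tauto, hc2, h2⟩⟩

/-- an arm of length three against a certificate of complementary type -/
lemma core31 (hG : NoListed G) (hc : SepConf G A B S Dd W) {c p q : V} (hcS : c ∈ S)
    (hp : p ∈ S) (hq : q ∈ S) (f_s_t : G.Adj p q) (f_r_s : G.Adj c p) (f_r_t : G.Adj c q)
    {h : ℕ → V} (arm : Arm G A c p q 3 h) (hp3 : G.Adj p (h 3)) {b0 b1 : V} (hb0 : b0 ∈ B)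
    (hb1 : b1 ∈ B) (f_r_b0 : G.Adj c b0) (f_s_b0 : G.Adj p b0) (f_t_b0 : G.Adj q b0)
    (f_b0_b1 : G.Adj b0 b1) (n_s_b1 : ¬ G.Adj p b1) (f_r_b1 : G.Adj c b1) (f_t_b1 : G.Adj q b1) :
    False := by
  have m1 := arm.mem 1 (by omega) (by omega)
  have m2 := arm.mem 2 (by omega) (by omega)
  have m3 := arm.mem 3 (by omega) (by omega)
  have f_s_b1 : NA G p b1 := ⟨(hc.neBS hb1 hp).symm, n_s_b1⟩
  have f_s_a0 := arm.fp 1 (by omega)
  have f_s_a1 := arm.fp 2 (by omega)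
  have f_s_a2 := hp3
  have f_t_a0 := arm.fq 1 (by omega)
  have f_t_a1 := arm.fq 2 (by omega)
  have f_t_a2 : NA G q (h 3) := ⟨(hc.neAS m3 hq).symm, arm.sep.mp hp3⟩
  have f_r_a0 := arm.c1
  have f_r_a1 : NA G c (h 2) := ⟨(hc.neAS m2 hcS).symm, arm.c2 le_rfl (by omega)⟩
  have f_r_a2 : NA G c (h 3) := ⟨(hc.neAS m3 hcS).symm, arm.c2 (by omega) (by omega)⟩
  have f_a0_a1 := (arm.path 1 2 (by omega) (by omega)).2.mpr rfl
  have f_a1_a2 := (arm.path 2 3 (by omega) (by omega)).2.mpr rfl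
  have f_a0_a2 : NA G (h 1) (h 3) := by
    obtain ⟨h1, h2⟩ := arm.path 1 3 (by omega) (by omega)
    exact ⟨h1, fun h => by have := h2.mp h; omega⟩
  have f_a0_b0 := hc.naAB m1 hb0
  have f_a0_b1 := hc.naAB m1 hb1
  have f_a1_b0 := hc.naAB m2 hb0
  have f_a1_b1 := hc.naAB m2 hb1
  have f_a2_b0 := hc.naAB m3 hb0
  have f_a2_b1 := hc.naAB m3 hb1
  exact sp8_false hG f_s_t f_s_a0 f_s_a1 f_s_a2 f_r_s.symm f_s_b1 f_s_b0 f_t_a0 f_t_a1 f_t_a2
    f_r_t.symm f_t_b1 f_t_b0 f_a0_a1 f_a0_a2 f_r_a0.symm f_a0_b1 f_a0_b0 f_a1_a2 f_r_a1.symm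
    f_a1_b1 f_a1_b0 f_r_a2.symm f_a2_b1 f_a2_b0 f_r_b1 f_r_b0 f_b0_b1.symm

/-- arms from direct certificates -/
lemma arm_two {c p q b0 b1 : V} (hb0 : b0 ∈ B) (hb1 : b1 ∈ B) (hcb0 : G.Adj c b0)
    (hpc : G.Adj c p) (hqc : G.Adj c q)
    (hpb0 : G.Adj p b0) (hqb0 : G.Adj q b0) (h01 : G.Adj b0 b1) (hcb1 : NA G c b1)
    (hs : G.Adj p b1 ↔ ¬ G.Adj q b1) :
    Arm G B c p q 2 (look [c, b0, b1] c) := by
  refine ⟨by omega, rfl, ?_, ?_, ?_, ?_, hs⟩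
  · intro i hi hi'
    rcases Nat.lt_or_ge i 2 with h | h
    · have : i = 1 := by omega
      subst this; exact hb0
    · have : i = 2 := by omega
      subst this; exact hb1
  · intro i j hij hj
    rcases Nat.lt_or_ge j 2 with h | h
    · have h1 : i = 0 := by omega
      have h2 : j = 1 := by omega
      subst h1; subst h2
      exact ⟨hcb0.ne, iff_of_true hcb0 rfl⟩
    · have h2 : j = 2 := by omega
      subst h2
      rcases Nat.eq_zero_or_pos i with h1 | h1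
      · subst h1
        exact ⟨hcb1.1, iff_of_false hcb1.2 (by omega)⟩
      · have h3 : i = 1 := by omega
        subst h3
        exact ⟨h01.ne, iff_of_true h01 rfl⟩
  · intro i hi
    rcases Nat.eq_zero_or_pos i with h1 | h1
    · subst h1; exact hpc.symm
    · have h3 : i = 1 := by omega
      subst h3; exact hpb0
  · intro i hi
    rcases Nat.eq_zero_or_pos i with h1 | h1
    · subst h1; exact hqc.symm
    · have h3 : i = 1 := by omega
      subst h3; exact hqb0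

lemma arm_one {c p q b1 : V} (hb1 : b1 ∈ B) (hcb1 : G.Adj c b1)
    (hpc : G.Adj c p) (hqc : G.Adj c q) (hs : G.Adj p b1 ↔ ¬ G.Adj q b1) :
    Arm G B c p q 1 (look [c, b1] c) := by
  refine ⟨le_rfl, rfl, ?_, ?_, ?_, ?_, hs⟩
  · intro i hi hi'
    have : i = 1 := by omega
    subst this; exact hb1
  · intro i j hij hj
    have h1 : i = 0 := by omega
    have h2 : j = 1 := by omega
    subst h1; subst h2
    exact ⟨hcb1.ne, iff_of_true hcb1 rfl⟩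
  · intro i hi
    have h1 : i = 0 := by omega
    subst h1; exact hpc.symm
  · intro i hi
    have h1 : i = 0 := by omega
    subst h1; exact hqc.symm

lemma core_false [Finite V] (hG : NoListed G) (hc : SepConf G A B S Dd W)
    {l r α l' r' β : V → ℤ} (hX : HalfRep G A S l r α) (hY : HalfRep G B S l' r' β)
    {c mx ot : V} (hcS : c ∈ S) (hmx : mx ∈ S) (hot : ot ∈ S) (h1 : G.Adj c mx)
    (h2 : G.Adj c ot) (h3 : G.Adj ot mx) (n1 : ¬ DC G A mx c ot) (n2 : ¬ DC G A ot c mx)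
    (hsX : ¬ Tw G A ot mx) (mid : (α c < α ot ∧ α ot < α mx) ∨ (α mx < α ot ∧ α ot < α c))
    (hYc : DC G B ot c mx ∨ (¬ DC G B ot c mx ∧ ¬ DC G B mx c ot ∧ ¬ Tw G B ot mx ∧
      ((β c < β mx ∧ β mx < β ot) ∨ (β ot < β mx ∧ β mx < β c)))) : False := by
  have nA : ∀ x ∈ S, x ∉ A := fun x hx hxA => Set.disjoint_left.mp hc.dAS hxA hx
  have nB : ∀ x ∈ S, x ∉ B := fun x hx hxA => Set.disjoint_left.mp hc.dBS hxA hx
  obtain ⟨L, hA, hL, armA⟩ := arm_long hG.ch hc.cA (nA c hcS) (nA ot hot) (nA mx hmx) h2 h1 h3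
    (hc.fA c hcS) (hc.fA ot hot) (hc.fA mx hmx) hsX n2 n1
  have parA := arm_parity' hX hcS hot hmx mid armA
  rcases hYc with ⟨b0, hb0, b1, hb1, g1, g2, g3, g4, g5⟩ | ⟨m1, m2, hsY, midY⟩
  · rcases g5 with ⟨g5, g6, g7⟩ | ⟨g5, g6, g7⟩
    · have armB := arm_two (p := ot) (q := mx) hb0 hb1 g2 h2 h1 g1 g3 g4
        ⟨(hc.neBS hb1 hcS).symm, g6⟩ (by tauto)
      refine fan_of_arms hG hc hot hmx h3 armA armB (by omega) ?_
      have e : G.Adj ot (look [c, b0, b1] c 2) := g5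
      rw [parA, iff_true_right e, Nat.odd_add]
      simp
    · have armB := arm_one (p := ot) (q := mx) hb1 g6 h2 h1 (by tauto)
      rcases Nat.lt_or_ge 3 L with h4 | h4
      · refine fan_of_arms hG hc hot hmx h3 armA armB (by omega) ?_
        have e : ¬ G.Adj ot (look [c, b1] c 1) := g5
        rw [parA, iff_false_right e, Nat.odd_add_one]
      · have h5 : L = 3 := by omega
        subst h5
        exact core31 hG hc hcS hot hmx h3 h2 h1 armA (parA.mpr (by decide)) hb0 hb1 g2 g1 g3 g4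
          g5 g6 g7
  · obtain ⟨M, hB, hM, armB⟩ := arm_long hG.ch hc.cB (nB c hcS) (nB ot hot) (nB mx hmx) h2 h1 h3
      (hc.fB c hcS) (hc.fB ot hot) (hc.fB mx hmx) hsY m1 m2
    have parB := arm_parity' hY hcS hmx hot midY armB.swap
    have parB' : G.Adj ot (hB M) ↔ ¬ Odd M := by rw [← parB]; exact armB.sep
    refine fan_of_arms hG hc hot hmx h3 armA armB (by omega) ?_
    rw [parA, parB', Nat.odd_add]
    by_cases o1 : Odd L <;> by_cases o2 : Odd M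
    · simp [o1, Nat.not_even_iff_odd.mpr o2, o2]
    · simp [o1, Nat.not_odd_iff_even.mp o2]
    · simp [o1, o2, Nat.not_even_iff_odd.mpr o2]
    · simp [o1, o2, Nat.not_odd_iff_even.mp o2]

/-- three direct certificates -/
lemma d1d2_false (hG : NoListed G) (hc : SepConf G A B S Dd W) {s t u : V} (hs : s ∈ S)
    (ht : t ∈ S) (hu : u ∈ S) (f_s_t : G.Adj s t) (f_s_u : G.Adj s u) (f_t_u : G.Adj t u)
    (dA : DC G A s t u) (dt : DC G B t s u) (du : DC G B u s t) : False := by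
  obtain ⟨a0, ha0, a1, ha1, f_s_a0, f_t_a0, f_u_a0, f_a0_a1, tya⟩ := dA
  obtain ⟨b0, hb0, b1, hb1, f_t_b0, f_s_b0, f_u_b0, f_b0_b1, tyb⟩ := dt
  obtain ⟨c0, hc0, c1, hc1, f_u_c0, f_s_c0, f_t_c0, f_c0_c1, tyc⟩ := du
  have nSA : ∀ {x y}, x ∈ S → y ∈ A → ¬ G.Adj x y → NA G x y := fun hx hy h =>
    ⟨(hc.neAS hy hx).symm, h⟩
  have nSB : ∀ {x y}, x ∈ S → y ∈ B → ¬ G.Adj x y → NA G x y := fun hx hy h =>
    ⟨(hc.neBS hy hx).symm, h⟩
  have hta : (G.Adj s a1 ∧ NA G t a1 ∧ NA G u a1) ∨ (NA G s a1 ∧ G.Adj t a1 ∧ G.Adj u a1) := by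
    rcases tya with ⟨e1, e2, e3⟩ | ⟨e1, e2, e3⟩
    · exact Or.inl ⟨e1, nSA ht ha1 e2, nSA hu ha1 e3⟩
    · exact Or.inr ⟨nSA hs ha1 e1, e2, e3⟩
  have htb : (G.Adj t b1 ∧ NA G s b1 ∧ NA G u b1) ∨ (NA G t b1 ∧ G.Adj s b1 ∧ G.Adj u b1) := by
    rcases tyb with ⟨e1, e2, e3⟩ | ⟨e1, e2, e3⟩
    · exact Or.inl ⟨e1, nSB hs hb1 e2, nSB hu hb1 e3⟩
    · exact Or.inr ⟨nSB ht hb1 e1, e2, e3⟩
  have htc : (G.Adj u c1 ∧ NA G s c1 ∧ NA G t c1) ∨ (NA G u c1 ∧ G.Adj s c1 ∧ G.Adj t c1) := by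
    rcases tyc with ⟨e1, e2, e3⟩ | ⟨e1, e2, e3⟩
    · exact Or.inl ⟨e1, nSB hs hc1 e2, nSB ht hc1 e3⟩
    · exact Or.inr ⟨nSB hu hc1 e1, e2, e3⟩
  have b1c1 : b1 ≠ c1 := by
    rintro rfl
    rcases htb with ⟨e1, e2, e3⟩ | ⟨e1, e2, e3⟩ <;> rcases htc with ⟨g1, g2, g3⟩ | ⟨g1, g2, g3⟩
    · exact e3.2 g1
    · exact e2.2 g2
    · exact g2.2 e2
    · exact e1.2 g3
  have hdec : G.Adj b1 c1 ∨ NA G b1 c1 := by
    by_cases h : G.Adj b1 c1
    · exact Or.inl h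
    · exact Or.inr ⟨b1c1, h⟩
  by_cases k1 : b0 = c0
  · subst k1
    exact d1d2_com hG f_s_t f_s_u f_t_u f_s_a0 f_t_a0 f_u_a0 f_s_b0 f_t_b0 f_u_b0 f_a0_a1
      f_b0_b1 (hc.naAB ha0 hb0) (hc.naAB ha0 hb1) (hc.naAB ha0 hc1) (hc.naAB ha1 hb0)
      (hc.naAB ha1 hb1) (hc.naAB ha1 hc1) f_c0_c1 hta htb htc hdec
  by_cases k2 : G.Adj b1 c0
  · exact d1d2_com hG f_s_t f_s_u f_t_u f_s_a0 f_t_a0 f_u_a0 f_s_c0 f_t_c0 f_u_c0 f_a0_a1
      k2.symm (hc.naAB ha0 hc0) (hc.naAB ha0 hb1) (hc.naAB ha0 hc1) (hc.naAB ha1 hc0)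
      (hc.naAB ha1 hb1) (hc.naAB ha1 hc1) f_c0_c1 hta htb htc hdec
  by_cases k3 : G.Adj b0 c1
  · exact d1d2_com hG f_s_t f_s_u f_t_u f_s_a0 f_t_a0 f_u_a0 f_s_b0 f_t_b0 f_u_b0 f_a0_a1
      f_b0_b1 (hc.naAB ha0 hb0) (hc.naAB ha0 hb1) (hc.naAB ha0 hc1) (hc.naAB ha1 hb0)
      (hc.naAB ha1 hb1) (hc.naAB ha1 hc1) k3 hta htb htc hdec
  have b1c0 : b1 ≠ c0 := by
    rintro rfl
    rcases htb with ⟨e1, e2, e3⟩ | ⟨e1, e2, e3⟩
    · exact e2.2 f_s_c0
    · exact e1.2 f_t_c0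
  have b0c1 : b0 ≠ c1 := by
    rintro rfl
    rcases htc with ⟨e1, e2, e3⟩ | ⟨e1, e2, e3⟩
    · exact e2.2 f_s_b0
    · exact e1.2 f_u_b0
  have f_b1_c0 : NA G b1 c0 := ⟨b1c0, k2⟩
  have f_b0_c1 : NA G b0 c1 := ⟨b0c1, k3⟩
  have hnadj : NA G b1 c1 := by
    refine ⟨b1c1, fun hbc => ?_⟩
    by_cases k4 : G.Adj b0 c0
    · exact c4_false hG.ch k4 f_b0_b1 f_c0_c1 hbc f_b0_c1 f_b1_c0.symm
    · -- a vertex of the triple nonadjacent to `b1`
      obtain ⟨x, hxS, hxb0, hxc0, hxb1⟩ : ∃ x ∈ S, G.Adj x b0 ∧ G.Adj x c0 ∧ NA G x b1 := by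
        rcases htb with ⟨e1, e2, e3⟩ | ⟨e1, e2, e3⟩
        · exact ⟨s, hs, f_s_b0, f_s_c0, e2⟩
        · exact ⟨t, ht, f_t_b0, f_t_c0, e1⟩
      exact c5_false hG.ch hxb0.symm f_b0_b1 hbc f_c0_c1.symm hxc0 f_b0_c1 ⟨k1, k4⟩ hxb1
        (hc.neBS hc1 hxS).symm
  refine d1d2_non hG f_s_t f_s_u f_t_u f_s_a0 f_t_a0 f_u_a0 f_s_b0 f_t_b0 f_u_b0 f_s_c0 f_t_c0
    f_u_c0 f_a0_a1 f_b0_b1 (hc.naAB ha0 hb0) (hc.naAB ha0 hb1) (hc.naAB ha0 hc0)
    (hc.naAB ha0 hc1) (hc.naAB ha1 hb0) (hc.naAB ha1 hb1) (hc.naAB ha1 hc0) (hc.naAB ha1 hc1)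
    f_c0_c1 f_b0_c1 f_b1_c0 hnadj hta htb htc ?_
  by_cases k4 : G.Adj b0 c0
  · exact Or.inl k4
  · exact Or.inr ⟨k1, k4⟩

/-- **Triples.** -/
theorem endMid_holds [Finite V] (hG : NoListed G) (hc : SepConf G A B S Dd W)
    {l r α l' r' β : V → ℤ} (hX : HalfRep G A S l r α) (hY : HalfRep G B S l' r' β) :
    EndMid S (Tw G A) (Tw G B) α β := by
  intro s hs t ht u hu a1 a2 hend b1 b2 m1 m2
  have nA : ∀ x ∈ S, x ∉ A := fun x hx hxA => Set.disjoint_left.mp hc.dAS hxA hx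
  have nB : ∀ x ∈ S, x ∉ B := fun x hx hxA => Set.disjoint_left.mp hc.dBS hxA hx
  have nst : s ≠ t := fun h => a1 (h ▸ Tw.refl _ _ _)
  have nsu : s ≠ u := fun h => a2 (h ▸ Tw.refl _ _ _)
  have ntu : t ≠ u := fun h => by rw [h] at m1; omega
  have hst := hc.clq s hs t ht nst
  have hsu := hc.clq s hs u hu nsu
  have htu := hc.clq t ht u hu ntu
  have a1' : ¬ Tw G A t s := fun h => a1 h.symm
  have a2' : ¬ Tw G A u s := fun h => a2 h.symm
  have b1' : ¬ Tw G B t s := fun h => b1 h.symm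
  have b2' : ¬ Tw G B u s := fun h => b2 h.symm
  have exA := exists_DC hG.ch hc.cA (nA s hs) (nA t ht) (nA u hu) hst hsu htu (hc.fA s hs)
    (hc.fA t ht) (hc.fA u hu) a1
  have exB := exists_DC hG.ch hc.cB (nB s hs) (nB t ht) (nB u hu) hst hsu htu (hc.fB s hs)
    (hc.fB t ht) (hc.fB u hu) b1
  -- `s` is the middle for `B`
  have nBs : ¬ DC G B s t u := fun h => h.not_mid hY hs ht hu (Or.inl ⟨m1, m2⟩)
  by_cases dAs : DC G A s t u
  · by_cases dBt : DC G B t s u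
    · by_cases dBu : DC G B u s t
      · exact d1d2_false hG hc hs ht hu hst hsu htu dAs dBt dBu
      · -- `X = B`, `c = t`, `mx = u`, `ot = s`
        refine core_false hG hc.symm hY hX (c := t) (mx := u) (ot := s) ht hu hs htu hst.symm hsu
          (fun h => dBu h.symm) nBs b2 (Or.inl ⟨m1, m2⟩) (Or.inl dAs)
    · have dBu : DC G B u s t := by
        rcases exB with h | h | h
        exacts [absurd h nBs, absurd h dBt, h]
      refine core_false hG hc.symm hY hX (c := u) (mx := t) (ot := s) hu ht hs htu.symm hsu.symm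
        hst (fun h => dBt h.symm) (fun h => nBs h.symm) b1 (Or.inr ⟨m1, m2⟩) (Or.inl dAs.symm)
  · by_cases dAt : DC G A t s u
    · have nm := dAt.not_mid hX ht hs hu
      have ne1 := hX.inj t ht u hu ntu
      have ne2 := hX.inj s hs t ht nst
      have ne3 := hX.inj s hs u hu nsu
      -- `u` is the middle for `A`
      have hmid : (α t < α u ∧ α u < α s) ∨ (α s < α u ∧ α u < α t) := by omega
      have dAu : ¬ DC G A u s t := fun h => h.not_mid hX hu hs ht (by omega)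
      by_cases dBu : DC G B u s t
      · exact core_false hG hc hX hY (c := t) (mx := s) (ot := u) ht hs hu hst.symm htu hsu.symm
          (fun h => dAs h) (fun h => dAu h.symm) a2' hmid (Or.inl dBu.symm)
      · exact core_false hG hc hX hY (c := t) (mx := s) (ot := u) ht hs hu hst.symm htu hsu.symm
          (fun h => dAs h) (fun h => dAu h.symm) a2' hmid
          (Or.inr ⟨fun h => dBu h.symm, nBs, b2', by omega⟩)
    · have dAu : DC G A u s t := by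
        rcases exA with h | h | h
        exacts [absurd h dAs, absurd h dAt, h]
      have nm := dAu.not_mid hX hu hs ht
      have ne1 := hX.inj t ht u hu ntu
      have ne2 := hX.inj s hs t ht nst
      have ne3 := hX.inj s hs u hu nsu
      have hmid : (α u < α t ∧ α t < α s) ∨ (α s < α t ∧ α t < α u) := by omega
      by_cases dBt : DC G B t s u
      · exact core_false hG hc hX hY (c := u) (mx := s) (ot := t) hu hs ht hsu.symm htu.symm
          hst.symm (fun h => dAs h.symm) (fun h => dAt h.symm) a1' hmid (Or.inl dBt.symm)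
      · exact core_false hG hc hX hY (c := u) (mx := s) (ot := t) hu hs ht hsu.symm htu.symm
          hst.symm (fun h => dAs h.symm) (fun h => dAt h.symm) a1' hmid
          (Or.inr ⟨fun h => dBt h.symm, fun h => nBs h.symm, b1', by omega⟩)

end Pool.Agent.Lib.MP_50b720_co
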