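import Pool.Agent.Lib.MP_50b720_co.Full.PatPath

set_option autoImplicit false

namespace Pool.Agent.Lib.MP_50b720_co

open SimpleGraph

variable {V : Type*} {G : SimpleGraph V} {A B S Dd W : Set V} {c p q : V} {L M : ℕ}
  {hA hB : ℕ → V}

/-- the negation of an equivalence -/
lemma iffNot_of_not {P Q : Prop} (h : ¬ (P ↔ Q)) : P ↔ ¬ Q := by tauto

/-- exchange of the two sides -/
lemma iffNot_swap {P Q : Prop} (h : P ↔ ¬ Q) : Q ↔ ¬ P := by tauto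

lemma path4_false (hG : NoListed G) {x : ℕ → V} {p q y : V} (hx : IndPath G 4 x)
    (f_p_q : G.Adj p q) (f_p_x0 : G.Adj p (x 0)) (f_q_x0 : NA G q (x 0))
    (hp : ∀ i, 1 ≤ i → i ≤ 3 → G.Adj p (x i)) (hq : ∀ i, 1 ≤ i → i ≤ 3 → G.Adj q (x i))
    (f_p_x4 : NA G p (x 4)) (f_q_x4 : G.Adj q (x 4)) (f_p_d : G.Adj p y) (f_q_d : G.Adj q y)
    (hy : ∀ i, i ≤ 4 → NA G y (x i)) : False := by
  have f_p_x1 := hp 1 (by omega) (by omega)
  have f_p_x2 := hp 2 (by omega) (by omega)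
  have f_p_x3 := hp 3 (by omega) (by omega)
  have f_q_x1 := hq 1 (by omega) (by omega)
  have f_q_x2 := hq 2 (by omega) (by omega)
  have f_q_x3 := hq 3 (by omega) (by omega)
  have f_d_x0 := hy 0 (by omega)
  have f_d_x1 := hy 1 (by omega)
  have f_d_x2 := hy 2 (by omega)
  have f_d_x3 := hy 3 (by omega)
  have f_d_x4 := hy 4 (by omega)
  have f_x0_x1 := (hx 0 1 (by omega) (by omega)).2.mpr (by omega)
  have f_x1_x2 := (hx 1 2 (by omega) (by omega)).2.mpr (by omega)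
  have f_x2_x3 := (hx 2 3 (by omega) (by omega)).2.mpr (by omega)
  have f_x3_x4 := (hx 3 4 (by omega) (by omega)).2.mpr (by omega)
  have na : ∀ i j, i + 1 < j → j ≤ 4 → NA G (x i) (x j) := by
    intro i j hij hj
    obtain ⟨h1, h2⟩ := hx i j (by omega) hj
    exact ⟨h1, fun h => by have := h2.mp h; omega⟩
  have f_x0_x2 := na 0 2 (by omega) (by omega)
  have f_x0_x3 := na 0 3 (by omega) (by omega)
  have f_x0_x4 := na 0 4 (by omega) (by omega)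
  have f_x1_x3 := na 1 3 (by omega) (by omega)
  have f_x1_x4 := na 1 4 (by omega) (by omega)
  have f_x2_x4 := na 2 4 (by omega) (by omega)
  exact sp5_false hG f_p_q f_p_x2 f_p_d f_p_x1 f_p_x0 f_p_x3 f_p_x4 f_q_x2 f_q_d f_q_x1 f_q_x0
      f_q_x3 f_q_x4 f_d_x2.symm f_x1_x2.symm f_x0_x2.symm f_x2_x3 f_x2_x4 f_d_x1 f_d_x0 f_d_x3
      f_d_x4 f_x0_x1.symm f_x1_x3 f_x1_x4 f_x0_x3 f_x0_x4 f_x3_x4

lemma case12_aux (hG : NoListed G) (hc : SepConf G A B S Dd W) (hp : p ∈ S) (hq : q ∈ S)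
    (hcS : c ∈ S) (f_p_q : G.Adj p q) (f_p_r : G.Adj p c) (f_q_r : G.Adj q c) {d a0 a1 b0 b1 : V}
    (hd : d ∈ Dd) (f_p_d : G.Adj p d) (f_q_d : G.Adj q d) (f_r_d : NA G c d)
    (ha0 : a0 ∈ A) (ha1 : a1 ∈ A) (hb0 : b0 ∈ B) (hb1 : b1 ∈ B)
    (f_r_a0 : G.Adj c a0) (f_p_a0 : G.Adj p a0) (f_q_a0 : G.Adj q a0) (f_a0_a1 : G.Adj a0 a1)
    (f_r_a1 : G.Adj c a1) (f_p_a1 : G.Adj p a1) (f_q_a1' : ¬ G.Adj q a1)
    (f_r_b0 : G.Adj c b0) (f_p_b0 : G.Adj p b0) (f_q_b0 : G.Adj q b0) (f_b0_b1 : G.Adj b0 b1)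
    (f_r_b1' : ¬ G.Adj c b1) (hb : G.Adj p b1 ↔ ¬ G.Adj q b1) : False := by
  have f_q_a1 : NA G q a1 := ⟨(hc.neAS ha1 hq).symm, f_q_a1'⟩
  have f_r_b1 : NA G c b1 := ⟨(hc.neBS hb1 hcS).symm, f_r_b1'⟩
  have f_d_a0 := hc.naDA hd ha0
  have f_d_a1 := hc.naDA hd ha1
  have f_d_b0 := hc.naDB hd hb0
  have f_d_b1 := hc.naDB hd hb1
  have f_a0_b0 := hc.naAB ha0 hb0
  have f_a0_b1 := hc.naAB ha0 hb1
  have f_a1_b0 := hc.naAB ha1 hb0
  have f_a1_b1 := hc.naAB ha1 hb1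
  by_cases f_p_b1' : G.Adj p b1
  · have f_p_b1 := f_p_b1'
    have f_q_b1 : NA G q b1 := ⟨(hc.neBS hb1 hq).symm, hb.mp f_p_b1⟩
    exact sp0_false hG f_p_q f_p_r f_p_b0 f_p_d f_p_a1 f_p_b1 f_q_r f_q_b0 f_q_d f_q_a1 f_q_b1
      f_r_b0 f_r_d f_r_a1 f_r_b1 f_d_b0.symm f_a1_b0.symm f_b0_b1 f_d_a1 f_d_b1 f_a1_b1
  · have f_p_b1 : NA G p b1 := ⟨(hc.neBS hb1 hp).symm, f_p_b1'⟩
    have f_q_b1 : G.Adj q b1 := by_contra fun h => f_p_b1' (hb.mpr h)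
    exact sp7_false hG f_p_q.symm f_q_r f_q_d f_q_b0 f_q_b1 f_q_a0 f_q_a1 f_p_r f_p_d f_p_b0
      f_p_b1 f_p_a0 f_p_a1 f_r_d f_r_b0 f_r_b1 f_r_a0 f_r_a1 f_d_b0 f_d_b1 f_d_a0 f_d_a1 f_b0_b1
      f_a0_b0.symm f_a1_b0.symm f_a0_b1.symm f_a1_b1.symm f_a0_a1

lemma case11_aux (hG : NoListed G) (hc : SepConf G A B S Dd W) (hp : p ∈ S) (hq : q ∈ S)
    (f_p_q : G.Adj p q) (f_p_r : G.Adj p c) (f_q_r : G.Adj q c) {d a0 a1 b0 b1 : V}
    (hd : d ∈ Dd) (f_p_d : G.Adj p d) (f_q_d : G.Adj q d) (f_r_d : NA G c d)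
    (ha0 : a0 ∈ A) (ha1 : a1 ∈ A) (hb0 : b0 ∈ B) (hb1 : b1 ∈ B)
    (f_r_a0 : G.Adj c a0) (f_p_a0 : G.Adj p a0) (f_q_a0 : G.Adj q a0) (f_a0_a1 : G.Adj a0 a1)
    (f_r_a1 : G.Adj c a1) (f_p_a1 : G.Adj p a1) (f_q_a1' : ¬ G.Adj q a1)
    (f_r_b0 : G.Adj c b0) (f_p_b0 : G.Adj p b0) (f_q_b0 : G.Adj q b0) (f_b0_b1 : G.Adj b0 b1)
    (f_r_b1 : G.Adj c b1) (hb : G.Adj p b1 ↔ ¬ G.Adj q b1) : False := by
  have f_q_a1 : NA G q a1 := ⟨(hc.neAS ha1 hq).symm, f_q_a1'⟩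
  have f_d_a0 := hc.naDA hd ha0
  have f_d_a1 := hc.naDA hd ha1
  have f_d_b0 := hc.naDB hd hb0
  have f_d_b1 := hc.naDB hd hb1
  have f_a0_b0 := hc.naAB ha0 hb0
  have f_a0_b1 := hc.naAB ha0 hb1
  have f_a1_b0 := hc.naAB ha1 hb0
  have f_a1_b1 := hc.naAB ha1 hb1
  by_cases f_p_b1' : G.Adj p b1
  · have f_p_b1 := f_p_b1'
    have f_q_b1 : NA G q b1 := ⟨(hc.neBS hb1 hq).symm, hb.mp f_p_b1⟩
    exact sp11_false hG f_p_q f_p_r f_p_d f_p_a0 f_p_a1 f_p_b0 f_p_b1 f_q_r f_q_d f_q_a0 f_q_a1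
      f_q_b0 f_q_b1 f_r_d f_r_a0 f_r_a1 f_r_b0 f_r_b1 f_d_a0 f_d_a1 f_d_b0 f_d_b1 f_a0_a1
      f_a0_b0 f_a0_b1 f_a1_b0 f_a1_b1 f_b0_b1
  · have f_p_b1 : NA G p b1 := ⟨(hc.neBS hb1 hp).symm, f_p_b1'⟩
    have f_q_b1 : G.Adj q b1 := by_contra fun h => f_p_b1' (hb.mpr h)
    exact sp9_false hG f_p_q f_p_r f_p_d f_p_a0 f_p_a1 f_p_b0 f_p_b1 f_q_r f_q_d f_q_a0 f_q_a1
      f_q_b0 f_q_b1 f_r_d f_r_a0 f_r_a1 f_r_b0 f_r_b1 f_d_a0 f_d_a1 f_d_b0 f_d_b1 f_a0_a1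
      f_a0_b0 f_a0_b1 f_a1_b0 f_a1_b1 f_b0_b1

lemma Arm.c1 (a : Arm G A c p q L hA) : G.Adj c (hA 1) := by
  have := (a.path 0 1 (by omega) a.pos).2.mpr rfl
  rwa [a.h0] at this

lemma Arm.c2 (a : Arm G A c p q L hA) {i : ℕ} (hi : 2 ≤ i) (hi' : i ≤ L) : ¬ G.Adj c (hA i) := by
  intro h
  rw [← a.h0] at h
  have := (a.path 0 i (by omega) hi').2.mp h
  omega

/-- no `d` contains a pair which is separated by both `A` and `B` -/
theorem ii0_holds [Finite V] (hG : NoListed G) (hc : SepConf G A B S Dd W) :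
    II0 G A B S Dd := by
  intro d hd p hp q hq hdp hdq
  by_contra hcon
  push Not at hcon
  obtain ⟨hsA, hsB⟩ := hcon
  obtain ⟨c, hcS, hdc⟩ := hc.Dpr d hd
  have hpq : G.Adj p q := hc.clq p hp q hq (fun h => hsA (h ▸ Tw.refl _ _ _))
  have hcp : G.Adj c p := hc.clq c hcS p hp (fun h => hdc (h ▸ hdp))
  have hcq : G.Adj c q := hc.clq c hcS q hq (fun h => hdc (h ▸ hdq))
  have nA : ∀ x ∈ S, x ∉ A := fun x hx hxA => Set.disjoint_left.mp hc.dAS hxA hx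
  have nB : ∀ x ∈ S, x ∉ B := fun x hx hxA => Set.disjoint_left.mp hc.dBS hxA hx
  obtain ⟨L, hA, a0, aA, ha0, e1, e2, e3, e4, e5⟩ := exists_arm hG.ch hc.cA (nA c hcS) (nA p hp)
    (nA q hq) hcp hcq hpq (hc.fA c hcS) (hc.fA p hp) (hc.fA q hq) hsA
  obtain ⟨M, hB, b0, aB, hb0, g1, g2, g3, g4, g5⟩ := exists_arm hG.ch hc.cB (nB c hcS) (nB p hp)
    (nB q hq) hcp hcq hpq (hc.fB c hcS) (hc.fB p hp) (hc.fB q hq) hsB
  have hL := aA.pos
  have hM := aB.pos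
  have hcd : NA G c d := ⟨(hc.neDS hd hcS).symm, fun h => hdc h.symm⟩
  rcases Nat.lt_or_ge 4 (L + M) with h5 | h5
  · by_cases par : (G.Adj p (hA L) ↔ G.Adj p (hB M)) ↔ Odd (L + M)
    · exact fan_of_arms hG hc hp hq hpq aA aB h5 par
    · exact fanY_of_arms hG hc hp hq hpq aA aB (by omega) hcS hd hdp hdq hdc (iffNot_of_not par)
  rcases Nat.lt_or_ge 3 (L + M) with h4 | h4
  · have hsum : L + M = 4 := by omega
    have hno : ¬ Odd (L + M) := by rw [hsum]; decide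
    by_cases par : G.Adj p (hA L) ↔ G.Adj p (hB M)
    · exact fanY_of_arms hG hc hp hq hpq aA aB (by omega) hcS hd hdp hdq hdc
        ⟨fun _ => hno, fun _ => par⟩
    · have hpath := comb_path hc aA aB
      rw [hsum] at hpath
      have lastB : comb L hA hB 4 = hB M := by rw [← hsum]; exact comb_last aB
      have hy : ∀ i, i ≤ 4 → NA G d (comb L hA hB i) := by
        intro i hi
        rcases Nat.lt_or_ge L i with h1 | h1
        · rw [comb_gt h1]; exact hc.naDB hd (aB.mem _ (by omega) (by omega))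
        · rw [comb_le h1]
          rcases Nat.eq_zero_or_pos (L - i) with h2 | h2
          · rw [h2, aA.h0]; exact ⟨hc.neDS hd hcS, hdc⟩
          · exact hc.naDA hd (aA.mem _ h2 (by omega))
      have sA := aA.sep
      have sB := aB.sep
      have neA : ∀ x ∈ S, x ≠ hA L := fun x hx => (hc.neAS (aA.mem L hL le_rfl) hx).symm
      have neB : ∀ x ∈ S, x ≠ hB M := fun x hx => (hc.neBS (aB.mem M hM le_rfl) hx).symm
      by_cases hpA : G.Adj p (hA L)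
      · refine path4_false hG (x := comb L hA hB) (p := p) (q := q) (y := d) hpath hpq ?_ ?_
          (fun i hi hi' => comb_fp aA aB hi (by omega))
          (fun i hi hi' => comb_fp aA.swap aB.swap hi (by omega)) ?_ ?_ hdp.symm hdq.symm hy
        · rw [comb_zero]; exact hpA
        · rw [comb_zero]; exact ⟨neA q hq, sA.mp hpA⟩
        · rw [lastB]; exact ⟨neB p hp, fun h => par ⟨fun _ => h, fun _ => hpA⟩⟩
        · rw [lastB]; exact by_contra fun h => par ⟨fun _ => sB.mpr h, fun _ => hpA⟩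
      · have hpB : G.Adj p (hB M) :=
          by_contra fun h => par ⟨fun h' => absurd h' hpA, fun h' => absurd h' h⟩
        refine path4_false hG (x := comb L hA hB) (p := q) (q := p) (y := d) hpath hpq.symm ?_ ?_
          (fun i hi hi' => comb_fp aA.swap aB.swap hi (by omega))
          (fun i hi hi' => comb_fp aA aB hi (by omega)) ?_ ?_ hdq.symm hdp.symm hy
        · rw [comb_zero]; exact by_contra fun h => hpA (sA.mpr h)
        · rw [comb_zero]; exact ⟨neA p hp, hpA⟩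
        · rw [lastB]; exact ⟨neB q hq, sB.mp hpB⟩
        · rw [lastB]; exact hpB
  rcases Nat.lt_or_ge 2 (L + M) with h3 | h3
  · rcases Nat.lt_or_ge 1 L with h2 | h2
    · -- `L = 2`, `M = 1`
      have hL2 : L = 2 := by omega
      have hM1 : M = 1 := by omega
      subst hL2; subst hM1
      have f1 := (aA.path 1 2 (by omega) le_rfl).2.mpr rfl
      have sA := aA.sep
      have sB := aB.sep
      by_cases hpB : G.Adj p (hB 1)
      · exact case12_aux hG hc.symm hp hq hcS hpq hcp.symm hcq.symm hd hdp.symm hdq.symm hcd hb0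
          (aB.mem 1 le_rfl le_rfl) (aA.mem 1 le_rfl (by omega)) (aA.mem 2 (by omega) le_rfl)
          g1.symm g2.symm g3.symm (g4 rfl) aB.c1 hpB (sB.mp hpB) aA.c1
          (aA.fp 1 (by omega)) (aA.fq 1 (by omega)) f1 (aA.c2 le_rfl le_rfl) sA
      · exact case12_aux hG hc.symm hq hp hcS hpq.symm hcq.symm hcp.symm hd hdq.symm hdp.symm hcd
          hb0 (aB.mem 1 le_rfl le_rfl) (aA.mem 1 le_rfl (by omega)) (aA.mem 2 (by omega) le_rfl)
          g1.symm g3.symm g2.symm (g4 rfl) aB.c1 (by_contra fun h => hpB (sB.mpr h)) hpB aA.c1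
          (aA.fq 1 (by omega)) (aA.fp 1 (by omega)) f1 (aA.c2 le_rfl le_rfl) (iffNot_swap sA)
    · have hL2 : L = 1 := by omega
      have hM1 : M = 2 := by omega
      subst hL2; subst hM1
      have f1 := (aB.path 1 2 (by omega) le_rfl).2.mpr rfl
      have sA := aA.sep
      have sB := aB.sep
      by_cases hpA : G.Adj p (hA 1)
      · exact case12_aux hG hc hp hq hcS hpq hcp.symm hcq.symm hd hdp.symm hdq.symm hcd ha0
          (aA.mem 1 le_rfl le_rfl) (aB.mem 1 le_rfl (by omega)) (aB.mem 2 (by omega) le_rfl)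
          e1.symm e2.symm e3.symm (e4 rfl) aA.c1 hpA (sA.mp hpA) aB.c1
          (aB.fp 1 (by omega)) (aB.fq 1 (by omega)) f1 (aB.c2 le_rfl le_rfl) sB
      · exact case12_aux hG hc hq hp hcS hpq.symm hcq.symm hcp.symm hd hdq.symm hdp.symm hcd
          ha0 (aA.mem 1 le_rfl le_rfl) (aB.mem 1 le_rfl (by omega)) (aB.mem 2 (by omega) le_rfl)
          e1.symm e3.symm e2.symm (e4 rfl) aA.c1 (by_contra fun h => hpA (sA.mpr h)) hpA aB.c1
          (aB.fq 1 (by omega)) (aB.fp 1 (by omega)) f1 (aB.c2 le_rfl le_rfl) (iffNot_swap sB)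
  · have hL2 : L = 1 := by omega
    have hM1 : M = 1 := by omega
    subst hL2; subst hM1
    have sA := aA.sep
    have sB := aB.sep
    by_cases hpA : G.Adj p (hA 1)
    · exact case11_aux hG hc hp hq hpq hcp.symm hcq.symm hd hdp.symm hdq.symm hcd ha0
        (aA.mem 1 le_rfl le_rfl) hb0 (aB.mem 1 le_rfl le_rfl)
        e1.symm e2.symm e3.symm (e4 rfl) aA.c1 hpA (sA.mp hpA) g1.symm g2.symm g3.symm (g4 rfl)
        aB.c1 sB
    · exact case11_aux hG hc hq hp hpq.symm hcq.symm hcp.symm hd hdq.symm hdp.symm hcd ha0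
        (aA.mem 1 le_rfl le_rfl) hb0 (aB.mem 1 le_rfl le_rfl)
        e1.symm e3.symm e2.symm (e4 rfl) aA.c1 (by_contra fun h => hpA (sA.mpr h)) hpA g1.symm
        g3.symm g2.symm (g4 rfl) aB.c1 (iffNot_swap sB)

end Pool.Agent.Lib.MP_50b720_co
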