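import Pool.Agent.Lib.MP_50b720_co.Full.Parity

set_option autoImplicit false

namespace Pool.Agent.Lib.MP_50b720_co

open SimpleGraph

variable {V : Type*} {G : SimpleGraph V} {A B S Dd W : Set V} {c p q : V} {L M : ℕ}
  {hA hB : ℕ → V}

/-- the path formed by two arms -/
def comb (L : ℕ) (hA hB : ℕ → V) : ℕ → V := fun i => if i ≤ L then hA (L - i) else hB (i - L)

lemma comb_le {i : ℕ} (h : i ≤ L) : comb L hA hB i = hA (L - i) := by simp [comb, h]
lemma comb_gt {i : ℕ} (h : L < i) : comb L hA hB i = hB (i - L) := by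
  have : ¬ i ≤ L := by omega
  simp [comb, this]

lemma comb_ge (h0 : hA 0 = hB 0) {i : ℕ} (h : L ≤ i) : comb L hA hB i = hB (i - L) := by
  rcases Nat.lt_or_ge L i with h1 | h1
  · exact comb_gt h1
  · have : i = L := by omega
    rw [comb_le (by omega), this, Nat.sub_self, h0]

lemma comb_path (hc : SepConf G A B S Dd W) (aA : Arm G A c p q L hA)
    (aB : Arm G B c p q M hB) : IndPath G (L + M) (comb L hA hB) := by
  have h0 : hA 0 = hB 0 := by rw [aA.h0, aB.h0]
  intro i j hij hj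
  rcases Nat.lt_or_ge L j with h1 | h1
  · rw [comb_gt h1]
    rcases Nat.lt_or_ge i L with h2 | h2
    · rw [comb_le (by omega)]
      have := hc.naAB (aA.mem (L - i) (by omega) (by omega)) (aB.mem (j - L) (by omega) (by omega))
      exact ⟨this.1, iff_of_false this.2 (by omega)⟩
    · rw [comb_ge h0 h2]
      obtain ⟨h3, h4⟩ := aB.path (i - L) (j - L) (by omega) (by omega)
      exact ⟨h3, by rw [h4]; omega⟩
  · rw [comb_le h1, comb_le (show i ≤ L by omega)]
    obtain ⟨h3, h4⟩ := aA.path (L - j) (L - i) (by omega) (by omega)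
    exact ⟨h3.symm, by rw [G.adj_comm, h4]; omega⟩

lemma comb_fp (aA : Arm G A c p q L hA) (aB : Arm G B c p q M hB) {i : ℕ} (hi : 1 ≤ i)
    (hi' : i < L + M) : G.Adj p (comb L hA hB i) := by
  rcases Nat.lt_or_ge L i with h1 | h1
  · rw [comb_gt h1]; exact aB.fp _ (by omega)
  · rw [comb_le h1]
    exact aA.fp _ (by omega)

lemma comb_zero : comb L hA hB 0 = hA L := by rw [comb_le (by omega), Nat.sub_zero]

lemma comb_last (aB : Arm G B c p q M hB) : comb L hA hB (L + M) = hB M := by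
  have := aB.pos
  rw [comb_gt (by omega), Nat.add_sub_cancel_left]

/-- two arms of total length at least five with the right parity form a fan -/
lemma fan_of_arms_aux (hG : NoListed G) (hc : SepConf G A B S Dd W) (hp : p ∈ S) (hq : q ∈ S)
    (hpq : G.Adj p q) (aA : Arm G A c p q L hA) (aB : Arm G B c p q M hB) (h5 : 5 ≤ L + M)
    (hpA : G.Adj p (hA L)) (par : G.Adj p (hB M) ↔ Odd (L + M)) : False := by
  obtain ⟨k, hk⟩ : ∃ k, L + M = k + 1 := ⟨L + M - 1, by omega⟩
  have hL := aA.pos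
  have hM := aB.pos
  have hpath := comb_path hc aA aB
  rw [hk] at hpath
  have lastB : comb L hA hB (k + 1) = hB M := by rw [← hk]; exact comb_last aB
  have hqA : ¬ G.Adj q (hA L) := by have := aA.sep; tauto
  have hoe : Odd (L + M) ↔ ¬ Odd k := by rw [hk, Nat.odd_add_one]
  refine hG.f1 k (by omega) (Fam.fan_ind (x := comb L hA hB) (p := p) (q := q) hpath hpq ?_ ?_ ?_
    ?_ ?_)
  · intro i hi hi'; exact comb_fp aA aB hi (by omega)
  · intro i hi hi'; exact comb_fp aA.swap aB.swap hi (by omega)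
  · rw [comb_zero]; exact hpA
  · rw [comb_zero]; exact ⟨(hc.neAS (aA.mem L hL le_rfl) hq).symm, hqA⟩
  · intro b
    rw [lastB]
    cases b
    · refine ⟨(hc.neBS (aB.mem M hM le_rfl) hp).symm, ?_⟩
      simp only [Bool.false_eq_true, if_false]
      rw [par, hoe]
      by_cases ho : Odd k <;> simp [ho]
    · refine ⟨(hc.neBS (aB.mem M hM le_rfl) hq).symm, ?_⟩
      simp only [if_true]
      have := aB.sep
      have h2 : G.Adj q (hB M) ↔ Odd k := by tauto
      rw [h2]
      by_cases ho : Odd k <;> simp [ho]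

lemma fan_of_arms (hG : NoListed G) (hc : SepConf G A B S Dd W) (hp : p ∈ S) (hq : q ∈ S)
    (hpq : G.Adj p q) (aA : Arm G A c p q L hA) (aB : Arm G B c p q M hB) (h5 : 5 ≤ L + M)
    (par : (G.Adj p (hA L) ↔ G.Adj p (hB M)) ↔ Odd (L + M)) : False := by
  by_cases hpA : G.Adj p (hA L)
  · exact fan_of_arms_aux hG hc hp hq hpq aA aB h5 hpA (by tauto)
  · have h1 := aA.sep
    have h2 := aB.sep
    exact fan_of_arms_aux hG hc hq hp hpq.symm aA.swap aB.swap h5 (by tauto) (by tauto)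

/-- the same with a vertex `y` adjacent to `p` and `q` only -/
lemma fanY_of_arms_aux (hG : NoListed G) (hc : SepConf G A B S Dd W) (hp : p ∈ S) (hq : q ∈ S)
    (hpq : G.Adj p q) (aA : Arm G A c p q L hA) (aB : Arm G B c p q M hB) (h5 : 4 ≤ L + M)
    (hcS : c ∈ S) {y : V} (hy : y ∈ Dd) (hyp : G.Adj y p) (hyq : G.Adj y q) (hyc : ¬ G.Adj y c)
    (hpA : G.Adj p (hA L)) (par : G.Adj p (hB M) ↔ ¬ Odd (L + M)) : False := by
  obtain ⟨k, hk⟩ : ∃ k, L + M = k + 1 := ⟨L + M - 1, by omega⟩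
  have hL := aA.pos
  have hM := aB.pos
  have hpath := comb_path hc aA aB
  rw [hk] at hpath
  have lastB : comb L hA hB (k + 1) = hB M := by rw [← hk]; exact comb_last aB
  have hqA : ¬ G.Adj q (hA L) := by have := aA.sep; tauto
  have hoe : ¬ Odd (L + M) ↔ ¬ Even k := by
    rw [hk, Nat.odd_add_one, not_not, Nat.not_even_iff_odd]
  refine hG.f2 k (by omega) (Fam.fanY_ind (x := comb L hA hB) (p := p) (q := q) (y := y) hpath
    hpq ?_ ?_ ?_ ?_ ?_ ?_ hyp.symm hyq.symm)
  · intro i hi hi'; exact comb_fp aA aB hi (by omega)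
  · intro i hi hi'; exact comb_fp aA.swap aB.swap hi (by omega)
  · rw [comb_zero]; exact hpA
  · rw [comb_zero]; exact ⟨(hc.neAS (aA.mem L hL le_rfl) hq).symm, hqA⟩
  · intro b
    rw [lastB]
    cases b
    · refine ⟨(hc.neBS (aB.mem M hM le_rfl) hp).symm, ?_⟩
      simp only [Bool.false_eq_true, if_false]
      rw [par, hoe]
      by_cases ho : Even k <;> simp [ho]
    · refine ⟨(hc.neBS (aB.mem M hM le_rfl) hq).symm, ?_⟩
      simp only [if_true]
      have := aB.sep
      have h2 : G.Adj q (hB M) ↔ Even k := by tauto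
      rw [h2]
      by_cases ho : Even k <;> simp [ho]
  · intro i hi
    rcases Nat.lt_or_ge L i with h1 | h1
    · rw [comb_gt h1]; exact hc.naDB hy (aB.mem _ (by omega) (by omega))
    · rw [comb_le h1]
      rcases Nat.eq_zero_or_pos (L - i) with h2 | h2
      · rw [h2, aA.h0]; exact ⟨hc.neDS hy hcS, hyc⟩
      · exact hc.naDA hy (aA.mem _ h2 (by omega))

lemma fanY_of_arms (hG : NoListed G) (hc : SepConf G A B S Dd W) (hp : p ∈ S) (hq : q ∈ S)
    (hpq : G.Adj p q) (aA : Arm G A c p q L hA) (aB : Arm G B c p q M hB) (h5 : 4 ≤ L + M)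
    (hcS : c ∈ S) {y : V} (hy : y ∈ Dd) (hyp : G.Adj y p) (hyq : G.Adj y q) (hyc : ¬ G.Adj y c)
    (par : (G.Adj p (hA L) ↔ G.Adj p (hB M)) ↔ ¬ Odd (L + M)) : False := by
  by_cases hpA : G.Adj p (hA L)
  · exact fanY_of_arms_aux hG hc hp hq hpq aA aB h5 hcS hy hyp hyq hyc hpA (by tauto)
  · have h1 := aA.sep
    have h2 := aB.sep
    exact fanY_of_arms_aux hG hc hq hp hpq.symm aA.swap aB.swap h5 hcS hy hyq hyp hyc
      (by tauto) (by tauto)

end Pool.Agent.Lib.MP_50b720_co
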