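import Pool.Agent.Lib.MP_50b720_co.Full.Half

set_option autoImplicit false

namespace Pool.Agent.Lib.MP_50b720_co

variable {V : Type*}

/-- `s` and `t` have the same neighbours in `A` -/
def Tw (G : SimpleGraph V) (A : Set V) (s t : V) : Prop := ∀ x ∈ A, (G.Adj x s ↔ G.Adj x t)

lemma Tw.refl (G : SimpleGraph V) (A : Set V) (s : V) : Tw G A s s := fun _ _ => Iff.rfl
lemma Tw.symm {G : SimpleGraph V} {A : Set V} {s t : V} (h : Tw G A s t) : Tw G A t s :=
  fun x hx => (h x hx).symm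
lemma Tw.trans {G : SimpleGraph V} {A : Set V} {s t u : V} (h : Tw G A s t) (h' : Tw G A t u) :
    Tw G A s u := fun x hx => (h x hx).trans (h' x hx)

open Classical in
/-- Changing the order inside the twin classes and inserting further vertices into the gaps. -/
theorem HalfRep.reorder [Finite V] {G : SimpleGraph V} {A S Dd : Set V} {l r a σ : V → ℤ}
    (h : HalfRep G A S l r a)
    (hσ : ∀ s ∈ S, ∀ t ∈ S, s ≠ t → σ s ≠ σ t)
    (hag : ∀ s ∈ S, ∀ t ∈ S, ¬ Tw G A s t → (a s < a t ↔ σ s < σ t))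
    (hcont : ∀ s ∈ S, ∀ t ∈ S, ∀ u ∈ S, Tw G A s u → a s < a t → a t < a u → Tw G A s t)
    (hDA : Disjoint A Dd)
    (hDn : ∀ d ∈ Dd, ∀ x ∈ A, ¬ G.Adj d x)
    (hDD : ∀ d ∈ Dd, ∀ e ∈ Dd, ¬ G.Adj d e)
    (hDtw : ∀ d ∈ Dd, ∀ s ∈ S, ∀ t ∈ S, G.Adj d s → G.Adj d t → Tw G A s t)
    (hDne : ∀ d ∈ Dd, ∃ s ∈ S, G.Adj d s)
    (hDconv : ∀ d ∈ Dd, ∀ s ∈ S, ∀ t ∈ S, ∀ u ∈ S, σ s < σ t → σ t < σ u → G.Adj d s →
      G.Adj d u → G.Adj d t)
    (hDlam : ∀ d ∈ Dd, ∀ e ∈ Dd, (∀ s ∈ S, G.Adj d s → G.Adj e s) ∨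
      (∀ s ∈ S, G.Adj e s → G.Adj d s) ∨ (∀ s ∈ S, G.Adj d s → ¬ G.Adj e s))
    (hDne' : ∀ d ∈ Dd, ∀ e ∈ Dd, d ≠ e → ∃ s ∈ S, ¬ (G.Adj d s ↔ G.Adj e s)) :
    ∃ l' r' a' : V → ℤ, HalfRep G (A ∪ Dd) S l' r' a' ∧
      ∀ s ∈ S, ∀ t ∈ S, (a' s < a' t ↔ σ s < σ t) := by
  -- representatives
  let R : Setoid V :=
    { r := fun s t => (s ∈ S ↔ t ∈ S) ∧ Tw G A s t
      iseqv := ⟨fun s => ⟨Iff.rfl, Tw.refl G A s⟩, fun h => ⟨h.1.symm, h.2.symm⟩,
        fun h h' => ⟨h.1.trans h'.1, h.2.trans h'.2⟩⟩ }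
  let ρ : V → V := fun s => (Quotient.mk R s).out
  have hρ : ∀ s, (ρ s ∈ S ↔ s ∈ S) ∧ Tw G A (ρ s) s := fun s => Quotient.mk_out (s := R) s
  have hρS : ∀ s ∈ S, ρ s ∈ S := fun s hs => (hρ s).1.mpr hs
  have hρt : ∀ s ∈ S, ∀ t ∈ S, Tw G A s t → ρ s = ρ t := by
    intro s hs t ht hst
    have : (Quotient.mk R s) = Quotient.mk R t := Quotient.sound (s := R) ⟨by simp [hs, ht], hst⟩
    change (Quotient.mk R s).out = (Quotient.mk R t).out
    rw [this]
  have key : ∀ s ∈ S, ∀ s' ∈ S, ∀ t ∈ S, Tw G A s s' → ¬ Tw G A s t →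
      (a s < a t ↔ a s' < a t) := by
    intro s hs s' hs' t ht h1 h2
    have n1 : s ≠ t := fun h => h2 (h ▸ Tw.refl G A s)
    have n2 : s' ≠ t := fun h => h2 (h ▸ h1)
    have i1 := h.inj s hs t ht n1
    have i2 := h.inj s' hs' t ht n2
    constructor
    · intro h3
      by_contra h4
      exact h2 (hcont s hs t ht s' hs' h1 h3 (by omega))
    · intro h3
      by_contra h4
      exact h2 (h1.trans (hcont s' hs' t ht s hs h1.symm h3 (by omega)))
  have kb : ∀ s ∈ S, ∀ t ∈ S, ¬ Tw G A s t →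
      (a (ρ s) < a (ρ t) ↔ σ s < σ t) ∧ a (ρ s) ≠ a (ρ t) := by
    intro s hs t ht h1
    have e1 := key s hs (ρ s) (hρS s hs) t ht (hρ s).2.symm h1
    have h2 : ¬ Tw G A t (ρ s) := fun h' => h1 (((hρ s).2.symm).trans h'.symm)
    have e2 := key t ht (ρ t) (hρS t ht) (ρ s) (hρS s hs) (hρ t).2.symm h2
    have h3 : ρ s ≠ ρ t := fun h' => h1 (((hρ s).2.symm).trans (h' ▸ (hρ t).2))
    have e3 := h.inj _ (hρS s hs) _ (hρS t ht) h3
    have h4 : ρ s ≠ t := fun h' => h2 (h' ▸ Tw.refl G A (ρ s))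
    have e4 := h.inj _ (hρS s hs) _ ht h4
    have e5 := hag s hs t ht h1
    exact ⟨by omega, e3⟩
  -- constants
  obtain ⟨K1, hK1, hb1⟩ := exists_bound l r
  obtain ⟨K2, hK2, hb2⟩ := exists_bound a σ
  set C : ℤ := (Set.ncard (Set.univ : Set V) : ℤ) with hC
  have hC0 : 0 ≤ C := by positivity
  set sz : V → ℤ := fun d => (Set.ncard {s ∈ S | G.Adj d s} : ℤ) with hsz
  have hsz1 : ∀ d, sz d ≤ C := by
    intro d
    have := Set.ncard_le_ncard (Set.subset_univ {s ∈ S | G.Adj d s}) (Set.toFinite _)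
    simp only [hsz, hC]
    exact_mod_cast this
  have hsz0 : ∀ d, 0 ≤ sz d := by intro d; simp only [hsz]; positivity
  have hsz2 : ∀ d ∈ Dd, ∀ e ∈ Dd, d ≠ e → (∀ s ∈ S, G.Adj d s → G.Adj e s) → sz d < sz e := by
    intro d hd e he hne hsub
    obtain ⟨s, hs, hs'⟩ := hDne' d hd e he hne
    have : Set.ncard {s ∈ S | G.Adj d s} < Set.ncard {s ∈ S | G.Adj e s} := by
      apply Set.ncard_lt_ncard _ (Set.toFinite _)
      refine ⟨fun t ht => ⟨ht.1, hsub t ht.1 ht.2⟩, fun hcon => ?_⟩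
      apply hs'
      exact ⟨fun h' => hsub s hs h', fun h' => (hcon ⟨hs, h'⟩).2⟩
    simp only [hsz]
    exact_mod_cast this
  set L : ℤ := 2 * C + 3 with hL
  set B : ℤ := L * K2 with hB
  set M : ℤ := 2 * B + 4 * C + 5 with hM
  have hL0 : 0 < L := by omega
  have hB0 : 0 < B := by rw [hB]; positivity
  have hM0 : 0 < M := by omega
  have hf : ∀ x y : ℤ, x < y → M * x + M ≤ M * y := by
    intro x y hxy
    have : M * (x + 1) ≤ M * y := mul_le_mul_of_nonneg_left (by omega) hM0.le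
    linarith [mul_add M x 1, mul_one M]
  have hg : ∀ x y : ℤ, x < y → L * x + L ≤ L * y := by
    intro x y hxy
    have : L * (x + 1) ≤ L * y := mul_le_mul_of_nonneg_left (by omega) hL0.le
    linarith [mul_add L x 1, mul_one L]
  have hgb : ∀ s, -B < L * σ s ∧ L * σ s < B := by
    intro s
    obtain ⟨_, _, c1, c2⟩ := hb2 s
    constructor
    · have := mul_lt_mul_of_pos_left c1 hL0
      rw [hB]; linarith [mul_neg L K2]
    · rw [hB]; exact mul_lt_mul_of_pos_left c2 hL0
  set F : V → ℤ := fun s => M * a (ρ s) with hF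
  set g : V → ℤ := fun s => L * σ s with hgdef
  have hFtw : ∀ s ∈ S, ∀ t ∈ S, Tw G A s t → F s = F t := by
    intro s hs t ht hst
    simp only [hF, hρt s hs t ht hst]
  have hFn : ∀ s ∈ S, ∀ t ∈ S, ¬ Tw G A s t →
      (F s + M ≤ F t ∧ σ s < σ t) ∨ (F t + M ≤ F s ∧ σ t < σ s) := by
    intro s hs t ht hst
    obtain ⟨e1, e2⟩ := kb s hs t ht hst
    have e3 := hσ s hs t ht (fun h' => hst (h' ▸ Tw.refl G A s))
    rcases lt_or_gt_of_ne e2 with h1 | h1
    · exact Or.inl ⟨hf _ _ h1, e1.mp h1⟩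
    · exact Or.inr ⟨hf _ _ h1, by omega⟩
  have hgσ : ∀ s t, σ s < σ t → g s + L ≤ g t := fun s t hst => hg _ _ hst
  have hgb' : ∀ s, -B < g s ∧ g s < B := hgb
  -- first and last neighbours
  have hlo : ∀ d, ∃ w, d ∈ Dd → (w ∈ S ∧ G.Adj d w ∧ ∀ s ∈ S, G.Adj d s → σ w ≤ σ s) := by
    intro d
    by_cases hd : d ∈ Dd
    · obtain ⟨s0, hs0, hds0⟩ := hDne d hd
      obtain ⟨w, hw, hw'⟩ := Set.exists_min_image {s ∈ S | G.Adj d s} σ (Set.toFinite _)
        ⟨s0, hs0, hds0⟩
      exact ⟨w, fun _ => ⟨hw.1, hw.2, fun s hs hds => hw' s ⟨hs, hds⟩⟩⟩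
    · exact ⟨d, fun h' => absurd h' hd⟩
  have hhi : ∀ d, ∃ w, d ∈ Dd → (w ∈ S ∧ G.Adj d w ∧ ∀ s ∈ S, G.Adj d s → σ s ≤ σ w) := by
    intro d
    by_cases hd : d ∈ Dd
    · obtain ⟨s0, hs0, hds0⟩ := hDne d hd
      obtain ⟨w, hw, hw'⟩ := Set.exists_max_image {s ∈ S | G.Adj d s} σ (Set.toFinite _)
        ⟨s0, hs0, hds0⟩
      exact ⟨w, fun _ => ⟨hw.1, hw.2, fun s hs hds => hw' s ⟨hs, hds⟩⟩⟩
    · exact ⟨d, fun h' => absurd h' hd⟩
  choose lo hlo using hlo
  choose hi hhi using hhi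
  have hFd : ∀ d ∈ Dd, ∀ s ∈ S, G.Adj d s → F s = F (lo d) ∧ F (hi d) = F (lo d) := by
    intro d hd s hs hds
    obtain ⟨w1, w2, _⟩ := hlo d hd
    obtain ⟨v1, v2, _⟩ := hhi d hd
    exact ⟨hFtw s hs _ w1 (hDtw d hd s hs _ w1 hds w2), hFtw _ v1 _ w1 (hDtw d hd _ v1 _ w1 v2 w2)⟩
  have hgle : ∀ s t, σ s ≤ σ t → g s ≤ g t := by
    intro s t hst
    exact mul_le_mul_of_nonneg_left hst hL0.le
  have hAD : ∀ x ∈ Dd, x ∉ A := fun x hx hxA => Set.disjoint_left.mp hDA hxA hx
  set l' : V → ℤ := fun x => if x ∈ A then M * l x else F (lo x) + g (lo x) - sz x with hl'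
  set r' : V → ℤ := fun x => if x ∈ A then M * r x else F (hi x) + g (hi x) + sz x with hr'
  set a' : V → ℤ := fun s => F s + g s with ha'
  have l'A : ∀ x ∈ A, l' x = M * l x := fun x hx => by simp [hl', hx]
  have r'A : ∀ x ∈ A, r' x = M * r x := fun x hx => by simp [hr', hx]
  have l'D : ∀ x ∈ Dd, l' x = F (lo x) + g (lo x) - sz x := fun x hx => by
    simp [hl', hAD x hx]
  have r'D : ∀ x ∈ Dd, r' x = F (lo x) + g (hi x) + sz x := fun x hx => by
    obtain ⟨s, hs, hds⟩ := hDne x hx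
    simp [hr', hAD x hx, (hFd x hx s hs hds).2]
  have hglohi : ∀ d ∈ Dd, g (lo d) ≤ g (hi d) := by
    intro d hd
    obtain ⟨w1, w2, _⟩ := hlo d hd
    obtain ⟨v1, v2, v3⟩ := hhi d hd
    exact hgle _ _ (v3 _ w1 w2)
  -- position of an interval end of `A` relative to a twin class
  have hAF : ∀ x ∈ A, ∀ s ∈ S, (M * l x + M ≤ F s ∨ F s + M ≤ M * l x) ∧
      (M * r x + M ≤ F s ∨ F s + M ≤ M * r x) ∧
      (G.Adj x s ↔ (M * l x + M ≤ F s ∧ F s + M ≤ M * r x)) := by
    intro x hx s hs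
    obtain ⟨e1, e2, e3⟩ := h.pt x hx (ρ s) (hρS s hs)
    have e4 := (hρ s).2 x hx
    have c1 : M * l x + M ≤ F s ∨ F s + M ≤ M * l x := by
      rcases lt_or_gt_of_ne e1 with h' | h'
      · exact Or.inl (hf _ _ h')
      · exact Or.inr (hf _ _ h')
    have c2 : M * r x + M ≤ F s ∨ F s + M ≤ M * r x := by
      rcases lt_or_gt_of_ne e2 with h' | h'
      · exact Or.inl (hf _ _ h')
      · exact Or.inr (hf _ _ h')
    refine ⟨c1, c2, ?_⟩
    rw [← e4, e3]
    constructor
    · rintro ⟨h1, h2⟩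
      exact ⟨hf _ _ h1, hf _ _ h2⟩
    · rintro ⟨h1, h2⟩
      constructor
      · by_contra h3
        have := hf (a (ρ s)) (l x) (by omega)
        simp only [hF] at h1 this; omega
      · by_contra h3
        have := hf (r x) (a (ρ s)) (by omega)
        simp only [hF] at h2 this; omega
  refine ⟨l', r', a', ⟨?_, ?_, ?_, ?_⟩, ?_⟩
  · rintro x (hx | hx)
    · rw [l'A x hx, r'A x hx]
      have := hf _ _ (h.lt x hx)
      omega
    · rw [l'D x hx, r'D x hx]
      have := hglohi x hx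
      obtain ⟨s, hs, hds⟩ := hDne x hx
      have h1 : 0 < sz x := by
        simp only [hsz]
        have : 0 < Set.ncard {s ∈ S | G.Adj x s} :=
          (Set.ncard_pos (Set.toFinite _)).mpr ⟨s, hs, hds⟩
        exact_mod_cast this
      omega
  · rintro x (hx | hx) s hs
    · obtain ⟨c1, c2, c3⟩ := hAF x hx s hs
      have := hgb' s
      rw [l'A x hx, r'A x hx]
      simp only [ha']
      refine ⟨by omega, by omega, ?_⟩
      rw [c3]; omega
    · rw [l'D x hx, r'D x hx]
      simp only [ha']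
      obtain ⟨w1, w2, w3⟩ := hlo x hx
      obtain ⟨v1, v2, v3⟩ := hhi x hx
      have b1 := hgb' s
      have b2 := hgb' (lo x)
      have b3 := hgb' (hi x)
      have b4 := hsz1 x
      have b5 := hsz0 x
      by_cases hxs : G.Adj x s
      · have h1 := (hFd x hx s hs hxs).1
        have h2 := hgle _ _ (w3 s hs hxs)
        have h3 := hgle _ _ (v3 s hs hxs)
        have h4 : 0 < sz x := by
          simp only [hsz]
          have : 0 < Set.ncard {s ∈ S | G.Adj x s} :=
            (Set.ncard_pos (Set.toFinite _)).mpr ⟨s, hs, hxs⟩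
          exact_mod_cast this
        refine ⟨by omega, by omega, ?_⟩
        simp only [hxs, true_iff]; omega
      · by_cases htw : Tw G A s (lo x)
        · have h1 := hFtw s hs _ w1 htw
          have n1 := hσ s hs _ w1 (fun h' => hxs (h' ▸ w2))
          have n2 := hσ s hs _ v1 (fun h' => hxs (h' ▸ v2))
          have h2 : σ s < σ (lo x) ∨ σ (hi x) < σ s := by
            by_contra hcon
            push Not at hcon
            exact hxs (hDconv x hx _ w1 s hs _ v1 (by omega) (by omega) w2 v2)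
          rcases h2 with h2 | h2
          · have h3 := hgσ _ _ h2
            have h4 := hglohi x hx
            refine ⟨by omega, by omega, ?_⟩
            simp only [hxs, false_iff]; omega
          · have h3 := hgσ _ _ h2
            have h4 := hglohi x hx
            refine ⟨by omega, by omega, ?_⟩
            simp only [hxs, false_iff]; omega
        · have h1 := hFn s hs _ w1 htw
          refine ⟨by omega, by omega, ?_⟩
          simp only [hxs, false_iff]; omega
  · intro s hs t ht hst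
    simp only [ha']
    have b1 := hgb' s
    have b2 := hgb' t
    have n1 := hσ s hs t ht hst
    by_cases htw : Tw G A s t
    · have h1 := hFtw s hs t ht htw
      rcases lt_or_gt_of_ne n1 with h' | h'
      · have := hgσ _ _ h'; omega
      · have := hgσ _ _ h'; omega
    · have h1 := hFn s hs t ht htw
      omega
  · rintro x (hx | hx) y (hy | hy) hxy
    · obtain ⟨e1, e2, e3, e4, e5⟩ := h.ov x hx y hy hxy
      rw [l'A x hx, r'A x hx, l'A y hy, r'A y hy, e5]
      have m1 : ∀ u v : ℤ, u ≠ v → M * u ≠ M * v := by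
        intro u v huv h'
        exact huv (mul_left_cancel₀ hM0.ne' h')
      have m2 : ∀ u v : ℤ, (u < v ↔ M * u < M * v) := fun u v =>
        (mul_lt_mul_iff_right₀ hM0).symm
      refine ⟨m1 _ _ e1, m1 _ _ e2, m1 _ _ e3, m1 _ _ e4, ?_⟩
      rw [m2 (l x) (l y), m2 (l y) (r x), m2 (r x) (r y), m2 (l y) (l x), m2 (l x) (r y),
        m2 (r y) (r x)]
    · obtain ⟨w1, w2, w3⟩ := hlo y hy
      obtain ⟨c1, c2, c3⟩ := hAF x hx _ w1
      have hn : ¬ G.Adj x y := fun h' => hDn y hy x hx h'.symm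
      rw [l'A x hx, r'A x hx, l'D y hy, r'D y hy]
      have b1 := hgb' (lo y)
      have b2 := hgb' (hi y)
      have b3 := hsz1 y
      have b4 := hsz0 y
      refine ⟨by omega, by omega, by omega, by omega, ?_⟩
      simp only [hn, false_iff]; omega
    · obtain ⟨w1, w2, w3⟩ := hlo x hx
      obtain ⟨c1, c2, c3⟩ := hAF y hy _ w1
      have hn : ¬ G.Adj x y := fun h' => hDn x hx y hy h'
      rw [l'A y hy, r'A y hy, l'D x hx, r'D x hx]
      have b1 := hgb' (lo x)
      have b2 := hgb' (hi x)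
      have b3 := hsz1 x
      have b4 := hsz0 x
      refine ⟨by omega, by omega, by omega, by omega, ?_⟩
      simp only [hn, false_iff]; omega
    · -- both in `Dd`
      have hn : ¬ G.Adj x y := hDD x hx y hy
      obtain ⟨w1, w2, w3⟩ := hlo x hx
      obtain ⟨v1, v2, v3⟩ := hhi x hx
      obtain ⟨w1', w2', w3'⟩ := hlo y hy
      obtain ⟨v1', v2', v3'⟩ := hhi y hy
      rw [l'D x hx, r'D x hx, l'D y hy, r'D y hy]
      have b1 := hgb' (lo x)
      have b2 := hgb' (hi x)
      have b3 := hsz1 x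
      have b4 := hsz0 x
      have b1' := hgb' (lo y)
      have b2' := hgb' (hi y)
      have b3' := hsz1 y
      have b4' := hsz0 y
      have o1 := hglohi x hx
      have o2 := hglohi y hy
      by_cases htw : Tw G A (lo x) (lo y)
      · have h1 := hFtw _ w1 _ w1' htw
        rcases hDlam x hx y hy with hl | hl | hl
        · have h2 := hsz2 x hx y hy hxy hl
          have h3 := hgle _ _ (w3' _ w1 (hl _ w1 w2))
          have h4 := hgle _ _ (v3' _ v1 (hl _ v1 v2))
          refine ⟨by omega, by omega, by omega, by omega, ?_⟩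
          simp only [hn, false_iff]; omega
        · have h2 := hsz2 y hy x hx hxy.symm hl
          have h3 := hgle _ _ (w3 _ w1' (hl _ w1' w2'))
          have h4 := hgle _ _ (v3 _ v1' (hl _ v1' v2'))
          refine ⟨by omega, by omega, by omega, by omega, ?_⟩
          simp only [hn, false_iff]; omega
        · have n1 : lo x ≠ lo y := fun h' => hl _ w1 w2 (h' ▸ w2')
          have n2 := hσ _ w1 _ w1' n1
          rcases lt_or_gt_of_ne n2 with h2 | h2
          · have h3 : σ (hi x) < σ (lo y) := by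
              by_contra hcon
              have n3 : lo y ≠ hi x := fun h' => hl _ v1 v2 (h' ▸ w2')
              have n4 := hσ _ w1' _ v1 n3
              exact hl _ w1' (hDconv x hx _ w1 _ w1' _ v1 h2 (by omega) w2 v2) w2'
            have h4 := hgσ _ _ h3
            refine ⟨by omega, by omega, by omega, by omega, ?_⟩
            simp only [hn, false_iff]; omega
          · have h3 : σ (hi y) < σ (lo x) := by
              by_contra hcon
              have n3 : lo x ≠ hi y := fun h' => hl _ w1 w2 (h' ▸ v2')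
              have n4 := hσ _ w1 _ v1' n3
              exact hl _ w1 w2 (hDconv y hy _ w1' _ w1 _ v1' h2 (by omega) w2' v2')
            have h4 := hgσ _ _ h3
            refine ⟨by omega, by omega, by omega, by omega, ?_⟩
            simp only [hn, false_iff]; omega
      · have h1 := hFn _ w1 _ w1' htw
        refine ⟨by omega, by omega, by omega, by omega, ?_⟩
        simp only [hn, false_iff]; omega
  · intro s hs t ht
    simp only [ha']
    by_cases hst : s = t
    · subst hst; simp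
    have b1 := hgb' s
    have b2 := hgb' t
    have n1 := hσ s hs t ht hst
    by_cases htw : Tw G A s t
    · have h1 := hFtw s hs t ht htw
      rcases lt_or_gt_of_ne n1 with h' | h'
      · have := hgσ _ _ h'; omega
      · have := hgσ _ _ h'; omega
    · have h1 := hFn s hs t ht htw
      omega

end Pool.Agent.Lib.MP_50b720_co
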