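import Pool.Agent.Lib.MP_50b720_co.Full.RootPat

set_option autoImplicit false

namespace Pool.Agent.Lib.MP_50b720_co

open SimpleGraph

variable {V : Type*}

open Classical in
/-- Variant of the colouring theorem: both kinds of special members get the same colour. -/
theorem colour_theorem' {D : Set V} {T : V → Set V} {KA KB : V → Prop}
    (mA : ∀ d e, T d ⊆ T e → KA d → KA e) (mB : ∀ d e, T d ⊆ T e → KB d → KB e)
    {c1 c2 : V → Prop} (p1 : ∀ d ∈ D, ∀ e ∈ D, Ov T d e → (c1 d ↔ ¬ c1 e))
    (p2 : ∀ d ∈ D, ∀ e ∈ D, Ov T d e → (c2 d ↔ ¬ c2 e))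
    (k1 : ∀ d ∈ D, KA d → ¬ c1 d) (k2 : ∀ d ∈ D, KB d → ¬ c2 d)
    (nb : ∀ m d, Odd m → ¬ CleanChain D T KA KB m d) :
    ∃ c : V → Prop, (∀ d ∈ D, ∀ e ∈ D, Ov T d e → (c d ↔ ¬ c e)) ∧
      (∀ d ∈ D, KA d → ¬ c d) ∧ (∀ d ∈ D, KB d → ¬ c d) := by
  set R : V → V → Prop := fun a b => a ∈ D ∧ b ∈ D ∧ Ov T a b with hR
  have hRs : ∀ a b, R a b → R b a := fun a b h => ⟨h.2.1, h.1, h.2.2.symm⟩
  set Q : V → Prop := fun d => ∃ f ∈ D, KB f ∧ Relation.ReflTransGen R d f with hQ
  have hQc : ∀ a b, R a b → (Q a ↔ Q b) := by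
    intro a b h
    constructor
    · rintro ⟨f, hf, hf', h'⟩
      exact ⟨f, hf, hf', Relation.ReflTransGen.head (hRs _ _ h) h'⟩
    · rintro ⟨f, hf, hf', h'⟩
      exact ⟨f, hf, hf', Relation.ReflTransGen.head h h'⟩
  refine ⟨fun d => if Q d then c2 d else c1 d, ?_, ?_, ?_⟩
  · intro d hd e he hde
    have h := hQc d e ⟨hd, he, hde⟩
    beta_reduce
    by_cases hq : Q d
    · rw [if_pos hq, if_pos (h.mp hq), p2 d hd e he hde]
    · rw [if_neg hq, if_neg (fun h' => hq (h.mpr h')), p1 d hd e he hde]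
  · intro d hd hA
    beta_reduce
    by_cases hq : Q d
    · rw [if_pos hq]
      intro hc2
      obtain ⟨f, hf, hBf, hdf⟩ := hq
      have hex : ∃ (m : ℕ) (g : ℕ → V), (∀ i ≤ m, g i ∈ D) ∧ (∀ i < m, Ov T (g i) (g (i + 1))) ∧
          KA (g 0) ∧ c2 (g 0) ∧ KB (g m) := by
        obtain ⟨m, g, g0, gm, gs⟩ := exists_path_of_rtg hdf
        refine ⟨m, g, fun i hi => ?_, fun i hi => (gs i hi).2.2, by rw [g0]; exact hA,
          by rw [g0]; exact hc2, by rw [gm]; exact hBf⟩
        rcases Nat.lt_or_ge i m with h | h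
        · exact (gs i h).1
        · have : i = m := by omega
          rw [this, gm]; exact hf
      have hmin := fun (k : ℕ) (hk : k < Nat.find hex) => Nat.find_min hex hk
      obtain ⟨g, gD, gov, gA, gc, gB⟩ := Nat.find_spec hex
      set m := Nat.find hex with hm
      have par2 : ∀ i ≤ m, (c2 (g i) ↔ Even i) := by
        intro i
        induction i with
        | zero => intro _; simp [gc]
        | succ i ih =>
          intro hi
          have h1 := ih (by omega)
          have h2 := p2 _ (gD i (by omega)) _ (gD (i + 1) hi) (gov i (by omega))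
          rw [h1] at h2
          rw [Nat.even_add_one]
          tauto
      have par1 : ∀ i ≤ m, (c1 (g i) ↔ Odd i) := by
        intro i
        induction i with
        | zero => intro _; simp [k1 _ (gD 0 (by omega)) gA]
        | succ i ih =>
          intro hi
          have h1 := ih (by omega)
          have h2 := p1 _ (gD i (by omega)) _ (gD (i + 1) hi) (gov i (by omega))
          rw [h1] at h2
          rw [Nat.odd_add_one]
          tauto
      have hev : Odd m := by
        rw [← Nat.not_even_iff_odd, ← par2 m le_rfl]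
        exact k2 _ (gD m le_rfl) gB
      have hnA : ∀ i, 0 < i → i ≤ m → ¬ KA (g i) := by
        intro i hi him hcon
        have h1 := k1 _ (gD i him) hcon
        have h2 : c2 (g i) := by
          rw [par2 i him, ← Nat.not_odd_iff_even, ← par1 i him]; exact h1
        apply hmin (m - i) (by omega)
        refine ⟨fun k => g (k + i), fun k hk => gD _ (by omega), fun k hk => ?_,
          by simpa using hcon, by simpa using h2, ?_⟩
        · show Ov T (g (k + i)) (g (k + 1 + i))
          rw [show k + 1 + i = k + i + 1 by omega]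
          exact gov _ (by omega)
        · show KB (g (m - i + i))
          rw [show m - i + i = m by omega]; exact gB
      have hnB : ∀ i, i < m → ¬ KB (g i) := by
        intro i hi hcon
        exact hmin i hi ⟨g, fun k hk => gD k (by omega), fun k hk => gov k (by omega), gA, gc,
          hcon⟩
      have hno : ∀ i j, i + 2 ≤ j → j ≤ m → ¬ Ov T (g i) (g j) := by
        intro i j hij hj hcon
        obtain ⟨g', h1, h2, h3, h4⟩ := path_shortcut (R := Ov T) gov (by omega) hj hcon
        apply hmin (m - (j - i) + 1) (by omega)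
        refine ⟨g', fun k hk => ?_, h3, by rw [h1]; exact gA, by rw [h1]; exact gc,
          by rw [h2]; exact gB⟩
        obtain ⟨k', hk', h5⟩ := h4 k hk
        rw [h5]; exact gD k' hk'
      have hclean := clean_chain (P := KA) (Q := KB) gov hno
        (fun i j _ _ hsub h => mA _ _ hsub h) (fun i j _ _ hsub h => mB _ _ hsub h)
        gA hnA gB hnB
      exact nb m g hev ⟨gD, gov, hclean, gA, gB, hnA, hnB⟩
    · rw [if_neg hq]; exact k1 d hd hA
  · intro d hd hB
    beta_reduce
    have hq : Q d := ⟨d, hd, hB, Relation.ReflTransGen.refl⟩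
    rw [if_pos hq]
    exact k2 d hd hB

/-- extraction of the common neighbours from a clean chain -/
lemma CleanChain.zig {G : SimpleGraph V} {A B S Dd : Set V} {m : ℕ} {d : ℕ → V} (hm0 : 1 ≤ m)
    (h : CleanChain Dd (nS G S) (Brk G A S) (Brk G B S) m d) :
    ∃ u, Zig G S Dd m d u ∧ ¬ Tw G A (u 0) (u 1) ∧
      (∀ j, 1 ≤ j → j ≤ m + 1 → Tw G A (u j) (u 1)) ∧ ¬ Tw G B (u m) (u (m + 1)) ∧
      ∀ j ≤ m, Tw G B (u j) (u m) := by
  classical
  have hy : ∀ i, ∃ y, i < m → y ∈ nS G S (d i) ∧ y ∈ nS G S (d (i + 1)) := by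
    intro i
    by_cases hi : i < m
    · obtain ⟨⟨y, hy⟩, _, _⟩ := h.ov i hi
      exact ⟨y, fun _ => hy⟩
    · exact ⟨d 0, fun h => absurd h hi⟩
  choose y hy using hy
  have hx0 : ∃ x ∈ nS G S (d 0), ¬ Tw G A x (y 0) := by
    obtain ⟨s, hs, t, ht, hst⟩ := h.first
    by_cases h1 : Tw G A s (y 0)
    · exact ⟨t, ht, fun h2 => hst (h1.trans h2.symm)⟩
    · exact ⟨s, hs, h1⟩
  have hxm : ∃ x ∈ nS G S (d m), ¬ Tw G B (y (m - 1)) x := by
    obtain ⟨s, hs, t, ht, hst⟩ := h.last
    by_cases h1 : Tw G B (y (m - 1)) s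
    · exact ⟨t, ht, fun h2 => hst (h1.symm.trans h2)⟩
    · exact ⟨s, hs, h1⟩
  obtain ⟨x0, hx0, hx0'⟩ := hx0
  obtain ⟨xm, hxm, hxm'⟩ := hxm
  set u : ℕ → V := fun j => if j = 0 then x0 else if j = m + 1 then xm else y (j - 1) with hu
  have u0 : u 0 = x0 := by simp [hu]
  have um : u (m + 1) = xm := by simp [hu]
  have uj' : ∀ j, 1 ≤ j → j ≤ m → u j = y (j - 1) := by
    intro j hj hj'
    have a1 : j ≠ 0 := by omega
    have a2 : j ≠ m + 1 := by omega
    simp [hu, a1, a2]
  have uj : ∀ j, 1 ≤ j → j ≤ m → u j ∈ nS G S (d (j - 1)) ∧ u j ∈ nS G S (d j) := by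
    intro j hj hj'
    rw [uj' j hj hj']
    have := hy (j - 1) (by omega)
    rwa [show j - 1 + 1 = j by omega] at this
  have unbA : ∀ i, 0 < i → i ≤ m → ∀ a ∈ nS G S (d i), ∀ b ∈ nS G S (d i), Tw G A a b := by
    intro i hi hi' a ha b hb
    by_contra hcon
    exact h.nA i hi hi' ⟨a, ha, b, hb, hcon⟩
  have unbB : ∀ i, i < m → ∀ a ∈ nS G S (d i), ∀ b ∈ nS G S (d i), Tw G B a b := by
    intro i hi a ha b hb
    by_contra hcon
    exact h.nB i hi ⟨a, ha, b, hb, hcon⟩
  -- membership pattern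
  have hmem : ∀ i ≤ m, ∀ j ≤ m + 1, (u j ∈ nS G S (d i) ↔ (j = i ∨ j = i + 1)) := by
    intro i hi j hj
    constructor
    · intro hmm
      by_contra hcon
      push Not at hcon
      rcases Nat.eq_zero_or_pos j with h3 | h3
      · rw [h3, u0] at hmm
        rcases Nat.lt_or_ge i 2 with h4 | h4
        · have h5 : i = 1 := by omega
          rw [h5] at hmm
          exact hx0' (unbA 1 one_pos (by omega) _ hmm _ (hy 0 (by omega)).2)
        · exact h.disj 0 i (by omega) hi _ hx0 hmm
      · rcases Nat.lt_or_ge m j with h4 | h4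
        · have h5 : j = m + 1 := by omega
          rw [h5, um] at hmm
          rcases Nat.lt_or_ge (i + 1) m with h6 | h6
          · exact h.disj i m (by omega) le_rfl _ hmm hxm
          · have h7 : i = m - 1 := by omega
            rw [h7] at hmm
            exact hxm' (unbB (m - 1) (by omega) _ (hy (m - 1) (by omega)).1 _ hmm)
        · have h5 := uj j h3 h4
          rcases Nat.lt_or_ge i j with h6 | h6
          · exact h.disj i j (by omega) h4 _ hmm h5.2
          · exact h.disj (j - 1) i (by omega) hi _ h5.1 hmm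
    · rintro (h3 | h3)
      · subst h3
        rcases Nat.eq_zero_or_pos j with h4 | h4
        · subst h4; rw [u0]; exact hx0
        · exact (uj j h4 hi).2
      · subst h3
        rcases Nat.lt_or_ge i m with h4 | h4
        · have := (uj (i + 1) (by omega) (by omega)).1
          rwa [show i + 1 - 1 = i by omega] at this
        · have h5 : i = m := by omega
          subst h5; rw [um]; exact hxm
  have huS : ∀ j ≤ m + 1, u j ∈ S := by
    intro j hj
    rcases Nat.lt_or_ge m j with h4 | h4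
    · have h5 : j = m + 1 := by omega
      rw [h5, um]; exact hxm.1
    · exact ((hmem j h4 j hj).mpr (Or.inl rfl)).1
  refine ⟨u, ⟨h.mem, huS, ?_⟩, ?_, ?_, ?_, ?_⟩
  · intro i hi j hj
    rw [← hmem i hi j hj]
    exact ⟨fun h => ⟨huS j hj, h⟩, fun h => h.2⟩
  · rw [u0, uj' 1 le_rfl (by omega)]; exact hx0'
  · have key : ∀ k, k ≤ m → Tw G A (u (k + 1)) (u 1) := by
      intro k
      induction k with
      | zero => intro _; exact Tw.refl _ _ _
      | succ k ih =>
        intro hk
        refine Tw.trans ?_ (ih (by omega))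
        exact unbA (k + 1) (by omega) hk _ ((hmem _ hk _ (by omega)).mpr (Or.inr rfl)) _
          ((hmem _ hk _ (by omega)).mpr (Or.inl rfl))
    intro j hj hj'
    have := key (j - 1) (by omega)
    rwa [show j - 1 + 1 = j by omega] at this
  · rw [um, uj' m (by omega) le_rfl]; exact hxm'
  · have key : ∀ k, k ≤ m → Tw G B (u (m - k)) (u m) := by
      intro k
      induction k with
      | zero => intro _; exact Tw.refl _ _ _
      | succ k ih =>
        intro hk
        refine Tw.trans ?_ (ih (by omega))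
        have h1 := (hmem (m - (k + 1)) (by omega) (m - (k + 1)) (by omega)).mpr (Or.inl rfl)
        have h2 := (hmem (m - (k + 1)) (by omega) (m - k) (by omega)).mpr (Or.inr (by omega))
        exact unbB (m - (k + 1)) (by omega) _ h1 _ h2
    intro j hj
    have := key (m - j) (by omega)
    rwa [show m - (m - j) = j by omega] at this

/-! ### uniqueness of the order -/

lemma HalfRep.sideOrd [Finite V] {G : SimpleGraph V} (hG : IsChordal G) {A S : Set V}
    {l r a : V → ℤ} (h : HalfRep G A S l r a) (hA : Cn G A) (hAS : Disjoint A S)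
    (hclq : ∀ s ∈ S, ∀ t ∈ S, s ≠ t → G.Adj s t) (hf : ∀ s ∈ S, ∃ x ∈ A, G.Adj s x) :
    SideOrd S ∅ (nS G S) (Tw G A) a where
  refl := fun s => Tw.refl _ _ s
  symm := fun _ _ h => h.symm
  trans := fun _ _ _ h h' => h.trans h'
  inj := h.inj
  cont := fun s hs t ht u hu h1 h2 h3 => h.twin_cont hG hA (Set.Subset.refl _)
    (fun s hs hsA => Set.disjoint_left.mp hAS hsA hs) hclq hf s hs t ht u hu h1 h2 h3
  conv := fun d hd => absurd hd (Set.notMem_empty d)

lemma endMid_self [Finite V] {G : SimpleGraph V} (hG : IsChordal G) {A S : Set V}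
    {l r α l' r' β : V → ℤ} (h : HalfRep G A S l r α) (h' : HalfRep G A S l' r' β)
    (hA : Cn G A) (hAS : Disjoint A S)
    (hclq : ∀ s ∈ S, ∀ t ∈ S, s ≠ t → G.Adj s t) (hf : ∀ s ∈ S, ∃ x ∈ A, G.Adj s x) :
    EndMid S (Tw G A) (Tw G A) α β := by
  have so' := h'.sideOrd hG hA hAS hclq hf
  intro s hs t ht u hu a1 a2 hend _ _ m1 m2
  have nA : ∀ x ∈ S, x ∉ A := fun x hx hxA => Set.disjoint_left.mp hAS hxA hx
  have a3 : ¬ Tw G A t u := fun h3 => a1 (so'.cont t ht s hs u hu h3 m1 m2).symm
  have nst : s ≠ t := fun h => a1 (h ▸ Tw.refl _ _ _)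
  have nsu : s ≠ u := fun h => a2 (h ▸ Tw.refl _ _ _)
  have ntu : t ≠ u := fun h => a3 (h ▸ Tw.refl _ _ _)
  have hst := hclq s hs t ht nst
  have hsu := hclq s hs u hu nsu
  have htu := hclq t ht u hu ntu
  have ns : ¬ DC G A s t u := fun hd => DC.not_mid h' hs ht hu hd (Or.inl ⟨m1, m2⟩)
  have itu := h.inj t ht u hu ntu
  have key : ∀ t u, t ∈ S → u ∈ S → G.Adj s t → G.Adj s u → G.Adj t u → ¬ Tw G A s t →
      ¬ DC G A s t u → ¬ DC G A t s u → ((α u < α t ∧ α t < α s) ∨ (α s < α t ∧ α t < α u)) →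
      ((β u < β s ∧ β s < β t) ∨ (β t < β s ∧ β s < β u)) → False := by
    intro t u ht hu hst hsu htu htw n1 n2 mα mβ
    obtain ⟨L, g, hL, arm⟩ := arm_long hG hA (nA u hu) (nA s hs) (nA t ht) hsu.symm htu.symm hst
      (hf u hu) (hf s hs) (hf t ht) htw (fun h => n1 h.symm) (fun h => n2 h.symm)
    have p1 := arm_parity' h hu ht hs (by omega) arm.swap
    have p2 := arm_parity' h' hu hs ht (by omega) arm
    have := arm.sep
    tauto
  by_cases ho : α t < α u ∧ α s < α t ∨ α u < α t ∧ α t < α s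
  · -- `t` is the middle for `α`
    have nt : ¬ DC G A t s u := fun hd => DC.not_mid h ht hs hu hd (by omega)
    exact key t u ht hu hst hsu htu a1 ns nt (by omega) (Or.inr ⟨m1, m2⟩)
  · have nu : ¬ DC G A u s t := fun hd => DC.not_mid h hu hs ht hd (by omega)
    exact key u t hu ht hsu hst htu.symm a2 (fun h => ns h.symm) nu (by omega)
      (Or.inl ⟨m1, m2⟩)

end Pool.Agent.Lib.MP_50b720_co
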