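import Pool.Agent.Lib.MP_50b720_co.Full.Root

set_option autoImplicit false

namespace Pool.Agent.Lib.MP_50b720_co

open SimpleGraph

variable {V : Type*}

lemma cross4_self {G : SimpleGraph V} {A S : Set V} : Cross4 S (Tw G A) (Tw G A) := by
  intro s _ t _ u _ v _ h1 _ h3 _ h5 _
  exact h5 (h1.trans h3.symm)

/-- The order of `S` in a half diagram of a connected set with full neighbourhood is unique up to
reversal and the order inside the twin classes. -/
lemma order_unique [Finite V] {G : SimpleGraph V} (hG : IsChordal G) {A S Dd : Set V}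
    {l r α l' r' β : V → ℤ} {c : V → Prop} (h : HalfRep G A S l r α)
    (h' : BlockData G A S Dd l' r' β c) (hA : Cn G A) (hAS : Disjoint A S)
    (hclq : ∀ s ∈ S, ∀ t ∈ S, s ≠ t → G.Adj s t) (hf : ∀ s ∈ S, ∃ x ∈ A, G.Adj s x) :
    ∃ (l' r' β : V → ℤ), BlockData G A S Dd l' r' β c ∧ Agree S (Tw G A) (Tw G A) α β := by
  rcases sign_lemma (h.sideOrd hG hA hAS hclq hf) (h'.rep.sideOrd hG hA hAS hclq hf)
    (endMid_self hG h h'.rep hA hAS hclq hf) (endMid_self hG h'.rep h hA hAS hclq hf)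
    cross4_self with hag | hag
  · exact ⟨_, _, _, h', hag⟩
  · exact ⟨_, _, _, h'.neg, hag⟩

section

variable {G : SimpleGraph V} {K D S W1 E Dv B1 B2 : Set V} {v : V}

lemma RootConf.twE (h : RootConf G K D S W1 E Dv v) {B : Set V} (hB : B ⊆ W1 ∪ E) {s t : V}
    (hs : s ∈ S) (ht : t ∈ S) (hst : ¬ Tw G B s t) :
    ∃ x ∈ B, x ∈ E ∧ ((G.Adj x s ∧ ¬ G.Adj x t) ∨ (¬ G.Adj x s ∧ G.Adj x t)) := by
  by_contra hcon
  apply hst
  intro x hx
  by_contra hne
  apply hcon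
  rcases hB hx with h1 | h1
  · exact absurd ⟨fun _ => (h.SW ht h1).symm, fun _ => (h.SW hs h1).symm⟩ hne
  · exact ⟨x, hx, h1, by tauto⟩

/-- the version of `NoR` for a root -/
lemma root_noR (hG : NoListed G) (h : RootConf G K D S W1 E Dv v)
    (hB1 : B1 ⊆ W1 ∪ E) (hB2 : B2 ⊆ W1 ∪ E) {l r a α β : V → ℤ}
    (hC : HalfRep G (W1 ∪ E) S l r a)
    (a1 : ∀ s ∈ S, ∀ t ∈ S, ¬ Tw G B1 s t → (a s < a t ↔ α s < α t))
    (a2 : ∀ s ∈ S, ∀ t ∈ S, ¬ Tw G B2 s t → (a s < a t ↔ β s < β t))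
    {c : V → Prop} (hc : ∀ d ∈ Dv, ∀ e ∈ Dv, Ov (nS G S) d e → (c d ↔ ¬ c e))
    (kA : ∀ d ∈ Dv, Brk G B1 S d → ¬ c d) (kB : ∀ d ∈ Dv, Brk G B2 S d → ¬ c d) :
    NoR S Dv (nS G S) (Tw G B1) (Tw G B2) α β := by
  intro m d u r hd hu hr hmem hrn nA ltA nB ltB htw
  have l1 : a (u 0) < a r := (a1 _ (hu 0 (by omega)) r hr nA).mpr ltA
  have l2 : a r < a (u (m + 1)) := (a2 r hr _ (hu _ le_rfl) nB).mpr ltB
  have hz : Zig G S Dv m d u := by
    refine ⟨hd, hu, fun i hi j hj => ?_⟩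
    rw [← hmem i hi j hj]
    exact ⟨fun h => ⟨hu j hj, h⟩, fun h => h.2⟩
  have hev : Even m := by
    rcases Nat.eq_zero_or_pos m with hm | hm
    · rw [hm]; exact Even.zero
    · have hov : ∀ i < m, Ov (nS G S) (d i) (d (i + 1)) := by
        intro i hi
        refine ⟨⟨u (i + 1), ?_, ?_⟩, ⟨u i, ?_, ?_⟩, ⟨u (i + 2), ?_, ?_⟩⟩
        · exact (hmem i (by omega) (i + 1) (by omega)).mpr (Or.inr rfl)
        · exact (hmem (i + 1) (by omega) (i + 1) (by omega)).mpr (Or.inl rfl)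
        · exact (hmem i (by omega) i (by omega)).mpr (Or.inl rfl)
        · rw [hmem (i + 1) (by omega) i (by omega)]; omega
        · exact (hmem (i + 1) (by omega) (i + 2) (by omega)).mpr (Or.inr rfl)
        · rw [hmem i (by omega) (i + 2) (by omega)]; omega
      have m0 := (hmem 0 (by omega) 0 (by omega)).mpr (Or.inl rfl)
      have m1 := (hmem 0 (by omega) 1 (by omega)).mpr (Or.inr rfl)
      have mm := (hmem m le_rfl m (by omega)).mpr (Or.inl rfl)
      have mm1 := (hmem m le_rfl (m + 1) (by omega)).mpr (Or.inr rfl)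
      have nA1 : ¬ Tw G B1 (u 0) (u 1) := fun h => nA (h.trans (htw 1 le_rfl hm).1)
      have nB1 : ¬ Tw G B2 (u m) (u (m + 1)) := fun h => nB ((htw m hm le_rfl).2.symm.trans h)
      have c0 : ¬ c (d 0) := kA _ (hd 0 (by omega)) ⟨_, m0, _, m1, nA1⟩
      have cm : ¬ c (d m) := kB _ (hd m le_rfl) ⟨_, mm, _, mm1, nB1⟩
      have par : ∀ i ≤ m, (c (d i) ↔ Odd i) := by
        intro i
        induction i with
        | zero => intro _; simp [c0]
        | succ i ih =>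
          intro hi
          have h1 := ih (by omega)
          have h2 := hc _ (hd i (by omega)) _ (hd (i + 1) hi) (hov i (by omega))
          rw [h1] at h2
          rw [Nat.odd_add_one]
          tauto
      rw [← Nat.not_odd_iff_even, ← par m le_rfl]
      exact cm
  have hne : ∀ a b, a < b → b ≤ m + 1 → u a ≠ u b := by
    intro i j hij hj
    rcases Nat.eq_zero_or_pos m with hm | hm
    · subst hm
      have : i = 0 := by omega
      have : j = 1 := by omega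
      subst i; subst j
      intro h'
      rw [← h'] at l2
      omega
    · exact hz.une hm hij hj
  have hru : ∀ j ≤ m + 1, r ≠ u j := by
    intro j hj heq
    rcases Nat.lt_or_ge m j with h1 | h1
    · exact hrn m le_rfl (heq ▸ (hmem m le_rfl j hj).mpr (Or.inr (by omega)))
    · exact hrn j h1 (heq ▸ (hmem j h1 j hj).mpr (Or.inl rfl))
  have hrd : ∀ i ≤ m, ¬ G.Adj (d i) r := fun i hi h' => hrn i hi ⟨hr, h'⟩
  obtain ⟨x, hxB, hxE, hx⟩ := h.twE hB1 (hu 0 (by omega)) hr nA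
  obtain ⟨x', hxB', hxE', hx'⟩ := h.twE hB2 hr (hu _ le_rfl) nB
  have memE : ∀ x ∈ E, x ∈ W1 ∪ E := fun x hx => Or.inr hx
  have u0 := hu 0 (by omega)
  have um := hu (m + 1) le_rfl
  refine root_rc hG h hz hev hne hxE hxE' hr hru hrd ?_ ?_
  · obtain ⟨w, hw, hxw⟩ := h.EW x hxE
    rcases hx with ⟨g1, g2⟩ | ⟨g1, g2⟩
    · left
      have g3 : ¬ G.Adj x (u (m + 1)) := fun h' => g2 (hC.conv (memE x hxE) u0 hr um l1 l2 g1 h')
      refine ⟨fun j hj => ?_, g2⟩
      rcases Nat.eq_zero_or_pos j with h1 | h1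
      · subst h1; exact iff_of_true g1 rfl
      · rcases Nat.lt_or_ge m j with h2 | h2
        · have : j = m + 1 := by omega
          subst this; exact iff_of_false g3 (by omega)
        · refine iff_of_false (fun h' => g2 ?_) (by omega)
          exact ((htw j h1 h2).1 x hxB).mp h'
    · right
      have g3 : G.Adj x (u (m + 1)) := by
        have := hC.pref (c := w) (Or.inl hw) (memE x hxE) u0 hr um l1 l2 hxw.symm
          (h.SW u0 hw).symm (h.SW um hw).symm g2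
        exact this.resolve_left g1
      refine ⟨fun j hj => ?_, g2⟩
      rcases Nat.eq_zero_or_pos j with h1 | h1
      · subst h1; exact iff_of_false g1 (by simp)
      · rcases Nat.lt_or_ge m j with h2 | h2
        · have : j = m + 1 := by omega
          subst this; exact iff_of_true g3 (by omega)
        · exact iff_of_true (((htw j h1 h2).1 x hxB).mpr g2) (by omega)
  · obtain ⟨w, hw, hxw⟩ := h.EW x' hxE'
    rcases hx' with ⟨g1, g2⟩ | ⟨g1, g2⟩
    · right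
      have g3 : G.Adj x' (u 0) := by
        have := hC.pref (c := w) (Or.inl hw) (memE x' hxE') u0 hr um l1 l2 hxw.symm
          (h.SW u0 hw).symm (h.SW um hw).symm g1
        exact this.resolve_right g2
      refine ⟨fun j hj => ?_, g1⟩
      rcases Nat.eq_zero_or_pos j with h1 | h1
      · subst h1; exact iff_of_true g3 (by omega)
      · rcases Nat.lt_or_ge m j with h2 | h2
        · have : j = m + 1 := by omega
          subst this; exact iff_of_false g2 (by omega)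
        · exact iff_of_true (((htw j h1 h2).2 x' hxB').mpr g1) (by omega)
    · left
      have g3 : ¬ G.Adj x' (u 0) := fun h' => g1 (hC.conv (memE x' hxE') u0 hr um l1 l2 h' g2)
      refine ⟨fun j hj => ?_, g1⟩
      rcases Nat.eq_zero_or_pos j with h1 | h1
      · subst h1; exact iff_of_false g3 (by omega)
      · rcases Nat.lt_or_ge m j with h2 | h2
        · have : j = m + 1 := by omega
          subst this; exact iff_of_true g2 rfl
        · refine iff_of_false (fun h' => g1 ?_) (by omega)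
          exact ((htw j h1 h2).2 x' hxB').mp h'

/-- the version of `BC` for a root -/
lemma root_noClean (hG : NoListed G) (h : RootConf G K D S W1 E Dv v)
    (hB1 : B1 ⊆ W1 ∪ E) (hB2 : B2 ⊆ W1 ∪ E) (m : ℕ) (d : ℕ → V) (hm : Odd m)
    (hcl : CleanChain Dv (nS G S) (Brk G B1 S) (Brk G B2 S) m d) : False := by
  have hm1 : 1 ≤ m := by obtain ⟨k, hk⟩ := hm; omega
  obtain ⟨u, hz, n1, t1, n2, t2⟩ := hcl.zig hm1
  obtain ⟨x, hxB, hxE, hx⟩ := h.twE hB1 (hz.um 0 (by omega)) (hz.um 1 (by omega)) n1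
  obtain ⟨x', hxB', hxE', hx'⟩ := h.twE hB2 (hz.um m (by omega)) (hz.um _ le_rfl) n2
  refine root_bc hG h hz hm hxE hxE' ?_ ?_
  · rcases hx with ⟨g1, g2⟩ | ⟨g1, g2⟩
    · left
      intro j hj
      rcases Nat.eq_zero_or_pos j with h1 | h1
      · subst h1; exact iff_of_true g1 rfl
      · exact iff_of_false (fun h' => g2 ((t1 j h1 hj x hxB).mp h')) (by omega)
    · right
      intro j hj
      rcases Nat.eq_zero_or_pos j with h1 | h1
      · subst h1; exact iff_of_false g1 (by simp)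
      · exact iff_of_true ((t1 j h1 hj x hxB).mpr g2) (by omega)
  · rcases hx' with ⟨g1, g2⟩ | ⟨g1, g2⟩
    · right
      intro j hj
      rcases Nat.lt_or_ge m j with h2 | h2
      · have : j = m + 1 := by omega
        subst this; exact iff_of_false g2 (by simp)
      · exact iff_of_true ((t2 j h2 x' hxB').mpr g1) (by omega)
    · left
      intro j hj
      rcases Nat.lt_or_ge m j with h2 | h2
      · have : j = m + 1 := by omega
        subst this; exact iff_of_true g2 rfl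
      · exact iff_of_false (fun h' => g1 ((t2 j h2 x' hxB').mp h')) (by omega)

/-- The chord diagram when only one side of `v` contains a nontrivial part `C`. -/
theorem one_sided [Finite V] {G : SimpleGraph V} {C S Dv : Set V} {v : V} {l r a σ : V → ℤ}
    {c : V → Prop} (rC : HalfRep G C S l r a)
    (s1 : ∀ s ∈ S, ∀ t ∈ S, s ≠ t → σ s ≠ σ t)
    (hag : ∀ s ∈ S, ∀ t ∈ S, ¬ Tw G C s t → (a s < a t ↔ σ s < σ t))
    (hcont : ∀ s ∈ S, ∀ t ∈ S, ∀ u ∈ S, Tw G C s u → a s < a t → a t < a u → Tw G C s t)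
    (CS : ∀ x ∈ C, x ∉ S) (DS : ∀ x ∈ Dv, x ∉ S) (CD : ∀ x ∈ C, x ∉ Dv) (vC : v ∉ C)
    (vDv : v ∉ Dv) (vSn : v ∉ S) (Cv : ∀ x ∈ C, ¬ G.Adj x v) (Dvv : ∀ x ∈ Dv, ¬ G.Adj x v)
    (CDn : ∀ d ∈ Dv, ∀ x ∈ C, ¬ G.Adj x d) (DDn : ∀ d ∈ Dv, ∀ e ∈ Dv, ¬ G.Adj d e)
    (hclq : ∀ s ∈ S, ∀ t ∈ S, s ≠ t → G.Adj s t) (hvS : ∀ s ∈ S, G.Adj v s)
    (Dne : ∀ d ∈ Dv, ∃ s ∈ S, G.Adj d s)
    (Ddist : ∀ d ∈ Dv, ∀ e ∈ Dv, d ≠ e → ∃ s ∈ S, ¬ (G.Adj d s ↔ G.Adj e s))
    (s4' : ∀ d ∈ Dv, ∀ s ∈ S, ∀ t ∈ S, ∀ u ∈ S, σ s < σ t → σ t < σ u → G.Adj d s →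
      G.Adj d u → G.Adj d t)
    (hc : ∀ d ∈ Dv, ∀ e ∈ Dv, Ov (nS G S) d e → (c d ↔ ¬ c e))
    (hu : ∀ d ∈ Dv, c d → ∀ s ∈ S, ∀ t ∈ S, G.Adj d s → G.Adj d t → Tw G C s t) :
    Circ G (C ∪ Dv ∪ S ∪ {v}) := by
  classical
  have disj : ∀ {X Y : Set V}, (∀ x ∈ X, x ∉ Y) → Disjoint X Y := fun h =>
    Set.disjoint_left.mpr h
  have lam : ∀ d ∈ Dv, ∀ e ∈ Dv, (c d ↔ c e) → (∀ s ∈ S, G.Adj d s → G.Adj e s) ∨
      (∀ s ∈ S, G.Adj e s → G.Adj d s) ∨ (∀ s ∈ S, G.Adj d s → ¬ G.Adj e s) := by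
    intro d hd e he hce
    by_cases hov : Ov (nS G S) d e
    · have := hc d hd e he hov; tauto
    · by_cases hx : ∃ s ∈ S, G.Adj d s ∧ G.Adj e s
      · obtain ⟨s, hs, hds, hes⟩ := hx
        rcases sub_or_sub hov (x := s) ⟨hs, hds⟩ ⟨hs, hes⟩ with h3 | h3
        · exact Or.inl fun s hs h4 => (h3 ⟨hs, h4⟩).2
        · exact Or.inr (Or.inl fun s hs h4 => (h3 ⟨hs, h4⟩).2)
      · push Not at hx
        exact Or.inr (Or.inr hx)
  set D1 : Set V := {d ∈ Dv | c d} with hD1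
  set D2 : Set V := {d ∈ Dv | ¬ c d} with hD2
  obtain ⟨l1', r1', a1', g1, g1'⟩ := HalfRep.reorder (Dd := D1) (σ := σ) rC s1 hag hcont
    (disj fun x hx hx' => CD x hx hx'.1)
    (fun d hd x hx h' => CDn d hd.1 x hx h'.symm) (fun d hd e he => DDn d hd.1 e he.1)
    (fun d hd => hu d hd.1 hd.2)
    (fun d hd => Dne d hd.1) (fun d hd => s4' d hd.1)
    (fun d hd e he => lam d hd.1 e he.1 (by simp [hd.2, he.2]))
    (fun d hd e he hne => Ddist d hd.1 e he.1 hne)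
  have hempty : HalfRep G (∅ : Set V) S (fun _ => 0) (fun _ => 0) σ :=
    ⟨fun x hx => absurd hx (Set.notMem_empty x), fun x hx => absurd hx (Set.notMem_empty x), s1,
      fun x hx => absurd hx (Set.notMem_empty x)⟩
  have htriv : ∀ s t, Tw G (∅ : Set V) s t := fun s t x hx => absurd hx (Set.notMem_empty x)
  obtain ⟨l2', r2', a2', g2, g2'⟩ := HalfRep.reorder (Dd := D2) (σ := σ) hempty s1
    (fun s hs t ht hst => Iff.rfl) (fun s hs t ht u hu _ _ _ => htriv s t)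
    (disj fun x hx => absurd hx (Set.notMem_empty x))
    (fun d hd x hx => absurd hx (Set.notMem_empty x)) (fun d hd e he => DDn d hd.1 e he.1)
    (fun d hd s hs t ht h3 h4 => htriv s t)
    (fun d hd => Dne d hd.1) (fun d hd => s4' d hd.1)
    (fun d hd e he => lam d hd.1 e he.1 (by simp [hd.2, he.2]))
    (fun d hd e he hne => Ddist d hd.1 e he.1 hne)
  have hres := Circ.glue (W := {v}) g1 g2
    (fun s hs t ht => (g1' s hs t ht).trans (g2' s hs t ht).symm)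
    ?_ ?_ ?_ ?_ ?_ ?_ ?_ ?_ ?_ ?_ hclq ?_
  · refine hres.mono ?_
    intro x hx
    rcases hx with ((hx | hx) | hx) | hx
    · exact Or.inl (Or.inl (Or.inl (Or.inl hx)))
    · by_cases hcx : c x
      · exact Or.inl (Or.inl (Or.inl (Or.inr ⟨hx, hcx⟩)))
      · exact Or.inl (Or.inl (Or.inr (Or.inr ⟨hx, hcx⟩)))
    · exact Or.inl (Or.inr hx)
    · exact Or.inr hx
  · refine disj ?_
    rintro x (hx | hx)
    · exact CS x hx
    · exact DS x hx.1
  · refine disj ?_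
    rintro x (hx | hx)
    · exact absurd hx (Set.notMem_empty x)
    · exact DS x hx.1
  · refine disj ?_
    rintro x (hx | hx) (hx' | hx')
    · exact absurd hx' (Set.notMem_empty x)
    · exact CD x hx hx'.1
    · exact absurd hx' (Set.notMem_empty x)
    · exact hx'.2 hx.2
  · refine disj ?_
    rintro x hx (hx' | hx') <;> rw [Set.mem_singleton_iff] at hx <;> subst hx
    · exact vC hx'
    · exact vDv hx'.1
  · refine disj ?_
    rintro x hx (hx' | hx') <;> rw [Set.mem_singleton_iff] at hx <;> subst hx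
    · exact absurd hx' (Set.notMem_empty x)
    · exact vDv hx'.1
  · refine disj ?_
    intro x hx
    rw [Set.mem_singleton_iff] at hx
    subst hx
    exact vSn
  · intro w hw w' hw'
    rw [Set.mem_singleton_iff] at hw hw'
    rw [hw, hw']
  · intro w hw s hs
    rw [Set.mem_singleton_iff] at hw
    rw [hw]; exact hvS s hs
  · rintro w hw x (hx | hx) <;> rw [Set.mem_singleton_iff] at hw <;> subst hw
    · exact fun h' => Cv x hx h'.symm
    · exact fun h' => Dvv x hx.1 h'.symm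
  · rintro w hw x (hx | hx) <;> rw [Set.mem_singleton_iff] at hw <;> subst hw
    · exact absurd hx (Set.notMem_empty x)
    · exact fun h' => Dvv x hx.1 h'.symm
  · rintro x (hx | hx) y (hy | hy)
    · exact absurd hy (Set.notMem_empty y)
    · exact CDn y hy.1 x hx
    · exact absurd hy (Set.notMem_empty y)
    · exact DDn x hx.1 y hy.1

/-- a clique with attached vertices is connected -/
lemma cn_star {G : SimpleGraph V} {W0 E0 : Set V} (hne : W0.Nonempty)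
    (hclq : ∀ x ∈ W0, ∀ y ∈ W0, x ≠ y → G.Adj x y) (hE : ∀ y ∈ E0, ∃ w ∈ W0, G.Adj y w) :
    Cn G (W0 ∪ E0) := by
  obtain ⟨w1, hw1⟩ := hne
  refine ⟨⟨w1, Or.inl hw1⟩, fun T hT hne hT' => ?_⟩
  by_contra hcon
  push Not at hcon
  have key : ∀ w ∈ W0, w ∈ T → T = W0 ∪ E0 := by
    intro w hw hwT
    have hWT : ∀ w' ∈ W0, w' ∈ T := by
      intro w' hw'
      by_contra hno
      exact hcon w hwT w' ⟨Or.inl hw', hno⟩ (hclq w hw w' hw' (fun h' => hno (h' ▸ hwT)))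
    apply Set.Subset.antisymm hT
    rintro y (hy | hy)
    · exact hWT y hy
    · by_contra hno
      obtain ⟨w', hw', hyw⟩ := hE y hy
      exact hcon w' (hWT w' hw') y ⟨Or.inr hy, hno⟩ hyw.symm
  obtain ⟨t, ht⟩ := hne
  rcases hT ht with h1 | h1
  · exact hT' (key t h1 ht)
  · obtain ⟨w', hw', htw⟩ := hE t h1
    by_cases h2 : w' ∈ T
    · exact hT' (key w' hw' h2)
    · exact hcon t ht w' ⟨Or.inl hw', h2⟩ htw

/-- **Roots with two groups.** -/
theorem root_false [Finite V] (hG : NoListed G) {U : Set V} (hm : MinNC G U)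
    (h : RootConf G K D S W1 E Dv v) (hU : U = W1 ∪ E ∪ Dv ∪ S ∪ {v})
    (hDv : Dv.Nonempty) (Dne : ∀ d ∈ Dv, ∃ s ∈ S, G.Adj d s)
    (Ddist : ∀ d ∈ Dv, ∀ e ∈ Dv, d ≠ e → ∃ s ∈ S, ¬ (G.Adj d s ↔ G.Adj e s))
    (hSW : ∀ s ∈ S, s ∉ W1)
    (hB1 : B1 ⊆ W1 ∪ E) (hB2 : B2 ⊆ W1 ∪ E) (hB : W1 ∪ E ⊆ B1 ∪ B2)
    (c1 : Cn G B1) (c2 : Cn G B2) (p1 : ∃ x ∈ W1 ∪ E, x ∉ B1) (p2 : ∃ x ∈ W1 ∪ E, x ∉ B2)
    (w1 : ∃ w ∈ W1, w ∈ B1) (w2 : ∃ w ∈ W1, w ∈ B2) : False := by
  classical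
  obtain ⟨w1, hw1, hw1B⟩ := w1
  obtain ⟨w2, hw2, hw2B⟩ := w2
  set C : Set V := W1 ∪ E with hCdef
  have hclq : ∀ s ∈ S, ∀ t ∈ S, s ≠ t → G.Adj s t := fun s hs t ht =>
    h.spl.clq s (h.SK hs) t (h.SK ht)
  have CS : ∀ x ∈ C, x ∉ S := by
    rintro x (hx | hx) hxS
    · exact hSW x hxS hx
    · exact h.spl.dis x (h.ED hx) (h.SK hxS)
  have DS : ∀ x ∈ Dv, x ∉ S := fun x hx hxS => h.spl.dis x (h.DD hx) (h.SK hxS)
  have CD : ∀ x ∈ C, x ∉ Dv := by
    rintro x (hx | hx) hxD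
    · exact h.spl.dis x (h.DD hxD) (h.WK hx)
    · exact (h.naDE hxD hx).1 rfl
  have vC : v ∉ C := by
    rintro (hx | hx)
    · exact h.spl.dis v h.vD (h.WK hx)
    · exact (h.naEv hx).1 rfl
  have vDv : v ∉ Dv := fun hx => (h.naDv hx).1 rfl
  have vSn : v ∉ S := fun hx => h.spl.dis v h.vD (h.SK hx)
  have Cv : ∀ x ∈ C, ¬ G.Adj x v := by
    rintro x (hx | hx) hxv
    · exact h.vW x hx hxv.symm
    · exact (h.naEv hx).2 hxv
  have Dvv : ∀ x ∈ Dv, ¬ G.Adj x v := fun x hx => (h.naDv hx).2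
  have CDn : ∀ d ∈ Dv, ∀ x ∈ C, ¬ G.Adj x d := by
    rintro d hd x (hx | hx) hxd
    · exact h.DW d hd x hx hxd.symm
    · exact (h.naDE hd hx).2 hxd.symm
  have DDn : ∀ d ∈ Dv, ∀ e ∈ Dv, ¬ G.Adj d e := fun d hd e he =>
    h.spl.ind d (h.DD hd) e (h.DD he)
  have full : ∀ B : Set V, ∀ w ∈ W1, w ∈ B → ∀ s ∈ S, ∃ x ∈ B, G.Adj s x :=
    fun B w hw hwB s hs => ⟨w, hwB, h.SW hs hw⟩
  have disj : ∀ {X Y : Set V}, (∀ x ∈ X, x ∉ Y) → Disjoint X Y := fun h =>
    Set.disjoint_left.mpr h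
  -- circle diagrams of the groups
  have circ : ∀ B : Set V, B ⊆ C → (∃ x ∈ C, x ∉ B) → Circ G (B ∪ Dv ∪ S ∪ {v}) := by
    rintro B hBC ⟨x, hx, hxB⟩
    apply hm.ih
    rw [hU]
    refine ⟨?_, fun hsub => ?_⟩
    · rintro y (((hy | hy) | hy) | hy)
      · exact Or.inl (Or.inl (Or.inl (hBC hy)))
      · exact Or.inl (Or.inl (Or.inr hy))
      · exact Or.inl (Or.inr hy)
      · exact Or.inr hy
    · rcases hsub (Or.inl (Or.inl (Or.inl hx))) with ((h' | h') | h') | h'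
      · exact hxB h'
      · exact CD x hx h'
      · exact CS x hx h'
      · rw [Set.mem_singleton_iff] at h'; exact vC (h' ▸ hx)
  have cC : Cn G C := cn_star ⟨w1, hw1⟩ (fun x hx y hy => h.spl.clq x (h.WK hx) y (h.WK hy)) h.EW
  obtain ⟨l1, r1, α1, k1, bA0⟩ := exists_blockData (A := B1) (Dd := Dv) (S := S) (z := v)
    (circ B1 hB1 p1) c1 (fun h' => vC (hB1 h')) vDv vSn (disj fun x hx => CS x (hB1 hx))
    (disj DS) (disj fun x hx => CD x (hB1 hx)) hclq (fun s hs => (h.vS s hs).symm)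
    (fun x hx => Cv x (hB1 hx)) Dvv (full B1 w1 hw1 hw1B)
    (fun d hd x hx => CDn d hd x (hB1 hx)) DDn h.Dpr
  obtain ⟨l2, r2, α2, k2, bB0⟩ := exists_blockData (A := B2) (Dd := Dv) (S := S) (z := v)
    (circ B2 hB2 p2) c2 (fun h' => vC (hB2 h')) vDv vSn (disj fun x hx => CS x (hB2 hx))
    (disj DS) (disj fun x hx => CD x (hB2 hx)) hclq (fun s hs => (h.vS s hs).symm)
    (fun x hx => Cv x (hB2 hx)) Dvv (full B2 w2 hw2 hw2B)
    (fun d hd x hx => CDn d hd x (hB2 hx)) DDn h.Dpr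
  obtain ⟨l, r, a, k0, bC⟩ := exists_blockData (A := C) (Dd := ∅) (S := S) (z := v)
    (by
      apply hm.ih
      rw [hU]
      refine ⟨?_, fun hsub => ?_⟩
      · rintro y (((hy | hy) | hy) | hy)
        · exact Or.inl (Or.inl (Or.inl hy))
        · exact absurd hy (Set.notMem_empty y)
        · exact Or.inl (Or.inr hy)
        · exact Or.inr hy
      · obtain ⟨d, hd⟩ := hDv
        rcases hsub (Or.inl (Or.inl (Or.inr hd))) with ((h' | h') | h') | h'
        · exact CD d h' hd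
        · exact Set.notMem_empty d h'
        · exact DS d hd h'
        · rw [Set.mem_singleton_iff] at h'; exact vDv (h' ▸ hd))
    cC vC (Set.notMem_empty v) vSn (disj CS) (disj fun x hx => absurd hx (Set.notMem_empty x))
    (disj fun x _ => Set.notMem_empty x) hclq (fun s hs => (h.vS s hs).symm) Cv
    (fun x hx => absurd hx (Set.notMem_empty x)) (full C w1 hw1 (Or.inl hw1))
    (fun d hd => absurd hd (Set.notMem_empty d)) (fun d hd => absurd hd (Set.notMem_empty d))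
    (fun d hd => absurd hd (Set.notMem_empty d))
  have dB1 : Disjoint B1 S := disj fun x hx => CS x (hB1 hx)
  have dB2 : Disjoint B2 S := disj fun x hx => CS x (hB2 hx)
  have f1 := full B1 w1 hw1 hw1B
  have f2 := full B2 w2 hw2 hw2B
  have rC1 := bC.rep.mono hB1 (Set.Subset.refl S)
  have rC2 := bC.rep.mono hB2 (Set.Subset.refl S)
  obtain ⟨l1, r1, α, bA, ag1⟩ := order_unique hG.ch rC1 bA0 c1 dB1 hclq f1
  obtain ⟨l2, r2, β, bB, ag2⟩ := order_unique hG.ch rC2 bB0 c2 dB2 hclq f2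
  have h1 := bA.sideOrd hG.ch c1 dB1 hclq f1
  have h2 := bB.sideOrd hG.ch c2 dB2 hclq f2
  have hag : Agree S (Tw G B1) (Tw G B2) α β := fun s hs t ht n1 n2 =>
    (ag1 s hs t ht n1 n1).symm.trans (ag2 s hs t ht n2 n2)
  have ag1n := ag1.neg (rC1.sideOrd hG.ch c1 dB1 hclq f1) (bA.rep.sideOrd hG.ch c1 dB1 hclq f1)
  have ag2n := ag2.neg (rC2.sideOrd hG.ch c2 dB2 hclq f2) (bB.rep.sideOrd hG.ch c2 dB2 hclq f2)
  obtain ⟨c, hc, kA, kB⟩ := colour_theorem' (D := Dv) (T := nS G S) (KA := Brk G B1 S)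
    (KB := Brk G B2 S)
    (fun d e hsub ⟨s, hs, t, ht, hst⟩ => ⟨s, hsub hs, t, hsub ht, hst⟩)
    (fun d e hsub ⟨s, hs, t, ht, hst⟩ => ⟨s, hsub hs, t, hsub ht, hst⟩)
    (c1 := k1) (c2 := k2)
    (fun d hd e he hov => bA.col d hd e he (ovl_iff.mp hov))
    (fun d hd e he hov => bB.col d hd e he (ovl_iff.mp hov))
    (fun d hd ⟨s, hs, t, ht, hst⟩ hcd => hst (bA.unb d hd hcd s hs.1 t ht.1 hs.2 ht.2))
    (fun d hd ⟨s, hs, t, ht, hst⟩ hcd => hst (bB.unb d hd hcd s hs.1 t ht.1 hs.2 ht.2))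
    (fun m d hm hcl => root_noClean hG h hB1 hB2 m d hm hcl)
  have no1 := root_noR hG h hB1 hB2 bC.rep (fun s hs t ht n => ag1 s hs t ht n n)
    (fun s hs t ht n => ag2 s hs t ht n n) hc kA kB
  have no2 := root_noR hG h hB1 hB2 bC.rep.neg (fun s hs t ht n => ag1n s hs t ht n n)
    (fun s hs t ht n => ag2n s hs t ht n n) hc kA kB
  obtain ⟨σ, s1, s2, s3, s4⟩ := order_theorem h1 h2 hag (fun d _ s hs => hs.1) no1 no2
  have twC : ∀ s t, Tw G B1 s t → Tw G B2 s t → Tw G C s t := by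
    intro s t e1 e2 x hx
    rcases hB hx with h' | h'
    · exact e1 x h'
    · exact e2 x h'
  have dC : Disjoint C S := disj CS
  apply hm.nc
  rw [hU]
  refine one_sided bC.rep s1 (fun s hs t ht hst => ?_)
    (bC.rep.sideOrd hG.ch cC dC hclq (full C w1 hw1 (Or.inl hw1))).cont CS DS CD vC vDv vSn Cv
    Dvv CDn DDn hclq h.vS Dne Ddist (fun d hd s hs t ht u hu e1 e2 e3 e4 =>
      (s4 d hd s hs t ht u hu e1 e2 ⟨hs, e3⟩ ⟨hu, e4⟩).2) hc (fun d hd hcd s hs t ht h3 h4 => ?_)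
  · by_cases e1 : Tw G B1 s t
    · have e2 : ¬ Tw G B2 s t := fun h' => hst (twC s t e1 h')
      rw [ag2 s hs t ht e2 e2, s3 s hs t ht e2]
    · rw [ag1 s hs t ht e1 e1, s2 s hs t ht e1]
  · by_contra hcon
    by_cases e1 : Tw G B1 s t
    · have e2 : ¬ Tw G B2 s t := fun h' => hcon (twC s t e1 h')
      exact kB d hd ⟨s, ⟨hs, h3⟩, t, ⟨ht, h4⟩, e2⟩ hcd
    · exact kA d hd ⟨s, ⟨hs, h3⟩, t, ⟨ht, h4⟩, e1⟩ hcd

end

end Pool.Agent.Lib.MP_50b720_co
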