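import Pool.Agent.Lib.MP_50b720_co.Full.Antichain

set_option autoImplicit false

namespace Pool.Agent.Lib.MP_50b720_co

open SimpleGraph

variable {V : Type*} {G : SimpleGraph V}

namespace Fam

lemma Ears.cons {j : ℕ} {u w : ℕ → V} {a0 a1 : V} (h : Ears G j u w)
    (c1 : ∀ a, a ≤ j → G.Adj a0 (u a)) (c2 : ∀ a, a < j → NA G (w a) a0) (c3 : G.Adj a1 a0)
    (c4 : ∀ a, a ≤ j → a1 ≠ u a ∧ (G.Adj a1 (u a) ↔ a = 0)) (c5 : ∀ a, a < j → NA G a1 (w a)) :
    Ears G (j + 1) (consL a0 u) (consL a1 w) := by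
  refine ⟨fun a b hab hb => ?_, fun a b ha hb => ?_, fun a b hab hb => ?_⟩
  · rw [consL_pos a0 u (show 0 < b by omega)]
    rcases Nat.eq_zero_or_pos a with h2 | h2
    · rw [h2, consL_zero]; exact c1 _ (by omega)
    · rw [consL_pos a0 u h2]; exact h.uu _ _ (by omega) (by omega)
  · rcases Nat.eq_zero_or_pos a with h2 | h2
    · rw [h2, consL_zero]
      rcases Nat.eq_zero_or_pos b with h3 | h3
      · rw [h3, consL_zero]
        exact ⟨c3.ne, iff_of_true c3 (Or.inl rfl)⟩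
      · rw [consL_pos a0 u h3]
        obtain ⟨e1, e2⟩ := c4 (b - 1) (by omega)
        refine ⟨e1, ?_⟩
        rw [e2]; omega
    · rw [consL_pos a1 w h2]
      rcases Nat.eq_zero_or_pos b with h3 | h3
      · rw [h3, consL_zero]
        have := c2 (a - 1) (by omega)
        exact ⟨this.1, iff_of_false this.2 (by omega)⟩
      · rw [consL_pos a0 u h3]
        obtain ⟨e1, e2⟩ := h.wu (a - 1) (b - 1) (by omega) (by omega)
        refine ⟨e1, ?_⟩
        rw [e2]; omega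
  · rw [consL_pos a1 w (show 0 < b by omega)]
    rcases Nat.eq_zero_or_pos a with h2 | h2
    · rw [h2, consL_zero]; exact c5 _ (by omega)
    · rw [consL_pos a1 w h2]; exact h.ww _ _ (by omega) (by omega)

lemma Ears.snoc {j : ℕ} {u w : ℕ → V} {b0 b1 : V} (h : Ears G j u w)
    (c1 : ∀ a, a ≤ j → G.Adj (u a) b0) (c2 : ∀ a, a < j → NA G (w a) b0) (c3 : G.Adj b1 b0)
    (c4 : ∀ a, a ≤ j → b1 ≠ u a ∧ (G.Adj b1 (u a) ↔ a = j)) (c5 : ∀ a, a < j → NA G (w a) b1) :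
    Ears G (j + 1) (fun a => if a = j + 1 then b0 else u a) (fun a => if a = j then b1 else w a) := by
  refine ⟨fun a b hab hb => ?_, fun a b ha hb => ?_, fun a b hab hb => ?_⟩
  · beta_reduce
    rw [if_neg (show ¬ a = j + 1 by omega)]
    by_cases h1 : b = j + 1
    · rw [if_pos h1]; exact c1 _ (by omega)
    · rw [if_neg h1]; exact h.uu _ _ hab (by omega)
  · beta_reduce
    by_cases h1 : a = j
    · rw [if_pos h1]
      by_cases h2 : b = j + 1
      · rw [if_pos h2]; exact ⟨c3.ne, iff_of_true c3 (by omega)⟩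
      · rw [if_neg h2]
        obtain ⟨e1, e2⟩ := c4 b (by omega)
        refine ⟨e1, ?_⟩
        rw [e2]; omega
    · rw [if_neg h1]
      by_cases h2 : b = j + 1
      · rw [if_pos h2]
        have := c2 a (by omega)
        exact ⟨this.1, iff_of_false this.2 (by omega)⟩
      · rw [if_neg h2]; exact h.wu _ _ (by omega) (by omega)
  · beta_reduce
    rw [if_neg (show ¬ a = j by omega)]
    by_cases h1 : b = j
    · rw [if_pos h1]; exact c5 _ (by omega)
    · rw [if_neg h1]; exact h.ww _ _ hab (by omega)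

lemma Ears.sun {j : ℕ} (hj : 2 ≤ j) {u w : ℕ → V} {x : V} (h : Ears G j u w)
    (hx : ∀ a, a ≤ j → x ≠ u a ∧ (G.Adj x (u a) ↔ (a = 0 ∨ a = j)))
    (hxw : ∀ a, a < j → NA G (w a) x) : sun (j + 1) ⊴ G := by
  have : NeZero (j + 1) := ⟨by omega⟩
  refine sun_ind (u := fun i : ZMod (j + 1) => u i.val)
    (w := fun i : ZMod (j + 1) => if i.val = j then x else w i.val) ?_ ?_ ?_
  · intro a b hab
    have h0 : a.val ≠ b.val := fun h => hab (ZMod.val_injective _ h)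
    have := ZMod.val_lt a
    have := ZMod.val_lt b
    rcases lt_or_gt_of_ne h0 with h1 | h1
    · exact h.uu _ _ h1 (by omega)
    · exact (h.uu _ _ h1 (by omega)).symm
  · intro a b
    beta_reduce
    rw [zmod_succ_iff (n := j + 1) (by omega)]
    have := ZMod.val_lt a
    have := ZMod.val_lt b
    by_cases h1 : a.val = j
    · rw [if_pos h1]
      obtain ⟨e1, e2⟩ := hx b.val (by omega)
      refine ⟨e1, ?_⟩
      rw [e2]; omega
    · rw [if_neg h1]
      obtain ⟨e1, e2⟩ := h.wu a.val b.val (by omega) (by omega)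
      refine ⟨e1, ?_⟩
      rw [e2]; omega
  · intro a b hab
    beta_reduce
    have h0 : a.val ≠ b.val := fun h => hab (ZMod.val_injective _ h)
    have := ZMod.val_lt a
    have := ZMod.val_lt b
    by_cases h1 : a.val = j
    · rw [if_pos h1, if_neg (show ¬ b.val = j by omega)]
      exact (hxw _ (by omega)).symm
    · rw [if_neg h1]
      by_cases h2 : b.val = j
      · rw [if_pos h2]; exact hxw _ (by omega)
      · rw [if_neg h2]
        rcases lt_or_gt_of_ne h0 with h1 | h1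
        · exact h.ww _ _ h1 (by omega)
        · exact (h.ww _ _ h1 (by omega)).symm

lemma Ears.csun {j : ℕ} (hj : 2 ≤ j) {u w : ℕ → V} {x z : V} (h : Ears G j u w)
    (hx : ∀ a, a ≤ j → x ≠ u a ∧ (G.Adj x (u a) ↔ (a = 0 ∨ a = j)))
    (hxw : ∀ a, a < j → NA G (w a) x) (hz : ∀ a, a ≤ j → G.Adj z (u a))
    (hzw : ∀ a, a < j → NA G (w a) z) (hzx : NA G x z) : centeredSun (j + 1) ⊴ G := by
  have : NeZero (j + 1) := ⟨by omega⟩
  refine csun_ind (u := fun i : ZMod (j + 1) => u i.val)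
    (w := fun i : ZMod (j + 1) => if i.val = j then x else w i.val) (z := z) ?_ ?_ ?_ ?_ ?_
  · intro a b hab
    have h0 : a.val ≠ b.val := fun h => hab (ZMod.val_injective _ h)
    have := ZMod.val_lt a
    have := ZMod.val_lt b
    rcases lt_or_gt_of_ne h0 with h1 | h1
    · exact h.uu _ _ h1 (by omega)
    · exact (h.uu _ _ h1 (by omega)).symm
  · intro a b
    beta_reduce
    rw [zmod_succ_iff (n := j + 1) (by omega)]
    have := ZMod.val_lt a
    have := ZMod.val_lt b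
    by_cases h1 : a.val = j
    · rw [if_pos h1]
      obtain ⟨e1, e2⟩ := hx b.val (by omega)
      refine ⟨e1, ?_⟩
      rw [e2]; omega
    · rw [if_neg h1]
      obtain ⟨e1, e2⟩ := h.wu a.val b.val (by omega) (by omega)
      refine ⟨e1, ?_⟩
      rw [e2]; omega
  · intro a b hab
    beta_reduce
    have h0 : a.val ≠ b.val := fun h => hab (ZMod.val_injective _ h)
    have := ZMod.val_lt a
    have := ZMod.val_lt b
    by_cases h1 : a.val = j
    · rw [if_pos h1, if_neg (show ¬ b.val = j by omega)]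
      exact (hxw _ (by omega)).symm
    · rw [if_neg h1]
      by_cases h2 : b.val = j
      · rw [if_pos h2]; exact hxw _ (by omega)
      · rw [if_neg h2]
        rcases lt_or_gt_of_ne h0 with h1 | h1
        · exact h.ww _ _ h1 (by omega)
        · exact (h.ww _ _ h1 (by omega)).symm
  · intro a
    exact hz _ (by have := ZMod.val_lt a; omega)
  · intro a
    beta_reduce
    have := ZMod.val_lt a
    by_cases h1 : a.val = j
    · rw [if_pos h1]; exact hzx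
    · rw [if_neg h1]; exact hzw _ (by omega)

end Fam

/-- a root `v` with neighbourhood `S`; `W1 = K \ S`, the members of `E` meet `W1`, the members of
`Dv` are contained in `S` -/
structure RootConf (G : SimpleGraph V) (K D S W1 E Dv : Set V) (v : V) : Prop where
  spl : Spl G K D
  SK : S ⊆ K
  WK : W1 ⊆ K
  ED : E ⊆ D
  DD : Dv ⊆ D
  vD : v ∈ D
  vS : ∀ s ∈ S, G.Adj v s
  vW : ∀ w ∈ W1, ¬ G.Adj v w
  EW : ∀ y ∈ E, ∃ w ∈ W1, G.Adj y w
  DW : ∀ d ∈ Dv, ∀ w ∈ W1, ¬ G.Adj d w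
  Dpr : ∀ d ∈ Dv, ∃ s ∈ S, ¬ G.Adj d s

section

variable {K D S W1 E Dv : Set V} {v : V}

lemma RootConf.naDE (h : RootConf G K D S W1 E Dv v) {d x : V} (hd : d ∈ Dv) (hx : x ∈ E) :
    NA G d x := by
  obtain ⟨w, hw, hxw⟩ := h.EW x hx
  exact (h.spl.naD (h.ED hx) (h.DD hd) hxw (h.DW d hd w hw)).symm

lemma RootConf.naDv (h : RootConf G K D S W1 E Dv v) {d : V} (hd : d ∈ Dv) : NA G d v := by
  obtain ⟨s, hs, hds⟩ := h.Dpr d hd
  exact (h.spl.naD h.vD (h.DD hd) (h.vS s hs) hds).symm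

lemma RootConf.naEv (h : RootConf G K D S W1 E Dv v) {x : V} (hx : x ∈ E) : NA G x v := by
  obtain ⟨w, hw, hxw⟩ := h.EW x hx
  exact h.spl.naD (h.ED hx) h.vD hxw (h.vW w hw)

lemma RootConf.SW (h : RootConf G K D S W1 E Dv v) {s w : V} (hs : s ∈ S) (hw : w ∈ W1) :
    G.Adj s w := h.spl.clq s (h.SK hs) w (h.WK hw) (fun h' => h.vW w hw (h' ▸ h.vS s hs))

lemma RootConf.ears (h : RootConf G K D S W1 E Dv v) {m : ℕ} {d u : ℕ → V}
    (hz : Zig G S Dv m d u) (hne : ∀ a b, a < b → b ≤ m + 1 → u a ≠ u b) :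
    Fam.Ears G (m + 1) u d := by
  refine ⟨fun a b hab hb => ?_, fun a b ha hb => ?_, fun a b hab hb => ?_⟩
  · exact h.spl.clq _ (h.SK (hz.um _ (by omega))) _ (h.SK (hz.um _ hb)) (hne a b hab hb)
  · exact ⟨h.spl.ne (h.DD (hz.dm a (by omega))) (h.SK (hz.um b hb)), hz.adj a (by omega) b hb⟩
  · exact ⟨hz.dne hab (by omega), h.spl.ind _ (h.DD (hz.dm a (by omega))) _
      (h.DD (hz.dm b (by omega)))⟩

variable {m : ℕ} {d u : ℕ → V} {x w x' w' r : V}

/-- the chain followed by `w` with the ear `x'` -/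
lemma RootConf.earsR (h : RootConf G K D S W1 E Dv v) (hz : Zig G S Dv m d u)
    (hne : ∀ a b, a < b → b ≤ m + 1 → u a ≠ u b) (hx' : x' ∈ E) (hw : w ∈ W1)
    (h1 : G.Adj x' w) (h2 : ∀ j ≤ m + 1, (G.Adj x' (u j) ↔ j = m + 1)) :
    Fam.Ears G (m + 2) (fun a => if a = m + 2 then w else u a)
      (fun a => if a = m + 1 then x' else d a) := by
  refine (h.ears hz hne).snoc (fun a ha => h.SW (hz.um a ha) hw) (fun a ha => ?_) h1
    (fun a ha => ⟨h.spl.ne (h.ED hx') (h.SK (hz.um a ha)), h2 a ha⟩)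
    (fun a ha => h.naDE (hz.dm a (by omega)) hx')
  have hd := hz.dm a (by omega)
  exact ⟨h.spl.ne (h.DD hd) (h.WK hw), h.DW _ hd w hw⟩

/-- single, single, common -/
lemma root_ss1 (hG : NoListed G) (h : RootConf G K D S W1 E Dv v) (hz : Zig G S Dv m d u)
    (ho : Odd m) (hne : ∀ a b, a < b → b ≤ m + 1 → u a ≠ u b) (hx : x ∈ E) (hx' : x' ∈ E)
    (hxx : x ≠ x') (hw : w ∈ W1) (h1 : G.Adj x w) (h1' : G.Adj x' w)
    (h2 : ∀ j ≤ m + 1, (G.Adj x (u j) ↔ j = 0))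
    (h2' : ∀ j ≤ m + 1, (G.Adj x' (u j) ↔ j = m + 1)) : False := by
  have e := h.earsR hz hne hx' hw h1' h2'
  refine hG.sn (m + 3) (by obtain ⟨k, hk⟩ := ho; omega) (by obtain ⟨k, hk⟩ := ho; exact ⟨k + 2, by omega⟩)
    (e.sun (x := x) (by omega) ?_ ?_)
  · intro a ha
    beta_reduce
    by_cases g : a = m + 2
    · rw [if_pos g]; exact ⟨h1.ne, iff_of_true h1 (by omega)⟩
    · rw [if_neg g]
      refine ⟨h.spl.ne (h.ED hx) (h.SK (hz.um a (by omega))), ?_⟩
      rw [h2 a (by omega)]; omega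
  · intro a ha
    beta_reduce
    by_cases g : a = m + 1
    · rw [if_pos g]; exact ⟨hxx.symm, h.spl.ind _ (h.ED hx') _ (h.ED hx)⟩
    · rw [if_neg g]; exact h.naDE (hz.dm a (by omega)) hx

/-- single, single, common, with bypassed vertex -/
lemma root_ss1r (hG : NoListed G) (h : RootConf G K D S W1 E Dv v) (hz : Zig G S Dv m d u)
    (ho : Even m) (hne : ∀ a b, a < b → b ≤ m + 1 → u a ≠ u b) (hx : x ∈ E) (hx' : x' ∈ E)
    (hxx : x ≠ x') (hw : w ∈ W1) (h1 : G.Adj x w) (h1' : G.Adj x' w)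
    (h2 : ∀ j ≤ m + 1, (G.Adj x (u j) ↔ j = 0))
    (h2' : ∀ j ≤ m + 1, (G.Adj x' (u j) ↔ j = m + 1)) (hr : r ∈ S)
    (hru : ∀ j ≤ m + 1, r ≠ u j) (hrd : ∀ i ≤ m, ¬ G.Adj (d i) r) (hrx : ¬ G.Adj x r)
    (hrx' : ¬ G.Adj x' r) : False := by
  have e := h.earsR hz hne hx' hw h1' h2'
  refine hG.cs (m + 3) (by omega) (by obtain ⟨k, hk⟩ := ho; exact ⟨k + 1, by omega⟩)
    (e.csun (x := x) (z := r) (by omega) ?_ ?_ ?_ ?_ ?_)
  · intro a ha
    beta_reduce
    by_cases g : a = m + 2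
    · rw [if_pos g]; exact ⟨h1.ne, iff_of_true h1 (by omega)⟩
    · rw [if_neg g]
      refine ⟨h.spl.ne (h.ED hx) (h.SK (hz.um a (by omega))), ?_⟩
      rw [h2 a (by omega)]; omega
  · intro a ha
    beta_reduce
    by_cases g : a = m + 1
    · rw [if_pos g]; exact ⟨hxx.symm, h.spl.ind _ (h.ED hx') _ (h.ED hx)⟩
    · rw [if_neg g]; exact h.naDE (hz.dm a (by omega)) hx
  · intro a ha
    beta_reduce
    by_cases g : a = m + 2
    · rw [if_pos g]; exact h.SW hr hw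
    · rw [if_neg g]
      exact h.spl.clq _ (h.SK hr) _ (h.SK (hz.um a (by omega))) (hru a (by omega))
  · intro a ha
    beta_reduce
    by_cases g : a = m + 1
    · rw [if_pos g]; exact ⟨h.spl.ne (h.ED hx') (h.SK hr), hrx'⟩
    · rw [if_neg g]
      exact ⟨h.spl.ne (h.DD (hz.dm a (by omega))) (h.SK hr), hrd a (by omega)⟩
  · exact ⟨h.spl.ne (h.ED hx) (h.SK hr), hrx⟩

/-- the chain preceded by `w` with the ear `x` and followed by `w'` with the ear `x'` -/
lemma RootConf.earsLR (h : RootConf G K D S W1 E Dv v) (hz : Zig G S Dv m d u)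
    (hne : ∀ a b, a < b → b ≤ m + 1 → u a ≠ u b) (hx : x ∈ E) (hx' : x' ∈ E)
    (hxx : x ≠ x') (hw : w ∈ W1) (hw' : w' ∈ W1) (h1 : G.Adj x w) (h1' : G.Adj x' w')
    (n1 : ¬ G.Adj x w') (n1' : ¬ G.Adj x' w)
    (h2 : ∀ j ≤ m + 1, (G.Adj x (u j) ↔ j = 0))
    (h2' : ∀ j ≤ m + 1, (G.Adj x' (u j) ↔ j = m + 1)) :
    Fam.Ears G (m + 3) (consL w (fun a => if a = m + 2 then w' else u a))
      (consL x (fun a => if a = m + 1 then x' else d a)) := by
  have e := h.earsR hz hne hx' hw' h1' h2'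
  refine e.cons ?_ ?_ h1 ?_ ?_
  · intro a ha
    beta_reduce
    by_cases g : a = m + 2
    · rw [if_pos g]
      exact h.spl.clq _ (h.WK hw) _ (h.WK hw') (fun h' => n1 (h' ▸ h1))
    · rw [if_neg g]; exact (h.SW (hz.um a (by omega)) hw).symm
  · intro a ha
    beta_reduce
    by_cases g : a = m + 1
    · rw [if_pos g]; exact ⟨h.spl.ne (h.ED hx') (h.WK hw), n1'⟩
    · rw [if_neg g]
      have hd := hz.dm a (by omega)
      exact ⟨h.spl.ne (h.DD hd) (h.WK hw), h.DW _ hd w hw⟩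
  · intro a ha
    beta_reduce
    by_cases g : a = m + 2
    · rw [if_pos g]; exact ⟨h.spl.ne (h.ED hx) (h.WK hw'), iff_of_false n1 (by omega)⟩
    · rw [if_neg g]
      exact ⟨h.spl.ne (h.ED hx) (h.SK (hz.um a (by omega))), h2 a (by omega)⟩
  · intro a ha
    beta_reduce
    by_cases g : a = m + 1
    · rw [if_pos g]; exact ⟨hxx, h.spl.ind _ (h.ED hx) _ (h.ED hx')⟩
    · rw [if_neg g]; exact (h.naDE (hz.dm a (by omega)) hx).symm

/-- adjacency of `v` to the extended chain -/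
lemma RootConf.vLR (h : RootConf G K D S W1 E Dv v) (hz : Zig G S Dv m d u)
    (hw : w ∈ W1) (hw' : w' ∈ W1) : ∀ a, a ≤ m + 3 →
    v ≠ consL w (fun a => if a = m + 2 then w' else u a) a ∧
      (G.Adj v (consL w (fun a => if a = m + 2 then w' else u a) a) ↔ (a ≠ 0 ∧ a ≠ m + 3)) := by
  intro a ha
  rcases Nat.eq_zero_or_pos a with h2 | h2
  · rw [h2, consL_zero]
    exact ⟨h.spl.ne h.vD (h.WK hw), iff_of_false (h.vW w hw) (by simp)⟩
  · rw [consL_pos w _ h2]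
    by_cases g : a - 1 = m + 2
    · rw [if_pos g]
      exact ⟨h.spl.ne h.vD (h.WK hw'), iff_of_false (h.vW w' hw') (by omega)⟩
    · rw [if_neg g]
      have h3 := hz.um (a - 1) (by omega)
      exact ⟨h.spl.ne h.vD (h.SK h3), iff_of_true (h.vS _ h3) (by omega)⟩

lemma RootConf.vLR' (h : RootConf G K D S W1 E Dv v) (hz : Zig G S Dv m d u)
    (hx : x ∈ E) (hx' : x' ∈ E) : ∀ a, a < m + 3 →
    NA G (consL x (fun a => if a = m + 1 then x' else d a) a) v := by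
  intro a ha
  rcases Nat.eq_zero_or_pos a with h2 | h2
  · rw [h2, consL_zero]; exact h.naEv hx
  · rw [consL_pos x _ h2]
    by_cases g : a - 1 = m + 1
    · rw [if_pos g]; exact h.naEv hx'
    · rw [if_neg g]; exact h.naDv (hz.dm _ (by omega))

/-- single, single, not common -/
lemma root_ss2 (hG : NoListed G) (h : RootConf G K D S W1 E Dv v) (hz : Zig G S Dv m d u)
    (ho : Odd m) (hne : ∀ a b, a < b → b ≤ m + 1 → u a ≠ u b) (hx : x ∈ E) (hx' : x' ∈ E)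
    (hxx : x ≠ x') (hw : w ∈ W1) (hw' : w' ∈ W1) (h1 : G.Adj x w) (h1' : G.Adj x' w')
    (n1 : ¬ G.Adj x w') (n1' : ¬ G.Adj x' w)
    (h2 : ∀ j ≤ m + 1, (G.Adj x (u j) ↔ j = 0))
    (h2' : ∀ j ≤ m + 1, (G.Adj x' (u j) ↔ j = m + 1)) : False := by
  have e := h.earsLR hz hne hx hx' hxx hw hw' h1 h1' n1 n1' h2 h2'
  exact hG.s4 (m + 3) (by obtain ⟨k, hk⟩ := ho; omega)
    (by obtain ⟨k, hk⟩ := ho; exact ⟨k + 2, by omega⟩)
    (Fam.chainS4_ind e (x := v) (h.vLR hz hw hw') (h.vLR' hz hx hx'))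

/-- single, single, not common, with bypassed vertex -/
lemma root_ss2r (hG : NoListed G) (h : RootConf G K D S W1 E Dv v) (hz : Zig G S Dv m d u)
    (ho : Even m) (hne : ∀ a b, a < b → b ≤ m + 1 → u a ≠ u b) (hx : x ∈ E) (hx' : x' ∈ E)
    (hxx : x ≠ x') (hw : w ∈ W1) (hw' : w' ∈ W1) (h1 : G.Adj x w) (h1' : G.Adj x' w')
    (n1 : ¬ G.Adj x w') (n1' : ¬ G.Adj x' w)
    (h2 : ∀ j ≤ m + 1, (G.Adj x (u j) ↔ j = 0))
    (h2' : ∀ j ≤ m + 1, (G.Adj x' (u j) ↔ j = m + 1)) (hr : r ∈ S)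
    (hru : ∀ j ≤ m + 1, r ≠ u j) (hrd : ∀ i ≤ m, ¬ G.Adj (d i) r) (hrx : ¬ G.Adj x r)
    (hrx' : ¬ G.Adj x' r) : False := by
  have e := h.earsLR hz hne hx hx' hxx hw hw' h1 h1' n1 n1' h2 h2'
  refine hG.s3 (m + 3) (by omega) (by obtain ⟨k, hk⟩ := ho; exact ⟨k + 1, by omega⟩)
    (Fam.chainS3_ind e (z := r) (x := v) ?_ ?_ (h.vLR hz hw hw') (h.vS r hr) (h.vLR' hz hx hx'))
  · intro a ha
    rcases Nat.eq_zero_or_pos a with g | g
    · rw [g, consL_zero]; exact h.SW hr hw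
    · rw [consL_pos w _ g]
      by_cases g' : a - 1 = m + 2
      · rw [if_pos g']; exact h.SW hr hw'
      · rw [if_neg g']
        exact h.spl.clq _ (h.SK hr) _ (h.SK (hz.um _ (by omega))) (hru _ (by omega))
  · intro a ha
    rcases Nat.eq_zero_or_pos a with g | g
    · rw [g, consL_zero]; exact ⟨h.spl.ne (h.ED hx) (h.SK hr), hrx⟩
    · rw [consL_pos x _ g]
      by_cases g' : a - 1 = m + 1
      · rw [if_pos g']; exact ⟨h.spl.ne (h.ED hx') (h.SK hr), hrx'⟩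
      · rw [if_neg g']
        exact ⟨h.spl.ne (h.DD (hz.dm _ (by omega))) (h.SK hr), hrd _ (by omega)⟩

/-- adjacency of `v` to the chain followed by `w` -/
lemma RootConf.vR (h : RootConf G K D S W1 E Dv v) (hz : Zig G S Dv m d u)
    (hw : w ∈ W1) : ∀ a, a ≤ m + 2 → v ≠ (fun a => if a = m + 2 then w else u a) a ∧
      (G.Adj v ((fun a => if a = m + 2 then w else u a) a) ↔ a ≠ m + 2) := by
  intro a ha
  beta_reduce
  by_cases g : a = m + 2
  · rw [if_pos g]; exact ⟨h.spl.ne h.vD (h.WK hw), iff_of_false (h.vW w hw) (by omega)⟩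
  · rw [if_neg g]
    have h3 := hz.um a (by omega)
    exact ⟨h.spl.ne h.vD (h.SK h3), iff_of_true (h.vS _ h3) (by omega)⟩

lemma RootConf.vR' (h : RootConf G K D S W1 E Dv v) (hz : Zig G S Dv m d u)
    (hx' : x' ∈ E) : ∀ a, a < m + 2 →
    NA G ((fun a => if a = m + 1 then x' else d a) a) v := by
  intro a ha
  beta_reduce
  by_cases g : a = m + 1
  · rw [if_pos g]; exact h.naEv hx'
  · rw [if_neg g]; exact h.naDv (hz.dm _ (by omega))

/-- adjacency of a complementary `x` to the chain followed by `w` -/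
lemma RootConf.xR (h : RootConf G K D S W1 E Dv v) (hz : Zig G S Dv m d u)
    (hx : x ∈ E) (h1 : G.Adj x w) (h2 : ∀ j ≤ m + 1, (G.Adj x (u j) ↔ j ≠ 0)) :
    ∀ a, a ≤ m + 2 → x ≠ (fun a => if a = m + 2 then w else u a) a ∧
      (G.Adj x ((fun a => if a = m + 2 then w else u a) a) ↔ a ≠ 0) := by
  intro a ha
  beta_reduce
  by_cases g : a = m + 2
  · rw [if_pos g]; exact ⟨h1.ne, iff_of_true h1 (by omega)⟩
  · rw [if_neg g]
    have h3 := hz.um a (by omega)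
    exact ⟨h.spl.ne (h.ED hx) (h.SK h3), h2 a (by omega)⟩

lemma RootConf.xR' (h : RootConf G K D S W1 E Dv v) (hz : Zig G S Dv m d u)
    (hx : x ∈ E) (hx' : x' ∈ E) (hxx : x ≠ x') : ∀ a, a < m + 2 →
    NA G ((fun a => if a = m + 1 then x' else d a) a) x := by
  intro a ha
  beta_reduce
  by_cases g : a = m + 1
  · rw [if_pos g]; exact ⟨hxx.symm, h.spl.ind _ (h.ED hx') _ (h.ED hx)⟩
  · rw [if_neg g]; exact h.naDE (hz.dm _ (by omega)) hx

/-- complement, single -/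
lemma root_cs (hG : NoListed G) (h : RootConf G K D S W1 E Dv v) (hz : Zig G S Dv m d u)
    (ho : Odd m) (hne : ∀ a b, a < b → b ≤ m + 1 → u a ≠ u b) (hx : x ∈ E) (hx' : x' ∈ E)
    (hxx : x ≠ x') (h2 : ∀ j ≤ m + 1, (G.Adj x (u j) ↔ j ≠ 0))
    (h2' : ∀ j ≤ m + 1, (G.Adj x' (u j) ↔ j = m + 1)) : False := by
  by_cases hcom : ∃ w ∈ W1, G.Adj x w ∧ G.Adj x' w
  · obtain ⟨w, hw, h1, h1'⟩ := hcom
    have e := h.earsR hz hne hx' hw h1' h2'
    exact hG.s5 (m + 2) (by obtain ⟨k, hk⟩ := ho; omega)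
      (by obtain ⟨k, hk⟩ := ho; exact ⟨k + 1, by omega⟩)
      (Fam.chainS5_ind e (x := v) (x' := x) (h.vR hz hw) (h.xR hz hx h1 h2) (h.vR' hz hx')
        (h.xR' hz hx hx' hxx) (h.naEv hx).symm)
  · push Not at hcom
    obtain ⟨w, hw, h1⟩ := h.EW x hx
    obtain ⟨w', hw', h1'⟩ := h.EW x' hx'
    have u0 := hz.um 0 (by omega)
    have um := hz.um (m + 1) le_rfl
    exact h.spl.star_false hG (k0 := u (m + 1)) (k1 := w) (k2 := w') (k3 := u 0) (d0 := x)
      (d1 := x') (d2 := v) (h.SK um) (h.WK hw) (h.WK hw') (h.SK u0) (h.ED hx) (h.ED hx') h.vD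
      ((h2 _ le_rfl).mpr (by omega)) h1 (fun h' => hcom w' hw' h' h1')
      (fun h' => (h2 0 (by omega)).mp h' rfl) ((h2' _ le_rfl).mpr rfl) (hcom w hw h1) h1'
      (fun h' => by have := (h2' 0 (by omega)).mp h'; omega) (h.vS _ um) (h.vW w hw)
      (h.vW w' hw') (h.vS _ u0)

/-- complement, single, with bypassed vertex -/
lemma root_csr (hG : NoListed G) (h : RootConf G K D S W1 E Dv v) (hz : Zig G S Dv m d u)
    (ho : Even m) (hne : ∀ a b, a < b → b ≤ m + 1 → u a ≠ u b) (hx : x ∈ E) (hx' : x' ∈ E)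
    (hxx : x ≠ x') (h2 : ∀ j ≤ m + 1, (G.Adj x (u j) ↔ j ≠ 0))
    (h2' : ∀ j ≤ m + 1, (G.Adj x' (u j) ↔ j = m + 1)) (hr : r ∈ S)
    (hru : ∀ j ≤ m + 1, r ≠ u j) (hrd : ∀ i ≤ m, ¬ G.Adj (d i) r) (hrx : G.Adj x r)
    (hrx' : ¬ G.Adj x' r) : False := by
  by_cases hcom : ∃ w ∈ W1, G.Adj x w ∧ G.Adj x' w
  · obtain ⟨w, hw, h1, h1'⟩ := hcom
    have e := h.earsR hz hne hx' hw h1' h2'
    refine hG.s6 (m + 2) (by omega)
      (by obtain ⟨k, hk⟩ := ho; exact ⟨k + 1, by omega⟩)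
      (Fam.chainS6_ind e (z := r) (x := v) (x' := x) ?_ ?_ (h.vR hz hw) (h.xR hz hx h1 h2)
        (h.vS r hr) hrx (h.vR' hz hx') (h.xR' hz hx hx' hxx) (h.naEv hx).symm)
    · intro a ha
      beta_reduce
      by_cases g : a = m + 2
      · rw [if_pos g]; exact h.SW hr hw
      · rw [if_neg g]
        exact h.spl.clq _ (h.SK hr) _ (h.SK (hz.um a (by omega))) (hru a (by omega))
    · intro a ha
      beta_reduce
      by_cases g : a = m + 1
      · rw [if_pos g]; exact ⟨h.spl.ne (h.ED hx') (h.SK hr), hrx'⟩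
      · rw [if_neg g]
        exact ⟨h.spl.ne (h.DD (hz.dm a (by omega))) (h.SK hr), hrd a (by omega)⟩
  · push Not at hcom
    obtain ⟨w, hw, h1⟩ := h.EW x hx
    obtain ⟨w', hw', h1'⟩ := h.EW x' hx'
    have u0 := hz.um 0 (by omega)
    have um := hz.um (m + 1) le_rfl
    exact h.spl.star_false hG (k0 := u (m + 1)) (k1 := w) (k2 := w') (k3 := u 0) (d0 := x)
      (d1 := x') (d2 := v) (h.SK um) (h.WK hw) (h.WK hw') (h.SK u0) (h.ED hx) (h.ED hx') h.vD
      ((h2 _ le_rfl).mpr (by omega)) h1 (fun h' => hcom w' hw' h' h1')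
      (fun h' => (h2 0 (by omega)).mp h' rfl) ((h2' _ le_rfl).mpr rfl) (hcom w hw h1) h1'
      (fun h' => by have := (h2' 0 (by omega)).mp h'; omega) (h.vS _ um) (h.vW w hw)
      (h.vW w' hw') (h.vS _ u0)

/-- complement, complement: `z` is adjacent to `x` and `x'` -/
lemma root_cc (hG : NoListed G) (h : RootConf G K D S W1 E Dv v) {s t z : V} (hs : s ∈ S)
    (ht : t ∈ S) (hz : z ∈ S) (hx : x ∈ E) (hx' : x' ∈ E)
    (xs : ¬ G.Adj x s) (xt : G.Adj x t) (xs' : G.Adj x' s) (xt' : ¬ G.Adj x' t)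
    (xz : G.Adj x z) (xz' : G.Adj x' z) : False := by
  by_cases hcom : ∃ w ∈ W1, G.Adj x w ∧ G.Adj x' w
  · obtain ⟨w, hw, h1, h1'⟩ := hcom
    exact h.spl.tent_false hG (k0 := z) (k1 := w) (k2 := t) (k3 := s) (d0 := x) (d1 := v)
      (d2 := x') (h.SK hz) (h.WK hw) (h.SK ht) (h.SK hs) (h.ED hx) h.vD (h.ED hx') xz h1 xt xs
      (h.vS z hz) (h.vW w hw) (h.vS t ht) (h.vS s hs) xz' h1' xt' xs'
  · push Not at hcom
    obtain ⟨w, hw, h1⟩ := h.EW x hx
    obtain ⟨w', hw', h1'⟩ := h.EW x' hx'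
    exact h.spl.h819_false hG (k0 := z) (k1 := w) (k2 := t) (k3 := s) (k4 := w') (d0 := x)
      (d1 := v) (d2 := x') (h.SK hz) (h.WK hw) (h.SK ht) (h.SK hs) (h.WK hw') (h.ED hx) h.vD
      (h.ED hx') xz h1 xt xs (fun h' => hcom w' hw' h' h1') (h.vS z hz) (h.vW w hw) (h.vS t ht)
      (h.vS s hs) (h.vW w' hw') xz' (hcom w hw h1) xt' xs' h1'

/-- type of a certificate: `x` separates `u 0` from the others -/
def Sep0 (G : SimpleGraph V) (m : ℕ) (u : ℕ → V) (x : V) : Prop :=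
  (∀ j ≤ m + 1, (G.Adj x (u j) ↔ j = 0)) ∨ (∀ j ≤ m + 1, (G.Adj x (u j) ↔ j ≠ 0))

/-- `x` separates `u (m + 1)` from the others -/
def SepE (G : SimpleGraph V) (m : ℕ) (u : ℕ → V) (x : V) : Prop :=
  (∀ j ≤ m + 1, (G.Adj x (u j) ↔ j = m + 1)) ∨ (∀ j ≤ m + 1, (G.Adj x (u j) ↔ j ≠ m + 1))

/-- no chain of odd length between different elements of `E` -/
theorem root_bc (hG : NoListed G) (h : RootConf G K D S W1 E Dv v) (hz : Zig G S Dv m d u)
    (ho : Odd m) (hx : x ∈ E) (hx' : x' ∈ E) (s0 : Sep0 G m u x) (s1 : SepE G m u x') :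
    False := by
  have hm : 1 ≤ m := by obtain ⟨k, hk⟩ := ho; omega
  have hne : ∀ a b, a < b → b ≤ m + 1 → u a ≠ u b := fun a b hab hb => hz.une hm hab hb
  have hxx : x ≠ x' := by
    rintro rfl
    rcases s0 with h1 | h1 <;> rcases s1 with h2 | h2
    · have := (h1 0 (by omega)).symm.trans (h2 0 (by omega)); omega
    · have := (h1 1 (by omega)).symm.trans (h2 1 (by omega)); omega
    · have := (h1 1 (by omega)).symm.trans (h2 1 (by omega)); omega
    · have := (h1 0 (by omega)).symm.trans (h2 0 (by omega)); omega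
  rcases s0 with h2 | h2 <;> rcases s1 with h2' | h2'
  · by_cases hcom : ∃ w ∈ W1, G.Adj x w ∧ G.Adj x' w
    · obtain ⟨w, hw, h1, h1'⟩ := hcom
      exact root_ss1 hG h hz ho hne hx hx' hxx hw h1 h1' h2 h2'
    · push Not at hcom
      obtain ⟨w, hw, h1⟩ := h.EW x hx
      obtain ⟨w', hw', h1'⟩ := h.EW x' hx'
      exact root_ss2 hG h hz ho hne hx hx' hxx hw hw' h1 h1' (fun h' => hcom w' hw' h' h1')
        (hcom w hw h1) h2 h2'
  · refine root_cs hG h hz.rev ho (fun a b hab hb => (hne _ _ (by omega) (by omega)).symm) hx' hx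
      hxx.symm ?_ ?_
    · intro j hj; beta_reduce; rw [h2' _ (by omega)]; omega
    · intro j hj; beta_reduce; rw [h2 _ (by omega)]; omega
  · exact root_cs hG h hz ho hne hx hx' hxx h2 h2'
  · refine root_cc hG h (s := u 0) (t := u (m + 1)) (z := u 1) (hz.um 0 (by omega))
      (hz.um _ le_rfl) (hz.um 1 (by omega)) hx hx' ?_ ?_ ?_ ?_ ?_ ?_
    · exact fun h' => (h2 0 (by omega)).mp h' rfl
    · exact (h2 _ le_rfl).mpr (by omega)
    · exact (h2' 0 (by omega)).mpr (by omega)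
    · exact fun h' => (h2' _ le_rfl).mp h' rfl
    · exact (h2 1 (by omega)).mpr (by omega)
    · exact (h2' 1 (by omega)).mpr (by omega)

/-- no chain of even length with a bypassed vertex -/
theorem root_rc (hG : NoListed G) (h : RootConf G K D S W1 E Dv v) (hz : Zig G S Dv m d u)
    (ho : Even m) (hne : ∀ a b, a < b → b ≤ m + 1 → u a ≠ u b) (hx : x ∈ E) (hx' : x' ∈ E)
    (hr : r ∈ S) (hru : ∀ j ≤ m + 1, r ≠ u j)
    (hrd : ∀ i ≤ m, ¬ G.Adj (d i) r)
    (s0 : ((∀ j ≤ m + 1, (G.Adj x (u j) ↔ j = 0)) ∧ ¬ G.Adj x r) ∨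
      ((∀ j ≤ m + 1, (G.Adj x (u j) ↔ j ≠ 0)) ∧ G.Adj x r))
    (s1 : ((∀ j ≤ m + 1, (G.Adj x' (u j) ↔ j = m + 1)) ∧ ¬ G.Adj x' r) ∨
      ((∀ j ≤ m + 1, (G.Adj x' (u j) ↔ j ≠ m + 1)) ∧ G.Adj x' r)) : False := by
  have hxx : x ≠ x' := by
    rintro rfl
    rcases s0 with ⟨h1, g1⟩ | ⟨h1, g1⟩ <;> rcases s1 with ⟨h2, g2⟩ | ⟨h2, g2⟩
    · have := (h1 0 (by omega)).symm.trans (h2 0 (by omega)); omega
    · exact g1 g2
    · exact g2 g1
    · have := (h1 0 (by omega)).symm.trans (h2 0 (by omega)); omega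
  rcases s0 with ⟨h2, g2⟩ | ⟨h2, g2⟩ <;> rcases s1 with ⟨h2', g2'⟩ | ⟨h2', g2'⟩
  · by_cases hcom : ∃ w ∈ W1, G.Adj x w ∧ G.Adj x' w
    · obtain ⟨w, hw, h1, h1'⟩ := hcom
      exact root_ss1r hG h hz ho hne hx hx' hxx hw h1 h1' h2 h2' hr hru hrd g2 g2'
    · push Not at hcom
      obtain ⟨w, hw, h1⟩ := h.EW x hx
      obtain ⟨w', hw', h1'⟩ := h.EW x' hx'
      exact root_ss2r hG h hz ho hne hx hx' hxx hw hw' h1 h1' (fun h' => hcom w' hw' h' h1')
        (hcom w hw h1) h2 h2' hr hru hrd g2 g2'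
  · refine root_csr hG h hz.rev ho (fun a b hab hb => (hne _ _ (by omega) (by omega)).symm) hx' hx
      hxx.symm ?_ ?_ hr (fun j hj => hru _ (by omega)) (fun i hi => hrd _ (by omega)) g2' g2
    · intro j hj; beta_reduce; rw [h2' _ (by omega)]; omega
    · intro j hj; beta_reduce; rw [h2 _ (by omega)]; omega
  · exact root_csr hG h hz ho hne hx hx' hxx h2 h2' hr hru hrd g2 g2'
  · refine root_cc hG h (s := u 0) (t := u (m + 1)) (z := r) (hz.um 0 (by omega))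
      (hz.um _ le_rfl) hr hx hx' ?_ ?_ ?_ ?_ g2 g2'
    · exact fun h' => (h2 0 (by omega)).mp h' rfl
    · exact (h2 _ le_rfl).mpr (by omega)
    · exact (h2' 0 (by omega)).mpr (by omega)
    · exact fun h' => (h2' _ le_rfl).mp h' rfl

end

end Pool.Agent.Lib.MP_50b720_co
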