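import Pool.Agent.Lib.MP_50b720_co.Full.Sporadic
import Pool.Agent.Lib.MP_50b720_co.Full.Fans
import Pool.Agent.Lib.MP_50b720_co.Full.ChainsListed
import Pool.Agent.Lib.MP_50b720_co.NonCircle

set_option autoImplicit false

/-!
# The listed graphs are chordal and minimally not circle graphs
-/

namespace Pool.Agent.Lib.MP_50b720_co

open SimpleGraph

lemma spec_of_iso {W W' : Type*} {H : SimpleGraph W} {G : SimpleGraph W'} (e : H ≃g G)
    (h1 : IsChordal G) (h2 : ¬ Circ G Set.univ) (h3 : ∀ S : Set W', S ≠ Set.univ → Circ G S) :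
    IsChordal H ∧ ¬ Circ H Set.univ ∧ ∀ S : Set W, S ≠ Set.univ → Circ H S := by
  refine ⟨h1.of_ind ⟨e.toEmbedding⟩, fun h => h2 ?_, fun S hS => ?_⟩
  · exact h.of_emb e.symm.toEmbedding (fun _ _ => trivial)
  · obtain ⟨x, hx⟩ := (Set.ne_univ_iff_exists_notMem S).mp hS
    have h4 : e '' S ≠ Set.univ := by
      intro h
      have : e x ∈ e '' S := by rw [h]; trivial
      obtain ⟨y, hy, hyx⟩ := this
      exact hx (e.injective hyx ▸ hy)
    exact (h3 _ h4).of_emb e.toEmbedding (fun y hy => ⟨y, hy, rfl⟩)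

/-- The graphs of the list are chordal and minimal among the graphs without a chord diagram. -/
theorem IsListed.spec {W : Type*} {H : SimpleGraph W} (h : IsListed H) :
    IsChordal H ∧ ¬ Circ H Set.univ ∧ ∀ S : Set W, S ≠ Set.univ → Circ H S := by
  rcases h with ⟨p, hp, ⟨e⟩⟩ | ⟨k, hk, hp, ⟨e⟩⟩ | ⟨k, hk, hp, ⟨e⟩⟩ | ⟨k, hk, ⟨e⟩⟩ | ⟨k, hk, ⟨e⟩⟩ |
    ⟨j, hj, hp, ⟨e⟩⟩ | ⟨j, hj, hp, ⟨e⟩⟩ | ⟨j, hj, hp, ⟨e⟩⟩ | ⟨j, hj, hp, ⟨e⟩⟩ | ⟨j, hj, hp, ⟨e⟩⟩ |
    ⟨j, hj, hp, ⟨e⟩⟩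
  · exact spec_of_iso e (sporadic_chordal p hp) (sporadic_not_circ p hp) (sporadic_circ p hp)
  · exact spec_of_iso e sun_chordal (sun_not_circ hk hp) (fun S hS => sun_circ (by omega) S hS)
  · exact spec_of_iso e csun_chordal (centeredSun_not_circ hk hp)
      (fun S hS => csun_circ hk hp S hS)
  · exact spec_of_iso e (fan_chordal (by omega) _) (fan_not_circ hk) (fan_circ hk)
  · exact spec_of_iso e (fanY_chordal (by omega) _) (fanY_not_circ hk) (fanY_circ hk)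
  · exact spec_of_iso e (chainN_chordal hj) (chainN_not_circ hj hp) (chainN_circ hj hp)
  · exact spec_of_iso e (chainNZ_chordal hj) (chainNZ_not_circ hj hp) (chainNZ_circ hj hp)
  · exact spec_of_iso e (chainS3_chordal hj) (chainS3_not_circ hj hp) (chainS3_circ hj hp)
  · exact spec_of_iso e (chainS4_chordal hj) (chainS4_not_circ hj hp) (chainS4_circ hj hp)
  · exact spec_of_iso e (chainS5_chordal hj) (chainS5_not_circ hj hp) (chainS5_circ hj hp)
  · exact spec_of_iso e (chainS6_chordal hj) (chainS6_not_circ hj hp) (chainS6_circ hj hp)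

end Pool.Agent.Lib.MP_50b720_co
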