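import Pool.Agent.Lib.MP_50b720_co.Full.SplitPat

set_option autoImplicit false

namespace Pool.Agent.Lib.MP_50b720_co

open SimpleGraph

variable {V : Type*} {G : SimpleGraph V}

/-- `K` is a maximal clique of `G[U]` and `U \ K` is independent -/
structure SpM (G : SimpleGraph V) (U K : Set V) : Prop where
  mx : MaxClq G U K
  ind : ∀ x ∈ U \ K, ∀ y ∈ U \ K, ¬ G.Adj x y

lemma exists_spM [Finite V] {U : Set V} (h : SplitOn G U) : ∃ K, SpM G U K := by
  obtain ⟨K0, h0, h1, h2⟩ := h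
  obtain ⟨K, hK, hm⟩ := exists_maxClq h0 h1
  exact ⟨K, hm, fun x hx y hy => h2 x hx.1 y hy.1 (fun h => hx.2 (hK h)) (fun h => hy.2 (hK h))⟩

section

variable {U K : Set V}

lemma SpM.spl (h : SpM G U K) : Spl G K (U \ K) := ⟨h.mx.clq, h.ind, fun _ hx => hx.2⟩

lemma SpM.prop (h : SpM G U K) {x : V} (hx : x ∈ U \ K) : ∃ s ∈ K, ¬ G.Adj x s :=
  h.mx.max x hx.1 hx.2

lemma MinNC.spTwo [Finite V] (h : MinNC G U) (hs : SpM G U K) {x : V} (hx : x ∈ U \ K) :
    ∃ s ∈ K, ∃ t ∈ K, s ≠ t ∧ G.Adj x s ∧ G.Adj x t := by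
  obtain ⟨b, hb, hb'⟩ := hs.prop hx
  by_cases h1 : ∃ s ∈ K, G.Adj x s
  · obtain ⟨t, ht, hxt⟩ := h1
    by_contra hcon
    push Not at hcon
    refine h.one_sep (C := {x}) (t := t) (b := b) (by simpa using hx.1) ⟨x, rfl⟩
      (hs.mx.sub ht) ?_ (hs.mx.sub hb) ?_ ?_ ?_
    · intro h'; rw [Set.mem_singleton_iff] at h'; exact hx.2 (h' ▸ ht)
    · intro h'; rw [Set.mem_singleton_iff] at h'; exact hx.2 (h' ▸ hb)
    · intro h'; exact hb' (h' ▸ hxt)
    · intro z hz y hy hyC hyt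
      rw [Set.mem_singleton_iff] at hz
      subst hz
      by_cases hyK : y ∈ K
      · exact hcon t ht y hyK (Ne.symm hyt) hxt
      · exact hs.ind z hx y ⟨hy, hyK⟩
  · push Not at h1
    exfalso
    refine h.disj (X := {x}) (Y := U \ {x}) (Set.union_diff_cancel (by simpa using hx.1))
      Set.disjoint_sdiff_right ⟨x, rfl⟩ ⟨b, hs.mx.sub hb, ?_⟩ ?_
    · intro h'; rw [Set.mem_singleton_iff] at h'; exact hx.2 (h' ▸ hb)
    · intro z hz y hy
      rw [Set.mem_singleton_iff] at hz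
      subst hz
      by_cases hyK : y ∈ K
      · exact h1 y hyK
      · exact hs.ind z hx y ⟨hy.1, hyK⟩

/-- the members of `D` have different neighbourhoods -/
lemma MinNC.spDist [Finite V] (h : MinNC G U) (hs : SpM G U K) {x y : V} (hx : x ∈ U \ K)
    (hy : y ∈ U \ K) (hxy : x ≠ y) : ∃ s ∈ K, ¬ (G.Adj x s ↔ G.Adj y s) := by
  by_contra hcon
  push Not at hcon
  obtain ⟨t, ht, t', ht', htt, h1, _⟩ := h.spTwo hs hx
  obtain ⟨b, hb, hb'⟩ := hs.prop hx
  have hK : ∀ k ∈ K, k ∉ ({x, y} : Set V) := by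
    rintro k hk (rfl | h')
    · exact hx.2 hk
    · rw [Set.mem_singleton_iff] at h'; exact hy.2 (h' ▸ hk)
  have hun : ({x, y} : Set V) ∪ (U \ {x, y}) = U := Set.union_diff_cancel (by
    intro z hz
    rcases hz with rfl | hz
    · exact hx.1
    · rw [Set.mem_singleton_iff] at hz; subst hz; exact hy.1)
  refine h.split (x0 := x) (x1 := y) (y0 := t) (y1 := b) hun Set.disjoint_sdiff_right
    (by simp) ⟨hs.mx.sub ht, hK t ht⟩ (by simp) hxy.symm ⟨hs.mx.sub hb, hK b hb⟩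
    (fun h' => hb' (h' ▸ h1)) ?_
  intro z hz w hw
  have e1 := (hcon t ht).mp h1
  by_cases hwK : w ∈ K
  · have := hcon w hwK
    rcases hz with rfl | hz
    · tauto
    · rw [Set.mem_singleton_iff] at hz; subst hz; tauto
  · have m1 := hs.ind x hx w ⟨hw.1, hwK⟩
    have m2 := hs.ind y hy w ⟨hw.1, hwK⟩
    rcases hz with rfl | hz
    · tauto
    · rw [Set.mem_singleton_iff] at hz; subst hz; tauto

lemma MinNC.spNe [Finite V] (h : MinNC G U) (hs : SpM G U K) : ∃ x, x ∈ U \ K := by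
  by_contra hcon
  push Not at hcon
  apply h.nc
  have : U = K := Set.Subset.antisymm (fun x hx => by
    by_contra hxK
    exact hcon x ⟨hx, hxK⟩) hs.mx.sub
  rw [this]
  exact Circ.clique hs.mx.clq

/-- the members of `K` have different neighbourhoods -/
lemma MinNC.spTw [Finite V] (h : MinNC G U) (hs : SpM G U K) {s t : V} (hsK : s ∈ K)
    (htK : t ∈ K) (hst : s ≠ t) : ∃ x ∈ U \ K, ¬ (G.Adj x s ↔ G.Adj x t) := by
  by_contra hcon
  push Not at hcon
  obtain ⟨x, hx⟩ := h.spNe hs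
  obtain ⟨a, ha, b, hb, hab, hxa, hxb⟩ := h.spTwo hs hx
  obtain ⟨c, hc, hxc⟩ := hs.prop hx
  obtain ⟨k, hk, hks, hkt⟩ : ∃ k ∈ K, k ≠ s ∧ k ≠ t := by
    by_contra hcon
    push Not at hcon
    have e1 := hcon a ha
    have e2 := hcon b hb
    have e3 := hcon c hc
    have hac : a ≠ c := fun h' => hxc (h' ▸ hxa)
    have hbc : b ≠ c := fun h' => hxc (h' ▸ hxb)
    by_cases g1 : a = s
    · have g2 := e2 (fun h' => hab (g1.trans h'.symm))
      have g3 := e3 (fun h' => hac (g1.trans h'.symm))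
      exact hbc (g2.trans g3.symm)
    · have g1' := e1 g1
      by_cases g2 : b = s
      · have g3 := e3 (fun h' => hbc (g2.trans h'.symm))
        exact hac (g1'.trans g3.symm)
      · exact hab (g1'.trans (e2 g2).symm)
  have hun : ({s, t} : Set V) ∪ (U \ {s, t}) = U := Set.union_diff_cancel (by
    intro z hz
    rcases hz with rfl | hz
    · exact hs.mx.sub hsK
    · rw [Set.mem_singleton_iff] at hz; subst hz; exact hs.mx.sub htK)
  refine h.split (x0 := s) (x1 := t) (y0 := k) (y1 := x) hun Set.disjoint_sdiff_right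
    (by simp) ⟨hs.mx.sub hk, by simp [hks, hkt]⟩ (by simp) hst.symm ⟨hx.1, ?_⟩
    (fun h' => hx.2 (h' ▸ hk)) ?_
  · rintro (h' | h')
    · exact hx.2 (h' ▸ hsK)
    · rw [Set.mem_singleton_iff] at h'; exact hx.2 (h' ▸ htK)
  · intro z hz w hw
    have hw2 := hw.2
    simp only [Set.mem_insert_iff, Set.mem_singleton_iff, not_or] at hw2
    have k1 := hs.mx.clq s hsK k hk (Ne.symm hks)
    have k2 := hs.mx.clq t htK k hk (Ne.symm hkt)
    by_cases hwK : w ∈ K
    · have k3 := hs.mx.clq s hsK w hwK (Ne.symm hw2.1)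
      have k4 := hs.mx.clq t htK w hwK (Ne.symm hw2.2)
      rcases hz with rfl | hz
      · tauto
      · rw [Set.mem_singleton_iff] at hz; subst hz; tauto
    · have m1 := hcon w ⟨hw.1, hwK⟩
      rw [G.adj_comm w s, G.adj_comm w t] at m1
      rcases hz with rfl | hz
      · tauto
      · rw [Set.mem_singleton_iff] at hz; subst hz; tauto

end

end Pool.Agent.Lib.MP_50b720_co
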