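import Pool.Agent.Lib.MP_50b720_co.Full.RootMain

set_option autoImplicit false

namespace Pool.Agent.Lib.MP_50b720_co

open SimpleGraph

variable {V : Type*} {G : SimpleGraph V} {U K : Set V} {v : V}

/-- neighbours of `v` in `K` -/
def NK (G : SimpleGraph V) (K : Set V) (v : V) : Set V := {s ∈ K | G.Adj v s}
/-- nonneighbours of `v` in `K` -/
def MK (G : SimpleGraph V) (K : Set V) (v : V) : Set V := {s ∈ K | ¬ G.Adj v s}
/-- vertices outside `K` with a neighbour in `K` which is not a neighbour of `v` -/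
def EK (G : SimpleGraph V) (U K : Set V) (v : V) : Set V :=
  {y ∈ U \ K | ∃ w ∈ MK G K v, G.Adj y w}
/-- further vertices outside `K` -/
def DK (G : SimpleGraph V) (U K : Set V) (v : V) : Set V :=
  {d ∈ U \ K | d ≠ v ∧ ∀ w ∈ MK G K v, ¬ G.Adj d w}

lemma SpM.root [Finite V] (h : MinNC G U) (hs : SpM G U K) (hv : v ∈ U \ K) :
    RootConf G K (U \ K) (NK G K v) (MK G K v) (EK G U K v) (DK G U K v) v where
  spl := hs.spl
  SK := fun _ hx => hx.1
  WK := fun _ hx => hx.1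
  ED := fun _ hx => hx.1
  DD := fun _ hx => hx.1
  vD := hv
  vS := fun _ hx => hx.2
  vW := fun _ hx => hx.2
  EW := fun _ hx => hx.2
  DW := fun _ hd w hw => hd.2.2 w hw
  Dpr := by
    intro d hd
    obtain ⟨s, hsK, hne⟩ := h.spDist hs hd.1 hv hd.2.1
    by_cases h1 : G.Adj v s
    · exact ⟨s, ⟨hsK, h1⟩, fun h2 => hne ⟨fun _ => h1, fun _ => h2⟩⟩
    · exact absurd ⟨fun h2 => absurd h2 (hd.2.2 s ⟨hsK, h1⟩), fun h2 => absurd h2 h1⟩ hne

lemma SpM.cover (hs : SpM G U K) (hv : v ∈ U \ K) :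
    U = MK G K v ∪ EK G U K v ∪ DK G U K v ∪ NK G K v ∪ {v} := by
  apply Set.Subset.antisymm
  · intro x hx
    by_cases hxK : x ∈ K
    · by_cases h1 : G.Adj v x
      · exact Or.inl (Or.inr ⟨hxK, h1⟩)
      · exact Or.inl (Or.inl (Or.inl (Or.inl ⟨hxK, h1⟩)))
    · by_cases hxv : x = v
      · exact Or.inr hxv
      · by_cases h1 : ∃ w ∈ MK G K v, G.Adj x w
        · exact Or.inl (Or.inl (Or.inl (Or.inr ⟨⟨hx, hxK⟩, h1⟩)))
        · push Not at h1
          exact Or.inl (Or.inl (Or.inr ⟨⟨hx, hxK⟩, hxv, h1⟩))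
  · rintro x ((((hx | hx) | hx) | hx) | hx)
    · exact hs.mx.sub hx.1
    · exact hx.1.1
    · exact hx.1.1
    · exact hs.mx.sub hx.1
    · rw [Set.mem_singleton_iff] at hx; rw [hx]; exact hv.1

lemma SpM.Dne [Finite V] (h : MinNC G U) (hs : SpM G U K) :
    ∀ d ∈ DK G U K v, ∃ s ∈ NK G K v, G.Adj d s := by
  intro d hd
  obtain ⟨s, hsK, _, _, _, hds, _⟩ := h.spTwo hs hd.1
  refine ⟨s, ⟨hsK, ?_⟩, hds⟩
  by_contra h1
  exact hd.2.2 s ⟨hsK, h1⟩ hds

lemma SpM.Ddist [Finite V] (h : MinNC G U) (hs : SpM G U K) :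
    ∀ d ∈ DK G U K v, ∀ e ∈ DK G U K v, d ≠ e → ∃ s ∈ NK G K v, ¬ (G.Adj d s ↔ G.Adj e s) := by
  intro d hd e he hne
  obtain ⟨s, hsK, hds⟩ := h.spDist hs hd.1 he.1 hne
  refine ⟨s, ⟨hsK, ?_⟩, hds⟩
  by_contra h1
  exact hds (iff_of_false (hd.2.2 s ⟨hsK, h1⟩) (he.2.2 s ⟨hsK, h1⟩))

theorem root_two [Finite V] (hG : NoListed G) (h : MinNC G U) (hs : SpM G U K)
    (hv : v ∈ U \ K) (hD : (DK G U K v).Nonempty) {w w' : V} (hw : w ∈ MK G K v)
    (hw' : w' ∈ MK G K v) (hne : w ≠ w') : False := by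
  have hr := hs.root h hv
  refine root_false hG h hr (hs.cover hv) hD (hs.Dne h) (hs.Ddist h) (fun s hs hs' => hs'.2 hs.2)
    (B1 := {w} ∪ {y ∈ EK G U K v | G.Adj y w})
    (B2 := {k ∈ MK G K v | k ≠ w} ∪ {y ∈ EK G U K v | ∃ k ∈ MK G K v, k ≠ w ∧ G.Adj y k})
    ?_ ?_ ?_ ?_ ?_ ?_ ?_ ⟨w, hw, Or.inl rfl⟩ ⟨w', hw', Or.inl ⟨hw', hne.symm⟩⟩
  · rintro x (hx | hx)
    · rw [Set.mem_singleton_iff] at hx; rw [hx]; exact Or.inl hw
    · exact Or.inr hx.1
  · rintro x (hx | hx)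
    · exact Or.inl hx.1
    · exact Or.inr hx.1
  · rintro x (hx | hx)
    · by_cases h1 : x = w
      · exact Or.inl (Or.inl h1)
      · exact Or.inr (Or.inl ⟨hx, h1⟩)
    · by_cases h1 : G.Adj x w
      · exact Or.inl (Or.inr ⟨hx, h1⟩)
      · right; right
        obtain ⟨k, hk, hxk⟩ := hx.2
        exact ⟨hx, k, hk, fun h' => h1 (h' ▸ hxk), hxk⟩
  · refine cn_star ⟨w, rfl⟩ ?_ ?_
    · intro x hx y hy hxy
      exact absurd ((Set.mem_singleton_iff.mp hx).trans (Set.mem_singleton_iff.mp hy).symm) hxy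
    · intro y hy; exact ⟨w, rfl, hy.2⟩
  · refine cn_star ⟨w', hw', hne.symm⟩ ?_ ?_
    · intro x hx y hy; exact hs.mx.clq x hx.1.1 y hy.1.1
    · rintro y ⟨_, k, hk, hkw, hyk⟩; exact ⟨k, ⟨hk, hkw⟩, hyk⟩
  · refine ⟨w', Or.inl hw', ?_⟩
    rintro (h' | h')
    · exact hne (Set.mem_singleton_iff.mp h').symm
    · exact h'.1.1.2 hw'.1
  · refine ⟨w, Or.inl hw, ?_⟩
    rintro (h' | h')
    · exact h'.2 rfl
    · exact h'.1.1.2 hw.1

theorem root_one [Finite V] (hG : NoListed G) (h : MinNC G U) (hs : SpM G U K)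
    (hv : v ∈ U \ K) (hD : (DK G U K v).Nonempty) {w y y' : V} (hw : w ∈ MK G K v)
    (hall : ∀ w' ∈ MK G K v, w' = w) (hy : y ∈ EK G U K v) (hy' : y' ∈ EK G U K v)
    (hne : y ≠ y') : False := by
  have hr := hs.root h hv
  have hEw : ∀ x ∈ EK G U K v, G.Adj x w := by
    intro x hx
    obtain ⟨k, hk, hxk⟩ := hx.2
    rw [← hall k hk]; exact hxk
  refine root_false hG h hr (hs.cover hv) hD (hs.Dne h) (hs.Ddist h) (fun s hs hs' => hs'.2 hs.2)
    (B1 := {w} ∪ {y}) (B2 := {w} ∪ {x ∈ EK G U K v | x ≠ y})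
    ?_ ?_ ?_ ?_ ?_ ?_ ?_ ⟨w, hw, Or.inl rfl⟩ ⟨w, hw, Or.inl rfl⟩
  · rintro x (hx | hx)
    · rw [Set.mem_singleton_iff] at hx; rw [hx]; exact Or.inl hw
    · rw [Set.mem_singleton_iff] at hx; rw [hx]; exact Or.inr hy
  · rintro x (hx | hx)
    · rw [Set.mem_singleton_iff] at hx; rw [hx]; exact Or.inl hw
    · exact Or.inr hx.1
  · rintro x (hx | hx)
    · exact Or.inl (Or.inl (hall x hx))
    · by_cases h1 : x = y
      · exact Or.inl (Or.inr h1)
      · exact Or.inr (Or.inr ⟨hx, h1⟩)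
  · refine cn_star ⟨w, rfl⟩ ?_ ?_
    · intro x hx y hy hxy
      exact absurd ((Set.mem_singleton_iff.mp hx).trans (Set.mem_singleton_iff.mp hy).symm) hxy
    · intro x hx; rw [Set.mem_singleton_iff] at hx; rw [hx]; exact ⟨w, rfl, hEw y hy⟩
  · refine cn_star ⟨w, rfl⟩ ?_ ?_
    · intro x hx y hy hxy
      exact absurd ((Set.mem_singleton_iff.mp hx).trans (Set.mem_singleton_iff.mp hy).symm) hxy
    · intro x hx; exact ⟨w, rfl, hEw x hx.1⟩
  · refine ⟨y', Or.inr hy', ?_⟩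
    rintro (h' | h')
    · rw [Set.mem_singleton_iff] at h'; exact hy'.1.2 (h' ▸ hw.1)
    · exact hne (Set.mem_singleton_iff.mp h').symm
  · refine ⟨y, Or.inr hy, ?_⟩
    rintro (h' | h')
    · rw [Set.mem_singleton_iff] at h'; exact hy.1.2 (h' ▸ hw.1)
    · exact h'.2 rfl

/-- reduction to cuts -/
theorem root_cut [Finite V] (hG : NoListed G) (h : MinNC G U) (hs : SpM G U K)
    (hv : v ∈ U \ K) (hD : (DK G U K v).Nonempty) :
    ∃ w y, MK G K v = {w} ∧ EK G U K v = {y} ∧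
      ∀ d ∈ DK G U K v, ∀ e ∈ DK G U K v, d ≠ e → ∃ s ∈ NK G K v, G.Adj d s ∧ ¬ G.Adj e s := by
  obtain ⟨w, hwK, hvw⟩ := hs.prop hv
  have hw : w ∈ MK G K v := ⟨hwK, hvw⟩
  have hall : ∀ w' ∈ MK G K v, w' = w := by
    intro w' hw'
    by_contra hne
    exact root_two hG h hs hv hD hw' hw hne
  have hE : ∃ y, y ∈ EK G U K v := by
    by_contra hcon
    push Not at hcon
    obtain ⟨s, hsK, t, htK, hst, h1, h2⟩ := h.spTwo hs hv
    have hvw' : v ≠ w := fun h' => hv.2 (h' ▸ hwK)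
    have hun : ({v, w} : Set V) ∪ (U \ {v, w}) = U := Set.union_diff_cancel (by
      intro z hz
      rcases hz with rfl | hz
      · exact hv.1
      · rw [Set.mem_singleton_iff] at hz; subst hz; exact hs.mx.sub hwK)
    have hK : ∀ k ∈ K, G.Adj v k → k ∉ ({v, w} : Set V) := by
      rintro k hk h3 (h' | h')
      · exact hv.2 (h' ▸ hk)
      · rw [Set.mem_singleton_iff] at h'; exact hvw (h' ▸ h3)
    refine h.split (x0 := v) (x1 := w) (y0 := s) (y1 := t) hun Set.disjoint_sdiff_right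
      (by simp) ⟨hs.mx.sub hsK, hK s hsK h1⟩ (by simp) hvw'.symm ⟨hs.mx.sub htK, hK t htK h2⟩
      hst.symm ?_
    intro z hz x hx
    have hws : G.Adj w s := hs.mx.clq w hwK s hsK (fun h' => hvw (h' ▸ h1))
    have hx2 := hx.2
    simp only [Set.mem_insert_iff, Set.mem_singleton_iff, not_or] at hx2
    by_cases hxK : x ∈ K
    · have e1 : G.Adj v x := by
        by_contra h3
        exact hx2.2 (hall x ⟨hxK, h3⟩)
      have e2 : G.Adj w x := hs.mx.clq w hwK x hxK (Ne.symm hx2.2)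
      rcases hz with rfl | hz
      · tauto
      · rw [Set.mem_singleton_iff] at hz; subst hz; tauto
    · have e1 := hs.ind v hv x ⟨hx.1, hxK⟩
      have e2 : ¬ G.Adj w x := fun h3 => hcon x ⟨⟨hx.1, hxK⟩, w, hw, h3.symm⟩
      rcases hz with rfl | hz
      · tauto
      · rw [Set.mem_singleton_iff] at hz; subst hz; tauto
  obtain ⟨y, hy⟩ := hE
  refine ⟨w, y, ?_, ?_, ?_⟩
  · apply Set.Subset.antisymm
    · intro x hx; exact hall x hx
    · intro x hx; rw [Set.mem_singleton_iff] at hx; rw [hx]; exact hw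
  · apply Set.Subset.antisymm
    · intro x hx
      by_contra hne
      exact root_one hG h hs hv hD hw hall hx hy hne
    · intro x hx; rw [Set.mem_singleton_iff] at hx; rw [hx]; exact hy
  · intro d hd e he hne
    by_contra hcon
    push Not at hcon
    have hr := hs.root h hv
    obtain ⟨s, hsS, hes⟩ := hr.Dpr e he
    have hwe : ¬ G.Adj e w := he.2.2 w hw
    refine root_two hG h hs he.1 (w := w) (w' := s) ⟨d, hd.1, hne, ?_⟩ ⟨hwK, hwe⟩ ⟨hsS.1, hes⟩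
      (fun h' => hvw (h' ▸ hsS.2))
    intro k hk hdk
    by_cases h3 : G.Adj v k
    · exact hk.2 (hcon k ⟨hk.1, h3⟩ hdk)
    · exact hd.2.2 k ⟨hk.1, h3⟩ hdk

end Pool.Agent.Lib.MP_50b720_co
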