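import Pool.Agent.Lib.MP_50b720_co.Full.Structure
import Pool.Agent.Lib.MP_50b720_co.Final

set_option autoImplicit false

namespace Pool.Agent.Lib.MP_50b720_co

open SimpleGraph

variable {V : Type*}

/-- `K` is a clique and `D` is an independent set disjoint from `K` -/
structure Spl (G : SimpleGraph V) (K D : Set V) : Prop where
  clq : Clq G K
  ind : ∀ x ∈ D, ∀ y ∈ D, ¬ G.Adj x y
  dis : ∀ x ∈ D, x ∉ K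

lemma Spl.ne {G : SimpleGraph V} {K D : Set V} (h : Spl G K D) {x k : V} (hx : x ∈ D)
    (hk : k ∈ K) : x ≠ k := fun h' => h.dis x hx (h' ▸ hk)

lemma Spl.na {G : SimpleGraph V} {K D : Set V} (h : Spl G K D) {x k : V} (hx : x ∈ D)
    (hk : k ∈ K) (hn : ¬ G.Adj x k) : NA G k x := ⟨(h.ne hx hk).symm, fun h' => hn h'.symm⟩

lemma Spl.naD {G : SimpleGraph V} {K D : Set V} (h : Spl G K D) {x y k : V} (hx : x ∈ D)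
    (hy : y ∈ D) (h1 : G.Adj x k) (h2 : ¬ G.Adj y k) : NA G x y :=
  ⟨fun h' => h2 (h' ▸ h1), h.ind x hx y hy⟩

lemma Spl.adjK {G : SimpleGraph V} {K D : Set V} (h : Spl G K D) {x k l : V} (hk : k ∈ K)
    (hl : l ∈ K) (h1 : G.Adj x k) (h2 : ¬ G.Adj x l) : G.Adj k l :=
  h.clq k hk l hl (fun h' => h2 (h' ▸ h1))

lemma Spl.mono {G : SimpleGraph V} {K D K' D' : Set V} (h : Spl G K D) (hK : K' ⊆ K)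
    (hD : D' ⊆ D) : Spl G K' D' :=
  ⟨fun x hx y hy => h.clq x (hK hx) y (hK hy), fun x hx y hy => h.ind x (hD hx) y (hD hy),
    fun x hx hk => h.dis x (hD hx) (hK hk)⟩

lemma Spl.star_false {G : SimpleGraph V} {K D : Set V} (hG : NoListed G) (h : Spl G K D) {k0 k1 k2
    k3 d0 d1 d2 : V} (hk0 : k0 ∈ K) (hk1 : k1 ∈ K) (hk2 : k2 ∈ K) (hk3 : k3 ∈ K) (hd0 : d0 ∈ D)
    (hd1 : d1 ∈ D) (hd2 : d2 ∈ D) (e00 : G.Adj d0 k0) (e01 : G.Adj d0 k1) (n02 : ¬ G.Adj d0 k2)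
    (n03 : ¬ G.Adj d0 k3) (e10 : G.Adj d1 k0) (n11 : ¬ G.Adj d1 k1) (e12 : G.Adj d1 k2) (n13 : ¬
    G.Adj d1 k3) (e20 : G.Adj d2 k0) (n21 : ¬ G.Adj d2 k1) (n22 : ¬ G.Adj d2 k2) (e23 : G.Adj d2
    k3) : False := by
  exact sp0_false hG (h.adjK hk0 hk1 e10 n11) (h.adjK hk0 hk2 e00 n02) (h.adjK hk0 hk3 e00 n03)
    e00.symm e10.symm e20.symm (h.adjK hk1 hk2 e01 n02) (h.adjK hk1 hk3 e01 n03) e01.symm (h.na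
    hd1 hk1 n11) (h.na hd2 hk1 n21) (h.adjK hk2 hk3 e12 n13) (h.na hd0 hk2 n02) e12.symm (h.na hd2
    hk2 n22) (h.na hd0 hk3 n03) (h.na hd1 hk3 n13) e23.symm (h.naD hd0 hd1 e01 n11) (h.naD hd0 hd2
    e01 n21) (h.naD hd1 hd2 e12 n22)

lemma Spl.tent_false {G : SimpleGraph V} {K D : Set V} (hG : NoListed G) (h : Spl G K D) {k0 k1 k2
    k3 d0 d1 d2 : V} (hk0 : k0 ∈ K) (hk1 : k1 ∈ K) (hk2 : k2 ∈ K) (hk3 : k3 ∈ K) (hd0 : d0 ∈ D)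
    (hd1 : d1 ∈ D) (hd2 : d2 ∈ D) (e00 : G.Adj d0 k0) (e01 : G.Adj d0 k1) (e02 : G.Adj d0 k2) (n03
    : ¬ G.Adj d0 k3) (e10 : G.Adj d1 k0) (n11 : ¬ G.Adj d1 k1) (e12 : G.Adj d1 k2) (e13 : G.Adj d1
    k3) (e20 : G.Adj d2 k0) (e21 : G.Adj d2 k1) (n22 : ¬ G.Adj d2 k2) (e23 : G.Adj d2 k3) : False
    := by
  exact sp16_false hG (h.adjK hk0 hk1 e10 n11) (h.adjK hk0 hk2 e20 n22) (h.adjK hk0 hk3 e00 n03)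
    e00.symm e10.symm e20.symm (h.adjK hk2 hk1 e12 n11).symm (h.adjK hk1 hk3 e01 n03) e01.symm
    (h.na hd1 hk1 n11) e21.symm (h.adjK hk2 hk3 e02 n03) e02.symm e12.symm (h.na hd2 hk2 n22)
    (h.na hd0 hk3 n03) e13.symm e23.symm (h.naD hd0 hd1 e01 n11) (h.naD hd0 hd2 e02 n22) (h.naD
    hd1 hd2 e12 n22)

lemma Spl.h819_false {G : SimpleGraph V} {K D : Set V} (hG : NoListed G) (h : Spl G K D) {k0 k1 k2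
    k3 k4 d0 d1 d2 : V} (hk0 : k0 ∈ K) (hk1 : k1 ∈ K) (hk2 : k2 ∈ K) (hk3 : k3 ∈ K) (hk4 : k4 ∈ K)
    (hd0 : d0 ∈ D) (hd1 : d1 ∈ D) (hd2 : d2 ∈ D) (e00 : G.Adj d0 k0) (e01 : G.Adj d0 k1) (e02 :
    G.Adj d0 k2) (n03 : ¬ G.Adj d0 k3) (n04 : ¬ G.Adj d0 k4) (e10 : G.Adj d1 k0) (n11 : ¬ G.Adj d1
    k1) (e12 : G.Adj d1 k2) (e13 : G.Adj d1 k3) (n14 : ¬ G.Adj d1 k4) (e20 : G.Adj d2 k0) (n21 : ¬
    G.Adj d2 k1) (n22 : ¬ G.Adj d2 k2) (e23 : G.Adj d2 k3) (e24 : G.Adj d2 k4) : False := by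
  exact sp17_false hG (h.adjK hk0 hk1 e10 n11) (h.adjK hk0 hk2 e20 n22) (h.adjK hk0 hk3 e00 n03)
    (h.adjK hk0 hk4 e00 n04) e00.symm e10.symm e20.symm (h.adjK hk2 hk1 e12 n11).symm (h.adjK hk1
    hk3 e01 n03) (h.adjK hk1 hk4 e01 n04) e01.symm (h.na hd1 hk1 n11) (h.na hd2 hk1 n21) (h.adjK
    hk2 hk3 e02 n03) (h.adjK hk2 hk4 e02 n04) e02.symm e12.symm (h.na hd2 hk2 n22) (h.adjK hk3 hk4
    e13 n14) (h.na hd0 hk3 n03) e13.symm e23.symm (h.na hd0 hk4 n04) (h.na hd1 hk4 n14) e24.symm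
    (h.naD hd0 hd1 e01 n11) (h.naD hd0 hd2 e01 n21) (h.naD hd1 hd2 e12 n22)

lemma Spl.h921_false {G : SimpleGraph V} {K D : Set V} (hG : NoListed G) (h : Spl G K D) {k0 k1 k2
    k3 k4 d0 d1 d2 d3 : V} (hk0 : k0 ∈ K) (hk1 : k1 ∈ K) (hk2 : k2 ∈ K) (hk3 : k3 ∈ K) (hk4 : k4 ∈
    K) (hd0 : d0 ∈ D) (hd1 : d1 ∈ D) (hd2 : d2 ∈ D) (hd3 : d3 ∈ D) (n00 : ¬ G.Adj d0 k0) (e01 :
    G.Adj d0 k1) (e02 : G.Adj d0 k2) (e03 : G.Adj d0 k3) (e04 : G.Adj d0 k4) (e10 : G.Adj d1 k0)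
    (n11 : ¬ G.Adj d1 k1) (n12 : ¬ G.Adj d1 k2) (e13 : G.Adj d1 k3) (e14 : G.Adj d1 k4) (n20 : ¬
    G.Adj d2 k0) (e21 : G.Adj d2 k1) (n22 : ¬ G.Adj d2 k2) (e23 : G.Adj d2 k3) (n24 : ¬ G.Adj d2
    k4) (n30 : ¬ G.Adj d3 k0) (n31 : ¬ G.Adj d3 k1) (e32 : G.Adj d3 k2) (n33 : ¬ G.Adj d3 k3) (e34
    : G.Adj d3 k4) : False := by
  exact sp18_false hG (h.adjK hk1 hk0 e01 n00).symm (h.adjK hk2 hk0 e02 n00).symm (h.adjK hk3 hk0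
    e03 n00).symm (h.adjK hk4 hk0 e04 n00).symm (h.na hd0 hk0 n00) e10.symm (h.na hd2 hk0 n20)
    (h.na hd3 hk0 n30) (h.adjK hk1 hk2 e21 n22) (h.adjK hk3 hk1 e13 n11).symm (h.adjK hk4 hk1 e14
    n11).symm e01.symm (h.na hd1 hk1 n11) e21.symm (h.na hd3 hk1 n31) (h.adjK hk3 hk2 e13
    n12).symm (h.adjK hk4 hk2 e14 n12).symm e02.symm (h.na hd1 hk2 n12) (h.na hd2 hk2 n22)
    e32.symm (h.adjK hk3 hk4 e23 n24) e03.symm e13.symm e23.symm (h.na hd3 hk3 n33) e04.symm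
    e14.symm (h.na hd2 hk4 n24) e34.symm (h.naD hd0 hd1 e01 n11) (h.naD hd0 hd2 e02 n22) (h.naD
    hd0 hd3 e01 n31) (h.naD hd1 hd2 e10 n20) (h.naD hd1 hd3 e10 n30) (h.naD hd2 hd3 e21 n31)

lemma Spl.h1024_false {G : SimpleGraph V} {K D : Set V} (hG : NoListed G) (h : Spl G K D) {k0 k1
    k2 k3 k4 k5 d0 d1 d2 d3 : V} (hk0 : k0 ∈ K) (hk1 : k1 ∈ K) (hk2 : k2 ∈ K) (hk3 : k3 ∈ K) (hk4
    : k4 ∈ K) (hk5 : k5 ∈ K) (hd0 : d0 ∈ D) (hd1 : d1 ∈ D) (hd2 : d2 ∈ D) (hd3 : d3 ∈ D) (e00 :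
    G.Adj d0 k0) (e01 : G.Adj d0 k1) (e02 : G.Adj d0 k2) (n03 : ¬ G.Adj d0 k3) (n04 : ¬ G.Adj d0
    k4) (n05 : ¬ G.Adj d0 k5) (e10 : G.Adj d1 k0) (n11 : ¬ G.Adj d1 k1) (n12 : ¬ G.Adj d1 k2) (e13
    : G.Adj d1 k3) (n14 : ¬ G.Adj d1 k4) (n15 : ¬ G.Adj d1 k5) (n20 : ¬ G.Adj d2 k0) (e21 : G.Adj
    d2 k1) (n22 : ¬ G.Adj d2 k2) (n23 : ¬ G.Adj d2 k3) (e24 : G.Adj d2 k4) (n25 : ¬ G.Adj d2 k5)
    (n30 : ¬ G.Adj d3 k0) (n31 : ¬ G.Adj d3 k1) (e32 : G.Adj d3 k2) (n33 : ¬ G.Adj d3 k3) (n34 : ¬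
    G.Adj d3 k4) (e35 : G.Adj d3 k5) : False := by
  exact sp19_false hG (h.adjK hk0 hk1 e10 n11) (h.adjK hk0 hk2 e10 n12) (h.adjK hk0 hk3 e00 n03)
    (h.adjK hk0 hk4 e00 n04) (h.adjK hk0 hk5 e00 n05) e00.symm e10.symm (h.na hd2 hk0 n20) (h.na
    hd3 hk0 n30) (h.adjK hk1 hk2 e21 n22) (h.adjK hk1 hk3 e01 n03) (h.adjK hk1 hk4 e01 n04)
    (h.adjK hk1 hk5 e01 n05) e01.symm (h.na hd1 hk1 n11) e21.symm (h.na hd3 hk1 n31) (h.adjK hk2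
    hk3 e02 n03) (h.adjK hk2 hk4 e02 n04) (h.adjK hk2 hk5 e02 n05) e02.symm (h.na hd1 hk2 n12)
    (h.na hd2 hk2 n22) e32.symm (h.adjK hk3 hk4 e13 n14) (h.adjK hk3 hk5 e13 n15) (h.na hd0 hk3
    n03) e13.symm (h.na hd2 hk3 n23) (h.na hd3 hk3 n33) (h.adjK hk4 hk5 e24 n25) (h.na hd0 hk4
    n04) (h.na hd1 hk4 n14) e24.symm (h.na hd3 hk4 n34) (h.na hd0 hk5 n05) (h.na hd1 hk5 n15)
    (h.na hd2 hk5 n25) e35.symm (h.naD hd0 hd1 e01 n11) (h.naD hd0 hd2 e00 n20) (h.naD hd0 hd3 e00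
    n30) (h.naD hd1 hd2 e10 n20) (h.naD hd1 hd3 e10 n30) (h.naD hd2 hd3 e21 n31)

lemma Spl.csun_false {G : SimpleGraph V} {K D : Set V} (hG : NoListed G) (h : Spl G K D) {k0 k1 k2
    k3 d0 d1 d2 : V} (hk0 : k0 ∈ K) (hk1 : k1 ∈ K) (hk2 : k2 ∈ K) (hk3 : k3 ∈ K) (hd0 : d0 ∈ D)
    (hd1 : d1 ∈ D) (hd2 : d2 ∈ D) (e00 : G.Adj d0 k0) (e01 : G.Adj d0 k1) (n02 : ¬ G.Adj d0 k2)
    (n03 : ¬ G.Adj d0 k3) (n10 : ¬ G.Adj d1 k0) (e11 : G.Adj d1 k1) (e12 : G.Adj d1 k2) (n13 : ¬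
    G.Adj d1 k3) (e20 : G.Adj d2 k0) (n21 : ¬ G.Adj d2 k1) (e22 : G.Adj d2 k2) (n23 : ¬ G.Adj d2
    k3) : False := by
  exact csun3_false hG (h.adjK hk1 hk0 e11 n10).symm (h.adjK hk0 hk2 e00 n02) (h.adjK hk0 hk3 e00
    n03) e00.symm (h.na hd1 hk0 n10) e20.symm (h.adjK hk1 hk2 e01 n02) (h.adjK hk1 hk3 e01 n03)
    e01.symm e11.symm (h.na hd2 hk1 n21) (h.adjK hk2 hk3 e12 n13) (h.na hd0 hk2 n02) e12.symm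
    e22.symm (h.na hd0 hk3 n03) (h.na hd1 hk3 n13) (h.na hd2 hk3 n23) (h.naD hd0 hd1 e00 n10)
    (h.naD hd0 hd2 e01 n21) (h.naD hd1 hd2 e11 n21)

end Pool.Agent.Lib.MP_50b720_co
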