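import Pool.Agent.Lib.MP_50b720_co.Listed
import Pool.Agent.Lib.MP_50b720_co.Full.ListDefs

set_option autoImplicit false

/-!
# The sporadic graphs are chordal, not circle graphs, and minimal

Certificates, checked by the kernel: an elimination order, a contradictory sum of Naji equations,
and for every vertex a double occurrence word of the graph without this vertex.
-/

namespace Pool.Agent.Lib.MP_50b720_co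

open SimpleGraph

/-- adjacency on natural numbers -/
def adjB (L : List (ℕ × ℕ)) (a b : ℕ) : Bool :=
  decide (a ≠ b) && (L.contains (a, b) || L.contains (b, a))

lemma adjB_iff {n : ℕ} {L : List (ℕ × ℕ)} (a b : Fin n) :
    (ofEdges n L).Adj a b ↔ adjB L a.val b.val = true := by
  unfold ofEdges adjB
  rw [SimpleGraph.fromRel_adj]
  simp [Fin.ext_iff]

/-! ### Elimination orders -/

/-- `r` is an elimination order -/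
def rankOK (n : ℕ) (L : List (ℕ × ℕ)) (r : List ℕ) : Bool :=
  (List.range n).all fun x => (List.range n).all fun y => (List.range n).all fun z =>
    !(adjB L x y && adjB L x z && decide (y ≠ z) && decide (r.getD x 0 ≤ r.getD y 0) &&
      decide (r.getD x 0 ≤ r.getD z 0)) || adjB L y z

lemma rankOK_sound {n : ℕ} {L : List (ℕ × ℕ)} {r : List ℕ} (h : rankOK n L r = true) :
    IsChordal (ofEdges n L) := by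
  refine chordal_of_rank (fun x => r.getD x.val 0) ?_
  intro x y z hxy hxz hyz h1 h2
  unfold rankOK at h
  rw [List.all_eq_true] at h
  have h3 := h x.val (List.mem_range.mpr x.isLt)
  rw [List.all_eq_true] at h3
  have h4 := h3 y.val (List.mem_range.mpr y.isLt)
  rw [List.all_eq_true] at h4
  have h5 := h4 z.val (List.mem_range.mpr z.isLt)
  rw [adjB_iff] at hxy hxz ⊢
  have hne : y.val ≠ z.val := fun h => hyz (Fin.ext h)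
  beta_reduce at h1 h2
  simpa only [hxy, hxz, hne, h1, h2, ne_eq, not_false_eq_true, decide_true, Bool.and_self,
    Bool.not_true, Bool.false_or] using h5

/-! ### Naji certificates -/

/-- the unknowns of an equation `(t, x, y, z)` of type `t` -/
def eqTerms (e : ℕ × ℕ × ℕ × ℕ) : List (ℕ × ℕ) :=
  if e.1 = 1 then [(e.2.1, e.2.2.1), (e.2.2.1, e.2.1)]
  else if e.1 = 2 then [(e.2.1, e.2.2.1), (e.2.1, e.2.2.2)]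
  else [(e.2.2.1, e.2.2.2), (e.2.2.2, e.2.2.1), (e.2.1, e.2.2.1), (e.2.1, e.2.2.2)]

/-- the right-hand side -/
def eqRhs (e : ℕ × ℕ × ℕ × ℕ) : ℕ := if e.1 = 1 then 1 else if e.1 = 2 then 0 else 1

/-- the equation is one of Naji's equations -/
def eqOK (n : ℕ) (L : List (ℕ × ℕ)) (e : ℕ × ℕ × ℕ × ℕ) : Bool :=
  decide (e.2.1 < n) && decide (e.2.2.1 < n) && decide (e.2.2.2 < n) &&
  if e.1 = 1 then adjB L e.2.1 e.2.2.1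
  else if e.1 = 2 then decide (e.2.1 ≠ e.2.2.1) && decide (e.2.1 ≠ e.2.2.2) &&
    !(adjB L e.2.1 e.2.2.1) && !(adjB L e.2.1 e.2.2.2) && adjB L e.2.2.1 e.2.2.2
  else decide (e.2.2.1 ≠ e.2.2.2) && adjB L e.2.1 e.2.2.1 && adjB L e.2.1 e.2.2.2 &&
    !(adjB L e.2.2.1 e.2.2.2)

lemma eqOK_sound {n : ℕ} {L : List (ℕ × ℕ)} {β : Fin n → Fin n → ZMod 2}
    (hβ : IsNaji (ofEdges n L) β) {b : ℕ → ℕ → ZMod 2} (hb : ∀ x y : Fin n, b x.val y.val = β x y)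
    {e : ℕ × ℕ × ℕ × ℕ} (he : eqOK n L e = true) :
    ((eqTerms e).map (fun p => b p.1 p.2)).sum = ((eqRhs e : ℕ) : ZMod 2) := by
  obtain ⟨n1, n2, n3⟩ := hβ
  have hb' : ∀ x y : ℕ, ∀ (hx : x < n) (hy : y < n), b x y = β ⟨x, hx⟩ ⟨y, hy⟩ :=
    fun x y hx hy => hb ⟨x, hx⟩ ⟨y, hy⟩
  obtain ⟨t, x, y, z⟩ := e
  unfold eqOK at he
  unfold eqTerms eqRhs
  simp only [Bool.and_eq_true, decide_eq_true_eq] at he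
  obtain ⟨⟨⟨hx, hy⟩, hz⟩, he⟩ := he
  by_cases t1 : t = 1
  · simp only [t1, if_true] at he ⊢
    have := n1 ⟨x, hx⟩ ⟨y, hy⟩ ((adjB_iff _ _).mpr he)
    simp only [List.map_cons, List.map_nil, List.sum_cons, List.sum_nil, add_zero, Nat.cast_one]
    rw [hb' x y hx hy, hb' y x hy hx]
    exact this
  by_cases t2 : t = 2
  · simp only [t2, if_true, OfNat.ofNat_ne_one, if_false, Bool.and_eq_true, decide_eq_true_eq,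
      Bool.not_eq_true'] at he ⊢
    obtain ⟨⟨⟨⟨h1, h2⟩, h3⟩, h4⟩, h5⟩ := he
    have := n2 ⟨x, hx⟩ ⟨y, hy⟩ ⟨z, hz⟩ (fun h => h1 (Fin.mk.inj_iff.mp h))
      (fun h => h2 (Fin.mk.inj_iff.mp h)) (by rw [adjB_iff]; simp [h3])
      (by rw [adjB_iff]; simp [h4]) ((adjB_iff _ _).mpr h5)
    simp only [List.map_cons, List.map_nil, List.sum_cons, List.sum_nil, add_zero, Nat.cast_zero]
    rw [hb' x y hx hy, hb' x z hx hz, this]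
    exact zmod2_add_self _
  · simp only [t1, t2, if_false, Bool.and_eq_true, decide_eq_true_eq, Bool.not_eq_true'] at he ⊢
    obtain ⟨⟨⟨h1, h2⟩, h3⟩, h4⟩ := he
    have := n3 ⟨x, hx⟩ ⟨y, hy⟩ ⟨z, hz⟩ ((adjB_iff _ _).mpr h2) ((adjB_iff _ _).mpr h3)
      (by rw [adjB_iff]; simp [h4]) (fun h => h1 (Fin.mk.inj_iff.mp h))
    simp only [List.map_cons, List.map_nil, List.sum_cons, List.sum_nil, add_zero, Nat.cast_one]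
    rw [hb' x y hx hy, hb' x z hx hz, hb' y z hy hz, hb' z y hz hy, ← this]
    ring

lemma sum_even {α : Type*} [BEq α] [LawfulBEq α] (l : List α) (f : α → ZMod 2)
    (h : ∀ a ∈ l, l.count a % 2 = 0) : (l.map f).sum = 0 := by
  classical
  rw [Finset.sum_list_map_count]
  apply Finset.sum_eq_zero
  intro a ha
  have h1 := h a (List.mem_toFinset.mp ha)
  have h2 : @List.count α instBEqOfDecidableEq a l = l.count a := by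
    unfold List.count
    apply List.countP_congr
    intro x _
    simp
  rw [← h2] at h1
  obtain ⟨m, hm⟩ := Nat.dvd_of_mod_eq_zero h1
  rw [hm, mul_comm, mul_nsmul, two_nsmul, zmod2_add_self]

/-- `c` is a list of Naji equations with the contradictory sum `0 = 1` -/
def najiOK (n : ℕ) (L : List (ℕ × ℕ)) (c : List (ℕ × ℕ × ℕ × ℕ)) : Bool :=
  c.all (eqOK n L) && ((c.map eqTerms).flatten.all fun p => (c.map eqTerms).flatten.count p % 2 == 0)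
    && (c.map eqRhs).sum % 2 == 1

lemma najiOK_sound {n : ℕ} {L : List (ℕ × ℕ)} {c : List (ℕ × ℕ × ℕ × ℕ)}
    (h : najiOK n L c = true) : ¬ Circ (ofEdges n L) Set.univ := by
  intro hc
  obtain ⟨β, hβ⟩ := hc.naji
  unfold najiOK at h
  simp only [Bool.and_eq_true, List.all_eq_true, beq_iff_eq] at h
  obtain ⟨⟨h1, h2⟩, h3⟩ := h
  set b : ℕ → ℕ → ZMod 2 := fun x y => if h : x < n ∧ y < n then β ⟨x, h.1⟩ ⟨y, h.2⟩ else 0 with hb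
  have hb' : ∀ x y : Fin n, b x.val y.val = β x y := by
    intro x y
    simp only [hb, x.isLt, y.isLt, and_self, dite_true]
  have s0 : ((c.map eqTerms).flatten.map (fun p => b p.1 p.2)).sum = 0 := sum_even _ _ h2
  have s1 : ∀ d : List (ℕ × ℕ × ℕ × ℕ), (∀ e ∈ d, eqOK n L e = true) →
      ((d.map eqTerms).flatten.map (fun p => b p.1 p.2)).sum = (((d.map eqRhs).sum : ℕ) : ZMod 2) := by
    intro d
    induction d with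
    | nil => intro _; simp
    | cons e d ih =>
      intro hd
      have h4 := eqOK_sound hβ hb' (hd e (by simp))
      have h5 := ih (fun e' he' => hd e' (by simp [he']))
      simp only [List.map_cons, List.flatten_cons, List.map_append, List.sum_append, List.sum_cons]
      rw [h4, h5]; push_cast; rfl
  have s2 := s1 c h1
  rw [s0] at s2
  have s3 : (((c.map eqRhs).sum : ℕ) : ZMod 2) = 1 := by
    rw [← ZMod.natCast_mod, h3]; rfl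
  rw [s3] at s2
  exact absurd s2 (by decide)

/-! ### Words -/

/-- first occurrence -/
def wp (w : List ℕ) (u : ℕ) : ℕ := w.idxOf u
/-- last occurrence -/
def wq (w : List ℕ) (u : ℕ) : ℕ := w.length - 1 - w.reverse.idxOf u

/-- crossing of two chords with increasing ends -/
def crossN (a b c d : ℕ) : Bool :=
  (decide (a < c) && decide (c < b) && decide (b < d)) ||
    (decide (c < a) && decide (a < d) && decide (d < b))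

/-- `w` is a double occurrence word of the graph without the vertex `v` -/
def wordOK (n : ℕ) (L : List (ℕ × ℕ)) (v : ℕ) (w : List ℕ) : Bool :=
  ((List.range n).all fun x => x == v || decide (wp w x < wq w x)) &&
  (List.range n).all fun x => x == v || (List.range n).all fun y => y == v || x == y ||
    (decide (wp w x ≠ wp w y) && decide (wp w x ≠ wq w y) && decide (wq w x ≠ wp w y) &&
      decide (wq w x ≠ wq w y) && (adjB L x y == crossN (wp w x) (wq w x) (wp w y) (wq w y)))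

lemma wordOK_sound {n : ℕ} {L : List (ℕ × ℕ)} {v : Fin n} {w : List ℕ}
    (h : wordOK n L v.val w = true) : Circ (ofEdges n L) {v}ᶜ := by
  unfold wordOK at h
  rw [Bool.and_eq_true, List.all_eq_true, List.all_eq_true] at h
  obtain ⟨h1, h2⟩ := h
  have h1' : ∀ u : Fin n, u ≠ v → wp w u.val < wq w u.val := by
    intro u hu
    have h3 := h1 u.val (List.mem_range.mpr u.isLt)
    have h4 : u.val ≠ v.val := fun h => hu (Fin.ext h)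
    simpa [h4] using h3
  refine ⟨fun u => wp w u.val, fun u => wq w u.val, ?_, ?_⟩
  · intro u hu
    have := h1' u hu
    beta_reduce; omega
  · intro u hu x hx hux
    have h3 := h2 u.val (List.mem_range.mpr u.isLt)
    have h4 : u.val ≠ v.val := fun h => hu (Fin.ext h)
    have h5 : x.val ≠ v.val := fun h => hx (Fin.ext h)
    have h6 : u.val ≠ x.val := fun h => hux (Fin.ext h)
    have h4' : (u.val == v.val) = false := by simp [h4]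
    rw [h4', Bool.false_or, List.all_eq_true] at h3
    have h7 := h3 x.val (List.mem_range.mpr x.isLt)
    have h5' : (x.val == v.val) = false := by simp [h5]
    have h6' : (u.val == x.val) = false := by simp [h6]
    rw [h5', h6', Bool.false_or, Bool.false_or] at h7
    simp only [Bool.and_eq_true, decide_eq_true_eq, beq_iff_eq] at h7
    obtain ⟨⟨⟨⟨e1, e2⟩, e3⟩, e4⟩, e5⟩ := h7
    have f1 := h1' u hu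
    have f2 := h1' x hx
    rw [adjB_iff, e5]
    unfold crossN Cross Btw
    simp only [Bool.or_eq_true, Bool.and_eq_true, decide_eq_true_eq]
    omega

/-! ### The certificates -/

/-- elimination ranks, Naji equations, words -/
def sporadicCert : List (List ℕ × List (ℕ × ℕ × ℕ × ℕ) × List (List ℕ)) := [
  -- 0
  ([4, 1, 3, 5, 0, 2, 6],
   [(3,0,4,5), (3,0,4,6), (3,0,5,6), (2,4,2,3), (2,4,2,5), (2,4,3,6), (2,5,1,3), (2,5,1,4),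
    (2,5,3,6), (2,6,1,2), (2,6,1,4), (2,6,2,5)],
   [[4,6,3,6,5,2,5,1,3,2,4,1],
    [4,5,3,2,6,0,3,6,5,2,4,0],
    [5,4,3,1,6,0,3,6,4,1,5,0],
    [6,4,2,1,5,0,2,5,4,1,6,0],
    [5,3,1,2,6,0,3,6,1,5,2,0],
    [4,3,2,1,6,0,3,6,2,4,1,0],
    [4,2,3,1,5,0,2,5,3,4,1,0]]),
  -- 1
  ([5, 4, 1, 3, 6, 0, 2, 7],
   [(3,0,5,6), (3,0,5,7), (3,0,6,7), (2,5,1,3), (2,5,1,4), (2,5,3,6), (2,5,4,7), (2,6,1,2),
    (2,6,1,4), (2,6,2,5), (2,6,4,7), (2,7,1,2), (2,7,1,3), (2,7,2,5), (2,7,3,6)],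
   [[7,4,7,6,3,6,5,2,5,1,2,3,4,1],
    [7,4,6,3,5,2,0,5,2,6,3,7,4,0],
    [5,4,7,3,1,6,0,3,6,4,1,7,5,0],
    [6,4,7,2,1,5,0,2,5,4,1,7,6,0],
    [7,3,6,2,1,5,0,2,5,3,1,6,7,0],
    [4,7,2,3,1,6,0,3,6,2,4,1,7,0],
    [4,7,3,2,1,5,0,2,5,3,4,1,7,0],
    [3,6,4,2,1,5,0,2,5,4,3,1,6,0]]),
  -- 2
  ([4, 5, 1, 3, 6, 0, 2, 7],
   [(3,0,4,5), (3,0,4,6), (3,0,5,6), (3,1,2,4), (3,1,2,7), (3,1,3,4), (3,1,3,7), (2,2,4,7),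
    (2,3,4,7), (2,4,2,5), (2,4,3,6), (2,5,1,3), (2,5,1,4), (2,5,3,6), (2,6,1,2), (2,6,1,4),
    (2,6,2,5), (2,7,0,2), (2,7,0,3)],
   [[7,4,6,3,6,5,2,5,1,2,3,7,4,1],
    [7,4,7,6,3,5,2,0,5,2,6,3,4,0],
    [5,4,3,1,6,0,3,6,7,4,1,7,5,0],
    [6,4,2,1,5,0,2,5,7,4,1,7,6,0],
    [3,6,2,7,1,7,5,0,2,5,3,1,6,0],
    [4,2,3,1,6,0,3,6,2,7,4,1,7,0],
    [4,3,2,1,5,0,2,5,3,7,4,1,7,0],
    [3,6,4,2,1,5,0,2,5,4,3,1,6,0]]),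
  -- 3
  ([4, 5, 6, 1, 3, 7, 0, 2, 8],
   [(3,0,4,5), (3,0,4,6), (3,0,5,6), (3,1,3,5), (3,1,3,7), (3,1,5,7), (3,2,3,4), (3,2,3,8),
    (3,2,4,8), (2,3,4,7), (2,3,5,8), (2,4,3,6), (2,4,5,8), (2,5,3,6), (2,5,4,7), (2,6,1,4),
    (2,6,1,5), (2,7,0,3), (2,7,0,5), (2,8,0,3), (2,8,0,4)],
   [[4,7,6,3,6,8,5,2,8,1,5,3,4,2,7,1],
    [5,7,4,7,3,2,6,0,3,6,4,8,5,2,8,0],
    [4,8,5,8,3,1,6,0,3,6,5,7,4,1,7,0],
    [6,8,2,5,8,7,4,1,7,0,2,4,5,1,6,0],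
    [5,3,2,7,1,7,6,0,3,6,8,5,2,8,1,0],
    [8,2,8,7,1,4,7,6,3,0,6,2,1,3,4,0],
    [0,8,2,5,8,3,7,4,1,7,0,2,4,3,5,1],
    [1,8,2,5,8,4,6,3,0,6,1,2,3,4,5,0],
    [2,7,1,4,7,5,6,3,0,6,2,1,3,5,4,0]]),
  -- 4
  ([2, 4, 5, 1, 0, 6, 3, 7],
   [(1,0,1,0), (3,0,1,4), (1,0,2,0), (3,0,2,4), (3,1,0,6), (1,1,2,0), (3,1,2,6), (1,1,3,0),
    (3,1,3,5), (1,1,5,0), (3,2,0,7), (3,2,1,7), (1,2,3,0), (3,2,3,5), (1,2,5,0), (3,3,1,4),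
    (3,3,2,4), (3,5,0,6), (3,5,0,7), (3,5,1,7), (3,5,2,6)],
   [[4,3,4,7,5,2,7,6,1,5,6,3,2,1],
    [3,4,7,6,5,6,2,7,0,5,3,2,4,0],
    [3,4,6,7,5,7,1,6,0,5,3,1,4,0],
    [1,6,4,0,4,7,2,5,7,1,0,2,6,5],
    [3,7,5,2,7,0,6,1,5,6,3,2,0,1],
    [3,4,7,2,7,6,1,6,0,3,2,1,4,0],
    [1,7,2,5,7,4,3,0,4,1,2,3,5,0],
    [2,6,1,5,6,4,3,0,4,2,1,3,5,0]]),
  -- 5
  ([3, 5, 4, 0, 2, 1, 6, 7],
   [(3,0,3,4), (3,0,3,5), (3,0,4,6), (3,0,5,6), (3,1,3,4), (3,1,3,7), (3,1,4,7), (2,3,2,4),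
    (2,3,2,6), (2,3,4,5), (2,3,6,7), (2,4,6,7), (2,5,1,3), (2,5,1,6), (2,6,4,5), (2,7,0,3),
    (2,7,0,4)],
   [[3,6,7,5,4,5,2,1,4,6,2,7,3,1],
    [3,7,6,7,4,2,5,0,4,5,6,2,3,0],
    [6,3,4,1,5,0,4,5,3,7,6,1,7,0],
    [2,7,1,6,7,5,4,0,5,2,1,4,6,0],
    [5,3,2,7,6,1,7,0,2,6,3,1,5,0],
    [3,4,6,2,0,7,1,6,7,4,2,3,0,1],
    [3,4,2,7,1,7,5,0,4,5,2,3,1,0],
    [3,6,4,2,1,5,0,4,5,6,2,3,1,0]]),
  -- 6
  ([3, 5, 2, 1, 0, 6, 4, 7],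
   [(1,0,1,0), (3,0,1,4), (3,0,2,4), (3,0,2,7), (3,0,3,5), (3,0,3,7), (1,0,5,0), (3,1,0,6),
    (1,1,3,0), (3,1,3,7), (3,1,6,7), (1,2,3,0), (3,2,3,5), (1,2,5,0), (3,3,1,4), (3,3,2,4),
    (3,5,0,6), (3,5,2,7), (3,5,6,7)],
   [[2,4,3,4,7,6,5,1,6,7,2,5,3,1],
    [4,2,3,7,6,5,6,0,7,2,5,4,3,0],
    [3,4,7,6,5,1,6,0,7,5,3,1,4,0],
    [4,7,2,6,5,1,6,0,2,7,5,1,4,0],
    [3,5,2,7,0,6,1,5,6,7,3,2,0,1],
    [3,4,2,7,6,1,6,0,7,3,2,1,4,0],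
    [5,7,3,2,1,4,0,3,4,5,2,7,1,0],
    [2,6,1,5,6,4,3,0,4,2,1,3,5,0]]),
  -- 7
  ([3, 4, 5, 0, 2, 1, 6, 7],
   [(3,0,3,5), (3,0,3,6), (3,0,5,6), (3,1,3,6), (3,1,3,7), (3,1,4,6), (3,1,4,7), (2,3,2,4),
    (2,3,2,7), (2,3,4,5), (2,4,6,7), (2,5,1,3), (2,5,1,6), (2,6,4,5), (2,7,0,3), (2,7,0,4)],
   [[3,7,6,5,4,5,2,1,4,7,6,2,3,1],
    [3,6,4,2,5,0,4,5,7,6,2,7,3,0],
    [6,3,4,1,5,0,4,5,3,7,6,1,7,0],
    [6,4,2,1,5,0,4,5,7,6,2,1,7,0],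
    [5,3,7,6,2,1,7,0,6,2,3,1,5,0],
    [3,2,4,6,0,7,1,2,6,7,4,3,0,1],
    [3,4,7,2,1,7,5,0,4,5,2,3,1,0],
    [3,6,4,2,1,5,0,4,5,6,2,3,1,0]]),
  -- 8
  ([3, 4, 2, 1, 0, 5, 6, 7],
   [(1,0,1,0), (3,0,1,4), (3,0,2,4), (3,0,2,7), (3,0,3,5), (3,0,3,7), (1,0,5,0), (3,1,0,6),
    (3,1,2,6), (3,1,2,7), (1,1,3,0), (3,1,3,7), (1,2,3,0), (3,2,3,5), (1,2,5,0), (3,3,1,4),
    (3,3,2,4), (3,5,0,6), (3,5,2,6)],
   [[2,4,3,4,7,6,5,1,7,6,2,5,3,1],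
    [4,2,3,6,7,5,6,0,7,2,5,4,3,0],
    [3,4,6,7,5,1,6,0,7,5,3,1,4,0],
    [4,2,6,7,5,1,6,0,7,2,5,1,4,0],
    [5,7,6,3,2,0,1,3,5,2,7,0,6,1],
    [7,3,2,1,4,0,3,4,2,6,7,1,6,0],
    [5,7,3,2,1,4,0,3,4,5,2,7,1,0],
    [2,6,1,5,6,4,3,0,4,2,1,3,5,0]]),
  -- 9
  ([3, 4, 5, 0, 2, 1, 6, 7],
   [(3,0,3,4), (3,0,3,5), (3,0,4,6), (3,0,5,6), (3,1,3,4), (3,1,3,7), (3,1,4,7), (2,3,2,5),
    (2,3,2,7), (2,4,6,7), (2,5,1,3), (2,5,1,6), (2,6,4,5), (2,7,0,3), (2,7,0,4)],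
   [[3,7,6,5,4,2,5,1,4,7,6,2,3,1],
    [3,6,5,4,2,0,5,4,7,6,2,7,3,0],
    [6,3,4,1,5,0,4,5,3,7,6,1,7,0],
    [1,6,7,5,4,0,2,5,1,4,6,0,7,2],
    [3,7,2,6,1,7,5,0,2,5,6,3,1,0],
    [3,2,4,6,0,7,1,2,6,7,4,3,0,1],
    [4,2,5,3,1,0,3,4,7,2,1,7,5,0],
    [2,4,5,6,3,1,0,3,2,6,4,1,5,0]]),
  -- 10
  ([3, 5, 2, 1, 0, 6, 4, 7],
   [(1,0,2,0), (3,0,2,7), (3,0,3,5), (3,0,3,7), (1,0,5,0), (3,1,0,4), (3,1,0,6), (3,1,2,6),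
    (3,1,2,7), (3,1,3,5), (3,1,3,7), (3,1,4,5), (3,2,0,4), (3,2,4,5), (1,2,5,0), (3,5,0,6),
    (3,5,2,6)],
   [[4,3,5,2,7,6,1,5,6,7,4,3,2,1],
    [3,6,5,6,2,7,0,5,7,4,3,2,4,0],
    [3,4,5,7,0,6,1,5,6,7,3,0,4,1],
    [6,7,2,0,5,4,1,2,4,7,0,6,5,1],
    [3,5,2,7,0,6,1,5,6,7,3,2,0,1],
    [6,3,2,4,7,0,1,7,3,2,0,4,6,1],
    [7,2,5,3,0,4,1,2,3,4,7,5,0,1],
    [5,6,3,0,4,2,1,3,4,5,0,2,6,1]]),
  -- 11
  ([4, 3, 5, 0, 2, 1, 6, 7],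
   [(3,0,3,5), (3,0,3,7), (3,0,5,7), (2,3,2,5), (2,3,2,7), (2,5,1,3), (2,5,1,6), (2,5,6,7),
    (2,7,1,3), (2,7,1,4), (2,7,4,5)],
   [[6,7,4,3,1,3,5,2,4,5,6,1,7,2],
    [3,7,6,5,4,2,0,5,4,7,6,2,3,0],
    [6,7,3,4,1,5,0,4,5,3,6,1,7,0],
    [6,7,4,1,5,2,0,4,5,6,1,7,2,0],
    [5,7,1,6,2,3,0,1,3,7,6,5,2,0],
    [3,2,4,6,1,7,0,2,6,7,4,3,1,0],
    [7,5,1,4,2,3,0,1,3,5,4,7,2,0],
    [2,4,5,6,3,1,0,3,2,6,4,1,5,0]]),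
  -- 12
  ([3, 4, 2, 1, 0, 5, 6, 7],
   [(1,0,2,0), (3,0,2,7), (3,0,3,5), (3,0,3,7), (1,0,5,0), (3,1,0,4), (3,1,0,6), (3,1,2,6),
    (3,1,2,7), (3,1,3,5), (3,1,3,7), (3,1,4,5), (3,2,0,4), (3,2,4,5), (1,2,5,0), (3,5,0,6),
    (3,5,2,6)],
   [[4,3,5,2,7,6,1,5,7,6,4,3,2,1],
    [3,5,2,7,0,6,5,7,6,4,3,2,4,0],
    [7,5,6,3,0,4,1,3,4,7,5,0,6,1],
    [7,6,2,0,5,4,1,2,4,7,0,6,5,1],
    [5,7,6,3,2,0,1,3,5,2,7,0,6,1],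
    [3,2,4,7,0,6,1,7,6,3,2,0,4,1],
    [7,2,5,3,0,4,1,2,3,4,7,5,0,1],
    [5,6,3,0,4,2,1,3,4,5,0,2,6,1]]),
  -- 13
  ([4, 2, 5, 3, 1, 0, 6, 7],
   [(3,0,3,5), (3,0,3,7), (3,0,4,6), (3,0,4,7), (3,0,5,6), (1,1,2,0), (3,1,2,5), (3,1,5,6),
    (1,1,6,0), (3,2,1,7), (1,2,4,0), (3,2,4,7), (1,3,4,0), (3,3,4,6), (1,3,6,0), (3,4,2,5),
    (3,4,3,5), (3,6,1,7), (3,6,3,7)],
   [[3,7,2,6,7,5,4,1,5,3,2,4,6,1],
    [6,7,4,3,2,5,0,4,5,6,3,7,2,0],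
    [6,7,4,3,5,1,0,4,5,6,3,1,7,0],
    [2,6,7,5,4,1,0,5,2,4,6,1,7,0],
    [6,2,7,3,5,1,0,5,6,2,3,1,7,0],
    [4,6,3,1,7,2,0,6,7,4,3,1,2,0],
    [5,2,3,4,1,7,0,2,7,3,5,4,1,0],
    [6,4,3,2,5,1,0,4,5,6,3,2,1,0]]),
  -- 14
  ([2, 4, 6, 1, 0, 5, 7, 3, 8],
   [(1,0,1,0), (3,0,1,4), (1,0,2,0), (3,0,2,4), (3,0,3,5), (3,0,3,6), (1,0,5,0), (1,0,6,0),
    (3,1,0,7), (1,1,3,0), (3,1,3,6), (3,1,6,7), (3,2,0,8), (1,2,3,0), (3,2,3,5), (3,2,5,8),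
    (3,3,1,4), (3,3,2,4), (3,5,0,7), (1,5,6,0), (3,5,6,7), (3,6,0,8), (3,6,5,8)],
   [[4,3,4,5,8,6,2,8,7,1,5,7,6,3,2,1],
    [3,4,7,5,7,8,6,2,8,0,5,6,3,2,4,0],
    [3,4,8,6,8,7,5,1,7,0,6,5,3,1,4,0],
    [4,8,6,2,8,7,5,1,7,0,6,2,5,1,4,0],
    [0,2,3,6,7,5,1,7,0,8,2,6,8,5,3,1],
    [6,3,2,7,1,7,4,0,3,4,8,6,2,8,1,0],
    [8,2,8,7,1,5,7,4,3,0,4,2,1,3,5,0],
    [4,1,2,3,6,5,0,1,8,2,6,8,5,4,3,0],
    [4,2,1,3,5,6,0,2,7,1,5,7,6,4,3,0]]),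
  -- 15
  ([2, 4, 6, 1, 0, 5, 7, 3, 8],
   [(3,0,3,5), (3,0,3,6), (1,0,5,0), (1,0,6,0), (3,1,0,4), (3,1,0,7), (3,1,3,5), (3,1,3,6),
    (3,1,4,5), (3,1,6,7), (3,2,0,4), (3,2,0,8), (3,2,4,5), (3,2,5,8), (3,5,0,7), (1,5,6,0),
    (3,5,6,7), (3,6,0,8), (3,6,5,8)],
   [[4,3,5,8,6,2,8,7,1,5,7,6,4,3,2,1],
    [3,4,6,7,5,7,0,8,2,6,8,5,3,0,4,2],
    [3,4,5,8,6,8,0,7,1,5,7,6,3,0,4,1],
    [4,5,0,8,6,2,8,7,1,5,7,0,6,4,2,1],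
    [0,2,3,6,7,5,1,7,0,8,2,6,8,5,3,1],
    [7,0,6,4,3,2,1,4,0,3,8,6,2,8,7,1],
    [5,7,3,0,4,8,2,8,1,3,4,5,0,2,7,1],
    [3,4,6,5,0,1,8,2,6,8,5,3,0,4,1,2],
    [3,4,5,6,0,2,7,1,5,7,6,3,0,4,2,1]]),
  -- 16
  ([3, 4, 2, 5, 0, 1, 6],
   [(3,0,4,5), (3,0,4,6), (3,0,5,6), (2,4,3,5), (2,4,3,6), (2,5,1,4), (2,5,1,6), (2,6,2,4),
    (2,6,2,5)],
   [[4,5,3,2,5,6,1,3,6,4,2,1],
    [4,3,5,2,6,0,3,6,5,4,2,0],
    [4,3,6,1,5,0,3,5,6,4,1,0],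
    [2,5,4,6,1,0,6,2,4,1,5,0],
    [2,5,6,1,3,0,6,2,1,5,3,0],
    [4,3,2,6,1,0,3,6,4,2,1,0],
    [4,3,1,5,2,0,3,5,4,1,2,0]]),
  -- 17
  ([4, 1, 3, 5, 6, 0, 2, 7],
   [(3,0,5,6), (3,0,5,7), (3,0,6,7), (2,5,3,6), (2,5,3,7), (2,6,1,4), (2,6,1,5), (2,6,4,7),
    (2,7,2,5), (2,7,2,6)],
   [[1,5,4,6,3,2,6,1,7,4,3,7,5,2],
    [5,3,6,4,2,7,0,3,4,7,6,5,2,0],
    [6,7,1,4,3,5,0,1,5,7,4,6,3,0],
    [6,5,4,1,2,7,0,4,7,5,1,6,2,0],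
    [5,3,1,6,2,7,0,3,7,6,5,1,2,0],
    [6,4,1,2,7,3,0,4,7,1,6,2,3,0],
    [5,4,3,2,1,7,0,4,3,7,5,2,1,0],
    [5,3,4,1,6,2,0,3,6,4,5,1,2,0]]),
  -- 18
  ([2, 4, 6, 5, 7, 0, 1, 3, 8],
   [(1,0,1,0), (3,0,1,6), (1,0,2,0), (3,0,2,6), (3,1,0,7), (1,1,2,0), (3,1,2,7), (3,2,0,5),
    (3,2,1,8), (3,2,5,8), (3,3,0,5), (3,3,0,7), (3,3,2,6), (3,3,2,7), (3,3,5,6), (3,4,1,6),
    (3,4,1,8), (3,4,5,6), (3,4,5,8)],
   [[6,1,5,8,2,4,8,7,3,1,7,5,2,6,4,3],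
    [7,5,0,2,6,4,3,0,6,5,8,2,4,8,7,3],
    [1,7,5,6,0,8,4,8,3,6,1,0,5,4,7,3],
    [2,8,7,1,7,5,6,0,4,6,2,1,0,5,8,4],
    [7,5,0,8,2,8,1,6,3,0,6,5,2,7,1,3],
    [0,4,6,2,7,1,3,7,0,8,4,2,8,1,6,3],
    [3,7,5,0,8,4,2,8,1,3,0,5,4,2,7,1],
    [8,3,5,0,1,2,6,4,3,0,6,5,1,8,2,4],
    [7,4,5,0,2,1,6,3,4,0,6,5,2,7,1,3]]),
  -- 19
  ([2, 5, 7, 3, 6, 8, 0, 1, 4, 9],
   [(3,0,4,6), (3,0,4,7), (3,0,5,6), (3,0,5,7), (3,1,3,6), (3,1,3,8), (3,1,5,6), (3,1,5,8),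
    (3,2,3,6), (3,2,3,9), (3,2,4,6), (3,2,4,9), (1,3,4,0), (3,3,4,7), (1,3,5,0), (3,3,5,7),
    (3,4,3,8), (1,4,5,0), (3,4,5,8), (3,5,3,9), (3,5,4,9)],
   [[6,4,7,3,7,9,5,2,9,8,1,4,8,3,5,6,2,1],
    [6,3,8,4,8,9,5,2,9,7,0,3,7,4,5,6,2,0],
    [6,3,9,5,9,8,4,1,8,7,0,3,7,5,4,6,1,0],
    [7,2,6,5,8,4,1,8,0,9,2,5,9,4,6,1,7,0],
    [6,3,9,5,2,9,8,1,8,7,0,3,7,5,6,2,1,0],
    [9,2,9,1,6,4,7,3,0,7,2,8,1,4,8,3,6,0],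
    [3,7,9,5,2,9,8,4,1,8,0,3,5,2,4,1,7,0],
    [0,2,6,5,3,8,4,1,8,0,9,2,5,9,3,4,6,1],
    [1,2,6,5,4,7,3,0,7,1,9,2,5,9,4,3,6,0],
    [2,1,6,4,5,7,3,0,7,2,8,1,4,8,5,3,6,0]])]

/-- the full check -/
def sporadicOK (p : ℕ × List (ℕ × ℕ)) (c : List ℕ × List (ℕ × ℕ × ℕ × ℕ) × List (List ℕ)) : Bool :=
  rankOK p.1 p.2 c.1 && najiOK p.1 p.2 c.2.1 &&
    (List.range p.1).all fun v => wordOK p.1 p.2 v (c.2.2.getD v [])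

set_option maxRecDepth 100000 in
lemma sporadic_check : ∀ t : Fin 20, sporadicOK (sporadic[t.val]'t.isLt)
    (sporadicCert[t.val]'t.isLt) = true := by
  decide +kernel

lemma sporadic_all : ∀ p ∈ sporadic, ∃ c, sporadicOK p c = true := by
  intro p hp
  obtain ⟨t, ht, rfl⟩ := List.mem_iff_getElem.mp hp
  exact ⟨_, sporadic_check ⟨t, ht⟩⟩

theorem sporadic_chordal : ∀ p ∈ sporadic, IsChordal (ofEdges p.1 p.2) := by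
  intro p hp
  obtain ⟨c, hc⟩ := sporadic_all p hp
  unfold sporadicOK at hc
  simp only [Bool.and_eq_true] at hc
  exact rankOK_sound hc.1.1

theorem sporadic_not_circ : ∀ p ∈ sporadic, ¬ Circ (ofEdges p.1 p.2) Set.univ := by
  intro p hp
  obtain ⟨c, hc⟩ := sporadic_all p hp
  unfold sporadicOK at hc
  simp only [Bool.and_eq_true] at hc
  exact najiOK_sound hc.1.2

theorem sporadic_circ : ∀ p ∈ sporadic, ∀ S : Set (Fin p.1), S ≠ Set.univ →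
    Circ (ofEdges p.1 p.2) S := by
  intro p hp S hS
  obtain ⟨c, hc⟩ := sporadic_all p hp
  unfold sporadicOK at hc
  simp only [Bool.and_eq_true, List.all_eq_true] at hc
  obtain ⟨v, hv⟩ := (Set.ne_univ_iff_exists_notMem S).mp hS
  have h1 := hc.2 v.val (List.mem_range.mpr v.isLt)
  exact (wordOK_sound h1).mono (fun y hy h => hv (h ▸ hy))

end Pool.Agent.Lib.MP_50b720_co
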