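import Pool.Agent.Lib.MP_50b720_co.Full.Conf
import Pool.Agent.Lib.MP_50b720_co.Main

set_option autoImplicit false

namespace Pool.Agent.Lib.MP_50b720_co

open SimpleGraph

variable {V : Type*} {G : SimpleGraph V}

/-- `C` is a connected component of `G[U']` -/
structure IsComp (G : SimpleGraph V) (U' C : Set V) : Prop where
  sub : C ⊆ U'
  cn : Cn G C
  closed : ∀ x ∈ C, ∀ y ∈ U', y ∉ C → ¬ G.Adj x y

lemma isComp_comp {U' : Set V} {a : V} (ha : a ∈ U') : IsComp G U' (comp G U' a) :=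
  ⟨comp_sub ha, comp_cn ha, fun _ hx _ hy hy' h => hy' (comp_step hx (comp_sub ha hx) hy h)⟩

/-- a connected subset meeting a component is contained in it -/
lemma IsComp.absorb {U' C D : Set V} (h : IsComp G U' C) (hD : Cn G D) (hDU : D ⊆ U') {x : V}
    (hx : x ∈ D) (hxC : x ∈ C) : D ⊆ C := by
  by_contra hcon
  obtain ⟨u, hu, v, hv, huv⟩ := hD.2 (D ∩ C) Set.inter_subset_left ⟨x, hx, hxC⟩
    (fun h' => hcon (by rw [← h']; exact Set.inter_subset_right))
  exact h.closed u hu.2 v (hDU hv.1) (fun h' => hv.2 ⟨hv.1, h'⟩) huv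

lemma IsComp.eq_of_mem {U' C D : Set V} (hC : IsComp G U' C) (hD : IsComp G U' D) {x : V}
    (hx : x ∈ C) (hx' : x ∈ D) : C = D :=
  Set.Subset.antisymm (hD.absorb hC.cn hC.sub hx hx') (hC.absorb hD.cn hD.sub hx' hx)

/-- `K` is a clique -/
def Clq (G : SimpleGraph V) (K : Set V) : Prop := ∀ x ∈ K, ∀ y ∈ K, x ≠ y → G.Adj x y

/-- every vertex of `S` has a neighbour in `A` -/
def Ful (G : SimpleGraph V) (S A : Set V) : Prop := ∀ s ∈ S, ∃ x ∈ A, G.Adj s x

/-- `G[U]` is a split graph -/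
def SplitOn (G : SimpleGraph V) (U : Set V) : Prop :=
  ∃ K ⊆ U, Clq G K ∧ ∀ x ∈ U, ∀ y ∈ U, x ∉ K → y ∉ K → ¬ G.Adj x y

/-- maximal clique of `G[U]` -/
structure MaxClq (G : SimpleGraph V) (U K : Set V) : Prop where
  sub : K ⊆ U
  clq : Clq G K
  max : ∀ x ∈ U, x ∉ K → ∃ k ∈ K, ¬ G.Adj x k

lemma exists_maxClq [Finite V] {U K0 : Set V} (h0 : K0 ⊆ U) (hc : Clq G K0) :
    ∃ K, K0 ⊆ K ∧ MaxClq G U K := by
  have hfin : {K : Set V | K0 ⊆ K ∧ K ⊆ U ∧ Clq G K}.Finite := Set.toFinite _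
  obtain ⟨K, hK⟩ := hfin.exists_maximal ⟨K0, subset_rfl, h0, hc⟩
  obtain ⟨⟨h1, h2, h3⟩, hmax⟩ := hK
  refine ⟨K, h1, h2, h3, fun x hx hxK => ?_⟩
  by_contra hcon
  push Not at hcon
  have := hmax (y := insert x K) ⟨h1.trans (Set.subset_insert _ _), Set.insert_subset hx h2, by
    rintro a (rfl | ha) b (rfl | hb) hab
    · exact absurd rfl hab
    · exact hcon b hb
    · exact (hcon a ha).symm
    · exact h3 a ha b hb hab⟩ (Set.subset_insert _ _)
  exact hxK (this (Set.mem_insert _ _))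

/-- a separating clique with two nontrivial full components -/
def Type2 (G : SimpleGraph V) (U S : Set V) : Prop :=
  S ⊆ U ∧ Clq G S ∧ ∃ A B, IsComp G (U \ S) A ∧ IsComp G (U \ S) B ∧ A ≠ B ∧ A.Nontrivial ∧
    B.Nontrivial ∧ Ful G S A ∧ Ful G S B

/-- the neighbourhood of `C` in `K` -/
def Nb (G : SimpleGraph V) (K C : Set V) : Set V := {s ∈ K | ∃ x ∈ C, G.Adj s x}

lemma nontriv_of_adj {U' : Set V} {x y : V} (hx : x ∈ U') (hy : y ∈ U') (hxy : G.Adj x y) :
    (comp G U' x).Nontrivial :=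
  ⟨x, self_mem_comp G U' x, y, comp_step (self_mem_comp G U' x) hx hy hxy, hxy.ne⟩

theorem type2_aux [Finite V] (hG : IsChordal G) {U : Set V} (hns : ¬ SplitOn G U) :
    ∀ (n : ℕ) (K C : Set V), MaxClq G U K → IsComp G (U \ K) C → C.Nontrivial → C.ncard = n →
      ∃ S, Type2 G U S := by
  intro n
  induction n using Nat.strong_induction_on with
  | _ n ih =>
  intro K C hK hC hCn hcard
  set S := Nb G K C with hS
  have hSK : S ⊆ K := fun s hs => hs.1
  have hSU : S ⊆ U := hSK.trans hK.sub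
  have hScl : Clq G S := fun x hx y hy => hK.clq x (hSK hx) y (hSK hy)
  have hCU : C ⊆ U := hC.sub.trans Set.diff_subset
  have hCK : ∀ x ∈ C, x ∉ K := fun x hx => (hC.sub hx).2
  have hCS : IsComp G (U \ S) C := by
    refine ⟨fun x hx => ⟨hCU hx, fun h => hCK x hx (hSK h)⟩, hC.cn, fun x hx y hy hyC hxy => ?_⟩
    by_cases hyK : y ∈ K
    · exact hy.2 ⟨hyK, x, hx, hxy.symm⟩
    · exact hC.closed x hx y ⟨hy.1, hyK⟩ hyC hxy
  have hCf : Ful G S C := fun s hs => hs.2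
  obtain ⟨v, hvK, hvS⟩ : ∃ v ∈ K, v ∉ S := by
    by_contra hcon
    push Not at hcon
    obtain ⟨c, hc, hc'⟩ := exists_full hG hK.clq C hC.cn (fun t ht h => hCK t h ht)
      (fun t ht => (hcon t ht).2)
    obtain ⟨k, hk, hk'⟩ := hK.max c (hCU hc) (hCK c hc)
    exact hk' (hc' k hk).symm
  have hvU : v ∈ U \ S := ⟨hK.sub hvK, hvS⟩
  have hvs : ∀ s ∈ S, G.Adj s v := fun s hs => hK.clq s (hSK hs) v hvK (fun h => hvS (h ▸ hs))
  have hvC : v ∉ C := fun h => hCK v h hvK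
  by_cases hnt : (comp G (U \ S) v).Nontrivial
  · refine ⟨S, hSU, hScl, C, comp G (U \ S) v, hCS, isComp_comp hvU, ?_, hCn, hnt, hCf,
      fun s hs => ⟨v, self_mem_comp G _ v, hvs s hs⟩⟩
    intro h
    exact hvC (h ▸ self_mem_comp G _ v)
  · have hviso : ∀ y ∈ U \ S, ¬ G.Adj v y := fun y hy h => hnt (nontriv_of_adj hvU hy h)
    obtain ⟨c, hc, hcS⟩ := exists_full hG hScl C hC.cn (fun t ht h => hCK t h (hSK ht)) hCf
    obtain ⟨K', hSK', hK'⟩ := exists_maxClq (G := G) (U := U) (K0 := insert c S)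
      (Set.insert_subset (hCU hc) hSU) (by
        rintro a (rfl | ha) b (rfl | hb) hab
        · exact absurd rfl hab
        · exact (hcS b hb).symm
        · exact hcS a ha
        · exact hScl a ha b hb hab)
    have hcK' : c ∈ K' := hSK' (Set.mem_insert _ _)
    have hSK'' : S ⊆ K' := (Set.subset_insert _ _).trans hSK'
    have hK'sub : ∀ x ∈ K', x ∉ S → x ∈ C := by
      intro x hx hxS
      by_contra hxC
      by_cases hxc : x = c
      · exact hxC (hxc ▸ hc)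
      · exact hCS.closed c hc x ⟨hK'.sub hx, hxS⟩ hxC (hK'.clq c hcK' x hx (Ne.symm hxc))
    obtain ⟨x, y, hx, hy, hxK', hyK', hxy⟩ : ∃ x y, x ∈ U ∧ y ∈ U ∧ x ∉ K' ∧ y ∉ K' ∧
        G.Adj x y := by
      by_contra hcon
      push Not at hcon
      exact hns ⟨K', hK'.sub, hK'.clq, fun x hx y hy h1 h2 => hcon x y hx hy h1 h2⟩
    set D := comp G (U \ K') x with hD
    have hDc : IsComp G (U \ K') D := isComp_comp ⟨hx, hxK'⟩
    have hDn : D.Nontrivial := nontriv_of_adj ⟨hx, hxK'⟩ ⟨hy, hyK'⟩ hxy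
    have hDS : D ⊆ U \ S := fun z hz => ⟨(hDc.sub hz).1, fun h => (hDc.sub hz).2 (hSK'' h)⟩
    by_cases hDC : ∃ z ∈ D, z ∈ C
    · obtain ⟨z, hz, hzC⟩ := hDC
      have hsub : D ⊆ C := hCS.absorb hDc.cn hDS hz hzC
      have hlt : D.ncard < C.ncard := by
        apply Set.ncard_lt_ncard _ (Set.toFinite _)
        exact ⟨hsub, fun h => (hDc.sub (h hc)).2 hcK'⟩
      exact ih D.ncard (by omega) K' D hK' hDc hDn rfl
    · push Not at hDC
      set S' := Nb G S D with hS'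
      have hS'S : S' ⊆ S := fun s hs => hs.1
      have hDS' : IsComp G (U \ S') D := by
        refine ⟨fun z hz => ⟨(hDS hz).1, fun h => (hDS hz).2 (hS'S h)⟩, hDc.cn,
          fun z hz w hw hwD hzw => ?_⟩
        by_cases hwS : w ∈ S
        · exact hw.2 ⟨hwS, z, hz, hzw.symm⟩
        · by_cases hwK' : w ∈ K'
          · exact hCS.closed w (hK'sub w hwK' hwS) z (hDS hz) (hDC z hz) hzw.symm
          · exact hDc.closed z hz w ⟨hw.1, hwK'⟩ hwD hzw
      have hDf : Ful G S' D := fun s hs => hs.2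
      have hvD : v ∉ D := by
        intro hvD
        obtain ⟨a, ha, b, hb, hab⟩ := hDn
        obtain ⟨a', ha', b', hb', h'⟩ := hDc.cn.2 {v} (by simpa using hvD) ⟨v, rfl⟩ (by
          intro h
          rw [← h] at ha hb
          exact hab ((Set.mem_singleton_iff.mp ha).trans (Set.mem_singleton_iff.mp hb).symm))
        rw [Set.mem_singleton_iff] at ha'
        subst ha'
        exact hviso b' (hDS hb'.1) h'
      by_cases hSS : S' = S
      · rw [hSS] at hDS' hDf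
        refine ⟨S, hSU, hScl, C, D, hCS, hDS', ?_, hCn, hDn, hCf, hDf⟩
        intro h
        obtain ⟨z, hz⟩ := hDc.cn.1
        exact hDC z hz (h ▸ hz)
      · obtain ⟨s0, hs0, hs0'⟩ : ∃ s ∈ S, s ∉ S' := by
          by_contra hcon
          push Not at hcon
          exact hSS (Set.Subset.antisymm hS'S hcon)
        have hvU' : v ∈ U \ S' := ⟨hvU.1, fun h => hvS (hS'S h)⟩
        refine ⟨S', hS'S.trans hSU, fun a ha b hb => hScl a (hS'S ha) b (hS'S hb), D,
          comp G (U \ S') v, hDS', isComp_comp hvU', ?_, hDn,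
          nontriv_of_adj hvU' ⟨hSU hs0, hs0'⟩ (hvs s0 hs0).symm, hDf,
          fun s hs => ⟨v, self_mem_comp G _ v, hvs s (hS'S hs)⟩⟩
        intro h
        exact hvD (h ▸ self_mem_comp G _ v)

/-- every nonsplit chordal graph has a separating clique with two nontrivial full components -/
theorem exists_type2 [Finite V] (hG : IsChordal G) {U : Set V} (hns : ¬ SplitOn G U) :
    ∃ S, Type2 G U S := by
  obtain ⟨K, _, hK⟩ := exists_maxClq (G := G) (U := U) (K0 := ∅) (Set.empty_subset _)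
    (fun x hx => absurd hx (Set.notMem_empty x))
  obtain ⟨x, y, hx, hy, hxK', hyK', hxy⟩ : ∃ x y, x ∈ U ∧ y ∈ U ∧ x ∉ K ∧ y ∉ K ∧
      G.Adj x y := by
    by_contra hcon
    push Not at hcon
    exact hns ⟨K, hK.sub, hK.clq, fun x hx y hy h1 h2 => hcon x y hx hy h1 h2⟩
  exact type2_aux hG hns _ K (comp G (U \ K) x) hK (isComp_comp ⟨hx, hxK'⟩)
    (nontriv_of_adj ⟨hx, hxK'⟩ ⟨hy, hyK'⟩ hxy) rfl

end Pool.Agent.Lib.MP_50b720_co
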